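import Pool.Agent.MP_c5bf7b_nt.H38.SpecA

/-! Summation by parts for Dirichlet L-functions in the half plane of positive real part. -/

set_option autoImplicit false

namespace Pool.Agent.MP_c5bf7b_nt.H38

open Finset Complex Filter Topology

namespace BaseA

variable {q : ℕ} [NeZero q]

theorem period_zero {χ : Ch q} (hχ : χ ≠ 1) (c : ℕ) : ∑ n ∈ range q, χ ((c + n : ℕ) : ZMod q) = 0 := by
  have h1 : ∑ n ∈ range q, χ ((c + n : ℕ) : ZMod q) = ∑ x : ZMod q, χ ((c : ZMod q) + x) := by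
    refine sum_bij' (fun n _ => (n : ZMod q)) (fun x _ => x.val) (fun _ _ => mem_univ _)
      (fun x _ => mem_range.2 (ZMod.val_lt x)) (fun n hn => ZMod.val_cast_of_lt (mem_range.1 hn))
      (fun x _ => ZMod.natCast_zmod_val x) (fun n _ => ?_)
    rw [Nat.cast_add]
  rw [h1]
  exact (Equiv.sum_comp (Equiv.addLeft (c : ZMod q)) χ).trans (MulChar.sum_eq_zero_of_ne_one hχ)

theorem range_le {χ : Ch q} (hχ : χ ≠ 1) (c M : ℕ) :
    ‖∑ n ∈ range M, χ ((c + n : ℕ) : ZMod q)‖ ≤ q := by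
  induction M using Nat.strong_induction_on with
  | _ M ih =>
    rcases le_or_gt M q with hM | hM
    · refine (norm_sum_le _ _).trans ?_
      refine (sum_le_card_nsmul (range M) (fun n : ℕ => ‖χ ((c + n : ℕ) : ZMod q)‖) 1
        fun n _ => χ.norm_le_one _).trans ?_
      simpa using hM
    · obtain ⟨K, rfl⟩ : ∃ K, M = K + q := ⟨M - q, by omega⟩
      have h0 := period_zero hχ (c + K)
      simp only [add_assoc] at h0
      rw [sum_range_add, h0, add_zero]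
      exact ih K (by have := NeZero.pos q; omega)

theorem ioc_le {χ : Ch q} (hχ : χ ≠ 1) (a b : ℕ) : ‖∑ k ∈ Ioc a b, χ k‖ ≤ q := by
  rw [← Finset.Ico_add_one_add_one_eq_Ioc, sum_Ico_eq_sum_range]
  exact range_le hχ _ _

theorem cpow_diff {x : ℝ} (hx : 1 ≤ x) {s : ℂ} (hs : 0 < s.re) :
    ‖(x : ℂ) ^ (-s) - ((x + 1 : ℝ) : ℂ) ^ (-s)‖ ≤ ‖s‖ * x ^ (-s.re - 1) := by
  have hs0 : -s ≠ 0 := by
    rw [neg_ne_zero]; rintro rfl; simp at hs
  have h := norm_image_sub_le_of_norm_deriv_le_segment' (f := fun y : ℝ => (y : ℂ) ^ (-s))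
    (f' := fun y : ℝ => -s * (y : ℂ) ^ (-s - 1)) (a := x) (b := x + 1) (C := ‖s‖ * x ^ (-s.re - 1))
    (fun y hy => (hasDerivAt_ofReal_cpow_const (by linarith [hy.1]) hs0).hasDerivWithinAt)
    (fun y hy => by
      have hy0 : 0 < y := by linarith [hy.1]
      rw [norm_mul, norm_neg, norm_cpow_eq_rpow_re_of_pos hy0]
      refine mul_le_mul_of_nonneg_left ?_ (norm_nonneg _)
      simp only [sub_re, neg_re, one_re]
      exact Real.rpow_le_rpow_of_nonpos (by linarith) hy.1 (by linarith))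
    (x + 1) ⟨by linarith, le_rfl⟩
  rw [norm_sub_rev]
  simpa using h

theorem tele {x σ : ℝ} (hx : 0 < x) (hσ : 0 < σ) :
    σ * (x + 1) ^ (-σ - 1) ≤ x ^ (-σ) - (x + 1) ^ (-σ) := by
  have hy : 0 < x + 1 := by linarith
  have h1 : 1 / (x + 1) ≤ Real.log (x + 1) - Real.log x := by
    rw [← Real.log_div hy.ne' hx.ne']
    refine le_trans (le_of_eq ?_) (Real.one_sub_inv_le_log_of_pos (by positivity))
    field_simp
    ring
  have h2 : x ^ (-σ) = (x + 1) ^ (-σ) * Real.exp (σ * (Real.log (x + 1) - Real.log x)) := by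
    rw [Real.rpow_def_of_pos hx, Real.rpow_def_of_pos hy, ← Real.exp_add]
    congr 1; ring
  have h3 := Real.add_one_le_exp (σ * (Real.log (x + 1) - Real.log x))
  have h4 : (x + 1) ^ (-σ - 1) = (x + 1) ^ (-σ) * (1 / (x + 1)) := by
    rw [Real.rpow_sub_one hy.ne']; ring
  have h5 : 0 < (x + 1) ^ (-σ) := Real.rpow_pos_of_pos hy _
  have h6 : σ * (1 / (x + 1)) ≤ σ * (Real.log (x + 1) - Real.log x) :=
    mul_le_mul_of_nonneg_left h1 hσ.le
  rw [h4, h2]
  nlinarith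

theorem sum_rpow_le {N : ℕ} (hN : 1 ≤ N) {σ : ℝ} (hσ : 0 < σ) (M : ℕ) :
    ∑ n ∈ range M, ((N + n : ℕ) : ℝ) ^ (-σ - 1) ≤ (1 + 1 / σ) * (N : ℝ) ^ (-σ) := by
  have hN1 : (1 : ℝ) ≤ N := by exact_mod_cast hN
  have key : ∀ M : ℕ, σ * ∑ n ∈ range M, ((N + (n + 1) : ℕ) : ℝ) ^ (-σ - 1) ≤
      (N : ℝ) ^ (-σ) - ((N + M : ℕ) : ℝ) ^ (-σ) := by
    intro M
    induction M with
    | zero => simp
    | succ M ih =>
      have h := tele (x := ((N + M : ℕ) : ℝ)) (by push_cast; positivity) hσ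
      have e : ((N + M : ℕ) : ℝ) + 1 = ((N + (M + 1) : ℕ) : ℝ) := by push_cast; ring
      rw [e] at h
      rw [sum_range_succ, mul_add]
      linarith
  have h0 : 0 ≤ (N : ℝ) ^ (-σ) := by positivity
  rcases M with _ | M
  · simp only [range_zero, sum_empty]; positivity
  · rw [sum_range_succ', add_mul, one_mul, add_comm]
    refine add_le_add ?_ ?_
    · rw [Nat.add_zero]
      exact Real.rpow_le_rpow_of_exponent_le hN1 (by linarith)
    · have h1 := key M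
      have h2 : 0 ≤ ((N + M : ℕ) : ℝ) ^ (-σ) := by positivity
      rw [one_div, ← div_eq_inv_mul, le_div_iff₀ hσ, mul_comm]
      linarith

theorem summable_rpow {N : ℕ} (hN : 1 ≤ N) {σ : ℝ} (hσ : 0 < σ) :
    Summable fun n : ℕ => ((N + n : ℕ) : ℝ) ^ (-σ - 1) :=
  summable_of_sum_range_le (fun _ => by positivity) (sum_rpow_le hN hσ)

/-- The terms after summation by parts. -/
noncomputable def tm (χ : Ch q) (N n : ℕ) (s : ℂ) : ℂ :=
  (∑ k ∈ Ioc N (N + n), χ k) * (((N + n : ℕ) : ℂ) ^ (-s) - ((N + n + 1 : ℕ) : ℂ) ^ (-s))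

omit [NeZero q] in
theorem tm_le (χ : Ch q) {N : ℕ} (hN : 1 ≤ N) (n : ℕ) {s : ℂ} (hs : 0 < s.re) :
    ‖tm χ N n s‖ ≤ ‖s‖ * (‖∑ k ∈ Ioc N (N + n), χ k‖ * ((N + n : ℕ) : ℝ) ^ (-s.re - 1)) := by
  have hn : (1 : ℝ) ≤ (N + n : ℕ) := by exact_mod_cast (by omega : 1 ≤ N + n)
  have h3 := cpow_diff hn hs
  have h4 : ((((N + n : ℕ) : ℝ) + 1 : ℝ) : ℂ) = ((N + n + 1 : ℕ) : ℂ) := by push_cast; ring
  rw [h4, ofReal_natCast] at h3
  rw [tm, norm_mul, mul_left_comm]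
  exact mul_le_mul_of_nonneg_left h3 (norm_nonneg _)

omit [NeZero q] in
theorem sum_tm (χ : Ch q) (N M : ℕ) (s : ℂ) :
    ∑ n ∈ range M, tm χ N n s = ∑ k ∈ Ioc N (N + M), χ k * (k : ℂ) ^ (-s) -
      (∑ k ∈ Ioc N (N + M), χ k) * ((N + M : ℕ) : ℂ) ^ (-s) := by
  induction M with
  | zero => simp
  | succ M ih =>
    rw [sum_range_succ, ih, ← add_assoc, sum_Ioc_succ_top (Nat.le_add_right N M),
      sum_Ioc_succ_top (Nat.le_add_right N M), tm]
    ring

theorem summable_A {χ : Ch q} (hχ : χ ≠ 1) {N : ℕ} (hN : 1 ≤ N) {σ : ℝ} (hσ : 0 < σ) :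
    Summable fun n : ℕ => ‖∑ k ∈ Ioc N (N + n), χ k‖ * ((N + n : ℕ) : ℝ) ^ (-σ - 1) :=
  Summable.of_nonneg_of_le (fun _ => by positivity)
    (fun n => mul_le_mul_of_nonneg_right (ioc_le hχ _ _) (by positivity))
    ((summable_rpow hN hσ).mul_left (q : ℝ))

theorem summable_tm {χ : Ch q} (hχ : χ ≠ 1) {N : ℕ} (hN : 1 ≤ N) {s : ℂ} (hs : 0 < s.re) :
    Summable fun n => tm χ N n s :=
  Summable.of_norm_bounded ((summable_A hχ hN hs).mul_left ‖s‖) fun n => tm_le χ hN n hs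

theorem eq_of_one_lt {χ : Ch q} (hχ : χ ≠ 1) {N : ℕ} (hN : 1 ≤ N) {s : ℂ} (hs : 1 < s.re) :
    DirichletCharacter.LFunction χ s - ∑ n ∈ Icc 1 N, χ n * (n : ℂ) ^ (-s) =
      ∑' n, tm χ N n s := by
  have h1 := (summable_tm hχ hN (s := s) (by linarith)).hasSum.tendsto_sum_nat
  refine tendsto_nhds_unique ?_ h1
  simp only [sum_tm]
  have h2 := (DirichletCharacter.LSeriesSummable_of_one_lt_re χ hs).hasSum.tendsto_sum_nat
  have h3 := (tendsto_add_atTop_iff_nat (N + 1)).2 h2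
  have h4 : Tendsto (fun M : ℕ => (∑ k ∈ Ioc N (N + M), χ k) * ((N + M : ℕ) : ℂ) ^ (-s)) atTop
      (𝓝 0) := by
    refine squeeze_zero_norm (a := fun M : ℕ => (q : ℝ) * ((M + N : ℕ) : ℝ) ^ (-s.re))
      (fun M => ?_) ?_
    · rw [norm_mul, norm_natCast_cpow_of_pos (by omega), neg_re, add_comm M N]
      exact mul_le_mul_of_nonneg_right (ioc_le hχ _ _) (by positivity)
    · have h5 : Tendsto (fun M : ℕ => (M : ℝ) ^ (-s.re)) atTop (𝓝 0) :=
        (tendsto_rpow_neg_atTop (by linarith)).comp tendsto_natCast_atTop_atTop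
      simpa using ((tendsto_add_atTop_iff_nat N).2 h5).const_mul (q : ℝ)
  have h6 := (h3.sub_const (∑ n ∈ Icc 1 N, χ n * (n : ℂ) ^ (-s))).sub h4
  rw [sub_zero] at h6
  rw [DirichletCharacter.LFunction_eq_LSeries χ hs]
  refine h6.congr fun M => ?_
  congr 1
  have e1 : ∑ i ∈ range (M + (N + 1)), LSeries.term (fun n : ℕ => χ n) s i =
      ∑ k ∈ Ioc 0 (N + M), χ k * (k : ℂ) ^ (-s) := by
    rw [← Finset.Ico_add_one_add_one_eq_Ioc, sum_Ico_eq_sum_range, ← add_assoc, sum_range_succ',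
      LSeries.term_zero, add_zero, add_comm M N]
    simp only [zero_add, add_tsub_cancel_right]
    refine sum_congr rfl fun n _ => ?_
    rw [LSeries.term_of_ne_zero n.succ_ne_zero, cpow_neg, div_eq_mul_inv, add_comm 1 n]
  have e2 : Icc 1 N = Ioc 0 N := rfl
  rw [e1, e2, ← sum_Ioc_consecutive _ (Nat.zero_le N) (Nat.le_add_right N M)]
  ring

theorem eq_tsum {χ : Ch q} (hχ : χ ≠ 1) {N : ℕ} (hN : 1 ≤ N) {s : ℂ} (hs : 0 < s.re) :
    DirichletCharacter.LFunction χ s - ∑ n ∈ Icc 1 N, χ n * (n : ℂ) ^ (-s) =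
      ∑' n, tm χ N n s := by
  obtain ⟨a, ha0, ha1, ha2⟩ : ∃ a : ℝ, 0 < a ∧ a < s.re ∧ a < 2 :=
    ⟨min (s.re / 2) 1, by positivity, (min_le_left _ _).trans_lt (by linarith),
      (min_le_right _ _).trans_lt (by norm_num)⟩
  obtain ⟨R, hR1, hR2⟩ : ∃ R : ℝ, ‖s‖ < R ∧ 2 < R :=
    ⟨‖s‖ + 3, by linarith, by linarith [norm_nonneg s]⟩
  obtain ⟨U, hU⟩ : ∃ U : Set ℂ, U = {z : ℂ | a < z.re} ∩ Metric.ball 0 R := ⟨_, rfl⟩
  have hUo : IsOpen U := hU ▸ (isOpen_lt continuous_const continuous_re).inter Metric.isOpen_ball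
  have hUc : IsPreconnected U :=
    hU ▸ ((convex_halfSpace_re_gt a).inter (convex_ball 0 R)).isPreconnected
  have hsU : s ∈ U := hU ▸ ⟨ha1, by simpa using hR1⟩
  have h2U : (2 : ℂ) ∈ U := hU ▸ ⟨by simpa using ha2, by simpa using hR2⟩
  have d1 : DifferentiableOn ℂ (fun z => ∑' n, tm χ N n z) U := by
    refine differentiableOn_tsum_of_summable_norm ((summable_A hχ hN ha0).mul_left R)
      (fun n => ?_) hUo fun n z hz => ?_
    · refine Differentiable.differentiableOn (Differentiable.const_mul (Differentiable.sub ?_ ?_) _)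
      · exact differentiable_id.neg.const_cpow (Or.inl (Nat.cast_ne_zero.2 (by omega)))
      · exact differentiable_id.neg.const_cpow (Or.inl (Nat.cast_ne_zero.2 (by omega)))
    · rw [hU] at hz
      have hz1 : a < z.re := hz.1
      have hz2 : ‖z‖ < R := by simpa using hz.2
      have hn : (1 : ℝ) ≤ (N + n : ℕ) := by exact_mod_cast (by omega : 1 ≤ N + n)
      refine (tm_le χ hN n (by linarith)).trans ?_
      have : ((N + n : ℕ) : ℝ) ^ (-z.re - 1) ≤ ((N + n : ℕ) : ℝ) ^ (-a - 1) :=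
        Real.rpow_le_rpow_of_exponent_le hn (by linarith)
      have hR0 : 0 ≤ R := by linarith
      gcongr
  have d2 : Differentiable ℂ fun z => DirichletCharacter.LFunction χ z -
      ∑ n ∈ Icc 1 N, χ n * (n : ℂ) ^ (-z) := by
    refine (DirichletCharacter.differentiable_LFunction hχ).sub ?_
    refine Differentiable.fun_sum fun n hn => Differentiable.const_mul ?_ _
    have := (mem_Icc.1 hn).1
    exact differentiable_id.neg.const_cpow (Or.inl (Nat.cast_ne_zero.2 (by omega)))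
  have hev : (fun z => DirichletCharacter.LFunction χ z - ∑ n ∈ Icc 1 N, χ n * (n : ℂ) ^ (-z))
      =ᶠ[𝓝 2] fun z => ∑' n, tm χ N n z := by
    have : {z : ℂ | 1 < z.re} ∈ 𝓝 (2 : ℂ) :=
      (isOpen_lt continuous_const continuous_re).mem_nhds (by simp)
    filter_upwards [this] with z hz using eq_of_one_lt hχ hN hz
  exact (d2.differentiableOn.analyticOnNhd hUo).eqOn_of_preconnected_of_eventuallyEq
    (d1.analyticOnNhd hUo) hUc h2U hev hsU

end BaseA

open BaseA in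
theorem base : BaseS := by
  intro q _ χ hχ
  refine ⟨ioc_le hχ, fun s N hs hN => ?_⟩
  have h1 : ‖DirichletCharacter.LFunction χ s - ∑ n ∈ Icc 1 N, χ n * (n : ℂ) ^ (-s)‖ ≤
      ‖s‖ * ∑' n : ℕ, ‖∑ k ∈ Ioc N (N + n), χ k‖ * ((N + n : ℕ) : ℝ) ^ (-s.re - 1) := by
    rw [eq_tsum hχ hN hs, ← tsum_mul_left]
    exact tsum_of_norm_bounded ((summable_A hχ hN hs).mul_left ‖s‖).hasSum
      fun n => tm_le χ hN n hs
  refine ⟨h1, h1.trans ?_⟩
  have h2 : ∑' n : ℕ, ‖∑ k ∈ Ioc N (N + n), χ k‖ * ((N + n : ℕ) : ℝ) ^ (-s.re - 1) ≤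
      q * ((1 + 1 / s.re) * (N : ℝ) ^ (-s.re)) := by
    refine Real.tsum_le_of_sum_range_le (fun _ => by positivity) fun M => ?_
    refine le_trans ?_ (mul_le_mul_of_nonneg_left (sum_rpow_le hN hs M) (Nat.cast_nonneg q))
    rw [mul_sum]
    exact sum_le_sum fun n _ => mul_le_mul_of_nonneg_right (ioc_le hχ _ _) (by positivity)
  calc _ ≤ ‖s‖ * (q * ((1 + 1 / s.re) * (N : ℝ) ^ (-s.re))) :=
        mul_le_mul_of_nonneg_left h2 (norm_nonneg _)
    _ = _ := by ring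

end Pool.Agent.MP_c5bf7b_nt.H38
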