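import Pool.Agent.MP_c5bf7b_nt.H38.SpecA
import Pool.Agent.MP_ca0a54_nt.L0.ZetaA

/-! Basic facts on the entire function attached to a character. -/

set_option autoImplicit false

namespace Pool.Agent.MP_c5bf7b_nt.H38

open Finset Complex ArithmeticFunction Filter Topology

namespace PhiA

open MP_ca0a54_nt.L0.ZetaA (pw tm norm_pw hasDerivAt_pw differentiable_tm tsum_tm_of_two_lt)

/-- The majorant. -/
noncomputable def mj (n : ℕ) : ℝ := ((n : ℝ) + 1) ^ (-(26 / 25) : ℝ)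

theorem summable_mj : Summable mj := by
  have h : Summable fun n : ℕ => (n : ℝ) ^ (-(26 / 25) : ℝ) :=
    Real.summable_nat_rpow.2 (by norm_num)
  have := (summable_nat_add_iff 1).2 h
  refine this.congr fun n => ?_
  simp [mj]

theorem mj_nonneg (n : ℕ) : 0 ≤ mj n := by unfold mj; positivity

theorem norm_tm_le (n : ℕ) (s : ℂ) (hs : 1 / 25 ≤ s.re) : ‖tm n s‖ ≤ ‖s - 1‖ * ‖s‖ * mj n := by
  set m : ℝ := n + 1 with hm
  have hm1 : 1 ≤ m := by rw [hm]; linarith [Nat.cast_nonneg (α := ℝ) n]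
  set B : ℝ := mj n with hB
  have hBm : B = m ^ (-(26 / 25) : ℝ) := rfl
  have hB0 : 0 ≤ B := mj_nonneg n
  have h1 : ∀ x ∈ Set.Icc m (m + 1), ‖pw (-s) x - pw (-s) m‖ ≤ ‖s‖ * B := by
    intro x hx
    have := norm_image_sub_le_of_norm_deriv_le_segment' (f := pw (-s))
      (f' := fun x => -s * pw (-s - 1) x) (a := m) (b := m + 1) (C := ‖s‖ * B)
      (fun y hy => (hasDerivAt_pw (-s) (by linarith [hy.1])).hasDerivWithinAt)
      (fun y hy => by
        rw [norm_mul, norm_neg, norm_pw _ (by linarith [hy.1]), hBm]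
        refine mul_le_mul_of_nonneg_left ?_ (norm_nonneg _)
        calc y ^ (-s - 1).re ≤ y ^ (-(26 / 25) : ℝ) :=
              Real.rpow_le_rpow_of_exponent_le (by linarith [hy.1]) (by simp; linarith)
          _ ≤ m ^ (-(26 / 25) : ℝ) :=
              Real.rpow_le_rpow_of_nonpos (by linarith) hy.1 (by norm_num)) x hx
    refine this.trans ?_
    have h0 : 0 ≤ ‖s‖ * B := by positivity
    nlinarith [hx.1, hx.2]
  have h2 := norm_image_sub_le_of_norm_deriv_le_segment'
    (f := fun x : ℝ => pw (1 - s) x - (1 - s) * pw (-s) m * (x : ℂ))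
    (f' := fun x => (1 - s) * (pw (-s) x - pw (-s) m)) (a := m) (b := m + 1)
    (C := ‖s - 1‖ * ‖s‖ * B)
    (fun y hy => by
      have ha := hasDerivAt_pw (1 - s) (x := y) (by linarith [hy.1])
      have hb := ((hasDerivAt_id y).ofReal_comp).const_mul ((1 - s) * pw (-s) m)
      refine ((ha.sub hb).congr_deriv ?_).hasDerivWithinAt
      rw [show (1 - s - 1 : ℂ) = -s by ring]
      simp only [Complex.ofReal_one]
      ring)
    (fun y hy => by
      rw [norm_mul, norm_sub_rev 1 s, mul_assoc]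
      exact mul_le_mul_of_nonneg_left (h1 y ⟨hy.1, hy.2.le⟩) (norm_nonneg _))
    (m + 1) ⟨by linarith, le_rfl⟩
  rw [add_sub_cancel_left, mul_one] at h2
  refine le_of_eq_of_le ?_ h2
  congr 1
  simp only [tm, ← hm]
  push_cast
  ring

theorem tsum_tm (s : ℂ) (hs : 1 / 25 < s.re) : ∑' n, tm n s = riemannZeta₁ s - 1 := by
  have hU : IsOpen {s : ℂ | 1 / 25 < s.re} := isOpen_lt continuous_const Complex.continuous_re
  have hd : DifferentiableOn ℂ (fun s => ∑' n, tm n s) {s : ℂ | 1 / 25 < s.re} := by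
    intro z hz
    have hV : IsOpen ({s : ℂ | 1 / 25 < s.re} ∩ Metric.ball 0 (‖z‖ + 1)) :=
      hU.inter Metric.isOpen_ball
    have := Complex.differentiableOn_tsum_of_summable_norm (F := tm)
      (summable_mj.mul_left ((‖z‖ + 2) * (‖z‖ + 1)))
      (fun n => (differentiable_tm n).differentiableOn)
      hV (fun n w hw => by
        have hw2 : ‖w‖ < ‖z‖ + 1 := by simpa using hw.2
        have hw3 : ‖w - 1‖ ≤ ‖z‖ + 2 := (norm_sub_le _ _).trans (by simp; linarith)
        have := mj_nonneg n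
        refine (norm_tm_le n w (le_of_lt hw.1)).trans ?_
        gcongr)
    exact (this.differentiableAt (hV.mem_nhds ⟨hz, by simp⟩)).differentiableWithinAt
  have ha := hd.analyticOnNhd hU
  have hb : AnalyticOnNhd ℂ (fun s => riemannZeta₁ s - 1) {s : ℂ | 1 / 25 < s.re} :=
    (differentiable_riemannZeta₁.sub_const 1).differentiableOn.analyticOnNhd hU
  refine ha.eqOn_of_preconnected_of_eventuallyEq hb (convex_halfSpace_re_gt _).isPreconnected
    (z₀ := 3) (by simp; norm_num) ?_ hs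
  have : {s : ℂ | 2 < s.re} ∈ 𝓝 (3 : ℂ) :=
    (isOpen_lt continuous_const Complex.continuous_re).mem_nhds (by simp; norm_num)
  filter_upwards [this] with z hz using tsum_tm_of_two_lt z hz

/-- Polynomial growth of `(s - 1) ζ(s)` on `re s > 1 / 25`. -/
theorem zeta1_le : ∃ Z : ℝ, 0 ≤ Z ∧ ∀ s : ℂ, 1 / 25 < s.re →
    ‖riemannZeta₁ s‖ ≤ ‖s - 1‖ * ‖s‖ * Z + 1 := by
  refine ⟨∑' n, mj n, tsum_nonneg mj_nonneg, fun s hs => ?_⟩
  have h2 : ‖riemannZeta₁ s - 1‖ ≤ ‖s - 1‖ * ‖s‖ * ∑' n, mj n := by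
    rw [← tsum_tm s hs, ← tsum_mul_left]
    exact tsum_of_norm_bounded (summable_mj.mul_left _).hasSum fun n => norm_tm_le n s hs.le
  have := norm_add_le (riemannZeta₁ s - 1) 1
  simp only [sub_add_cancel, norm_one] at this
  linarith

theorem triv_eq (q : ℕ) [NeZero q] (s : ℂ) : DirichletCharacter.LFunctionTrivChar₁ q s =
    (∏ p ∈ q.primeFactors, (1 - (p : ℂ) ^ (-s))) * riemannZeta₁ s := by
  by_cases hs : s = 1
  · subst hs
    simp [DirichletCharacter.LFunctionTrivChar₁, Complex.cpow_neg_one]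
  · rw [DirichletCharacter.LFunctionTrivChar₁, Function.update_of_ne hs,
      DirichletCharacter.LFunctionTrivChar_eq_mul_riemannZeta hs, riemannZeta_eq_inv_sub_mul hs]
    have : s - 1 ≠ 0 := sub_ne_zero.2 hs
    field_simp

theorem norm_prod_le (q : ℕ) [NeZero q] {s : ℂ} (hs : 0 ≤ s.re) :
    ‖∏ p ∈ q.primeFactors, (1 - (p : ℂ) ^ (-s))‖ ≤ q := by
  rw [norm_prod]
  calc ∏ p ∈ q.primeFactors, ‖1 - (p : ℂ) ^ (-s)‖ ≤ ∏ p ∈ q.primeFactors, (p : ℝ) := by
        refine Finset.prod_le_prod (fun _ _ => norm_nonneg _) fun p hp => ?_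
        have hp2 := (Nat.prime_of_mem_primeFactors hp).two_le
        have h2 : (2 : ℝ) ≤ p := by exact_mod_cast hp2
        have h3 : ‖(p : ℂ) ^ (-s)‖ ≤ 1 := by
          rw [Complex.norm_natCast_cpow_of_pos (by omega)]
          exact Real.rpow_le_one_of_one_le_of_nonpos (by linarith) (by simpa using hs)
        have := norm_sub_le (1 : ℂ) ((p : ℂ) ^ (-s))
        rw [norm_one] at this
        linarith
    _ ≤ q := by
        rw [← Nat.cast_prod]
        exact_mod_cast Nat.le_of_dvd (NeZero.pos q) (Nat.prod_primeFactors_dvd q)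

variable {q : ℕ} [NeZero q]

theorem phi_one : Phi (1 : Ch q) = DirichletCharacter.LFunctionTrivChar₁ q := by
  rw [Phi, if_pos rfl]

theorem phi_ne {χ : Ch q} (h : χ ≠ 1) : Phi χ = DirichletCharacter.LFunction χ := by
  rw [Phi, if_neg h]

theorem phi_one_apply {s : ℂ} (hs : s ≠ 1) :
    Phi (1 : Ch q) s = (s - 1) * DirichletCharacter.LFunction (1 : Ch q) s := by
  rw [phi_one, DirichletCharacter.LFunctionTrivChar₁, Function.update_of_ne hs]

theorem phi_diff (χ : Ch q) : Differentiable ℂ (Phi χ) := by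
  by_cases h : χ = 1
  · rw [h, phi_one]; exact DirichletCharacter.differentiable_LFunctionTrivChar₁ q
  · rw [phi_ne h]; exact DirichletCharacter.differentiable_LFunction h

theorem phi_ne_zero (χ : Ch q) {s : ℂ} (hs : 1 ≤ s.re) : Phi χ s ≠ 0 := by
  by_cases h : χ = 1
  · subst h
    by_cases h1 : s = 1
    · rw [h1, phi_one]; exact DirichletCharacter.LFunctionTrivChar₁_apply_one_ne_zero q
    · rw [phi_one_apply h1]
      exact mul_ne_zero (sub_ne_zero.2 h1)
        (DirichletCharacter.LFunction_ne_zero_of_one_le_re 1 (.inr h1) hs)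
  · rw [phi_ne h]; exact DirichletCharacter.LFunction_ne_zero_of_one_le_re χ (.inl h) hs

theorem lseries_le (f : ℕ → ℂ) (hf : ∀ n, ‖f n‖ ≤ 1) {s : ℂ} (hs : s.re = 2) :
    ‖LSeries f s‖ ≤ 3 := by
  have h : ‖LSeries f s‖ ≤ Real.pi ^ 2 / 6 := by
    refine tsum_of_norm_bounded hasSum_zeta_two fun n => ?_
    rw [LSeries.norm_term_eq]
    split_ifs with h0
    · positivity
    · rw [hs, Real.rpow_two]
      exact div_le_div_of_nonneg_right (hf n) (by positivity)
  nlinarith [Real.pi_lt_four, Real.pi_pos]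

theorem lfun_ge (χ : Ch q) {s : ℂ} (hs : s.re = 2) :
    1 / 3 ≤ ‖DirichletCharacter.LFunction χ s‖ := by
  have h1 : 1 < s.re := by rw [hs]; norm_num
  have h := congrArg norm (DirichletCharacter.LSeries.mul_mu_eq_one χ h1)
  rw [norm_mul, norm_one, ← DirichletCharacter.LFunction_eq_LSeries χ h1] at h
  have h2 := lseries_le ((fun n : ℕ => χ n) * fun n : ℕ => ((moebius n : ℤ) : ℂ)) (fun n => by
    rw [Pi.mul_apply, norm_mul, Complex.norm_intCast]
    have a := χ.norm_le_one n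
    have b : |((moebius n : ℤ) : ℝ)| ≤ 1 := by exact_mod_cast abs_moebius_le_one (n := n)
    exact mul_le_one₀ a (abs_nonneg _) b) hs
  nlinarith [norm_nonneg (DirichletCharacter.LFunction χ s)]

theorem phi_ge (χ : Ch q) (τ : ℝ) : 1 / 3 ≤ ‖Phi χ (2 + τ * I)‖ := by
  have hs : (2 + τ * I : ℂ).re = 2 := by simp
  by_cases h : χ = 1
  · subst h
    have h1 : (2 + τ * I : ℂ) ≠ 1 := fun e => by rw [e] at hs; norm_num at hs
    rw [phi_one_apply h1, norm_mul]
    have h2 : 1 ≤ ‖(2 + τ * I - 1 : ℂ)‖ :=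
      le_trans (by simp; norm_num) (Complex.re_le_norm _)
    have h3 := lfun_ge (1 : Ch q) hs
    nlinarith
  · rw [phi_ne h]; exact lfun_ge χ hs

theorem lfun_conj (χ : Ch q) {s : ℂ} (hs : 1 < s.re) :
    (starRingEnd ℂ) (DirichletCharacter.LFunction χ⁻¹ ((starRingEnd ℂ) s)) =
      DirichletCharacter.LFunction χ s := by
  rw [DirichletCharacter.LFunction_eq_LSeries χ hs,
    DirichletCharacter.LFunction_eq_LSeries χ⁻¹ (by simpa using hs), LSeries, LSeries,
    Complex.conj_tsum]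
  refine tsum_congr fun n => ?_
  rcases eq_or_ne n 0 with rfl | hn
  · simp
  · rw [LSeries.term_of_ne_zero hn, LSeries.term_of_ne_zero hn, map_div₀,
      ← Complex.conj_cpow _ _ (by rw [Complex.natCast_arg]; exact Real.pi_pos.ne),
      Complex.conj_natCast, ← MulChar.star_apply']
    simp

theorem phi_conj (χ : Ch q) (s : ℂ) :
    Phi χ⁻¹ ((starRingEnd ℂ) s) = (starRingEnd ℂ) (Phi χ s) := by
  have hd : Differentiable ℂ ((starRingEnd ℂ) ∘ Phi χ⁻¹ ∘ (starRingEnd ℂ)) := fun z =>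
    differentiableAt_conj_conj_iff.2 (phi_diff χ⁻¹ _)
  have key : (starRingEnd ℂ) ∘ Phi χ⁻¹ ∘ (starRingEnd ℂ) = Phi χ := by
    refine AnalyticOnNhd.eq_of_eventuallyEq (z₀ := 2)
      (hd.differentiableOn.analyticOnNhd isOpen_univ)
      ((phi_diff χ).differentiableOn.analyticOnNhd isOpen_univ) ?_
    have : {s : ℂ | 1 < s.re} ∈ 𝓝 (2 : ℂ) :=
      (isOpen_lt continuous_const Complex.continuous_re).mem_nhds (by simp)
    filter_upwards [this] with z hz
    have hz' : 1 < z.re := hz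
    simp only [Function.comp_apply]
    by_cases h : χ = 1
    · subst h
      have h1 : z ≠ 1 := fun e => by rw [e] at hz'; simp at hz'
      have h2 : (starRingEnd ℂ) z ≠ 1 := fun e => h1 (by simpa using congrArg (starRingEnd ℂ) e)
      have h3 := lfun_conj (1 : Ch q) hz'
      rw [inv_one] at h3 ⊢
      rw [phi_one_apply h1, phi_one_apply h2, map_mul, h3]
      simp
    · rw [phi_ne h, phi_ne (inv_ne_one.2 h)]
      exact lfun_conj χ hz'
  rw [← key]
  simp

open Classical in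
theorem phi_logd (χ : Ch q) {s : ℂ} (hs : 1 < s.re) : -(deriv (Phi χ) s / Phi χ s) =
    LSeries (fun n => (vonMangoldt n : ℂ) * χ n) s - if χ = 1 then 1 / (s - 1) else 0 := by
  have e : (fun n : ℕ => (vonMangoldt n : ℂ) * χ n) =
      (fun n : ℕ => χ n) * fun n : ℕ => (vonMangoldt n : ℂ) := by
    funext n; simp [mul_comm]
  have h0 : LSeries (fun n => (vonMangoldt n : ℂ) * χ n) s =
      -deriv (DirichletCharacter.LFunction χ) s / DirichletCharacter.LFunction χ s := by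
    rw [e, DirichletCharacter.LSeries_twist_vonMangoldt_eq χ hs,
      DirichletCharacter.deriv_LFunction_eq_deriv_LSeries χ hs,
      DirichletCharacter.LFunction_eq_LSeries χ hs]
  rw [h0]
  by_cases h : χ = 1
  · subst h
    have h1 : s ≠ 1 := fun e => by rw [e] at hs; simp at hs
    have h2 : s - 1 ≠ 0 := sub_ne_zero.2 h1
    have h3 := DirichletCharacter.LFunction_ne_zero_of_one_le_re (1 : Ch q) (.inr h1) hs.le
    rw [if_pos rfl, phi_one_apply h1, phi_one,
      DirichletCharacter.deriv_LFunctionTrivChar₁_apply_of_ne_one q h1]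
    simp only [DirichletCharacter.LFunctionTrivChar]
    field_simp
    ring
  · rw [if_neg h, phi_ne h, sub_zero, neg_div]

end PhiA

theorem phiOf : PhiOf := by
  intro hB
  obtain ⟨Z, hZ0, hZ⟩ := PhiA.zeta1_le
  obtain ⟨k, hk⟩ := pow_unbounded_of_one_lt (4 * Z + 1) (one_lt_two (α := ℝ))
  refine ⟨k + 10, fun q _ χ hq => ⟨PhiA.phi_diff χ, fun s hs => PhiA.phi_ne_zero χ hs,
    fun s h1 h2 h3 => ?_, PhiA.phi_ge χ, PhiA.phi_conj χ, fun s hs => PhiA.phi_logd χ hs⟩⟩
  have hq2 : (2 : ℝ) ≤ q := by exact_mod_cast hq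
  have hq3 : (8 : ℝ) ≤ (q : ℝ) ^ 3 := by
    calc (8 : ℝ) = 2 ^ 3 := by norm_num
      _ ≤ _ := pow_le_pow_left₀ (by norm_num) hq2 3
  have hs : ‖s‖ ≤ 2 * (q : ℝ) ^ 3 := by
    have := Complex.norm_le_abs_re_add_abs_im s
    rw [abs_of_nonneg (by linarith : 0 ≤ s.re)] at this
    linarith
  have hqk : (2 : ℝ) ^ k ≤ (q : ℝ) ^ k := pow_le_pow_left₀ (by norm_num) hq2 k
  have hqk1 : (1 : ℝ) ≤ (q : ℝ) ^ k := one_le_pow₀ (by linarith)
  have hq0 : (0 : ℝ) < q := by linarith
  by_cases h : χ = 1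
  · subst h
    have hs1 : ‖s - 1‖ ≤ 2 * (q : ℝ) ^ 3 := by
      have := norm_sub_le s 1
      have h4 := Complex.norm_le_abs_re_add_abs_im s
      rw [abs_of_nonneg (by linarith : 0 ≤ s.re)] at h4
      rw [norm_one] at this
      linarith
    have h5 : ‖riemannZeta₁ s‖ ≤ (q : ℝ) ^ k * (q : ℝ) ^ 6 := by
      have h6 : (1 : ℝ) ≤ (q : ℝ) ^ 6 := one_le_pow₀ (by linarith)
      calc ‖riemannZeta₁ s‖ ≤ ‖s - 1‖ * ‖s‖ * Z + 1 := hZ s (by linarith)
        _ ≤ 2 * (q : ℝ) ^ 3 * (2 * (q : ℝ) ^ 3) * Z + (q : ℝ) ^ 6 := by gcongr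
        _ = (4 * Z + 1) * (q : ℝ) ^ 6 := by ring
        _ ≤ _ := by gcongr; linarith
    rw [PhiA.phi_one, PhiA.triv_eq, norm_mul]
    calc _ ≤ (q : ℝ) * ((q : ℝ) ^ k * (q : ℝ) ^ 6) := by
          gcongr; exact PhiA.norm_prod_le q (by linarith)
      _ = (q : ℝ) ^ (k + 7) := by ring
      _ ≤ _ := pow_le_pow_right₀ (by linarith) (by omega)
  · have h4 := ((hB q χ h).2 s 1 (by linarith) le_rfl).2
    simp only [Finset.Icc_self, Finset.sum_singleton, Nat.cast_one, map_one, Complex.one_cpow,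
      mul_one, Real.one_rpow] at h4
    have h5 : 1 / s.re ≤ 20 := by
      rw [div_le_iff₀ (by linarith)]; linarith
    have h6 := norm_add_le (DirichletCharacter.LFunction χ s - 1) 1
    rw [sub_add_cancel, norm_one] at h6
    have h7 : (q : ℝ) * ‖s‖ * (1 + 1 / s.re) ≤ q * (2 * (q : ℝ) ^ 3) * 21 := by
      have : 0 < s.re := by linarith
      gcongr; linarith
    have h8 : (64 : ℝ) ≤ (q : ℝ) ^ 6 := by
      calc (64 : ℝ) = 2 ^ 6 := by norm_num
        _ ≤ _ := pow_le_pow_left₀ (by norm_num) hq2 6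
    have h9 : (1 : ℝ) ≤ (q : ℝ) ^ 4 := one_le_pow₀ (by linarith)
    rw [PhiA.phi_ne h]
    calc _ ≤ 64 * (q : ℝ) ^ 4 := by nlinarith
      _ ≤ (q : ℝ) ^ 6 * (q : ℝ) ^ 4 := by gcongr
      _ = 1 * (q : ℝ) ^ 10 := by ring
      _ ≤ (q : ℝ) ^ k * (q : ℝ) ^ 10 := by gcongr
      _ = _ := by ring

end Pool.Agent.MP_c5bf7b_nt.H38
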