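import Pool.Agent.MP_c5bf7b_nt.H38.SpecA

/-! The sieve weights of Selberg for a modulus. -/

set_option autoImplicit false

namespace Pool.Agent.MP_c5bf7b_nt.H38

open Finset

namespace SelAux

/-- the Moebius function with real values -/
noncomputable def mu (n : ℕ) : ℝ := (ArithmeticFunction.moebius n : ℤ)

theorem sum_mu (m : ℕ) : ∑ i ∈ m.divisors, mu i = if m = 1 then 1 else 0 := by
  have h := congrArg (fun f : ArithmeticFunction ℤ => f m) ArithmeticFunction.moebius_mul_coe_zeta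
  simp only [ArithmeticFunction.coe_mul_zeta_apply, ArithmeticFunction.one_apply] at h
  simp only [mu]
  rw [← Int.cast_sum, h]
  split_ifs <;> simp

theorem abs_mu_le (n : ℕ) : |mu n| ≤ 1 := by
  rw [mu, ← Int.cast_abs]
  exact_mod_cast ArithmeticFunction.abs_moebius_le_one

theorem mu_sq {n : ℕ} (h : Squarefree n) : mu n ^ 2 = 1 := by
  rw [mu, ← Int.cast_pow, ArithmeticFunction.moebius_sq_eq_one_of_squarefree h, Int.cast_one]

theorem inner {Q l k : ℕ} (hl : 1 ≤ l) (hk : k ∈ Icc 1 Q) :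
    ∑ d ∈ Icc 1 Q, (if l ∣ d ∧ d ∣ k then mu (k / d) else 0) = if k = l then 1 else 0 := by
  obtain ⟨hk1, hkQ⟩ := mem_Icc.1 hk
  by_cases hlk : l ∣ k
  · obtain ⟨m, rfl⟩ := hlk
    have hm : 0 < m := Nat.pos_of_mul_pos_left hk1
    have h1 : (l * m = l) ↔ m = 1 := by
      constructor
      · intro h
        exact Nat.eq_of_mul_eq_mul_left hl (by rw [h, mul_one])
      · rintro rfl
        exact mul_one l
    simp only [h1]
    rw [← sum_mu m, ← sum_filter, ← Nat.sum_div_divisors m mu]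
    symm
    refine sum_bij (fun j _ => l * j) ?_ ?_ ?_ ?_
    · intro j hj
      have hj' := Nat.dvd_of_mem_divisors hj
      have hj0 : 0 < j := Nat.pos_of_mem_divisors hj
      refine mem_filter.2 ⟨mem_Icc.2 ⟨Nat.mul_pos hl hj0, ?_⟩, dvd_mul_right _ _,
        Nat.mul_dvd_mul_left _ hj'⟩
      exact (Nat.mul_le_mul_left _ (Nat.le_of_dvd hm hj')).trans hkQ
    · intro a _ b _ h
      exact Nat.eq_of_mul_eq_mul_left hl h
    · intro d hd
      obtain ⟨-, ⟨j, rfl⟩, h2⟩ := mem_filter.1 hd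
      exact ⟨j, Nat.mem_divisors.2 ⟨Nat.dvd_of_mul_dvd_mul_left hl h2, hm.ne'⟩, rfl⟩
    · intro j _
      rw [Nat.mul_div_mul_left _ _ hl]
  · rw [if_neg (fun h : k = l => hlk (h ▸ dvd_rfl))]
    exact sum_eq_zero fun d _ => if_neg fun h => hlk (h.1.trans h.2)

/-- the dual Moebius transform -/
noncomputable def u (Q : ℕ) (y : ℕ → ℝ) (d : ℕ) : ℝ :=
  ∑ k ∈ Icc 1 Q, if d ∣ k then mu (k / d) * y k else 0

theorem sum_u (Q : ℕ) (y : ℕ → ℝ) {l : ℕ} (hl : l ∈ Icc 1 Q) :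
    ∑ d ∈ Icc 1 Q, (if l ∣ d then u Q y d else 0) = y l := by
  have h1 : ∀ d ∈ Icc 1 Q, (if l ∣ d then u Q y d else 0) =
      ∑ k ∈ Icc 1 Q, (if l ∣ d ∧ d ∣ k then mu (k / d) else 0) * y k := by
    intro d _
    by_cases h : l ∣ d
    · rw [if_pos h, u]
      refine sum_congr rfl fun k _ => ?_
      by_cases h2 : d ∣ k <;> simp [h, h2]
    · simp [h]
  rw [sum_congr rfl h1, sum_comm]
  have h2 : ∀ k ∈ Icc 1 Q, ∑ d ∈ Icc 1 Q, (if l ∣ d ∧ d ∣ k then mu (k / d) else 0) * y k =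
      if k = l then y k else 0 := by
    intro k hk
    rw [← sum_mul, inner (mem_Icc.1 hl).1 hk]
    split_ifs <;> simp
  rw [sum_congr rfl h2, sum_ite_eq', if_pos hl]

theorem gcd_eq {Q d e : ℕ} (hd : d ∈ Icc 1 Q) :
    (Nat.gcd d e : ℝ) = ∑ l ∈ Icc 1 Q, if l ∣ d ∧ l ∣ e then (Nat.totient l : ℝ) else 0 := by
  obtain ⟨hd1, hdQ⟩ := mem_Icc.1 hd
  rw [← sum_filter, ← Nat.cast_sum]
  congr 1
  conv_lhs => rw [← Nat.sum_totient (Nat.gcd d e)]
  refine sum_congr ?_ fun _ _ => rfl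
  ext l
  rw [Nat.mem_divisors, mem_filter, mem_Icc, Nat.dvd_gcd_iff]
  constructor
  · rintro ⟨h, -⟩
    exact ⟨⟨Nat.pos_of_dvd_of_pos h.1 hd1, (Nat.le_of_dvd hd1 h.1).trans hdQ⟩, h⟩
  · rintro ⟨-, h⟩
    exact ⟨h, (Nat.gcd_pos_of_pos_left e hd1).ne'⟩

theorem form (Q : ℕ) (v : ℕ → ℝ) :
    ∑ d ∈ Icc 1 Q, ∑ e ∈ Icc 1 Q, (d * v d) * (e * v e) / (Nat.lcm d e : ℝ) =
      ∑ l ∈ Icc 1 Q, (Nat.totient l : ℝ) * (∑ d ∈ Icc 1 Q, if l ∣ d then v d else 0) ^ 2 := by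
  have h1 : ∀ d ∈ Icc 1 Q, ∀ e ∈ Icc 1 Q, (d * v d) * (e * v e) / (Nat.lcm d e : ℝ) =
      ∑ l ∈ Icc 1 Q, (Nat.totient l : ℝ) *
        ((if l ∣ d then v d else 0) * (if l ∣ e then v e else 0)) := by
    intro d hd e he
    have h2 : (0 : ℝ) < Nat.lcm d e := by
      exact_mod_cast Nat.lcm_pos (mem_Icc.1 hd).1 (mem_Icc.1 he).1
    have h3 : (d : ℝ) * e = Nat.gcd d e * Nat.lcm d e := by
      exact_mod_cast (Nat.gcd_mul_lcm d e).symm
    have h4 : (d * v d) * (e * v e) / (Nat.lcm d e : ℝ) = Nat.gcd d e * (v d * v e) := by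
      rw [div_eq_iff h2.ne']
      linear_combination (v d * v e) * h3
    rw [h4, gcd_eq hd, sum_mul]
    refine sum_congr rfl fun l _ => ?_
    by_cases a : l ∣ d <;> by_cases b : l ∣ e <;> simp [a, b]
  rw [sum_congr rfl fun d hd => sum_congr rfl fun e he => h1 d hd e he]
  rw [sum_congr rfl fun d _ => sum_comm, sum_comm]
  refine sum_congr rfl fun l _ => ?_
  rw [sq, sum_mul_sum, mul_sum]
  exact sum_congr rfl fun d _ => by rw [mul_sum]

/-- the members of `T` without a divisor in `P` -/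
def fr (T P : Finset ℕ) : Finset ℕ := T.filter fun n => ∀ p ∈ P, ¬ p ∣ n

theorem step {T : Finset ℕ} (hT : ∀ n ∈ T, ∀ k, k ∣ n → k ∈ T) (P : Finset ℕ) (q : ℕ) :
    (1 - (q : ℝ)⁻¹) * ∑ n ∈ fr T P, (n : ℝ)⁻¹ ≤ ∑ n ∈ fr T (insert q P), (n : ℝ)⁻¹ := by
  have h1 : fr T (insert q P) = (fr T P).filter fun n => ¬ q ∣ n := by
    ext n
    simp only [fr, mem_filter, forall_mem_insert]
    tauto
  have h2 := sum_filter_add_sum_filter_not (fr T P) (fun n => q ∣ n) fun n => (n : ℝ)⁻¹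
  have h3 : (fr T P).filter (fun n => q ∣ n) ⊆ (fr T P).image fun k => q * k := by
    intro n hn
    obtain ⟨hn1, k, rfl⟩ := mem_filter.1 hn
    obtain ⟨hn2, hn3⟩ := mem_filter.1 hn1
    exact mem_image.2 ⟨k, mem_filter.2 ⟨hT _ hn2 k (dvd_mul_left k q),
      fun p hp h => hn3 p hp (h.mul_left q)⟩, rfl⟩
  have h4 : ∑ n ∈ (fr T P).filter (fun n => q ∣ n), (n : ℝ)⁻¹ ≤
      ∑ k ∈ fr T P, ((q * k : ℕ) : ℝ)⁻¹ :=
    (sum_le_sum_of_subset_of_nonneg h3 fun _ _ _ => by positivity).trans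
      (sum_image_le_of_nonneg (f := fun n : ℕ => (n : ℝ)⁻¹) fun _ _ => by positivity)
  have h5 : ∑ k ∈ fr T P, ((q * k : ℕ) : ℝ)⁻¹ = (q : ℝ)⁻¹ * ∑ k ∈ fr T P, (k : ℝ)⁻¹ := by
    rw [mul_sum]
    refine sum_congr rfl fun k _ => ?_
    push_cast
    rw [mul_inv]
  rw [h1]
  linarith

theorem sieve {T : Finset ℕ} (hT : ∀ n ∈ T, ∀ k, k ∣ n → k ∈ T) (P : Finset ℕ)
    (hP : ∀ p ∈ P, 1 ≤ p) :
    (∏ p ∈ P, (1 - (p : ℝ)⁻¹)) * ∑ n ∈ T, (n : ℝ)⁻¹ ≤ ∑ n ∈ fr T P, (n : ℝ)⁻¹ := by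
  induction P using Finset.induction_on with
  | empty => simp [fr]
  | insert q P hq ih =>
    have h1 := hP q (mem_insert_self _ _)
    have h2 : (0 : ℝ) ≤ 1 - (q : ℝ)⁻¹ :=
      sub_nonneg.2 (inv_le_one_of_one_le₀ (by exact_mod_cast h1))
    rw [prod_insert hq, mul_assoc]
    exact (mul_le_mul_of_nonneg_left (ih fun p hp => hP p (mem_insert_of_mem hp)) h2).trans
      (step hT P q)

theorem tot_eq (n : ℕ) : (n.totient : ℝ) = n * ∏ p ∈ n.primeFactors, (1 - (p : ℝ)⁻¹) := by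
  have h := congrArg (fun x : ℚ => (x : ℝ)) (Nat.totient_eq_mul_prod_factors n)
  push_cast at h
  exact h

theorem icc_dvd (Q : ℕ) : ∀ n ∈ Icc 1 Q, ∀ k, k ∣ n → k ∈ Icc 1 Q := fun _ hn _ hk =>
  mem_Icc.2 ⟨Nat.pos_of_dvd_of_pos hk (mem_Icc.1 hn).1,
    (Nat.le_of_dvd (mem_Icc.1 hn).1 hk).trans (mem_Icc.1 hn).2⟩

/-- the support -/
def SS (q Q : ℕ) : Finset ℕ := (Icc 1 Q).filter fun k => Squarefree k ∧ k.Coprime q

/-- the normalising sum -/
noncomputable def GG (q Q : ℕ) : ℝ := ∑ k ∈ SS q Q, (k.totient : ℝ)⁻¹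

theorem ss_dvd {q Q n k : ℕ} (hn : n ∈ SS q Q) (hk : k ∣ n) : k ∈ SS q Q := by
  obtain ⟨h1, h2, h3⟩ := mem_filter.1 hn
  exact mem_filter.2 ⟨icc_dvd Q n h1 k hk, h2.squarefree_of_dvd hk, h3.coprime_dvd_left hk⟩

/-- numbers built from the primes of `k` -/
def TT (Q k : ℕ) : Finset ℕ := (Icc 1 Q).filter fun m => m.primeFactors ⊆ k.primeFactors

theorem tt_le (Q : ℕ) {k : ℕ} (hk : 1 ≤ k) :
    ∑ m ∈ TT Q k, ((k * m : ℕ) : ℝ)⁻¹ ≤ (k.totient : ℝ)⁻¹ := by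
  have h1 := sieve (T := TT Q k) (fun n hn j hj => by
    obtain ⟨a, b⟩ := mem_filter.1 hn
    exact mem_filter.2 ⟨icc_dvd Q n a j hj, (Nat.primeFactors_mono hj
      (Nat.one_le_iff_ne_zero.1 (mem_Icc.1 a).1)).trans b⟩) k.primeFactors
    fun p hp => (Nat.prime_of_mem_primeFactors hp).pos
  have h2 : fr (TT Q k) k.primeFactors ⊆ {1} := by
    intro n hn
    obtain ⟨a, b⟩ := mem_filter.1 hn
    obtain ⟨c, d⟩ := mem_filter.1 a
    rw [mem_singleton]
    by_contra h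
    obtain ⟨p, hp, hpn⟩ := Nat.exists_prime_and_dvd h
    exact b p (d (Nat.mem_primeFactors.2 ⟨hp, hpn, Nat.one_le_iff_ne_zero.1 (mem_Icc.1 c).1⟩)) hpn
  have h3 : ∑ n ∈ fr (TT Q k) k.primeFactors, (n : ℝ)⁻¹ ≤ 1 := by
    have := sum_le_sum_of_subset_of_nonneg (f := fun n : ℕ => (n : ℝ)⁻¹) h2
      fun _ _ _ => by positivity
    simpa using this
  have hk0 : (0 : ℝ) < k := by exact_mod_cast hk
  have ht : (0 : ℝ) < k.totient := by exact_mod_cast Nat.totient_pos.2 hk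
  have h4 : ∑ m ∈ TT Q k, ((k * m : ℕ) : ℝ)⁻¹ = (k : ℝ)⁻¹ * ∑ m ∈ TT Q k, (m : ℝ)⁻¹ := by
    rw [mul_sum]
    refine sum_congr rfl fun m _ => ?_
    push_cast
    rw [mul_inv]
  rw [h4, ← one_div (k.totient : ℝ), le_div_iff₀ ht, tot_eq k]
  have h5 : (k : ℝ)⁻¹ * (∑ m ∈ TT Q k, (m : ℝ)⁻¹) * (k * ∏ p ∈ k.primeFactors, (1 - (p : ℝ)⁻¹)) =
      (∏ p ∈ k.primeFactors, (1 - (p : ℝ)⁻¹)) * ∑ m ∈ TT Q k, (m : ℝ)⁻¹ := by
    field_simp
  rw [h5]
  exact h1.trans h3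

theorem cop_le {q : ℕ} (hq : 1 ≤ q) (Q : ℕ) :
    ∑ n ∈ fr (Icc 1 Q) q.primeFactors, (n : ℝ)⁻¹ ≤ GG q Q := by
  have h1 : fr (Icc 1 Q) q.primeFactors ⊆
      ((SS q Q).sigma fun k => TT Q k).image fun x => x.1 * x.2 := by
    intro n hn
    obtain ⟨a, b⟩ := mem_filter.1 hn
    have hn0 : n ≠ 0 := Nat.one_le_iff_ne_zero.1 (mem_Icc.1 a).1
    have hc : n.Coprime q := by
      refine Nat.coprime_of_dvd fun p hp h1 h2 => ?_
      exact b p (Nat.mem_primeFactors.2 ⟨hp, h2, Nat.one_le_iff_ne_zero.1 hq⟩) h1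
    obtain ⟨m, hm⟩ := Nat.prod_primeFactors_dvd n
    have hpf : (∏ p ∈ n.primeFactors, p).primeFactors = n.primeFactors :=
      Nat.primeFactors_prod fun p hp => Nat.prime_of_mem_primeFactors hp
    have hsq : Squarefree (∏ p ∈ n.primeFactors, p) := by
      refine Finset.squarefree_prod_of_pairwise_isCoprime (fun p hp r hr hpr => ?_)
        fun p hp => (Nat.prime_of_mem_primeFactors hp).squarefree
      exact Nat.coprime_iff_isRelPrime.1 ((Nat.coprime_primes (Nat.prime_of_mem_primeFactors hp)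
        (Nat.prime_of_mem_primeFactors hr)).2 hpr)
    have hmn : m ∣ n := Dvd.intro_left _ hm.symm
    refine mem_image.2 ⟨⟨∏ p ∈ n.primeFactors, p, m⟩, mem_sigma.2 ⟨mem_filter.2
      ⟨icc_dvd Q n a _ (Nat.prod_primeFactors_dvd n), hsq,
        hc.coprime_dvd_left (Nat.prod_primeFactors_dvd n)⟩,
      mem_filter.2 ⟨icc_dvd Q n a m hmn, ?_⟩⟩, hm.symm⟩
    rw [hpf]
    exact Nat.primeFactors_mono hmn hn0
  refine (sum_le_sum_of_subset_of_nonneg h1 fun _ _ _ => by positivity).trans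
    ((sum_image_le_of_nonneg (f := fun n : ℕ => (n : ℝ)⁻¹) fun _ _ => by positivity).trans ?_)
  rw [sum_sigma]
  exact sum_le_sum fun k hk => tt_le Q (mem_Icc.1 (mem_filter.1 hk).1).1

theorem gg_low {q : ℕ} (hq : 1 ≤ q) (Q : ℕ) :
    q.totient * Real.log (Q + 1) ≤ q * GG q Q := by
  have h0 : Real.log (Q + 1) ≤ ∑ n ∈ Icc 1 Q, (n : ℝ)⁻¹ := by
    have h := log_add_one_le_harmonic Q
    simp only [harmonic_eq_sum_Icc, Rat.cast_sum, Rat.cast_inv, Rat.cast_natCast] at h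
    simpa using h
  have h1 := (sieve (icc_dvd Q) q.primeFactors
    fun p hp => (Nat.prime_of_mem_primeFactors hp).pos).trans (cop_le hq Q)
  have hq0 : (0 : ℝ) ≤ q := by positivity
  have h2 := mul_le_mul_of_nonneg_left h1 hq0
  rw [← mul_assoc, ← tot_eq] at h2
  exact (mul_le_mul_of_nonneg_left h0 (by positivity)).trans h2

theorem mul_le (q Q d : ℕ) :
    (d : ℝ) * ∑ k ∈ (SS q Q).filter (fun k => d ∣ k), (k.totient : ℝ)⁻¹ ≤ GG q Q := by
  have hcop : ∀ j k : ℕ, Squarefree k → j ∣ k → j.Coprime (k / j) := fun j k hk hj =>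
    Nat.coprime_of_squarefree_mul (by rwa [Nat.mul_div_cancel' hj])
  have h1 : (d : ℝ) * ∑ k ∈ (SS q Q).filter (fun k => d ∣ k), (k.totient : ℝ)⁻¹ =
      ∑ x ∈ ((SS q Q).filter fun k => d ∣ k) ×ˢ d.divisors, ((x.1 / x.2).totient : ℝ)⁻¹ := by
    rw [mul_sum, sum_product]
    refine sum_congr rfl fun k hk => ?_
    obtain ⟨a, b⟩ := mem_filter.1 hk
    conv_lhs => rw [← Nat.sum_totient d]
    rw [Nat.cast_sum, sum_mul]
    refine sum_congr rfl fun j hj => ?_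
    have hjk : j ∣ k := (Nat.dvd_of_mem_divisors hj).trans b
    have h2 := Nat.totient_mul (hcop j k (mem_filter.1 a).2.1 hjk)
    rw [Nat.mul_div_cancel' hjk] at h2
    have h3 : (j.totient : ℝ) ≠ 0 := by
      exact_mod_cast (Nat.totient_pos.2 (Nat.pos_of_mem_divisors hj)).ne'
    rw [h2, Nat.cast_mul, mul_inv, ← mul_assoc, mul_inv_cancel₀ h3, one_mul]
  have hl : ∀ x ∈ ((SS q Q).filter fun k => d ∣ k) ×ˢ d.divisors,
      Nat.lcm (x.1 / x.2) d = x.1 ∧ x.2 ∣ x.1 ∧ x.1 ∈ SS q Q := by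
    intro x hx
    obtain ⟨a, b⟩ := mem_product.1 hx
    obtain ⟨a1, a2⟩ := mem_filter.1 a
    have hjd := Nat.dvd_of_mem_divisors b
    have hjk := hjd.trans a2
    refine ⟨Nat.dvd_antisymm (Nat.lcm_dvd (Nat.div_dvd_of_dvd hjk) a2) ?_, hjk, a1⟩
    have h4 := (hcop x.2 x.1 (mem_filter.1 a1).2.1 hjk).mul_dvd_of_dvd_of_dvd
      (hjd.trans (Nat.dvd_lcm_right (x.1 / x.2) d)) (Nat.dvd_lcm_left (x.1 / x.2) d)
    rwa [Nat.mul_div_cancel' hjk] at h4
  rw [h1, ← sum_image (s := ((SS q Q).filter fun k => d ∣ k) ×ˢ d.divisors)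
    (g := fun x : ℕ × ℕ => x.1 / x.2) (f := fun m : ℕ => (m.totient : ℝ)⁻¹)]
  · refine sum_le_sum_of_subset_of_nonneg (fun m hm => ?_) fun _ _ _ => by positivity
    obtain ⟨x, hx, rfl⟩ := mem_image.1 hm
    exact ss_dvd (hl x hx).2.2 (Nat.div_dvd_of_dvd (hl x hx).2.1)
  · intro x hx y hy h
    obtain ⟨a1, a2, a3⟩ := hl x hx
    obtain ⟨b1, b2, -⟩ := hl y hy
    simp only at h
    have e1 : x.1 = y.1 := by rw [← a1, ← b1, h]
    refine Prod.ext e1 ?_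
    have hx0 : 0 < x.1 := (mem_Icc.1 (mem_filter.1 a3).1).1
    have e2 : x.2 * (x.1 / x.2) = y.2 * (x.1 / x.2) := by
      rw [Nat.mul_div_cancel' a2, h, Nat.mul_div_cancel' b2, e1]
    exact Nat.eq_of_mul_eq_mul_right (Nat.div_pos (Nat.le_of_dvd hx0 a2)
      (Nat.pos_of_dvd_of_pos a2 hx0)) e2

/-- the diagonal variables -/
noncomputable def yy (q Q k : ℕ) : ℝ :=
  if Squarefree k ∧ k.Coprime q then mu k * (k.totient : ℝ)⁻¹ / GG q Q else 0

end SelAux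

open SelAux in
theorem sel : SelS := by
  intro q W hq hW
  set Q := ⌊W⌋₊ with hQ
  have hQ1 : 1 ≤ Q := Nat.le_floor (by norm_num; linarith)
  have hQW : (Q : ℝ) ≤ W := Nat.floor_le (by linarith)
  have hL : 0 < Real.log W := Real.log_pos (by linarith)
  have hL2 : Real.log W ≤ Real.log (Q + 1) :=
    Real.log_le_log (by linarith) (Nat.lt_floor_add_one W).le
  have ht : (0 : ℝ) < q.totient := by exact_mod_cast Nat.totient_pos.2 hq
  have hq0 : (0 : ℝ) < q := by exact_mod_cast hq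
  have hlow : q.totient * Real.log W ≤ q * GG q Q :=
    (mul_le_mul_of_nonneg_left hL2 ht.le).trans (gg_low hq Q)
  have hG : 0 < GG q Q := by
    by_contra h
    have := mul_nonpos_of_nonneg_of_nonpos hq0.le (not_lt.1 h)
    have := mul_pos ht hL
    linarith
  refine ⟨fun d => d * u Q (yy q Q) d, ?_, fun d => ?_, fun d hd => ?_, ?_⟩
  · have h1 : u Q (yy q Q) 1 = ∑ k ∈ SS q Q, (k.totient : ℝ)⁻¹ / GG q Q := by
      rw [u, SS, sum_filter]
      refine sum_congr rfl fun k _ => ?_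
      rw [if_pos (one_dvd k), Nat.div_one, yy]
      split_ifs with h
      · rw [← mul_div_assoc, ← mul_assoc, ← sq, mu_sq h.1, one_mul]
      · exact mul_zero _
    rw [h1, ← sum_div, Nat.cast_one, one_mul]
    exact div_self hG.ne'
  · have h1 : |u Q (yy q Q) d| ≤
        (∑ k ∈ (SS q Q).filter (fun k => d ∣ k), (k.totient : ℝ)⁻¹) / GG q Q := by
      rw [u, sum_div, sum_filter, SS, sum_filter]
      refine (abs_sum_le_sum_abs _ _).trans (sum_le_sum fun k _ => ?_)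
      rw [yy]
      split_ifs with a b b
      · rw [abs_mul, abs_div, abs_mul, abs_of_pos hG, abs_of_nonneg (a := (k.totient : ℝ)⁻¹)
          (by positivity)]
        have c1 := abs_mu_le (k / d)
        have c2 := abs_mu_le k
        have c3 : |mu k| * (k.totient : ℝ)⁻¹ / GG q Q ≤ (k.totient : ℝ)⁻¹ / GG q Q :=
          div_le_div_of_nonneg_right (mul_le_of_le_one_left (by positivity) c2) hG.le
        exact (mul_le_of_le_one_left (by positivity) c1).trans c3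
      all_goals simp
    rw [abs_mul, Nat.abs_cast]
    refine (mul_le_mul_of_nonneg_left h1 (by positivity)).trans ?_
    rw [← mul_div_assoc, div_le_one hG]
    exact mul_le q Q d
  · obtain ⟨k, hk, h⟩ := exists_ne_zero_of_sum_ne_zero (right_ne_zero_of_mul hd)
    by_cases a : d ∣ k
    · rw [if_pos a] at h
      have h2 := right_ne_zero_of_mul h
      rw [yy] at h2
      have h3 : Squarefree k ∧ k.Coprime q := by
        by_contra b
        exact h2 (if_neg b)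
      refine ⟨le_trans ?_ hQW, h3.2.coprime_dvd_left a⟩
      exact_mod_cast (mem_Icc.1 (icc_dvd Q k hk d a)).2
    · exact absurd (if_neg a) h
  · rw [form, sum_congr rfl fun l hl => by rw [sum_u Q _ hl]]
    have h1 : ∑ l ∈ Icc 1 Q, (l.totient : ℝ) * yy q Q l ^ 2 =
        ∑ k ∈ SS q Q, (k.totient : ℝ)⁻¹ / GG q Q ^ 2 := by
      rw [SS, sum_filter]
      refine sum_congr rfl fun k hk => ?_
      rw [yy]
      split_ifs with h
      · have h3 : (k.totient : ℝ) ≠ 0 := by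
          exact_mod_cast (Nat.totient_pos.2 (mem_Icc.1 hk).1).ne'
        rw [div_pow, mul_pow, mu_sq h.1]
        field_simp
      · simp
    rw [h1, ← sum_div]
    change GG q Q / GG q Q ^ 2 ≤ _
    rw [div_le_div_iff₀ (by positivity) (by positivity)]
    nlinarith

end Pool.Agent.MP_c5bf7b_nt.H38
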