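import Pool.Agent.MP_c5bf7b_nt.H38.SpecA
import Pool.Agent.MP_c481b3_nt.H31.ZExp
import Pool.Agent.MP_c481b3_nt.H31.LocFac2
import Pool.Agent.MP_ca0a54_nt.L0.ZetaA

/-! The classical zero free region of the zeta function. -/

set_option autoImplicit false

namespace Pool.Agent.MP_c5bf7b_nt.H38

open Complex Metric ArithmeticFunction

namespace ZetaAux

open Pool.Agent.MP_c481b3_nt.H31 (MoC locFac2)
open Pool.Agent.MP_ca0a54_nt.L0.ZetaA (Z Z_nonneg tsum_tm tsum_Z' summable_Z' norm_tm_le zeta_right)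

theorem z1_le (s : ℂ) (hs : 1 / 4 < s.re) : ‖riemannZeta₁ s‖ ≤ ‖s - 1‖ * ‖s‖ * Z + 1 := by
  have h2 : ‖riemannZeta₁ s - 1‖ ≤ ‖s - 1‖ * ‖s‖ * Z := by
    rw [← tsum_tm s hs, ← tsum_Z', ← tsum_mul_left]
    exact tsum_of_norm_bounded (summable_Z'.mul_left _).hasSum fun n => norm_tm_le n s hs.le
  have := norm_add_le (riemannZeta₁ s - 1) 1
  simp only [sub_add_cancel, norm_one] at this
  linarith

theorem z1_eq {s : ℂ} (hs : s ≠ 1) : riemannZeta₁ s = (s - 1) * riemannZeta s := by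
  rw [riemannZeta_eq_inv_sub_mul hs, ← mul_assoc, mul_inv_cancel₀ (sub_ne_zero.2 hs), one_mul]

theorem z1_ne {s : ℂ} (hs : 1 ≤ s.re) : riemannZeta₁ s ≠ 0 := by
  rcases eq_or_ne s 1 with rfl | h
  · simp
  · rw [z1_eq h]
    exact mul_ne_zero (sub_ne_zero.2 h) (riemannZeta_ne_zero_of_one_le_re hs)

theorem mo_eq {s : ℂ} (hs : 1 < s.re) :
    MoC (fun _ => 1) 0 s = (s - 1)⁻¹ - deriv riemannZeta₁ s / riemannZeta₁ s := by
  have hs1 : s ≠ 1 := by rintro rfl; simp at hs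
  have e : Pool.Agent.MP_c481b3_nt.H31.Repl.aw (fun _ => 1) = fun n : ℕ => (vonMangoldt n : ℂ) := by
    ext n
    rw [Pool.Agent.MP_c481b3_nt.H31.Repl.aw, mul_one]
  rw [Pool.Agent.MP_c481b3_nt.H31.ZX.moC_eq (by simp) 0 hs, pow_zero, one_mul, iteratedDeriv_zero, e,
    LSeries_vonMangoldt_eq_deriv_riemannZeta_div hs, deriv_riemannZeta_eq_neg_inv_sub_sq_mul_add hs1,
    riemannZeta_eq_inv_sub_mul hs1]
  have h1 := sub_ne_zero.2 hs1
  have h2 := z1_ne hs.le
  field_simp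
  ring

/-- the local bound for the logarithmic derivative -/
theorem loc : ∃ C : ℝ, 1 ≤ C ∧ ∀ σ τ : ℝ, 1 < σ → σ ≤ 2 →
    (MoC (fun _ => 1) 0 (σ + τ * I)).re ≤ (((σ : ℂ) + τ * I - 1)⁻¹).re + C * Real.log (|τ| + 2) ∧
    ∀ β : ℝ, 3 / 4 < β → riemannZeta₁ (β + τ * I) = 0 →
      (MoC (fun _ => 1) 0 (σ + τ * I)).re ≤
        (((σ : ℂ) + τ * I - 1)⁻¹).re - (σ - β)⁻¹ + C * Real.log (|τ| + 2) := by
  obtain ⟨K, hK, hL⟩ := locFac2
  have hZ := Z_nonneg
  set A : ℝ := (Z + 1) * (4 * Z + 1) with hA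
  have A1 : 1 ≤ A := by nlinarith
  have a0 := Real.log_nonneg A1
  refine ⟨K * (2 * Real.log A + 2), by nlinarith, fun σ τ h1 h2 => ?_⟩
  have t0 := abs_nonneg τ
  have l2 : 1 / 2 ≤ Real.log (|τ| + 2) := by
    have := Real.log_le_log (by norm_num) (by linarith : (2 : ℝ) ≤ |τ| + 2)
    linarith [Real.log_two_gt_d9]
  have hd : Differentiable ℂ fun w : ℂ => ((Z + 1 : ℝ) : ℂ) * riemannZeta₁ (w + τ * I) :=
    (differentiable_riemannZeta₁.comp (differentiable_id.add_const _)).const_mul _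
  have nz : ‖((Z + 1 : ℝ) : ℂ)‖ = Z + 1 := by rw [norm_real, Real.norm_of_nonneg (by linarith)]
  have nI : ‖(τ : ℂ) * I‖ = |τ| := by simp
  obtain ⟨Y, g, -, z2, z5, -, z4⟩ := hL _ (A * (|τ| + 2) ^ 2) hd.differentiableOn (by nlinarith)
    (fun s hs => by
      rw [mem_ball, dist_eq_norm] at hs
      have r1 : 1 / 4 < (s + τ * I).re := by
        have := (abs_le.1 ((abs_re_le_norm (s - 2)).trans hs.le)).1
        have h3 := (abs_lt.1 ((abs_re_le_norm (s - 2)).trans_lt hs)).1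
        simp at h3 ⊢
        linarith
      have r2 : ‖s + τ * I‖ ≤ 2 * (|τ| + 2) := by
        have e : s + τ * I = (s - 2) + 2 + τ * I := by ring
        have := norm_add₃_le (a := s - 2) (b := 2) (c := τ * I)
        rw [← e, nI] at this
        simp only [Complex.norm_ofNat] at this
        linarith
      have r3 : ‖s + τ * I - 1‖ ≤ 2 * (|τ| + 2) := by
        have e : s + τ * I - 1 = (s - 2) + 1 + τ * I := by ring
        have := norm_add₃_le (a := s - 2) (b := 1) (c := τ * I)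
        rw [← e, nI, norm_one] at this
        linarith
      have r4 := z1_le _ r1
      have r5 : ‖s + τ * I - 1‖ * ‖s + τ * I‖ ≤ 2 * (|τ| + 2) * (2 * (|τ| + 2)) :=
        mul_le_mul r3 r2 (norm_nonneg _) (by linarith)
      rw [norm_mul, nz, hA, mul_assoc]
      refine mul_le_mul_of_nonneg_left (r4.trans ?_) (by linarith)
      nlinarith [mul_le_mul_of_nonneg_right r5 hZ])
    (by
      have r1 : (2 + τ * I : ℂ).re = 2 := by simp
      obtain ⟨b1, -, b3⟩ := zeta_right (2 + τ * I) (by rw [r1]; norm_num)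
      have r2 : (2 + τ * I : ℂ) ≠ 1 := fun h => by rw [h] at r1; norm_num at r1
      have r3 : 1 ≤ ‖(2 + τ * I : ℂ) - 1‖ := by
        refine le_trans (le_of_eq ?_) (re_le_norm _)
        simp; norm_num
      have b4 : 0 < ‖riemannZeta (2 + τ * I)‖ := norm_pos_iff.2 b1
      rw [norm_inv, inv_le_iff_one_le_mul₀ b4] at b3
      rw [norm_mul, nz, z1_eq r2, norm_mul]
      nlinarith [mul_le_mul_of_nonneg_right r3 b4.le])
  have c0 : ((Z + 1 : ℝ) : ℂ) ≠ 0 := by exact_mod_cast (by linarith : Z + 1 ≠ 0)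
  have hB : K * Real.log (A * (|τ| + 2) ^ 2) ≤ K * (2 * Real.log A + 2) * Real.log (|τ| + 2) := by
    rw [Real.log_mul (by linarith) (by positivity), Real.log_pow, mul_assoc]
    refine mul_le_mul_of_nonneg_left ?_ (by linarith)
    push_cast
    nlinarith
  have hre : ∀ ρ ∈ Y, ρ.re ≤ (σ : ℂ).re := fun ρ hρ => by
    by_contra a
    refine mul_ne_zero c0 (z1_ne ?_) (z2 ρ hρ).2
    simp at a ⊢
    linarith
  have hball : ∀ x : ℝ, 3 / 4 < x → x ≤ 2 → (x : ℂ) ∈ ball (2 : ℂ) (5 / 4) := fun x a b => by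
    rw [mem_ball, dist_eq_norm, show (x : ℂ) - 2 = ((x - 2 : ℝ) : ℂ) by push_cast; ring, norm_real,
      Real.norm_eq_abs, abs_lt]
    constructor <;> linarith
  have s1 : 1 < ((σ : ℂ) + τ * I).re := by simpa using h1
  obtain ⟨g1, g2⟩ := z4 σ (hball σ (by linarith) h2)
  have g3 := g2 (mul_ne_zero c0 (z1_ne s1.le))
  rw [deriv_const_mul_field, deriv_comp_add_const, mul_div_mul_left _ _ c0] at g3
  have g4 : (MoC (fun _ => 1) 0 (σ + τ * I)).re ≤ (((σ : ℂ) + τ * I - 1)⁻¹).re -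
      ((Y.map fun ρ => ((σ : ℂ) - ρ)⁻¹).sum).re + K * (2 * Real.log A + 2) * Real.log (|τ| + 2) := by
    rw [mo_eq s1, g3, sub_re, add_re]
    have := (abs_le.1 ((abs_re_le_norm _).trans (g1.trans hB))).1
    linarith
  constructor
  · have : 0 ≤ ((Y.map fun ρ => ((σ : ℂ) - ρ)⁻¹).sum).re := by
      rw [← coe_reAddGroupHom, map_multiset_sum, Multiset.map_map]
      refine Multiset.sum_nonneg fun x hx => ?_
      obtain ⟨ρ, hρ, rfl⟩ := Multiset.mem_map.1 hx
      simp only [Function.comp, coe_reAddGroupHom]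
      rw [inv_re, sub_re]
      exact div_nonneg (by linarith [hre ρ hρ]) (normSq_nonneg _)
    linarith
  · intro β b1 b2
    have b3 : β < 1 := by
      by_contra a
      exact z1_ne (by simpa using a) b2
    have b4 := z5 β (hball β b1 (by linarith)) (by rw [b2, mul_zero])
    have b5 := Pool.Agent.MP_c481b3_nt.H31.ZX.re_sum σ Y hre b4
    simp only [zero_add, pow_one] at b5
    rw [← ofReal_sub, ← ofReal_inv, ofReal_re] at b5
    linarith

theorem re_inv_le {δ t r : ℝ} (d0 : 0 < δ) (d1 : δ ≤ 1) (r0 : 0 < r) (ht : r ≤ |t|) :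
    ((((1 + δ : ℝ) : ℂ) + t * I - 1)⁻¹).re ≤ (r ^ 2)⁻¹ := by
  have c1 : (((1 + δ : ℝ) : ℂ) + t * I - 1).re = δ := by simp
  have c2 : (((1 + δ : ℝ) : ℂ) + t * I - 1).im = t := by simp
  have c3 : r ^ 2 ≤ t * t := by
    rw [← sq, ← sq_abs t]
    exact pow_le_pow_left₀ r0.le ht 2
  rw [inv_re, normSq_apply, c1, c2, ← one_div]
  exact div_le_div₀ zero_le_one d1 (by positivity) (by nlinarith)

/-- the zero free region -/
theorem zfr : ∃ c : ℝ, 0 < c ∧ ∀ ρ : ℂ, riemannZeta₁ ρ = 0 →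
    c / Real.log (|ρ.im| + 2) ≤ 1 - ρ.re := by
  obtain ⟨C, hC, hl⟩ := loc
  obtain ⟨r, r0, hr⟩ := Metric.eventually_nhds_iff.1 riemannZeta₁_ne_zero_of_near_one
  set R : ℝ := ((r / 2) ^ 2)⁻¹ with hR
  have R0 : 0 < R := by positivity
  set D : ℝ := 9 * C + 10 * R with hD
  have D1 : 1 ≤ D := by linarith
  refine ⟨min (min (r / 4) (1 / 8)) (1 / (14 * D)), by positivity, fun ρ hρ => ?_⟩
  have t0 := abs_nonneg ρ.im
  set L := Real.log (|ρ.im| + 2) with hL
  have l2 : Real.log 2 ≤ L := Real.log_le_log (by norm_num) (by linarith)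
  have l3 : 1 / 2 ≤ L := by linarith [Real.log_two_gt_d9]
  have L0 : 0 < L := by linarith
  by_contra hcon
  rw [not_le, lt_div_iff₀ L0] at hcon
  have b3 : ρ.re < 1 := by
    by_contra a
    exact z1_ne (not_lt.1 a) hρ
  have m1 : (1 - ρ.re) * L < r / 4 := hcon.trans_le ((min_le_left _ _).trans (min_le_left _ _))
  have m2 : (1 - ρ.re) * L < 1 / 8 := hcon.trans_le ((min_le_left _ _).trans (min_le_right _ _))
  have m3 : (1 - ρ.re) * L < 1 / (14 * D) := hcon.trans_le (min_le_right _ _)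
  have m4 : 1 - ρ.re < r / 2 := by nlinarith
  have m5 : 1 - ρ.re < 1 / 4 := by nlinarith
  have m6 : r / 2 ≤ |ρ.im| := by
    by_contra a
    refine hr ?_ hρ
    have := norm_le_abs_re_add_abs_im (ρ - 1)
    rw [sub_re, sub_im, one_re, one_im, sub_zero, abs_of_nonpos (by linarith)] at this
    rw [dist_eq_norm]
    linarith [not_le.1 a]
  set δ : ℝ := 1 / (2 * D * L) with hδ
  have d0 : 0 < δ := by positivity
  have d1 : δ ≤ 1 := by
    rw [hδ, div_le_one (by positivity)]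
    nlinarith
  have d2 : δ⁻¹ = 2 * D * L := by rw [hδ, one_div, inv_inv]
  have d3 : 1 - ρ.re < δ / 7 := by
    rw [show δ / 7 = 1 / (14 * D) / L by rw [hδ]; field_simp; norm_num, lt_div_iff₀ L0]
    exact m3
  have hσ : 1 < 1 + δ := by linarith
  have a0 := Pool.Agent.MP_c481b3_nt.H31.ZX.pos (w := fun _ => 1) (by simp) hσ ρ.im
  have a1 := (hl (1 + δ) 0 hσ (by linarith)).1
  have a2 := (hl (1 + δ) ρ.im hσ (by linarith)).2 ρ.re (by linarith) (by rw [re_add_im]; exact hρ)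
  have a3 := (hl (1 + δ) (2 * ρ.im) hσ (by linarith)).1
  have a4 := re_inv_le d0 d1 (by positivity : 0 < r / 2) m6
  have a5 := re_inv_le (t := 2 * ρ.im) d0 d1 (by positivity : 0 < r / 2)
    (by rw [abs_mul, abs_two]; linarith)
  have a6 : Real.log (|2 * ρ.im| + 2) ≤ 2 * L := by
    rw [abs_mul, abs_two]
    have : Real.log (2 * |ρ.im| + 2) ≤ Real.log (2 * (|ρ.im| + 2)) :=
      Real.log_le_log (by positivity) (by linarith)
    rw [Real.log_mul (by norm_num) (by positivity)] at this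
    linarith
  have a7 : 8 / 7 * δ ≥ 1 + δ - ρ.re := by linarith
  have a8 : (8 / 7 * δ)⁻¹ < (1 + δ - ρ.re)⁻¹ := inv_strictAnti₀ (by linarith) (by linarith)
  rw [mul_inv, d2] at a8
  rw [ofReal_zero, zero_mul, add_zero, abs_zero, zero_add,
    show ((1 + δ : ℝ) : ℂ) - 1 = δ by push_cast; ring, ← ofReal_inv, ofReal_re, d2] at a1
  rw [ofReal_mul, ofReal_ofNat] at a3 a5
  rw [← hL] at a2
  rw [← hR] at a4 a5
  have e1 : C * Real.log 2 ≤ C * L := mul_le_mul_of_nonneg_left l2 (by linarith)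
  have e2 : C * Real.log (|2 * ρ.im| + 2) ≤ C * (2 * L) := mul_le_mul_of_nonneg_left a6 (by linarith)
  have e3 : R * (1 / 2) ≤ R * L := mul_le_mul_of_nonneg_left l3 R0.le
  have e4 : D * L = 9 * (C * L) + 10 * (R * L) := by rw [hD]; ring
  norm_num at a8
  nlinarith

end ZetaAux

open ZetaAux in
theorem zeta : ZetaS := by
  obtain ⟨c, hc, h⟩ := zfr
  refine ⟨c, hc, fun q _ ρ h1 h2 => h ρ ?_⟩
  rw [Phi, if_pos rfl] at h2
  have r1 : ρ ≠ 1 := by
    rintro rfl
    exact DirichletCharacter.LFunctionTrivChar₁_apply_one_ne_zero q h2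
  rw [DirichletCharacter.LFunctionTrivChar₁, Function.update_of_ne r1,
    DirichletCharacter.LFunctionTrivChar_eq_mul_riemannZeta r1, mul_left_comm, ← z1_eq r1] at h2
  refine (mul_eq_zero.1 h2).resolve_left (Finset.prod_ne_zero_iff.2 fun p hp e => ?_)
  have p2 := (Nat.prime_of_mem_primeFactors hp).one_lt
  have : ‖(p : ℂ) ^ (-ρ)‖ < 1 := by
    rw [norm_natCast_cpow_of_pos (by omega), neg_re]
    exact Real.rpow_lt_one_of_one_lt_of_neg (by exact_mod_cast p2) (by linarith)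
  rw [← sub_eq_zero.1 e, norm_one] at this
  exact lt_irrefl _ this

end Pool.Agent.MP_c5bf7b_nt.H38
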