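import Pool.Agent.MP_c5bf7b_nt.H38.Base
import Pool.Agent.MP_c481b3_nt.H63.SiegelA

/-! The theorem of Siegel on real zeros of real characters. -/

set_option autoImplicit false

namespace Pool.Agent.MP_c5bf7b_nt.H38

open Finset Complex Metric ArithmeticFunction DirichletCharacter

namespace SiegA

/-- the real arithmetic function of a character -/
noncomputable def ra {q : ℕ} (χ : Ch q) : ArithmeticFunction ℝ :=
  ⟨fun n => if n = 0 then 0 else (χ n).re, by simp⟩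

theorem real {q : ℕ} {χ : Ch q} (h : χ ^ 2 = 1) (a : ZMod q) : (((χ a).re : ℝ) : ℂ) = χ a := by
  rcases MulChar.isQuadratic_iff_sq_eq_one.2 h a with h | h | h <;> rw [h] <;> simp

theorem ra_coe {q : ℕ} {χ : Ch q} (h : χ ^ 2 = 1) {n : ℕ} (hn : n ≠ 0) :
    ((ra χ n : ℝ) : ℂ) = χ n := by
  change (((if n = 0 then 0 else (χ n).re : ℝ) : ℝ) : ℂ) = _
  rw [if_neg hn, real h]

theorem ra_ch {q : ℕ} [NeZero q] {χ : Ch q} (h : χ ^ 2 = 1) (h1 : χ ≠ 1) :
    MP_c481b3_nt.H63.Ch (ra χ) q := by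
  refine ⟨?_, fun m n => ?_, fun n => ?_, fun N => ?_⟩
  · apply ofReal_injective
    rw [ra_coe h one_ne_zero]
    simp
  · rcases eq_or_ne m 0 with rfl | hm
    · simp
    rcases eq_or_ne n 0 with rfl | hn
    · simp
    apply ofReal_injective
    rw [ofReal_mul, ra_coe h hm, ra_coe h hn, ra_coe h (mul_ne_zero hm hn), Nat.cast_mul, map_mul]
  · rcases eq_or_ne n 0 with rfl | hn
    · simp
    rw [← Real.norm_eq_abs, ← norm_real, ra_coe h hn]
    exact χ.norm_le_one _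
  · rcases N with _ | N
    · simp
    have h2 := (base q χ h1).1 0 N
    have h3 : ((∑ k ∈ range (N + 1), ra χ k : ℝ) : ℂ) = ∑ k ∈ Ioc 0 N, χ k := by
      rw [range_eq_Ico, Ico_add_one_right_eq_Icc, ← Ioc_insert_left (Nat.zero_le N),
        sum_insert (by simp), ArithmeticFunction.map_zero, zero_add, ofReal_sum]
      exact sum_congr rfl fun k hk => ra_coe h (mem_Ioc.1 hk).1.ne'
    rw [← Real.norm_eq_abs, ← norm_real, h3]
    exact h2

theorem lc_one {q : ℕ} [NeZero q] {χ : Ch q} (h : χ ^ 2 = 1) (h1 : χ ≠ 1) :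
    MP_c481b3_nt.H63.Lc (ra χ) 1 = LFunction χ 1 := by
  have hc := ra_ch h h1
  have h2 : Set.EqOn (MP_c481b3_nt.H63.Lc (ra χ)) (LFunction χ) (ball 2 (7 / 4)) := by
    refine (hc.differentiableOn.analyticOnNhd isOpen_ball).eqOn_of_preconnected_of_eventuallyEq
      ((differentiable_LFunction h1).differentiableOn.analyticOnNhd
        isOpen_ball) (convex_ball _ _).isPreconnected (mem_ball_self (by norm_num)) ?_
    filter_upwards [MP_c481b3_nt.H63.near_two] with s hs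
    rw [← hc.eq_LSeries hs.1 hs.2, LFunction_eq_LSeries _ hs.2]
    refine LSeries_congr (fun {n} hn => ?_) s
    rw [MP_c481b3_nt.H63.cc_apply, ra_coe h hn]
  have h3 := h2 (MP_c481b3_nt.H63.real_mem (β := 1) (by norm_num) (by norm_num))
  rwa [ofReal_one] at h3

/-- the product at the level `q * r` -/
noncomputable def pr {q r : ℕ} (χ : Ch q) (ψ : Ch r) : Ch (q * r) :=
  changeLevel (Nat.dvd_mul_right q r) χ * changeLevel (Nat.dvd_mul_left r q) ψ

theorem pr_apply {q r : ℕ} (χ : Ch q) (ψ : Ch r) (n : ℕ) : pr χ ψ n = χ n * ψ n := by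
  by_cases h : IsCoprime (n : ℤ) ((q * r : ℕ) : ℤ)
  · have h1 := changeLevel_eq_cast_of_dvd' χ (Nat.dvd_mul_right q r) h
    have h2 := changeLevel_eq_cast_of_dvd' ψ (Nat.dvd_mul_left r q) h
    rw [Int.cast_natCast] at h1 h2
    rw [Int.cast_natCast] at h1 h2
    rw [pr, MulChar.mul_apply, h1, h2]
  · have h1 := (apply_eq_zero_iff (pr χ ψ) n).2 h
    rw [Int.cast_natCast] at h1
    rw [h1]
    rw [Nat.cast_mul, IsCoprime.mul_right_iff, not_and_or] at h
    rcases h with h | h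
    · have h2 := (apply_eq_zero_iff χ n).2 h
      rw [Int.cast_natCast] at h2
      rw [h2, zero_mul]
    · have h2 := (apply_eq_zero_iff ψ n).2 h
      rw [Int.cast_natCast] at h2
      rw [h2, mul_zero]

theorem pr_sq {q r : ℕ} {χ : Ch q} {ψ : Ch r} (h : χ ^ 2 = 1) (h' : ψ ^ 2 = 1) :
    pr χ ψ ^ 2 = 1 := by
  rw [pr, mul_pow, ← map_pow, ← map_pow, h, h', map_one, map_one, mul_one]

theorem ra_pr {q r : ℕ} {χ : Ch q} {ψ : Ch r} (h : χ ^ 2 = 1) (h' : ψ ^ 2 = 1) :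
    pmul (ra χ) (ra ψ) = ra (pr χ ψ) := by
  ext n
  rcases eq_or_ne n 0 with rfl | hn
  · simp
  apply ofReal_injective
  rw [pmul_apply, ofReal_mul, ra_coe h hn, ra_coe h' hn, ra_coe (pr_sq h h') hn, pr_apply]

theorem eq_of_pr {q r : ℕ} [NeZero q] [NeZero r] {χ : Ch q} {ψ : Ch r} (hχ : χ.IsPrimitive)
    (hψ : ψ.IsPrimitive) (h' : ψ ^ 2 = 1) (h : pr χ ψ = 1) : q = r ∧ HEq χ ψ := by
  have h1 : changeLevel (Nat.dvd_mul_left r q) ψ * changeLevel (Nat.dvd_mul_left r q) ψ = 1 := by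
    rw [← map_mul, ← sq, h', map_one]
  have h2 : changeLevel (Nat.dvd_mul_right q r) χ = changeLevel (Nat.dvd_mul_left r q) ψ :=
    mul_right_cancel (h.trans h1.symm)
  have h3 : q = r := by
    have := congrArg conductor h2
    rwa [conductor_changeLevel, conductor_changeLevel, hχ, hψ] at this
  subst h3
  exact ⟨rfl, heq_of_eq (changeLevel_injective _ h2)⟩

theorem prim {ε : ℝ} (hε : 0 < ε) : ∃ c : ℝ, 0 < c ∧ ∀ (d : ℕ) [NeZero d] (χ : Ch d),
    χ.IsPrimitive → χ ^ 2 = 1 → χ ≠ 1 → c * (d : ℝ) ^ (-ε) ≤ ‖LFunction χ 1‖ := by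
  obtain ⟨c, hc, h⟩ := MP_c481b3_nt.H63.siegel_abs
    (ι := {x : Σ d : ℕ+, Ch d // x.2.IsPrimitive ∧ x.2 ^ 2 = 1 ∧ x.2 ≠ 1}) (fun x => ra x.1.2)
    (fun x => ((x.1.1 : ℕ) : ℝ)) (fun x => ra_ch x.2.2.1 x.2.2.2)
    (fun x => by
      rw [lc_one x.2.2.1 x.2.2.2]
      exact LFunction_apply_one_ne_zero x.2.2.2)
    (fun x y hxy => by
      rw [ra_pr x.2.2.1 y.2.2.1, ← Nat.cast_mul]
      refine ra_ch (pr_sq x.2.2.1 y.2.2.1) fun h => hxy ?_
      obtain ⟨h1, h2⟩ := eq_of_pr x.2.1 y.2.1 y.2.2.1 h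
      exact Subtype.ext (Sigma.ext (PNat.eq h1) h2)) hε
  refine ⟨c, hc, fun d _ χ h1 h2 h3 => ?_⟩
  have h4 := h ⟨⟨⟨d, NeZero.pos d⟩, χ⟩, h1, h2, h3⟩
  have h5 := lc_one h2 h3
  refine le_trans h4 ?_
  rw [← h5]
  exact re_le_norm _

theorem bound {θ : ℝ} (hθ : 0 < θ) (hθ' : θ ≤ 1 / 2) : ∃ C : ℝ, 0 < C ∧ ∀ (d : ℕ) [NeZero d]
    (χ : Ch d) (s : ℂ), χ ≠ 1 → 1 - θ ≤ s.re → ‖s‖ ≤ 2 →
    ‖LFunction χ s‖ ≤ C * (d : ℝ) ^ (2 * θ) := by
  have hZ : Summable fun n : ℕ => (n : ℝ) ^ (-1 - θ) := Real.summable_nat_rpow.2 (by linarith)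
  have hZ0 : 0 ≤ ∑' n : ℕ, (n : ℝ) ^ (-1 - θ) := tsum_nonneg fun n => by positivity
  refine ⟨∑' n : ℕ, (n : ℝ) ^ (-1 - θ) + 6, by positivity, fun d _ χ s h1 h2 h3 => ?_⟩
  have hd : 1 ≤ d := NeZero.pos d
  have hd' : (1 : ℝ) ≤ d := by exact_mod_cast hd
  have h4 := ((base d χ h1).2 s d (by linarith) hd).2
  have h5 : ‖∑ n ∈ Icc 1 d, χ n * (n : ℂ) ^ (-s)‖ ≤
      (∑' n : ℕ, (n : ℝ) ^ (-1 - θ)) * (d : ℝ) ^ (2 * θ) := by
    refine (norm_sum_le _ _).trans (le_trans ?_ (mul_le_mul_of_nonneg_right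
      (hZ.sum_le_tsum (Icc 1 d) fun n _ => by positivity) (by positivity)))
    rw [sum_mul]
    refine sum_le_sum fun n hn => ?_
    obtain ⟨hn1, hn2⟩ := mem_Icc.1 hn
    have hn3 : (1 : ℝ) ≤ n := by exact_mod_cast hn1
    have hn4 : (n : ℝ) ≤ d := by exact_mod_cast hn2
    rw [norm_mul, norm_natCast_cpow_of_pos hn1, neg_re]
    calc ‖χ n‖ * (n : ℝ) ^ (-s.re) ≤ 1 * (n : ℝ) ^ (-1 - θ + 2 * θ) :=
          mul_le_mul (χ.norm_le_one _) (Real.rpow_le_rpow_of_exponent_le hn3 (by linarith))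
            (by positivity) zero_le_one
      _ = (n : ℝ) ^ (-1 - θ) * (n : ℝ) ^ (2 * θ) := by rw [one_mul, Real.rpow_add (by linarith)]
      _ ≤ _ := mul_le_mul_of_nonneg_left (Real.rpow_le_rpow (by linarith) hn4 (by linarith))
            (by positivity)
  have h6 : 1 / s.re ≤ 2 := by
    rw [div_le_iff₀ (by linarith)]
    linarith
  have h7 : (d : ℝ) * (d : ℝ) ^ (-s.re) ≤ (d : ℝ) ^ (2 * θ) := by
    rw [mul_comm, ← Real.rpow_add_one (by positivity)]
    exact Real.rpow_le_rpow_of_exponent_le hd' (by linarith)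
  have h8 : (d : ℝ) * ‖s‖ * (1 + 1 / s.re) * (d : ℝ) ^ (-s.re) ≤ 6 * (d : ℝ) ^ (2 * θ) := by
    have h9 : 0 ≤ 1 / s.re := by
      have : 0 < s.re := by linarith
      positivity
    calc (d : ℝ) * ‖s‖ * (1 + 1 / s.re) * (d : ℝ) ^ (-s.re)
        = (‖s‖ * (1 + 1 / s.re)) * ((d : ℝ) * (d : ℝ) ^ (-s.re)) := by ring
      _ ≤ (2 * 3) * (d : ℝ) ^ (2 * θ) :=
          mul_le_mul (mul_le_mul h3 (by linarith) (by linarith) zero_le_two) h7 (by positivity)
            (by norm_num)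
      _ = _ := by norm_num
  have h9 := norm_add_le (LFunction χ s - ∑ n ∈ Icc 1 d, χ n * (n : ℂ) ^ (-s))
    (∑ n ∈ Icc 1 d, χ n * (n : ℂ) ^ (-s))
  rw [sub_add_cancel] at h9
  linarith

theorem zero_prim {q : ℕ} [NeZero q] (χ : Ch q) [NeZero χ.conductor] {β : ℝ} (hβ : 0 < β)
    (h1 : χ.primitiveCharacter ≠ 1) (h : LFunction χ β = 0) :
    LFunction χ.primitiveCharacter β = 0 := by
  have h2 := LFunction_changeLevel χ.conductor_dvd_level χ.primitiveCharacter (s := β) (Or.inl h1)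
  rw [changeLevel_primitiveCharacter, h] at h2
  refine (mul_eq_zero.1 h2.symm).resolve_right (prod_ne_zero_iff.2 fun p hp h3 => ?_)
  have hp' := Nat.prime_of_mem_primeFactors hp
  have h4 : ‖χ.primitiveCharacter p * (p : ℂ) ^ (-(β : ℂ))‖ < 1 := by
    rw [norm_mul, norm_natCast_cpow_of_pos hp'.pos, neg_re, ofReal_re]
    refine lt_of_le_of_lt (mul_le_of_le_one_left (by positivity) (norm_le_one _ _)) ?_
    exact Real.rpow_lt_one_of_one_lt_of_neg (by exact_mod_cast hp'.one_lt) (by linarith)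
  rw [← sub_eq_zero.1 h3, norm_one] at h4
  exact lt_irrefl _ h4

end SiegA

open SiegA in
theorem sieg : SiegS := by
  intro ε hε
  obtain ⟨c, hc, hS⟩ := prim (half_pos hε)
  set θ : ℝ := min (1 / 2) (ε / 4) with hθ
  have hθ0 : 0 < θ := lt_min (by norm_num) (by positivity)
  have hθ1 : θ ≤ 1 / 2 := min_le_left _ _
  have hθ2 : θ ≤ ε / 4 := min_le_right _ _
  obtain ⟨C, hC, hB⟩ := bound hθ0 hθ1
  refine ⟨min (θ / 3) (c * (θ / 2) / C), lt_min (by positivity) (by positivity),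
    fun q _ χ β h2 h1 hβ h0 => ?_⟩
  have hq : (1 : ℝ) ≤ q := by exact_mod_cast NeZero.pos q
  have hqε : (q : ℝ) ^ (-ε) ≤ 1 := Real.rpow_le_one_of_one_le_of_nonpos hq (by linarith)
  have hβ1 : β < 1 := by
    by_contra h
    exact LFunction_ne_zero_of_one_le_re χ (Or.inl h1) (by simpa using not_lt.1 h) h0
  by_cases hb : θ / 3 ≤ 1 - β
  · refine le_trans ?_ hb
    exact (mul_le_of_le_one_right (le_min (by positivity) (by positivity)) hqε).trans
      (min_le_left _ _)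
  rw [not_le] at hb
  have : NeZero χ.conductor := ⟨χ.conductor_ne_zero⟩
  have hψ1 : χ.primitiveCharacter ≠ 1 := fun h => h1 (by
    rw [← χ.changeLevel_primitiveCharacter, h, map_one])
  have hψ2 : χ.primitiveCharacter ^ 2 = 1 := by
    apply changeLevel_injective χ.conductor_dvd_level
    rw [map_pow, changeLevel_primitiveCharacter, h2, map_one]
  have hz := zero_prim χ (by linarith) hψ1 h0
  have h3 := hS _ χ.primitiveCharacter χ.primitiveCharacter_isPrimitive hψ2 hψ1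
  have hd1 : (1 : ℝ) ≤ χ.conductor := by exact_mod_cast NeZero.pos χ.conductor
  have hd2 : (χ.conductor : ℝ) ≤ q := by
    exact_mod_cast Nat.le_of_dvd (NeZero.pos q) χ.conductor_dvd_level
  have hdist : dist (1 : ℂ) β = 1 - β := by
    rw [dist_eq_norm, ← ofReal_one, ← ofReal_sub, norm_real, Real.norm_eq_abs,
      abs_of_nonneg (by linarith)]
  have h4 := dist_le_div_mul_dist_of_mapsTo_ball (f := LFunction χ.primitiveCharacter) (c := β)
    (R₁ := θ / 2) (R₂ := C * (χ.conductor : ℝ) ^ (2 * θ)) (z := 1)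
    (differentiable_LFunction hψ1).differentiableOn (fun s hs => by
      rw [hz, mem_closedBall, dist_zero_right]
      rw [mem_ball, dist_eq_norm] at hs
      have h5 := (abs_lt.1 ((abs_re_le_norm (s - β)).trans_lt hs)).1
      rw [sub_re, ofReal_re] at h5
      have h6 : ‖s‖ ≤ ‖s - β‖ + ‖(β : ℂ)‖ := by simpa using norm_add_le (s - β) β
      rw [norm_real, Real.norm_eq_abs, abs_of_nonneg (by linarith)] at h6
      exact hB _ _ s hψ1 (by linarith) (by linarith))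
    (by rw [mem_ball, hdist]; linarith)
  rw [hz, dist_zero_right, hdist] at h4
  have h5 : (χ.conductor : ℝ) ^ (2 * θ) * (q : ℝ) ^ (-ε) ≤ (χ.conductor : ℝ) ^ (-(ε / 2)) := by
    refine (mul_le_mul_of_nonneg_left (Real.rpow_le_rpow_of_nonpos (by linarith) hd2 (by linarith))
      (by positivity)).trans ?_
    rw [← Real.rpow_add (by linarith)]
    exact Real.rpow_le_rpow_of_exponent_le hd1 (by linarith)
  have h6 : 0 < C * (χ.conductor : ℝ) ^ (2 * θ) / (θ / 2) := by positivity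
  refine (mul_le_mul_of_nonneg_right (min_le_right _ _) (by positivity)).trans ?_
  refine le_of_mul_le_mul_left (le_trans ?_ (h3.trans h4)) h6
  calc C * (χ.conductor : ℝ) ^ (2 * θ) / (θ / 2) * (c * (θ / 2) / C * (q : ℝ) ^ (-ε))
      = c * ((χ.conductor : ℝ) ^ (2 * θ) * (q : ℝ) ^ (-ε)) := by field_simp
    _ ≤ _ := mul_le_mul_of_nonneg_left h5 hc.le

end Pool.Agent.MP_c5bf7b_nt.H38
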