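import Pool.Agent.MP_c5bf7b_nt.H38.Kf1

/-! Row KF, part 2: the prime sum, the use of the formula of Jensen, sums over zeros. -/

set_option autoImplicit false

namespace Pool.Agent.MP_c5bf7b_nt.H38.Kf

open Complex ArithmeticFunction

lemma series {q : ℕ} (hq : 2 ≤ q) (χ : Ch q) (f : ℝ → ℝ) {x : ℝ} (hfx : f x = 0) (w : ℂ) :
    (∑' n : ℕ, ((vonMangoldt n / (n * Real.log q) : ℝ) : ℂ) * χ n *
        exp (w.im * I * (Real.log n / Real.log q : ℝ)) * kk f x w.re (Real.log n / Real.log q)) =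
      Kn q f x χ w - f 0 / Real.log q *
        LSeries (fun n => (vonMangoldt n : ℂ) * χ n) (1 + (1 - w.im * I) / Real.log q) := by
  have hq1 : (1 : ℝ) < q := by exact_mod_cast hq
  have hl : 0 < Real.log q := Real.log_pos hq1
  have hiff : ∀ n : ℕ, n ≠ 0 → ((n : ℝ) ≤ (q : ℝ) ^ x ↔ Real.log n / Real.log q ≤ x) := by
    intro n hn
    have hn0 : (0 : ℝ) < n := by exact_mod_cast Nat.pos_of_ne_zero hn
    rw [Real.le_rpow_iff_log_le hn0 (by linarith), div_le_iff₀ hl]
  set g : ℕ → ℂ := fun n =>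
    ((vonMangoldt n / (n * Real.log q) * f (min (Real.log n / Real.log q) x) : ℝ) : ℂ) * χ n *
      exp (w * (Real.log n / Real.log q : ℝ)) with hg
  have h1 : HasSum g (Kn q f x χ w) := by
    have h2 : Kn q f x χ w = ∑ n ∈ Finset.Icc 1 ⌊(q : ℝ) ^ x⌋₊, g n := by
      refine Finset.sum_congr rfl fun n hn => ?_
      rw [Finset.mem_Icc] at hn
      have h3 := (hiff n (by omega)).1 ((Nat.le_floor_iff (by positivity)).1 hn.2)
      simp only [hg, min_eq_left h3]
    rw [h2]
    refine hasSum_sum_of_ne_finset_zero fun n hn => ?_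
    rcases eq_or_ne n 0 with rfl | h0
    · simp [hg]
    · have h3 : ¬ n ≤ ⌊(q : ℝ) ^ x⌋₊ := fun h => hn (Finset.mem_Icc.2 ⟨by omega, h⟩)
      rw [Nat.le_floor_iff (by positivity), hiff n h0, not_le] at h3
      simp [hg, min_eq_right h3.le, hfx]
  have hre : 1 < (1 + (1 - w.im * I) / Real.log q : ℂ).re := by
    rw [add_re, div_ofReal_re]
    simp [hl]
  have h2 : LSeriesSummable (fun n => (vonMangoldt n : ℂ) * χ n)
      (1 + (1 - w.im * I) / Real.log q) := by
    have := DirichletCharacter.LSeriesSummable_twist_vonMangoldt χ hre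
    convert this using 2 with n
    simp [mul_comm]
  have h3 := h1.sub (h2.hasSum.mul_left ((f 0 : ℂ) / Real.log q))
  refine Eq.trans (tsum_congr fun n => ?_) h3.tsum_eq
  rcases eq_or_ne n 0 with rfl | h0
  · simp [hg]
  have hn1 : (1 : ℝ) ≤ n := by exact_mod_cast Nat.pos_of_ne_zero h0
  have hu : 0 ≤ Real.log n / Real.log q := div_nonneg (Real.log_nonneg hn1) hl.le
  have hnc : (n : ℂ) ≠ 0 := by exact_mod_cast h0
  have hlc : ((Real.log q : ℝ) : ℂ) ≠ 0 := by exact_mod_cast hl.ne'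
  have hpow : (n : ℂ) ^ (1 + (1 - w.im * I) / Real.log q : ℂ) =
      n * exp (((Real.log n / Real.log q : ℝ) : ℂ) - w.im * I * (Real.log n / Real.log q : ℝ)) := by
    rw [cpow_add _ _ hnc, cpow_one, cpow_def_of_ne_zero hnc, ← natCast_log]
    congr 2
    rw [ofReal_div]
    ring
  have hw : exp (w * (Real.log n / Real.log q : ℝ)) =
      exp (w.im * I * (Real.log n / Real.log q : ℝ)) *
        exp (w.re * (Real.log n / Real.log q : ℝ)) := by
    rw [← exp_add]
    congr 1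
    conv_lhs => rw [← re_add_im w]
    ring
  rw [kk_pos f x _ hu, LSeries.term_of_ne_zero h0, hpow, exp_sub]
  simp only [hg]
  rw [hw, exp_neg]
  generalize Real.log n / Real.log q = u
  generalize Real.log q = l at hlc
  have e1 := exp_ne_zero (u : ℂ)
  have e2 := exp_ne_zero (w.im * I * u)
  push_cast
  field_simp

lemma pz_add (Y Z : Multiset ℂ) (s : ℂ) : PZ (Y + Z) s = PZ Y s * PZ Z s := by
  simp [PZ]

lemma pz_diff (Y : Multiset ℂ) : Differentiable ℂ (PZ Y) := by
  induction Y using Multiset.induction_on with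
  | empty =>
    have : PZ 0 = fun _ => 1 := by
      funext s
      simp [PZ]
    rw [this]
    fun_prop
  | cons a Y ih =>
    have : PZ (a ::ₘ Y) = fun s => (s - a) * PZ Y s := by
      funext s
      simp [PZ]
    rw [this]
    fun_prop

open Classical in
lemma jensen (hJ : JdS) {q : ℕ} [NeZero q] {χ : Ch q} {Y : Multiset ℂ} (hY : NZ χ Y)
    (hl : 0 < Real.log q) {C R d M₁ M₀ τ : ℝ} (hc : Cnt (Real.log q) C Y) (hR : 0 < R)
    (hd : 0 ≤ d) (hdR : d ≤ R / 2) (hd1 : d ≤ 1) (h1 : 0 ≤ M₁) (h0 : 0 ≤ M₀) {a : ℂ}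
    (ha : a = 1 + (1 - τ * I) / Real.log q)
    (hup : ∀ s ∈ Metric.closedBall a R,
      ‖Phi χ s‖ ≤ Real.exp (M₁ * max 0 (a.re - s.re) + M₀))
    (hlo : ∀ s ∈ Metric.closedBall a R, a.re ≤ s.re → Real.exp (-M₀) ≤ ‖Phi χ s‖) :
    -(deriv (Phi χ) a / Phi χ a).re ≤
      -(Real.log q * (Y.map fun ζ =>
        if ‖ζ - τ * I + 1‖ ≤ d * Real.log q then ((ζ - τ * I + 1)⁻¹).re else 0).sum) +
      4 * (C * Real.log q) * d / R ^ 2 + M₁ / 2 + 3 * M₀ / R := by
  obtain ⟨Z, G, ⟨hG, hf, -, -⟩, rfl⟩ := hY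
  have hlc : ((Real.log q : ℝ) : ℂ) ≠ 0 := by exact_mod_cast hl.ne'
  have hnz : ∀ ρ, nz q ρ - τ * I + 1 = (a - ρ) * Real.log q := by
    intro ρ
    rw [ha, nz]
    field_simp
    ring
  have hiff : ∀ ρ, ‖nz q ρ - τ * I + 1‖ ≤ d * Real.log q ↔ ‖a - ρ‖ ≤ d := by
    intro ρ
    rw [hnz, norm_mul, Complex.norm_real, Real.norm_of_nonneg hl.le, mul_le_mul_iff_left₀ hl]
  have h := hJ (Phi χ) (fun s => PZ (Z.filter fun ρ => ¬ ‖a - ρ‖ ≤ d) s * G s)
    (Z.filter fun ρ => ‖a - ρ‖ ≤ d) a R d M₁ M₀ hR hd hdR h1 h0 ((pz_diff _).mul hG)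
    (fun s => by rw [← mul_assoc, ← pz_add, Multiset.filter_add_not, hf])
    (fun ρ hρ => (Multiset.mem_filter.1 hρ).2) hup hlo
  have h2 : ((Z.filter fun ρ => ‖a - ρ‖ ≤ d).card : ℝ) ≤ C * Real.log q := by
    refine le_trans ?_ (hc τ)
    rw [Multiset.filter_map, Multiset.card_map]
    refine Nat.cast_le.2 (Multiset.card_le_card (Multiset.monotone_filter_right _ fun ρ hρ => ?_))
    have h3 := abs_im_le_norm (nz q ρ - τ * I + 1)
    have h4 := (hiff ρ).2 hρ
    simp only [add_im, sub_im, mul_im, ofReal_re, I_im, mul_one, ofReal_im, I_re, mul_zero,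
      add_zero, one_im] at h3
    simp only [Function.comp]
    nlinarith
  have h3 : ((Z.filter fun ρ => ‖a - ρ‖ ≤ d).map fun ρ => ((a - ρ)⁻¹).re).sum =
      Real.log q * ((Z.map (nz q)).map fun ζ =>
        if ‖ζ - τ * I + 1‖ ≤ d * Real.log q then ((ζ - τ * I + 1)⁻¹).re else 0).sum := by
    rw [Multiset.map_map, ← Multiset.sum_map_mul_left]
    clear h h2 hf hc
    induction Z using Multiset.induction_on with
    | empty => simp
    | cons ρ Z ih =>
      rw [Multiset.map_cons, Multiset.sum_cons, ← ih]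
      by_cases hρ : ‖a - ρ‖ ≤ d
      · rw [Multiset.filter_cons_of_pos (p := fun ρ => ‖a - ρ‖ ≤ d) _ hρ, Multiset.map_cons,
          Multiset.sum_cons]
        congr 1
        simp only [Function.comp]
        rw [if_pos ((hiff ρ).2 hρ), hnz, mul_inv, ← div_eq_mul_inv, div_ofReal_re]
        field_simp
      · rw [Multiset.filter_cons_of_neg (p := fun ρ => ‖a - ρ‖ ≤ d) _ hρ]
        simp only [Function.comp]
        rw [if_neg (fun h' => hρ ((hiff ρ).1 h')), mul_zero, zero_add]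
  rw [h3] at h
  refine h.trans ?_
  gcongr

/-- the weight of a far zero -/
noncomputable def pw (t : ℝ) : ℝ := 1 / ((1 + t) * √(1 + t))

lemma pw_nonneg {t : ℝ} (ht : 0 ≤ t) : 0 ≤ pw t := by
  unfold pw
  positivity

lemma pw_anti {s t : ℝ} (hs : 0 ≤ s) (h : s ≤ t) : pw t ≤ pw s := by
  unfold pw
  have : 0 ≤ 1 + t := by linarith
  gcongr

lemma pw_sum : Summable fun j : ℕ => pw j := by
  have h := (summable_nat_add_iff 1).2
    ((Real.summable_one_div_nat_rpow (p := 1 + 1 / 2)).2 (by norm_num))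
  refine h.congr fun j => ?_
  rw [pw, Real.rpow_add (by positivity), Real.rpow_one, ← Real.sqrt_eq_rpow]
  push_cast
  rw [add_comm]

open Classical in
lemma cnt_sum {l C : ℝ} (hl : 0 < l) (hC : 0 ≤ C) {Y : Multiset ℂ} (h : Cnt l C Y) (τ : ℝ) :
    (Y.map fun ζ => pw (|ζ.im - τ| / l)).sum ≤ 2 * (C * l) * ∑' j : ℕ, pw j := by
  set J : ℂ → ℕ := fun ζ => ⌊|ζ.im - τ| / l⌋₊ with hJ
  have h1 : (Y.map fun ζ => pw (|ζ.im - τ| / l)).sum ≤ ((Y.map J).map fun j : ℕ => pw j).sum := by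
    rw [Multiset.map_map]
    exact Multiset.sum_map_le_sum_map _ _ fun ζ _ =>
      pw_anti (Nat.cast_nonneg _) (Nat.floor_le (by positivity))
  have h2 : ∀ j : ℕ, (((Y.map J).count j : ℕ) : ℝ) ≤ 2 * (C * l) := by
    intro j
    have h3 : Y.filter (fun ζ => j = J ζ) ≤ (Y.filter fun ζ => |ζ.im - (τ + j * l)| ≤ l) +
        Y.filter fun ζ => |ζ.im - (τ - j * l)| ≤ l := by
      rw [Multiset.filter_add_filter]
      refine le_trans (Multiset.monotone_filter_right _ fun ζ hζ => ?_) (Multiset.le_add_right _ _)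
      have h4 : (j : ℝ) ≤ |ζ.im - τ| / l := by
        rw [hζ]
        exact Nat.floor_le (by positivity)
      have h5 : |ζ.im - τ| / l < j + 1 := by
        rw [hζ]
        exact Nat.lt_floor_add_one _
      rw [le_div_iff₀ hl] at h4
      rw [div_lt_iff₀ hl] at h5
      rcases abs_cases (ζ.im - τ) with h6 | h6
      · left
        rw [abs_le]
        constructor <;> nlinarith [h6.1]
      · right
        rw [abs_le]
        constructor <;> nlinarith [h6.1]
    have h4 := Multiset.card_le_card h3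
    rw [Multiset.card_add] at h4
    rw [Multiset.count_map]
    have h5 := h (τ + j * l)
    have h6 := h (τ - j * l)
    have h7 := (Nat.cast_le (α := ℝ)).2 h4
    push_cast at h7
    linarith
  refine h1.trans ?_
  rw [Finset.sum_multiset_map_count]
  calc ∑ j ∈ (Y.map J).toFinset, (Y.map J).count j • pw j
      ≤ ∑ j ∈ (Y.map J).toFinset, 2 * (C * l) * pw j := by
        refine Finset.sum_le_sum fun j _ => ?_
        rw [nsmul_eq_mul]
        exact mul_le_mul_of_nonneg_right (h2 j) (pw_nonneg (Nat.cast_nonneg _))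
    _ ≤ _ := by
        rw [← Finset.mul_sum]
        exact mul_le_mul_of_nonneg_left
          (pw_sum.sum_le_tsum _ fun j _ => pw_nonneg (Nat.cast_nonneg _)) (by positivity)

/-- bookkeeping for the kept and the dropped zeros -/
lemma book {N Y : Multiset ℂ} (hY : Y ≤ N) (g A φ : ℂ → ℝ) (P : ℂ → Prop) [DecidablePred P]
    {c : ℝ} (hc : 0 ≤ c) (hP : (Y.filter P).card ≤ 4)
    (h1 : ∀ ζ ∈ Y, A ζ - (if P ζ then c else 0) ≤ g ζ) (h2 : ∀ ζ ∈ N - Y, -φ ζ ≤ g ζ)
    (h3 : ∀ ζ, 0 ≤ φ ζ) : (Y.map A).sum - 4 * c - (N.map φ).sum ≤ (N.map g).sum := by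
  have e : Y + (N - Y) = N := (add_comm _ _).trans (Multiset.add_sub_cancel hY)
  have h4 : (Y.map fun ζ => if P ζ then c else 0).sum = (Y.filter P).card * c := by
    clear hY hP h1 h2 e
    induction Y using Multiset.induction_on with
    | empty => simp
    | cons ρ Z ih =>
      rw [Multiset.map_cons, Multiset.sum_cons, ih]
      by_cases hρ : P ρ
      · rw [Multiset.filter_cons_of_pos _ hρ, Multiset.card_cons, if_pos hρ]
        push_cast
        ring
      · rw [Multiset.filter_cons_of_neg _ hρ, if_neg hρ, zero_add]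
  have h5 := Multiset.sum_map_le_sum_map _ _ h1
  rw [Multiset.sum_map_sub, h4] at h5
  have h6 := Multiset.sum_map_le_sum_map _ _ h2
  rw [Multiset.sum_map_neg] at h6
  have h7 : 0 ≤ (Y.map φ).sum := Multiset.sum_nonneg fun t ht => by
    obtain ⟨ζ, -, rfl⟩ := Multiset.mem_map.1 ht
    exact h3 ζ
  have h8 : ((Y.filter P).card : ℝ) ≤ 4 := by exact_mod_cast hP
  have h9 : ((Y.filter P).card : ℝ) * c ≤ 4 * c := mul_le_mul_of_nonneg_right h8 hc
  have h10 : (N.map g).sum = (Y.map g).sum + ((N - Y).map g).sum := by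
    rw [← Multiset.sum_add, ← Multiset.map_add, e]
  have h11 : (N.map φ).sum = (Y.map φ).sum + ((N - Y).map φ).sum := by
    rw [← Multiset.sum_add, ← Multiset.map_add, e]
  linarith

end Pool.Agent.MP_c5bf7b_nt.H38.Kf
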