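import Pool.Agent.MP_c5bf7b_nt.H38.SpecA

/-! Existence of the multiset of zeros in the rectangle, and local counts of the normalised
zeros. -/

set_option autoImplicit false

namespace Pool.Agent.MP_c5bf7b_nt.H38

open Finset Complex Filter Topology

namespace CntAux

theorem not_ev {f : ℂ → ℂ} (hf : Differentiable ℂ f) {a : ℂ} (ha : f a ≠ 0) (ρ : ℂ) :
    ¬ ∀ᶠ z in 𝓝 ρ, f z = 0 := by
  intro h
  have hA : AnalyticOnNhd ℂ f Set.univ := fun z _ => hf.analyticAt z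
  exact ha (hA.eqOn_zero_of_preconnected_of_eventuallyEq_zero isPreconnected_univ
    (Set.mem_univ ρ) h (Set.mem_univ a))

theorem divide {f : ℂ → ℂ} (hf : Differentiable ℂ f) {a : ℂ} (ha : f a ≠ 0) (ρ : ℂ) :
    ∃ (n : ℕ) (g : ℂ → ℂ), Differentiable ℂ g ∧ (∀ s, f s = (s - ρ) ^ n * g s) ∧ g ρ ≠ 0 := by
  classical
  obtain ⟨n, g, hg, hg0, hfg⟩ :=
    (hf.analyticAt ρ).exists_eventuallyEq_pow_smul_nonzero_iff.2 (not_ev hf ha ρ)
  refine ⟨n, fun s => if s = ρ then g ρ else f s / (s - ρ) ^ n, ?_, ?_, by simpa using hg0⟩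
  · intro s
    by_cases hs : s = ρ
    · subst hs
      refine hg.differentiableAt.congr_of_eventuallyEq ?_
      filter_upwards [hfg] with z hz
      by_cases hz' : z = s
      · simp [hz']
      · rw [if_neg hz', hz, smul_eq_mul, mul_div_cancel_left₀ _ (pow_ne_zero _ (sub_ne_zero.2 hz'))]
    · have h1 : DifferentiableAt ℂ (fun z => f z / (z - ρ) ^ n) s :=
        (hf s).div (by fun_prop) (pow_ne_zero _ (sub_ne_zero.2 hs))
      refine h1.congr_of_eventuallyEq ?_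
      filter_upwards [isOpen_ne.mem_nhds hs] with z hz
      rw [if_neg hz]
  · intro s
    by_cases hs : s = ρ
    · subst hs
      simpa using hfg.self_of_nhds
    · simp only [if_neg hs]
      rw [mul_div_cancel₀ _ (pow_ne_zero _ (sub_ne_zero.2 hs))]

theorem finite_zeros {f : ℂ → ℂ} (hf : Differentiable ℂ f) {a : ℂ} (ha : f a ≠ 0) {K : Set ℂ}
    (hK : IsCompact K) : ∃ S : Finset ℂ, ∀ z ∈ K, f z = 0 → z ∈ S := by
  have h : ∀ z : ℂ, {w | w ≠ z → f w ≠ 0} ∈ 𝓝 z := fun z => by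
    rcases (hf.analyticAt z).eventually_eq_zero_or_eventually_ne_zero with h | h
    · exact absurd h (not_ev hf ha z)
    · exact eventually_nhdsWithin_iff.1 h
  obtain ⟨t, -, ht⟩ := hK.elim_nhds_subcover (fun z => {w | w ≠ z → f w ≠ 0}) fun z _ => h z
  refine ⟨t, fun z hz hz0 => ?_⟩
  obtain ⟨w, hw, hzw⟩ := Set.mem_iUnion₂.1 (ht hz)
  by_contra hcon
  exact hzw (fun h => hcon (h ▸ hw)) hz0

theorem factor (K : Set ℂ) (S : Finset ℂ) : ∀ f : ℂ → ℂ, Differentiable ℂ f → (∃ a, f a ≠ 0) →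
    (∀ z ∈ K, f z = 0 → z ∈ S) → ∃ (Z : Multiset ℂ) (G : ℂ → ℂ), Differentiable ℂ G ∧
      (∀ s, f s = PZ Z s * G s) ∧ (∀ ρ ∈ Z, ρ ∈ K) ∧ ∀ s ∈ K, G s ≠ 0 := by
  classical
  induction S using Finset.induction_on with
  | empty =>
    intro f hf _ h
    exact ⟨0, f, hf, fun s => by simp [PZ], by simp, fun s hs h0 => by simpa using h s hs h0⟩
  | insert ρ S _ ih =>
    rintro f hf ⟨a, ha⟩ h
    by_cases hρ : ρ ∈ K
    · obtain ⟨n, g, hg, hfg, hg0⟩ := divide hf ha ρ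
      obtain ⟨Z, G, hG, hZ, hK, hG0⟩ := ih g hg ⟨ρ, hg0⟩ fun z hz hz0 => by
        have h1 := h z hz (by rw [hfg, hz0, mul_zero])
        rcases mem_insert.1 h1 with rfl | h1
        · exact absurd hz0 hg0
        · exact h1
      refine ⟨Multiset.replicate n ρ + Z, G, hG, fun s => ?_, fun z hz => ?_, hG0⟩
      · rw [hfg, hZ]
        simp [PZ, mul_assoc]
      · rcases Multiset.mem_add.1 hz with hz | hz
        · rw [Multiset.eq_of_mem_replicate hz]; exact hρ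
        · exact hK z hz
    · refine ih f hf ⟨a, ha⟩ fun z hz hz0 => ?_
      rcases mem_insert.1 (h z hz hz0) with rfl | h1
      · exact absurd hz hρ
      · exact h1

theorem compact_rect (T : ℝ) : IsCompact (Rect T) := by
  have : Rect T = Set.Icc (2 / 3 : ℝ) 1 ×ℂ Set.Icc (-T) T := by
    ext s
    simp only [Rect, Set.mem_ofPred_eq, mem_reProdIm, Set.mem_Icc, abs_le, and_assoc]
  rw [this]
  exact isCompact_Icc.reProdIm isCompact_Icc

theorem PZ_eq_zero {Z : Multiset ℂ} {s : ℂ} : PZ Z s = 0 ↔ s ∈ Z := by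
  simp only [PZ, Multiset.prod_eq_zero_iff, Multiset.mem_map, sub_eq_zero]
  constructor
  · rintro ⟨ρ, h, rfl⟩; exact h
  · intro h; exact ⟨s, h, rfl⟩

end CntAux

theorem ex : ExS := by
  intro f T hf h2
  obtain ⟨S, hS⟩ := CntAux.finite_zeros hf h2 (CntAux.compact_rect T)
  exact CntAux.factor (Rect T) S f hf ⟨2, h2⟩ hS

theorem cntOf : CntOf := by
  classical
  rintro ⟨A, hA⟩ hex ⟨C, hC, hgf⟩
  have hA1 : (1 : ℝ) ≤ (A : ℝ) + 1 := by have := Nat.cast_nonneg (α := ℝ) A; linarith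
  refine ⟨C * (A + 1), one_le_mul_of_one_le_of_one_le hC hA1, fun q _ χ hq => ?_⟩
  obtain ⟨hd, hne, hB, h13, hconj, -⟩ := hA q χ hq
  have hq2 : (2 : ℝ) ≤ q := by exact_mod_cast hq
  have hq1 : (1 : ℝ) ≤ q := by linarith
  have hl : 0 < Real.log q := Real.log_pos (by linarith)
  have hlc : (Real.log q : ℂ) ≠ 0 := by exact_mod_cast hl.ne'
  refine ⟨?_, ?_⟩
  · obtain ⟨Z, G, h⟩ := hex (Phi χ) ((q : ℝ) ^ 3) hd (hne 2 (by simp))
    exact ⟨_, Z, G, h, rfl⟩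
  rintro Y ⟨Z, G, hZ, rfl⟩
  have hzero : ∀ ρ ∈ Z, Phi χ ρ = 0 := fun ρ hρ => by
    rw [hZ.2.1, CntAux.PZ_eq_zero.2 hρ, zero_mul]
  have hre : ∀ ρ : ℂ, (nz q ρ).re = (1 - ρ.re) * Real.log q := fun ρ => by
    simp [nz, -natCast_log]
  have him : ∀ ρ : ℂ, (nz q ρ).im = -ρ.im * Real.log q := fun ρ => by
    simp [nz, -natCast_log]
  refine ⟨fun τ => ?_, ?_, ?_⟩
  · have h2 : (2 : ℝ) ≤ (q : ℝ) ^ (A + 1) :=
      hq2.trans (le_self_pow₀ hq1 (Nat.succ_ne_zero A))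
    have h3 : (2 : ℝ) ≤ (q : ℝ) ^ 3 := hq2.trans (le_self_pow₀ hq1 (by norm_num))
    have h4 := (hgf (Phi χ) G Z ((q : ℝ) ^ (A + 1)) ((q : ℝ) ^ 3) h2 h3 hZ
      (fun s hs => hne s hs.le)
      (fun s h1 h2 h3 => (hB s h1 h2 h3).trans (pow_le_pow_right₀ hq1 (Nat.le_succ A)))
      (fun τ _ => h13 τ)).1 (-τ / Real.log q)
    rw [Real.log_pow] at h4
    rw [Multiset.filter_map, Multiset.card_map]
    have h5 : Z.filter ((fun ζ : ℂ => |ζ.im - τ| ≤ Real.log q) ∘ nz q) =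
        Z.filter fun ρ => |ρ.im - -τ / Real.log q| ≤ 1 := by
      refine Multiset.filter_congr fun ρ _ => ?_
      have e : (nz q ρ).im - τ = -((ρ.im - -τ / Real.log q) * Real.log q) := by
        rw [him]; field_simp; ring
      simp only [Function.comp]
      rw [e, abs_neg, abs_mul, abs_of_pos hl, mul_le_iff_le_one_left hl]
    rw [h5]
    refine h4.trans (le_of_eq ?_)
    push_cast
    ring
  · intro ζ hζ
    obtain ⟨ρ, hρ, rfl⟩ := Multiset.mem_map.1 hζ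
    obtain ⟨h1, h2, h3⟩ := hZ.2.2.1 ρ hρ
    have h4 : ρ.re < 1 := by
      by_contra h
      exact hne ρ (not_lt.1 h) (hzero ρ hρ)
    refine ⟨?_, ?_, ?_, ?_⟩
    · rw [hre]; exact mul_pos (by linarith) hl
    · rw [hre]; nlinarith
    · rw [him, abs_mul, abs_neg, abs_of_pos hl]
      exact mul_le_mul_of_nonneg_right h3 hl.le
    · have : 1 - nz q ρ / Real.log q = ρ := by
        rw [nz, mul_div_cancel_right₀ _ hlc]; ring
      rw [this]; exact hzero ρ hρ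
  · rintro Y' ⟨Z', G', hZ', rfl⟩ ζ hζ
    obtain ⟨ρ, hρ, rfl⟩ := Multiset.mem_map.1 hζ
    obtain ⟨h1, h2, h3⟩ := hZ.2.2.1 ρ hρ
    have h4 : (starRingEnd ℂ) ρ ∈ Rect ((q : ℝ) ^ 3) := ⟨by simpa using h1, by simpa using h2,
      by simpa using h3⟩
    have h5 : Phi χ⁻¹ ((starRingEnd ℂ) ρ) = 0 := by rw [hconj, hzero ρ hρ, map_zero]
    rw [hZ'.2.1] at h5
    have h6 := CntAux.PZ_eq_zero.1 ((mul_eq_zero.1 h5).resolve_right (hZ'.2.2.2 _ h4))
    refine Multiset.mem_map.2 ⟨_, h6, ?_⟩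
    rw [nz, nz, map_mul, map_sub, map_one, conj_ofReal]

end Pool.Agent.MP_c5bf7b_nt.H38
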