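import Pool.Agent.MP_c5bf7b_nt.H38.SpecA

/-! Analytic lemmas for the explicit formula. -/

set_option autoImplicit false

namespace Pool.Agent.MP_c5bf7b_nt.H38

open Finset Complex ArithmeticFunction MeasureTheory

namespace Ef

theorem zeta_le {ε : ℝ} (hε : 0 < ε) : ∑' n : ℕ, (n : ℝ) ^ (-(1 + ε)) ≤ 1 + 1 / ε := by
  have hs : Summable fun n : ℕ => (n : ℝ) ^ (-(1 + ε)) := Real.summable_nat_rpow.2 (by linarith)
  rw [hs.tsum_eq_zero_add]
  have h2 := ZetaAsymptotics.zeta_limit_aux1 (s := 1 + ε) (by linarith)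
  have h3 : 0 ≤ ZetaAsymptotics.termTSum (1 + ε) :=
    tsum_nonneg fun n => ZetaAsymptotics.term_nonneg _ _
  have h4 : ∑' n : ℕ, (((n + 1 : ℕ) : ℝ)) ^ (-(1 + ε)) =
      ∑' n : ℕ, 1 / ((n : ℝ) + 1) ^ (1 + ε) := by
    refine tsum_congr fun n => ?_
    rw [Real.rpow_neg (Nat.cast_nonneg _), one_div]
    push_cast
    rfl
  rw [h4, Nat.cast_zero, Real.zero_rpow (by linarith), zero_add]
  have h5 : 1 + ε - 1 = ε := by ring
  rw [h5] at h2
  nlinarith

theorem lam_sum {ε : ℝ} (hε : 0 < ε) :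
    (Summable fun n : ℕ => vonMangoldt n * (n : ℝ) ^ (-(1 + 2 * ε))) ∧
      ∑' n : ℕ, vonMangoldt n * (n : ℝ) ^ (-(1 + 2 * ε)) ≤ (1 + 1 / ε) / ε := by
  have hs : Summable fun n : ℕ => (n : ℝ) ^ (-(1 + ε)) / ε :=
    (Real.summable_nat_rpow.2 (by linarith)).div_const _
  have h : ∀ n : ℕ, vonMangoldt n * (n : ℝ) ^ (-(1 + 2 * ε)) ≤ (n : ℝ) ^ (-(1 + ε)) / ε := by
    intro n
    rcases Nat.eq_zero_or_pos n with rfl | hn
    · simp only [ArithmeticFunction.map_zero, zero_mul]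
      positivity
    have n0 : (0 : ℝ) < n := by exact_mod_cast hn
    refine (mul_le_mul_of_nonneg_right (vonMangoldt_le_log.trans (Real.log_le_rpow_div n0.le hε))
      (by positivity)).trans (le_of_eq ?_)
    rw [div_mul_eq_mul_div, ← Real.rpow_add n0]
    congr 2
    ring
  have h1 := Summable.of_nonneg_of_le
    (fun n => mul_nonneg vonMangoldt_nonneg (by positivity)) h hs
  refine ⟨h1, (h1.tsum_le_tsum h hs).trans ?_⟩
  rw [tsum_div_const]
  exact div_le_div_of_nonneg_right (zeta_le hε) hε.le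

open Classical in
theorem ind_sum (Z : Multiset ℂ) (p : ℂ → Prop) (c : ℝ) :
    (Z.map fun ρ => if p ρ then c else 0).sum = c * (Z.filter p).card := by
  induction Z using Multiset.induction_on with
  | empty => simp
  | cons a s ih =>
    rw [Multiset.map_cons, Multiset.sum_cons, ih]
    by_cases h : p a
    · rw [if_pos h, Multiset.filter_cons_of_pos _ h, Multiset.card_cons]
      push_cast
      ring
    · rw [if_neg h, Multiset.filter_cons_of_neg _ h, zero_add]

open Classical in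
theorem count (Z : Multiset ℂ) (M : ℝ)
    (h : ∀ τ : ℝ, ((Z.filter fun ρ => |ρ.im - τ| ≤ 1).card : ℝ) ≤ M) (t : ℝ) (J : ℕ) :
    ((Z.filter fun ρ => |ρ.im - t| ≤ J).card : ℝ) ≤ (2 * J + 1) * M := by
  induction J with
  | zero =>
    have : (Z.filter fun ρ => |ρ.im - t| ≤ (0 : ℕ)).card ≤
        (Z.filter fun ρ => |ρ.im - t| ≤ 1).card :=
      Multiset.card_le_card (Multiset.monotone_filter_right Z fun ρ hρ =>
        le_trans hρ (by norm_num))
    have : ((Z.filter fun ρ => |ρ.im - t| ≤ (0 : ℕ)).card : ℝ) ≤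
      (Z.filter fun ρ => |ρ.im - t| ≤ 1).card := by exact_mod_cast this
    have := h t
    push_cast at *
    linarith
  | succ J ih =>
    have h1 := h (t + J + 1)
    have h2 := h (t - J - 1)
    have e := Multiset.sum_map_le_sum_map (s := Z)
      (fun ρ => if |ρ.im - t| ≤ (J + 1 : ℕ) then (1 : ℝ) else 0)
      (fun ρ => (if |ρ.im - t| ≤ J then (1 : ℝ) else 0) +
        ((if |ρ.im - (t + J + 1)| ≤ 1 then (1 : ℝ) else 0) +
          (if |ρ.im - (t - J - 1)| ≤ 1 then (1 : ℝ) else 0))) fun ρ _ => by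
        have n : ∀ P : Prop, 0 ≤ if P then (1 : ℝ) else 0 := fun P => by split_ifs <;> norm_num
        by_cases a : |ρ.im - t| ≤ (J + 1 : ℕ)
        · rw [if_pos a]
          push_cast at a
          by_cases b : |ρ.im - t| ≤ J
          · rw [if_pos b]
            exact le_add_of_nonneg_right (add_nonneg (n _) (n _))
          rw [if_neg b, zero_add]
          rw [abs_le] at a
          rcases lt_abs.1 (not_le.1 b) with b | b
          · rw [if_pos (abs_le.2 ⟨by linarith [a.2], by linarith [a.2]⟩)]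
            exact le_add_of_nonneg_right (n _)
          · rw [if_pos (c := |ρ.im - (t - J - 1)| ≤ 1)
              (abs_le.2 ⟨by linarith [a.1], by linarith [a.1]⟩)]
            exact le_add_of_nonneg_left (n _)
        · rw [if_neg a]
          exact add_nonneg (n _) (add_nonneg (n _) (n _))
    rw [Multiset.sum_map_add, Multiset.sum_map_add, ind_sum, ind_sum, ind_sum, ind_sum] at e
    push_cast at *
    linarith

open Classical in
theorem inv_sum (Z : Multiset ℂ) (M L : ℝ) (q : ℕ) (hq : 1 ≤ q) (hL : 1 ≤ L) (hM : 0 ≤ M)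
    (h : ∀ τ : ℝ, ((Z.filter fun ρ => |ρ.im - τ| ≤ 1).card : ℝ) ≤ M)
    (hZ : ∀ ρ ∈ Z, ρ.re ≤ 1 ∧ |ρ.im| ≤ (q : ℝ) ^ 3) (w : ℂ) (hw : w.re = 1 + 1 / (2 * L)) :
    ‖(Z.map fun ρ => (w - ρ)⁻¹).sum‖ ≤ 12 * q * L * M := by
  have q1 : (1 : ℝ) ≤ q := by exact_mod_cast hq
  refine (norm_multiset_sum_le _).trans ?_
  rw [Multiset.map_map]
  have e := Multiset.sum_map_le_sum_map (s := Z) (norm ∘ fun ρ => (w - ρ)⁻¹)
    (fun ρ => (if |ρ.im - w.im| ≤ (q : ℕ) then 2 * L else 0) +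
      ((if |ρ.im - w.im| ≤ (q ^ 2 : ℕ) then 1 / (q : ℝ) else 0) +
        (if |ρ.im - 0| ≤ (q ^ 3 : ℕ) then 1 / (q : ℝ) ^ 2 else 0))) fun ρ hρ => by
      obtain ⟨z1, z2⟩ := hZ ρ hρ
      have a1 : 1 / (2 * L) ≤ ‖w - ρ‖ := by
        refine le_trans ?_ (re_le_norm _)
        rw [sub_re, hw]
        linarith
      have a2 : |ρ.im - w.im| ≤ ‖w - ρ‖ := by
        rw [abs_sub_comm, ← sub_im]
        exact abs_im_le_norm _
      have p1 : 0 < 1 / (q : ℝ) := by positivity
      have p2 : 0 < 1 / (q : ℝ) ^ 2 := by positivity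
      rw [Function.comp, norm_inv, if_pos (show |ρ.im - 0| ≤ (q ^ 3 : ℕ) by simpa using z2)]
      split_ifs with b c c
      · have := inv_anti₀ (by positivity) a1
        rw [one_div, inv_inv] at this
        linarith
      · have := inv_anti₀ (by positivity) a1
        rw [one_div, inv_inv] at this
        linarith
      · have := inv_anti₀ (by positivity) ((not_le.1 b).le.trans a2)
        rw [← one_div (q : ℝ)] at this
        linarith
      · have := inv_anti₀ (by positivity) ((not_le.1 c).le.trans a2)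
        push_cast at this
        rw [← one_div ((q : ℝ) ^ 2)] at this
        linarith
  refine e.trans ?_
  rw [Multiset.sum_map_add, Multiset.sum_map_add, ind_sum, ind_sum, ind_sum]
  have c1 := mul_le_mul_of_nonneg_left (count Z M h w.im q) (show 0 ≤ 2 * L by linarith)
  have c2 := mul_le_mul_of_nonneg_left (count Z M h w.im (q ^ 2))
    (show 0 ≤ 1 / (q : ℝ) by positivity)
  have c3 := mul_le_mul_of_nonneg_left (count Z M h 0 (q ^ 3))
    (show 0 ≤ 1 / (q : ℝ) ^ 2 by positivity)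
  have d1 : 2 * L * ((2 * q + 1) * M) ≤ 2 * L * (3 * q * M) := by gcongr; linarith
  have d2 : 1 / (q : ℝ) * ((2 * (q ^ 2 : ℕ) + 1) * M) ≤ 3 * q * M := by
    rw [← mul_assoc]
    refine mul_le_mul_of_nonneg_right ?_ hM
    rw [one_div_mul_eq_div, div_le_iff₀ (by positivity)]
    push_cast
    nlinarith
  have d3 : 1 / (q : ℝ) ^ 2 * ((2 * (q ^ 3 : ℕ) + 1) * M) ≤ 3 * q * M := by
    rw [← mul_assoc]
    refine mul_le_mul_of_nonneg_right ?_ hM
    rw [one_div_mul_eq_div, div_le_iff₀ (by positivity)]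
    push_cast
    nlinarith [one_le_pow₀ (n := 3) q1]
  have d4 : q * M * 1 ≤ q * M * L := by gcongr
  linarith

theorem hasDerivAt_PZ (Z : Multiset ℂ) (w : ℂ) (h : ∀ ρ ∈ Z, w - ρ ≠ 0) :
    HasDerivAt (PZ Z) (PZ Z w * (Z.map fun ρ => (w - ρ)⁻¹).sum) w := by
  induction Z using Multiset.induction_on with
  | empty =>
    have : PZ 0 = fun _ => 1 := by funext s; simp [PZ]
    rw [this]
    simpa using hasDerivAt_const w (1 : ℂ)
  | cons a s ih =>
    have e : PZ (a ::ₘ s) = fun z => (z - a) * PZ s z := by funext z; simp [PZ]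
    have h1 := ((hasDerivAt_id w).sub_const a).mul
      (ih fun ρ hρ => h ρ (Multiset.mem_cons_of_mem hρ))
    have h2 := h a (Multiset.mem_cons_self _ _)
    rw [e, Multiset.map_cons, Multiset.sum_cons]
    refine h1.congr_deriv ?_
    simp only [id]
    field_simp

theorem logder {f G : ℂ → ℂ} {Z : Multiset ℂ} (hG : Differentiable ℂ G)
    (h : ∀ s, f s = PZ Z s * G s) {w : ℂ} (hw : f w ≠ 0) :
    deriv f w / f w = (Z.map fun ρ => (w - ρ)⁻¹).sum + deriv G w / G w := by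
  rw [h] at hw
  have h1 := left_ne_zero_of_mul hw
  have h2 := right_ne_zero_of_mul hw
  have h3 : ∀ ρ ∈ Z, w - ρ ≠ 0 := fun ρ hρ e =>
    h1 (Multiset.prod_eq_zero (Multiset.mem_map.2 ⟨ρ, hρ, e⟩))
  have h4 := (hasDerivAt_PZ Z w h3).mul (hG w).hasDerivAt
  have e : f = PZ Z * G := funext h
  rw [h w, e, h4.deriv]
  field_simp

theorem tail_Ioi (g : ℝ → ℂ) {K Y : ℝ} (hY : 0 < Y) (h : ∀ y, Y ≤ y → ‖g y‖ ≤ K / y ^ 2) :
    ‖∫ y in Set.Ioi Y, g y‖ ≤ K / Y := by
  have h1 := integral_Ioi_rpow_of_lt (a := -2) (by norm_num) hY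
  have h2 := (integrableOn_Ioi_rpow_of_lt (a := -2) (by norm_num) hY).const_mul K
  refine (norm_integral_le_of_norm_le h2 ?_).trans (le_of_eq ?_)
  · refine (ae_restrict_iff' measurableSet_Ioi).2 (Filter.Eventually.of_forall fun y hy => ?_)
    refine (h y (le_of_lt hy)).trans (le_of_eq ?_)
    rw [Real.rpow_neg (hY.trans hy).le, Real.rpow_two, div_eq_mul_inv]
  · rw [integral_const_mul, h1, show (-2 : ℝ) + 1 = -1 by norm_num, Real.rpow_neg_one]
    field_simp

theorem tail (g : ℝ → ℂ) {K Y : ℝ} (hY : 0 < Y) (hi : Integrable g)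
    (h : ∀ y, Y ≤ |y| → ‖g y‖ ≤ K / y ^ 2) :
    ‖(∫ y, g y) - ∫ y in (-Y)..Y, g y‖ ≤ 2 * (K / Y) := by
  rw [← intervalIntegral.integral_Iic_add_Ioi (b := Y) hi.integrableOn hi.integrableOn,
    ← intervalIntegral.integral_Iic_sub_Iic hi.integrableOn hi.integrableOn,
    ← integral_comp_neg_Ioi]
  have h1 := tail_Ioi g hY fun y hy => h y (hy.trans (le_abs_self y))
  have h2 := tail_Ioi (fun y => g (-y)) (K := K) hY fun y hy => by
    simpa using h (-y) (by rw [abs_neg]; exact hy.trans (le_abs_self y))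
  rw [add_sub_sub_cancel]
  exact (norm_add_le _ _).trans (by linarith)

theorem int_of_bd (g : ℝ → ℂ) (K : ℝ) (hg : Continuous g) (h : ∀ y, ‖g y‖ ≤ K / (1 + y ^ 2)) :
    Integrable g :=
  (integrable_inv_one_add_sq.const_mul K).mono' hg.aestronglyMeasurable
    (Filter.Eventually.of_forall fun y => (h y).trans (div_eq_mul_inv _ _).le)

theorem int_sqrt (g : ℝ → ℂ) {K : ℝ} (hK : 0 ≤ K) (hg : Continuous g)
    (h : ∀ y, ‖g y‖ ≤ K / (1 + y ^ 2)) : Integrable fun y => ‖g y‖ * √|y| := by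
  have h1 := (integrable_one_add_norm (E := ℝ) (μ := volume) (r := 3 / 2)
    (by simp only [Module.finrank_self]; norm_num)).const_mul (2 * K)
  refine h1.mono' (Continuous.aestronglyMeasurable (by fun_prop))
    (Filter.Eventually.of_forall fun y => ?_)
  rw [Real.norm_of_nonneg (by positivity), Real.norm_eq_abs]
  have y0 := abs_nonneg y
  have a1 : √|y| ≤ (1 + |y|) ^ (1 / 2 : ℝ) := by
    rw [← Real.sqrt_eq_rpow]
    exact Real.sqrt_le_sqrt (by linarith)
  have a2 : K / (1 + y ^ 2) ≤ 2 * K * (1 + |y|) ^ (-2 : ℝ) := by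
    rw [Real.rpow_neg (by positivity), Real.rpow_two, ← div_eq_mul_inv,
      div_le_div_iff₀ (by positivity) (by positivity), ← sq_abs y]
    nlinarith [mul_nonneg hK (sq_nonneg (1 - |y|))]
  refine (mul_le_mul ((h y).trans a2) a1 (Real.sqrt_nonneg _) (by positivity)).trans (le_of_eq ?_)
  rw [mul_assoc, ← Real.rpow_add (by positivity)]
  norm_num

theorem contour (κ R : ℂ → ℂ) {D l Y K1 K2 K3 : ℝ} (hD : 0 ≤ D) (hl : 0 ≤ l) (hY : 0 < Y)
    (h1 : 0 ≤ K1) (h2 : 0 ≤ K2) (h3 : 0 ≤ K3)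
    (dκ : ∀ z : ℂ, -1 < z.re → DifferentiableAt ℂ κ z)
    (bκ : ∀ z : ℂ, -1 / 2 ≤ z.re → z.re ≤ l → ‖κ z‖ ≤ D / (1 + z.im ^ 2))
    (dR : ∀ z : ℂ, -1 / 2 ≤ z.re → z.re ≤ l → |z.im| ≤ Y → DifferentiableAt ℂ R z ∧ ‖R z‖ ≤ K1)
    (bR : ∀ y : ℝ, |y| ≤ Y → ‖R (l + y * I)‖ ≤ K2 * √|y|)
    (bL : ∀ y : ℝ, ‖R (-1 / 2 + y * I)‖ ≤ K3)
    (hi : Integrable fun y : ℝ => κ (-1 / 2 + y * I) * R (-1 / 2 + y * I)) :
    ‖∫ y : ℝ, κ (-1 / 2 + y * I) * R (-1 / 2 + y * I)‖ ≤
      K2 * (∫ y : ℝ, ‖κ (l + y * I)‖ * √|y|) + 2 * (D / Y ^ 2 * K1 * (l + 1 / 2)) +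
        2 * (D * K3 / Y) := by
  have t1 := tail _ (K := D * K3) hY hi fun y hy => by
    have y0 : 0 < y ^ 2 := by rw [← sq_abs]; exact pow_pos (hY.trans_le hy) 2
    have a := bκ (-1 / 2 + y * I) (by norm_num) (by norm_num; linarith)
    rw [norm_mul, mul_div_right_comm]
    refine mul_le_mul (a.trans ?_) (bL y) (norm_nonneg _) (by positivity)
    have : (-1 / 2 + y * I : ℂ).im = y := by norm_num
    rw [this]
    exact div_le_div_of_nonneg_left hD y0 (by linarith)
  have c := integral_boundary_rect_eq_zero_of_differentiableOn (fun z => κ z * R z)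
    ⟨-1 / 2, -Y⟩ ⟨l, Y⟩ fun z hz => by
      obtain ⟨z1, z2⟩ := mem_reProdIm.1 hz
      rw [Set.uIcc_of_le (by dsimp only; linarith)] at z1 z2
      exact ((dκ z (by linarith [z1.1])).mul
        (dR z z1.1 z1.2 (abs_le.2 z2)).1).differentiableWithinAt
  dsimp only at c
  have hor : ∀ s : ℝ, |s| = Y → ‖∫ x : ℝ in (-1 / 2)..l, κ (x + s * I) * R (x + s * I)‖ ≤
      D / Y ^ 2 * K1 * (l + 1 / 2) := fun s hs => by
    refine (intervalIntegral.norm_integral_le_of_norm_le_const (C := D / Y ^ 2 * K1)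
      fun x hx => ?_).trans (le_of_eq ?_)
    · rw [Set.uIoc_of_le (by linarith)] at hx
      have e1 : (x + s * I : ℂ).re = x := by simp
      have e2 : (x + s * I : ℂ).im = s := by simp
      have a := bκ (x + s * I) (hx.1.le.trans e1.ge) (e1.le.trans hx.2)
      have b := (dR (x + s * I) (hx.1.le.trans e1.ge) (e1.le.trans hx.2) (by rw [e2, hs])).2
      rw [norm_mul]
      refine mul_le_mul (a.trans ?_) b (norm_nonneg _) (by positivity)
      rw [e2, ← sq_abs, hs]
      exact div_le_div_of_nonneg_left hD (by positivity) (by linarith)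
    · rw [abs_of_nonneg (by linarith)]
      ring
  have er : ∀ y : ℝ, (l + y * I : ℂ).re = l := fun y => by simp
  have cκ : Continuous fun y : ℝ => κ (l + y * I) := continuous_iff_continuousAt.2 fun y =>
    ContinuousAt.comp (f := fun y : ℝ => (l + y * I : ℂ))
      (dκ _ (by rw [er]; linarith)).continuousAt (by fun_prop)
  have is := int_sqrt _ hD cκ fun y => by
    simpa using bκ (l + y * I) (by rw [er]; linarith) (er y).le
  have ver : ‖∫ y : ℝ in (-Y)..Y, κ (l + y * I) * R (l + y * I)‖ ≤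
      K2 * ∫ y : ℝ, ‖κ (l + y * I)‖ * √|y| := by
    rw [← integral_const_mul]
    refine (intervalIntegral.norm_integral_le_of_norm_le (by linarith) ?_
      (is.const_mul K2).intervalIntegrable).trans ?_
    · refine Filter.Eventually.of_forall fun y hy => ?_
      rw [norm_mul, mul_left_comm]
      exact mul_le_mul_of_nonneg_left (bR y (abs_le.2 ⟨hy.1.le, hy.2⟩)) (norm_nonneg _)
    · rw [intervalIntegral.integral_of_le (by linarith)]
      exact setIntegral_le_integral (is.const_mul K2)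
        (Filter.Eventually.of_forall fun y => by positivity)
  have g1 := hor (-Y) (by rw [abs_neg, abs_of_pos hY])
  have g2 := hor Y (abs_of_pos hY)
  have e : ((-1 / 2 : ℝ) : ℂ) = -1 / 2 := by norm_num
  rw [e, sub_eq_zero] at c
  have g3 := congrArg norm c
  rw [norm_smul, norm_I, one_mul] at g3
  have g0 : ‖I • ∫ y : ℝ in (-Y)..Y, κ (l + y * I) * R (l + y * I)‖ ≤
      K2 * ∫ y : ℝ, ‖κ (l + y * I)‖ * √|y| := by rwa [norm_smul, norm_I, one_mul]
  have g4 := (norm_add_le _ _).trans (add_le_add ((norm_sub_le _ _).trans (add_le_add g1 g2)) g0)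
  rw [g3] at g4
  have g5 := norm_sub_norm_le (∫ y : ℝ, κ (-1 / 2 + y * I) * R (-1 / 2 + y * I))
    (∫ y : ℝ in (-Y)..Y, κ (-1 / 2 + y * I) * R (-1 / 2 + y * I))
  linarith

end Ef

end Pool.Agent.MP_c5bf7b_nt.H38
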