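import Pool.Agent.MP_c5bf7b_nt.H38.Ef2

/-! The explicit formula. -/

set_option autoImplicit false

namespace Pool.Agent.MP_c5bf7b_nt.H38

open Finset Complex ArithmeticFunction MeasureTheory

namespace Ef

theorem inv_le {L : ℝ} (hL : 1 ≤ L) {w ρ : ℂ} (hw : w.re = 1 + 1 / (2 * L)) (hρ : ρ.re ≤ 1) :
    w - ρ ≠ 0 ∧ ‖(w - ρ)⁻¹‖ ≤ 2 * L := by
  have a0 : 0 < 1 / (2 * L) := by positivity
  have a1 : 1 / (2 * L) ≤ ‖w - ρ‖ := by
    refine le_trans ?_ (re_le_norm _)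
    rw [sub_re, hw]
    linarith
  refine ⟨norm_pos_iff.1 (a0.trans_le a1), ?_⟩
  have := inv_anti₀ a0 a1
  rwa [one_div, inv_inv, ← norm_inv] at this

theorem int_mul (κ g : ℝ → ℂ) {D K : ℝ} (hc : Continuous κ) (hb : ∀ y, ‖κ y‖ ≤ D / (1 + y ^ 2))
    (gc : Continuous g) (gb : ∀ y, ‖g y‖ ≤ K) : Integrable fun y => κ y * g y :=
  int_of_bd _ (D * K) (hc.mul gc) fun y => by
    rw [norm_mul, mul_div_right_comm]
    exact mul_le_mul (hb y) (gb y) (norm_nonneg _) ((norm_nonneg _).trans (hb y))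

theorem pole (κ : ℂ → ℂ) {D L : ℝ} (τ : ℝ) (hL : 1 ≤ L)
    (hc : Continuous fun y : ℝ => κ (-1 / 2 + y * I))
    (hb : ∀ y : ℝ, ‖κ (-1 / 2 + y * I)‖ ≤ D / (1 + y ^ 2))
    (hi : ∀ ζ : ℂ, -1 / 2 < ζ.re →
      ∫ y : ℝ, κ (-1 / 2 + y * I) / (ζ - (-1 / 2 + y * I)) = 2 * Real.pi * κ ζ)
    {ρ : ℂ} (hρ : ρ.re ≤ 1) :
    Integrable (fun y : ℝ => κ (-1 / 2 + y * I) * (ww L τ (-1 / 2 + y * I) - ρ)⁻¹) ∧
      ∫ y : ℝ, κ (-1 / 2 + y * I) * (ww L τ (-1 / 2 + y * I) - ρ)⁻¹ =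
        2 * Real.pi * L * κ ((1 - ρ) * L - τ * I) := by
  have h := fun y : ℝ => inv_le hL (ww_line L τ y) hρ
  have L0 : (L : ℂ) ≠ 0 := by exact_mod_cast (by linarith : L ≠ 0)
  refine ⟨int_mul _ _ hc hb (Continuous.inv₀ (by unfold ww; fun_prop) fun y => (h y).1)
    fun y => (h y).2, ?_⟩
  have e : ∀ z : ℂ, κ z * (ww L τ z - ρ)⁻¹ = L * (κ z / ((1 - ρ) * L - τ * I - z)) := fun z => by
    have : ww L τ z - ρ = ((1 - ρ) * L - τ * I - z) / L := by
      rw [ww]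
      field_simp
      ring
    rw [this, inv_div]
    ring
  simp only [e]
  rw [integral_const_mul, hi]
  · ring
  · have : 0 ≤ (1 - ρ.re) * L := mul_nonneg (by linarith) (by linarith)
    simp only [sub_re, mul_re, one_re, ofReal_re, ofReal_im, I_re, I_im]
    linarith

theorem int4 {a b c d : ℝ → ℂ} (ha : Integrable a) (hb : Integrable b) (hc : Integrable c)
    (hd : Integrable d) :
    ∫ y, (a y - b y - c y - d y) = (∫ y, a y) - (∫ y, b y) - (∫ y, c y) - ∫ y, d y := by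
  rw [← integral_sub ha hb, ← integral_sub (f := fun y => a y - b y) (ha.sub hb) hc,
    ← integral_sub (f := fun y => a y - b y - c y) ((ha.sub hb).sub hc) hd]

theorem num {C L q D J l X : ℝ} (hC : 1 ≤ C) (hL : 1 ≤ L) (hq : 1 ≤ q) (hD : 0 ≤ D) (hJ : 0 ≤ J)
    (hl : l ≤ 3 / 10 * L) (hX : 0 ≤ X)
    (h : 2 * Real.pi * L * X ≤ C * L / √L * J +
      2 * (D / (q ^ 3 * L / 2) ^ 2 * (8 * C * L ^ 2) * (l + 1 / 2)) +
        2 * (D * (38 * q * C * L ^ 2) / (q ^ 3 * L / 2))) :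
    X ≤ 216 * C * J / √L + 216 * C * D * L ^ 3 / q ^ 2 := by
  have p := Real.pi_gt_three
  have s0 : 0 < √L := Real.sqrt_pos.2 (by linarith)
  have a1 : D / (q ^ 3 * L / 2) ^ 2 * (8 * C * L ^ 2) * (l + 1 / 2) ≤
      L * (32 * (C * D * L ^ 3 / q ^ 2)) := by
    have e : D / (q ^ 3 * L / 2) ^ 2 * (8 * C * L ^ 2) = 32 * (C * D * 1 / q ^ 6) := by
      field_simp
      ring
    rw [e, mul_comm]
    have := one_le_pow₀ (n := 3) hL
    gcongr
    · linarith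
    · norm_num
  have a2 : D * (38 * q * C * L ^ 2) / (q ^ 3 * L / 2) ≤ L * (76 * (C * D * L ^ 3 / q ^ 2)) := by
    have e : D * (38 * q * C * L ^ 2) / (q ^ 3 * L / 2) = L * (76 * (C * D * 1 / q ^ 2)) := by
      field_simp
      ring
    rw [e]
    have := one_le_pow₀ (n := 3) hL
    gcongr
  have a3 : C * L / √L * J ≤ L * (216 * C * J / √L) := by
    have : C * L / √L * J = L * (1 * C * J / √L) := by ring
    rw [this]
    gcongr
    norm_num
  have a4 : L * X ≤ 2 * Real.pi * L * X := by nlinarith [mul_nonneg (by linarith : 0 ≤ L) hX]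
  refine le_of_mul_le_mul_left ?_ (by linarith : 0 < L)
  have e : 216 * C * D * L ^ 3 / q ^ 2 = 216 * (C * D * L ^ 3 / q ^ 2) := by ring
  rw [e]
  linarith

end Ef

open Ef in
theorem efOf : EfOf := by
  classical
  rintro ⟨A, hP⟩ ⟨C, hC, hG⟩ hLap
  have A1 : (1 : ℝ) ≤ (A + 1 : ℕ) := by exact_mod_cast Nat.le_add_left 1 A
  have hC1 : 1 ≤ C * (A + 1 : ℕ) := one_le_mul_of_one_le_of_one_le hC A1
  refine ⟨216 * (C * (A + 1 : ℕ)), by linarith, 3, ?_⟩
  rintro q _ hq χ Y k D l τ ⟨Z, G, hZ, rfl⟩ kc k0 kb l0 l1 κb hτ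
  have q3 : (3 : ℝ) ≤ q := by exact_mod_cast hq
  have hL : 1 ≤ Real.log q := by
    rw [Real.le_log_iff_exp_le (by linarith)]
    linarith [Real.exp_one_lt_d9]
  obtain ⟨-, Pn, Pb, Pl, -, Pd⟩ := hP q χ (by omega)
  have qq : (q : ℝ) ≤ (q : ℝ) ^ 3 / 9 := by nlinarith [mul_self_le_mul_self (by norm_num) q3]
  obtain ⟨Gc, Gb⟩ := hG (Phi χ) G Z ((q : ℝ) ^ (A + 1)) ((q : ℝ) ^ 3)
    (le_trans (by linarith) (le_self_pow₀ (by linarith) (by omega))) (by linarith) hZ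
    (fun s hs => Pn s hs.le)
    (fun s h1 h2 h3 => (Pb s h1 h2 h3).trans (pow_le_pow_right₀ (by linarith) (by omega)))
    fun t _ => Pl t
  rw [Real.log_pow, ← mul_assoc] at Gc
  simp only [Real.log_pow, ← mul_assoc] at Gb
  obtain ⟨G1, G2, G3, G4⟩ := hZ
  set C1 : ℝ := C * (A + 1 : ℕ)
  simp only [Multiset.map_map, Function.comp, nz]
  set L : ℝ := Real.log q
  have L0 : (L : ℂ) ≠ 0 := by exact_mod_cast (by linarith : L ≠ 0)
  have hD : 0 ≤ D := by simpa using (norm_nonneg _).trans (kb 0 le_rfl)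
  obtain ⟨dκ, hi⟩ := hLap k D kc k0 kb
  have lre : ∀ y : ℝ, (-1 / 2 + y * I : ℂ).re = -1 / 2 := fun y => by norm_num
  have lim : ∀ y : ℝ, (-1 / 2 + y * I : ℂ).im = y := fun y => by norm_num
  have hb : ∀ y : ℝ, ‖Lh k (-1 / 2 + y * I)‖ ≤ D / (1 + y ^ 2) := fun y => by
    simpa only [lim] using κb (-1 / 2 + y * I) (lre y).ge (by rw [lre]; linarith)
  obtain ⟨i1, i2⟩ := hi hb
  set κ := Lh k
  have dκ' : ∀ z : ℂ, -1 < z.re → DifferentiableAt ℂ κ z := fun z hz =>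
    dκ.differentiableAt ((isOpen_lt continuous_const continuous_re).mem_nhds hz)
  have hc : Continuous fun y : ℝ => κ (-1 / 2 + y * I) := continuous_iff_continuousAt.2 fun y =>
    ContinuousAt.comp (f := fun y : ℝ => (-1 / 2 + y * I : ℂ))
      (dκ' _ (by rw [lre]; norm_num)).continuousAt (by fun_prop)
  have Gn : ∀ s : ℂ, 1 < s.re → G s ≠ 0 := fun s hs =>
    right_ne_zero_of_mul (G2 s ▸ Pn s hs.le)
  -- the strip
  have st : ∀ z : ℂ, -1 / 2 ≤ z.re → z.re ≤ l → |z.im| ≤ (q : ℝ) ^ 3 * L / 2 →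
      7 / 10 ≤ (ww L τ z).re ∧ (ww L τ z).re ≤ 2 ∧ |(ww L τ z).im| ≤ (q : ℝ) ^ 3 - 1 := by
    intro z z1 z2 z3
    rw [ww_re, ww_im, abs_neg, abs_div, abs_of_pos (by linarith : 0 < L),
      div_le_iff₀ (by linarith : 0 < L)]
    have b1 : z.re / L ≤ 3 / 10 := by rw [div_le_iff₀ (by linarith)]; linarith
    have b2 : -1 ≤ z.re / L := by rw [le_div_iff₀ (by linarith)]; linarith
    refine ⟨by linarith, by linarith, (abs_add_le _ _).trans ?_⟩
    have : (q + (q : ℝ) ^ 3 / 2) * L ≤ ((q : ℝ) ^ 3 - 1) * L := by gcongr; linarith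
    linarith
  have Y0 : 0 < (q : ℝ) ^ 3 * L / 2 := by positivity
  have s0 := st l (by simp only [ofReal_re]; linarith) (by simp) (by simpa using Y0.le)
  have rb : ∀ w : ℂ, 7 / 10 ≤ w.re → w.re ≤ 2 → |w.im| ≤ (q : ℝ) ^ 3 - 1 →
      ‖deriv G w / G w‖ ≤ 4 * C1 * L ^ 2 := fun w h1 h2 h3 => by
    refine (Gb w h1 h2 h3).1.trans ?_
    have : C1 * L * (1 + (3 : ℕ) * L) ≤ C1 * L * (4 * L) := by gcongr; push_cast; linarith
    linarith
  have r0 := rb _ s0.1 s0.2.1 s0.2.2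
  set R0 := deriv G (ww L τ l) / G (ww L τ l)
  have dw : Differentiable ℂ (ww L τ) := by unfold ww; fun_prop
  have dR : ∀ z : ℂ, G (ww L τ z) ≠ 0 →
      DifferentiableAt ℂ (fun z => deriv G (ww L τ z) / G (ww L τ z) - R0) z := fun z hz =>
    (((G1.deriv.comp dw) z).div ((G1.comp dw) z) hz).sub_const R0
  have w1 : ∀ y : ℝ, 1 < (ww L τ (-1 / 2 + y * I)).re := fun y => by
    rw [ww_line]
    have : 0 < 1 / (2 * L) := by positivity
    linarith
  have ls : ∀ w : ℂ, 1 < w.re → deriv G w / G w = (if χ = 1 then (w - 1)⁻¹ else 0) -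
      LSeries (fun n => (vonMangoldt n : ℂ) * χ n) w - (Z.map fun ρ => (w - ρ)⁻¹).sum := by
    intro w hw
    have := Pd w hw
    rw [logder G1 G2 (Pn w hw.le), one_div] at this
    linear_combination -this
  have bL : ∀ y : ℝ, ‖deriv G (ww L τ (-1 / 2 + y * I)) / G (ww L τ (-1 / 2 + y * I)) - R0‖ ≤
      38 * q * C1 * L ^ 2 := fun y => by
    rw [ls _ (w1 y)]
    have b1 := ls_le χ hL (ww_line L τ y)
    have b2 := inv_sum Z (C1 * L) L q (by omega) hL (by positivity) Gc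
      (fun ρ hρ => (G3 ρ hρ).2) _ (ww_line L τ y)
    have b3 : ‖if χ = 1 then (ww L τ (-1 / 2 + y * I) - 1)⁻¹ else 0‖ ≤ 2 * L := by
      split_ifs
      · exact (inv_le hL (ww_line L τ y) (by simp)).2
      · rw [norm_zero]; linarith
    refine ((norm_sub_le _ _).trans (add_le_add ((norm_sub_le _ _).trans (add_le_add
      ((norm_sub_le _ _).trans (add_le_add b3 b1)) b2)) r0)).trans ?_
    have c1 : 1 * L ^ 2 ≤ C1 * L ^ 2 := by gcongr
    have c2 : 1 * (C1 * L ^ 2) ≤ q * (C1 * L ^ 2) := by gcongr; linarith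
    nlinarith
  have iR := int_mul _
    (fun y : ℝ => deriv G (ww L τ (-1 / 2 + y * I)) / G (ww L τ (-1 / 2 + y * I)) - R0) hc hb
    (continuous_iff_continuousAt.2 fun y : ℝ =>
    ContinuousAt.comp (f := fun y : ℝ => (-1 / 2 + y * I : ℂ))
      (dR _ (Gn _ (w1 y))).continuousAt (by fun_prop)) bL
  have ct := contour κ (fun z => deriv G (ww L τ z) / G (ww L τ z) - R0) (K1 := 8 * C1 * L ^ 2)
    (K2 := C1 * L / √L) hD l0 Y0 (by positivity) (by positivity) (by positivity) dκ' κb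
    (fun z z1 z2 z3 => by
      obtain ⟨a1, a2, a3⟩ := st z z1 z2 z3
      refine ⟨dR z ?_, (norm_sub_le _ _).trans (by linarith [rb _ a1 a2 a3])⟩
      rcases le_or_gt (ww L τ z).re 1 with h | h
      · exact G4 _ ⟨by linarith, h, by linarith⟩
      · exact Gn _ h)
    (fun y hy => by
      have e1 : (l + y * I : ℂ).re = l := by simp
      have e2 : (l + y * I : ℂ).im = y := by simp
      obtain ⟨a1, a2, a3⟩ := st (l + y * I) (by rw [e1]; linarith) e1.le (by rwa [e2])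
      refine ((Gb _ a1 a2 a3).2 _ s0.1 s0.2.1 s0.2.2).trans (le_of_eq ?_)
      have : ww L τ (l + y * I) - ww L τ l = -(y * I / L) := by
        simp only [ww]
        ring
      rw [this, norm_neg, norm_div, norm_mul, norm_I, norm_real, norm_real, mul_one,
        Real.norm_eq_abs, Real.norm_of_nonneg (by linarith), Real.sqrt_div (abs_nonneg _)]
      ring) bL iR
  -- the identity
  have i0 := int_of_bd _ D hc hb
  have z0 : ∫ y : ℝ, κ (-1 / 2 + y * I) = 0 := by simpa [k0 0 le_rfl] using i1 0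
  obtain ⟨m1, m2⟩ := msum Z
    (fun ρ y => κ (-1 / 2 + y * I) * (ww L τ (-1 / 2 + y * I) - ρ)⁻¹)
    fun ρ hρ => (pole κ τ hL hc hb i2 (G3 ρ hρ).2.1).1
  rw [Multiset.map_congr rfl fun ρ hρ => (pole κ τ hL hc hb i2 (G3 ρ hρ).2.1).2,
    Multiset.sum_map_mul_left] at m2
  simp only [Multiset.sum_map_mul_left] at m1 m2
  obtain ⟨p1, p2⟩ := pole κ τ hL hc hb i2 (ρ := 1) (by simp)
  have p3 : Integrable (fun y : ℝ => κ (-1 / 2 + y * I) *
      if χ = 1 then (ww L τ (-1 / 2 + y * I) - 1)⁻¹ else 0) ∧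
      ∫ y : ℝ, κ (-1 / 2 + y * I) * (if χ = 1 then (ww L τ (-1 / 2 + y * I) - 1)⁻¹ else 0) =
        2 * Real.pi * L * if χ = 1 then κ (-(τ * I)) else 0 := by
    split_ifs
    · exact ⟨p1, by rw [p2, sub_self, zero_mul, zero_sub]⟩
    · simp
  have f1 := fub χ κ k τ hL hc hb i1
  have e : ∀ y : ℝ, κ (-1 / 2 + y * I) *
      LSeries (fun n => (vonMangoldt n : ℂ) * χ n) (ww L τ (-1 / 2 + y * I)) =
      κ (-1 / 2 + y * I) * (if χ = 1 then (ww L τ (-1 / 2 + y * I) - 1)⁻¹ else 0) -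
        κ (-1 / 2 + y * I) * (Z.map fun ρ => (ww L τ (-1 / 2 + y * I) - ρ)⁻¹).sum -
        κ (-1 / 2 + y * I) *
          (deriv G (ww L τ (-1 / 2 + y * I)) / G (ww L τ (-1 / 2 + y * I)) - R0) -
        κ (-1 / 2 + y * I) * R0 := fun y => by
    rw [ls _ (w1 y)]
    ring
  simp only [e] at f1
  rw [int4 p3.1 m1 iR (i0.mul_const R0), integral_mul_const, z0, p3.2, m2] at f1
  refine num hC1 hL (by linarith) hD (integral_nonneg fun y => by positivity) l1 (norm_nonneg _)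
    (le_trans (le_of_eq ?_) ct)
  have n1 : 2 * Real.pi * L = ‖(2 * Real.pi * L : ℂ)‖ := by
    rw [norm_mul, norm_mul, norm_real, norm_real, Real.norm_of_nonneg Real.pi_pos.le,
      Real.norm_of_nonneg (by linarith), Complex.norm_ofNat]
  rw [n1, ← norm_mul, ← norm_neg]
  congr 1
  linear_combination f1

end Pool.Agent.MP_c5bf7b_nt.H38
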