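import Pool.Agent.MP_c5bf7b_nt.H38.Gf1

/-! Row GF: local counts of the zeros and the regular part of the logarithmic derivative. -/

set_option autoImplicit false

namespace Pool.Agent.MP_c5bf7b_nt.H38

open Complex Metric Finset

namespace Gf

lemma sum_fiber {α : Type} (Y : Multiset α) (k : α → ℕ) (φ : ℕ → ℝ) (J : ℕ)
    (hk : ∀ ρ ∈ Y, k ρ < J) :
    (Y.map fun ρ => φ (k ρ)).sum =
      ∑ j ∈ range J, ((Y.filter fun ρ => k ρ = j).card : ℝ) * φ j := by
  induction Y using Multiset.induction_on with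
  | empty => simp
  | cons a Y ih =>
    rw [Multiset.map_cons, Multiset.sum_cons, ih fun ρ hρ => hk ρ (Multiset.mem_cons_of_mem hρ)]
    have h1 : ∀ j, (((a ::ₘ Y).filter fun ρ => k ρ = j).card : ℝ) * φ j =
        (if k a = j then φ j else 0) + ((Y.filter fun ρ => k ρ = j).card : ℝ) * φ j := by
      intro j
      by_cases h : k a = j
      · rw [Multiset.filter_cons_of_pos (p := fun ρ => k ρ = j) _ h, Multiset.card_cons, if_pos h]
        push_cast
        ring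
      · rw [Multiset.filter_cons_of_neg (p := fun ρ => k ρ = j) _ h, if_neg h, zero_add]
    simp only [h1, sum_add_distrib, sum_ite_eq, mem_range, hk a (Multiset.mem_cons_self _ _),
      if_true]

lemma card_or {α : Type} (Z : Multiset α) (p q r : α → Prop) [DecidablePred p] [DecidablePred q]
    [DecidablePred r] (h : ∀ a ∈ Z, p a → q a ∨ r a) :
    (Z.filter p).card ≤ (Z.filter q).card + (Z.filter r).card := by
  have h1 : Z.filter p ≤ Z.filter fun a => q a ∨ r a := by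
    rw [Multiset.le_filter]
    exact ⟨Multiset.filter_le _ _, fun a ha =>
      h a (Multiset.mem_filter.1 ha).1 (Multiset.mem_filter.1 ha).2⟩
  have h2 := congrArg Multiset.card (Multiset.filter_add_filter q r Z)
  rw [Multiset.card_add, Multiset.card_add] at h2
  have h3 := Multiset.card_le_card h1
  omega

open Classical in
lemma win {Z Y : Multiset ℂ} {M : ℝ} (hY : Y ≤ Z)
    (hM : ∀ t : ℝ, ((Z.filter fun ρ => |ρ.im - t| ≤ 1).card : ℝ) ≤ M) (τ : ℝ) (g : ℂ → ℝ)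
    (φ : ℕ → ℝ) (J : ℕ) (hφ : ∀ j, 0 ≤ φ j) (hJ : ∀ ρ ∈ Y, ⌊|ρ.im - τ|⌋₊ < J)
    (hg : ∀ ρ ∈ Y, g ρ ≤ φ ⌊|ρ.im - τ|⌋₊) : (Y.map g).sum ≤ 2 * M * ∑ j ∈ range J, φ j := by
  refine (Multiset.sum_map_le_sum_map _ _ hg).trans ?_
  rw [sum_fiber Y (fun ρ => ⌊|ρ.im - τ|⌋₊) φ J hJ, mul_sum]
  refine sum_le_sum fun j _ => mul_le_mul_of_nonneg_right ?_ (hφ j)
  have h1 := Multiset.card_le_card (Multiset.filter_le_filter (fun ρ => ⌊|ρ.im - τ|⌋₊ = j) hY)
  have h2 := card_or Z (fun ρ => ⌊|ρ.im - τ|⌋₊ = j) (fun ρ => |ρ.im - (τ + j)| ≤ 1)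
    (fun ρ => |ρ.im - (τ - j)| ≤ 1) (by
      intro a _ ha
      have a1 := Nat.floor_le (abs_nonneg (a.im - τ))
      have a2 := Nat.lt_floor_add_one |a.im - τ|
      rw [ha] at a1 a2
      rcases abs_cases (a.im - τ) with h | h
      · exact Or.inl (abs_le.2 ⟨by linarith, by linarith⟩)
      · exact Or.inr (abs_le.2 ⟨by linarith, by linarith⟩))
  have h3 : ((Y.filter fun ρ => ⌊|ρ.im - τ|⌋₊ = j).card : ℝ) ≤
      ((Z.filter fun ρ => |ρ.im - (τ + j)| ≤ 1).card : ℝ) +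
        ((Z.filter fun ρ => |ρ.im - (τ - j)| ≤ 1).card : ℝ) := by
    have : (Y.filter fun ρ => ⌊|ρ.im - τ|⌋₊ = j).card ≤
        (Z.filter fun ρ => |ρ.im - (τ + j)| ≤ 1).card +
          (Z.filter fun ρ => |ρ.im - (τ - j)| ≤ 1).card := h1.trans h2
    exact_mod_cast this
  linarith [hM (τ + j), hM (τ - j)]

lemma sum32 (J : ℕ) : ∑ j ∈ range J, 1 / (((j : ℝ) + 1) * √((j : ℝ) + 1)) ≤ 3 := by
  have key : ∀ n : ℕ, ∑ j ∈ range (n + 1), 1 / (((j : ℝ) + 1) * √((j : ℝ) + 1)) ≤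
      3 - 2 / √((n : ℝ) + 1) := by
    intro n
    induction n with
    | zero => norm_num
    | succ n ih =>
      rw [sum_range_succ]
      push_cast
      have ha : 0 < √((n : ℝ) + 1) := by positivity
      have hb : 0 < √((n : ℝ) + 1 + 1) := by positivity
      have ea : √((n : ℝ) + 1) ^ 2 = n + 1 := Real.sq_sqrt (by positivity)
      have eb : √((n : ℝ) + 1 + 1) ^ 2 = n + 1 + 1 := Real.sq_sqrt (by positivity)
      have hab : √((n : ℝ) + 1) ≤ √((n : ℝ) + 1 + 1) := Real.sqrt_le_sqrt (by linarith)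
      generalize √((n : ℝ) + 1) = a at *
      generalize √((n : ℝ) + 1 + 1) = b at *
      have h1 : 1 / (((n : ℝ) + 1 + 1) * b) ≤ 2 / a - 2 / b := by
        rw [← eb, div_sub_div _ _ ha.ne' hb.ne', div_le_div_iff₀ (by positivity) (by positivity)]
        have h2 : (b - a) * (b + a) = 1 := by nlinarith
        have h3 : a * (b + a) ≤ 2 * b ^ 2 := by nlinarith
        have h4 : a ≤ 2 * (b - a) * b ^ 2 := by
          calc a = (b - a) * (a * (b + a)) := by linear_combination (-a) * h2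
            _ ≤ (b - a) * (2 * b ^ 2) := mul_le_mul_of_nonneg_left h3 (by linarith)
            _ = _ := by ring
        nlinarith
      linarith
  rcases J with _ | n
  · simp
  · have : 0 ≤ 2 / √((n : ℝ) + 1) := by positivity
    linarith [key n]

lemma floor_le3 {y : ℝ} (hy : 1 / 2 ≤ y) : (⌊y⌋₊ : ℝ) + 1 ≤ 3 * y := by
  linarith [Nat.floor_le (show 0 ≤ y by linarith)]

open Classical in
lemma far1 {Z Y : Multiset ℂ} {M T : ℝ} (hY : Y ≤ Z) (hT : 2 ≤ T) (hM0 : 0 ≤ M)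
    (hM : ∀ t : ℝ, ((Z.filter fun ρ => |ρ.im - t| ≤ 1).card : ℝ) ≤ M) (w : ℂ)
    (h : ∀ ρ ∈ Y, 1 / 2 ≤ |ρ.im - w.im| ∧ |ρ.im - w.im| ≤ 2 * T - 1) :
    ‖(Y.map fun ρ => (w - ρ)⁻¹).sum‖ ≤ 12 * M * (1 + Real.log T) := by
  refine (norm_multiset_sum_le _).trans ?_
  rw [Multiset.map_map]
  have h1 := win hY hM w.im ((fun x => ‖x‖) ∘ fun ρ => (w - ρ)⁻¹) (fun j => 3 * ((j : ℝ) + 1)⁻¹)
    ⌊2 * T⌋₊ (fun j => by positivity) (fun ρ hρ => by
      have := Nat.floor_le_floor (show |ρ.im - w.im| + 1 ≤ 2 * T by linarith [(h ρ hρ).2])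
      rw [Nat.floor_add_one (abs_nonneg _)] at this
      omega) (fun ρ hρ => by
      have a1 := (h ρ hρ).1
      have a2 := floor_le3 a1
      have a3 := abs_im_le_norm (w - ρ)
      rw [sub_im, abs_sub_comm] at a3
      simp only [Function.comp, norm_inv]
      rw [← div_eq_mul_inv, ← one_div, div_le_div_iff₀ (by linarith) (by positivity)]
      linarith)
  refine h1.trans ?_
  have h2 := harmonic_le_one_add_log ⌊2 * T⌋₊
  rw [harmonic] at h2
  push_cast at h2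
  have h3 : Real.log (⌊2 * T⌋₊ : ℝ) ≤ 2 * Real.log T := by
    have b1 : (1 : ℝ) ≤ ⌊2 * T⌋₊ := by exact_mod_cast Nat.floor_pos.2 (by linarith)
    have b2 := Nat.floor_le (show 0 ≤ 2 * T by linarith)
    calc Real.log (⌊2 * T⌋₊ : ℝ) ≤ Real.log (T ^ 2) := Real.log_le_log (by linarith) (by nlinarith)
      _ = _ := by rw [Real.log_pow]; norm_num
  rw [← mul_sum]
  nlinarith

lemma real_aux {y x x' D : ℝ} (hy : 0 < y) (h1 : y ≤ x) (h2 : x ≤ x') (h4 : D ≤ x + x')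
    (h3 : 0 ≤ D) : D / (x * x') ≤ 2 * √D * (1 / (y * √y)) := by
  have a0 : 0 < √y := Real.sqrt_pos.2 hy
  have a1 : √y ≤ √x' := Real.sqrt_le_sqrt (by linarith)
  have a2 : √D ≤ 2 * √x' := by
    rw [Real.sqrt_le_left (by positivity), mul_pow, Real.sq_sqrt (by linarith)]
    linarith
  have a3 : √D * √D = D := Real.mul_self_sqrt h3
  have a4 : √x' * √x' = x' := Real.mul_self_sqrt (by linarith)
  have a5 : 0 ≤ √D := Real.sqrt_nonneg _
  rw [mul_one_div, div_le_div_iff₀ (by nlinarith) (by positivity)]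
  have a6 : √D * (y * √y) ≤ 2 * √x' * (x * √x') :=
    mul_le_mul a2 (mul_le_mul h1 a1 a0.le (by linarith)) (by positivity) (by positivity)
  calc D * (y * √y) = √D * (√D * (y * √y)) := by rw [← mul_assoc √D, a3]
    _ ≤ √D * (2 * √x' * (x * √x')) := mul_le_mul_of_nonneg_left a6 a5
    _ = 2 * √D * (x * (√x' * √x')) := by ring
    _ = _ := by rw [a4]

lemma norm_diff {w w' ρ : ℂ} (h : w - ρ ≠ 0) (h' : w' - ρ ≠ 0) :
    ‖(w - ρ)⁻¹ - (w' - ρ)⁻¹‖ = ‖w - w'‖ / (‖w - ρ‖ * ‖w' - ρ‖) := by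
  rw [inv_sub_inv h h', norm_div, norm_mul, norm_sub_rev]
  congr 2
  ring

open Classical in
lemma sum_y {Z Y : Multiset ℂ} {M : ℝ} (hY : Y ≤ Z) (hM0 : 0 ≤ M)
    (hM : ∀ t : ℝ, ((Z.filter fun ρ => |ρ.im - t| ≤ 1).card : ℝ) ≤ M) (τ : ℝ)
    (h : ∀ ρ ∈ Y, 1 / 2 ≤ |ρ.im - τ|) :
    (Y.map fun ρ => 1 / (|ρ.im - τ| * √|ρ.im - τ|)).sum ≤ 36 * M := by
  have h1 := win hY hM τ (fun ρ => 1 / (|ρ.im - τ| * √|ρ.im - τ|))
    (fun j => 6 * (1 / (((j : ℝ) + 1) * √((j : ℝ) + 1))))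
    ((Y.map fun ρ => ⌊|ρ.im - τ|⌋₊).sum + 1) (fun j => by positivity)
    (fun ρ hρ => Nat.lt_succ_of_le (Multiset.single_le_sum (fun _ _ => Nat.zero_le _) _
      (Multiset.mem_map_of_mem (fun ρ : ℂ => ⌊|ρ.im - τ|⌋₊) hρ))) (fun ρ hρ => by
      have a1 := h ρ hρ
      have a2 := floor_le3 a1
      generalize |ρ.im - τ| = y at *
      have a0 : 0 < √y := Real.sqrt_pos.2 (by linarith)
      have a3 : √((⌊y⌋₊ : ℝ) + 1) ≤ 2 * √y := by
        rw [Real.sqrt_le_left (by positivity), mul_pow, Real.sq_sqrt (by linarith)]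
        linarith
      rw [mul_one_div, div_le_div_iff₀ (by positivity) (by positivity)]
      have := mul_le_mul a2 a3 (Real.sqrt_nonneg _) (by linarith)
      linarith)
  refine h1.trans ?_
  rw [← mul_sum]
  nlinarith [sum32 ((Y.map fun ρ => ⌊|ρ.im - τ|⌋₊).sum + 1)]

open Classical in
lemma far2 {Z Y : Multiset ℂ} {M : ℝ} (hY : Y ≤ Z) (hM0 : 0 ≤ M)
    (hM : ∀ t : ℝ, ((Z.filter fun ρ => |ρ.im - t| ≤ 1).card : ℝ) ≤ M) (w w' : ℂ)
    (h : ∀ ρ ∈ Y, 1 / 2 ≤ |ρ.im - w.im|) (h' : ∀ ρ ∈ Y, 1 / 2 ≤ |ρ.im - w'.im|) :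
    ‖(Y.map fun ρ => (w - ρ)⁻¹).sum - (Y.map fun ρ => (w' - ρ)⁻¹).sum‖ ≤
      144 * M * √‖w - w'‖ := by
  rw [← Multiset.sum_map_sub]
  refine (norm_multiset_sum_le _).trans ?_
  rw [Multiset.map_map]
  have h1 : ∀ ρ ∈ Y, ((fun x => ‖x‖) ∘ fun ρ => (w - ρ)⁻¹ - (w' - ρ)⁻¹) ρ ≤
      2 * √‖w - w'‖ * (1 / (|ρ.im - w.im| * √|ρ.im - w.im|) +
        1 / (|ρ.im - w'.im| * √|ρ.im - w'.im|)) := by
    intro ρ hρ
    have a1 := h ρ hρ
    have a2 := h' ρ hρ
    have a3 := abs_im_le_norm (w - ρ)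
    have a4 := abs_im_le_norm (w' - ρ)
    rw [sub_im, abs_sub_comm] at a3 a4
    have a5 : ‖w - w'‖ ≤ ‖w - ρ‖ + ‖w' - ρ‖ := by
      have := norm_sub_le (w - ρ) (w' - ρ)
      rwa [sub_sub_sub_cancel_right] at this
    simp only [Function.comp]
    rw [norm_diff (norm_pos_iff.1 (by linarith)) (norm_pos_iff.1 (by linarith)), mul_add]
    have p1 : 0 ≤ 2 * √‖w - w'‖ * (1 / (|ρ.im - w.im| * √|ρ.im - w.im|)) := by positivity
    have p2 : 0 ≤ 2 * √‖w - w'‖ * (1 / (|ρ.im - w'.im| * √|ρ.im - w'.im|)) := by positivity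
    rcases le_total ‖w - ρ‖ ‖w' - ρ‖ with hc | hc
    · linarith [real_aux (by linarith) a3 hc a5 (norm_nonneg _)]
    · rw [mul_comm ‖w - ρ‖]
      linarith [real_aux (by linarith) a4 hc (by linarith) (norm_nonneg (w - w'))]
  refine (Multiset.sum_map_le_sum_map _ _ h1).trans ?_
  rw [Multiset.sum_map_mul_left, Multiset.sum_map_add]
  have h2 := sum_y hY hM0 hM w.im h
  have h3 := sum_y hY hM0 hM w'.im h'
  nlinarith [Real.sqrt_nonneg ‖w - w'‖]

lemma near {Y : Multiset ℂ} {g : ℂ → ℂ} {a : ℝ} (h : ∀ ρ ∈ Y, ‖g ρ‖ ≤ a) :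
    ‖(Y.map g).sum‖ ≤ Y.card * a := by
  refine (norm_multiset_sum_le _).trans ?_
  have := Multiset.sum_le_card_nsmul ((Y.map g).map fun x => ‖x‖) a (by
    intro x hx
    obtain ⟨y, hy, rfl⟩ := Multiset.mem_map.1 hx
    obtain ⟨ρ, hρ, rfl⟩ := Multiset.mem_map.1 hy
    exact h ρ hρ)
  simpa using this

lemma far_im {ρ : ℂ} {T τ : ℝ} (h : ρ ∈ Rect T) (h' : ¬ ‖ρ - (2 + τ * I)‖ ≤ 121 / 80) :
    7 / 10 ≤ |ρ.im - τ| := by
  by_contra hc
  apply h'
  obtain ⟨h1, h2, -⟩ := h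
  push Not at hc
  rw [abs_lt] at hc
  refine le_of_sq_le_sq ?_ (by norm_num)
  rw [Complex.sq_norm, normSq_apply]
  simp only [sub_re, add_re, re_ofNat, mul_re, ofReal_re, I_re, mul_zero, ofReal_im, I_im,
    mul_one, sub_self, add_zero, sub_im, add_im, im_ofNat, mul_im, zero_add]
  nlinarith

end Gf

open Gf in
theorem gf : GfS := by
  classical
  refine ⟨10 ^ 7, by norm_num, fun f G Z B T hB2 hT hZ h1 hB h2 => ?_⟩
  have hL : 0 < Real.log B := Real.log_pos (by linarith)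
  have hLT : 0 < Real.log T := Real.log_pos (by linarith)
  set L := Real.log B with hLd
  have hhalf : ∀ t : ℝ, ((Z.filter fun ρ => |ρ.im - t| ≤ 1 / 2).card : ℝ) ≤ 20 * L := by
    intro t
    have ht : |max (-T) (min T t)| ≤ T :=
      abs_le.2 ⟨le_max_left _ _, max_le (by linarith) (min_le_left _ _)⟩
    obtain ⟨-, -, hc, -⟩ := loc hB2 hZ hB ht (h2 _ ht)
    refine le_trans ?_ hc
    have : (Z.filter fun ρ => |ρ.im - t| ≤ 1 / 2) ≤
        Z.filter fun ρ => ‖ρ - (2 + (max (-T) (min T t) : ℝ) * I)‖ ≤ 121 / 80 := by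
      rw [Multiset.le_filter]
      refine ⟨Multiset.filter_le _ _, fun ρ hρ => ?_⟩
      obtain ⟨a1, a2⟩ := Multiset.mem_filter.1 hρ
      by_contra hc
      have a3 := far_im (hZ.2.2.1 ρ a1) hc
      have a4 := abs_le.1 (hZ.2.2.1 ρ a1).2.2
      rw [abs_le] at a2
      rw [le_abs] at a3
      rcases le_total T t with b | b <;> rcases le_total (-T) t with b' | b'
      all_goals
        simp only [min_eq_left, min_eq_right, max_eq_left, max_eq_right, b, b',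
          show -T ≤ T by linarith] at a3
        rcases a3 with a3 | a3 <;> linarith
    exact_mod_cast Multiset.card_le_card this
  have hM : ∀ t : ℝ, ((Z.filter fun ρ => |ρ.im - t| ≤ 1).card : ℝ) ≤ 40 * L := by
    intro t
    have h3 := card_or Z (fun ρ => |ρ.im - t| ≤ 1) (fun ρ => |ρ.im - (t + 1 / 2)| ≤ 1 / 2)
      (fun ρ => |ρ.im - (t - 1 / 2)| ≤ 1 / 2) (by
        intro a _ ha
        rw [abs_le] at ha
        rcases le_total a.im t with h | h
        · exact Or.inr (abs_le.2 ⟨by linarith, by linarith⟩)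
        · exact Or.inl (abs_le.2 ⟨by linarith, by linarith⟩))
    have h4 : (Z.filter fun ρ => |ρ.im - t| ≤ 1).card ≤
        (Z.filter fun ρ => |ρ.im - (t + 1 / 2)| ≤ 1 / 2).card +
          (Z.filter fun ρ => |ρ.im - (t - 1 / 2)| ≤ 1 / 2).card := by convert h3
    have h5 : ((Z.filter fun ρ => |ρ.im - t| ≤ 1).card : ℝ) ≤
        (Z.filter fun ρ => |ρ.im - (t + 1 / 2)| ≤ 1 / 2).card +
          (Z.filter fun ρ => |ρ.im - (t - 1 / 2)| ≤ 1 / 2).card := by exact_mod_cast h4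
    linarith [hhalf (t + 1 / 2), hhalf (t - 1 / 2)]
  have hG1 : ∀ s : ℂ, 1 < s.re → G s ≠ 0 := fun s hs h0 =>
    h1 s hs (by rw [hZ.2.1 s, h0, mul_zero])
  have hsep : ∀ w ρ : ℂ, 7 / 10 ≤ w.re → |w.im| ≤ T - 1 → G ρ = 0 → 1 / 30 ≤ ‖w - ρ‖ := by
    intro w ρ a1 a2 a3
    have b1 : ρ.re ≤ 1 := not_lt.1 fun h => hG1 ρ h a3
    have b2 := abs_re_le_norm (w - ρ)
    have b3 := abs_im_le_norm (w - ρ)
    rw [sub_re, abs_le] at b2
    rw [sub_im] at b3
    by_contra hc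
    push Not at hc
    refine hZ.2.2.2 ρ ⟨by linarith, b1, ?_⟩ a3
    rw [abs_le] at a2 b3 ⊢
    exact ⟨by linarith, by linarith⟩
  have hGne : ∀ w : ℂ, 7 / 10 ≤ w.re → |w.im| ≤ T - 1 → G w ≠ 0 := by
    intro w a1 a2 a3
    have := hsep w w a1 a2 a3
    rw [sub_self, norm_zero] at this
    linarith
  have hcen : ∀ w : ℂ, 7 / 10 ≤ w.re → w.re ≤ 2 → ‖w - (2 + w.im * I)‖ ≤ 13 / 10 := by
    intro w a1 a2
    have : w - (2 + w.im * I) = ((w.re - 2 : ℝ) : ℂ) := by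
      apply Complex.ext <;> simp
    rw [this, Complex.norm_real, Real.norm_eq_abs, abs_le]
    exact ⟨by linarith, by linarith⟩
  have hinv : ∀ (x : ℂ) (a : ℝ), 0 < a → 1 / a ≤ ‖x‖ → ‖x⁻¹‖ ≤ a := by
    intro x a ha hx
    rw [norm_inv]
    rw [one_div] at hx
    exact inv_le_of_inv_le₀ ha hx
  -- the far zeros
  let Fr : ℂ → ℂ → Prop := fun w ρ => ¬ ‖ρ - (2 + w.im * I)‖ ≤ 121 / 80
  have hFr : ∀ w ρ, ρ ∈ Z → Fr w ρ → 7 / 10 ≤ |ρ.im - w.im| := fun w ρ a b =>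
    far_im (hZ.2.2.1 ρ a) b
  have hloc : ∀ w : ℂ, 7 / 10 ≤ w.re → w.re ≤ 2 → |w.im| ≤ T - 1 →
      ((Z.filter fun ρ => ¬ Fr w ρ).card : ℝ) ≤ 20 * L ∧
      ‖deriv G w / G w + ((Z.filter (Fr w)).map fun ρ => (w - ρ)⁻¹).sum‖ ≤ 40600 * L := by
    intro w a1 a2 a3
    have ht : |w.im| ≤ T := by linarith
    obtain ⟨Y, h, c1, c2, c3, -, c5⟩ := loc hB2 hZ hB ht (h2 _ ht)
    obtain ⟨c6, c7⟩ := c5 w (by rw [mem_ball, dist_eq_norm]; linarith [hcen w a1 a2])
    refine ⟨by simpa only [Fr, not_not] using c1, ?_⟩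
    rw [c7 (hGne w a1 a3), sub_add_cancel]
    have c8 := near (Y := Y) (g := fun ρ => (w - ρ)⁻¹) (a := 30) fun ρ hρ =>
      hinv _ _ (by norm_num) (hsep w ρ a1 a3 (c3 ρ hρ))
    linarith [norm_add_le (h w) (Y.map fun ρ => (w - ρ)⁻¹).sum]
  refine ⟨fun τ => by linarith [hM τ], fun w a1 a2 a3 => ⟨?_, fun w' b1 b2 b3 => ?_⟩⟩
  · have c1 := (hloc w a1 a2 a3).2
    have c2 := far1 (Multiset.filter_le (Fr w) Z) hT (by positivity) hM w fun ρ hρ => by
      obtain ⟨d1, d2⟩ := Multiset.mem_filter.1 hρ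
      have d3 := abs_le.1 (hZ.2.2.1 ρ d1).2.2
      rw [abs_le] at a3
      exact ⟨by linarith [hFr w ρ d1 d2], abs_le.2 ⟨by linarith, by linarith⟩⟩
    have c3 := norm_sub_le (deriv G w / G w + ((Z.filter (Fr w)).map fun ρ => (w - ρ)⁻¹).sum)
      ((Z.filter (Fr w)).map fun ρ => (w - ρ)⁻¹).sum
    rw [add_sub_cancel_right] at c3
    nlinarith [mul_pos hL hLT]
  have hD0 := Real.sqrt_nonneg ‖w - w'‖
  have hDD := Real.mul_self_sqrt (norm_nonneg (w - w'))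
  rcases le_or_gt (1 / 16) ‖w - w'‖ with hD | hD
  · have hs : 1 / 4 ≤ √‖w - w'‖ := Real.le_sqrt_of_sq_le (by linarith)
    obtain ⟨c0, c1⟩ := hloc w a1 a2 a3
    obtain ⟨c0', c1'⟩ := hloc w' b1 b2 b3
    have side : ∀ x y : ℂ, ((Z.filter fun ρ => ¬ Fr y ρ).card : ℝ) ≤ 20 * L →
        ‖((Z.filter (Fr x)).map fun ρ => (x - ρ)⁻¹).sum -
          ((Z.filter fun ρ => Fr x ρ ∧ Fr y ρ).map fun ρ => (x - ρ)⁻¹).sum‖ ≤ 40 * L := by
      intro x y hy
      have e := Multiset.filter_add_not (Fr y) (Z.filter (Fr x))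
      have e2 : (Z.filter (Fr x)).filter (Fr y) = Z.filter fun ρ => Fr x ρ ∧ Fr y ρ := by
        rw [Multiset.filter_filter]
        exact Multiset.filter_congr fun _ _ => and_comm
      rw [e2] at e
      rw [← e, Multiset.map_add, Multiset.sum_add, add_sub_cancel_left]
      have c8 := near (Y := (Z.filter (Fr x)).filter fun ρ => ¬ Fr y ρ)
        (g := fun ρ => (x - ρ)⁻¹) (a := 2) fun ρ hρ => by
          obtain ⟨d1, d2⟩ := Multiset.mem_filter.1 (Multiset.mem_filter.1 hρ).1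
          have d3 := abs_im_le_norm (x - ρ)
          rw [sub_im, abs_sub_comm] at d3
          exact hinv _ _ (by norm_num) (by linarith [hFr x ρ d1 d2])
      have c9 : (((Z.filter (Fr x)).filter fun ρ => ¬ Fr y ρ).card : ℝ) ≤
          (Z.filter fun ρ => ¬ Fr y ρ).card := by
        exact_mod_cast Multiset.card_le_card
          (Multiset.filter_le_filter _ (Multiset.filter_le _ _))
      linarith
    have s1 := side w w' c0'
    have s2 := side w' w c0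
    have e3 : (Z.filter fun ρ => Fr w' ρ ∧ Fr w ρ) = Z.filter fun ρ => Fr w ρ ∧ Fr w' ρ :=
      Multiset.filter_congr fun _ _ => and_comm
    rw [e3] at s2
    have s3 := far2 (Multiset.filter_le (fun ρ => Fr w ρ ∧ Fr w' ρ) Z) (by positivity) hM w w'
      (fun ρ hρ => by
        obtain ⟨d1, d2⟩ := Multiset.mem_filter.1 hρ
        linarith [hFr w ρ d1 d2.1])
      (fun ρ hρ => by
        obtain ⟨d1, d2⟩ := Multiset.mem_filter.1 hρ
        linarith [hFr w' ρ d1 d2.2])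
    generalize ((Z.filter (Fr w)).map fun ρ => (w - ρ)⁻¹).sum = S1 at *
    generalize ((Z.filter (Fr w')).map fun ρ => (w' - ρ)⁻¹).sum = S2 at *
    generalize ((Z.filter fun ρ => Fr w ρ ∧ Fr w' ρ).map fun ρ => (w - ρ)⁻¹).sum = S3 at *
    generalize ((Z.filter fun ρ => Fr w ρ ∧ Fr w' ρ).map fun ρ => (w' - ρ)⁻¹).sum = S4 at *
    generalize deriv G w / G w = R1 at *
    generalize deriv G w' / G w' = R2 at *
    have e : R1 - R2 = ((R1 + S1) - (R2 + S2)) - ((S1 - S3) - (S2 - S4)) - (S3 - S4) := by ring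
    have t1 := norm_sub_le (((R1 + S1) - (R2 + S2)) - ((S1 - S3) - (S2 - S4))) (S3 - S4)
    have t2 := norm_sub_le ((R1 + S1) - (R2 + S2)) ((S1 - S3) - (S2 - S4))
    have t3 := norm_sub_le (R1 + S1) (R2 + S2)
    have t4 := norm_sub_le (S1 - S3) (S2 - S4)
    rw [← e] at t1
    nlinarith [mul_le_mul_of_nonneg_left hs hL.le]
  · have ht : |w.im| ≤ T := by linarith
    have hs : ‖w - w'‖ ≤ √‖w - w'‖ := by
      have : √‖w - w'‖ ≤ 1 := Real.sqrt_le_one.2 (by linarith)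
      nlinarith
    obtain ⟨Y, h, -, c2, c3, c4, c5⟩ := loc hB2 hZ hB ht (h2 _ ht)
    have hsub : ball w (1 / 16) ⊆ ball (2 + w.im * I) (11 / 8) := by
      intro z hz
      have := hcen w a1 a2
      rw [← dist_eq_norm] at this
      rw [mem_ball] at hz ⊢
      linarith [dist_triangle z w (2 + w.im * I)]
    have hw : w ∈ ball w (1 / 16) := mem_ball_self (by norm_num)
    have hw' : w' ∈ ball w (1 / 16) := by rwa [mem_ball, dist_comm, dist_eq_norm]
    have s1 := dist_le_div_mul_dist_of_mapsTo_ball (R₂ := 80000 * L) (c4.mono hsub) (by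
      intro z hz
      rw [mem_closedBall, dist_eq_norm]
      linarith [norm_sub_le (h z) (h w), (c5 z (hsub hz)).1, (c5 w (hsub hw)).1]) hw'
    rw [dist_comm, dist_comm w', dist_eq_norm, dist_eq_norm] at s1
    have s2 := near (Y := Y) (g := fun ρ => (w - ρ)⁻¹ - (w' - ρ)⁻¹) (a := 900 * ‖w - w'‖)
      fun ρ hρ => by
        have d1 := hsep w ρ a1 a3 (c3 ρ hρ)
        have d2 := hsep w' ρ b1 b3 (c3 ρ hρ)
        rw [norm_diff (norm_pos_iff.1 (by linarith)) (norm_pos_iff.1 (by linarith)),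
          div_le_iff₀ (by positivity)]
        have d3 := mul_le_mul d1 d2 (by norm_num) (by linarith)
        nlinarith [norm_nonneg (w - w')]
    rw [Multiset.sum_map_sub] at s2
    have s3 := far2 (Multiset.filter_le (Fr w) Z) (by positivity) hM w w'
      (fun ρ hρ => by
        obtain ⟨d1, d2⟩ := Multiset.mem_filter.1 hρ
        linarith [hFr w ρ d1 d2])
      (fun ρ hρ => by
        obtain ⟨d1, d2⟩ := Multiset.mem_filter.1 hρ
        have d3 := hFr w ρ d1 d2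
        have d4 := abs_im_le_norm (w - w')
        rw [sub_im] at d4
        have d5 := abs_sub_le ρ.im w'.im w.im
        rw [abs_sub_comm w'.im] at d5
        linarith)
    rw [(c5 w (hsub hw)).2 (hGne w a1 a3), (c5 w' (hsub hw')).2 (hGne w' b1 b3)]
    change ‖h w + _ - ((Z.filter (Fr w)).map _).sum - (h w' + _ - ((Z.filter (Fr w)).map _).sum)‖ ≤ _
    generalize ((Z.filter (Fr w)).map fun ρ => (w - ρ)⁻¹).sum = S1 at *
    generalize ((Z.filter (Fr w)).map fun ρ => (w' - ρ)⁻¹).sum = S2 at *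
    generalize (Y.map fun ρ => (w - ρ)⁻¹).sum = S3 at *
    generalize (Y.map fun ρ => (w' - ρ)⁻¹).sum = S4 at *
    have e : h w + S3 - S1 - (h w' + S4 - S2) = (h w - h w') + (S3 - S4) - (S1 - S2) := by ring
    have t1 := norm_sub_le ((h w - h w') + (S3 - S4)) (S1 - S2)
    have t2 := norm_add_le (h w - h w') (S3 - S4)
    rw [e]
    have t3 : (Y.card : ℝ) * (900 * ‖w - w'‖) ≤ 20 * L * (900 * ‖w - w'‖) :=
      mul_le_mul_of_nonneg_right c2 (by positivity)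
    nlinarith [mul_le_mul_of_nonneg_left hs hL.le, mul_nonneg hL.le hD0]

end Pool.Agent.MP_c5bf7b_nt.H38
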