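import Pool.Agent.MP_c5bf7b_nt.H38.SpecA

/-! The Laplace transform on the half line: holomorphy and inversion. -/

set_option autoImplicit false

namespace Pool.Agent.MP_c5bf7b_nt.H38

open Complex MeasureTheory Set
open scoped FourierTransform

namespace LapB

variable {k : ℝ → ℂ} {D : ℝ}

theorem bd (hb : ∀ u, 0 ≤ u → ‖k u‖ ≤ D * Real.exp (-u)) (z : ℂ) {u : ℝ} (hu : 0 ≤ u) :
    ‖k u * exp (-z * u)‖ ≤ D * Real.exp (-(1 + z.re) * u) := by
  rw [norm_mul, norm_exp]
  refine (mul_le_mul_of_nonneg_right (hb u hu) (Real.exp_pos _).le).trans (le_of_eq ?_)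
  rw [mul_assoc, ← Real.exp_add]
  simp only [neg_mul, neg_re, mul_re, ofReal_re, ofReal_im, mul_zero, sub_zero]
  ring_nf

theorem intg (hc : Continuous k) (hb : ∀ u, 0 ≤ u → ‖k u‖ ≤ D * Real.exp (-u)) {z : ℂ}
    (hz : -1 < z.re) : IntegrableOn (fun u : ℝ => k u * exp (-z * u)) (Ioi 0) :=
  ((exp_neg_integrableOn_Ioi 0 (show 0 < 1 + z.re by linarith)).const_mul D).mono'
    (by fun_prop : Continuous _).aestronglyMeasurable
    (ae_restrict_of_forall_mem measurableSet_Ioi fun u hu => bd hb z (le_of_lt hu))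

theorem diff (hc : Continuous k) (hb : ∀ u, 0 ≤ u → ‖k u‖ ≤ D * Real.exp (-u)) {z : ℂ}
    (hz : -1 < z.re) : DifferentiableAt ℂ (Lh k) z := by
  obtain ⟨δ, hδ⟩ : ∃ δ, δ = (1 + z.re) / 3 := ⟨_, rfl⟩
  have h0 : 0 < δ := by linarith
  have hD : 0 ≤ D := by simpa using (norm_nonneg _).trans (hb 0 le_rfl)
  refine (hasDerivAt_integral_of_dominated_loc_of_deriv_le (μ := volume.restrict (Ioi 0))
    (F := fun w (u : ℝ) => k u * exp (-w * u)) (F' := fun w (u : ℝ) => k u * exp (-w * u) * (-u))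
    (bound := fun u => D / δ * Real.exp (-δ * u)) (Metric.ball_mem_nhds z h0)
    (Filter.Eventually.of_forall fun w => (by fun_prop : Continuous _).aestronglyMeasurable)
    (intg hc hb hz) (by fun_prop : Continuous _).aestronglyMeasurable
    (ae_restrict_of_forall_mem measurableSet_Ioi fun u hu w hw => ?_)
    ((exp_neg_integrableOn_Ioi 0 h0).const_mul _)
    (Filter.Eventually.of_forall fun u w _ => ?_)).2.differentiableAt
  · have hu' : 0 < u := hu
    have h1 : |(w - z).re| ≤ δ := (abs_re_le_norm _).trans (by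
      rw [← dist_eq_norm]; exact (Metric.mem_ball.1 hw).le)
    rw [sub_re, abs_le] at h1
    have h2 : Real.exp (-(1 + w.re) * u) ≤ Real.exp (-δ * u) * Real.exp (-δ * u) := by
      rw [← Real.exp_add]
      exact Real.exp_le_exp.2 (by nlinarith)
    have h3 : Real.exp (-δ * u) * u ≤ 1 / δ := by
      rw [neg_mul, Real.exp_neg, inv_mul_le_iff₀ (Real.exp_pos _), mul_one_div, le_div_iff₀ h0]
      linarith [Real.add_one_le_exp (δ * u)]
    rw [norm_mul, norm_neg, norm_real, Real.norm_of_nonneg hu'.le]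
    calc _ ≤ D * (Real.exp (-δ * u) * Real.exp (-δ * u)) * u := by
          gcongr; exact (bd hb w hu'.le).trans (by gcongr)
      _ = D * Real.exp (-δ * u) * (Real.exp (-δ * u) * u) := by ring
      _ ≤ D * Real.exp (-δ * u) * (1 / δ) := by gcongr
      _ = _ := by ring
  · have h1 : HasDerivAt (fun w : ℂ => -w * u) (-u) w := by
      simpa using ((hasDerivAt_id w).neg).mul_const (u : ℂ)
    simpa [mul_assoc] using h1.cexp.const_mul (k u)

theorem inv (hc : Continuous k) (h0 : ∀ u, u ≤ 0 → k u = 0)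
    (hb : ∀ u, 0 ≤ u → ‖k u‖ ≤ D * Real.exp (-u))
    (hI : Integrable fun y : ℝ => Lh k (-1 / 2 + y * I)) (u : ℝ) :
    ∫ y : ℝ, Lh k (-1 / 2 + y * I) * exp ((-1 / 2 + y * I) * u) = 2 * Real.pi * k u := by
  have hp := Real.pi_pos
  obtain ⟨g, hg⟩ : ∃ g : ℝ → ℂ, g = fun v : ℝ => k v * exp (-(-1 / 2) * v) := ⟨_, rfl⟩
  have g0 : ∀ v, v ∉ Ioi (0 : ℝ) → g v = 0 := fun v hv => by
    rw [hg]; simp [h0 v (not_lt.1 hv)]
  have gi : Integrable g := by
    have := intg hc hb (z := -1 / 2) (by norm_num)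
    rw [← hg] at this
    exact (integrableOn_iff_integrable_of_support_subset fun v hv => by
      by_contra h; exact hv (g0 v h)).1 this
  have hF : 𝓕 g = fun ξ : ℝ => Lh k (-1 / 2 + (2 * Real.pi * ξ : ℝ) * I) := by
    funext ξ
    rw [Real.fourier_real_eq_integral_exp_smul, Lh,
      ← setIntegral_eq_integral_of_forall_compl_eq_zero (s := Ioi 0) fun v hv => by
        rw [g0 v hv, smul_zero]]
    refine integral_congr_ae (Filter.Eventually.of_forall fun v => ?_)
    simp only [hg, smul_eq_mul]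
    rw [mul_left_comm, ← exp_add]
    push_cast
    ring_nf
  have h1 := congrFun ((hg ▸ by fun_prop : Continuous g).fourierInv_fourier_eq gi
    (hF ▸ hI.comp_mul_left' (by positivity))) u
  rw [Real.fourierInv_eq', hF] at h1
  have h2 := Measure.integral_comp_mul_left
    (fun y : ℝ => Lh k (-1 / 2 + y * I) * exp ((-1 / 2 + y * I) * u)) (2 * Real.pi)
  have h3 : ∫ ξ : ℝ, Lh k (-1 / 2 + (2 * Real.pi * ξ : ℝ) * I) *
      exp ((-1 / 2 + (2 * Real.pi * ξ : ℝ) * I) * u) = g u * exp (-1 / 2 * u) := by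
    rw [← h1, ← integral_mul_const]
    refine integral_congr_ae (Filter.Eventually.of_forall fun v => ?_)
    simp only [smul_eq_mul, RCLike.inner_apply, conj_trivial]
    rw [mul_comm (exp _), mul_assoc (Lh _ _), ← exp_add]
    congr 2
    push_cast
    ring
  rw [h3, hg, abs_of_pos (by positivity), real_smul] at h2
  simp only [mul_assoc, ← exp_add] at h2
  have h4 : -(-1 / 2) * (u : ℂ) + -1 / 2 * u = 0 := by ring
  rw [h4, exp_zero, mul_one] at h2
  have : (2 * Real.pi : ℂ) ≠ 0 := by exact_mod_cast (mul_pos two_pos hp).ne'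
  push_cast at h2
  rw [h2, mul_inv_cancel_left₀ this]

end LapB

theorem lap2 : LapS := by
  intro k D hc h0 hb
  refine ⟨fun z hz => (LapB.diff hc hb hz).differentiableWithinAt, fun hL => ?_⟩
  have hC : Continuous fun y : ℝ => Lh k (-1 / 2 + y * I) := continuous_iff_continuousAt.2 fun y =>
    ContinuousAt.comp (g := Lh k) (f := fun y : ℝ => -1 / 2 + y * I)
      (LapB.diff hc hb (by simp; norm_num)).continuousAt (by fun_prop)
  have hI : Integrable fun y : ℝ => Lh k (-1 / 2 + y * I) :=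
    (integrable_inv_one_add_sq.const_mul D).mono' hC.aestronglyMeasurable
      (Filter.Eventually.of_forall hL)
  refine ⟨LapB.inv hc h0 hb hI, fun ζ hζ => ?_⟩
  have h1 : ∀ y : ℝ, Lh k (-1 / 2 + y * I) / (ζ - (-1 / 2 + y * I)) =
      ∫ u in Ioi (0 : ℝ), Lh k (-1 / 2 + y * I) * exp ((-1 / 2 + y * I - ζ) * u) := fun y => by
    rw [integral_const_mul, integral_exp_mul_complex_Ioi (by simp; linarith)]
    simp only [ofReal_zero, mul_zero, exp_zero]
    rw [← neg_sub ζ, neg_div_neg_eq, mul_one_div]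
  simp only [h1]
  rw [integral_integral_swap, Lh, ← integral_const_mul]
  · refine integral_congr_ae (Filter.Eventually.of_forall fun u => ?_)
    have := LapB.inv hc h0 hb hI u
    beta_reduce
    rw [← mul_assoc, ← this, ← integral_mul_const]
    refine integral_congr_ae (Filter.Eventually.of_forall fun y => ?_)
    simp only [mul_assoc, ← exp_add]
    ring_nf
  · refine (hI.norm.mul_prod (exp_neg_integrableOn_Ioi 0
      (show 0 < ζ.re + 1 / 2 by linarith))).mono'
      ((hC.comp continuous_fst).mul (by fun_prop : Continuous fun p : ℝ × ℝ =>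
        exp ((-1 / 2 + p.1 * I - ζ) * p.2))).aestronglyMeasurable
      (Filter.Eventually.of_forall fun p => le_of_eq ?_)
    simp only [Function.uncurry, norm_mul, norm_exp]
    congr 2
    simp only [mul_re, sub_re, add_re, ofReal_re, ofReal_im, I_re, I_im, mul_zero, sub_zero]
    norm_num
    exact Or.inl (by ring)

end Pool.Agent.MP_c5bf7b_nt.H38
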