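import Pool.Agent.MP_c5bf7b_nt.H38.SpecA
import Pool.Agent.MP_74e98a_nt.H25.Div

/-! A crude zero density estimate near the line one. -/

set_option autoImplicit false

namespace Pool.Agent.MP_c5bf7b_nt.H38

open Finset Complex ArithmeticFunction

namespace DenL

theorem cpow_diff {x : ℝ} (hx : 1 ≤ x) {s : ℂ} (hs : 0 < s.re) :
    ‖(x : ℂ) ^ (-s) - ((x + 1 : ℝ) : ℂ) ^ (-s)‖ ≤ ‖s‖ * x ^ (-s.re - 1) := by
  have hs0 : -s ≠ 0 := by
    rw [neg_ne_zero]; rintro rfl; simp at hs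
  have h := norm_image_sub_le_of_norm_deriv_le_segment' (f := fun y : ℝ => (y : ℂ) ^ (-s))
    (f' := fun y : ℝ => -s * (y : ℂ) ^ (-s - 1)) (a := x) (b := x + 1) (C := ‖s‖ * x ^ (-s.re - 1))
    (fun y hy => (hasDerivAt_ofReal_cpow_const (by linarith [hy.1]) hs0).hasDerivWithinAt)
    (fun y hy => by
      have hy0 : 0 < y := by linarith [hy.1]
      rw [norm_mul, norm_neg, norm_cpow_eq_rpow_re_of_pos hy0]
      refine mul_le_mul_of_nonneg_left ?_ (norm_nonneg _)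
      simp only [sub_re, neg_re, one_re]
      exact Real.rpow_le_rpow_of_nonpos (by linarith) hy.1 (by linarith))
    (x + 1) ⟨by linarith, le_rfl⟩
  rw [norm_sub_rev]
  simpa using h

theorem abel (c : ℕ → ℂ) (N M : ℕ) (s : ℂ) :
    ∑ k ∈ Ioc N (N + M), c k * (k : ℂ) ^ (-s) =
      (∑ k ∈ Ioc N (N + M), c k) * ((N + M : ℕ) : ℂ) ^ (-s) +
      ∑ n ∈ range M, (∑ k ∈ Ioc N (N + n), c k) *
        (((N + n : ℕ) : ℂ) ^ (-s) - ((N + n + 1 : ℕ) : ℂ) ^ (-s)) := by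
  induction M with
  | zero => simp
  | succ M ih =>
    rw [← add_assoc, sum_Ioc_succ_top (Nat.le_add_right N M), ih, sum_range_succ,
      sum_Ioc_succ_top (Nat.le_add_right N M)]
    ring

theorem abel_le (c : ℕ → ℂ) {N : ℕ} (hN : 1 ≤ N) (M : ℕ) {s : ℂ} {σ : ℝ} (h0 : 0 < σ)
    (hσ : σ ≤ s.re) (hs : ‖s‖ ≤ 2) :
    ‖∑ k ∈ Ioc N (N + M), c k * (k : ℂ) ^ (-s)‖ ≤
      ‖∑ k ∈ Ioc N (N + M), c k‖ * ((N + M : ℕ) : ℝ) ^ (-σ) +
      2 * ∑ n ∈ range M, (((N + n : ℕ) : ℝ))⁻¹ *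
        (‖∑ k ∈ Ioc N (N + n), c k‖ * ((N + n : ℕ) : ℝ) ^ (-σ)) := by
  have h1 : ∀ n : ℕ, (1 : ℝ) ≤ ((N + n : ℕ) : ℝ) := fun n => by
    exact_mod_cast hN.trans (Nat.le_add_right N n)
  rw [abel]
  refine (norm_add_le _ _).trans (add_le_add ?_ ?_)
  · rw [norm_mul, norm_natCast_cpow_of_pos (by omega)]
    refine mul_le_mul_of_nonneg_left ?_ (norm_nonneg _)
    exact Real.rpow_le_rpow_of_exponent_le (h1 M) (by simp only [neg_re]; linarith)
  · rw [mul_sum]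
    refine (norm_sum_le _ _).trans (sum_le_sum fun n _ => ?_)
    have h3 := cpow_diff (h1 n) (s := s) (by linarith)
    have h4 : ((((N + n : ℕ) : ℝ) + 1 : ℝ) : ℂ) = ((N + n + 1 : ℕ) : ℂ) := by push_cast; ring
    rw [h4, ofReal_natCast] at h3
    have h5 : ((N + n : ℕ) : ℝ) ^ (-s.re - 1) ≤
        (((N + n : ℕ) : ℝ))⁻¹ * ((N + n : ℕ) : ℝ) ^ (-σ) := by
      rw [← Real.rpow_neg_one, ← Real.rpow_add (by linarith [h1 n])]
      exact Real.rpow_le_rpow_of_exponent_le (h1 n) (by linarith)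
    have h6 : ‖s‖ * ((N + n : ℕ) : ℝ) ^ (-s.re - 1) ≤
        2 * ((((N + n : ℕ) : ℝ))⁻¹ * ((N + n : ℕ) : ℝ) ^ (-σ)) :=
      mul_le_mul hs h5 (by positivity) (by norm_num)
    rw [norm_mul]
    calc _ ≤ ‖∑ k ∈ Ioc N (N + n), c k‖ *
          (2 * ((((N + n : ℕ) : ℝ))⁻¹ * ((N + n : ℕ) : ℝ) ^ (-σ))) :=
          mul_le_mul_of_nonneg_left (h3.trans h6) (norm_nonneg _)
      _ = _ := by ring

theorem harm {N : ℕ} (hN : 1 ≤ N) (M : ℕ) :
    ∑ n ∈ range M, (((N + n : ℕ) : ℝ))⁻¹ ≤ 1 + Real.log ((N + M : ℕ) : ℝ) := by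
  have h1 : ∀ n : ℕ, (1 : ℝ) ≤ ((N + n : ℕ) : ℝ) := fun n => by
    exact_mod_cast hN.trans (Nat.le_add_right N n)
  have key : ∀ M : ℕ, ∑ n ∈ range (M + 1), (((N + n : ℕ) : ℝ))⁻¹ ≤
      1 + Real.log ((N + M : ℕ) : ℝ) := by
    intro M
    induction M with
    | zero =>
      have := Real.log_nonneg (h1 0)
      have h2 := inv_le_one_of_one_le₀ (h1 0)
      rw [zero_add, sum_range_one]
      linarith
    | succ M ih =>
      rw [sum_range_succ]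
      have h2 := h1 M
      have h3 : ((N + (M + 1) : ℕ) : ℝ) = ((N + M : ℕ) : ℝ) + 1 := by push_cast; ring
      rw [h3]
      set y : ℝ := ((N + M : ℕ) : ℝ)
      have h4 := Real.log_le_sub_one_of_pos (x := y / (y + 1)) (by positivity)
      rw [Real.log_div (by positivity) (by positivity)] at h4
      have h5 : y / (y + 1) - 1 = -(y + 1)⁻¹ := by field_simp; ring
      linarith
  refine le_trans ?_ (key M)
  rw [sum_range_succ]
  have : (0 : ℝ) ≤ (((N + M : ℕ) : ℝ))⁻¹ := by positivity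
  linarith

theorem kern {q : ℕ} [NeZero q] (k l : ZMod q) :
    ‖∑ χ : Ch q, χ k * (starRingEnd ℂ) (χ l)‖ ≤ if l = k then (q : ℝ) else 0 := by
  by_cases hl : IsUnit l
  · have h : ∀ χ : Ch q, χ k * (starRingEnd ℂ) (χ l) = χ l⁻¹ * χ k := by
      intro χ
      have h1 : χ l⁻¹ * χ l = 1 := by
        rw [← map_mul, ZMod.inv_mul_of_unit l hl, map_one]
      have h2 : ‖χ l‖ = 1 := by
        obtain ⟨u, rfl⟩ := hl
        exact χ.unit_norm_eq_one u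
      have h3 : (starRingEnd ℂ) (χ l) * χ l = 1 := by
        rw [conj_mul', h2]; simp
      have h4 : χ l ≠ 0 := by
        intro h; rw [h] at h2; simp at h2
      rw [mul_comm, mul_right_cancel₀ h4 (h3.trans h1.symm)]
    rw [sum_congr rfl fun χ _ => h χ, DirichletCharacter.sum_char_inv_mul_char_eq ℂ hl]
    split_ifs
    · rw [norm_natCast]; exact_mod_cast Nat.totient_le q
    · simp
  · have h : ∀ χ : Ch q, χ k * (starRingEnd ℂ) (χ l) = 0 := fun χ => by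
      rw [χ.map_nonunit hl]; simp
    rw [sum_congr rfl fun χ _ => h χ]
    split_ifs <;> simp

theorem cls {q : ℕ} [NeZero q] (S : Finset ℕ) (y : ℕ) (hS : ∀ k ∈ S, k ≤ y) (a : ZMod q) :
    ∑ l ∈ S, (if (l : ZMod q) = a then (q : ℝ) else 0) ≤ y + q := by
  have hq : 0 < q := Nat.pos_of_ne_zero (NeZero.ne q)
  rw [← sum_filter, sum_const, nsmul_eq_mul]
  have h : (S.filter fun l : ℕ => (l : ZMod q) = a).card ≤ (range (y / q + 1)).card := by
    refine card_le_card_of_injOn (fun l => l / q) (fun l hl => ?_) (fun l hl m hm h => ?_)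
    · have := hS l (mem_filter.1 (mem_coe.1 hl)).1
      exact mem_coe.2 (mem_range.2 (Nat.lt_succ_of_le (Nat.div_le_div_right this)))
    · have h1 := (mem_filter.1 (mem_coe.1 hl)).2
      have h2 := (mem_filter.1 (mem_coe.1 hm)).2
      have h3 : l % q = m % q := (ZMod.natCast_eq_natCast_iff' l m q).1 (h1.trans h2.symm)
      have h' : l / q = m / q := h
      rw [← Nat.div_add_mod l q, ← Nat.div_add_mod m q, h', h3]
  rw [card_range] at h
  have h2 : (S.filter fun l : ℕ => (l : ZMod q) = a).card * q ≤ y + q :=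
    calc _ ≤ (y / q + 1) * q := Nat.mul_le_mul_right q h
      _ ≤ y + q := by rw [add_mul, one_mul]; exact Nat.add_le_add_right (Nat.div_mul_le_self y q) q
  exact_mod_cast h2

theorem ortho {q : ℕ} [NeZero q] (S : Finset ℕ) (y : ℕ) (hS : ∀ k ∈ S, k ≤ y) (c : ℕ → ℂ) :
    ∑ χ : Ch q, ‖∑ k ∈ S, c k * χ k‖ ^ 2 ≤ (y + q) * ∑ k ∈ S, ‖c k‖ ^ 2 := by
  have e1 : ((∑ χ : Ch q, ‖∑ k ∈ S, c k * χ k‖ ^ 2 : ℝ) : ℂ) =
      ∑ k ∈ S, ∑ l ∈ S, c k * (starRingEnd ℂ) (c l) *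
        ∑ χ : Ch q, χ k * (starRingEnd ℂ) (χ l) := by
    push_cast
    have : ∀ χ : Ch q, ((‖∑ k ∈ S, c k * χ k‖ : ℝ) : ℂ) ^ 2 =
        ∑ k ∈ S, ∑ l ∈ S, c k * (starRingEnd ℂ) (c l) * (χ k * (starRingEnd ℂ) (χ l)) := by
      intro χ
      rw [← mul_conj', map_sum, sum_mul_sum]
      refine sum_congr rfl fun k _ => sum_congr rfl fun l _ => ?_
      rw [map_mul]; ring
    rw [sum_congr rfl fun χ _ => this χ, sum_comm]
    refine sum_congr rfl fun k _ => ?_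
    rw [sum_comm]
    refine sum_congr rfl fun l _ => ?_
    rw [mul_sum]
  have e2 : ∑ χ : Ch q, ‖∑ k ∈ S, c k * χ k‖ ^ 2 ≤ ∑ k ∈ S, ∑ l ∈ S,
      (‖c k‖ ^ 2 / 2 + ‖c l‖ ^ 2 / 2) * if (l : ZMod q) = k then (q : ℝ) else 0 := by
    refine (le_abs_self _).trans ?_
    rw [← Real.norm_eq_abs, ← norm_real, e1]
    refine (norm_sum_le _ _).trans (sum_le_sum fun k _ => ?_)
    refine (norm_sum_le _ _).trans (sum_le_sum fun l _ => ?_)
    rw [norm_mul, norm_mul, RCLike.norm_conj]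
    refine mul_le_mul ?_ (kern _ _) (norm_nonneg _) (by positivity)
    nlinarith [sq_nonneg (‖c k‖ - ‖c l‖)]
  refine e2.trans ?_
  simp only [add_mul, sum_add_distrib]
  have e3 : ∑ k ∈ S, ∑ l ∈ S, (‖c k‖ ^ 2 / 2 * if (l : ZMod q) = k then (q : ℝ) else 0) ≤
      ∑ k ∈ S, ‖c k‖ ^ 2 / 2 * (y + q) := by
    refine sum_le_sum fun k _ => ?_
    rw [← mul_sum]
    exact mul_le_mul_of_nonneg_left (cls S y hS _) (by positivity)
  have e4 : ∑ k ∈ S, ∑ l ∈ S, (‖c l‖ ^ 2 / 2 * if (l : ZMod q) = k then (q : ℝ) else 0) ≤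
      ∑ k ∈ S, ‖c k‖ ^ 2 / 2 * (y + q) := by
    rw [sum_comm]
    refine sum_le_sum fun l _ => ?_
    rw [← mul_sum]
    refine mul_le_mul_of_nonneg_left ?_ (by positivity)
    simp only [eq_comm (a := (l : ZMod q))]
    exact cls S y hS _
  have e5 : ∑ k ∈ S, ‖c k‖ ^ 2 / 2 * ((y : ℝ) + q) = ((y : ℝ) + q) * (∑ k ∈ S, ‖c k‖ ^ 2) / 2 := by
    rw [mul_sum, sum_div]
    exact sum_congr rfl fun k _ => by ring
  rw [e5] at e3 e4
  linarith

/-- the coefficients of the mollified series -/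
noncomputable def co (V n : ℕ) : ℂ := ∑ d ∈ Icc 1 V, if d ∣ n then ((moebius d : ℤ) : ℂ) else 0

theorem co_small {V n : ℕ} (h1 : 1 ≤ n) (hn : n ≤ V) : co V n = if n = 1 then 1 else 0 := by
  have hd : (Icc 1 V).filter (· ∣ n) = n.divisors := by
    ext d
    simp only [mem_filter, mem_Icc, Nat.mem_divisors]
    constructor
    · rintro ⟨_, h⟩; exact ⟨h, by omega⟩
    · rintro ⟨h, _⟩
      exact ⟨⟨Nat.pos_of_dvd_of_pos h h1, (Nat.le_of_dvd h1 h).trans hn⟩, h⟩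
  rw [co, ← sum_filter, hd]
  have h := congrArg (fun f : ArithmeticFunction ℤ => f n) moebius_mul_coe_zeta
  simp only [coe_mul_zeta_apply, one_apply] at h
  have h' := congrArg (fun z : ℤ => (z : ℂ)) h
  push_cast at h'
  exact h'

theorem norm_mu (d : ℕ) : ‖((moebius d : ℤ) : ℂ)‖ ≤ 1 := by
  rw [norm_intCast]
  exact_mod_cast abs_moebius_le_one

theorem co_le (V : ℕ) {n : ℕ} (h1 : 1 ≤ n) : ‖co V n‖ ≤ n.divisors.card := by
  rw [co, ← sum_filter]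
  refine (norm_sum_le _ _).trans ?_
  calc _ ≤ ∑ _d ∈ (Icc 1 V).filter (· ∣ n), (1 : ℝ) := sum_le_sum fun d _ => norm_mu d
    _ = ((Icc 1 V).filter (· ∣ n)).card := by simp
    _ ≤ _ := by
      exact_mod_cast card_le_card fun d hd => Nat.mem_divisors.2 ⟨(mem_filter.1 hd).2, by omega⟩

theorem mult (f : ℕ → ℂ) (X : ℕ) {d : ℕ} (hd0 : 0 < d) :
    ∑ n ∈ Icc 1 X, (if d ∣ n then f n else 0) = ∑ m ∈ Icc 1 (X / d), f (d * m) := by
  rw [← sum_filter]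
  symm
  refine sum_bij (fun k _ => d * k) (fun k hk => ?_) (fun k _ k' _ hkk => ?_) (fun n hn => ?_)
    (fun k _ => rfl)
  · rw [mem_Icc] at hk
    rw [mem_filter, mem_Icc]
    refine ⟨⟨Nat.mul_pos hd0 hk.1, ?_⟩, Dvd.intro _ rfl⟩
    rw [mul_comm]
    exact (Nat.le_div_iff_mul_le hd0).1 hk.2
  · exact Nat.eq_of_mul_eq_mul_left hd0 hkk
  · rw [mem_filter, mem_Icc] at hn
    obtain ⟨⟨h1, h2⟩, k, rfl⟩ := hn
    refine ⟨k, mem_Icc.2 ⟨?_, ?_⟩, rfl⟩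
    · exact Nat.pos_of_mul_pos_left h1
    · exact (Nat.le_div_iff_mul_le hd0).2 (by rwa [mul_comm])

theorem expand {q : ℕ} (χ : Ch q) (V X : ℕ) (ρ : ℂ) :
    ∑ n ∈ Icc 1 X, co V n * χ n * (n : ℂ) ^ (-ρ) =
      ∑ d ∈ Icc 1 V, ((moebius d : ℤ) : ℂ) * χ d * (d : ℂ) ^ (-ρ) *
        ∑ m ∈ Icc 1 (X / d), χ m * (m : ℂ) ^ (-ρ) := by
  have e1 : ∀ n ∈ Icc 1 X, co V n * χ n * (n : ℂ) ^ (-ρ) =
      ∑ d ∈ Icc 1 V, if d ∣ n then ((moebius d : ℤ) : ℂ) * χ n * (n : ℂ) ^ (-ρ) else 0 := by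
    intro n _
    rw [co, sum_mul, sum_mul]
    refine sum_congr rfl fun d _ => ?_
    split_ifs <;> simp
  rw [sum_congr rfl e1, sum_comm]
  refine sum_congr rfl fun d hd => ?_
  rw [mult (fun n => ((moebius d : ℤ) : ℂ) * χ n * (n : ℂ) ^ (-ρ)) X (mem_Icc.1 hd).1, mul_sum]
  refine sum_congr rfl fun m _ => ?_
  rw [Nat.cast_mul, map_mul, Nat.cast_mul, natCast_mul_natCast_cpow]
  ring

theorem detect (hB : BaseS) {q : ℕ} [NeZero q] {χ : Ch q} (hχ : χ ≠ 1) {ρ : ℂ} {σ T : ℝ}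
    {V M : ℕ} (hz : DirichletCharacter.LFunction χ ρ = 0) (h34 : 3 / 4 ≤ σ) (hσ : σ ≤ ρ.re)
    (hT : ‖ρ‖ ≤ T) (hV : 1 ≤ V) (hX : 2 ≤ V + M)
    (hb : V * (q * T * (7 / 3) * (((V + M : ℕ) : ℝ) / 2) ^ (-σ)) ≤ 1 / 2) :
    1 / 2 ≤ ‖∑ n ∈ Ioc V (V + M), co V n * χ n * (n : ℂ) ^ (-ρ)‖ := by
  set X := V + M with hXd
  have hT0 : 0 ≤ T := (norm_nonneg _).trans hT
  have h1 : ‖∑ n ∈ Icc 1 X, co V n * χ n * (n : ℂ) ^ (-ρ)‖ ≤ 1 / 2 := by
    rw [expand]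
    refine (norm_sum_le _ _).trans (le_trans ?_ hb)
    have hterm : ∀ d ∈ Icc 1 V, ‖((moebius d : ℤ) : ℂ) * χ d * (d : ℂ) ^ (-ρ) *
        ∑ m ∈ Icc 1 (X / d), χ m * (m : ℂ) ^ (-ρ)‖ ≤
        q * T * (7 / 3) * ((X : ℝ) / 2) ^ (-σ) := by
      intro d hd
      obtain ⟨hd1, hdV⟩ := mem_Icc.1 hd
      have hN : 1 ≤ X / d := (Nat.le_div_iff_mul_le hd1).2 (by omega)
      have h2 := ((hB q χ hχ).2 ρ (X / d) (by linarith) hN).2
      rw [hz, zero_sub, norm_neg] at h2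
      have h3 : X ≤ 2 * (d * (X / d)) := by
        have a1 := Nat.div_add_mod X d
        have a2 := Nat.mod_lt X hd1
        have a3 : d * 1 ≤ d * (X / d) := Nat.mul_le_mul_left d hN
        omega
      have h3' : (X : ℝ) / 2 ≤ (d : ℝ) * ((X / d : ℕ) : ℝ) := by
        have : (X : ℝ) ≤ 2 * ((d : ℝ) * ((X / d : ℕ) : ℝ)) := by exact_mod_cast h3
        linarith
      have hX2 : (1 : ℝ) ≤ (X : ℝ) / 2 := by
        have : (2 : ℝ) ≤ X := by exact_mod_cast hX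
        linarith
      have h4 : (d : ℝ) ^ (-ρ.re) * ((X / d : ℕ) : ℝ) ^ (-ρ.re) ≤ ((X : ℝ) / 2) ^ (-σ) := by
        rw [← Real.mul_rpow (by positivity) (by positivity)]
        exact (Real.rpow_le_rpow_of_nonpos (by linarith) h3' (by linarith)).trans
          (Real.rpow_le_rpow_of_exponent_le hX2 (by linarith))
      have h5 : 1 + 1 / ρ.re ≤ 7 / 3 := by
        have : 1 / ρ.re ≤ 4 / 3 := by
          rw [div_le_div_iff₀ (by linarith) (by norm_num)]; linarith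
        linarith
      have h6 : (q : ℝ) * ‖ρ‖ * (1 + 1 / ρ.re) ≤ q * T * (7 / 3) := by
        have : 0 < ρ.re := by linarith
        gcongr
      have h7 : ‖((moebius d : ℤ) : ℂ) * χ d * (d : ℂ) ^ (-ρ)‖ ≤ (d : ℝ) ^ (-ρ.re) := by
        rw [norm_mul, norm_mul, norm_natCast_cpow_of_pos hd1, neg_re]
        have := mul_le_one₀ (norm_mu d) (norm_nonneg _) (χ.norm_le_one d)
        exact mul_le_of_le_one_left (by positivity) this
      rw [norm_mul]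
      calc _ ≤ (d : ℝ) ^ (-ρ.re) * (q * T * (7 / 3) * ((X / d : ℕ) : ℝ) ^ (-ρ.re)) :=
            mul_le_mul h7 (h2.trans (mul_le_mul_of_nonneg_right h6 (by positivity)))
              (norm_nonneg _) (by positivity)
        _ = q * T * (7 / 3) * ((d : ℝ) ^ (-ρ.re) * ((X / d : ℕ) : ℝ) ^ (-ρ.re)) := by ring
        _ ≤ _ := mul_le_mul_of_nonneg_left h4 (by positivity)
    refine (sum_le_sum hterm).trans ?_
    rw [sum_const, Nat.card_Icc, nsmul_eq_mul, Nat.add_sub_cancel]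
  have h2 : ∑ n ∈ Icc 1 X, co V n * χ n * (n : ℂ) ^ (-ρ) =
      1 + ∑ n ∈ Ioc V X, co V n * χ n * (n : ℂ) ^ (-ρ) := by
    have e : Icc 1 X = Ioc 0 X := rfl
    rw [e, ← sum_Ioc_consecutive _ (Nat.zero_le V) (Nat.le_add_right V M)]
    congr 1
    rw [sum_eq_single 1]
    · rw [co_small le_rfl hV]; simp
    · intro n hn hn1
      rw [co_small (mem_Ioc.1 hn).1 (mem_Ioc.1 hn).2, if_neg hn1]; simp
    · intro h; exact absurd (mem_Ioc.2 ⟨Nat.one_pos, hV⟩) h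
  rw [h2] at h1
  have h3 := norm_sub_le (1 + ∑ n ∈ Ioc V X, co V n * χ n * (n : ℂ) ^ (-ρ))
    (∑ n ∈ Ioc V X, co V n * χ n * (n : ℂ) ^ (-ρ))
  rw [add_sub_cancel_right, norm_one] at h3
  linarith

/-- counting by the mean square -/
theorem count {ι : Type} [Fintype ι] (J : Finset ι) (M : ℕ) (w : ℕ → ℝ) (v : ι → ℕ → ℝ)
    (B H : ℝ) (hw : ∀ n, 0 ≤ w n) (hH : ∑ n ∈ range M, w n ≤ H)
    (hv : ∀ n, n ≤ M → ∑ i, v i n ^ 2 ≤ B)
    (hJ : ∀ i ∈ J, 1 / 2 ≤ v i M + 2 * ∑ n ∈ range M, w n * v i n) :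
    (J.card : ℝ) ≤ (8 + 32 * H ^ 2) * B := by
  have hH0 : 0 ≤ ∑ n ∈ range M, w n := sum_nonneg fun n _ => hw n
  have hB0 : 0 ≤ B := le_trans (sum_nonneg fun i _ => sq_nonneg _) (hv M le_rfl)
  have h1 : ∀ i ∈ J, (1 : ℝ) ≤ 8 * v i M ^ 2 + 32 * H * ∑ n ∈ range M, w n * v i n ^ 2 := by
    intro i hi
    have a1 := hJ i hi
    have a2 : (∑ n ∈ range M, w n * v i n) ^ 2 ≤
        (∑ n ∈ range M, w n) * ∑ n ∈ range M, w n * v i n ^ 2 :=
      sum_sq_le_sum_mul_sum_of_sq_eq_mul _ (fun n _ => hw n)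
        (fun n _ => mul_nonneg (hw n) (sq_nonneg _)) (fun n _ => by ring)
    have a3 : 0 ≤ ∑ n ∈ range M, w n * v i n ^ 2 :=
      sum_nonneg fun n _ => mul_nonneg (hw n) (sq_nonneg _)
    have a4 := mul_le_mul_of_nonneg_right hH a3
    set u := v i M
    set S := ∑ n ∈ range M, w n * v i n
    nlinarith [sq_nonneg (u - 2 * S)]
  have h2 : ∀ i, (0 : ℝ) ≤ 8 * v i M ^ 2 + 32 * H * ∑ n ∈ range M, w n * v i n ^ 2 := fun i => by
    have a3 : 0 ≤ ∑ n ∈ range M, w n * v i n ^ 2 :=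
      sum_nonneg fun n _ => mul_nonneg (hw n) (sq_nonneg _)
    have : 0 ≤ H := hH0.trans hH
    positivity
  have h3 : ∑ i, ∑ n ∈ range M, w n * v i n ^ 2 ≤ H * B := by
    rw [sum_comm]
    calc _ ≤ ∑ n ∈ range M, w n * B := sum_le_sum fun n hn => by
          rw [← mul_sum]
          exact mul_le_mul_of_nonneg_left (hv n (mem_range.1 hn).le) (hw n)
      _ ≤ H * B := by rw [← sum_mul]; exact mul_le_mul_of_nonneg_right hH hB0
  calc (J.card : ℝ) = ∑ _i ∈ J, (1 : ℝ) := by simp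
    _ ≤ ∑ i ∈ J, (8 * v i M ^ 2 + 32 * H * ∑ n ∈ range M, w n * v i n ^ 2) := sum_le_sum h1
    _ ≤ ∑ i, (8 * v i M ^ 2 + 32 * H * ∑ n ∈ range M, w n * v i n ^ 2) :=
        sum_le_sum_of_subset_of_nonneg (subset_univ J) fun i _ _ => h2 i
    _ = 8 * ∑ i, v i M ^ 2 + 32 * H * ∑ i, ∑ n ∈ range M, w n * v i n ^ 2 := by
        rw [sum_add_distrib, ← mul_sum, ← mul_sum]
    _ ≤ 8 * B + 32 * H * (H * B) := by
        have : 0 ≤ H := hH0.trans hH
        have := hv M le_rfl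
        gcongr
    _ = _ := by ring

theorem core (hB : BaseS) {η D : ℝ} (hη : 0 < η) (hD : 1 ≤ D)
    (HD : ∀ n : ℕ, (n.divisors.card : ℝ) ≤ D * (n : ℝ) ^ η) {q : ℕ} [NeZero q] {σ t : ℝ}
    (J : Finset (Ch q)) (ρ : Ch q → ℂ) (h34 : 3 / 4 ≤ σ) (h1 : σ ≤ 1)
    (hJ : ∀ χ ∈ J, χ ≠ 1 ∧ DirichletCharacter.LFunction χ (ρ χ) = 0 ∧ σ ≤ (ρ χ).re ∧
      (ρ χ).re ≤ 1 ∧ |(ρ χ).im - t| ≤ 1)
    {V M : ℕ} {W : ℝ} (hV : 1 ≤ V) (hX : 2 ≤ V + M) (hW : 0 < W) (hWV : W ≤ V + 1)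
    (hb : V * (q * (|t| + 2) * (7 / 3) * (((V + M : ℕ) : ℝ) / 2) ^ (-σ)) ≤ 1 / 2) :
    (J.card : ℝ) ≤ (8 + 32 * (1 + Real.log ((V + M : ℕ) : ℝ)) ^ 2) *
      ((D * ((V + M : ℕ) : ℝ) ^ η) ^ 2 *
        (((V + M : ℕ) : ℝ) ^ (2 - 2 * σ) + q * W ^ (1 - 2 * σ))) := by
  set c : ℕ → ℂ := fun k => co V k * (k : ℂ) ^ (-(t * I)) with hc
  refine count J M (fun n => (((V + n : ℕ) : ℝ))⁻¹)
    (fun χ n => ‖∑ k ∈ Ioc V (V + n), c k * χ k‖ * ((V + n : ℕ) : ℝ) ^ (-σ)) _ _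
    (fun n => by positivity) (harm hV M) (fun n hn => ?_) (fun χ hχ => ?_)
  · rcases Nat.eq_zero_or_pos n with rfl | hn0
    · simp only [add_zero, Ioc_self, sum_empty, norm_zero, zero_mul, ne_eq, OfNat.ofNat_ne_zero,
        not_false_eq_true, zero_pow, sum_const_zero]
      positivity
    simp only [mul_pow]
    rw [← sum_mul]
    have a1 := ortho (q := q) (Ioc V (V + n)) (V + n) (fun k hk => (mem_Ioc.1 hk).2) c
    set y : ℝ := ((V + n : ℕ) : ℝ) with hy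
    set X : ℝ := ((V + M : ℕ) : ℝ) with hXd
    have hyX : y ≤ X := by rw [hy, hXd]; exact_mod_cast Nat.add_le_add_left hn V
    have hWy : W ≤ y := by
      refine hWV.trans ?_
      rw [hy]; exact_mod_cast Nat.add_le_add_left hn0 V
    have hy0 : 0 < y := hW.trans_le hWy
    have a2 : ∑ k ∈ Ioc V (V + n), ‖c k‖ ^ 2 ≤ y * (D ^ 2 * (X ^ η) ^ 2) := by
      have : ∀ k ∈ Ioc V (V + n), ‖c k‖ ^ 2 ≤ D ^ 2 * (X ^ η) ^ 2 := by
        intro k hk
        obtain ⟨k1, k2⟩ := mem_Ioc.1 hk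
        have k0 : 0 < k := by omega
        have k3 : (k : ℝ) ≤ X := le_trans (by rw [hy]; exact_mod_cast k2) hyX
        rw [← mul_pow]
        refine pow_le_pow_left₀ (norm_nonneg _) ?_ 2
        have e : ‖c k‖ = ‖co V k‖ := by
          rw [hc, norm_mul, norm_natCast_cpow_of_pos k0]; simp
        rw [e]
        refine (co_le V k0).trans ((HD k).trans ?_)
        gcongr
      refine (sum_le_sum this).trans ?_
      rw [sum_const, Nat.card_Ioc, nsmul_eq_mul]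
      refine mul_le_mul_of_nonneg_right ?_ (by positivity)
      rw [hy]; exact_mod_cast Nat.sub_le _ _
    have a3 : (y + q) * y * (y ^ (-σ)) ^ 2 ≤ X ^ (2 - 2 * σ) + q * W ^ (1 - 2 * σ) := by
      have b1 : (y ^ (-σ)) ^ 2 = y ^ (-(2 * σ)) := by
        rw [← Real.rpow_natCast, ← Real.rpow_mul hy0.le]; congr 1; push_cast; ring
      have b2 : y ^ (1 - 2 * σ) = y * y ^ (-(2 * σ)) := by
        rw [sub_eq_add_neg, Real.rpow_add hy0, Real.rpow_one]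
      have b3 : y ^ (2 - 2 * σ) = y * y * y ^ (-(2 * σ)) := by
        rw [sub_eq_add_neg, Real.rpow_add hy0, Real.rpow_two, sq]
      have b4 : y ^ (2 - 2 * σ) ≤ X ^ (2 - 2 * σ) := Real.rpow_le_rpow hy0.le hyX (by linarith)
      have b5 : y ^ (1 - 2 * σ) ≤ W ^ (1 - 2 * σ) :=
        Real.rpow_le_rpow_of_nonpos hW hWy (by linarith)
      have b6 := mul_le_mul_of_nonneg_left b5 (Nat.cast_nonneg (α := ℝ) q)
      rw [b1]
      rw [b2] at b6
      rw [b3] at b4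
      nlinarith
    calc _ ≤ ((y + q) * (y * (D ^ 2 * (X ^ η) ^ 2))) * (y ^ (-σ)) ^ 2 :=
          mul_le_mul_of_nonneg_right
            (a1.trans (mul_le_mul_of_nonneg_left a2 (by positivity))) (by positivity)
      _ = D ^ 2 * (X ^ η) ^ 2 * ((y + q) * y * (y ^ (-σ)) ^ 2) := by ring
      _ ≤ _ := mul_le_mul_of_nonneg_left a3 (by positivity)
  · obtain ⟨j1, j2, j3, j4, j5⟩ := hJ χ hχ
    have hρ : ‖ρ χ‖ ≤ |t| + 2 := by
      have a1 := norm_le_abs_re_add_abs_im (ρ χ)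
      have a2 : |(ρ χ).re| ≤ 1 := abs_le.2 ⟨by linarith, j4⟩
      have a3 := abs_sub_abs_le_abs_sub (ρ χ).im t
      linarith
    have hs : ‖ρ χ - t * I‖ ≤ 2 := by
      have a1 := norm_le_abs_re_add_abs_im (ρ χ - t * I)
      have a2 : |(ρ χ).re| ≤ 1 := abs_le.2 ⟨by linarith, j4⟩
      simp only [sub_re, mul_re, ofReal_re, I_re, mul_zero, ofReal_im, I_im, mul_one, sub_self,
        sub_zero, sub_im, mul_im, add_zero] at a1
      linarith
    have a1 := detect hB j1 j2 h34 j3 hρ hV hX hb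
    have a2 := abel_le (fun k => c k * χ k) hV M (s := ρ χ - t * I) (σ := σ) (by linarith)
      (by simpa using j3) hs
    refine a1.trans (le_trans (le_of_eq ?_) a2)
    congr 1
    refine sum_congr rfl fun k hk => ?_
    have k0 : (k : ℂ) ≠ 0 := by
      have := (mem_Ioc.1 hk).1
      exact_mod_cast (by omega : k ≠ 0)
    have e : -ρ χ = -(t * I) + -(ρ χ - t * I) := by ring
    rw [hc, e, cpow_add _ _ k0]
    ring

end DenL

open DenL in
theorem denOf : DenOf := by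
  intro hB ε hε
  set η : ℝ := min (ε / 8) (1 / 64) with hηd
  have hη : 0 < η := lt_min (by positivity) (by norm_num)
  have hη1 : η ≤ ε / 8 := min_le_left _ _
  have hη2 : η ≤ 1 / 64 := min_le_right _ _
  obtain ⟨D, hD, HD⟩ := MP_74e98a_nt.H25.divisor_bound η hη
  have hK : 1 ≤ 1 + 1 / η := le_add_of_nonneg_right (by positivity)
  set K : ℝ := 1 + 1 / η with hKd
  have hC : 1 ≤ 40 * K ^ 2 * D ^ 2 * 300 * 301 := by
    have a1 : 1 ≤ K ^ 2 := one_le_pow₀ hK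
    have a2 : 1 ≤ D ^ 2 := one_le_pow₀ hD
    nlinarith
  refine ⟨40 * K ^ 2 * D ^ 2 * 300 * 301, hC, fun q _ σ t J ρ h23 h1 hJ => ?_⟩
  have hq : (1 : ℝ) ≤ q := by exact_mod_cast Nat.pos_of_ne_zero (NeZero.ne q)
  set T : ℝ := |t| + 2 with hTd
  have hT : 1 ≤ T := by have := abs_nonneg t; linarith
  rcases lt_or_ge σ (3 / 4) with h34 | h34
  · have a1 : J.card ≤ q := by
      refine (card_le_univ J).trans ?_
      rw [← Nat.card_eq_fintype_card,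
        DirichletCharacter.card_eq_totient_of_hasEnoughRootsOfUnity ℂ q]
      exact Nat.totient_le q
    have a2 : (q : ℝ) ≤ (q : ℝ) ^ (ε + 4 * (1 - σ)) := by
      nth_rewrite 1 [← Real.rpow_one (q : ℝ)]
      exact Real.rpow_le_rpow_of_exponent_le hq (by linarith)
    have a3 : 1 ≤ T ^ (3 / 4 : ℝ) := Real.one_le_rpow hT (by norm_num)
    calc (J.card : ℝ) ≤ 1 * q * 1 := by rw [one_mul, mul_one]; exact_mod_cast a1
      _ ≤ _ := by gcongr
  set W : ℝ := (q : ℝ) ^ (2 * σ - 1) with hWd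
  have hW1 : 1 ≤ W := Real.one_le_rpow hq (by linarith)
  have hWq : W ≤ q := by
    nth_rewrite 1 [← Real.rpow_one (q : ℝ)]
    exact Real.rpow_le_rpow_of_exponent_le hq (by linarith)
  set Y : ℝ := (10 * T) ^ (4 / 3 : ℝ) * (q : ℝ) ^ (2 : ℝ) with hYd
  have hY0 : 1 ≤ (10 * T) ^ (4 / 3 : ℝ) := Real.one_le_rpow (by linarith) (by norm_num)
  have hq2 : (q : ℝ) ≤ (q : ℝ) ^ (2 : ℝ) := by rw [Real.rpow_two]; nlinarith
  have hqY : (q : ℝ) ≤ Y := hq2.trans (le_mul_of_one_le_left (by positivity) hY0)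
  have hV : 1 ≤ ⌊W⌋₊ := Nat.le_floor (by exact_mod_cast hW1)
  have hVW : (⌊W⌋₊ : ℝ) ≤ W := Nat.floor_le (by linarith)
  have hXY : 2 * Y ≤ (⌈2 * Y⌉₊ : ℝ) := Nat.le_ceil _
  have hXY' : (⌈2 * Y⌉₊ : ℝ) ≤ 3 * Y := by
    have := Nat.ceil_lt_add_one (a := 2 * Y) (by linarith)
    linarith
  have hVX : ⌊W⌋₊ ≤ ⌈2 * Y⌉₊ := by
    have : (⌊W⌋₊ : ℝ) ≤ (⌈2 * Y⌉₊ : ℝ) := by linarith
    exact_mod_cast this
  obtain ⟨M, hM⟩ := Nat.exists_eq_add_of_le hVX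
  have hX2 : 2 ≤ ⌊W⌋₊ + M := by
    rw [← hM]
    have : ((2 : ℕ) : ℝ) ≤ (⌈2 * Y⌉₊ : ℝ) := by push_cast; linarith
    exact_mod_cast this
  rw [hM] at hXY hXY'
  have hb : (⌊W⌋₊ : ℝ) * (q * T * (7 / 3) * (((⌊W⌋₊ + M : ℕ) : ℝ) / 2) ^ (-σ)) ≤ 1 / 2 := by
    have a1 : (((⌊W⌋₊ + M : ℕ) : ℝ) / 2) ^ (-σ) ≤ Y ^ (-σ) :=
      Real.rpow_le_rpow_of_nonpos (by linarith) (by linarith) (by linarith)
    have a2 : 10 * T * (W * q) ≤ Y ^ σ := by
      rw [hYd, Real.mul_rpow (by positivity) (by positivity), ← Real.rpow_mul (by positivity),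
        ← Real.rpow_mul (by positivity)]
      have b1 : 10 * T ≤ (10 * T) ^ (4 / 3 * σ) := by
        nth_rewrite 1 [← Real.rpow_one (10 * T)]
        exact Real.rpow_le_rpow_of_exponent_le (by linarith) (by linarith)
      have b2 : W * q = (q : ℝ) ^ (2 * σ) := by
        rw [hWd, ← Real.rpow_add_one (by positivity)]; congr 1; ring
      rw [b2]
      exact mul_le_mul_of_nonneg_right b1 (by positivity)
    have a3 : Y ^ (-σ) ≤ (10 * T * (W * q))⁻¹ := by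
      rw [Real.rpow_neg (by linarith)]
      exact inv_anti₀ (by positivity) a2
    calc _ ≤ W * (q * T * (7 / 3) * (10 * T * (W * q))⁻¹) := by
          have := a1.trans a3
          gcongr
      _ = 7 / 30 := by field_simp; norm_num
      _ ≤ 1 / 2 := by norm_num
  have main := core hB hη hD HD J ρ h34 h1 hJ hV hX2 (W := W) (by linarith)
    (Nat.lt_floor_add_one W).le hb
  set X : ℝ := ((⌊W⌋₊ + M : ℕ) : ℝ) with hXd
  have hX1 : 1 ≤ X := by linarith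
  have hXT : X ≤ 300 * (T ^ (4 / 3 : ℝ) * (q : ℝ) ^ (2 : ℝ)) := by
    have a1 : (10 : ℝ) ^ (4 / 3 : ℝ) ≤ 100 := by
      have : (10 : ℝ) ^ (4 / 3 : ℝ) ≤ (10 : ℝ) ^ (2 : ℝ) :=
        Real.rpow_le_rpow_of_exponent_le (by norm_num) (by norm_num)
      rw [Real.rpow_two] at this; linarith
    refine hXY'.trans ?_
    rw [hYd, Real.mul_rpow (by norm_num) (by linarith)]
    have : 0 ≤ T ^ (4 / 3 : ℝ) * (q : ℝ) ^ (2 : ℝ) := by positivity
    nlinarith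
  have hpow : ∀ a b e : ℝ, 0 ≤ a → a ≤ 1 → 4 / 3 * a ≤ b → 2 * a ≤ e →
      X ^ a ≤ 300 * (T ^ b * (q : ℝ) ^ e) := by
    intro a b e a0 a1 ab ae
    refine (Real.rpow_le_rpow (by linarith) hXT a0).trans ?_
    rw [Real.mul_rpow (by norm_num) (by positivity), Real.mul_rpow (by positivity) (by positivity),
      ← Real.rpow_mul (by linarith), ← Real.rpow_mul (by linarith)]
    have b1 : (300 : ℝ) ^ a ≤ 300 := by
      nth_rewrite 2 [← Real.rpow_one (300 : ℝ)]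
      exact Real.rpow_le_rpow_of_exponent_le (by norm_num) a1
    have b2 := Real.rpow_le_rpow_of_exponent_le hT ab
    have b3 := Real.rpow_le_rpow_of_exponent_le hq ae
    gcongr
  have c1 := hpow (4 * η) (1 / 12) ε (by linarith) (by linarith) (by linarith) (by linarith)
  have c2 := hpow (2 - 2 * σ) (2 / 3) (4 * (1 - σ)) (by linarith) (by linarith) (by linarith)
    (by linarith)
  have c3 : q * W ^ (1 - 2 * σ) ≤ T ^ (2 / 3 : ℝ) * (q : ℝ) ^ (4 * (1 - σ)) := by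
    have a1 : q * W ^ (1 - 2 * σ) ≤ (q : ℝ) ^ (4 * (1 - σ)) := by
      rw [hWd, ← Real.rpow_mul (by linarith), mul_comm, ← Real.rpow_add_one (by positivity)]
      exact Real.rpow_le_rpow_of_exponent_le hq (by nlinarith)
    exact a1.trans (le_mul_of_one_le_left (by positivity) (Real.one_le_rpow hT (by norm_num)))
  have hXη : 1 ≤ X ^ η := Real.one_le_rpow hX1 hη.le
  have c4 : 1 + Real.log X ≤ K * X ^ η := by
    have := Real.log_le_rpow_div (x := X) (by linarith) hη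
    rw [hKd, add_mul, one_mul, one_div_mul_eq_div]
    linarith
  have c5 : 8 + 32 * (1 + Real.log X) ^ 2 ≤ 40 * K ^ 2 * (X ^ η) ^ 2 := by
    have a0 : 0 ≤ 1 + Real.log X := by have := Real.log_nonneg hX1; linarith
    have a1 := pow_le_pow_left₀ a0 c4 2
    have a2 : 1 ≤ (K * X ^ η) ^ 2 := one_le_pow₀ (one_le_mul_of_one_le_of_one_le hK hXη)
    rw [mul_pow] at a1 a2
    linarith
  have c6 : (X ^ η) ^ 2 * (X ^ η) ^ 2 = X ^ (4 * η) := by
    rw [← pow_add, ← Real.rpow_natCast, ← Real.rpow_mul (by linarith)]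
    congr 1; push_cast; ring
  have c7 : T ^ (1 / 12 : ℝ) * T ^ (2 / 3 : ℝ) = T ^ (3 / 4 : ℝ) := by
    rw [← Real.rpow_add (by linarith)]; norm_num
  calc (J.card : ℝ) ≤ (40 * K ^ 2 * (X ^ η) ^ 2) *
        ((D * X ^ η) ^ 2 * (301 * (T ^ (2 / 3 : ℝ) * (q : ℝ) ^ (4 * (1 - σ))))) := by
        refine main.trans ?_
        have : X ^ (2 - 2 * σ) + q * W ^ (1 - 2 * σ) ≤
            301 * (T ^ (2 / 3 : ℝ) * (q : ℝ) ^ (4 * (1 - σ))) := by linarith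
        gcongr
    _ = 40 * K ^ 2 * D ^ 2 * ((X ^ η) ^ 2 * (X ^ η) ^ 2) *
        (301 * (T ^ (2 / 3 : ℝ) * (q : ℝ) ^ (4 * (1 - σ)))) := by ring
    _ ≤ 40 * K ^ 2 * D ^ 2 * (300 * (T ^ (1 / 12 : ℝ) * (q : ℝ) ^ ε)) *
        (301 * (T ^ (2 / 3 : ℝ) * (q : ℝ) ^ (4 * (1 - σ)))) := by
        rw [c6]; gcongr
    _ = _ := by rw [Real.rpow_add (by linarith) ε, ← c7]; ring

end Pool.Agent.MP_c5bf7b_nt.H38
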