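import Pool.Agent.MP_c5bf7b_nt.H38.Gram1
import Pool.Agent.MP_74e98a_nt.H25.Div

/-! Row GRAM. -/

set_option autoImplicit false

namespace Pool.Agent.MP_c5bf7b_nt.H38

open Finset Complex ArithmeticFunction

namespace Gram

lemma sel_zero {q : ℕ} {W : ℝ} {θ : ℕ → ℝ} (h : Sel q W θ) (d : ℕ) (hd : ⌊W⌋₊ < d) : θ d = 0 := by
  by_contra h0
  have := Nat.le_floor (h.supp d h0).1
  omega

lemma diagA {q : ℕ} (hq : q ≠ 0) {W : ℝ} (hW : 0 ≤ W) {θ : ℕ → ℝ} (h : Sel q W θ) {A B β : ℝ}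
    (hA : 0 < A) (hAB : A ≤ B) (h0 : 0 < β) (h1 : β ≤ 1) :
    ∑ n ∈ (Ioc ⌊A⌋₊ ⌊B⌋₊).filter (fun n => n.Coprime q),
        (∑ d ∈ n.divisors, θ d) ^ 2 * (n : ℝ) ^ (-1 + β) ≤
      (B ^ β - A ^ β) / β / Real.log W + W ^ 2 * (q.divisors.card * A ^ (-1 + β)) := by
  rw [expand θ ⌊W⌋₊ (sel_zero h) _ (fun n hn => by
    simp only [mem_filter, mem_Ioc] at hn; omega) (fun n => (n : ℝ) ^ (-1 + β))]
  set I := (B ^ β - A ^ β) / β with hI
  set E := (q.divisors.card : ℝ) * A ^ (-1 + β) with hE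
  have hE0 : 0 ≤ E := by positivity
  have hI0 : 0 ≤ I := by
    have : A ^ β ≤ B ^ β := Real.rpow_le_rpow hA.le hAB h0.le
    exact div_nonneg (by linarith) h0.le
  have hq' : (0 : ℝ) < q := by exact_mod_cast Nat.pos_of_ne_zero hq
  have hφ : (0 : ℝ) < q.totient := by exact_mod_cast Nat.totient_pos.mpr (Nat.pos_of_ne_zero hq)
  have key : ∀ d ∈ Icc 1 ⌊W⌋₊, ∀ e ∈ Icc 1 ⌊W⌋₊, θ d * θ e *
      ∑ n ∈ ((Ioc ⌊A⌋₊ ⌊B⌋₊).filter (fun n => n.Coprime q)).filter (fun n => d.lcm e ∣ n),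
        (n : ℝ) ^ (-1 + β) ≤ (q.totient : ℝ) / q * I * (θ d * θ e / (d.lcm e : ℝ)) + E := by
    intro d hd e he
    simp only [mem_Icc] at hd he
    by_cases hd0 : θ d = 0
    · simp [hd0, hE0]
    by_cases he0 : θ e = 0
    · simp [he0, hE0]
    have hc : (d.lcm e).Coprime q :=
      Nat.Coprime.coprime_dvd_left (Nat.lcm_dvd_mul d e)
        (Nat.Coprime.mul_left (h.supp d hd0).2 (h.supp e he0).2)
    have h2 := cop_sum (d.lcm e) q (Nat.lcm_pos (by omega) (by omega)) hq hc hA hAB h0 h1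
    have h3 : |θ d * θ e| ≤ 1 := by
      rw [abs_mul]
      exact mul_le_one₀ (h.abs d) (abs_nonneg _) (h.abs e)
    have h4 := mul_le_mul h3 h2 (abs_nonneg _) zero_le_one
    rw [← abs_mul] at h4
    have h5 := (le_abs_self _).trans h4
    have e1 : (q.totient : ℝ) / q * I * (θ d * θ e / (d.lcm e : ℝ)) =
        θ d * θ e * ((q.totient : ℝ) / q * I / (d.lcm e : ℕ)) := by ring
    rw [e1]
    rw [mul_sub] at h5
    linarith
  refine (Finset.sum_le_sum fun d hd => Finset.sum_le_sum fun e he => key d hd e he).trans ?_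
  simp only [Finset.sum_add_distrib, ← Finset.mul_sum, Finset.sum_const, Nat.card_Icc,
    add_tsub_cancel_right, nsmul_eq_mul]
  have h6 : (q.totient : ℝ) / q * I * ∑ d ∈ Icc 1 ⌊W⌋₊, ∑ e ∈ Icc 1 ⌊W⌋₊,
      θ d * θ e / (d.lcm e : ℝ) ≤ (q.totient : ℝ) / q * I * (q / (q.totient * Real.log W)) :=
    mul_le_mul_of_nonneg_left h.diag (by positivity)
  have h7 : (q.totient : ℝ) / q * I * (q / (q.totient * Real.log W)) = I / Real.log W := by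
    by_cases hl : Real.log W = 0
    · simp [hl]
    · field_simp
  have h8 : (⌊W⌋₊ : ℝ) ≤ W := Nat.floor_le hW
  have h9 : (⌊W⌋₊ : ℝ) * (⌊W⌋₊ * E) ≤ W ^ 2 * E := by
    rw [← mul_assoc, sq]
    gcongr
  linarith

lemma offB {q : ℕ} {W : ℝ} (hW : 1 ≤ W) {θ : ℕ → ℝ} (h : Sel q W θ) (χ : Ch q) (s z : ℂ)
    {δ η Q : ℝ} (hδ : 0 ≤ δ) (hs : 1 - δ ≤ s.re) (U X : ℕ) (hUX : U ≤ X)
    (hT : ∀ N : ℕ, Q ≤ N → ‖z - ∑ n ∈ Icc 1 N, χ n * (n : ℂ) ^ (-s)‖ ≤ η)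
    (hQ : ∀ L : ℕ, 0 < L → (L : ℝ) ≤ W ^ 2 → Q ≤ (U / L : ℕ)) :
    ‖∑ n ∈ Ioc U X, (((∑ d ∈ n.divisors, θ d) ^ 2 : ℝ) : ℂ) * χ n * (n : ℂ) ^ (-s)‖ ≤
      2 * η * (W ^ 2) ^ δ * (1 + Real.log W) ^ 3 := by
  have hη : 0 ≤ η := (norm_nonneg _).trans (hT _ (hQ 1 one_pos (by push_cast; nlinarith)))
  have e0 : ∑ n ∈ Ioc U X, (((∑ d ∈ n.divisors, θ d) ^ 2 : ℝ) : ℂ) * χ n * (n : ℂ) ^ (-s) =
      ∑ n ∈ Ioc U X, (∑ d ∈ n.divisors, (θ d : ℂ)) ^ 2 * (χ n * (n : ℂ) ^ (-s)) := by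
    refine Finset.sum_congr rfl fun n _ => ?_
    push_cast
    ring
  rw [e0, expand (fun d => (θ d : ℂ)) ⌊W⌋₊ (fun d hd => by simp [sel_zero h d hd]) _
    (fun n hn => by simp only [mem_Ioc] at hn; omega) (fun n => χ n * (n : ℂ) ^ (-s))]
  have hW0 : 0 ≤ W := by linarith
  have h8 : (⌊W⌋₊ : ℝ) ≤ W := Nat.floor_le hW0
  have key : ∀ d ∈ Icc 1 ⌊W⌋₊, ∀ e ∈ Icc 1 ⌊W⌋₊, ‖(θ d : ℂ) * (θ e : ℂ) *
      ∑ n ∈ (Ioc U X).filter (fun n => d.lcm e ∣ n), χ n * (n : ℂ) ^ (-s)‖ ≤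
      2 * η * (W ^ 2) ^ δ * (1 / (d.lcm e : ℕ)) := by
    intro d hd e he
    simp only [mem_Icc] at hd he
    have hL : 0 < d.lcm e := Nat.lcm_pos (by omega) (by omega)
    set L := d.lcm e with hLdef
    have hL1 : (1 : ℝ) ≤ L := by exact_mod_cast hL
    have hLW : (L : ℝ) ≤ W ^ 2 := by
      have h1 : L ≤ d * e := Nat.le_of_dvd (Nat.mul_pos (by omega) (by omega)) (Nat.lcm_dvd_mul d e)
      have h2 : (L : ℝ) ≤ (d : ℝ) * e := by exact_mod_cast h1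
      have h3 : (d : ℝ) ≤ W := le_trans (by exact_mod_cast hd.2) h8
      have h4 : (e : ℝ) ≤ W := le_trans (by exact_mod_cast he.2) h8
      calc (L : ℝ) ≤ (d : ℝ) * e := h2
        _ ≤ W * W := by gcongr
        _ = W ^ 2 := by ring
    rw [reindex (fun n => χ n * (n : ℂ) ^ (-s)) L U X hL]
    have e1 : ∑ m ∈ Ioc (U / L) (X / L), χ (L * m : ℕ) * ((L * m : ℕ) : ℂ) ^ (-s) =
        χ L * (L : ℂ) ^ (-s) * ∑ m ∈ Ioc (U / L) (X / L), χ m * (m : ℂ) ^ (-s) := by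
      rw [Finset.mul_sum]
      refine Finset.sum_congr rfl fun m _ => ?_
      rw [Nat.cast_mul, Nat.cast_mul, map_mul, Complex.natCast_mul_natCast_cpow]
      ring
    have hle : U / L ≤ X / L := Nat.div_le_div_right hUX
    have e2 : ∑ m ∈ Ioc (U / L) (X / L), χ m * (m : ℂ) ^ (-s) =
        (z - ∑ n ∈ Icc 1 (U / L), χ n * (n : ℂ) ^ (-s)) -
          (z - ∑ n ∈ Icc 1 (X / L), χ n * (n : ℂ) ^ (-s)) := by
      have := Finset.sum_Ioc_consecutive (fun m : ℕ => χ m * (m : ℂ) ^ (-s))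
        (Nat.zero_le (U / L)) hle
      have i1 : ∀ N : ℕ, Icc 1 N = Ioc 0 N := fun N => by ext; simp only [mem_Icc, mem_Ioc]; omega
      rw [i1, i1, ← this]
      ring
    have hq1 := hQ L hL hLW
    have hq2 : Q ≤ (X / L : ℕ) := hq1.trans (by exact_mod_cast hle)
    have n2 : ‖∑ m ∈ Ioc (U / L) (X / L), χ m * (m : ℂ) ^ (-s)‖ ≤ 2 * η := by
      rw [e2]
      refine (norm_sub_le _ _).trans ?_
      linarith [hT _ hq1, hT _ hq2]
    have n1 : ‖(L : ℂ) ^ (-s)‖ ≤ (W ^ 2) ^ δ * (1 / L) := by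
      rw [Complex.norm_natCast_cpow_of_pos hL]
      have a1 : (L : ℝ) ^ (-s).re ≤ (L : ℝ) ^ (δ + -1) :=
        Real.rpow_le_rpow_of_exponent_le hL1 (by simp; linarith)
      rw [Real.rpow_add (by linarith), Real.rpow_neg_one] at a1
      refine a1.trans ?_
      rw [one_div]
      gcongr
    have n0 : ‖χ L‖ ≤ 1 := χ.norm_le_one _
    have n3 : ‖(θ d : ℂ)‖ ≤ 1 := by rw [Complex.norm_real]; exact h.abs d
    have n4 : ‖(θ e : ℂ)‖ ≤ 1 := by rw [Complex.norm_real]; exact h.abs e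
    rw [e1, norm_mul, norm_mul, norm_mul, norm_mul]
    calc _ ≤ 1 * 1 * (1 * ((W ^ 2) ^ δ * (1 / L)) * (2 * η)) := by gcongr
      _ = _ := by ring
  refine (norm_sum_le _ _).trans ((Finset.sum_le_sum fun d hd => (norm_sum_le _ _).trans
    (Finset.sum_le_sum fun e he => key d hd e he)).trans ?_)
  simp only [← Finset.mul_sum]
  have h1 : (1 : ℝ) ≤ ⌊W⌋₊ := by exact_mod_cast (Nat.one_le_floor_iff _).mpr hW
  have h2 : Real.log ⌊W⌋₊ ≤ Real.log W := Real.log_le_log (by linarith) h8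
  have h3 : 0 ≤ Real.log ⌊W⌋₊ := Real.log_nonneg h1
  have h4 := (lcm_sum ⌊W⌋₊).trans (pow_le_pow_left₀ (by linarith)
    (by linarith : 1 + Real.log ⌊W⌋₊ ≤ 1 + Real.log W) 3)
  exact mul_le_mul_of_nonneg_left h4 (by positivity)

lemma II_ge {u x α : ℝ} (hu : 0 ≤ u) (hx : u ≤ x) (hα : 0 < α) : x - u ≤ II u x α := by
  unfold II
  rw [le_div_iff₀ hα]
  have h1 : 1 ≤ Real.exp (α * u) := Real.one_le_exp (by positivity)
  have h2 := Real.add_one_le_exp (α * (x - u))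
  have h3 : Real.exp (α * x) = Real.exp (α * u) * Real.exp (α * (x - u)) := by
    rw [← Real.exp_add]; congr 1; ring
  have h4 : 0 ≤ α * (x - u) := mul_nonneg hα.le (by linarith)
  rw [h3]
  nlinarith

end Gram

open Gram in
theorem gramOf : GramOf := by
  intro hT φ c u x ε hφ hc hu hx hε
  obtain ⟨δ₀, hδ₀, q₀, hq₀⟩ := hT ((φ + 1 / 4) / 2) (by linarith)
  obtain ⟨C, hC1, hC⟩ := Pool.Agent.MP_74e98a_nt.H25.divisor_bound (1 / 8) (by norm_num)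
  have hu0 : 0 < u := by linarith
  set δ := min (min (δ₀ / (2 * (1 + 2 * c))) (1 / (16 * u))) 1 with hδ
  have hδp : 0 < δ := lt_min (lt_min (by positivity) (by positivity)) one_pos
  have hδ1 : δ ≤ 1 := min_le_right _ _
  have hδ2 : δ * (2 * (1 + 2 * c)) ≤ δ₀ := by
    rw [← le_div_iff₀ (by positivity)]
    exact (min_le_left _ _).trans (min_le_left _ _)
  have hδ3 : δ * (16 * u) ≤ 1 := by
    rw [← le_div_iff₀ (by positivity)]
    exact (min_le_left _ _).trans (min_le_right _ _)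
  have hδ4 : δ ≤ δ₀ := by nlinarith
  obtain ⟨q₁, hq₁⟩ := big (C * c / (ε * (x - u))) (1 / 16) (by norm_num)
  obtain ⟨q₂, hq₂⟩ := big 2 (φ - (φ + 1 / 4) / 2) (by linarith)
  obtain ⟨q₃, hq₃⟩ := big (2 * (1 + c / (δ₀ / 12)) ^ 3) (δ₀ / 4) (by positivity)
  refine ⟨δ, hδp, max (max q₀ q₁) (max (max q₂ q₃) 2), fun q _ hq θ hθ => ?_⟩
  have g0 : q₀ ≤ q := le_trans (le_trans (le_max_left _ _) (le_max_left _ _)) hq
  have g1 : q₁ ≤ q := le_trans (le_trans (le_max_right _ _) (le_max_left _ _)) hq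
  have g2 : q₂ ≤ q :=
    le_trans (le_trans (le_trans (le_max_left _ _) (le_max_left _ _)) (le_max_right _ _)) hq
  have g3 : q₃ ≤ q :=
    le_trans (le_trans (le_trans (le_max_right _ _) (le_max_left _ _)) (le_max_right _ _)) hq
  have g4 : 2 ≤ q := le_trans (le_trans (le_max_right _ _) (le_max_right _ _)) hq
  have hq1 : (1 : ℝ) < q := by exact_mod_cast (by omega : 1 < q)
  have hq0 : (0 : ℝ) < q := by linarith
  have hl : 0 < Real.log q := Real.log_pos hq1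
  have hW : (1 : ℝ) ≤ (q : ℝ) ^ c := Real.one_le_rpow hq1.le hc.le
  have hlog : Real.log ((q : ℝ) ^ c) = c * Real.log q := Real.log_rpow hq0 c
  have hW2 : ((q : ℝ) ^ c) ^ 2 = (q : ℝ) ^ (2 * c) := by
    rw [← Real.rpow_natCast, ← Real.rpow_mul hq0.le]; congr 1; push_cast; ring
  have hAB : (q : ℝ) ^ u ≤ (q : ℝ) ^ x := Real.rpow_le_rpow_of_exponent_le hq1.le hx.le
  have hA : 0 < (q : ℝ) ^ u := Real.rpow_pos_of_pos hq0 u
  constructor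
  · intro α hα hαδ
    have hβ0 : 0 < α / Real.log q := by positivity
    have hβ : α / Real.log q ≤ δ := by rwa [div_le_iff₀ hl]
    refine (diagA (by omega) (by linarith) hθ hA hAB hβ0 (hβ.trans hδ1)).trans ?_
    have e1 : ∀ t : ℝ, ((q : ℝ) ^ t) ^ (α / Real.log q) = Real.exp (α * t) := by
      intro t
      rw [← Real.rpow_mul hq0.le, Real.rpow_def_of_pos hq0]
      congr 1
      field_simp
    have e2 : (((q : ℝ) ^ x) ^ (α / Real.log q) - ((q : ℝ) ^ u) ^ (α / Real.log q)) /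
        (α / Real.log q) / Real.log ((q : ℝ) ^ c) = II u x α / c := by
      rw [e1, e1, hlog, II]
      field_simp
    rw [e2, hW2]
    have h1 : ((q : ℝ) ^ u) ^ (-1 + α / Real.log q) ≤ (q : ℝ) ^ (-u + 1 / 16) := by
      rw [← Real.rpow_mul hq0.le]
      refine Real.rpow_le_rpow_of_exponent_le hq1.le ?_
      have : u * (α / Real.log q) ≤ u * δ := mul_le_mul_of_nonneg_left hβ hu0.le
      nlinarith
    have h2 : (q : ℝ) ^ (2 * c) * (q.divisors.card * ((q : ℝ) ^ u) ^ (-1 + α / Real.log q)) ≤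
        (q : ℝ) ^ (2 * c) * (C * (q : ℝ) ^ (1 / 8 : ℝ) * (q : ℝ) ^ (-u + 1 / 16)) := by
      have := hC q
      gcongr
    have h3 : (q : ℝ) ^ (2 * c) * (C * (q : ℝ) ^ (1 / 8 : ℝ) * (q : ℝ) ^ (-u + 1 / 16)) =
        C * (q : ℝ) ^ (2 * c + 1 / 8 + (-u + 1 / 16)) := by
      rw [Real.rpow_add hq0 (2 * c + 1 / 8), Real.rpow_add hq0 (2 * c)]; ring
    have h4 : (q : ℝ) ^ (2 * c + 1 / 8 + (-u + 1 / 16)) ≤ (q : ℝ) ^ (-(1 / 16) : ℝ) :=
      Real.rpow_le_rpow_of_exponent_le hq1.le (by linarith)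
    have h5 : C * (q : ℝ) ^ (-(1 / 16) : ℝ) ≤ ε * (x - u) / c := by
      have hp : 0 < (q : ℝ) ^ (1 / 16 : ℝ) := Real.rpow_pos_of_pos hq0 _
      have hxu : 0 < x - u := by linarith
      have := hq₁ q g1
      rw [div_le_iff₀ (by positivity)] at this
      rw [Real.rpow_neg hq0.le, ← div_eq_mul_inv, div_le_div_iff₀ hp hc]
      linarith
    have h6 : ε * (x - u) / c ≤ ε * II u x α / c := by
      have := II_ge hu0.le hx.le hα
      gcongr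
    have h7 : C * (q : ℝ) ^ (2 * c + 1 / 8 + (-u + 1 / 16)) ≤ C * (q : ℝ) ^ (-(1 / 16) : ℝ) :=
      mul_le_mul_of_nonneg_left h4 (by linarith)
    have e3 : (1 + ε) * II u x α / c = II u x α / c + ε * II u x α / c := by ring
    linarith
  · intro χ s hχ hs1 hs2 hs3
    have hs4 : |s.im| ≤ (q : ℝ) ^ δ₀ := hs3.trans (Real.rpow_le_rpow_of_exponent_le hq1.le hδ4)
    have h := offB hW hθ χ s (DirichletCharacter.LFunction χ s) (η := (q : ℝ) ^ (-δ₀))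
      (Q := (q : ℝ) ^ ((φ + 1 / 4) / 2)) hδp.le hs1 ⌊(q : ℝ) ^ u⌋₊ ⌊(q : ℝ) ^ x⌋₊
      (Nat.floor_le_floor hAB)
      (fun N hN => hq₀ q g0 χ s N hχ (by linarith) hs2 hs4 hN) (by
        intro L hL hLW
        have a1 := lt_mul_succ L hL ((q : ℝ) ^ u)
        rw [hW2] at hLW
        have a2 : (q : ℝ) ^ (2 * c) * (q : ℝ) ^ φ ≤ (q : ℝ) ^ u := by
          rw [← Real.rpow_add hq0]
          exact Real.rpow_le_rpow_of_exponent_le hq1.le (by linarith)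
        have a3 : (L : ℝ) * ((⌊(q : ℝ) ^ u⌋₊ / L : ℕ) + 1) ≤
            (q : ℝ) ^ (2 * c) * ((⌊(q : ℝ) ^ u⌋₊ / L : ℕ) + 1) := by gcongr
        have a4 : (q : ℝ) ^ φ < (⌊(q : ℝ) ^ u⌋₊ / L : ℕ) + 1 :=
          lt_of_mul_lt_mul_left (a2.trans_lt (a1.trans_le a3)) (by positivity)
        have a5 : (q : ℝ) ^ φ = (q : ℝ) ^ ((φ + 1 / 4) / 2) * (q : ℝ) ^ (φ - (φ + 1 / 4) / 2) := by
          rw [← Real.rpow_add hq0]; congr 1; ring
        have a6 : (1 : ℝ) ≤ (q : ℝ) ^ ((φ + 1 / 4) / 2) := Real.one_le_rpow hq1.le (by linarith)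
        have a7 := hq₂ q g2
        nlinarith)
    refine h.trans ?_
    rw [hW2, hlog, ← Real.rpow_mul hq0.le]
    have b1 : Real.log q ≤ (q : ℝ) ^ (δ₀ / 12) / (δ₀ / 12) :=
      Real.log_le_rpow_div hq0.le (by positivity)
    have b2 : (1 : ℝ) ≤ (q : ℝ) ^ (δ₀ / 12) := Real.one_le_rpow hq1.le (by positivity)
    have b3 : 1 + c * Real.log q ≤ (1 + c / (δ₀ / 12)) * (q : ℝ) ^ (δ₀ / 12) := by
      have : c * Real.log q ≤ c * ((q : ℝ) ^ (δ₀ / 12) / (δ₀ / 12)) :=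
        mul_le_mul_of_nonneg_left b1 hc.le
      have e : (1 + c / (δ₀ / 12)) * (q : ℝ) ^ (δ₀ / 12) =
          (q : ℝ) ^ (δ₀ / 12) + c * ((q : ℝ) ^ (δ₀ / 12) / (δ₀ / 12)) := by ring
      linarith
    have b4 : (1 + c * Real.log q) ^ 3 ≤ (1 + c / (δ₀ / 12)) ^ 3 * (q : ℝ) ^ (δ₀ / 4) := by
      refine (pow_le_pow_left₀ (by positivity) b3 3).trans (le_of_eq ?_)
      rw [mul_pow, ← Real.rpow_natCast ((q : ℝ) ^ (δ₀ / 12)), ← Real.rpow_mul hq0.le]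
      congr 2
      push_cast
      ring
    have b5 := hq₃ q g3
    calc 2 * (q : ℝ) ^ (-δ₀) * (q : ℝ) ^ (2 * c * δ) * (1 + c * Real.log q) ^ 3
        ≤ 2 * (q : ℝ) ^ (-δ₀) * (q : ℝ) ^ (2 * c * δ) *
          ((1 + c / (δ₀ / 12)) ^ 3 * (q : ℝ) ^ (δ₀ / 4)) := by gcongr
      _ = (2 * (1 + c / (δ₀ / 12)) ^ 3) *
          ((q : ℝ) ^ (-δ₀) * (q : ℝ) ^ (2 * c * δ) * (q : ℝ) ^ (δ₀ / 4)) := by ring
      _ ≤ (q : ℝ) ^ (δ₀ / 4) *
          ((q : ℝ) ^ (-δ₀) * (q : ℝ) ^ (2 * c * δ) * (q : ℝ) ^ (δ₀ / 4)) := by gcongr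
      _ = (q : ℝ) ^ (δ₀ / 4 + (-δ₀ + 2 * c * δ + δ₀ / 4)) := by
          rw [Real.rpow_add hq0, Real.rpow_add hq0, Real.rpow_add hq0]
      _ ≤ (q : ℝ) ^ (-δ) := Real.rpow_le_rpow_of_exponent_le hq1.le (by nlinarith)

end Pool.Agent.MP_c5bf7b_nt.H38
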