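import Pool.Agent.MP_c5bf7b_nt.H38.SpecC

/-! The environment exists for all large moduli. -/

set_option autoImplicit false

namespace Pool.Agent.MP_c5bf7b_nt.H38

open Finset Complex

namespace EnvR

/-- a property which holds for small `δ` and large `q` -/
def Good (Q : (q : ℕ) → (Ch q → Multiset ℂ) → ℝ → ℝ → Prop) : Prop :=
  ∃ δ : ℝ, 0 < δ ∧ ∃ q₀ : ℕ, ∀ (q : ℕ) [NeZero q], q₀ ≤ q → ∀ N : Ch q → Multiset ℂ,
    (∀ χ, NZ χ (N χ)) → ∀ Lm Th : ℝ, Lm ≤ δ * Real.log q → Th ≤ (q : ℝ) ^ δ * Real.log q →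
    Q q N Lm Th

theorem mono_le {q : ℕ} [NeZero q] {δ δ' : ℝ} (h : δ' ≤ δ) :
    δ' * Real.log q ≤ δ * Real.log q ∧
      (q : ℝ) ^ δ' * Real.log q ≤ (q : ℝ) ^ δ * Real.log q := by
  have h1 : (1 : ℝ) ≤ q := by exact_mod_cast Nat.one_le_iff_ne_zero.mpr (NeZero.ne q)
  have hl : 0 ≤ Real.log q := Real.log_nonneg h1
  exact ⟨mul_le_mul_of_nonneg_right h hl,
    mul_le_mul_of_nonneg_right (Real.rpow_le_rpow_of_exponent_le h1 h) hl⟩

theorem Good.and {Q R : (q : ℕ) → (Ch q → Multiset ℂ) → ℝ → ℝ → Prop} (hQ : Good Q)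
    (hR : Good R) : Good fun q N Lm Th => Q q N Lm Th ∧ R q N Lm Th := by
  obtain ⟨a, ha, qa, hA⟩ := hQ
  obtain ⟨b, hb, qb, hB⟩ := hR
  refine ⟨min a b, lt_min ha hb, max qa qb, fun q _ hq N hN Lm Th h1 h2 => ⟨?_, ?_⟩⟩
  · have := mono_le (q := q) (min_le_left a b)
    exact hA q ((le_max_left _ _).trans hq) N hN Lm Th (h1.trans this.1) (h2.trans this.2)
  · have := mono_le (q := q) (min_le_right a b)
    exact hB q ((le_max_right _ _).trans hq) N hN Lm Th (h1.trans this.1) (h2.trans this.2)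

theorem Good.imp {Q R : (q : ℕ) → (Ch q → Multiset ℂ) → ℝ → ℝ → Prop} (hQ : Good Q)
    (h : ∀ q N Lm Th, Q q N Lm Th → R q N Lm Th) : Good R := by
  obtain ⟨a, ha, qa, hA⟩ := hQ
  exact ⟨a, ha, qa, fun q _ hq N hN Lm Th h1 h2 => h _ _ _ _ (hA q hq N hN Lm Th h1 h2)⟩

theorem Good.fin {Q : ℕ → (q : ℕ) → (Ch q → Multiset ℂ) → ℝ → ℝ → Prop} (S : Finset ℕ)
    (h : ∀ i ∈ S, Good (Q i)) : Good fun q N Lm Th => ∀ i ∈ S, Q i q N Lm Th := by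
  induction S using Finset.induction_on with
  | empty => exact ⟨1, one_pos, 0, fun q _ _ N _ Lm Th _ _ i hi => absurd hi (by simp)⟩
  | insert a S _ ih =>
    refine ((h a (mem_insert_self _ _)).and
      (ih fun i hi => h i (mem_insert_of_mem hi))).imp ?_
    intro q N Lm Th hh i hi
    rcases mem_insert.mp hi with rfl | hi
    · exact hh.1
    · exact hh.2 i hi

theorem good_kf (hK : KfS) {f : ℝ → ℝ} {x ε : ℝ} (hf : Adm f x) (hε : 0 < ε) :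
    Good fun q N Lm Th => KF4 q N f x ε Lm Th := by
  classical
  obtain ⟨δ, d, hδ, -, -, q₀, h⟩ := hK f x ε hf hε
  refine ⟨δ, hδ, q₀, fun q _ hq N hN Lm Th h1 h2 χ w Y hY hc hw0 hw1 hw2 hH => ?_⟩
  exact h q hq N hN χ w Y hY ((Multiset.card_le_card (Multiset.filter_le _ _)).trans hc) hw0
    (hw1.trans h1) (hw2.trans h2) hH

theorem good_d1 (hD : D1S) {φ a b θ ε : ℝ} (hφ : 1 / 4 < φ) (ha : 0 < a) (hb : 0 < b)
    (hθ : 0 < θ) (hε : 0 < ε) : Good fun q N Lm Th => D1p q N φ a b θ ε Lm Th := by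
  obtain ⟨δ, hδ, q₀, h⟩ := hD φ a b θ ε hφ ha hb hθ hε
  refine ⟨δ, hδ, q₀, fun q _ hq N hN Lm Th h1 h2 J z hJ => h q hq N hN J z fun χ hχ => ?_⟩
  obtain ⟨g1, g2, g3, g4⟩ := hJ χ hχ
  exact ⟨g1, g2, g3.trans h1, g4.trans h2⟩

theorem good_pc (hP : PcS) {κ ε : ℝ} (h0 : 0 ≤ κ) (h1 : κ ≤ 10) (hε : 0 < ε) :
    Good fun q N _ _ => ∀ χ : Ch q, (∀ ζ ∈ N χ, |ζ.im| ≤ Real.log q → κ ≤ ζ.re) →
      ((N χ).map fun ζ => ‖H2 ζ‖).sum ≤ (Bk κ + ε) / 16 := by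
  obtain ⟨q₀, h⟩ := hP κ ε h0 h1 hε
  exact ⟨1, one_pos, q₀, fun q _ hq N hN _ _ _ _ => h q hq N hN⟩

theorem log_large (B : ℝ) : ∃ q₀ : ℕ, ∀ q : ℕ, q₀ ≤ q → B ≤ Real.log q := by
  refine ⟨⌈Real.exp B⌉₊, fun q hq => ?_⟩
  have h1 : Real.exp B ≤ q := (Nat.le_ceil _).trans (by exact_mod_cast hq)
  calc B = Real.log (Real.exp B) := (Real.log_exp B).symm
    _ ≤ Real.log q := Real.log_le_log (Real.exp_pos B) h1

theorem good_zeta (hC : CntS) (hZ : ZetaS) {M : ℝ} (hM : 10 ≤ M) :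
    Good fun q N _ Th => ∀ ζ ∈ N 1, |ζ.im| ≤ Th → M ≤ ζ.re := by
  obtain ⟨C, -, hC⟩ := hC
  obtain ⟨c, hc, hZ⟩ := hZ
  have hM0 : 0 < M := by linarith
  obtain ⟨q₁, hq₁⟩ := log_large (4 * M / c)
  refine ⟨c / (2 * M), by positivity, max 2 q₁, fun q _ hq N hN Lm Th _ h2 ζ hζ him => ?_⟩
  have hq2 : 2 ≤ q := (le_max_left _ _).trans hq
  have hl1 : 4 * M / c ≤ Real.log q := hq₁ q ((le_max_right _ _).trans hq)
  have hl0 : 0 < Real.log q := lt_of_lt_of_le (by positivity) hl1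
  obtain ⟨-, g2, -, g4⟩ := ((hC q 1 hq2).2 (N 1) (hN 1)).2.1 ζ hζ
  set l := Real.log q with hl
  have hre : (1 - ζ / (l : ℂ)).re = 1 - ζ.re / l := by
    rw [Complex.sub_re, Complex.div_ofReal_re]; simp
  have him' : (1 - ζ / (l : ℂ)).im = -(ζ.im / l) := by
    rw [Complex.sub_im, Complex.div_ofReal_im]; simp
  have h23 : 2 / 3 ≤ (1 - ζ / (l : ℂ)).re := by
    rw [hre]
    have : ζ.re / l ≤ 1 / 3 := by rw [div_le_iff₀ hl0]; linarith
    linarith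
  have key := hZ q _ h23 g4
  rw [hre, him', abs_neg, abs_div, abs_of_pos hl0] at key
  have h1 : (1 : ℝ) ≤ q := by exact_mod_cast (by omega : 1 ≤ q)
  have hp1 : (1 : ℝ) ≤ (q : ℝ) ^ (c / (2 * M)) := Real.one_le_rpow h1 (by positivity)
  have hb : |ζ.im| / l ≤ (q : ℝ) ^ (c / (2 * M)) := by
    rw [div_le_iff₀ hl0]; exact him.trans h2
  have hnn : 0 ≤ |ζ.im| / l := by positivity
  have hlog : Real.log (|ζ.im| / l + 2) ≤ 2 + c / (2 * M) * l := by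
    calc Real.log (|ζ.im| / l + 2) ≤ Real.log (3 * (q : ℝ) ^ (c / (2 * M))) :=
          Real.log_le_log (by positivity) (by linarith)
      _ = Real.log 3 + c / (2 * M) * l := by
          rw [Real.log_mul (by norm_num) (by positivity), Real.log_rpow (by linarith)]
      _ ≤ 2 + c / (2 * M) * l := by
          have := Real.log_le_sub_one_of_pos (show (0 : ℝ) < 3 by norm_num)
          linarith
  have hlp : 0 < Real.log (|ζ.im| / l + 2) := Real.log_pos (by linarith)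
  have h4 : 4 * M ≤ c * l := by
    rw [div_le_iff₀ hc] at hl1; linarith
  have hM' : M * Real.log (|ζ.im| / l + 2) ≤ c * l := by
    have e : M * (c / (2 * M) * l) = c * l / 2 := by field_simp
    calc M * Real.log (|ζ.im| / l + 2) ≤ M * (2 + c / (2 * M) * l) :=
          mul_le_mul_of_nonneg_left hlog hM0.le
      _ = 2 * M + c * l / 2 := by rw [mul_add, e]; ring
      _ ≤ c * l := by linarith
  have k2 : c / Real.log (|ζ.im| / l + 2) ≤ ζ.re / l := by linarith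
  rw [div_le_div_iff₀ hlp hl0] at k2
  exact le_of_mul_le_mul_right (hM'.trans k2) hlp

end EnvR

open EnvR in
theorem envOf : EnvOf := by
  intro hC hA hK hZ hP hD
  obtain ⟨C, hC1, hC'⟩ := id hC
  refine ⟨C, hC1, fun M hM => ?_⟩
  have he : 0 < e0 := by unfold e0; norm_num
  have g1 : Good fun q N Lm Th => ∀ i ∈ Icc 8 35,
      KF4 q N (par ((i : ℕ) / 10)) ((i : ℕ) / 10) e0 Lm Th := by
    refine Good.fin (Q := fun i q N Lm Th =>
      KF4 q N (par ((i : ℕ) / 10)) ((i : ℕ) / 10) e0 Lm Th) _ fun i hi => ?_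
    obtain ⟨h1, h2⟩ := mem_Icc.mp hi
    have h1' : (8 : ℝ) ≤ i := by exact_mod_cast h1
    have h2' : (i : ℝ) ≤ 35 := by exact_mod_cast h2
    exact good_kf hK (hA.1 _ (by linarith) (by linarith)) he
  have g2 := good_kf hK hA.2.1 he
  have g3 := good_zeta hC hZ hM
  have g4 : Good fun q N _ _ => ∀ i ∈ range 31, ∀ χ : Ch q,
      (∀ ζ ∈ N χ, |ζ.im| ≤ Real.log q → ((i : ℕ) : ℝ) / 10 ≤ ζ.re) →
      ((N χ).map fun ζ => ‖H2 ζ‖).sum ≤ (Bk ((i : ℕ) / 10) + e0) / 16 := by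
    refine Good.fin (Q := fun i q N _ _ => ∀ χ : Ch q,
      (∀ ζ ∈ N χ, |ζ.im| ≤ Real.log q → ((i : ℕ) : ℝ) / 10 ≤ ζ.re) →
      ((N χ).map fun ζ => ‖H2 ζ‖).sum ≤ (Bk ((i : ℕ) / 10) + e0) / 16) _ fun i hi => ?_
    have h2' : (i : ℝ) < 31 := by exact_mod_cast mem_range.mp hi
    exact good_pc hP (by positivity) (by linarith) he
  have g5 : Good fun q N Lm Th => ∀ i ∈ Icc 8 24, ∀ j ∈ Icc 10 40, ∀ k ∈ Icc 1 12,
      D1p q N f0 ((i : ℕ) / 200) ((j : ℕ) / 100) ((k : ℕ) / 2) e0 Lm Th := by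
    refine Good.fin (Q := fun i q N Lm Th => ∀ j ∈ Icc 10 40, ∀ k ∈ Icc 1 12,
      D1p q N f0 ((i : ℕ) / 200) ((j : ℕ) / 100) ((k : ℕ) / 2) e0 Lm Th) _ fun i hi => ?_
    refine Good.fin (Q := fun j q N Lm Th => ∀ k ∈ Icc 1 12,
      D1p q N f0 ((i : ℕ) / 200) ((j : ℕ) / 100) ((k : ℕ) / 2) e0 Lm Th) _ fun j hj => ?_
    refine Good.fin (Q := fun k q N Lm Th =>
      D1p q N f0 ((i : ℕ) / 200) ((j : ℕ) / 100) ((k : ℕ) / 2) e0 Lm Th) _ fun k hk => ?_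
    have h1 : (8 : ℝ) ≤ i := by exact_mod_cast (mem_Icc.mp hi).1
    have h2 : (10 : ℝ) ≤ j := by exact_mod_cast (mem_Icc.mp hj).1
    have h3 : (1 : ℝ) ≤ k := by exact_mod_cast (mem_Icc.mp hk).1
    exact good_d1 hD (by unfold f0; norm_num) (by linarith) (by linarith) (by linarith) he
  obtain ⟨η, hη, q₀, h⟩ := g1.and (g2.and (g3.and (g4.and g5)))
  refine ⟨η, hη, fun δ hδ hδη => ?_⟩
  obtain ⟨q₁, hq₁⟩ := log_large (10 / δ)
  refine ⟨max 2 (max q₀ q₁), fun q _ hq N hN => ?_⟩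
  have hq2 : 2 ≤ q := (le_max_left _ _).trans hq
  have hq0 : q₀ ≤ q := ((le_max_left _ _).trans (le_max_right _ _)).trans hq
  have hl : 10 / δ ≤ Real.log q := hq₁ q (((le_max_right _ _).trans (le_max_right _ _)).trans hq)
  obtain ⟨k1, k2, k3, k4, k5⟩ := h q hq0 N hN _ _ (mono_le (q := q) hδη).1 le_rfl
  refine ⟨hq2, ?_, hM, fun χ ζ hζ => ?_, fun χ => ((hC' q χ hq2).2 _ (hN χ)).1, k1, k2, k3,
    fun χ i hi => k4 i (mem_range.mpr (by omega)) χ, k5⟩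
  · rw [div_le_iff₀ hδ] at hl; linarith
  · obtain ⟨-, a, b⟩ := (hC' q χ hq2).2 _ (hN χ)
    exact ⟨(a ζ hζ).1, b _ (hN χ⁻¹) ζ hζ⟩

end Pool.Agent.MP_c5bf7b_nt.H38
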