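import Pool.Agent.MP_c5bf7b_nt.H38.SpecC

/-! Positivity of the trigonometric combinations and the second density estimate. -/

set_option autoImplicit false

namespace Pool.Agent.MP_c5bf7b_nt.H38

open Finset Complex ArithmeticFunction

namespace PosAux

/-- the unimodular factor of the term `n` -/
noncomputable def uf {q : ℕ} (χ : Ch q) (s : ℝ) (n : ℕ) : ℂ :=
  χ n * exp (((s * (Real.log n / Real.log q) : ℝ) : ℂ) * I)

/-- the nonnegative factor of the term `n` -/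
noncomputable def cf (q : ℕ) (f : ℝ → ℝ) (l : ℝ) (n : ℕ) : ℝ :=
  vonMangoldt n / (n * Real.log q) * f (Real.log n / Real.log q) *
    Real.exp (l * (Real.log n / Real.log q))

theorem kn_re (q : ℕ) (f : ℝ → ℝ) (x l s : ℝ) (χ : Ch q) :
    (Kn q f x χ (l + s * I)).re = ∑ n ∈ Icc 1 ⌊(q : ℝ) ^ x⌋₊, cf q f l n * (uf χ s n).re := by
  unfold Kn
  rw [Complex.re_sum]
  refine Finset.sum_congr rfl fun n _ => ?_
  rw [← Complex.re_ofReal_mul]
  congr 1
  unfold cf uf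
  have h : ((l : ℂ) + s * I) * ((Real.log n / Real.log q : ℝ) : ℂ) =
      ((l * (Real.log n / Real.log q) : ℝ) : ℂ) +
        ((s * (Real.log n / Real.log q) : ℝ) : ℂ) * I := by
    push_cast; ring
  rw [h, Complex.exp_add, ← Complex.ofReal_exp]
  rw [Complex.ofReal_mul (vonMangoldt n / (n * Real.log q) * f (Real.log n / Real.log q))]
  ring

theorem kn_re0 (q : ℕ) (f : ℝ → ℝ) (x l : ℝ) (χ : Ch q) :
    (Kn q f x χ l).re = ∑ n ∈ Icc 1 ⌊(q : ℝ) ^ x⌋₊, cf q f l n * (uf χ 0 n).re := by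
  rw [← kn_re]; simp

theorem cf_nonneg {q : ℕ} {f : ℝ → ℝ} {x : ℝ} (l : ℝ) (hq : 2 ≤ q)
    (hf : ∀ t, 0 ≤ t → t ≤ x → 0 ≤ f t) {n : ℕ} (hn : n ∈ Icc 1 ⌊(q : ℝ) ^ x⌋₊) :
    0 ≤ cf q f l n := by
  obtain ⟨h1, h2⟩ := Finset.mem_Icc.mp hn
  have hq1 : (1 : ℝ) < q := by exact_mod_cast hq
  have hl : 0 < Real.log q := Real.log_pos hq1
  have hn1 : (1 : ℝ) ≤ n := by exact_mod_cast h1
  have hn2 : (n : ℝ) ≤ (q : ℝ) ^ x :=
    (Nat.cast_le.mpr h2).trans (Nat.floor_le (by positivity))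
  have h3 : Real.log n ≤ x * Real.log q := by
    rw [← Real.log_rpow (by linarith)]
    exact Real.log_le_log (by linarith) hn2
  have h4 : 0 ≤ f (Real.log n / Real.log q) :=
    hf _ (div_nonneg (Real.log_nonneg hn1) hl.le) ((div_le_iff₀ hl).mpr h3)
  unfold cf
  have h5 : 0 ≤ vonMangoldt n := vonMangoldt_nonneg
  positivity

theorem uf_mul {q : ℕ} (χ ψ : Ch q) (s t : ℝ) (n : ℕ) :
    uf (χ * ψ) (s + t) n = uf χ s n * uf ψ t n := by
  unfold uf
  rw [MulChar.mul_apply, add_mul, Complex.ofReal_add, add_mul, Complex.exp_add]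
  ring

theorem uf_inv {q : ℕ} (χ : Ch q) (s : ℝ) (n : ℕ) :
    uf χ⁻¹ (-s) n = (starRingEnd ℂ) (uf χ s n) := by
  unfold uf
  rw [map_mul, ← Complex.exp_conj, map_mul, Complex.conj_ofReal, Complex.conj_I]
  congr 1
  · rw [← MulChar.star_eq_inv]; rfl
  · congr 1; push_cast; ring

theorem uf_zero {q : ℕ} (χ : Ch q) (s : ℝ) {n : ℕ} (h : ¬ IsUnit (n : ZMod q)) :
    uf χ s n = 0 := by
  unfold uf
  rw [MulChar.map_nonunit χ h, zero_mul]

theorem uf_one {q : ℕ} {n : ℕ} (h : IsUnit (n : ZMod q)) : uf (1 : Ch q) 0 n = 1 := by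
  unfold uf
  rw [MulChar.one_apply h]; simp

theorem uf_sq {q : ℕ} (χ : Ch q) (s : ℝ) {n : ℕ} (h : IsUnit (n : ZMod q)) :
    (uf χ s n).re ^ 2 + (uf χ s n).im ^ 2 = 1 := by
  have h1 := uf_mul χ χ⁻¹ s (-s) n
  rw [mul_inv_cancel, add_neg_cancel, uf_one h, uf_inv, Complex.mul_conj] at h1
  have h2 : Complex.normSq (uf χ s n) = 1 := by exact_mod_cast h1.symm
  rw [Complex.normSq_apply] at h2
  linarith

theorem one {q : ℕ} (χ ψ : Ch q) (s t : ℝ) (n : ℕ) :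
    0 ≤ (uf (1 : Ch q) 0 n).re + (uf χ s n).re + (uf ψ t n).re +
      (uf (ψ * χ) (t + s) n).re / 2 + (uf (ψ * χ⁻¹) (t - s) n).re / 2 := by
  by_cases h : IsUnit (n : ZMod q)
  · rw [sub_eq_add_neg, uf_mul, uf_mul, uf_inv, uf_one h]
    have h1 := uf_sq χ s h
    have h2 := uf_sq ψ t h
    have h3 : 0 ≤ 1 + (uf χ s n).re := by nlinarith [sq_nonneg (uf χ s n).im]
    have h4 : 0 ≤ 1 + (uf ψ t n).re := by nlinarith [sq_nonneg (uf ψ t n).im]
    simp only [Complex.mul_re, Complex.conj_re, Complex.conj_im, Complex.one_re]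
    nlinarith [mul_nonneg h3 h4]
  · simp [uf_zero _ _ h]

theorem two {q : ℕ} (χ : Ch q) (t : ℝ) (n : ℕ) :
    0 ≤ 5 * (uf (1 : Ch q) 0 n).re + 8 * (uf χ t n).re + 4 * (uf (χ ^ 2) (2 * t) n).re +
      (uf (χ ^ 3) (3 * t) n).re := by
  by_cases h : IsUnit (n : ZMod q)
  · have e2 : uf (χ ^ 2) (2 * t) n = uf χ t n * uf χ t n := by
      rw [pow_two, two_mul, uf_mul]
    have e3 : uf (χ ^ 3) (3 * t) n = uf χ t n * uf χ t n * uf χ t n := by
      rw [← e2, ← uf_mul, ← pow_succ]; congr 1; ring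
    rw [e2, e3, uf_one h]
    have h1 := uf_sq χ t h
    have h3 : 0 ≤ 1 + (uf χ t n).re := by nlinarith [sq_nonneg (uf χ t n).im]
    simp only [Complex.mul_re, Complex.mul_im, Complex.one_re]
    generalize (uf χ t n).re = a at *
    generalize (uf χ t n).im = b at *
    have h4 : b * b = 1 - a * a := by nlinarith
    have h5 : 5 * 1 + 8 * a + 4 * (a * a - b * b) + ((a * a - b * b) * a - (a * b + b * a) * b) =
        (1 + a) * (1 + 2 * a) ^ 2 := by
      have : (a * b + b * a) * b = 2 * a * (b * b) := by ring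
      rw [this, h4]; ring
    rw [h5]
    positivity
  · simp [uf_zero _ _ h]

theorem three {q : ℕ} (J : Finset (Ch q)) (t : Ch q → ℝ) (y : ℝ) (n : ℕ) :
    0 ≤ y ^ 2 * (uf (1 : Ch q) 0 n).re + 2 * y * ∑ χ ∈ J, (uf χ (t χ) n).re +
      ∑ χ ∈ J, ∑ ψ ∈ J, (uf (χ * ψ⁻¹) (t χ - t ψ) n).re := by
  by_cases h : IsUnit (n : ZMod q)
  · have e : ∑ χ ∈ J, ∑ ψ ∈ J, (uf (χ * ψ⁻¹) (t χ - t ψ) n).re =
        (∑ χ ∈ J, (uf χ (t χ) n).re) ^ 2 + (∑ χ ∈ J, (uf χ (t χ) n).im) ^ 2 := by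
      rw [pow_two, pow_two, Finset.sum_mul_sum, Finset.sum_mul_sum, ← Finset.sum_add_distrib]
      refine Finset.sum_congr rfl fun χ _ => ?_
      rw [← Finset.sum_add_distrib]
      refine Finset.sum_congr rfl fun ψ _ => ?_
      rw [sub_eq_add_neg, uf_mul, uf_inv]
      simp only [Complex.mul_re, Complex.conj_re, Complex.conj_im]
      ring
    rw [e, uf_one h, Complex.one_re]
    nlinarith [sq_nonneg (y + ∑ χ ∈ J, (uf χ (t χ) n).re),
      sq_nonneg (∑ χ ∈ J, (uf χ (t χ) n).im)]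
  · simp [uf_zero _ _ h]

/-- a kept zero of `E` costs at most `c` -/
theorem cost {f : ℝ → ℝ} {x lam c : ℝ} (hL : LpS) (hf : Adm f x) (hc : 0 ≤ c) {ζ : ℂ} (τ : ℝ)
    (h : Lr f x (ζ.re - lam) - Lr f x 0 ≤ c) : -c ≤ (Lp f x (ζ - (lam + τ * I))).re := by
  obtain ⟨-, -, -, -, h5, -⟩ := hL f x hf
  have e : ζ - (lam + τ * I) = ((ζ.re - lam : ℝ) : ℂ) + ((ζ.im - τ : ℝ) : ℂ) * I := by
    apply Complex.ext <;> simp
  rw [e]
  rcases le_total 0 (ζ.re - lam) with ha | ha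
  · have := hf.re (((ζ.re - lam : ℝ) : ℂ) + ((ζ.im - τ : ℝ) : ℂ) * I) (by simpa using ha)
    linarith
  · have h1 := h5 (ζ.re - lam) 0 (ζ.im - τ) ha
    have h2 := hf.re (((0 : ℝ) : ℂ) + ((ζ.im - τ : ℝ) : ℂ) * I) (by simp)
    have h3 := (abs_le.mp ((Complex.abs_re_le_norm _).trans h1)).1
    rw [Complex.sub_re] at h3
    linarith

theorem cost_sum {f : ℝ → ℝ} {x lam c : ℝ} (hL : LpS) (hf : Adm f x) (hc : 0 ≤ c) (τ : ℝ)
    (Y : Multiset ℂ) (h : ∀ ζ ∈ Y, Lr f x (ζ.re - lam) - Lr f x 0 ≤ c) :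
    -(c * Y.card) ≤ (Y.map fun ζ => (Lp f x (ζ - (lam + τ * I))).re).sum := by
  induction Y using Multiset.induction_on with
  | empty => simp
  | cons a s ih =>
    have h1 := cost hL hf hc τ (h a (Multiset.mem_cons_self a s))
    have h2 := ih fun ζ hζ => h ζ (Multiset.mem_cons_of_mem hζ)
    rw [Multiset.map_cons, Multiset.sum_cons, Multiset.card_cons]
    push_cast
    linarith

end PosAux

open PosAux

theorem pos : PosS := by
  intro q _ f x l hq hf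
  refine ⟨fun χ ψ s t => ?_, fun χ t => ?_, fun J t y => ?_⟩
  · rw [kn_re0, kn_re, kn_re, kn_re, kn_re, Finset.sum_div, Finset.sum_div,
      ← Finset.sum_add_distrib, ← Finset.sum_add_distrib, ← Finset.sum_add_distrib,
      ← Finset.sum_add_distrib]
    refine Finset.sum_nonneg fun n hn => ?_
    have h := mul_nonneg (cf_nonneg l hq hf hn) (one χ ψ s t n)
    refine h.trans_eq ?_
    ring
  · rw [kn_re0, kn_re, kn_re, kn_re, Finset.mul_sum, Finset.mul_sum, Finset.mul_sum,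
      ← Finset.sum_add_distrib, ← Finset.sum_add_distrib, ← Finset.sum_add_distrib]
    refine Finset.sum_nonneg fun n hn => ?_
    have h := mul_nonneg (cf_nonneg l hq hf hn) (two χ t n)
    refine h.trans_eq ?_
    ring
  · simp only [kn_re, kn_re0]
    have e1 : ∑ χ ∈ J, ∑ n ∈ Icc 1 ⌊(q : ℝ) ^ x⌋₊, cf q f l n * (uf χ (t χ) n).re =
        ∑ n ∈ Icc 1 ⌊(q : ℝ) ^ x⌋₊, cf q f l n * ∑ χ ∈ J, (uf χ (t χ) n).re := by
      rw [Finset.sum_comm]
      exact Finset.sum_congr rfl fun n _ => (Finset.mul_sum _ _ _).symm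
    have e2 : ∑ χ ∈ J, ∑ ψ ∈ J, ∑ n ∈ Icc 1 ⌊(q : ℝ) ^ x⌋₊,
          cf q f l n * (uf (χ * ψ⁻¹) (t χ - t ψ) n).re =
        ∑ n ∈ Icc 1 ⌊(q : ℝ) ^ x⌋₊,
          cf q f l n * ∑ χ ∈ J, ∑ ψ ∈ J, (uf (χ * ψ⁻¹) (t χ - t ψ) n).re := by
      simp only [Finset.mul_sum]
      rw [Finset.sum_comm (s := Icc 1 ⌊(q : ℝ) ^ x⌋₊)]
      exact Finset.sum_congr rfl fun χ _ => Finset.sum_comm
    rw [e1, e2, Finset.mul_sum, Finset.mul_sum, ← Finset.sum_add_distrib,
      ← Finset.sum_add_distrib]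
    refine Finset.sum_nonneg fun n hn => ?_
    have h := mul_nonneg (cf_nonneg l hq hf hn) (three J t y n)
    refine h.trans_eq ?_
    ring

open Classical in
theorem d2Of : D2Of := by
  intro hL hP q _ N E f x T lam cE θ nE J z hq hf hK hEN hE1 hsum hnE hc hcost hθ hJ
  set A := Lr f x (-lam) with hA
  set g : Ch q → ℝ := fun χ => Lr f x ((z χ).re - lam) - cE * ((E χ).erase (z χ)).card -
      (f 0 / 8 + e0 + θ * (A + e0) / 2 + (f 0 / 8 + e0) / (2 * θ)) with hg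
  have hreal := (hL f x hf).2.1
  have hsplit : ∑ χ ∈ J, max 0 (g χ) = ∑ χ ∈ J.filter (fun χ => 0 < g χ), g χ := by
    rw [Finset.sum_filter]
    refine Finset.sum_congr rfl fun χ _ => ?_
    split_ifs with h
    · exact max_eq_right h.le
    · exact max_eq_left (not_lt.mp h)
  change ∑ χ ∈ J, max 0 (g χ) ≤ _
  rw [hsplit]
  set J' := J.filter (fun χ => 0 < g χ) with hJ'
  rcases J'.eq_empty_or_nonempty with h0 | ⟨χ₀, hχ₀⟩
  · rw [h0, Finset.sum_empty]; exact le_max_left _ _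
  have hmem : ∀ χ ∈ J', χ ≠ 1 ∧ z χ ∈ N χ ∧ |(z χ).im| ≤ T := fun χ h =>
    hJ χ (Finset.mem_filter.mp h).1
  have hT : 0 ≤ T := (abs_nonneg _).trans (hmem χ₀ hχ₀).2.2
  have hM : (0 : ℝ) < J'.card := by exact_mod_cast Finset.card_pos.mpr ⟨χ₀, hχ₀⟩
  have hcard : ∀ χ, (E χ).card ≤ 2 := fun χ =>
    ((Finset.single_le_sum (f := fun χ => (E χ).card) (fun _ _ => Nat.zero_le _)
      (Finset.mem_univ χ)).trans hsum).trans hnE
  have k0 : (Kn q f x 1 (lam + (0 : ℝ) * I)).re ≤ A + e0 := by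
    have h := hK 1 0 0 (by simp; linarith) (Multiset.zero_le _) hE1.le (by simp)
    unfold Rhs at h
    rw [if_pos rfl] at h
    have e : -((lam : ℂ) + (0 : ℝ) * I) = ((-lam : ℝ) : ℂ) := by simp
    rw [e, hreal, Complex.ofReal_re] at h
    simpa using h
  have k0' : (Kn q f x 1 lam).re ≤ A + e0 := by simpa using k0
  have k1 : ∀ χ ∈ J', (Kn q f x χ (lam + (z χ).im * I)).re ≤
      f 0 / 8 + e0 - (Lr f x ((z χ).re - lam) - cE * ((E χ).erase (z χ)).card) := by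
    intro χ hχ
    obtain ⟨h1, h2, h3⟩ := hmem χ hχ
    have hle : z χ ::ₘ (E χ).erase (z χ) ≤ N χ := by
      by_cases hz : z χ ∈ E χ
      · rw [Multiset.cons_erase hz]; exact hEN χ
      · rw [Multiset.erase_of_notMem hz]
        exact (Multiset.cons_le_of_notMem hz).mpr ⟨h2, hEN χ⟩
    have hc4 : (z χ ::ₘ (E χ).erase (z χ)).card ≤ 4 := by
      have := Multiset.card_le_card (Multiset.erase_le (z χ) (E χ))
      have := hcard χ
      rw [Multiset.card_cons]; omega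
    have h := hK χ (z χ).im _ (by linarith) hle (Multiset.le_cons_erase _ _) hc4
    unfold Rhs at h
    rw [if_neg h1, Multiset.map_cons, Multiset.sum_cons] at h
    have e : z χ - ((lam : ℂ) + (z χ).im * I) = (((z χ).re - lam : ℝ) : ℂ) := by
      apply Complex.ext <;> simp
    rw [e, hreal, Complex.ofReal_re] at h
    have h4 := cost_sum hL hf hc (z χ).im ((E χ).erase (z χ))
      fun ζ hζ => hcost χ ζ (Multiset.mem_of_mem_erase hζ)
    linarith
  have k2 : ∀ χ ∈ J', ∀ ψ ∈ J',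
      (Kn q f x (χ * ψ⁻¹) (lam + ((z χ).im - (z ψ).im : ℝ) * I)).re ≤
        (if χ = ψ then A - f 0 / 8 else 0) + (f 0 / 8 + e0) + cE * (E (χ * ψ⁻¹)).card := by
    intro χ hχ ψ hψ
    by_cases h : χ = ψ
    · subst h
      rw [if_pos rfl, mul_inv_cancel, sub_self, hE1]
      simp only [Multiset.card_zero, Nat.cast_zero, mul_zero]
      linarith
    · have hne : χ * ψ⁻¹ ≠ 1 := fun h' => h (mul_inv_eq_one.mp h')
      have hτ : |(z χ).im - (z ψ).im| ≤ 3 * T := by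
        have := abs_sub (z χ).im (z ψ).im
        have := (hmem χ hχ).2.2
        have := (hmem ψ hψ).2.2
        linarith
      have h1 := hK (χ * ψ⁻¹) _ _ hτ (hEN _) le_rfl ((hcard _).trans (by norm_num))
      unfold Rhs at h1
      rw [if_neg hne] at h1
      have h4 := cost_sum hL hf hc ((z χ).im - (z ψ).im) (E (χ * ψ⁻¹)) (hcost _)
      rw [if_neg h]
      linarith
  have k3 : ∀ χ ∈ J', ∑ ψ ∈ J',
      (Kn q f x (χ * ψ⁻¹) (lam + ((z χ).im - (z ψ).im : ℝ) * I)).re ≤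
        A - f 0 / 8 + J'.card * (f 0 / 8 + e0) + nE * cE := by
    intro χ hχ
    refine (Finset.sum_le_sum fun ψ hψ => k2 χ hχ ψ hψ).trans ?_
    rw [Finset.sum_add_distrib, Finset.sum_add_distrib, Finset.sum_ite_eq, if_pos hχ,
      Finset.sum_const, nsmul_eq_mul, ← Finset.mul_sum]
    have hinj : ∑ ψ ∈ J', (E (χ * ψ⁻¹)).card ≤ nE := by
      refine le_trans ?_ hsum
      rw [← Finset.sum_image (s := J') (g := fun ψ => χ * ψ⁻¹) (f := fun φ => (E φ).card)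
        (fun a _ b _ hab => inv_injective (mul_left_cancel hab))]
      exact Finset.sum_le_sum_of_subset (Finset.subset_univ _)
    have hinj' : ∑ ψ ∈ J', ((E (χ * ψ⁻¹)).card : ℝ) ≤ nE := by exact_mod_cast hinj
    nlinarith
  have hp := (hP q f x lam hq hf.nonneg).2.2 J' (fun χ => (z χ).im) (θ * J'.card)
  have s1 := Finset.sum_le_sum k1
  have s3 := Finset.sum_le_sum k3
  rw [Finset.sum_const, nsmul_eq_mul] at s3
  rw [Finset.sum_sub_distrib, Finset.sum_const, nsmul_eq_mul] at s1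
  have hgs : ∑ χ ∈ J', g χ =
      ∑ χ ∈ J', (Lr f x ((z χ).re - lam) - cE * ((E χ).erase (z χ)).card) -
        J'.card * (f 0 / 8 + e0 + θ * (A + e0) / 2 + (f 0 / 8 + e0) / (2 * θ)) := by
    rw [Finset.sum_sub_distrib, Finset.sum_const, nsmul_eq_mul]
  rw [hgs]
  refine le_trans ?_ (le_max_right _ _)
  set M : ℝ := (J'.card : ℝ)
  set S := ∑ χ ∈ J', (Lr f x ((z χ).re - lam) - cE * ((E χ).erase (z χ)).card)
  have hy : 0 < θ * M := mul_pos hθ hM
  have t0 := mul_le_mul_of_nonneg_left k0' (sq_nonneg (θ * M))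
  have t1 := mul_le_mul_of_nonneg_left s1 (by linarith : 0 ≤ 2 * (θ * M))
  have key : 0 ≤ M * (θ ^ 2 * M * (A + e0) + 2 * θ * (M * (f 0 / 8 + e0) - S) +
      (A - f 0 / 8 + M * (f 0 / 8 + e0) + nE * cE)) := by
    nlinarith
  have key2 := (mul_nonneg_iff_of_pos_left hM).mp key
  rw [le_div_iff₀ (by linarith)]
  have e : (S - M * (f 0 / 8 + e0 + θ * (A + e0) / 2 + (f 0 / 8 + e0) / (2 * θ))) * (2 * θ) =
      2 * θ * S - 2 * θ * M * (f 0 / 8 + e0) - θ ^ 2 * M * (A + e0) - M * (f 0 / 8 + e0) := by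
    field_simp
    ring
  rw [e]
  nlinarith

end Pool.Agent.MP_c5bf7b_nt.H38
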