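import Pool.Agent.MP_c5bf7b_nt.H38.SpecA

/-! The test functions are admissible: transforms of autocorrelations have nonnegative real part
in the right half plane. -/

set_option autoImplicit false

namespace Pool.Agent.MP_c5bf7b_nt.H38

open Complex MeasureTheory intervalIntegral Set

namespace AdmAux

theorem cut (h : ℝ → ℂ) {x s : ℝ} (hs : s ∈ Ioc 0 x) :
    ∫ t in (0 : ℝ)..(x - s), h t = ∫ t in Ioc 0 x, (Iic (x - s)).indicator h t := by
  rw [setIntegral_indicator measurableSet_Iic, integral_of_le (by linarith [hs.2]), Ioc_inter_Iic,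
    min_eq_right (by linarith [hs.1])]

theorem tri_swap (h : ℝ → ℝ → ℂ) (hc : Continuous (Function.uncurry h)) {x : ℝ} (hx : 0 ≤ x) :
    ∫ s in (0 : ℝ)..x, ∫ t in (0 : ℝ)..(x - s), h s t =
      ∫ t in (0 : ℝ)..x, ∫ s in (0 : ℝ)..(x - t), h s t := by
  classical
  rw [integral_of_le hx, integral_of_le hx]
  have hm : MeasurableSet {p : ℝ × ℝ | p.1 + p.2 ≤ x} :=
    (isClosed_le (by fun_prop) continuous_const).measurableSet
  have hi : Integrable (Function.uncurry fun s t =>
      ({p : ℝ × ℝ | p.1 + p.2 ≤ x}).indicator (Function.uncurry h) (s, t))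
      ((volume.restrict (Ioc (0 : ℝ) x)).prod (volume.restrict (Ioc (0 : ℝ) x))) := by
    refine Integrable.indicator ?_ hm
    rw [Measure.prod_restrict]
    exact (hc.continuousOn.integrableOn_compact
      (isCompact_Icc.prod isCompact_Icc : IsCompact (Icc (0 : ℝ) x ×ˢ Icc (0 : ℝ) x))).mono_set
      (prod_mono Ioc_subset_Icc_self Ioc_subset_Icc_self)
  have e := integral_integral_swap hi
  rw [setIntegral_congr_fun measurableSet_Ioc (fun s hs => cut (h s) hs),
    setIntegral_congr_fun measurableSet_Ioc (fun t ht => cut (fun s => h s t) ht)]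
  have e1 : ∀ s t, (Iic (x - s)).indicator (h s) t =
      ({p : ℝ × ℝ | p.1 + p.2 ≤ x}).indicator (Function.uncurry h) (s, t) := fun s t => by
    simp only [indicator, mem_Iic, mem_ofPred_eq, Function.uncurry, le_sub_iff_add_le']
  have e2 : ∀ s t, (Iic (x - t)).indicator (fun s => h s t) s =
      ({p : ℝ × ℝ | p.1 + p.2 ≤ x}).indicator (Function.uncurry h) (s, t) := fun s t => by
    simp only [indicator, mem_Iic, mem_ofPred_eq, Function.uncurry, le_sub_iff_add_le]
  simp only [e1, e2]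
  exact e

theorem autocorr {g f : ℝ → ℝ} (hg : Continuous g) {x c : ℝ} (hx : 0 ≤ x)
    (hf : ∀ t, c * f t = ∫ u in (0 : ℝ)..(x - t), g u * g (u + t)) {z : ℂ} (hz : 0 ≤ z.re) :
    ‖∫ u in (0 : ℝ)..x, (g u : ℂ) * exp (-z * u)‖ ^ 2 ≤ 2 * c * (Lp f x z).re := by
  have hk : Continuous fun u : ℝ => (g u : ℂ) * exp (-z * u) := by fun_prop
  set A : ℝ → ℂ := fun s => ∫ u in s..x, (g u : ℂ) * exp (-z * u) with hA
  have hA' : ∀ s, HasDerivAt A (-((g s : ℂ) * exp (-z * s))) s := fun s =>
    integral_hasDerivAt_left (hk.intervalIntegrable _ _)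
      (hk.stronglyMeasurableAtFilter _ _) hk.continuousAt
  set P : ℝ → ℂ := fun s => exp (z * s) * A s with hP
  have hP' : ∀ s, HasDerivAt P (z * P s - g s) s := fun s => by
    have h1 : HasDerivAt (fun s : ℝ => exp (z * s)) (exp (z * s) * (z * 1)) s :=
      ((hasDerivAt_id (s : ℂ)).const_mul z).cexp.comp_ofReal
    refine (h1.mul (hA' s)).congr_deriv ?_
    have : exp (z * s) * exp (-z * s) = 1 := by rw [← Complex.exp_add]; simp
    simp only [hP]
    linear_combination -(g s : ℂ) * this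
  have hPc : Continuous P := continuous_iff_continuousAt.2 fun s => (hP' s).continuousAt
  have hN : ∀ s, HasDerivAt (fun s => ‖P s‖ ^ 2) (2 * z.re * ‖P s‖ ^ 2 - 2 * (g s * (P s).re)) s :=
    fun s => by
      convert (hP' s).norm_sq using 1
      rw [Complex.sq_norm, normSq_apply, Complex.inner]
      simp
      ring
  have hre : Continuous fun s => g s * (P s).re := hg.mul (continuous_re.comp hPc)
  have hre2 : Continuous fun s => 2 * (g s * (P s).re) := continuous_const.mul hre
  have hn : Continuous fun s => 2 * z.re * ‖P s‖ ^ 2 := by fun_prop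
  have h1 := integral_eq_sub_of_hasDerivAt (a := 0) (b := x) (fun s _ => hN s)
    ((hn.sub hre2).intervalIntegrable _ _)
  rw [intervalIntegral.integral_sub (hn.intervalIntegrable _ _)
    (hre2.intervalIntegrable _ _),
    intervalIntegral.integral_const_mul 2] at h1
  have h2 : 0 ≤ ∫ s in (0 : ℝ)..x, 2 * z.re * ‖P s‖ ^ 2 :=
    integral_nonneg hx fun s _ => by positivity
  have hx0 : P x = 0 := by simp [hP, hA]
  have h00 : P 0 = ∫ u in (0 : ℝ)..x, (g u : ℂ) * exp (-z * u) := by simp [hP, hA]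
  have h3 : ∫ s in (0 : ℝ)..x, (g s : ℂ) * P s = c * Lp f x z := by
    have e1 : ∀ s, (g s : ℂ) * P s =
        ∫ t in (0 : ℝ)..(x - s), ((g s * g (s + t) : ℝ) : ℂ) * exp (-z * t) := fun s => by
      have := integral_comp_add_right (a := 0) (b := x - s)
        (fun u : ℝ => (g u : ℂ) * exp (-z * u)) s
      rw [zero_add, sub_add_cancel] at this
      simp only [hP, hA]
      rw [← this, ← intervalIntegral.integral_const_mul, ← intervalIntegral.integral_const_mul]
      refine integral_congr fun t _ => ?_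
      have e : exp (z * s) * exp (-z * ((t + s : ℝ) : ℂ)) = exp (-z * t) := by
        rw [← Complex.exp_add]; congr 1; push_cast; ring
      simp only [add_comm s t]
      push_cast at e ⊢
      linear_combination (g s : ℂ) * g (t + s) * e
    simp only [e1]
    rw [tri_swap (fun s t => ((g s * g (s + t) : ℝ) : ℂ) * exp (-z * t))
      (by unfold Function.uncurry; fun_prop) hx, Lp, ← intervalIntegral.integral_const_mul]
    refine integral_congr fun t _ => ?_
    rw [intervalIntegral.integral_mul_const, intervalIntegral.integral_ofReal, ← hf]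
    push_cast
    ring
  have h4 : ∫ s in (0 : ℝ)..x, g s * (P s).re = c * (Lp f x z).re := by
    have hc : Continuous fun s => (g s : ℂ) * P s := by fun_prop
    have := reCLM.intervalIntegral_comp_comm (hc.intervalIntegrable (μ := volume) 0 x)
    rw [h3] at this
    simpa using this
  rw [h4, hx0, h00] at h1
  simp only [norm_zero] at h1
  nlinarith

theorem adm_par {x : ℝ} (h0 : 0 < x) (h5 : x ≤ 5) : Adm (par x) x where
  pos := h0
  le := h5
  diff := by unfold par; fun_prop
  nonneg := fun t ht htx => by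
    have h1 : 0 ≤ 1 - t / x := by rw [sub_nonneg, div_le_one h0]; exact htx
    have h2 : 0 ≤ t / x := by positivity
    unfold par
    positivity
  zero := by simp [par, h0.ne']
  re := fun z hz => by
    have h := autocorr (g := fun u => u * (x - u)) (f := par x) (c := x ^ 5 / 30) (by fun_prop)
      h0.le (fun t => ?_) hz
    · have h1 : 0 < 2 * (x ^ 5 / 30) := by positivity
      exact nonneg_of_mul_nonneg_right ((sq_nonneg _).trans h) h1
    · have hd : ∀ u : ℝ, HasDerivAt (fun u : ℝ => u ^ 5 / 5 + (2 * t - 2 * x) * u ^ 4 / 4 +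
          (x * (x - t) - t * (2 * x - t)) * u ^ 3 / 3 + t * x * (x - t) * u ^ 2 / 2)
          (u * (x - u) * ((u + t) * (x - (u + t)))) u := fun u => by
        have h2 := ((((hasDerivAt_pow 5 u).div_const 5).add
          (((hasDerivAt_pow 4 u).const_mul (2 * t - 2 * x)).div_const 4)).add
          (((hasDerivAt_pow 3 u).const_mul (x * (x - t) - t * (2 * x - t))).div_const 3)).add
          (((hasDerivAt_pow 2 u).const_mul (t * x * (x - t))).div_const 2)
        refine h2.congr_deriv ?_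
        push_cast
        ring
      rw [integral_eq_sub_of_hasDerivAt (fun u _ => hd u)
        (Continuous.intervalIntegrable (by fun_prop) _ _)]
      unfold par
      field_simp
      ring

theorem adm_tri : Adm tri (7 / 5) where
  pos := by norm_num
  le := by norm_num
  diff := by unfold tri; fun_prop
  nonneg := fun t _ ht => sub_nonneg.2 ht
  zero := by simp [tri]
  re := fun z hz => by
    have h := autocorr (g := fun _ => 1) (f := tri) (c := 1) (x := 7 / 5) continuous_const
      (by norm_num) (fun t => by simp [tri]) hz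
    nlinarith [sq_nonneg ‖∫ u in (0 : ℝ)..(7 / 5), ((1 : ℝ) : ℂ) * exp (-z * u)‖]

theorem int_exp {a : ℝ} (ha : a ≠ 0) (y : ℝ) :
    ∫ u in (0 : ℝ)..y, Real.exp (a * u) = (Real.exp (a * y) - 1) / a := by
  have hd : ∀ u : ℝ, HasDerivAt (fun u => Real.exp (a * u) / a) (Real.exp (a * u)) u := fun u => by
    refine ((((hasDerivAt_id u).const_mul a).exp).div_const a).congr_deriv ?_
    simp only [id]
    field_simp
  rw [integral_eq_sub_of_hasDerivAt (fun u _ => hd u)
    (Continuous.intervalIntegrable (by fun_prop) _ _)]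
  simp [sub_div]

theorem fB_corr (κ t : ℝ) : 1 / 2 * fB κ t =
    ∫ u in (0 : ℝ)..(1 / 4 - t), Real.exp (-κ * u) * Real.exp (-κ * (u + t)) := by
  unfold fB
  split_ifs with h
  · subst h
    simp
  · have e : ∀ u, Real.exp (-κ * u) * Real.exp (-κ * (u + t)) =
        Real.exp (-κ * t) * Real.exp (-2 * κ * u) := fun u => by
      rw [← Real.exp_add, ← Real.exp_add]; congr 1; ring
    simp only [e]
    rw [intervalIntegral.integral_const_mul, int_exp (by simpa using h)]
    field_simp
    ring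

theorem fB_bound (κ : ℝ) {z : ℂ} (hz : 0 ≤ z.re) :
    ‖∫ u in (0 : ℝ)..(1 / 4), exp (-(z + κ) * u)‖ ^ 2 ≤ (Lp (fB κ) (1 / 4) z).re := by
  have h := autocorr (g := fun u => Real.exp (-κ * u)) (f := fB κ) (c := 1 / 2) (x := 1 / 4)
    (by fun_prop) (by norm_num) (fB_corr κ) hz
  have e : ∀ u : ℝ, ((Real.exp (-κ * u) : ℝ) : ℂ) * exp (-z * u) = exp (-(z + κ) * u) := fun u => by
    rw [ofReal_exp, ← Complex.exp_add]; congr 1; push_cast; ring
  simp only [e] at h
  linarith

theorem adm_fB {κ : ℝ} (hκ : 0 ≤ κ) : Adm (fB κ) (1 / 4) where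
  pos := by norm_num
  le := by norm_num
  diff := by
    unfold fB
    split_ifs <;> fun_prop
  nonneg := fun t _ ht => by
    unfold fB
    split_ifs with h
    · linarith
    · have h1 : Real.exp (-2 * κ * (1 / 4 - t)) ≤ 1 :=
        Real.exp_le_one_iff.2 (by nlinarith)
      exact div_nonneg (mul_nonneg (Real.exp_pos _).le (by linarith)) hκ
  zero := by simp [fB]
  re := fun z hz => (sq_nonneg _).trans (fB_bound κ hz)

theorem fB_val (κ : ℝ) : fB κ 0 / 8 + Lr (fB κ) (1 / 4) (-κ) = Bk κ / 16 := by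
  unfold Lr fB Bk
  split_ifs with h
  · subst h
    have hd : ∀ u : ℝ, HasDerivAt (fun u : ℝ => u / 2 - u ^ 2)
        (2 * (1 / 4 - u) * Real.exp (- -0 * u)) u := fun u => by
      refine (((hasDerivAt_id u).div_const 2).sub (hasDerivAt_pow 2 u)).congr_deriv ?_
      simp
      ring
    rw [integral_eq_sub_of_hasDerivAt (fun u _ => hd u)
      (Continuous.intervalIntegrable (by fun_prop) _ _)]
    norm_num
  · have e : ∀ t, Real.exp (-κ * t) * (1 - Real.exp (-2 * κ * (1 / 4 - t))) / κ *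
        Real.exp (- -κ * t) = 1 / κ - Real.exp (-κ / 2) / κ * Real.exp (2 * κ * t) := fun t => by
      have e1 : Real.exp (-κ * t) * Real.exp (- -κ * t) = 1 := by
        rw [← Real.exp_add]; simp
      have e2 : Real.exp (-2 * κ * (1 / 4 - t)) = Real.exp (-κ / 2) * Real.exp (2 * κ * t) := by
        rw [← Real.exp_add]; congr 1; ring
      rw [e2]
      linear_combination (1 - Real.exp (-κ / 2) * Real.exp (2 * κ * t)) / κ * e1
    simp only [e]
    rw [intervalIntegral.integral_sub (Continuous.intervalIntegrable (by fun_prop) _ _)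
      (Continuous.intervalIntegrable (by fun_prop) _ _), intervalIntegral.integral_const,
      intervalIntegral.integral_const_mul, int_exp (by simpa using h)]
    have e3 : Real.exp (-κ / 2) * Real.exp (2 * κ * (1 / 4)) = 1 := by
      rw [← Real.exp_add, Real.exp_eq_one_iff]; ring
    have e4 : Real.exp (-2 * κ * (1 / 4 - 0)) = Real.exp (-κ / 2) := by congr 1; ring
    rw [e4]
    simp only [mul_zero, Real.exp_zero, smul_eq_mul]
    linear_combination (-1 / (2 * κ ^ 2)) * e3 + (by field_simp; ring :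
      1 * (1 - Real.exp (-κ / 2)) / κ / 8 + ((1 / 4 - 0) * (1 / κ) - Real.exp (-κ / 2) / κ *
        ((Real.exp (2 * κ * (1 / 4)) - 1) / (2 * κ))) -
      (2 * (1 - Real.exp (-κ / 2)) / κ + 8 * (κ / 2 - 1 + Real.exp (-κ / 2)) / κ ^ 2) / 16 -
      (-1 / (2 * κ ^ 2)) * (Real.exp (-κ / 2) * Real.exp (2 * κ * (1 / 4)) - 1) = 0)

theorem H2_eq {ζ : ℂ} (h : ζ ≠ 0) :
    ‖H2 ζ‖ = ‖∫ u in (0 : ℝ)..(1 / 4), exp (-ζ * u)‖ ^ 2 := by
  rw [H2, norm_pow, integral_exp_mul_complex (neg_ne_zero.2 h)]
  congr 2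
  have : -ζ * ((1 / 4 : ℝ) : ℂ) = -ζ / 4 := by push_cast; ring
  rw [this]
  field_simp
  simp

theorem H2_le {ζ : ℂ} (h : 0 < ζ.re) : ‖H2 ζ‖ ≤ 4 / ‖ζ‖ ^ 2 ∧
    ‖H2 ζ‖ ≤ ((1 - Real.exp (-ζ.re / 4)) / ζ.re) ^ 2 := by
  have h0 : ζ ≠ 0 := fun h' => by simp [h'] at h
  constructor
  · rw [H2, norm_pow, norm_div, div_pow]
    have h1 : ‖exp (-ζ / 4)‖ ≤ 1 := by
      rw [Complex.norm_exp, Real.exp_le_one_iff]
      simp
      linarith
    have h2 : ‖1 - exp (-ζ / 4)‖ ≤ 2 := (norm_sub_le _ _).trans (by rw [norm_one]; linarith)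
    gcongr
    nlinarith [norm_nonneg (1 - exp (-ζ / 4))]
  · rw [H2_eq h0]
    refine pow_le_pow_left₀ (norm_nonneg _) ?_ 2
    refine (intervalIntegral.norm_integral_le_integral_norm (by norm_num)).trans (le_of_eq ?_)
    have e : ∀ u : ℝ, ‖exp (-ζ * u)‖ = Real.exp (-ζ.re * u) := fun u => by
      rw [Complex.norm_exp]; simp
    simp only [e]
    rw [int_exp (by simpa using h.ne')]
    have : -ζ.re * (1 / 4) = -ζ.re / 4 := by ring
    rw [this]
    field_simp
    ring

theorem Lp_re (a ν : ℝ) : (Lp tri (7 / 5) (a + ν * I)).re =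
    ∫ t in (0 : ℝ)..(7 / 5), (7 / 5 - t) * Real.exp (-a * t) * Real.cos (ν * t) := by
  have hc : Continuous fun t : ℝ => (tri t : ℂ) * exp (-(a + ν * I) * t) := by
    unfold tri; fun_prop
  have := reCLM.intervalIntegral_comp_comm (hc.intervalIntegrable (μ := volume) 0 (7 / 5))
  rw [reCLM_apply] at this
  rw [Lp, ← this]
  refine integral_congr fun t _ => ?_
  simp only [reCLM_apply, re_ofReal_mul, exp_re, tri]
  simp [mul_assoc]

theorem exp_small {l d t : ℝ} (hl : 0 ≤ l) (hd : 0 ≤ d) (h : l + d ≤ 1 / 2)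
    (ht' : t ≤ 7 / 5) : 4 * Real.exp (l * t) ≤ 9 * Real.exp (-d * t) := by
  have h1 : Real.exp (l * t) = Real.exp (-d * t) * Real.exp ((l + d) * t) := by
    rw [← Real.exp_add]; congr 1; ring
  have h2 : Real.exp ((l + d) * t) ≤ Real.exp (7 / 10) := Real.exp_le_exp.2 (by nlinarith)
  have h3 : Real.exp (7 / 10) ≤ 9 / 4 := by
    have := Real.exp_bound' (x := 7 / 10) (by norm_num) (by norm_num) (n := 3) (by norm_num)
    refine this.trans ?_
    simp [Finset.sum_range_succ, Nat.factorial]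
    norm_num
  rw [h1]
  nlinarith [Real.exp_pos (-d * t)]

theorem polya {l d : ℝ} (ν : ℝ) (hl : 0 ≤ l) (hd : 0 ≤ d) (h : l + d ≤ 1 / 2) :
    0 ≤ ∫ t in (0 : ℝ)..(7 / 5),
      (7 / 5 - t) * (9 * Real.exp (-d * t) - 4 * Real.exp (l * t)) * Real.cos (ν * t) := by
  by_cases hν : ν = 0
  · subst hν
    refine integral_nonneg (by norm_num) fun t ht => ?_
    have := exp_small hl hd h ht.2
    simp only [zero_mul, Real.cos_zero, mul_one]
    exact mul_nonneg (sub_nonneg.2 ht.2) (by linarith)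
  set ψ : ℝ → ℝ := fun t => (7 / 5 - t) * (9 * Real.exp (-d * t) - 4 * Real.exp (l * t)) with hψ
  set ψ₁ : ℝ → ℝ := fun t => -(9 * Real.exp (-d * t) - 4 * Real.exp (l * t)) -
    (7 / 5 - t) * (9 * d * Real.exp (-d * t) + 4 * l * Real.exp (l * t)) with hψ₁
  set ψ₂ : ℝ → ℝ := fun t => 2 * (9 * d * Real.exp (-d * t) + 4 * l * Real.exp (l * t)) +
    (7 / 5 - t) * (9 * d ^ 2 * Real.exp (-d * t) - 4 * l ^ 2 * Real.exp (l * t)) with hψ₂
  have e1 : ∀ t, HasDerivAt (fun t => Real.exp (-d * t)) (Real.exp (-d * t) * (-d * 1)) t :=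
    fun t => ((hasDerivAt_id t).const_mul (-d)).exp
  have e2 : ∀ t, HasDerivAt (fun t => Real.exp (l * t)) (Real.exp (l * t) * (l * 1)) t :=
    fun t => ((hasDerivAt_id t).const_mul l).exp
  have e3 : ∀ t : ℝ, HasDerivAt (fun t : ℝ => 7 / 5 - t) (-1) t :=
    fun t => (hasDerivAt_id t).const_sub _
  have d1 : ∀ t, HasDerivAt ψ (ψ₁ t) t := fun t => by
    refine ((e3 t).mul (((e1 t).const_mul 9).sub ((e2 t).const_mul 4))).congr_deriv ?_
    simp only [hψ₁, Pi.sub_apply]
    ring
  have d2 : ∀ t, HasDerivAt ψ₁ (ψ₂ t) t := fun t => by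
    refine ((((e1 t).const_mul 9).sub ((e2 t).const_mul 4)).neg.sub
      ((e3 t).mul (((e1 t).const_mul (9 * d)).add ((e2 t).const_mul (4 * l))))).congr_deriv ?_
    simp only [hψ₂, Pi.add_apply]
    ring
  have d3 : ∀ t, HasDerivAt (fun t => ν * ψ t * Real.sin (ν * t) - ψ₁ t * (1 - Real.cos (ν * t)))
      (ν ^ 2 * (ψ t * Real.cos (ν * t)) - ψ₂ t * (1 - Real.cos (ν * t))) t := fun t => by
    have s1 := ((hasDerivAt_id t).const_mul ν).sin
    have c1 := (((hasDerivAt_id t).const_mul ν).cos).const_sub 1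
    refine ((((d1 t).const_mul ν).mul s1).sub ((d2 t).mul c1)).congr_deriv ?_
    simp only [id]
    ring
  have c1 : Continuous fun t => ν ^ 2 * (ψ t * Real.cos (ν * t)) := by
    simp only [hψ]; fun_prop
  have c2 : Continuous fun t => ψ₂ t * (1 - Real.cos (ν * t)) := by
    simp only [hψ₂]; fun_prop
  have h1 := integral_eq_sub_of_hasDerivAt (a := 0) (b := 7 / 5) (fun t _ => d3 t)
    ((c1.sub c2).intervalIntegrable _ _)
  rw [intervalIntegral.integral_sub (c1.intervalIntegrable _ _) (c2.intervalIntegrable _ _),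
    intervalIntegral.integral_const_mul] at h1
  have h2 : 0 ≤ ∫ t in (0 : ℝ)..(7 / 5), ψ₂ t * (1 - Real.cos (ν * t)) := by
    refine integral_nonneg (by norm_num) fun t ht => ?_
    refine mul_nonneg ?_ (sub_nonneg.2 (Real.cos_le_one _))
    have p1 := Real.exp_pos (-d * t)
    have p2 := Real.exp_pos (l * t)
    have p3 : 0 ≤ 7 / 5 - t := sub_nonneg.2 ht.2
    have p4 : 0 ≤ 2 - l * (7 / 5 - t) := by nlinarith [ht.1]
    have : ψ₂ t = 18 * d * Real.exp (-d * t) + (7 / 5 - t) * (9 * d ^ 2 * Real.exp (-d * t)) +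
        4 * l * Real.exp (l * t) * (2 - l * (7 / 5 - t)) := by
      simp only [hψ₂]; ring
    rw [this]
    positivity
  have h3 : ψ (7 / 5) = 0 := by simp [hψ]
  have h4 : ψ₁ (7 / 5) ≤ 0 := by
    have := exp_small hl hd h (t := 7 / 5) le_rfl
    simp only [hψ₁, sub_self, zero_mul, sub_zero]
    linarith
  have h5 : 0 ≤ 1 - Real.cos (ν * (7 / 5)) := sub_nonneg.2 (Real.cos_le_one _)
  simp only [h3, mul_zero, zero_mul, Real.sin_zero, Real.cos_zero, sub_self] at h1
  have h6 : 0 < ν ^ 2 := by positivity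
  refine nonneg_of_mul_nonneg_right ?_ h6
  nlinarith [mul_nonneg (neg_nonneg.2 h4) h5]

end AdmAux

theorem adm : AdmS := by
  refine ⟨fun x => AdmAux.adm_par, AdmAux.adm_tri, fun κ hκ => ⟨AdmAux.adm_fB hκ, AdmAux.fB_val κ,
    fun ζ h0 h => ?_⟩, fun ζ => AdmAux.H2_le, fun l d ν hl hd h => ?_⟩
  · have := AdmAux.fB_bound κ (z := ζ - κ) (by simpa using h)
    rwa [sub_add_cancel, ← AdmAux.H2_eq h0] at this
  · have h1 := AdmAux.polya ν hl hd h
    rw [← ofReal_neg, AdmAux.Lp_re, AdmAux.Lp_re, ← intervalIntegral.integral_const_mul,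
      ← intervalIntegral.integral_const_mul, ← sub_nonneg, ← intervalIntegral.integral_sub
      (Continuous.intervalIntegrable (by fun_prop) _ _)
      (Continuous.intervalIntegrable (by fun_prop) _ _)]
    refine h1.trans (le_of_eq (integral_congr fun t _ => ?_))
    simp only [neg_neg]
    ring

end Pool.Agent.MP_c5bf7b_nt.H38
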