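import Pool.Agent.MP_c5bf7b_nt.H38.SpecC

/-! The choice of the window and the basic inequality on a line. -/

set_option autoImplicit false

namespace Pool.Agent.MP_c5bf7b_nt.H38

open Finset Complex

namespace WinR

theorem mem_EE {q : ℕ} (χ₁ : Ch q) (ζ₁ : ℂ) (χ : Ch q) (ρ : ℂ) :
    ρ ∈ EE χ₁ ζ₁ χ ↔ (χ = χ₁ ∧ ρ = ζ₁) ∨ (χ = χ₁⁻¹ ∧ ρ = (starRingEnd ℂ) ζ₁) := by
  unfold EE
  rw [Multiset.mem_add]
  constructor
  · rintro (h | h)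
    · split_ifs at h with h1
      · exact Or.inl ⟨h1, by simpa using h⟩
      · simp at h
    · split_ifs at h with h1
      · exact Or.inr ⟨h1.1, by simpa using h⟩
      · simp at h
  · rintro (⟨h1, h2⟩ | ⟨h1, h2⟩)
    · left
      rw [if_pos h1, h2]
      simp
    · by_cases h3 : χ₁ = χ₁⁻¹ ∧ ζ₁.im = 0
      · left
        rw [if_pos (h1.trans h3.1.symm), h2, Complex.conj_eq_iff_im.2 h3.2]
        simp
      · right
        rw [if_pos ⟨h1, h3⟩, h2]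
        simp

theorem nodup_EE {q : ℕ} (χ₁ : Ch q) (ζ₁ : ℂ) (χ : Ch q) : (EE χ₁ ζ₁ χ).Nodup := by
  unfold EE
  split_ifs with h1 h2 h2
  · have h3 : ζ₁.im ≠ 0 := fun h => h2.2 ⟨h1.symm.trans h2.1, h⟩
    have h4 : ζ₁ ≠ (starRingEnd ℂ) ζ₁ := fun h => h3 (Complex.conj_eq_iff_im.1 h.symm)
    simpa using h4
  · simp
  · simp
  · simp

theorem re_EE {q : ℕ} {χ₁ : Ch q} {ζ₁ : ℂ} {χ : Ch q} {ρ : ℂ} (h : ρ ∈ EE χ₁ ζ₁ χ) :
    ρ.re = ζ₁.re := by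
  rcases (mem_EE _ _ _ _).1 h with ⟨-, rfl⟩ | ⟨-, rfl⟩ <;> simp

theorem trans_EE {q : ℕ} {χ' χ₁ χ : Ch q} {ζ' ζ₁ ρ : ℂ} (h : ζ₁ ∈ EE χ' ζ' χ₁)
    (h' : ρ ∈ EE χ' ζ' χ) : ρ ∈ EE χ₁ ζ₁ χ := by
  rw [mem_EE] at h h' ⊢
  rcases h with ⟨rfl, rfl⟩ | ⟨rfl, rfl⟩
  · exact h'
  · rw [inv_inv, Complex.conj_conj]
    exact h'.symm

theorem exmin {q : ℕ} [NeZero q] (M : Ch q → Multiset ℂ) (T Lm : ℝ) :
    ∃ m ≤ Lm, (∀ χ, ∀ ζ ∈ M χ, |ζ.im| ≤ T → m ≤ ζ.re) ∧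
      (m = Lm ∨ ∃ χ, ∃ ζ ∈ M χ, |ζ.im| ≤ T ∧ ζ.re = m) := by
  classical
  by_cases h : ∃ χ, ∃ ζ ∈ M χ, |ζ.im| ≤ T ∧ ζ.re ≤ Lm
  · obtain ⟨χ, ζ, h1, h2, h3⟩ := h
    have hmem : ∀ z, z ∈ ((univ : Finset (Ch q)).biUnion fun χ => (M χ).toFinset).filter
        (fun ζ => |ζ.im| ≤ T) ↔ (∃ χ, z ∈ M χ) ∧ |z.im| ≤ T := by
      intro z
      simp
    obtain ⟨z, hz, hz'⟩ := Finset.exists_min_image _ (fun ζ : ℂ => ζ.re)
      ⟨ζ, (hmem ζ).2 ⟨⟨χ, h1⟩, h2⟩⟩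
    obtain ⟨⟨ψ, k1⟩, k2⟩ := (hmem z).1 hz
    exact ⟨z.re, (hz' ζ ((hmem ζ).2 ⟨⟨χ, h1⟩, h2⟩)).trans h3,
      fun χ ζ a b => hz' ζ ((hmem ζ).2 ⟨⟨χ, a⟩, b⟩), Or.inr ⟨ψ, z, k1, k2, rfl⟩⟩
  · push Not at h
    exact ⟨Lm, le_rfl, fun χ ζ a b => (h χ ζ a b).le, Or.inl rfl⟩

open Classical in
/-- the data of one window -/
structure Dat {q : ℕ} (N : Ch q → Multiset ℂ) (Lm T l₁ l₂ : ℝ) (E : Ch q → Multiset ℂ) : Prop where
  h1 : ∀ χ, ∀ ζ ∈ N χ, |ζ.im| ≤ T → l₁ ≤ ζ.re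
  h2 : ∀ χ, ∀ ζ ∈ N χ - E χ, |ζ.im| ≤ T → l₂ ≤ ζ.re
  l12 : l₁ ≤ l₂
  l2 : l₂ ≤ Lm
  two : l₂ = Lm ∨ ∃ χ, ∃ ζ ∈ N χ - E χ, |ζ.im| ≤ T ∧ ζ.re = l₂
  one : (E = 0 ∧ l₁ = Lm) ∨ ∃ χ₁ ζ₁, ζ₁ ∈ N χ₁ ∧ |ζ₁.im| ≤ T ∧ ζ₁.re = l₁ ∧ E = EE χ₁ ζ₁

theorem exdat {q : ℕ} [NeZero q] (N : Ch q → Multiset ℂ) (Lm T : ℝ) :
    ∃ l₁ l₂ E, Dat N Lm T l₁ l₂ E := by
  obtain ⟨m, h0, h1, h2 | ⟨χ, ζ, h2, h3, h4⟩⟩ := exmin N T Lm
  · subst h2
    exact ⟨m, m, 0, h1, fun χ ζ h => h1 χ ζ (by simpa using h), le_rfl, le_rfl, Or.inl rfl,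
      Or.inl ⟨rfl, rfl⟩⟩
  · obtain ⟨m', k0, k1, k2⟩ := exmin (fun ψ => N ψ - EE χ ζ ψ) T Lm
    refine ⟨m, m', EE χ ζ, h1, k1, ?_, k0, k2, Or.inr ⟨χ, ζ, h2, h3, h4, rfl⟩⟩
    rcases k2 with k2 | ⟨ψ, z, k2, k3, k4⟩
    · exact k2 ▸ h0
    · exact k4 ▸ h1 ψ z (Multiset.mem_of_le (Multiset.sub_le_self _ _) k2) k3

theorem Dat.nodup {q : ℕ} {N E : Ch q → Multiset ℂ} {Lm T l₁ l₂ : ℝ} (h : Dat N Lm T l₁ l₂ E)
    (χ : Ch q) : (E χ).Nodup := by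
  rcases h.one with ⟨rfl, -⟩ | ⟨χ₁, ζ₁, -, -, -, rfl⟩
  · simp
  · exact nodup_EE _ _ _

theorem Dat.re {q : ℕ} {N E : Ch q → Multiset ℂ} {Lm T l₁ l₂ : ℝ} (h : Dat N Lm T l₁ l₂ E)
    {χ : Ch q} {ρ : ℂ} (hρ : ρ ∈ E χ) : ρ.re = l₁ := by
  rcases h.one with ⟨rfl, -⟩ | ⟨χ₁, ζ₁, -, -, h3, rfl⟩
  · simp at hρ
  · rw [re_EE hρ, h3]

theorem mem_sub_of {s t : Multiset ℂ} {a : ℂ} (h : a ∈ s) (h' : a ∉ t) : a ∈ s - t := by
  rw [Multiset.mem_sub, Multiset.count_eq_zero.2 h']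
  exact Multiset.count_pos.2 h

theorem step {q : ℕ} {N E E' : Ch q → Multiset ℂ} {Lm T T' l₁ l₂ l₁' l₂' c : ℝ}
    (h : Dat N Lm T l₁ l₂ E) (h' : Dat N Lm T' l₁' l₂' E') (hT : T ≤ T')
    (hc : l₁ + l₂ ≤ l₁' + l₂' + c) {χ : Ch q} {ρ : ℂ} (hρ : ρ ∈ N χ - E χ) (hi : |ρ.im| ≤ T') :
    l₂ - c ≤ ρ.re := by
  by_cases hm : ρ ∈ N χ - E' χ
  · have h1 := h'.h2 χ ρ hm hi
    have h2 : l₁' ≤ l₁ := by
      rcases h.one with ⟨-, k⟩ | ⟨χ₁, ζ₁, k1, k2, k3, -⟩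
      · linarith [h'.l12, h'.l2]
      · exact k3 ▸ h'.h1 χ₁ ζ₁ k1 (k2.trans hT)
    linarith
  · rw [Multiset.mem_sub] at hm hρ
    have h1 := Multiset.nodup_iff_count_le_one.1 (h'.nodup χ) ρ
    have h2 : ρ ∈ E' χ := Multiset.count_pos.1 (by omega)
    have h3 : ρ ∉ E χ := Multiset.count_eq_zero.1 (by omega)
    have h4 := h'.re h2
    have h5 : l₂' ≤ l₁ := by
      rcases h.one with ⟨-, k⟩ | ⟨χ₁, ζ₁, k1, k2, k3, k4⟩
      · linarith [h'.l2]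
      · refine k3 ▸ h'.h2 χ₁ ζ₁ (mem_sub_of k1 fun k5 => ?_) (k2.trans hT)
        rcases h'.one with ⟨k6, -⟩ | ⟨χ', ζ', -, -, -, k6⟩
        · simp [k6] at k5
        · rw [k6] at k5 h2
          exact h3 (k4 ▸ trans_EE k5 h2)
    linarith

end WinR

open WinR in
theorem win : WinS := by
  intro q _ N Lm l hL hl hN
  choose l₁ l₂ E hd using fun j : ℕ => exdat N Lm (10 ^ j * l)
  have hpos : ∀ j, 0 ≤ l₁ j := by
    intro j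
    rcases (hd j).one with ⟨-, k⟩ | ⟨χ₁, ζ₁, k1, -, k3, -⟩
    · linarith
    · exact k3 ▸ (hN χ₁ ζ₁ k1).1.le
  obtain ⟨j, hj, hmin⟩ := Finset.exists_min_image (range (⌊2000 * Lm⌋₊ + 1))
    (fun j => l₁ j + l₂ j + c0 * j) ⟨0, by simp⟩
  have hj' : (j : ℝ) ≤ 2000 * Lm :=
    (Nat.le_floor_iff (by positivity)).1 (Nat.lt_succ_iff.1 (mem_range.1 hj))
  have hall : ∀ i : ℕ, l₁ j + l₂ j + c0 * j ≤ l₁ i + l₂ i + c0 * i := by
    intro i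
    by_cases hi : i ∈ range (⌊2000 * Lm⌋₊ + 1)
    · exact hmin i hi
    · have h0 := hmin 0 (by simp)
      have h1 : ⌊2000 * Lm⌋₊ + 1 ≤ i := by simpa using hi
      have h2 : ((⌊2000 * Lm⌋₊ : ℝ) + 1) ≤ i := by exact_mod_cast h1
      have h3 := Nat.lt_floor_add_one (2000 * Lm)
      have h4 := hpos i
      have h5 := (hd i).l12
      have h6 := (hd 0).l12
      have h7 := (hd 0).l2
      simp only [c0, Nat.cast_zero, mul_zero, add_zero] at h0 ⊢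
      linarith
  have h10 : ∀ k : ℕ, (1 : ℝ) ≤ 10 ^ k := fun k => one_le_pow₀ (by norm_num)
  have far : Far N (E j) (10 ^ j * l) (l₂ j) := by
    intro χ ζ hζ k hk
    refine step (hd j) (hd (j + k)) ?_ ?_ hζ ?_
    · rw [pow_add]
      have := h10 k
      have h2 : (0 : ℝ) < 10 ^ j * l := by positivity
      nlinarith
    · have := hall (j + k)
      push_cast at this
      linarith
    · rw [pow_add]
      linarith
  refine ⟨10 ^ j * l, by nlinarith [h10 j], ?_, ?_⟩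
  · refine mul_le_mul_of_nonneg_right ?_ hl.le
    rw [← Real.rpow_natCast]
    exact Real.rpow_le_rpow_of_exponent_le (by norm_num) hj'
  · rcases (hd j).one with ⟨k1, k2⟩ | ⟨χ₁, ζ₁, k1, k2, k3, k4⟩
    · left
      have : l₂ j = Lm := le_antisymm (hd j).l2 (k2 ▸ (hd j).l12)
      rwa [k1, this] at far
    · right
      refine ⟨l₁ j, l₂ j, χ₁, ζ₁, fun χ => ?_, k2, k3, (hd j).l12, (hd j).l2, k4 ▸ far, ?_,
        k4 ▸ (hd j).two⟩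
      · refine (Multiset.le_iff_subset (nodup_EE _ _ _)).2 fun ρ hρ => ?_
        rcases (mem_EE _ _ _ _).1 hρ with ⟨rfl, rfl⟩ | ⟨rfl, rfl⟩
        · exact k1
        · exact (hN χ₁ ζ₁ k1).2
      · intro χ ζ hζ k hk
        have hc : 0 ≤ c0 * k := by unfold c0; positivity
        by_cases hm : ζ ∈ E j χ
        · rw [(hd j).re hm]
          linarith
        · have := far χ ζ (mem_sub_of (by simpa using hζ) hm) k hk
          linarith [(hd j).l12]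

theorem kw : KwS := by
  intro q N E f x Lm Th T l hq hK hpos hF hT hTh hl hLm χ τ Y hτ hY hE hc
  have hL : 0 < Real.log q := Real.log_pos (by exact_mod_cast hq)
  have hre : (((max (l - c0) 0 : ℝ) : ℂ) + τ * I).re = max (l - c0) 0 := by simp
  have him : (((max (l - c0) 0 : ℝ) : ℂ) + τ * I).im = τ := by simp
  have hc0 : (0 : ℝ) < c0 := by unfold c0; norm_num
  have hlam : max (l - c0) 0 ≤ l := max_le (by linarith) hl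
  refine hK χ _ Y hY hc (by rw [hre]; exact le_max_right _ _) (by rw [hre]; linarith)
    (by rw [him]; linarith) fun ζ hζ => ?_
  have hζ' : ζ ∈ N χ - E χ := Multiset.mem_of_le (tsub_le_tsub_left hE _) hζ
  have hζN : ζ ∈ N χ := Multiset.mem_of_le (Multiset.sub_le_self _ _) hζ
  have htri : |ζ.im| ≤ |ζ.im - τ| + |τ| := by simpa using abs_add_le (ζ.im - τ) τ
  unfold Hp
  rw [hre, him]
  refine ⟨fun h => max_le ?_ (hpos χ ζ hζN).le, ?_⟩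
  · have := hF χ ζ hζ' 1 (by rw [pow_one]; linarith)
    simpa using this
  · set u := 1 + |ζ.im - τ| / Real.log q with hu
    have hD : 0 ≤ |ζ.im - τ| / Real.log q := by positivity
    have hu1 : 1 ≤ u := by linarith
    have hlu : 0 ≤ Real.log u := Real.log_nonneg hu1
    have h1 : u ≤ 10 ^ ⌈Real.log u⌉₊ := by
      calc u = Real.exp (Real.log u) := (Real.exp_log (by linarith)).symm
        _ ≤ Real.exp (⌈Real.log u⌉₊ * 1) := by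
          rw [mul_one]; exact Real.exp_le_exp.2 (Nat.le_ceil _)
        _ = Real.exp 1 ^ ⌈Real.log u⌉₊ := Real.exp_nat_mul _ _
        _ ≤ 10 ^ ⌈Real.log u⌉₊ :=
          pow_le_pow_left₀ (Real.exp_pos _).le (by linarith [Real.exp_one_lt_d9]) _
    have h2 : |ζ.im - τ| ≤ (u - 1) * T := by
      have e : |ζ.im - τ| = |ζ.im - τ| / Real.log q * Real.log q := by field_simp
      rw [hu, add_sub_cancel_left]
      exact e.le.trans (mul_le_mul_of_nonneg_left hT hD)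
    have hT0 : 0 < T := hL.trans_le hT
    have h3 := hF χ ζ hζ' (⌈Real.log u⌉₊ + 1) (by
      rw [pow_succ]
      have := mul_le_mul_of_nonneg_right h1 hT0.le
      have := mul_le_mul_of_nonneg_right hu1 hT0.le
      linarith)
    have h4 := Nat.ceil_lt_add_one hlu
    simp only [c0] at h3
    push_cast at h3
    linarith

end Pool.Agent.MP_c5bf7b_nt.H38
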