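import Pool.Agent.MP_c5bf7b_nt.H38.SpecC

/-! The inequalities between the first two zeros. -/

set_option autoImplicit false

namespace Pool.Agent.MP_c5bf7b_nt.H38

open Finset Complex

namespace LsK

/-- real part of the transform -/
noncomputable def G (f : ℝ → ℝ) (x a ν : ℝ) : ℝ := (Lp f x (a + ν * I)).re

/-- real part of the prime sum -/
noncomputable def K (q : ℕ) (f : ℝ → ℝ) (x lam : ℝ) (χ : Ch q) (τ : ℝ) : ℝ :=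
  (Kn q f x χ (lam + τ * I)).re

open Classical in
structure Ctx (q : ℕ) (N E : Ch q → Multiset ℂ) (f : ℝ → ℝ) (x T lam l₁ l₂ : ℝ) : Prop where
  kw : ∀ (χ : Ch q) (τ : ℝ) (Y : Multiset ℂ), |τ| ≤ 3 * T → Y ≤ N χ → E χ ≤ Y → Y.card ≤ 4 →
    K q f x lam χ τ ≤ (if χ = 1 then G f x (-lam) (-τ) else 1 / 8) -
      (Y.map fun ζ => G f x (ζ.re - lam) (ζ.im - τ)).sum + e0
  ps : ∀ (χ ψ : Ch q) (s t : ℝ), 0 ≤ K q f x lam 1 0 + K q f x lam χ s + K q f x lam ψ t +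
    K q f x lam (ψ * χ) (t + s) / 2 + K q f x lam (ψ * χ⁻¹) (t - s) / 2
  le : ∀ χ, E χ ≤ N χ
  one : E 1 = 0
  re : ∀ χ, ∀ ζ ∈ E χ, ζ.re = l₁
  g0 : ∀ a, G f x a 0 = Lr f x a
  cost : ∀ ν, -G f x (l₁ - lam) ν ≤ Lr f x (l₁ - lam) - Lr f x (l₂ - lam)
  pair : ∀ ν, G f x (-lam) ν - G f x (l₁ - lam) ν ≤ Lr f x (-lam) - Lr f x (l₁ - lam)
  c : Lr f x (l₂ - lam) ≤ Lr f x (l₁ - lam)
  a : Lr f x (-lam) ≤ Lr f x (-l₂)
  a1 : Lr f x (-lam) - Lr f x (l₁ - lam) ≤ Lr f x (-l₂) - Lr f x (l₁ - l₂)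
  d : Lr f x c0 ≤ Lr f x (l₂ - lam)
  t : 0 ≤ T

theorem mk_ctx (hL : LpS) (hP : PosS) {q : ℕ} [NeZero q] {N E : Ch q → Multiset ℂ} {f : ℝ → ℝ}
    {x T l₁ l₂ : ℝ} (hq : 2 ≤ q) (hf : Adm f x) (h0 : f 0 = 1)
    (hK : KW q N E f x T (max (l₂ - c0) 0)) (hle : ∀ χ, E χ ≤ N χ) (h1 : E 1 = 0)
    (hre : ∀ χ, ∀ ζ ∈ E χ, ζ.re = l₁) (hl : 0 ≤ l₁) (h12 : l₁ ≤ l₂) (hT : 0 ≤ T) :
    Ctx q N E f x T (max (l₂ - c0) 0) l₁ l₂ := by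
  obtain ⟨-, k0, k1, -, k2, k3⟩ := hL f x hf
  have hc : (0 : ℝ) ≤ c0 := by unfold c0; norm_num
  set lam := max (l₂ - c0) 0 with hlam
  have m0 : 0 ≤ lam := le_max_right _ _
  have m1 : l₂ - c0 ≤ lam := le_max_left _ _
  have m2 : lam ≤ l₂ := max_le (by linarith) (by linarith)
  have hd : ∀ a b ν : ℝ, a ≤ b → |G f x a ν - G f x b ν| ≤ Lr f x a - Lr f x b := by
    intro a b ν hab
    refine le_trans ?_ (k2 a b ν hab)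
    unfold G
    rw [← sub_re]
    exact abs_re_le_norm _
  refine ⟨fun χ τ Y hτ hY hE hc => ?_, fun χ ψ s t => ?_, hle, h1, hre, fun a => ?_, fun ν => ?_,
    fun ν => ?_, k1 (by linarith), k1 (by linarith), k3 lam l₂ l₁ l₁ m2 hl le_rfl,
    k1 (by linarith), hT⟩
  · have h := hK χ τ Y hτ hY hE hc
    unfold Rhs at h
    have e1 : -((lam : ℂ) + τ * I) = ((-lam : ℝ) : ℂ) + ((-τ : ℝ) : ℂ) * I := by
      push_cast; ring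
    have e2 : ∀ ζ : ℂ, ζ - ((lam : ℂ) + τ * I) =
        ((ζ.re - lam : ℝ) : ℂ) + ((ζ.im - τ : ℝ) : ℂ) * I := fun ζ => by
      apply Complex.ext <;> simp
    rw [e1, h0] at h
    simp only [e2] at h
    exact h
  · have h := (hP q f x lam hq hf.nonneg).1 χ ψ s t
    unfold K
    have e : (lam : ℂ) + ((0 : ℝ) : ℂ) * I = lam := by simp
    rw [e]
    exact h
  · unfold G
    have e : (a : ℂ) + ((0 : ℝ) : ℂ) * I = a := by simp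
    rw [e, k0, ofReal_re]
  · have h := (abs_le.1 (hd (l₁ - lam) (l₂ - lam) ν (by linarith))).1
    have h' : 0 ≤ G f x (l₂ - lam) ν := hf.re _ (by simpa using m2)
    linarith
  · exact (abs_le.1 (hd (-lam) (l₁ - lam) ν (by linarith))).2

variable {q : ℕ} {N E : Ch q → Multiset ℂ} {f : ℝ → ℝ} {x T lam l₁ l₂ : ℝ}

theorem Ctx.t1 (h : Ctx q N E f x T lam l₁ l₂) {s : ℝ} (hs : |s| ≤ T) : |s| ≤ 3 * T := by
  linarith [h.t]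

theorem Ctx.t2 (h : Ctx q N E f x T lam l₁ l₂) {s t : ℝ} (hs : |s| ≤ T) (ht : |t| ≤ T) :
    |t + s| ≤ 3 * T := by
  linarith [h.t, abs_add_le t s]

theorem Ctx.t3 (h : Ctx q N E f x T lam l₁ l₂) {s t : ℝ} (hs : |s| ≤ T) (ht : |t| ≤ T) :
    |t - s| ≤ 3 * T := by
  linarith [h.t, abs_sub t s]

/-- the principal character -/
theorem Ctx.k1 (h : Ctx q N E f x T lam l₁ l₂) {τ : ℝ} (hτ : |τ| ≤ 3 * T) :
    K q f x lam 1 τ ≤ G f x (-lam) (-τ) + e0 := by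
  simpa using h.kw 1 τ 0 hτ (Multiset.zero_le _) (by rw [h.one]) (by simp)

theorem Ctx.k10 (h : Ctx q N E f x T lam l₁ l₂) : K q f x lam 1 0 ≤ Lr f x (-lam) + e0 := by
  have := h.k1 (τ := 0) (by simpa using h.t)
  rwa [neg_zero, h.g0] at this

/-- no extremal zero -/
theorem Ctx.kz (h : Ctx q N E f x T lam l₁ l₂) {χ : Ch q} (hχ : χ ≠ 1) (hE : E χ = 0) {τ : ℝ}
    (hτ : |τ| ≤ 3 * T) : K q f x lam χ τ ≤ 1 / 8 + e0 := by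
  simpa [hχ] using h.kw χ τ 0 hτ (Multiset.zero_le _) (by rw [hE]) (by simp)

/-- one extremal zero -/
theorem Ctx.ks (h : Ctx q N E f x T lam l₁ l₂) {χ : Ch q} (hχ : χ ≠ 1) {ζ : ℂ} (hE : E χ = {ζ})
    {τ : ℝ} (hτ : |τ| ≤ 3 * T) :
    K q f x lam χ τ ≤ 1 / 8 - G f x (l₁ - lam) (ζ.im - τ) + e0 := by
  have h1 := h.re χ ζ (by simp [hE])
  simpa [hχ, h1] using h.kw χ τ {ζ} hτ (hE ▸ h.le χ) (by rw [hE]) (by simp)

/-- at most one extremal zero -/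
theorem Ctx.kc (h : Ctx q N E f x T lam l₁ l₂) {χ : Ch q} (hχ : χ ≠ 1) (hE : (E χ).card ≤ 1)
    {τ : ℝ} (hτ : |τ| ≤ 3 * T) :
    K q f x lam χ τ ≤ 1 / 8 + (Lr f x (l₁ - lam) - Lr f x (l₂ - lam)) + e0 := by
  rcases Nat.le_one_iff_eq_zero_or_eq_one.1 hE with h0 | h0
  · linarith [h.kz hχ (Multiset.card_eq_zero.1 h0) hτ, h.c]
  · obtain ⟨ζ, hζ⟩ := Multiset.card_eq_one.1 h0
    linarith [h.ks hχ hζ hτ, h.cost (ζ.im - τ)]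

open Classical in
theorem cons_le {A B : Multiset ℂ} {z : ℂ} (h : A ≤ B) (hz : z ∈ B - A) : z ::ₘ A ≤ B := by
  have h1 : {z} ≤ B - A := Multiset.singleton_le.2 hz
  have h2 : {z} + A ≤ B := (le_tsub_iff_right h).1 h1
  rwa [Multiset.singleton_add] at h2

open Classical in
/-- the term of the second zero -/
theorem Ctx.k2 (h : Ctx q N E f x T lam l₁ l₂) {χ : Ch q} {z : ℂ} (hz : z ∈ N χ - E χ)
    (hi : |z.im| ≤ T) (hr : z.re = l₂) (hE : (E χ).card ≤ 3) :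
    K q f x lam χ z.im ≤ (if χ = 1 then G f x (-lam) (-z.im) else 1 / 8) - Lr f x (l₂ - lam) -
      ((E χ).map fun ζ => G f x (l₁ - lam) (ζ.im - z.im)).sum + e0 := by
  have h1 := h.kw χ z.im (z ::ₘ E χ) (h.t1 hi) (cons_le (h.le χ) hz) (Multiset.le_cons_self _ _)
    (by rw [Multiset.card_cons]; omega)
  rw [Multiset.map_cons, Multiset.sum_cons, sub_self, h.g0, hr,
    Multiset.map_congr rfl (g := fun ζ => G f x (l₁ - lam) (ζ.im - z.im))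
      (fun ζ hζ => by rw [h.re χ ζ hζ])] at h1
  linarith

theorem e0_pos : 0 < e0 := by unfold e0; norm_num

open Classical in
theorem Ctx.aOther (h : Ctx q N E f x T lam l₁ l₂) (hc : ∀ χ, (E χ).card ≤ 1) {χ ψ : Ch q}
    {ζ z : ℂ} (hχ : χ ≠ 1) (hE : E χ = {ζ}) (hζ : |ζ.im| ≤ T) (hψ : ψ ≠ 1) (hψ1 : ψ ≠ χ)
    (hψ2 : ψ ≠ χ⁻¹) (hE' : E ψ = 0) (hz : z ∈ N ψ - E ψ) (hi : |z.im| ≤ T) (hr : z.re = l₂) :
    0 ≤ Lr f x (-l₂) - 2 * Lr f x c0 + 3 / 8 + 20 * e0 := by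
  have p := h.ps χ ψ ζ.im z.im
  have p1 := h.k10
  have p2 := h.ks hχ hE (h.t1 hζ)
  have p3 := h.k2 hz hi hr ((hc ψ).trans (by norm_num))
  have p4 := h.kc (χ := ψ * χ) (fun e => hψ2 (eq_inv_of_mul_eq_one_left e)) (hc _) (h.t2 hζ hi)
  have p5 := h.kc (χ := ψ * χ⁻¹) (fun e => hψ1 (mul_inv_eq_one.1 e)) (hc _) (h.t3 hζ hi)
  rw [sub_self, h.g0] at p2
  rw [if_neg hψ, hE', Multiset.map_zero, Multiset.sum_zero] at p3
  linarith [h.a, h.d, e0_pos]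

open Classical in
theorem Ctx.aOwn (h : Ctx q N E f x T lam l₁ l₂) (hc : ∀ χ, (E χ).card ≤ 1) {χ : Ch q}
    {ζ z : ℂ} (hχ : χ ≠ 1) (hχ' : χ ≠ χ⁻¹) (hE : E χ = {ζ}) (hζ : |ζ.im| ≤ T)
    (hz : z ∈ N χ - E χ) (hi : |z.im| ≤ T) (hr : z.re = l₂) :
    0 ≤ 3 / 2 * Lr f x (-l₂) - Lr f x (l₁ - l₂) / 2 - 2 * Lr f x c0 + 5 / 16 + 20 * e0 := by
  have p := h.ps χ χ ζ.im z.im
  have p1 := h.k10
  have p2 := h.ks hχ hE (h.t1 hζ)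
  have p3 := h.k2 hz hi hr ((hc χ).trans (by norm_num))
  have p4 := h.kc (χ := χ * χ) (fun e => hχ' (eq_inv_of_mul_eq_one_left e)) (hc _) (h.t2 hζ hi)
  have p5 := h.k1 (h.t3 hζ hi)
  rw [sub_self, h.g0] at p2
  rw [if_neg hχ, hE, Multiset.map_singleton, Multiset.sum_singleton] at p3
  rw [mul_inv_cancel] at p
  rw [neg_sub] at p5
  linarith [h.a, h.a1, h.d, e0_pos, h.pair (ζ.im - z.im), h.cost (ζ.im - z.im)]

/-- two extremal zeros -/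
theorem Ctx.kb (h : Ctx q N E f x T lam l₁ l₂) {χ : Ch q} (hχ : χ ≠ 1) {ζ ζ' : ℂ}
    (hE : E χ = {ζ} + {ζ'}) (hζ : |ζ.im| ≤ T) :
    K q f x lam χ ζ.im ≤ 1 / 8 - Lr f x (l₂ - lam) + e0 := by
  have h1 := h.re χ ζ (by simp [hE])
  have h2 := h.re χ ζ' (by simp [hE])
  have h3 := h.kw χ ζ.im ({ζ} + {ζ'}) (h.t1 hζ) (hE ▸ h.le χ) (by rw [hE]) (by simp)
  rw [if_neg hχ, Multiset.map_add, Multiset.sum_add, Multiset.map_singleton,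
    Multiset.map_singleton, Multiset.sum_singleton, Multiset.sum_singleton, h1, h2, sub_self,
    h.g0] at h3
  linarith [h.cost (ζ'.im - ζ.im)]

open Classical in
theorem Ctx.bOther (h : Ctx q N E f x T lam l₁ l₂) {χ ψ : Ch q} (hc : ∀ χ', χ' ≠ χ → E χ' = 0)
    {ζ ζ' z : ℂ} (hχ : χ ≠ 1) (hχ' : χ = χ⁻¹) (hE : E χ = {ζ} + {ζ'}) (hζ : |ζ.im| ≤ T)
    (hψ : ψ ≠ 1) (hψ1 : ψ ≠ χ) (hz : z ∈ N ψ - E ψ) (hi : |z.im| ≤ T) (hr : z.re = l₂) :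
    0 ≤ Lr f x (-l₂) - 2 * Lr f x c0 + 3 / 8 + 20 * e0 := by
  have p := h.ps χ ψ ζ.im z.im
  have p1 := h.k10
  have p2 := h.kb hχ hE hζ
  have p3 := h.k2 hz hi hr (by simp [hc ψ hψ1])
  have n1 : ψ * χ ≠ 1 := fun e => hψ1 ((eq_inv_of_mul_eq_one_left e).trans hχ'.symm)
  have n2 : ψ * χ ≠ χ := fun e => hψ (mul_eq_right.1 e)
  have p4 := h.kz n1 (hc _ n2) (h.t2 hζ hi)
  have p5 := h.kz n1 (hc _ n2) (h.t3 hζ hi)
  rw [if_neg hψ, hc ψ hψ1, Multiset.map_zero, Multiset.sum_zero] at p3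
  rw [← hχ'] at p
  linarith [h.a, h.d, e0_pos]

open Classical in
theorem Ctx.bOwn (h : Ctx q N E f x T lam l₁ l₂) {χ : Ch q} {ζ ζ' z : ℂ} (hχ : χ ≠ 1)
    (hχ' : χ = χ⁻¹) (hE : E χ = {ζ} + {ζ'}) (hζ : |ζ.im| ≤ T) (hζ' : ζ'.im = -ζ.im)
    (hz : z ∈ N χ - E χ) (hi : |z.im| ≤ T) (hr : z.re = l₂) :
    0 ≤ 2 * Lr f x (-l₂) - 3 * Lr f x c0 + 2 / 8 + 20 * e0 := by
  have p := h.ps χ χ ζ.im z.im
  have p1 := h.k10
  have p2 := h.kb hχ hE hζ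
  have p3 := h.k2 hz hi hr (by simp [hE])
  have p4 := h.k1 (h.t2 hζ hi)
  have p5 := h.k1 (h.t3 hζ hi)
  have n1 : χ * χ = 1 := by
    nth_rewrite 2 [hχ']
    exact mul_inv_cancel χ
  rw [if_neg hχ, hE, Multiset.map_add, Multiset.sum_add, Multiset.map_singleton,
    Multiset.map_singleton, Multiset.sum_singleton, Multiset.sum_singleton, hζ'] at p3
  rw [mul_inv_cancel, n1] at p
  rw [neg_sub] at p5
  rw [show -(z.im + ζ.im) = -ζ.im - z.im by ring] at p4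
  linarith [h.a, h.d, e0_pos, h.pair (ζ.im - z.im), h.cost (ζ.im - z.im),
    h.pair (-ζ.im - z.im), h.cost (-ζ.im - z.im)]

open Classical in
theorem Ctx.cOther (h : Ctx q N E f x T lam l₁ l₂) {χ ψ : Ch q} (hc : ∀ χ', χ' ≠ χ → E χ' = 0)
    {ζ z : ℂ} (hχ : χ ≠ 1) (hχ' : χ = χ⁻¹) (hE : E χ = {ζ}) (hζ : |ζ.im| ≤ T)
    (hψ : ψ ≠ 1) (hψ1 : ψ ≠ χ) (hz : z ∈ N ψ - E ψ) (hi : |z.im| ≤ T) (hr : z.re = l₂) :
    0 ≤ Lr f x (-l₂) - Lr f x (l₁ - l₂) - Lr f x c0 + 3 / 8 + 20 * e0 := by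
  have p := h.ps χ ψ ζ.im z.im
  have p1 := h.k10
  have p2 := h.ks hχ hE (h.t1 hζ)
  have p3 := h.k2 hz hi hr (by simp [hc ψ hψ1])
  have n1 : ψ * χ ≠ 1 := fun e => hψ1 ((eq_inv_of_mul_eq_one_left e).trans hχ'.symm)
  have n2 : ψ * χ ≠ χ := fun e => hψ (mul_eq_right.1 e)
  have p4 := h.kz n1 (hc _ n2) (h.t2 hζ hi)
  have p5 := h.kz n1 (hc _ n2) (h.t3 hζ hi)
  rw [sub_self, h.g0] at p2
  rw [if_neg hψ, hc ψ hψ1, Multiset.map_zero, Multiset.sum_zero] at p3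
  rw [← hχ'] at p
  linarith [h.a1, h.d, e0_pos]

open Classical in
theorem Ctx.cOwn (h : Ctx q N E f x T lam l₁ l₂) {χ : Ch q} {ζ z : ℂ} (hχ : χ ≠ 1)
    (hχ' : χ = χ⁻¹) (hE : E χ = {ζ}) (hζ : ζ.im = 0)
    (hz : z ∈ N χ - E χ) (hi : |z.im| ≤ T) (hr : z.re = l₂) :
    0 ≤ 2 * (Lr f x (-l₂) - Lr f x (l₁ - l₂)) - Lr f x c0 + 2 / 8 + 20 * e0 := by
  have p := h.ps χ χ 0 z.im
  have p1 := h.k10
  have p2 := h.ks hχ hE (τ := 0) (by simpa using h.t)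
  have p3 := h.k2 hz hi hr (by simp [hE])
  have p4 := h.k1 (h.t1 hi)
  have n1 : χ * χ = 1 := by
    nth_rewrite 2 [hχ']
    exact mul_inv_cancel χ
  rw [hζ, sub_self, h.g0] at p2
  rw [if_neg hχ, hE, Multiset.map_singleton, Multiset.sum_singleton, hζ, zero_sub] at p3
  rw [mul_inv_cancel, n1, add_zero, sub_zero] at p
  linarith [h.a1, h.d, e0_pos, h.pair (-z.im)]

open Classical in
theorem Ctx.cOne (h : Ctx q N E f x T lam l₁ l₂) {χ : Ch q} {ζ z : ℂ} (hχ : χ ≠ 1)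
    (hχ' : χ = χ⁻¹) (hE : E χ = {ζ}) (hζ : ζ.im = 0)
    (hz : z ∈ N 1 - E 1) (hi : |z.im| ≤ T) (hr : z.re = l₂) :
    0 ≤ 2 * (Lr f x (-l₂) - Lr f x (l₁ - l₂)) - Lr f x c0 + 2 / 8 + 20 * e0 := by
  have p := h.ps χ 1 0 z.im
  have p1 := h.k10
  have p2 := h.ks hχ hE (τ := 0) (by simpa using h.t)
  have p3 := h.k2 hz hi hr (by simp [h.one])
  have p4 := h.ks hχ hE (h.t1 hi)
  rw [hζ, sub_self, h.g0] at p2
  rw [if_pos rfl, h.one, Multiset.map_zero, Multiset.sum_zero] at p3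
  rw [hζ, zero_sub] at p4
  rw [← hχ', one_mul, add_zero, sub_zero] at p
  linarith [h.a1, h.d, e0_pos, h.pair (-z.im)]

end LsK

open LsK in
theorem lsOf : LsOf := by
  classical
  intro hL hA hP hK q _ N Lm Th C M T l₁ l₂ χ₁ ζ₁ hE hW hT hTh h1
  have hlog : 0 ≤ Real.log q := Real.log_natCast_nonneg q
  have hT0 : 0 ≤ T := hlog.trans hT
  have h1' : χ₁⁻¹ ≠ 1 := fun e => h1 (inv_eq_one.1 e)
  have hm : ζ₁ ∈ N χ₁ := Multiset.mem_of_le (hW.le χ₁) (by simp [EE])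
  have hl : 0 < l₁ := hW.re ▸ (hE.pos χ₁ ζ₁ hm).1
  have hE1 : EE χ₁ ζ₁ 1 = 0 := by simp [EE, h1.symm, h1'.symm]
  have hre : ∀ χ, ∀ ζ ∈ EE χ₁ ζ₁ χ, ζ.re = l₁ := by
    intro χ ζ hζ
    unfold EE at hζ
    rcases Multiset.mem_add.1 hζ with h | h <;> split_ifs at h
    · rw [Multiset.mem_singleton.1 h, hW.re]
    · simp at h
    · rw [Multiset.mem_singleton.1 h, conj_re, hW.re]
    · simp at h
  have ctx : ∀ i ∈ Icc 8 35, Ctx q N (EE χ₁ ζ₁) (par ((i : ℕ) / 10)) ((i : ℕ) / 10) T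
      (max (l₂ - c0) 0) l₁ l₂ := by
    intro i hi
    obtain ⟨i1, i2⟩ := mem_Icc.1 hi
    have j1 : (8 : ℝ) ≤ i := by exact_mod_cast i1
    have j2 : (i : ℝ) ≤ 35 := by exact_mod_cast i2
    exact mk_ctx hL hP hE.two (hA.1 _ (by linarith) (by linarith)) (by simp [par])
      (hK q N _ _ _ Lm Th T l₂ hE.two (hE.kf i hi) (fun χ ζ h => (hE.pos χ ζ h).1) hW.far hT hTh
        (hl.le.trans hW.l12) hW.l2) hW.le hE1 hre hl.le hW.l12 hT0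
  have ten : ∀ z ∈ N 1 - EE χ₁ ζ₁ 1, |z.im| ≤ T → z.re = l₂ → 10 ≤ l₂ := fun z hz hi hr => by
    rw [hE1, tsub_zero] at hz
    exact hE.m.trans (hr ▸ hE.zeta z hz (by linarith))
  refine ⟨fun h2 => ?_, fun h2 h3 => ?_, fun h2 h3 => ?_⟩
  · rcases hW.two with h | ⟨ψ, z, hz, hi, hr⟩
    · exact Or.inl (h ▸ hE.lm)
    have e1 : EE χ₁ ζ₁ χ₁ = {ζ₁} := by simp [EE, h2]
    have e2 : EE χ₁ ζ₁ χ₁⁻¹ = {(starRingEnd ℂ) ζ₁} := by simp [EE, h2, h2.symm]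
    have e3 : ∀ χ, χ ≠ χ₁ → χ ≠ χ₁⁻¹ → EE χ₁ ζ₁ χ = 0 := fun χ a b => by simp [EE, a, b]
    have hc : ∀ χ, (EE χ₁ ζ₁ χ).card ≤ 1 := fun χ => by
      by_cases a : χ = χ₁
      · rw [a, e1]; simp
      · by_cases b : χ = χ₁⁻¹
        · rw [b, e2]; simp
        · rw [e3 χ a b]; simp
    by_cases a0 : ψ = 1
    · exact Or.inl (ten z (a0 ▸ hz) hi hr)
    by_cases a : ψ = χ₁
    · exact Or.inr (Or.inr fun i hi' =>
        (ctx i hi').aOwn hc h1 h2 e1 hW.im (a ▸ hz) hi hr)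
    by_cases b : ψ = χ₁⁻¹
    · exact Or.inr (Or.inr fun i hi' =>
        (ctx i hi').aOwn hc h1' (by rw [inv_inv]; exact h2.symm) e2
          (by simpa using hW.im) (b ▸ hz) hi hr)
    · exact Or.inr (Or.inl fun i hi' =>
        (ctx i hi').aOther hc h1 e1 hW.im a0 a b (e3 ψ a b) hz hi hr)
  · rcases hW.two with h | ⟨ψ, z, hz, hi, hr⟩
    · exact Or.inl (h ▸ hE.lm)
    have e1 : EE χ₁ ζ₁ χ₁ = {ζ₁} + {(starRingEnd ℂ) ζ₁} := by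
      unfold EE
      rw [if_pos rfl, if_pos ⟨h2, fun h => h3 h.2⟩]
    have e3 : ∀ χ, χ ≠ χ₁ → EE χ₁ ζ₁ χ = 0 := fun χ a => by
      unfold EE
      rw [if_neg a, if_neg fun h => a (h.1.trans h2.symm), add_zero]
    by_cases a0 : ψ = 1
    · exact Or.inl (ten z (a0 ▸ hz) hi hr)
    by_cases a : ψ = χ₁
    · exact Or.inr (Or.inr fun i hi' =>
        (ctx i hi').bOwn h1 h2 e1 hW.im (conj_im _) (a ▸ hz) hi hr)
    · exact Or.inr (Or.inl fun i hi' => (ctx i hi').bOther e3 h1 h2 e1 hW.im a0 a hz hi hr)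
  · rcases hW.two with h | ⟨ψ, z, hz, hi, hr⟩
    · exact Or.inl h
    have e1 : EE χ₁ ζ₁ χ₁ = {ζ₁} := by
      unfold EE
      rw [if_pos rfl, if_neg fun h => h.2 ⟨h2, h3⟩, add_zero]
    have e3 : ∀ χ, χ ≠ χ₁ → EE χ₁ ζ₁ χ = 0 := fun χ a => by
      unfold EE
      rw [if_neg a, if_neg fun h => h.2 ⟨h2, h3⟩, add_zero]
    refine Or.inr ?_
    by_cases a0 : ψ = 1
    · exact Or.inr fun i hi' => (ctx i hi').cOne h1 h2 e1 h3 (a0 ▸ hz) hi hr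
    by_cases a : ψ = χ₁
    · exact Or.inr fun i hi' => (ctx i hi').cOwn h1 h2 e1 h3 (a ▸ hz) hi hr
    · exact Or.inl fun i hi' => (ctx i hi').cOther e3 h1 h2 e1 hW.im a0 a hz hi hr

end Pool.Agent.MP_c5bf7b_nt.H38
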