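import Pool.Agent.MP_c5bf7b_nt.H38.SpecC

/-! The last step: from the sums over the zeros to the least prime in a progression. -/

set_option autoImplicit false

namespace Pool.Agent.MP_c5bf7b_nt.H38

open Finset Complex Filter

namespace LinAux

theorem WW_split {q : ℕ} [NeZero q] (N : Ch q → Multiset ℂ) (E a b : ℝ) :
    WW N E (fun _ => True) = WW N E (fun ζ => ζ.re < a ∧ |ζ.im| ≤ b) +
      WW N E (fun ζ => a ≤ ζ.re ∨ b < |ζ.im|) := by
  classical
  unfold WW
  rw [← sum_add_distrib]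
  refine sum_congr rfl fun χ _ => ?_
  rw [← Multiset.sum_add, ← Multiset.map_add]
  congr 2
  ext ζ
  simp only [Multiset.count_add, Multiset.count_filter, if_true]
  by_cases h : ζ.re < a ∧ |ζ.im| ≤ b
  · rw [if_pos h, if_neg (by push Not; exact h), add_zero]
  · rw [if_neg h, if_pos (by by_contra h'; push Not at h'; exact h h'), zero_add]

theorem ev_log (a : ℝ) : ∀ᶠ q : ℕ in atTop, a ≤ Real.log q :=
  (Real.tendsto_log_atTop.comp tendsto_natCast_atTop_atTop).eventually_ge_atTop a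

theorem ev_pow {y : ℝ} (hy : 0 < y) (a : ℝ) : ∀ᶠ q : ℕ in atTop, a ≤ (q : ℝ) ^ y :=
  ((tendsto_rpow_atTop hy).comp tendsto_natCast_atTop_atTop).eventually_ge_atTop a

theorem log_ten : Real.log 10 ≤ 5 / 2 := by
  rw [Real.log_le_iff_le_exp (by norm_num)]
  have := Real.sum_le_exp_of_nonneg (x := 5 / 2) (by norm_num) 5
  refine le_trans ?_ this
  simp [Finset.sum_range_succ, Nat.factorial]
  norm_num

end LinAux

theorem linOf : LinOf := by
  classical
  rintro ⟨C₀, -, hcnt⟩ ⟨C, hC, henv⟩ hhf hmid hsieg e he4 he5 hnear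
  obtain ⟨M, l₀, hM, hnear⟩ := hnear C hC
  obtain ⟨η, hη, henv⟩ := henv M hM
  have hδ : 0 < η / 10000 := by positivity
  obtain ⟨q₁, henv⟩ := henv (η / 10000) hδ (by linarith)
  obtain ⟨δ', hδ', q₂, hmid⟩ := hmid e (η / 10000) η he4 hδ hη
  obtain ⟨q₃, hhf⟩ := hhf e he4.le he5
  set y : ℝ := min (min δ' (η / 10000)) (1 / 10) / 2 with hy
  have hy0 : 0 < y := by positivity
  have hy1 : 2 * y ≤ δ' := by
    have := (min_le_left (min δ' (η / 10000)) (1 / 10)).trans (min_le_left _ _)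
    linarith
  have hy2 : 2 * y ≤ η / 10000 := by
    have := (min_le_left (min δ' (η / 10000)) (1 / 10)).trans (min_le_right _ _)
    linarith
  have hy3 : 2 * y ≤ 1 / 10 := by
    have := min_le_right (min δ' (η / 10000)) (1 / 10)
    linarith
  obtain ⟨c, hc, hsieg⟩ := hsieg y hy0
  obtain ⟨B, hB⟩ := eventually_atTop.1 ((eventually_ge_atTop (max (max q₁ q₂) (max q₃ 2))).and
    ((LinAux.ev_log l₀).and ((LinAux.ev_log (l₀ / (η / 10000))).and ((LinAux.ev_log (1 / c)).and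
    ((LinAux.ev_pow (half_pos hη) 3).and (LinAux.ev_pow hy0 20000))))))
  refine ⟨2, two_pos, B, fun q hq a _ haq hcop => ?_⟩
  obtain ⟨hq0, hl0, hl1, hl2, hp1, hp2⟩ := hB q hq
  simp only [max_le_iff] at hq0
  obtain ⟨⟨hq1, hq2⟩, hq3, hq4⟩ := hq0
  have : NeZero q := ⟨by omega⟩
  have hq2' : (2 : ℝ) ≤ q := by exact_mod_cast hq4
  have hqp : (0 : ℝ) < q := by linarith
  have hq1' : (1 : ℝ) ≤ q := by linarith
  have hl : 0 < Real.log q := Real.log_pos (by linarith)
  choose N hN using fun χ : Ch q => (hcnt q χ hq4).1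
  by_contra hcon
  push Not at hcon
  have h1 := hhf q hq3 N hN a hcop fun p hp hpa => by
    have h2 := hcon p hp (by rw [hpa, Nat.mod_eq_of_lt haq])
    have h3 : 0 < (q : ℝ) ^ (e + 1 / 2) := Real.rpow_pos_of_pos hqp _
    linarith
  have h2 := hmid q hq2 N hN
  set s : ℝ := (q : ℝ) ^ (-y) with hs
  have hs0 : 0 < s := Real.rpow_pos_of_pos hqp _
  have hs1 : s * (q : ℝ) ^ y = 1 := by rw [hs, ← Real.rpow_add hqp]; simp
  have hs2 : 20000 * s ≤ 1 := by nlinarith
  have hss : ∀ t : ℝ, 2 * y ≤ t → (q : ℝ) ^ (-t) ≤ s * s := fun t ht => by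
    rw [hs, ← Real.rpow_add hqp]
    exact Real.rpow_le_rpow_of_exponent_le hq1' (by linarith)
  have h3 := hnear q N (η / 10000 * Real.log q) ((q : ℝ) ^ η * Real.log q) s
    (henv q hq1 N hN) hl0 (by rwa [div_le_iff₀' hδ] at hl1) ?_ hs0 (by linarith) ?_ ?_
  · rw [LinAux.WW_split N e (η / 10000 * Real.log q) ((q : ℝ) ^ η * Real.log q)] at h1
    have h4 := hss δ' hy1
    have h5 := hss (1 / 10) hy3
    rw [← neg_div] at h5
    nlinarith
  · have e1 : (10 : ℝ) ^ (2000 * (η / 10000 * Real.log q)) ≤ (q : ℝ) ^ (η / 2) := by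
      rw [Real.rpow_def_of_pos (by norm_num), Real.rpow_def_of_pos hqp, Real.exp_le_exp]
      have := mul_le_mul_of_nonneg_right LinAux.log_ten (mul_pos hη hl).le
      nlinarith
    have e2 : (q : ℝ) ^ η = (q : ℝ) ^ (η / 2) * (q : ℝ) ^ (η / 2) := by
      rw [← Real.rpow_add hqp]; simp
    rw [← mul_assoc, e2]
    refine mul_le_mul_of_nonneg_right ?_ hl.le
    exact mul_le_mul hp1 e1 (by positivity) (by positivity)
  · intro χ hχ hχ1 ζ hζ him
    obtain ⟨-, h4, -, h5⟩ := ((hcnt q χ hq4).2 _ (hN χ)).2.1 ζ hζ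
    have h6 : χ ^ 2 = 1 := by
      rw [pow_two]
      nth_rewrite 2 [hχ]
      exact mul_inv_cancel χ
    have h7 : 1 - ζ / Real.log q = ((1 - ζ.re / Real.log q : ℝ) : ℂ) := by
      have : ζ = (ζ.re : ℂ) := Complex.ext (by simp) (by simpa using him)
      rw [ofReal_sub, ofReal_div, ← this, ofReal_one]
    rw [h7, Phi, if_neg hχ1] at h5
    have h8 := hsieg q χ _ h6 hχ1 (by
      have : ζ.re / Real.log q ≤ 1 / 3 := by rw [div_le_iff₀ hl]; linarith
      linarith) h5
    rw [sub_sub_cancel, le_div_iff₀ hl] at h8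
    rw [div_le_iff₀ hc] at hl2
    nlinarith
  · rw [hs, Real.rpow_def_of_pos hqp, Real.exp_le_exp]
    nlinarith

end Pool.Agent.MP_c5bf7b_nt.H38
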