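import Pool.Agent.MP_c5bf7b_nt.H38.SpecC

/-! The sum over the zeros close to the line `re s = 1`. -/

set_option autoImplicit false

namespace Pool.Agent.MP_c5bf7b_nt.H38

open Finset Complex

namespace Near

theorem par_two (t : ℝ) : par 2 t = 1 - 5 * t ^ 2 / 4 + 5 * t ^ 3 / 8 - t ^ 5 / 32 := by
  unfold par; ring

theorem par_nonneg (t : ℝ) (h0 : 0 ≤ t) (h2 : t ≤ 2) : 0 ≤ par 2 t := by
  unfold par
  have h1 : 0 ≤ 1 - t / 2 := by linarith
  positivity

theorem par_le (t : ℝ) (h0 : 0 ≤ t) (h2 : t ≤ 2) : par 2 t ≤ 1 := by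
  rw [par_two]
  have h1 : 0 ≤ t ^ 2 * (2 - t) := mul_nonneg (sq_nonneg t) (by linarith)
  have h3 : 0 ≤ t ^ 5 := by positivity
  nlinarith

theorem par_cont : Continuous (par 2) := by
  unfold par; fun_prop

theorem fp_eq (z : ℝ) : Fp 20 z = ∫ t in (0 : ℝ)..2, par 2 t * Real.exp (-z * t) := by
  unfold Fp Lr
  have h : ((20 : ℕ) : ℝ) / 10 = 2 := by norm_num
  rw [h]

theorem int_par : ∫ t in (0 : ℝ)..2, par 2 t = 5 / 6 := by
  have h : ∀ t ∈ Set.uIcc (0 : ℝ) 2, HasDerivAt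
      (fun t : ℝ => t - 5 * t ^ 3 / 12 + 5 * t ^ 4 / 32 - t ^ 6 / 192) (par 2 t) t := by
    intro t _
    have h1 := (((hasDerivAt_id t).sub (((hasDerivAt_pow 3 t).const_mul 5).div_const 12)).add
      (((hasDerivAt_pow 4 t).const_mul 5).div_const 32)).sub ((hasDerivAt_pow 6 t).div_const 192)
    refine (h1.congr_deriv ?_)
    rw [par_two]; push_cast; ring
  rw [intervalIntegral.integral_eq_sub_of_hasDerivAt h (par_cont.intervalIntegrable _ _)]
  norm_num

theorem fp_c0 : 4 / 5 ≤ Fp 20 c0 := by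
  rw [fp_eq]
  have h1 : ∫ t in (0 : ℝ)..2, par 2 t * (24 / 25) ≤
      ∫ t in (0 : ℝ)..2, par 2 t * Real.exp (-c0 * t) := by
    refine intervalIntegral.integral_mono_on (by norm_num)
      ((par_cont.mul continuous_const).intervalIntegrable _ _)
      ((par_cont.mul (by fun_prop)).intervalIntegrable _ _) ?_
    intro t ht
    refine mul_le_mul_of_nonneg_left ?_ (par_nonneg t ht.1 ht.2)
    have h2 := Real.add_one_le_exp (-c0 * t)
    have h3 : c0 = 1 / 1000 := rfl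
    rw [h3] at h2 ⊢
    linarith [ht.2]
  rw [intervalIntegral.integral_mul_const, int_par] at h1
  linarith

theorem fp_diff (a b : ℝ) (ha : 0 ≤ a) (hb : 0 ≤ b) :
    Fp 20 (-b) - Fp 20 (a - b) ≤ 4 * a * Real.exp (2 * b) := by
  have hi : ∀ z : ℝ, IntervalIntegrable (fun t => par 2 t * Real.exp (-z * t))
      MeasureTheory.volume 0 2 := fun z => (par_cont.mul (by fun_prop)).intervalIntegrable _ _
  rw [fp_eq, fp_eq, ← intervalIntegral.integral_sub (hi _) (hi _)]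
  have h1 : ∫ t in (0 : ℝ)..2, (par 2 t * Real.exp (- -b * t) - par 2 t * Real.exp (-(a - b) * t)) ≤
      ∫ _ in (0 : ℝ)..2, 2 * a * Real.exp (2 * b) := by
    refine intervalIntegral.integral_mono_on (by norm_num)
      (((par_cont.mul (by fun_prop)).sub (par_cont.mul (by fun_prop))).intervalIntegrable _ _)
      (continuous_const.intervalIntegrable _ _) ?_
    intro t ht
    have h2 : Real.exp (-(a - b) * t) = Real.exp (b * t) * Real.exp (-(a * t)) := by
      rw [← Real.exp_add]; congr 1; ring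
    have h3 : Real.exp (- -b * t) = Real.exp (b * t) := by congr 1; ring
    rw [h2, h3]
    have h4 := Real.add_one_le_exp (-(a * t))
    have h5 : Real.exp (b * t) ≤ Real.exp (2 * b) := Real.exp_le_exp.2 (by nlinarith [ht.2])
    have h6 : 0 ≤ a * t := mul_nonneg ha ht.1
    have h7 : Real.exp (-(a * t)) ≤ 1 := Real.exp_le_one_iff.2 (by linarith)
    have h8 : a * t ≤ 2 * a := by nlinarith [ht.2]
    have h9 : par 2 t * Real.exp (b * t) ≤ Real.exp (2 * b) := by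
      have := mul_le_mul (par_le t ht.1 ht.2) h5 (Real.exp_pos _).le zero_le_one
      linarith
    have h10 : par 2 t * Real.exp (b * t) * (1 - Real.exp (-(a * t))) ≤
        Real.exp (2 * b) * (2 * a) :=
      mul_le_mul h9 (by linarith) (by linarith) (Real.exp_pos _).le
    nlinarith
  rw [intervalIntegral.integral_const, smul_eq_mul] at h1
  linarith

theorem bk_le (κ : ℝ) (h : 0 ≤ κ) : Bk κ ≤ 3 := by
  unfold Bk
  split_ifs with h0
  · norm_num
  · have hk : 0 < κ := lt_of_le_of_ne h (Ne.symm h0)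
    have h1 := Real.add_one_le_exp (-κ / 2)
    have h2 : Real.exp (-κ / 2) ≤ 1 - κ / 2 + (κ / 2) ^ 2 := by
      have h3 := Real.add_one_le_exp (κ / 2)
      have h4 : Real.exp (-κ / 2) * Real.exp (κ / 2) = 1 := by
        rw [← Real.exp_add]; simp [neg_div]
      have h5 := Real.exp_pos (-κ / 2)
      have h6 : Real.exp (-κ / 2) * (κ / 2 + 1) ≤ 1 := by nlinarith
      have h7 : 1 ≤ (1 - κ / 2 + (κ / 2) ^ 2) * (κ / 2 + 1) := by
        have : 0 ≤ κ ^ 3 := by positivity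
        nlinarith
      by_contra hc
      push Not at hc
      have h8 : 0 < κ / 2 + 1 := by linarith
      nlinarith
    have h3 : 2 * (1 - Real.exp (-κ / 2)) / κ ≤ 1 := by
      rw [div_le_one hk]; linarith
    have h4 : 8 * (κ / 2 - 1 + Real.exp (-κ / 2)) / κ ^ 2 ≤ 2 := by
      rw [div_le_iff₀ (by positivity)]; nlinarith
    linarith

theorem own_le (e l₁ l₂ : ℝ) (h1 : 0 < l₁) :
    own e 1 l₁ l₂ ≤ 4 * Real.exp (-e * l₂) + Real.exp (-e * l₁) := by
  unfold own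
  refine (min_le_right _ _).trans ?_
  have hb := bk_le ((min ⌊10 * l₁⌋₊ 30 : ℕ) / 10) (by positivity)
  have he : e0 ≤ 1 := by unfold e0; norm_num
  have h2 := Real.exp_pos (-e * l₂)
  have h3 := Real.exp_pos (-e * l₁)
  have h4 : 0 ≤ 4 * (1 - Real.exp (-l₁ / 4)) / l₁ := by
    have : Real.exp (-l₁ / 4) ≤ 1 := Real.exp_le_one_iff.2 (by linarith)
    have : 0 ≤ 1 - Real.exp (-l₁ / 4) := by linarith
    positivity
  have h5 : 4 * (1 - Real.exp (-l₁ / 4)) / l₁ ≤ 1 := by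
    rw [div_le_one h1]
    have := Real.add_one_le_exp (-l₁ / 4)
    linarith
  have h6 : (4 * (1 - Real.exp (-l₁ / 4)) / l₁) ^ 2 ≤ 1 := pow_le_one₀ h4 h5
  have h7 : 0 ≤ (4 * (1 - Real.exp (-l₁ / 4)) / l₁) ^ 2 := sq_nonneg _
  generalize (4 * (1 - Real.exp (-l₁ / 4)) / l₁) ^ 2 = u at h6 h7
  generalize Bk ((min ⌊10 * l₁⌋₊ 30 : ℕ) / 10) = b at hb
  have h8 : Real.exp (-e * l₂) * (b + e0) ≤ Real.exp (-e * l₂) * 4 :=
    mul_le_mul_of_nonneg_left (by linarith) h2.le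
  have h9 : Real.exp (-e * l₁) * u ≤ Real.exp (-e * l₁) := by nlinarith
  have h10 : 0 ≤ Real.exp (-e * l₂) * u := by positivity
  push_cast
  nlinarith

open Classical in
theorem split_one (Y : Multiset ℂ) (g : ℂ → ℝ) (hg : ∀ ζ, 0 ≤ g ζ) (P Q R : ℂ → Prop)
    (h : ∀ ζ, P ζ → Q ζ ∨ R ζ) :
    ((Y.filter P).map g).sum ≤ ((Y.filter Q).map g).sum + ((Y.filter R).map g).sum := by
  induction Y using Multiset.induction_on with
  | empty => simp
  | cons a Y ih =>
    have ha := hg a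
    have hh := h a
    by_cases hP : P a <;> by_cases hQ : Q a <;> by_cases hR : R a <;>
      simp only [Multiset.filter_cons_of_pos, Multiset.filter_cons_of_neg, hP, hQ, hR,
        not_false_eq_true, Multiset.map_cons, Multiset.sum_cons] <;>
      first | linarith | (exfalso; tauto)

theorem ww_split {q : ℕ} [NeZero q] (N : Ch q → Multiset ℂ) (e : ℝ) (P Q R : ℂ → Prop)
    (h : ∀ ζ, P ζ → Q ζ ∨ R ζ) : WW N e P ≤ WW N e Q + WW N e R := by
  unfold WW
  rw [← Finset.sum_add_distrib]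
  exact Finset.sum_le_sum fun χ _ => split_one _ _ (fun _ => norm_nonneg _) P Q R h

theorem ee_self {q : ℕ} (χ₁ : Ch q) (ζ₁ : ℂ) : ζ₁ ∈ EE χ₁ ζ₁ χ₁ := by
  unfold EE
  simp

theorem ee_mem {q : ℕ} (χ₁ χ : Ch q) (ζ₁ ζ : ℂ) (h : ζ ∈ EE χ₁ ζ₁ χ) :
    ζ.re = ζ₁.re ∧ |ζ.im| = |ζ₁.im| := by
  unfold EE at h
  rw [Multiset.mem_add] at h
  rcases h with h | h
  · split_ifs at h
    · rw [Multiset.mem_singleton] at h; subst h; exact ⟨rfl, rfl⟩
    · simp at h
  · split_ifs at h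
    · rw [Multiset.mem_singleton] at h; subst h; simp
    · simp at h

theorem ee_zero {q : ℕ} (χ₁ χ : Ch q) (ζ₁ : ℂ) (h1 : χ ≠ χ₁) (h2 : χ ≠ χ₁⁻¹) :
    EE χ₁ ζ₁ χ = 0 := by
  unfold EE
  simp [h1, h2]

open Classical in
theorem sum_A {q : ℕ} [NeZero q] (χ₁ : Ch q) (ζ₁ : ℂ) (g : ℕ → ℝ) (h : χ₁ ≠ χ₁⁻¹) :
    ∑ χ ∈ univ.filter (fun χ => EE χ₁ ζ₁ χ ≠ 0), g (EE χ₁ ζ₁ χ).card = 2 * g 1 := by
  have h1 : EE χ₁ ζ₁ χ₁ = {ζ₁} := by unfold EE; simp [h]
  have h2 : EE χ₁ ζ₁ χ₁⁻¹ = {(starRingEnd ℂ) ζ₁} := by unfold EE; simp [h, h.symm]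
  have h3 : univ.filter (fun χ => EE χ₁ ζ₁ χ ≠ 0) = {χ₁, χ₁⁻¹} := by
    ext χ
    simp only [mem_filter, mem_univ, true_and, mem_insert, mem_singleton]
    constructor
    · intro hχ
      by_contra hc
      push Not at hc
      exact hχ (ee_zero _ _ _ hc.1 hc.2)
    · rintro (rfl | rfl)
      · rw [h1]; simp
      · rw [h2]; simp
  rw [h3, sum_pair h, h1, h2]
  simp only [Multiset.card_singleton]
  ring

open Classical in
theorem filter_real {q : ℕ} [NeZero q] (χ₁ : Ch q) (ζ₁ : ℂ) (h : χ₁ = χ₁⁻¹) :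
    univ.filter (fun χ => EE χ₁ ζ₁ χ ≠ 0) = {χ₁} := by
  ext χ
  simp only [mem_filter, mem_univ, true_and, mem_singleton]
  constructor
  · intro hχ
    by_contra hc
    exact hχ (ee_zero _ _ _ hc (by rw [← h]; exact hc))
  · rintro rfl
    intro h0
    have := ee_self χ ζ₁
    rw [h0] at this
    simp at this

open Classical in
theorem sum_B {q : ℕ} [NeZero q] (χ₁ : Ch q) (ζ₁ : ℂ) (g : ℕ → ℝ) (h : χ₁ = χ₁⁻¹)
    (hi : ζ₁.im ≠ 0) :
    ∑ χ ∈ univ.filter (fun χ => EE χ₁ ζ₁ χ ≠ 0), g (EE χ₁ ζ₁ χ).card = g 2 := by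
  rw [filter_real _ _ h, sum_singleton]
  congr 1
  unfold EE
  rw [if_pos rfl, if_pos ⟨h, fun hc => hi hc.2⟩]
  simp

open Classical in
theorem sum_C {q : ℕ} [NeZero q] (χ₁ : Ch q) (ζ₁ : ℂ) (g : ℕ → ℝ) (h : χ₁ = χ₁⁻¹)
    (hi : ζ₁.im = 0) :
    ∑ χ ∈ univ.filter (fun χ => EE χ₁ ζ₁ χ ≠ 0), g (EE χ₁ ζ₁ χ).card = g 1 := by
  rw [filter_real _ _ h, sum_singleton]
  congr 1
  unfold EE
  rw [if_pos rfl, if_neg fun hc => hc.2 ⟨h, hi⟩]
  simp

theorem sum_val {q : ℕ} (J : Finset (Ch q)) (z : Ch q → ℂ) (g : ℝ → ℝ) :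
    ((J.val.map fun χ => (z χ).re).map g).sum = ∑ χ ∈ J, g (z χ).re := by
  rw [Multiset.map_map]; rfl

/-- the two error terms are small compared to `exp (-2 l)` -/
theorem err_le (C' D M L l e m : ℝ) (hC : 1 ≤ C') (hD : 1 ≤ D) (hM : 2400 * D ≤ M)
    (hL : 12800 * C' * D ≤ L) (he : 4 ≤ e) (hm : Real.exp (-2 * l) ≤ D * m) :
    3 * Real.exp (-e * max M l) + 16 * (C' * Real.exp (-2 * l) / L) ≤ m / 400 := by
  have hE := Real.exp_pos (-2 * l)
  have hCD : 0 < C' * D := by positivity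
  have hL0 : 0 < L := by nlinarith
  have h1 : Real.exp (-e * max M l) ≤ Real.exp (-2 * M) * Real.exp (-2 * l) := by
    rw [← Real.exp_add]
    refine Real.exp_le_exp.2 ?_
    have a1 := le_max_left M l
    have a2 := le_max_right M l
    nlinarith
  have h2 : Real.exp (-2 * M) * (2400 * D) ≤ 1 := by
    have a1 := Real.add_one_le_exp (2 * M)
    have a2 : Real.exp (-2 * M) * Real.exp (2 * M) = 1 := by rw [← Real.exp_add]; simp
    have a3 := Real.exp_pos (-2 * M)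
    nlinarith
  have hm0 : 0 < m := by
    by_contra hc
    push Not at hc
    nlinarith
  have h3 : Real.exp (-2 * M) * Real.exp (-2 * l) ≤ m / 2400 := by
    have a3 := Real.exp_pos (-2 * M)
    have a4 : Real.exp (-2 * M) * Real.exp (-2 * l) ≤ Real.exp (-2 * M) * (D * m) :=
      mul_le_mul_of_nonneg_left hm a3.le
    nlinarith
  have h4 : C' * Real.exp (-2 * l) / L ≤ m / 12800 := by
    rw [div_le_iff₀ hL0]
    have a4 : C' * Real.exp (-2 * l) ≤ C' * (D * m) := mul_le_mul_of_nonneg_left hm (by linarith)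
    nlinarith
  linarith

end Near

open Near

theorem numD : LpS → AdmS → NumD := by
  intro _ _
  refine ⟨20, by norm_num, fun l₁ l₂ h1 h2 h => ?_⟩
  have h3 := fp_diff l₁ l₂ h1.le (by linarith)
  have h4 := fp_c0
  have h5 : e0 = 1 / 100000 := rfl
  have h6 : 1 ≤ 20 * l₁ * Real.exp (2 * l₂) := by
    rcases h with h | h
    · have := h 20 (by simp)
      linarith
    · have := h 20 (by simp)
      linarith
  have h7 : Real.exp (-2 * l₂) * Real.exp (2 * l₂) = 1 := by rw [← Real.exp_add]; simp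
  have h8 := Real.exp_pos (-2 * l₂)
  nlinarith

theorem nearOf : NearOf := by
  classical
  intro hWin hZf hLs hSum hOut hCfg hD e he4 he5 hA hB hC hG C hC1
  obtain ⟨C', hC', hOut⟩ := hOut C hC1
  obtain ⟨D, hD1, hD⟩ := hD
  refine ⟨2400 * D, 12800 * C' * D, by linarith, ?_⟩
  intro q _ N Lm Th s env hL _ hTh hs0 hs1 hreal hsL
  have hlm := env.lm
  have hq : 0 < Real.log q := Real.log_pos (by have := env.two; exact_mod_cast this)
  obtain ⟨T, hT1, hT2, hW⟩ := hWin q N Lm (Real.log q) (by linarith) hq env.pos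
  have hT3 : 3 * T ≤ Th := by linarith
  have hT4 : T ≤ Th := by linarith
  have hsp := ww_split N e (fun ζ => ζ.re < Lm ∧ |ζ.im| ≤ Th) (fun ζ => ζ.re < Lm ∧ |ζ.im| ≤ T)
    (fun ζ => ζ.re < Lm ∧ T < |ζ.im| ∧ |ζ.im| ≤ Th) (by
      intro ζ h
      rcases le_or_gt |ζ.im| T with h' | h'
      · exact Or.inl ⟨h.1, h'⟩
      · exact Or.inr ⟨h.1, h', h.2⟩)
  have herr : ∀ l m : ℝ, 0 ≤ l → Real.exp (-2 * l) ≤ D * m →
      3 * Real.exp (-e * max (2400 * D) l) + 16 * (C' * Real.exp (-2 * l) / Real.log q) ≤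
        m / 400 := fun l m _ hm => err_le C' D _ _ l e m hC' hD1 le_rfl hL he4 hm
  have herr1 : ∀ l : ℝ, 0 ≤ l →
      3 * Real.exp (-e * max (2400 * D) l) + 16 * (C' * Real.exp (-2 * l) / Real.log q) ≤
        1 / 400 := fun l hl => herr l 1 hl (by
      have : Real.exp (-2 * l) ≤ 1 := Real.exp_le_one_iff.2 (by linarith)
      linarith)
  have hgen : ∀ l : ℝ, 10 ≤ l → l ≤ Lm → Far N 0 T l →
      16 * WW N e (fun ζ => ζ.re < Lm ∧ |ζ.im| ≤ Th) ≤ 1 - s / 400 := by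
    intro l hl hlL hF
    obtain ⟨J, z, hJ, hS⟩ := hSum q N 0 Lm Th C _ T l l e env (fun χ => by simp) rfl
      (fun χ ζ h => by simp at h) hF (by linarith) le_rfl hlL hT1 hT4 (by linarith)
    have hO := hOut q N 0 Lm Th _ T l e env (fun χ ζ h => by simp at h) hF hT1 he4 he5
    have hc := (hCfg q N Lm Th C _ T l l J z env hT1 hT3).1 hF (by linarith) hlL
      (fun χ h => ⟨(hJ χ h).1, (hJ χ h).2.2⟩)
    have hg := hG l _ hc hl
    rw [sum_val] at hg
    have h0 : ∑ χ ∈ univ.filter (fun χ => (0 : Ch q → Multiset ℂ) χ ≠ 0),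
        own e ((0 : Ch q → Multiset ℂ) χ).card l l = 0 := by simp
    rw [h0] at hS
    have := herr1 l (by linarith)
    linarith
  rcases hW with hF | ⟨l₁, l₂, χ₁, ζ₁, hW⟩
  · exact hgen Lm hlm le_rfl hF
  have hz : ζ₁ ∈ N χ₁ := Multiset.mem_of_le (hW.le χ₁) (ee_self χ₁ ζ₁)
  have hl1 : 0 < l₁ := by rw [← hW.re]; exact (env.pos χ₁ ζ₁ hz).1
  have hl12 := hW.l12
  by_cases h1 : χ₁ = 1
  · subst h1
    have := env.zeta ζ₁ hz (hW.im.trans hT4)
    rw [hW.re] at this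
    exact hgen l₁ (by linarith) (hl12.trans hW.l2) hW.far0
  have hE1 : EE χ₁ ζ₁ 1 = 0 := ee_zero _ _ _ (Ne.symm h1) (by
    intro h
    exact h1 (inv_eq_one.1 h.symm))
  obtain ⟨J, z, hJ, hS⟩ := hSum q N (EE χ₁ ζ₁) Lm Th C _ T l₁ l₂ e env hW.le hE1
    (fun χ ζ h => (ee_mem _ _ _ _ h).1.trans hW.re) hW.far hl1 hl12 hW.l2 hT1 hT4 (by linarith)
  have hO := hOut q N (EE χ₁ ζ₁) Lm Th _ T l₂ e env
    (fun χ ζ h => (ee_mem _ _ _ _ h).2.le.trans hW.im) hW.far hT1 he4 he5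
  have hc := (hCfg q N Lm Th C _ T l₁ l₂ J z env hT1 hT3).2 χ₁ ζ₁ hW h1 hJ
  have hz1 := hZf q N Lm Th C _ T l₁ l₂ χ₁ ζ₁ env hW hT1 hT3 h1
  have hz2 := hLs q N Lm Th C _ T l₁ l₂ χ₁ ζ₁ env hW hT1 hT3 h1
  have he1 := herr1 l₂ (by linarith)
  by_cases h2 : χ₁ = χ₁⁻¹
  · by_cases h3 : ζ₁.im = 0
    · rw [sum_C χ₁ ζ₁ (fun n => own e n l₁ l₂) h2 h3] at hS
      have hs2 : s ≤ l₁ := by rw [← hW.re]; exact hreal χ₁ h2 h1 ζ₁ hz h3
      rcases hz2.2.2 h2 h3 with h4 | h4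
      · have hJ0 : J = ∅ := by
          refine eq_empty_of_forall_notMem fun χ h => ?_
          have := hJ χ h
          linarith [this.2.2.2.2.1, this.2.2.2.2.2]
        rw [hJ0, sum_empty] at hS
        have h5 := own_le e l₁ l₂ hl1
        have h6 : Real.exp (-2 * l₂) ≤ s := by
          refine le_trans (Real.exp_le_exp.2 ?_) hsL
          linarith
        have h7 := herr l₂ s (by linarith) (by nlinarith)
        have h8 : Real.exp (-e * l₁) ≤ 1 - s / 2 := by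
          have a1 : Real.exp (-e * l₁) ≤ Real.exp (-s) := Real.exp_le_exp.2 (by nlinarith)
          have a2 := Real.add_one_le_exp s
          have a3 : Real.exp (-s) * Real.exp s = 1 := by rw [← Real.exp_add]; simp
          have a4 := Real.exp_pos (-s)
          have a5 : Real.exp (-s) * (s + 1) ≤ 1 := by nlinarith
          have a6 : Real.exp (-s) ≤ 1 - s / 2 := by
            by_contra hc
            push Not at hc
            nlinarith
          linarith
        have h9 : Real.exp (-e * l₂) ≤ s / 20 := by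
          have a1 : Real.exp (-e * l₂) ≤ Real.exp (-2 * l₂) * Real.exp (-20) := by
            rw [← Real.exp_add]
            exact Real.exp_le_exp.2 (by nlinarith)
          have a2 := Real.add_one_le_exp (20 : ℝ)
          have a3 : Real.exp (-20) * Real.exp 20 = 1 := by rw [← Real.exp_add]; simp
          have a4 := Real.exp_pos (-20)
          have a5 : Real.exp (-20) ≤ 1 / 20 := by nlinarith
          have a6 := mul_le_mul h6 a5 a4.le hs0.le
          linarith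
        linarith
      · have h5 := hC l₁ l₂ _ (hc.2.2 h2 h3) h4
        rw [sum_val] at h5
        have h6 := hD l₁ l₂ hl1 hl12 h4
        have h7 : Real.exp (-2 * l₂) ≤ D * min l₁ 1 := by
          rcases le_total l₁ 1 with h | h
          · rw [min_eq_left h]; exact h6
          · rw [min_eq_right h]
            have : Real.exp (-2 * l₂) ≤ 1 := Real.exp_le_one_iff.2 (by linarith)
            linarith
        have h8 := herr l₂ _ (by linarith) h7
        have h9 : s ≤ min l₁ 1 := le_min hs2 hs1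
        linarith
    · rw [sum_B χ₁ ζ₁ (fun n => own e n l₁ l₂) h2 h3] at hS
      have h5 := hB l₁ l₂ _ (hc.2.1 h2 h3) (hz1.2 h2 h3) (hz2.2.1 h2 h3)
      rw [sum_val] at h5
      linarith
  · rw [sum_A χ₁ ζ₁ (fun n => own e n l₁ l₂) h2] at hS
    have h5 := hA l₁ l₂ _ (hc.1 h2) (hz1.1 h2) (hz2.1 h2)
    rw [sum_val] at h5
    linarith

end Pool.Agent.MP_c5bf7b_nt.H38
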