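import Pool.Agent.MP_c5bf7b_nt.H38.SpecA

/-! The bound for the contribution of one character. -/

set_option autoImplicit false

namespace Pool.Agent.MP_c5bf7b_nt.H38

open Finset Complex ArithmeticFunction

namespace PcA

theorem sum_sq (J : ℕ) : ∑ j ∈ range J, 1 / ((j : ℝ) + 1) ^ 2 ≤ 2 - 2 / ((J : ℝ) + 1) := by
  induction J with
  | zero => simp
  | succ J ih =>
    have h0 : (0 : ℝ) ≤ J := Nat.cast_nonneg J
    have h : 1 / ((J : ℝ) + 1) ^ 2 ≤ 2 / ((J : ℝ) + 1) - 2 / ((J : ℝ) + 1 + 1) := by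
      rw [div_sub_div _ _ (by positivity) (by positivity), div_le_div_iff₀ (by positivity)
        (by positivity)]
      nlinarith [mul_nonneg h0 h0, mul_nonneg (mul_nonneg h0 h0) h0]
    rw [sum_range_succ]
    push_cast
    linarith

theorem sum_sq_le (S : Finset ℕ) : ∑ j ∈ S, 1 / ((j : ℝ) + 1) ^ 2 ≤ 2 := by
  obtain ⟨J, hJ⟩ := S.exists_nat_subset_range
  refine (sum_le_sum_of_subset_of_nonneg hJ fun _ _ _ => by positivity).trans
    ((sum_sq J).trans ?_)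
  have : 0 ≤ 2 / ((J : ℝ) + 1) := by positivity
  linarith

theorem level_sum {α : Type} (Y : Multiset α) (φ : α → ℕ) {B : ℝ} (hB : 0 ≤ B)
    (h : ∀ j, ((Y.filter fun a => j = φ a).card : ℝ) ≤ B) :
    (Y.map fun a => 1 / ((φ a : ℝ) + 1) ^ 2).sum ≤ 2 * B := by
  have e : (Y.map fun a => 1 / ((φ a : ℝ) + 1) ^ 2) =
      (Y.map φ).map fun j : ℕ => 1 / ((j : ℝ) + 1) ^ 2 := by
    rw [Multiset.map_map]; rfl
  rw [e, Finset.sum_multiset_map_count]
  calc _ ≤ ∑ j ∈ (Y.map φ).toFinset, B * (1 / ((j : ℝ) + 1) ^ 2) := by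
        refine sum_le_sum fun j _ => ?_
        rw [nsmul_eq_mul, Multiset.count_map]
        exact mul_le_mul_of_nonneg_right (h j) (by positivity)
    _ ≤ _ := by
        rw [← mul_sum, mul_comm]
        exact mul_le_mul_of_nonneg_right (sum_sq_le _) hB

theorem card_level {l C : ℝ} (hl : 0 < l) {Y : Multiset ℂ} (h : Cnt l C Y) (j : ℕ) :
    ((Y.filter fun ζ => j = ⌊|ζ.im| / l⌋₊).card : ℝ) ≤ 2 * (C * l) := by
  have h1 := h ((j : ℝ) * l)
  have h2 := h (-((j : ℝ) * l))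
  have h3 : Y.filter (fun ζ => j = ⌊|ζ.im| / l⌋₊) ≤
      Y.filter (fun ζ => |ζ.im - (j : ℝ) * l| ≤ l) +
        Y.filter (fun ζ => |ζ.im - -((j : ℝ) * l)| ≤ l) := by
    rw [Multiset.filter_add_filter]
    refine le_trans (Multiset.monotone_filter_right Y fun ζ hζ => ?_) (Multiset.le_add_right _ _)
    have a0 : 0 ≤ |ζ.im| / l := by positivity
    have a1 := Nat.floor_le a0
    have a2 := Nat.lt_floor_add_one (|ζ.im| / l)
    rw [← hζ] at a1 a2
    rw [le_div_iff₀ hl] at a1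
    rw [div_lt_iff₀ hl] at a2
    rcases le_total 0 ζ.im with hs | hs
    · rw [abs_of_nonneg hs] at a1 a2
      left
      rw [abs_le]
      constructor <;> linarith
    · rw [abs_of_nonpos hs] at a1 a2
      right
      rw [abs_le]
      constructor <;> linarith
  have h4 := Multiset.card_le_card h3
  rw [Multiset.card_add] at h4
  have h5 : ((Y.filter fun ζ => j = ⌊|ζ.im| / l⌋₊).card : ℝ) ≤
      ((Y.filter (fun ζ => |ζ.im - (j : ℝ) * l| ≤ l)).card : ℝ) +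
        ((Y.filter (fun ζ => |ζ.im - -((j : ℝ) * l)| ≤ l)).card : ℝ) := by exact_mod_cast h4
  linarith

/-- The far zeros. -/
theorem far_sum {l C d : ℝ} (hl : 0 < l) (hC : 0 ≤ C) (hd : 0 < d) (hd1 : d ≤ 1) {Y : Multiset ℂ}
    (h : Cnt l C Y) :
    ((Y.filter fun ζ => ¬ ‖ζ‖ ≤ d * l).map fun ζ => 1 / ‖ζ‖ ^ 2).sum ≤ 16 * C / (d ^ 2 * l) := by
  have h1 := level_sum Y (fun ζ => ⌊|ζ.im| / l⌋₊) (by positivity) (card_level hl h)
  have h2 : ((Y.filter fun ζ => ¬ ‖ζ‖ ≤ d * l).map fun ζ => 1 / ‖ζ‖ ^ 2).sum ≤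
      ((Y.filter fun ζ => ¬ ‖ζ‖ ≤ d * l).map
        fun ζ => 4 / (d * l) ^ 2 * (1 / ((⌊|ζ.im| / l⌋₊ : ℝ) + 1) ^ 2)).sum := by
    refine Multiset.sum_map_le_sum_map _ _ fun ζ hζ => ?_
    have a0 : d * l < ‖ζ‖ := not_le.1 (Multiset.mem_filter.1 hζ).2
    have a1 : (⌊|ζ.im| / l⌋₊ : ℝ) ≤ |ζ.im| / l := Nat.floor_le (by positivity)
    rw [le_div_iff₀ hl] at a1
    have a2 := abs_im_le_norm ζ
    obtain ⟨j, hj⟩ : ∃ j : ℝ, j = (⌊|ζ.im| / l⌋₊ : ℝ) := ⟨_, rfl⟩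
    have hj0 : 0 ≤ j := hj ▸ Nat.cast_nonneg _
    rw [← hj] at a1 ⊢
    have a3 : d * l * (j + 1) ≤ 2 * ‖ζ‖ := by
      have : d * (j * l) ≤ 1 * (j * l) := by gcongr
      nlinarith
    have a4 : 0 < d * l := by positivity
    have a5 : 0 < ‖ζ‖ := a4.trans a0
    rw [div_mul_div_comm, mul_one, div_le_div_iff₀ (by positivity) (by positivity), one_mul,
      ← mul_pow]
    calc (d * l * (j + 1)) ^ 2 ≤ (2 * ‖ζ‖) ^ 2 := by gcongr
      _ = _ := by ring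
  have h3 : ((Y.filter fun ζ => ¬ ‖ζ‖ ≤ d * l).map
        fun ζ => 1 / ((⌊|ζ.im| / l⌋₊ : ℝ) + 1) ^ 2).sum ≤
      (Y.map fun ζ => 1 / ((⌊|ζ.im| / l⌋₊ : ℝ) + 1) ^ 2).sum := by
    conv_rhs => rw [← Multiset.filter_add_not (fun ζ => ‖ζ‖ ≤ d * l) Y]
    rw [Multiset.map_add, Multiset.sum_add]
    refine le_add_of_nonneg_left (Multiset.sum_nonneg fun x hx => ?_)
    obtain ⟨ζ, -, rfl⟩ := Multiset.mem_map.1 hx
    positivity
  rw [Multiset.sum_map_mul_left] at h2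
  refine h2.trans ?_
  calc _ ≤ 4 / (d * l) ^ 2 * (2 * (2 * (C * l))) :=
        mul_le_mul_of_nonneg_left (h3.trans h1) (by positivity)
    _ = _ := by field_simp; ring

theorem coef_nonneg {q : ℕ} (hq : 2 ≤ q) {f : ℝ → ℝ} {x : ℝ} (hf : Adm f x) {n : ℕ}
    (hn : n ∈ Icc 1 ⌊(q : ℝ) ^ x⌋₊) :
    0 ≤ vonMangoldt n / (n * Real.log q) * f (Real.log n / Real.log q) := by
  obtain ⟨h1, h2⟩ := mem_Icc.1 hn
  have hq1 : (1 : ℝ) < q := by exact_mod_cast hq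
  have hl : 0 < Real.log q := Real.log_pos hq1
  have hn1 : (1 : ℝ) ≤ n := by exact_mod_cast h1
  have h3 : (n : ℝ) ≤ (q : ℝ) ^ x := (Nat.le_floor_iff (by positivity)).1 h2
  have h4 : Real.log n ≤ x * Real.log q := by
    rw [← Real.log_rpow (by linarith)]
    exact Real.log_le_log (by linarith) h3
  have h5 : 0 ≤ vonMangoldt n := vonMangoldt_nonneg
  exact mul_nonneg (by positivity)
    (hf.nonneg _ (div_nonneg (Real.log_nonneg hn1) hl.le) ((div_le_iff₀ hl).2 h4))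

theorem kn_le {q : ℕ} (hq : 2 ≤ q) {f : ℝ → ℝ} {x : ℝ} (hf : Adm f x) (χ : Ch q) (κ : ℝ) :
    ‖Kn q f x χ κ‖ ≤ (Kn q f x 1 κ).re := by
  unfold Kn
  rw [re_sum]
  refine (norm_sum_le _ _).trans (sum_le_sum fun n hn => ?_)
  have h0 := coef_nonneg hq hf hn
  rw [← ofReal_mul, ← ofReal_exp]
  by_cases hu : IsUnit (n : ZMod q)
  · rw [MulChar.one_apply hu, mul_one, ← ofReal_mul, ofReal_re, norm_mul, norm_mul, norm_real,
      norm_real, Real.norm_of_nonneg h0, Real.norm_of_nonneg (Real.exp_pos _).le]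
    refine mul_le_mul_of_nonneg_right ?_ (Real.exp_pos _).le
    exact mul_le_of_le_one_right h0 (χ.norm_le_one _)
  · simp [MulChar.map_nonunit _ hu]

end PcA

open PcA in
theorem pcOf : PcOf := by
  intro hCnt hLp hAdm hKf hZ κ ε hκ0 hκ hε
  obtain ⟨C, hC, hCnt⟩ := hCnt
  obtain ⟨c, hc, hZ⟩ := hZ
  obtain ⟨-, -, hB, hH, -⟩ := hAdm
  obtain ⟨hf, hBk, hH2⟩ := hB κ hκ0
  obtain ⟨-, hLr, -⟩ := hLp _ _ hf
  obtain ⟨e, he, he'⟩ : ∃ e : ℝ, 0 < e ∧ e = ε / 48 := ⟨_, by positivity, rfl⟩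
  obtain ⟨δ, d, hδ, hd, hd1, q₁, hK⟩ := hKf _ _ e hf he
  obtain ⟨L, hL1, hL2, hL3⟩ : ∃ L : ℝ, 10 / δ ≤ L ∧ 20 / c ≤ L ∧ 64 * C / (d ^ 2 * e) ≤ L :=
    ⟨max (10 / δ) (max (20 / c) (64 * C / (d ^ 2 * e))), le_max_left _ _,
      (le_max_left _ _).trans (le_max_right _ _), (le_max_right _ _).trans (le_max_right _ _)⟩
  refine ⟨max (max q₁ 2) ⌈Real.exp L⌉₊, fun q _ hq N hN χ hχ => ?_⟩
  have hq1 : q₁ ≤ q := ((le_max_left _ _).trans (le_max_left _ _)).trans hq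
  have hq2 : 2 ≤ q := ((le_max_right _ _).trans (le_max_left _ _)).trans hq
  have hq3 : Real.exp L ≤ q := Nat.ceil_le.1 ((le_max_right _ _).trans hq)
  have hqr : (1 : ℝ) < q := by exact_mod_cast hq2
  have hl : 0 < Real.log q := Real.log_pos hqr
  have hL : L ≤ Real.log q := (Real.le_log_iff_exp_le (by linarith)).2 hq3
  have hK := hK q hq1 N hN
  have hκδ : κ ≤ δ * Real.log q := by
    have := (div_le_iff₀ hδ).1 (hL1.trans hL)
    linarith
  have hTh : |(κ : ℂ).im| ≤ (q : ℝ) ^ δ * Real.log q := by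
    rw [ofReal_im, abs_zero]; positivity
  have hHp : ∀ ψ : Ch q, (∀ ζ ∈ N ψ, |ζ.im| ≤ Real.log q → κ ≤ ζ.re) →
      ∀ ζ ∈ N ψ, Hp (Real.log q) κ ζ := by
    intro ψ hψ ζ hζ
    have h0 := (((hCnt q ψ hq2).2 _ (hN ψ)).2.1 ζ hζ).1
    refine ⟨fun h => hψ ζ hζ (by simpa using h), ?_⟩
    have : 0 ≤ Real.log (1 + |ζ.im - (κ : ℂ).im| / Real.log q) :=
      Real.log_nonneg (le_add_of_nonneg_right (by positivity))
    rw [ofReal_re]
    linarith
  have hF : (Lp (fB κ) (1 / 4) (-(κ : ℂ))).re = Lr (fB κ) (1 / 4) (-κ) := by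
    rw [← ofReal_neg, hLr, ofReal_re]
  -- the trivial character
  have h1 : (Kn q (fB κ) (1 / 4) 1 κ).re ≤ Lr (fB κ) (1 / 4) (-κ) + e := by
    have hz : ∀ ζ ∈ N 1, |ζ.im| ≤ Real.log q → κ ≤ ζ.re := by
      intro ζ hζ him
      obtain ⟨-, a1, -, a2⟩ := ((hCnt q 1 hq2).2 _ (hN 1)).2.1 ζ hζ
      have b1 : (1 - ζ / (Real.log q : ℝ)).re = 1 - ζ.re / Real.log q := by
        rw [sub_re, div_ofReal_re, one_re]
      have b2 : (1 - ζ / (Real.log q : ℝ)).im = -(ζ.im / Real.log q) := by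
        rw [sub_im, div_ofReal_im, one_im, zero_sub]
      have b3 : ζ.re / Real.log q ≤ 1 / 3 := by
        rw [div_le_iff₀ hl]; linarith
      have b4 := hZ q _ (by rw [b1]; linarith) a2
      rw [b1, b2, abs_neg, abs_div, abs_of_pos hl] at b4
      have b5 : |ζ.im| / Real.log q ≤ 1 := (div_le_one hl).2 him
      have b6 : 0 ≤ |ζ.im| / Real.log q := by positivity
      have b7 : Real.log (|ζ.im| / Real.log q + 2) ≤ 2 :=
        (Real.log_le_sub_one_of_pos (by linarith)).trans (by linarith)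
      have b8 : 0 < Real.log (|ζ.im| / Real.log q + 2) := Real.log_pos (by linarith)
      have b9 : c / 2 ≤ ζ.re / Real.log q := by
        have : c / 2 ≤ c / Real.log (|ζ.im| / Real.log q + 2) := by gcongr
        linarith
      rw [le_div_iff₀ hl] at b9
      have := (div_le_iff₀ hc).1 (hL2.trans hL)
      linarith
    have := hK 1 κ 0 (Multiset.zero_le _) (by simp) (by simpa using hκ0) (by simpa using hκδ) hTh
      (fun ζ hζ => hHp 1 hz ζ (by simpa using hζ))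
    rw [Rhs, if_pos rfl, hF, Multiset.map_zero, Multiset.sum_zero, sub_zero] at this
    exact this
  obtain ⟨Y, hY⟩ : ∃ Y, Y = (N χ).filter fun ζ => ‖ζ‖ ≤ d * Real.log q := ⟨_, rfl⟩
  have hYle : Y ≤ N χ := hY ▸ Multiset.filter_le _ _
  have hYn : ∀ ζ ∈ Y, ‖ζ‖ ≤ d * Real.log q := fun ζ hζ => by
    rw [hY] at hζ
    exact (Multiset.mem_filter.1 hζ).2
  have h2 := hK χ κ Y hYle (by
      rw [Multiset.filter_eq_nil.2 fun ζ hζ => by simpa using hYn ζ hζ]; simp)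
    (by simpa using hκ0) (by simpa using hκδ) hTh
    (fun ζ hζ => hHp χ hχ ζ (Multiset.mem_of_le (Multiset.sub_le_self _ _) hζ))
  have hf0 : 0 ≤ fB κ 0 := hf.nonneg 0 le_rfl (by norm_num)
  have h3 : (Y.map fun ζ => (Lp (fB κ) (1 / 4) (ζ - κ)).re).sum ≤ Bk κ / 16 + 2 * e := by
    have k1 := kn_le hq2 hf χ κ
    have k2 := (abs_le.1 (abs_re_le_norm (Kn q (fB κ) (1 / 4) χ κ))).1
    have k3 := (norm_nonneg _).trans k1
    unfold Rhs at h2
    split_ifs at h2 with h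
    · subst h
      rw [hF] at h2
      linarith
    · linarith
  obtain ⟨c1, c2, -⟩ := (hCnt q χ hq2).2 _ (hN χ)
  have h4 : (Y.map fun ζ => ‖H2 ζ‖).sum ≤ (Y.map fun ζ => (Lp (fB κ) (1 / 4) (ζ - κ)).re).sum := by
    refine Multiset.sum_map_le_sum_map _ _ fun ζ hζ => ?_
    have a0 := Multiset.mem_of_le hYle hζ
    have a1 := (c2 ζ a0).1
    refine hH2 ζ (by rintro rfl; simp at a1) (hχ ζ a0 ?_)
    have := mul_le_of_le_one_left hl.le hd1
    exact (abs_im_le_norm ζ).trans ((hYn ζ hζ).trans this)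
  have h5 : (((N χ).filter fun ζ => ¬ ‖ζ‖ ≤ d * Real.log q).map fun ζ => ‖H2 ζ‖).sum ≤ e := by
    have a0 := far_sum hl (by linarith) hd hd1 c1
    have a1 : (((N χ).filter fun ζ => ¬ ‖ζ‖ ≤ d * Real.log q).map fun ζ => ‖H2 ζ‖).sum ≤
        (((N χ).filter fun ζ => ¬ ‖ζ‖ ≤ d * Real.log q).map fun ζ => 4 * (1 / ‖ζ‖ ^ 2)).sum := by
      refine Multiset.sum_map_le_sum_map _ _ fun ζ hζ => ?_
      rw [mul_one_div]
      exact (hH ζ (c2 ζ (Multiset.mem_filter.1 hζ).1).1).1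
    rw [Multiset.sum_map_mul_left] at a1
    have a2 : 4 * (16 * C / (d ^ 2 * Real.log q)) ≤ e := by
      have := (div_le_iff₀ (by positivity)).1 (hL3.trans hL)
      rw [← mul_div_assoc, div_le_iff₀ (by positivity)]
      nlinarith
    linarith
  rw [← Multiset.filter_add_not (fun ζ => ‖ζ‖ ≤ d * Real.log q) (N χ), Multiset.map_add,
    Multiset.sum_add, ← hY]
  linarith

end Pool.Agent.MP_c5bf7b_nt.H38
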