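import Pool.Agent.MP_c5bf7b_nt.H38.SpecA

/-! The mean square of the weights of Barban and Vehov. -/

set_option autoImplicit false

namespace Pool.Agent.MP_c5bf7b_nt.H38

open Finset ArithmeticFunction MeasureTheory

namespace Bv

theorem mu_eq (η : ℝ) {y : ℝ} (hy : 0 < y) {K : ℕ} (hK : ⌊y⌋₊ ≤ K) :
    Mu η y = ∑ m ∈ Icc 1 K, (moebius m : ℝ) * (m : ℝ) ^ (-1 - η) * max 0 (Real.log (y / m)) := by
  unfold Mu
  symm
  rw [← Finset.sum_subset (Finset.Icc_subset_Icc_right hK) ?_]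
  · refine sum_congr rfl fun m hm => ?_
    obtain ⟨h1, h2⟩ := mem_Icc.1 hm
    have hm0 : (0 : ℝ) < m := by exact_mod_cast h1
    have h3 : (m : ℝ) ≤ y := (Nat.le_floor_iff hy.le).1 h2
    rw [max_eq_right (Real.log_nonneg ((one_le_div hm0).2 h3))]
  · intro m hm hm'
    have h1 := (mem_Icc.1 hm).1
    have hm0 : (0 : ℝ) < m := by exact_mod_cast h1
    have h2 : ⌊y⌋₊ < m := by
      by_contra h
      exact hm' (mem_Icc.2 ⟨h1, not_lt.1 h⟩)
    have h3 : y < m := (Nat.floor_lt hy.le).1 h2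
    rw [max_eq_left (Real.log_nonpos (div_pos hy hm0).le ((div_le_one hm0).2 h3.le)), mul_zero]

theorem mu_exp (η : ℝ) {t Y : ℝ} (h : t ≤ Y) : Mu η (Real.exp t) =
    ∑ m ∈ Icc 1 ⌊Real.exp Y⌋₊, (moebius m : ℝ) * (m : ℝ) ^ (-1 - η) * max 0 (t - Real.log m) := by
  rw [mu_eq η (Real.exp_pos t) (Nat.floor_le_floor (Real.exp_le_exp.2 h))]
  refine sum_congr rfl fun m hm => ?_
  have hm0 : (0 : ℝ) < m := by exact_mod_cast (mem_Icc.1 hm).1
  rw [Real.log_div (Real.exp_pos t).ne' hm0.ne', Real.log_exp]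

theorem mu_cont : Continuous fun t => Mu 0 (Real.exp t) := by
  refine continuous_iff_continuousAt.2 fun t => ?_
  have hc : Continuous fun s : ℝ => ∑ m ∈ Icc 1 ⌊Real.exp (t + 1)⌋₊,
      (moebius m : ℝ) * (m : ℝ) ^ (-1 - 0 : ℝ) * max 0 (s - Real.log m) :=
    continuous_finsetSum _ fun m _ => by fun_prop
  refine hc.continuousAt.congr ?_
  filter_upwards [Iic_mem_nhds (lt_add_one t)] with s hs
  exact (mu_exp 0 hs).symm

theorem mu_small (η : ℝ) {y : ℝ} (hy : y < 1) : Mu η y = 0 := by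
  unfold Mu
  rw [Nat.floor_eq_zero.2 hy]
  simp

noncomputable def gg (η Y t : ℝ) : ℝ := (η ^ 2 * (Y - t) + 2 * η) * Real.exp (-η * t)

theorem gg_cont (η Y : ℝ) : Continuous (gg η Y) := by unfold gg; fun_prop

theorem hd_exp (η t : ℝ) :
    HasDerivAt (fun t => Real.exp (-η * t)) (Real.exp (-η * t) * (-η * 1)) t :=
  ((hasDerivAt_id t).const_mul (-η)).exp

theorem hd_g1 (η Y t : ℝ) :
    HasDerivAt (fun t => -(η * (Y - t) + 1) * Real.exp (-η * t)) (gg η Y t) t := by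
  have h1 : HasDerivAt (fun t => -(η * (Y - t) + 1)) (-(η * (-1))) t :=
    ((((hasDerivAt_id t).const_sub Y).const_mul η).add_const 1).neg
  refine (h1.mul (hd_exp η t)).congr_deriv ?_
  unfold gg
  ring

theorem int_gg (η Y : ℝ) : ∫ t in (0 : ℝ)..Y, gg η Y t = 1 + η * Y - Real.exp (-η * Y) := by
  rw [intervalIntegral.integral_eq_sub_of_hasDerivAt (fun t _ => hd_g1 η Y t)
    ((gg_cont η Y).intervalIntegrable _ _)]
  simp only [mul_zero, Real.exp_zero]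
  ring

theorem taylor (η : ℝ) {Y a : ℝ} (h0 : 0 ≤ a) (h1 : a ≤ Y) :
    ∫ t in (0 : ℝ)..Y, gg η Y t * max 0 (t - a) =
      Real.exp (-η * a) * (Y - a) - Real.exp (-η * Y) * (Y - a) := by
  have hc : Continuous fun t => gg η Y t * max 0 (t - a) := (gg_cont η Y).mul (by fun_prop)
  rw [← intervalIntegral.integral_add_adjacent_intervals (hc.intervalIntegrable 0 a)
    (hc.intervalIntegrable a Y)]
  have e1 : ∫ t in (0 : ℝ)..a, gg η Y t * max 0 (t - a) = ∫ _ in (0 : ℝ)..a, (0 : ℝ) := by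
    refine intervalIntegral.integral_congr fun t ht => ?_
    rw [Set.uIcc_of_le h0] at ht
    rw [max_eq_left (sub_nonpos.2 ht.2), mul_zero]
  have e2 : ∫ t in a..Y, gg η Y t * max 0 (t - a) = ∫ t in a..Y, gg η Y t * (t - a) := by
    refine intervalIntegral.integral_congr fun t ht => ?_
    rw [Set.uIcc_of_le h1] at ht
    rw [max_eq_right (sub_nonneg.2 ht.1)]
  have hd : ∀ t, HasDerivAt (fun t => -(η * (Y - t) + 1) * Real.exp (-η * t) * (t - a) -
      Real.exp (-η * t) * (Y - t)) (gg η Y t * (t - a)) t := by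
    intro t
    refine (((hd_g1 η Y t).mul ((hasDerivAt_id t).sub_const a)).sub
      ((hd_exp η t).mul ((hasDerivAt_id t).const_sub Y))).congr_deriv ?_
    simp only [id]
    ring
  have hc2 : Continuous fun t => gg η Y t * (t - a) := (gg_cont η Y).mul (by fun_prop)
  rw [e1, e2, intervalIntegral.integral_zero,
    intervalIntegral.integral_eq_sub_of_hasDerivAt (fun t _ => hd t) (hc2.intervalIntegrable _ _)]
  ring

theorem mu_id (η : ℝ) {Y : ℝ} (hY : 0 ≤ Y) :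
    Mu η (Real.exp Y) - (1 + η * Y) = Real.exp (-η * Y) * (Mu 0 (Real.exp Y) - 1) +
      ∫ t in (0 : ℝ)..Y, gg η Y t * (Mu 0 (Real.exp t) - 1) := by
  have e1 : ∫ t in (0 : ℝ)..Y, gg η Y t * (Mu 0 (Real.exp t) - 1) =
      ∫ t in (0 : ℝ)..Y, (∑ m ∈ Icc 1 ⌊Real.exp Y⌋₊, (moebius m : ℝ) * (m : ℝ) ^ (-1 - 0 : ℝ) *
        (gg η Y t * max 0 (t - Real.log m)) - gg η Y t) := by
    refine intervalIntegral.integral_congr fun t ht => ?_
    rw [Set.uIcc_of_le hY] at ht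
    rw [mu_exp 0 ht.2, mul_sub, mul_one, mul_sum]
    congr 1
    exact sum_congr rfl fun m _ => by ring
  have hc : ∀ m : ℕ, Continuous fun t => (moebius m : ℝ) * (m : ℝ) ^ (-1 - 0 : ℝ) *
      (gg η Y t * max 0 (t - Real.log m)) := fun m =>
    continuous_const.mul ((gg_cont η Y).mul (by fun_prop))
  rw [e1, intervalIntegral.integral_sub
    ((continuous_finsetSum _ fun m _ => hc m).intervalIntegrable _ _)
    ((gg_cont η Y).intervalIntegrable _ _),
    intervalIntegral.integral_finsetSum fun m _ => (hc m).intervalIntegrable _ _, int_gg,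
    mu_exp η (le_refl Y), mu_exp 0 (le_refl Y), mul_sub, mul_sum]
  have e2 : ∀ m ∈ Icc 1 ⌊Real.exp Y⌋₊,
      (moebius m : ℝ) * (m : ℝ) ^ (-1 - η) * max 0 (Y - Real.log m) =
        Real.exp (-η * Y) * ((moebius m : ℝ) * (m : ℝ) ^ (-1 - 0 : ℝ) * max 0 (Y - Real.log m)) +
          ∫ t in (0 : ℝ)..Y, (moebius m : ℝ) * (m : ℝ) ^ (-1 - 0 : ℝ) *
            (gg η Y t * max 0 (t - Real.log m)) := by
    intro m hm
    obtain ⟨h1, h2⟩ := mem_Icc.1 hm
    have hm1 : (1 : ℝ) ≤ m := by exact_mod_cast h1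
    have hm0 : (0 : ℝ) < m := by linarith
    have h3 : Real.log m ≤ Y :=
      (Real.log_le_iff_le_exp hm0).2 ((Nat.le_floor_iff (Real.exp_pos Y).le).1 h2)
    have h4 : (m : ℝ) ^ (-1 - η) = (m : ℝ) ^ (-1 - 0 : ℝ) * Real.exp (-η * Real.log m) := by
      rw [Real.rpow_def_of_pos hm0, Real.rpow_def_of_pos hm0, ← Real.exp_add]
      congr 1
      ring
    rw [intervalIntegral.integral_const_mul, taylor η (Real.log_nonneg hm1) h3,
      max_eq_right (sub_nonneg.2 h3), h4]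
    ring
  rw [sum_congr rfl e2, sum_add_distrib]
  ring

theorem est {C η Y B δ t₀ : ℝ} (hC : ∀ y, |Mu 0 y| ≤ C) (hη : 0 ≤ η) (h0 : 0 ≤ t₀) (h1 : t₀ ≤ Y)
    (hB : η * Y ≤ B) (hδ : ∀ t, t₀ ≤ t → |Mu 0 (Real.exp t) - 1| ≤ δ) :
    |Mu η (Real.exp Y) - (1 + η * Y)| ≤
      δ + η * (B + 2) * (C + 1) * t₀ + δ * ((B + 2) * B) := by
  have hY : 0 ≤ Y := h0.trans h1
  have hδ0 : 0 ≤ δ := (abs_nonneg _).trans (hδ Y h1)
  have hB0 : 0 ≤ B := (mul_nonneg hη hY).trans hB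
  have hc : Continuous fun t => gg η Y t * (Mu 0 (Real.exp t) - 1) :=
    (gg_cont η Y).mul (mu_cont.sub continuous_const)
  have hg : ∀ t, 0 ≤ t → t ≤ Y → |gg η Y t| ≤ η * (B + 2) := by
    intro t a b
    have e1 : Real.exp (-η * t) ≤ 1 := Real.exp_le_one_iff.2 (by nlinarith)
    have e2 : 0 ≤ η ^ 2 * (Y - t) + 2 * η := by
      have := mul_nonneg (sq_nonneg η) (sub_nonneg.2 b)
      linarith
    have e3 : η ^ 2 * (Y - t) + 2 * η ≤ η * (B + 2) := by
      have a1 : η * (η * Y) ≤ η * B := mul_le_mul_of_nonneg_left hB hη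
      have a2 : 0 ≤ η ^ 2 * t := mul_nonneg (sq_nonneg η) a
      nlinarith
    unfold gg
    rw [abs_of_nonneg (mul_nonneg e2 (Real.exp_pos _).le)]
    exact (mul_le_of_le_one_right e2 e1).trans e3
  have g0 : 0 ≤ η * (B + 2) := by positivity
  have i1 : ‖∫ t in (0 : ℝ)..t₀, gg η Y t * (Mu 0 (Real.exp t) - 1)‖ ≤
      η * (B + 2) * (C + 1) * |t₀ - 0| := by
    refine intervalIntegral.norm_integral_le_of_norm_le_const fun t ht => ?_
    rw [Set.uIoc_of_le h0] at ht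
    rw [Real.norm_eq_abs, abs_mul]
    refine mul_le_mul (hg t ht.1.le (ht.2.trans h1)) ?_ (abs_nonneg _) g0
    have := abs_sub (Mu 0 (Real.exp t)) 1
    rw [abs_one] at this
    linarith [hC (Real.exp t)]
  have i2 : ‖∫ t in t₀..Y, gg η Y t * (Mu 0 (Real.exp t) - 1)‖ ≤ η * (B + 2) * δ * |Y - t₀| := by
    refine intervalIntegral.norm_integral_le_of_norm_le_const fun t ht => ?_
    rw [Set.uIoc_of_le h1] at ht
    rw [Real.norm_eq_abs, abs_mul]
    exact mul_le_mul (hg t (h0.trans ht.1.le) ht.2) (hδ t ht.1.le) (abs_nonneg _) g0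
  rw [sub_zero, abs_of_nonneg h0, Real.norm_eq_abs] at i1
  rw [abs_of_nonneg (sub_nonneg.2 h1), Real.norm_eq_abs] at i2
  have i3 : |Real.exp (-η * Y) * (Mu 0 (Real.exp Y) - 1)| ≤ δ := by
    rw [abs_mul, abs_of_pos (Real.exp_pos _)]
    have e1 : Real.exp (-η * Y) ≤ 1 := Real.exp_le_one_iff.2 (by nlinarith)
    exact (mul_le_of_le_one_left (abs_nonneg _) e1).trans (hδ Y h1)
  have i4 : η * (B + 2) * δ * (Y - t₀) ≤ δ * ((B + 2) * B) := by
    have a1 : η * (Y - t₀) ≤ B := by nlinarith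
    have a2 : 0 ≤ δ * (B + 2) := by positivity
    have := mul_le_mul_of_nonneg_left a1 a2
    linarith
  rw [mu_id η hY, ← intervalIntegral.integral_add_adjacent_intervals
    (hc.intervalIntegrable 0 t₀) (hc.intervalIntegrable t₀ Y)]
  refine (abs_add_le _ _).trans ?_
  have := abs_add_le (∫ t in (0 : ℝ)..t₀, gg η Y t * (Mu 0 (Real.exp t) - 1))
    (∫ t in t₀..Y, gg η Y t * (Mu 0 (Real.exp t) - 1))
  linarith

theorem bdd {C η y B : ℝ} (hC : ∀ y, |Mu 0 y| ≤ C) (hη : 0 ≤ η) (hB0 : 0 ≤ B)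
    (hB : η * Real.log y ≤ B) : |Mu η y| ≤ 1 + B + (C + 1) * (1 + (B + 2) * B) := by
  have C0 : 0 ≤ C := (abs_nonneg _).trans (hC 0)
  by_cases hy : y < 1
  · rw [mu_small η hy, abs_zero]
    positivity
  have hy1 : 1 ≤ y := not_lt.1 hy
  have hl := Real.log_nonneg hy1
  have h := est (δ := C + 1) hC hη le_rfl hl hB fun t _ => by
    have := abs_sub (Mu 0 (Real.exp t)) 1
    rw [abs_one] at this
    linarith [hC (Real.exp t)]
  rw [Real.exp_log (by linarith)] at h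
  have h2 := mul_nonneg hη hl
  rw [abs_le] at h ⊢
  constructor <;> nlinarith [h.1, h.2]

theorem slope_le {f G : ℝ → ℝ} {a b : ℝ} (hG : ∀ t ∈ Set.Icc a b, HasDerivAt G (f t) t)
    (hf : AntitoneOn f (Set.Icc a b)) {s t : ℝ} (h1 : a ≤ s) (h2 : s ≤ t) (h3 : t ≤ b) :
    f t * (t - s) ≤ G t - G s := by
  rcases h2.eq_or_lt with rfl | h2
  · simp
  obtain ⟨c, hc, e⟩ := exists_hasDerivAt_eq_slope G f h2
    (fun x hx => (hG x ⟨h1.trans hx.1, hx.2.trans h3⟩).continuousAt.continuousWithinAt)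
    (fun x hx => hG x ⟨h1.trans hx.1.le, hx.2.le.trans h3⟩)
  have h4 : f t ≤ f c := hf ⟨h1.trans hc.1.le, hc.2.le.trans h3⟩ ⟨h1.trans h2.le, h3⟩ hc.2.le
  rw [e, le_div_iff₀ (sub_pos.2 h2)] at h4
  exact h4

theorem sum_le {f G : ℝ → ℝ} {a b : ℝ} (ha : 0 ≤ a) (hab : a ≤ b)
    (hG : ∀ t ∈ Set.Icc a b, HasDerivAt G (f t) t) (hf : AntitoneOn f (Set.Icc a b))
    (h0 : ∀ t ∈ Set.Icc a b, 0 ≤ f t) : ∑ n ∈ Ioc ⌊a⌋₊ ⌊b⌋₊, f n ≤ f a + (G b - G a) := by
  have mono : ∀ s t, a ≤ s → s ≤ t → t ≤ b → G s ≤ G t := by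
    intro s t h1 h2 h3
    have := slope_le hG hf h1 h2 h3
    have := mul_nonneg (h0 t ⟨h1.trans h2, h3⟩) (sub_nonneg.2 h2)
    linarith
  have key : ∀ k : ℕ, ⌊a⌋₊ + 1 ≤ k → (k : ℝ) ≤ b →
      ∑ n ∈ Ioc ⌊a⌋₊ k, f n ≤ f a + (G k - G a) := by
    intro k hk
    induction k, hk using Nat.le_induction with
    | base =>
      intro hb
      have h1 : a ≤ ((⌊a⌋₊ + 1 : ℕ) : ℝ) := by push_cast; exact (Nat.lt_floor_add_one a).le
      rw [Nat.Ioc_succ_singleton, sum_singleton]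
      have := hf ⟨le_rfl, hab⟩ ⟨h1, hb⟩ h1
      have := mono a _ le_rfl h1 hb
      linarith
    | succ k hk ih =>
      intro hb
      have h1 : a ≤ (k : ℝ) := by
        have : ((⌊a⌋₊ + 1 : ℕ) : ℝ) ≤ k := by exact_mod_cast hk
        push_cast at this
        linarith [Nat.lt_floor_add_one a]
      have h2 : (k : ℝ) ≤ ((k + 1 : ℕ) : ℝ) := by push_cast; linarith
      rw [sum_Ioc_succ_top (by omega)]
      have h3 := slope_le hG hf h1 h2 hb
      have h4 : ((k + 1 : ℕ) : ℝ) - k = 1 := by push_cast; ring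
      rw [h4, mul_one] at h3
      have := ih (h2.trans hb)
      linarith
  by_cases h : ⌊a⌋₊ + 1 ≤ ⌊b⌋₊
  · have hb : (⌊b⌋₊ : ℝ) ≤ b := Nat.floor_le (ha.trans hab)
    have h1 : a ≤ (⌊b⌋₊ : ℝ) := by
      have : ((⌊a⌋₊ + 1 : ℕ) : ℝ) ≤ ⌊b⌋₊ := by exact_mod_cast h
      push_cast at this
      linarith [Nat.lt_floor_add_one a]
    have := key _ h hb
    have := mono _ _ h1 hb le_rfl
    linarith
  · rw [Ioc_eq_empty (by omega), sum_empty]
    have := h0 a ⟨le_rfl, hab⟩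
    have := mono _ _ le_rfl hab le_rfl
    linarith

theorem exp_rpow (a p : ℝ) : Real.exp a ^ p = Real.exp (a * p) := (Real.exp_mul a p).symm

theorem hd_pow (η : ℝ) {t : ℝ} (ht : 0 < t) :
    HasDerivAt (fun t : ℝ => t ^ (-η)) (-η * t ^ (-1 - η)) t := by
  have h := Real.hasDerivAt_rpow_const (x := t) (p := -η) (Or.inl ht.ne')
  rwa [show -η - 1 = -1 - η by ring] at h

theorem sum_one {η a b : ℝ} (hη : 0 < η) (ha : 0 ≤ a) (hab : a ≤ b) :
    ∑ n ∈ Ioc ⌊Real.exp a⌋₊ ⌊Real.exp b⌋₊, (n : ℝ) ^ (-1 - η) ≤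
      1 + (Real.exp (-η * a) - Real.exp (-η * b)) / η := by
  have h := sum_le (f := fun t => t ^ (-1 - η)) (G := fun t => -t ^ (-η) / η) (Real.exp_pos a).le
    (Real.exp_le_exp.2 hab) (fun t ht => by
      refine ((hd_pow η ((Real.exp_pos a).trans_le ht.1)).neg.div_const η).congr_deriv ?_
      field_simp)
    (fun s hs t _ hst => Real.rpow_le_rpow_of_nonpos ((Real.exp_pos a).trans_le hs.1) hst
      (by linarith))
    (fun t ht => Real.rpow_nonneg ((Real.exp_pos a).trans_le ht.1).le _)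
  refine h.trans ?_
  simp only [exp_rpow]
  have e1 : Real.exp (a * (-1 - η)) ≤ 1 := Real.exp_le_one_iff.2 (by nlinarith)
  rw [mul_comm a (-η), mul_comm b (-η)]
  have e2 : -Real.exp (-η * b) / η - -Real.exp (-η * a) / η =
      (Real.exp (-η * a) - Real.exp (-η * b)) / η := by ring
  linarith

theorem sum_short {η a t : ℝ} (hη : 0 < η) (ht : 0 ≤ t) (ha : t ≤ a) :
    ∑ n ∈ Ioc ⌊Real.exp (a - t)⌋₊ ⌊Real.exp a⌋₊, (n : ℝ) ^ (-1 - η) ≤ 1 + t := by
  refine (sum_one hη (sub_nonneg.2 ha) (sub_le_self a ht)).trans ?_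
  have e : Real.exp (-η * a) = Real.exp (-η * (a - t)) * Real.exp (-(η * t)) := by
    rw [← Real.exp_add]; congr 1; ring
  have e1 : Real.exp (-η * (a - t)) ≤ 1 := Real.exp_le_one_iff.2 (by nlinarith)
  have e2 := Real.add_one_le_exp (-(η * t))
  have e3 := Real.exp_pos (-η * (a - t))
  have e4 := mul_nonneg hη.le ht
  have : (Real.exp (-η * (a - t)) - Real.exp (-η * a)) / η ≤ t := by
    rw [div_le_iff₀ hη, e]
    nlinarith
  linarith

theorem sum_two {η a b : ℝ} (hη : 0 < η) (ha : 0 ≤ a) (hab : a ≤ b) :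
    ∑ n ∈ Ioc ⌊Real.exp a⌋₊ ⌊Real.exp b⌋₊, (n : ℝ) ^ (-1 - η) * (1 + η * (b - Real.log n)) ^ 2 ≤
      (1 + η * (b - a)) ^ 2 +
        (Real.exp (-η * a) * ((η * (b - a)) ^ 2 + 1) - Real.exp (-η * b)) / η := by
  have nn : ∀ t ∈ Set.Icc (Real.exp a) (Real.exp b), 0 ≤ 1 + η * (b - Real.log t) := by
    intro t ht
    have := (Real.log_le_iff_le_exp ((Real.exp_pos a).trans_le ht.1)).2 ht.2
    have := mul_nonneg hη.le (sub_nonneg.2 this)
    linarith
  have h := sum_le (f := fun t => t ^ (-1 - η) * (1 + η * (b - Real.log t)) ^ 2)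
    (G := fun t => -(t ^ (-η) * ((η * (b - Real.log t)) ^ 2 + 1)) / η) (Real.exp_pos a).le
    (Real.exp_le_exp.2 hab) (fun t ht => by
      have ht0 : 0 < t := (Real.exp_pos a).trans_le ht.1
      have h1 := ((((Real.hasDerivAt_log ht0.ne').const_sub b).const_mul η).fun_pow 2).add_const 1
      refine (((hd_pow η ht0).mul h1).neg.div_const η).congr_deriv ?_
      have e : t ^ (-η) = t ^ (-1 - η) * t := by
        rw [← Real.rpow_add_one ht0.ne']; congr 1; ring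
      rw [e]
      field_simp
      ring)
    (fun s hs t ht hst => by
      have hs0 : 0 < s := (Real.exp_pos a).trans_le hs.1
      refine mul_le_mul (Real.rpow_le_rpow_of_nonpos hs0 hst (by linarith)) ?_ (sq_nonneg _)
        (Real.rpow_nonneg hs0.le _)
      refine pow_le_pow_left₀ (nn t ht) ?_ 2
      have := Real.log_le_log hs0 hst
      nlinarith)
    (fun t ht => mul_nonneg (Real.rpow_nonneg ((Real.exp_pos a).trans_le ht.1).le _) (sq_nonneg _))
  refine h.trans ?_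
  simp only [exp_rpow, Real.log_exp]
  have e1 : Real.exp (a * (-1 - η)) ≤ 1 := Real.exp_le_one_iff.2 (by nlinarith)
  have e2 := mul_le_of_le_one_left (sq_nonneg (1 + η * (b - a))) e1
  rw [mul_comm a (-η), mul_comm b (-η)]
  have e3 : -(Real.exp (-η * b) * ((η * (b - b)) ^ 2 + 1)) / η -
      -(Real.exp (-η * a) * ((η * (b - a)) ^ 2 + 1)) / η =
      (Real.exp (-η * a) * ((η * (b - a)) ^ 2 + 1) - Real.exp (-η * b)) / η := by ring
  linarith

theorem core {η a b t ρ K : ℝ} (br : ℕ → ℝ) (hη : 0 < η) (ht : 0 ≤ t) (hta : t ≤ a)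
    (htb : a + t ≤ b) (hρ : 0 ≤ ρ) (hK : 0 ≤ K)
    (h0 : ∀ n : ℕ, 1 ≤ n → br n ^ 2 ≤ K)
    (h1 : ∀ n : ℕ, 1 ≤ n → (n : ℝ) ≤ Real.exp (a - t) → br n ^ 2 ≤ ρ * (η * (b - a)) ^ 2)
    (h3 : ∀ n : ℕ, Real.exp a < n → (n : ℝ) ≤ Real.exp (b - t) →
      br n ^ 2 ≤ ρ * (1 + η * (b - Real.log n)) ^ 2) :
    ∑ n ∈ Icc 1 ⌊Real.exp b⌋₊, (n : ℝ) ^ (-1 - η) * br n ^ 2 ≤
      ρ * (((η * (b - a)) ^ 2 + Real.exp (-η * a) - Real.exp (-η * b)) / η) +
        (ρ * (2 * (η * (b - a)) ^ 2 + (1 + η * (b - a)) ^ 2) + 2 * K * (1 + t)) := by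
  have ha : 0 ≤ a := ht.trans hta
  have fl : ∀ {x y : ℝ}, x ≤ y → ⌊Real.exp x⌋₊ ≤ ⌊Real.exp y⌋₊ := fun h =>
    Nat.floor_le_floor (Real.exp_le_exp.2 h)
  have pw : ∀ n : ℕ, 0 ≤ (n : ℝ) ^ (-1 - η) := fun n => Real.rpow_nonneg (Nat.cast_nonneg n) _
  have f1 : ∀ {x : ℝ}, 0 ≤ x → 1 ≤ ⌊Real.exp x⌋₊ := fun h =>
    Nat.le_floor (by exact_mod_cast Real.one_le_exp h)
  have short : ∀ x, t ≤ x → ∑ n ∈ Ioc ⌊Real.exp (x - t)⌋₊ ⌊Real.exp x⌋₊,
      (n : ℝ) ^ (-1 - η) * br n ^ 2 ≤ K * (1 + t) := by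
    intro x hx
    refine le_trans ?_ (mul_le_mul_of_nonneg_left (sum_short hη ht hx) hK)
    rw [mul_sum]
    refine sum_le_sum fun n hn => ?_
    rw [mul_comm K]
    exact mul_le_mul_of_nonneg_left (h0 n (by have := (mem_Ioc.1 hn).1; omega)) (pw n)
  have s1 : ∑ n ∈ Ioc 0 ⌊Real.exp (a - t)⌋₊, (n : ℝ) ^ (-1 - η) * br n ^ 2 ≤
      ρ * (η * (b - a)) ^ 2 * (2 + (1 - Real.exp (-η * a)) / η) := by
    have b1 := sum_one hη le_rfl ha
    simp only [mul_zero, Real.exp_zero, Nat.floor_one] at b1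
    have b2 : ∑ n ∈ Ioc 0 ⌊Real.exp (a - t)⌋₊, (n : ℝ) ^ (-1 - η) ≤
        2 + (1 - Real.exp (-η * a)) / η := by
      refine (sum_le_sum_of_subset_of_nonneg (Ioc_subset_Ioc_right (fl (sub_le_self a ht)))
        fun n _ _ => pw n).trans ?_
      rw [← sum_Ioc_consecutive _ zero_le_one (f1 ha)]
      have : ∑ n ∈ Ioc 0 1, ((n : ℕ) : ℝ) ^ (-1 - η) = 1 := by
        rw [show Ioc 0 1 = {1} from rfl]
        simp
      linarith
    refine le_trans ?_ (mul_le_mul_of_nonneg_left b2 (mul_nonneg hρ (sq_nonneg _)))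
    rw [mul_sum]
    refine sum_le_sum fun n hn => ?_
    rw [mul_comm (ρ * _)]
    obtain ⟨n1, n2⟩ := mem_Ioc.1 hn
    exact mul_le_mul_of_nonneg_left
      (h1 n n1 ((Nat.le_floor_iff (Real.exp_pos _).le).1 n2)) (pw n)
  have s3 : ∑ n ∈ Ioc ⌊Real.exp a⌋₊ ⌊Real.exp (b - t)⌋₊, (n : ℝ) ^ (-1 - η) * br n ^ 2 ≤
      ρ * ((1 + η * (b - a)) ^ 2 +
        (Real.exp (-η * a) * ((η * (b - a)) ^ 2 + 1) - Real.exp (-η * b)) / η) := by
    refine le_trans ?_ (mul_le_mul_of_nonneg_left (sum_two hη ha (by linarith)) hρ)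
    refine le_trans ?_ (mul_le_mul_of_nonneg_left (sum_le_sum_of_subset_of_nonneg
      (Ioc_subset_Ioc_right (fl (sub_le_self b ht)))
      fun n _ _ => mul_nonneg (pw n) (sq_nonneg _)) hρ)
    rw [mul_sum]
    refine sum_le_sum fun n hn => ?_
    obtain ⟨n1, n2⟩ := mem_Ioc.1 hn
    rw [mul_left_comm]
    exact mul_le_mul_of_nonneg_left (h3 n ((Nat.floor_lt (Real.exp_pos _).le).1 n1)
      ((Nat.le_floor_iff (Real.exp_pos _).le).1 n2)) (pw n)
  have s2 := short a hta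
  have s4 := short b (by linarith)
  rw [show Icc 1 ⌊Real.exp b⌋₊ = Ioc 0 ⌊Real.exp b⌋₊ from rfl,
    ← sum_Ioc_consecutive _ (Nat.zero_le _) (fl (sub_le_self b ht)),
    ← sum_Ioc_consecutive _ (Nat.zero_le _) (fl (show a ≤ b - t by linarith)),
    ← sum_Ioc_consecutive _ (Nat.zero_le _) (fl (sub_le_self a ht))]
  have e : ρ * (((η * (b - a)) ^ 2 + Real.exp (-η * a) - Real.exp (-η * b)) / η) +
      (ρ * (2 * (η * (b - a)) ^ 2 + (1 + η * (b - a)) ^ 2) + 2 * K * (1 + t)) =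
      ρ * (η * (b - a)) ^ 2 * (2 + (1 - Real.exp (-η * a)) / η) + K * (1 + t) +
      ρ * ((1 + η * (b - a)) ^ 2 +
        (Real.exp (-η * a) * ((η * (b - a)) ^ 2 + 1) - Real.exp (-η * b)) / η) + K * (1 + t) := by
    ring
  linarith

theorem beta_eq (η : ℝ) {a b : ℝ} (hab : a ≤ b) {n : ℕ} (hn : 1 ≤ n) :
    ∑ m ∈ Icc 1 ⌊Real.exp b⌋₊, (moebius m : ℝ) * (m : ℝ) ^ (-1 - η) *
      bv (Real.exp a) (Real.exp b) (n * m) =
      (Mu η (Real.exp b / n) - Mu η (Real.exp a / n)) / (b - a) := by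
  have hn1 : (1 : ℝ) ≤ n := by exact_mod_cast hn
  have hn0 : (0 : ℝ) < n := by linarith
  have k : ∀ x, x ≤ b → ⌊Real.exp x / n⌋₊ ≤ ⌊Real.exp b⌋₊ := fun x hx =>
    Nat.floor_le_floor ((div_le_self (Real.exp_pos x).le hn1).trans (Real.exp_le_exp.2 hx))
  rw [mu_eq η (div_pos (Real.exp_pos b) hn0) (k b le_rfl),
    mu_eq η (div_pos (Real.exp_pos a) hn0) (k a hab), ← sum_sub_distrib, sum_div]
  refine sum_congr rfl fun m _ => ?_
  unfold bv
  rw [← Real.exp_sub, Real.log_exp, div_div, div_div]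
  push_cast
  ring

theorem bv_zero {a b : ℝ} (hab : a ≤ b) (d : ℕ) (hd : ⌊Real.exp b⌋₊ < d) :
    bv (Real.exp a) (Real.exp b) d = 0 := by
  have h1 : Real.exp b < d := (Nat.floor_lt (Real.exp_pos b).le).1 hd
  have h0 : (0 : ℝ) < d := (Real.exp_pos b).trans h1
  have k : ∀ x, x ≤ b → max 0 (Real.log (Real.exp x / d)) = 0 := fun x hx =>
    max_eq_left (Real.log_nonpos (div_pos (Real.exp_pos x) h0).le
      ((div_le_one h0).2 ((Real.exp_le_exp.2 hx).trans h1.le)))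
  unfold bv
  rw [k b le_rfl, k a hab, sub_zero, zero_div]

end Bv

open Filter Topology in
theorem bvOf : BvOf := by
  rintro ⟨⟨C, hC⟩, hT⟩ hbv u c θ ε hu hc hθ hε
  have C0 : 0 ≤ C := (abs_nonneg _).trans (hC 0)
  set z := θ * c with hz
  set B := θ * (u + c) with hB
  have z0 : 0 < z := mul_pos hθ hc
  have B0 : 0 < B := by positivity
  set Mn := 1 + Real.exp (-θ * u) * (1 - Real.exp (-θ * c)) / z ^ 2 with hMn
  have M1 : 1 ≤ Mn := by
    have e1 : Real.exp (-θ * c) ≤ 1 := Real.exp_le_one_iff.2 (by nlinarith)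
    have : 0 ≤ Real.exp (-θ * u) * (1 - Real.exp (-θ * c)) / z ^ 2 :=
      div_nonneg (mul_nonneg (Real.exp_pos _).le (by linarith)) (sq_nonneg _)
    linarith
  obtain ⟨κ, κ0, hκ⟩ : ∃ κ : ℝ, 0 < κ ∧ (1 + κ) ^ 2 * Mn < Mn + ε := by
    have t1 : Tendsto (fun κ : ℝ => (1 + κ) ^ 2 * Mn) (𝓝[>] 0) (𝓝 ((1 + 0) ^ 2 * Mn)) :=
      (Continuous.tendsto (by fun_prop) 0).mono_left nhdsWithin_le_nhds
    obtain ⟨κ, h1, h2⟩ := ((t1.eventually (gt_mem_nhds (show (1 + 0) ^ 2 * Mn < Mn + ε by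
      linarith))).and self_mem_nhdsWithin).exists
    exact ⟨κ, h2, h1⟩
  set e := κ * min 1 (z / 2) with he
  have e0 : 0 < e := mul_pos κ0 (lt_min one_pos (half_pos z0))
  have e1 : e ≤ κ := mul_le_of_le_one_right κ0.le (min_le_left _ _)
  have e2 : e ≤ κ * (z / 2) := mul_le_mul_of_nonneg_left (min_le_right _ _) κ0.le
  set δ := e / (2 * (1 + (B + 2) * B)) with hδ
  have δ0 : 0 < δ := by positivity
  have δ1 : δ + δ * ((B + 2) * B) = e / 2 := by
    rw [hδ]; field_simp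
  obtain ⟨t, ht0, ht⟩ : ∃ t : ℝ, 0 ≤ t ∧ ∀ s, t ≤ s → |Mu 0 (Real.exp s) - 1| ≤ δ := by
    obtain ⟨t, ht⟩ := eventually_atTop.1 ((hT.comp Real.tendsto_exp_atTop).eventually
      (Metric.closedBall_mem_nhds 1 δ0))
    exact ⟨max t 0, le_max_right _ _, fun s hs => ht s ((le_max_left _ _).trans hs)⟩
  set C' := 1 + B + (C + 1) * (1 + (B + 2) * B) with hC'
  set K' := (1 + κ) ^ 2 * (2 * z ^ 2 + (1 + z) ^ 2) + 2 * (2 * C') ^ 2 * (1 + t) with hK'
  have tη : Tendsto (fun l : ℝ => θ / l) atTop (𝓝 0) := tendsto_const_nhds.div_atTop tendsto_id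
  have ev1 : ∀ᶠ l : ℝ in atTop, θ / l * (B + 2) * (C + 1) * t < e / 2 := by
    have := ((tη.mul_const (B + 2)).mul_const (C + 1)).mul_const t
    simp only [zero_mul] at this
    exact this.eventually (gt_mem_nhds (half_pos e0))
  have ev2 : ∀ᶠ l : ℝ in atTop,
      (1 + θ / l) * ((1 + κ) ^ 2 * Mn + θ / l * K' / z ^ 2) < Mn + ε := by
    have := (tη.const_add 1).mul (((tη.mul_const K').div_const (z ^ 2)).const_add
      ((1 + κ) ^ 2 * Mn))
    simp only [zero_mul, zero_div, add_zero, one_mul] at this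
    exact this.eventually (gt_mem_nhds hκ)
  obtain ⟨l₀, hl₀⟩ := eventually_atTop.1 (ev1.and (ev2.and ((eventually_gt_atTop (0 : ℝ)).and
    ((eventually_ge_atTop (t / u)).and (eventually_ge_atTop (t / c))))))
  refine ⟨l₀, fun l hl N => ?_⟩
  obtain ⟨l1, l2, l0, l3, l4⟩ := hl₀ l hl
  rw [div_le_iff₀' hu] at l3
  rw [div_le_iff₀' hc] at l4
  set η := θ / l with hη
  have η0 : 0 < η := div_pos hθ l0
  have ηl : η * l = θ := div_mul_cancel₀ _ l0.ne'
  set a := u * l with ha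
  set b := (u + c) * l with hb
  have hba : b - a = c * l := by rw [ha, hb]; ring
  have cl0 : 0 < c * l := mul_pos hc l0
  have hab : a ≤ b := by linarith
  have ηz : η * (b - a) = z := by rw [hba, hz, ← ηl]; ring
  have ηa : -η * a = -θ * u := by rw [ha, ← ηl]; ring
  have ηb : η * b = B := by rw [hb, hB, ← ηl]; ring
  have H := hbv (bv (Real.exp a) (Real.exp b)) ⌊Real.exp b⌋₊ N (1 + η) (by linarith)
    (Bv.bv_zero hab)
  rw [show -(1 + η) = -1 - η by ring, add_sub_cancel_left] at H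
  refine H.trans ?_
  have lg : ∀ (x : ℝ) (n : ℕ), 1 ≤ n → Real.exp x / n = Real.exp (x - Real.log n) := by
    intro x n hn
    rw [Real.exp_sub, Real.exp_log (by exact_mod_cast hn)]
  have near : ∀ (x : ℝ) (n : ℕ), x ≤ b → 1 ≤ n → (n : ℝ) ≤ Real.exp (x - t) →
      |Mu η (Real.exp x / n) - (1 + η * (x - Real.log n))| ≤ e := by
    intro x n hx hn hn'
    have hn1 : (1 : ℝ) ≤ n := by exact_mod_cast hn
    have a1 := (Real.log_le_iff_le_exp (by linarith)).2 hn'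
    have a2 := Real.log_nonneg hn1
    rw [lg x n hn]
    have := Bv.est (Y := x - Real.log n) (B := B) hC η0.le ht0 (by linarith)
      (by rw [← ηb]; exact mul_le_mul_of_nonneg_left (by linarith) η0.le) ht
    linarith
  have bd : ∀ (x : ℝ) (n : ℕ), x ≤ b → 1 ≤ n → |Mu η (Real.exp x / n)| ≤ C' := by
    intro x n hx hn
    have a2 := Real.log_nonneg (show (1 : ℝ) ≤ n by exact_mod_cast hn)
    refine Bv.bdd hC η0.le B0.le ?_
    rw [lg x n hn, Real.log_exp, ← ηb]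
    exact mul_le_mul_of_nonneg_left (by linarith) η0.le
  have hcore := Bv.core (η := η) (a := a) (b := b) (t := t) (ρ := (1 + κ) ^ 2)
    (K := (2 * C') ^ 2) (fun n => Mu η (Real.exp b / n) - Mu η (Real.exp a / n)) η0 ht0 l3
    (by linarith) (sq_nonneg _) (sq_nonneg _)
    (fun n hn => by
      have b1 := abs_le.1 (bd b n le_rfl hn)
      have b2 := abs_le.1 (bd a n hab hn)
      exact sq_le_sq' (by linarith [b1.1, b2.2]) (by linarith [b1.2, b2.1]))
    (fun n hn hn' => by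
      have b1 := abs_le.1 (near b n le_rfl hn (hn'.trans (Real.exp_le_exp.2 (by linarith))))
      have b2 := abs_le.1 (near a n hab hn hn')
      rw [ηz, ← mul_pow]
      have : η * (b - Real.log n) - η * (a - Real.log n) = z := by rw [← ηz]; ring
      have a1 := mul_pos κ0 z0
      exact sq_le_sq' (by linarith only [b1.1, b2.2, this, e2, a1, z0])
        (by linarith only [b1.2, b2.1, this, e2]))
    (fun n hn hn' => by
      have n0 : (0 : ℝ) < n := (Real.exp_pos a).trans hn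
      have n1 : 1 ≤ n := by exact_mod_cast n0
      have b1 := abs_le.1 (near b n le_rfl n1 hn')
      have a1 := (Real.log_le_iff_le_exp n0).2 hn'
      have a2 : 0 ≤ η * (b - Real.log n) := mul_nonneg η0.le (by linarith)
      have a3 := mul_nonneg κ0.le a2
      rw [Bv.mu_small η ((div_lt_one n0).2 hn), sub_zero, ← mul_pow]
      exact sq_le_sq' (by linarith only [b1.1, a2, a3, e1, κ0])
        (by linarith only [b1.2, a2, a3, e1]))
  have hsum : ∑ n ∈ Icc 1 ⌊Real.exp b⌋₊, (n : ℝ) ^ (-1 - η) *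
      (∑ m ∈ Icc 1 ⌊Real.exp b⌋₊, (moebius m : ℝ) * (m : ℝ) ^ (-1 - η) *
        bv (Real.exp a) (Real.exp b) (n * m)) ^ 2 =
      (∑ n ∈ Icc 1 ⌊Real.exp b⌋₊, (n : ℝ) ^ (-1 - η) *
        (Mu η (Real.exp b / n) - Mu η (Real.exp a / n)) ^ 2) / (b - a) ^ 2 := by
    rw [sum_div]
    refine sum_congr rfl fun n hn => ?_
    rw [Bv.beta_eq η hab (mem_Icc.1 hn).1, div_pow, mul_div_assoc]
  have ηb' : Real.exp (-η * b) = Real.exp (-θ * u) * Real.exp (-θ * c) := by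
    rw [← Real.exp_add, neg_mul, ηb, hB]; congr 1; ring
  rw [ηz, ηa, ηb'] at hcore
  have hba' : b - a = z / η := by rw [← ηz]; field_simp
  rw [hsum, hba']
  refine le_trans (mul_le_mul_of_nonneg_left (div_le_div_of_nonneg_right hcore (sq_nonneg _))
    (by positivity)) (le_trans (le_of_eq ?_) l2.le)
  rw [← hK', hMn]
  field_simp
  ring

end Pool.Agent.MP_c5bf7b_nt.H38
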