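import Pool.Agent.MP_c5bf7b_nt.H38.SpecA

/-! The diagonalisation of the weights of Barban and Vehov, one prime at a time. -/

set_option autoImplicit false

namespace Pool.Agent.MP_c5bf7b_nt.H38

open Finset ArithmeticFunction

namespace Bv1A

/-- The inequality for one prime. -/
theorem scalar {x : ℝ} (hx : 0 ≤ x) : ∀ (K : ℕ) (a : ℕ → ℝ), a (K + 1) = 0 →
    (1 - x) * a 0 ^ 2 + x * (a 0 - a 1) ^ 2 ≤
      ∑ k ∈ range (K + 1), x ^ k * (a k - x * a (k + 1)) ^ 2 := by
  intro K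
  induction K with
  | zero =>
    intro a h
    rw [zero_add] at h
    simp only [zero_add, range_one, sum_singleton, h]
    exact le_of_eq (by ring)
  | succ K ih =>
    intro a h
    have h1 := ih (fun k => a (k + 1)) h
    rw [sum_range_succ']
    have e : ∑ k ∈ range (K + 1), x ^ (k + 1) * (a (k + 1) - x * a (k + 1 + 1)) ^ 2 =
        x * ∑ k ∈ range (K + 1), x ^ k * (a (k + 1) - x * a (k + 1 + 1)) ^ 2 := by
      rw [mul_sum]
      exact sum_congr rfl fun k _ => by ring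
    rw [e]
    have h2 := mul_le_mul_of_nonneg_left h1 hx
    have h3 : 0 ≤ x * (x * (a 1 - a 2) ^ 2) := by positivity
    simp only [zero_add] at h2 ⊢
    nlinarith

theorem sum_div {p M : ℕ} (hp : p.Prime) (h : p.Coprime M) (f : ℕ → ℝ) :
    ∑ d ∈ (p * M).divisors, f d = ∑ d ∈ M.divisors, f d + ∑ d ∈ M.divisors, f (p * d) := by
  rw [Nat.divisors_mul, Finset.mul_def, Finset.sum_image h.mul_injOn_divisors, Finset.sum_product,
    hp.divisors, Finset.sum_pair hp.one_lt.ne]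
  simp

theorem cop {p M d : ℕ} (h : p.Coprime M) (hd : d ∈ M.divisors) : p.Coprime d :=
  h.coprime_dvd_right (Nat.dvd_of_mem_divisors hd)

theorem mu_mul {p d : ℕ} (hp : p.Prime) (h : p.Coprime d) :
    ((moebius (p * d) : ℤ) : ℝ) = -((moebius d : ℤ) : ℝ) := by
  rw [isMultiplicative_moebius.map_mul_of_coprime h, moebius_apply_prime hp]
  simp

/-- The divisor sum restricted to the divisors of `M`. -/
noncomputable def F (M : ℕ) (w : ℕ → ℝ) (n : ℕ) : ℝ :=
  ∑ d ∈ M.divisors, if d ∣ n then (moebius d : ℝ) * w d else 0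

/-- The dual sum restricted to the divisors of `M`. -/
noncomputable def be (x : ℕ → ℝ) (M : ℕ) (w : ℕ → ℝ) (n : ℕ) : ℝ :=
  ∑ m ∈ M.divisors, (moebius m : ℝ) * x m * w (n * m)

theorem F_sub (M : ℕ) (u v : ℕ → ℝ) (c : ℝ) (n : ℕ) :
    F M (fun d => u d - c * v d) n = F M u n - c * F M v n := by
  rw [F, F, F, mul_sum, ← sum_sub_distrib]
  refine sum_congr rfl fun d _ => ?_
  split_ifs <;> ring

theorem F_mul {p M : ℕ} (hp : p.Prime) (h : p.Coprime M) (w : ℕ → ℝ) (n : ℕ) :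
    F (p * M) w n = if p ∣ n then F M w n - F M (fun d => w (p * d)) n else F M w n := by
  rw [F, sum_div hp h]
  split_ifs with hn
  · rw [sub_eq_add_neg, F, F, ← sum_neg_distrib]
    congr 1
    refine sum_congr rfl fun d hd => ?_
    have hc := cop h hd
    by_cases hdn : d ∣ n
    · rw [if_pos hdn, if_pos (hc.mul_dvd_of_dvd_of_dvd hn hdn), mu_mul hp hc, neg_mul]
    · rw [if_neg hdn, if_neg fun h' => hdn ((dvd_mul_left d p).trans h'), neg_zero]
  · rw [sum_eq_zero (s := M.divisors) (f := fun d => if p * d ∣ n then _ else 0)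
      fun d _ => if_neg fun h' => hn ((dvd_mul_right p d).trans h'), add_zero, F]

theorem F_shift {p M : ℕ} (h : p.Coprime M) (u : ℕ → ℝ) (n : ℕ) : F M u (p * n) = F M u n := by
  refine sum_congr rfl fun d hd => ?_
  simp only [(cop h hd).symm.dvd_mul_left]

theorem F_abs (M : ℕ) (u : ℕ → ℝ) (n : ℕ) :
    |F M u n| ≤ ∑ d ∈ M.divisors, |(moebius d : ℝ) * u d| := by
  refine (abs_sum_le_sum_abs _ _).trans (sum_le_sum fun d _ => ?_)
  split_ifs
  · exact le_rfl
  · rw [abs_zero]; exact abs_nonneg _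

theorem be_mul {x : ℕ → ℝ} (hm : ∀ a b, x (a * b) = x a * x b) {p M : ℕ} (hp : p.Prime)
    (h : p.Coprime M) (w : ℕ → ℝ) (t n : ℕ) :
    be x (p * M) w (t * n) = be x M (fun d => w (t * d) - x p * w (t * p * d)) n := by
  rw [be, sum_div hp h, be, ← sum_add_distrib]
  refine sum_congr rfl fun d hd => ?_
  rw [mu_mul hp (cop h hd), hm, show t * n * d = t * (n * d) by ring,
    show t * n * (p * d) = t * p * (n * d) by ring]
  ring

variable {x : ℕ → ℝ}

theorem summ (h0 : ∀ n, 0 ≤ x n) (hs : Summable x) {G : ℕ → ℝ} {C : ℝ} (hG : ∀ n, |G n| ≤ C) :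
    Summable fun n => x n * G n ^ 2 := by
  refine Summable.of_nonneg_of_le (fun n => mul_nonneg (h0 n) (sq_nonneg _)) (fun n => ?_)
    (hs.mul_right (C ^ 2))
  refine mul_le_mul_of_nonneg_left ?_ (h0 n)
  rw [← sq_abs]
  exact pow_le_pow_left₀ (abs_nonneg _) (hG n) 2

theorem split (hm : ∀ a b, x (a * b) = x a * x b) {p : ℕ} (hp : p.Prime) {G : ℕ → ℝ} {A : ℝ}
    (hG : ∀ n, G (p * n) = G n) (hA : HasSum (fun n => x n * G n) A) :
    HasSum (fun n => if p ∣ n then x n * G n else 0) (x p * A) := by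
  have hi : Function.Injective fun n : ℕ => p * n := mul_right_injective₀ hp.ne_zero
  rw [← hi.hasSum_iff fun n hn => if_neg fun ⟨k, hk⟩ => hn ⟨k, hk.symm⟩]
  have e : ((fun n => if p ∣ n then x n * G n else 0) ∘ fun n : ℕ => p * n) =
      fun n => x p * (x n * G n) := by
    funext n
    simp only [Function.comp_apply, dvd_mul_right, if_true, hm, hG, mul_assoc]
  rw [e]
  exact hA.mul_left (x p)

theorem step (h0 : ∀ n, 0 ≤ x n) (hs : Summable x) (hm : ∀ a b, x (a * b) = x a * x b)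
    {p M : ℕ} (hp : p.Prime) (h : p.Coprime M) (w : ℕ → ℝ) (K : ℕ)
    (hw : ∀ d, d ≠ 0 → w (p ^ (K + 1) * d) = 0) :
    ∑' n, x n * F (p * M) w n ^ 2 ≤ ∑ k ∈ range (K + 1), x p ^ k *
      ∑' n, x n * F M (fun d => w (p ^ k * d) - x p * w (p ^ k * p * d)) n ^ 2 := by
  have hS : ∀ u : ℕ → ℝ, HasSum (fun n => x n * F M u n ^ 2) (∑' n, x n * F M u n ^ 2) :=
    fun u => (summ h0 hs (F_abs M u)).hasSum
  set v : ℕ → ℝ := fun d => w d - 1 * w (p * d) with hv
  have h1 := hS w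
  have h2 := hS v
  have h3 := split hm hp (G := fun n => F M w n ^ 2) (fun n => by rw [F_shift h]) h1
  have h4 := split hm hp (G := fun n => F M v n ^ 2) (fun n => by rw [F_shift h]) h2
  have h5 : ∑' n, x n * F (p * M) w n ^ 2 =
      (1 - x p) * ∑' n, x n * F M w n ^ 2 + x p * ∑' n, x n * F M v n ^ 2 := by
    rw [sub_mul, one_mul, ← ((h1.sub h3).add h4).tsum_eq]
    refine tsum_congr fun n => ?_
    rw [F_mul hp h, hv, F_sub]
    split_ifs <;> ring
  rw [h5]
  refine hasSum_le (fun n => ?_) ((h1.mul_left _).add (h2.mul_left _))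
    (hasSum_sum fun k _ => (hS _).mul_left (x p ^ k))
  have h6 := scalar (h0 p) K (fun k => F M (fun d => w (p ^ k * d)) n)
    (sum_eq_zero fun d hd => by
      simp only [hw d (Nat.pos_of_mem_divisors hd).ne', mul_zero, ite_self])
  have h7 := mul_le_mul_of_nonneg_left h6 (h0 n)
  rw [mul_sum] at h7
  simp only [pow_zero, one_mul, pow_one] at h7
  refine le_of_eq_of_le ?_ (h7.trans (le_of_eq (sum_congr rfl fun k _ => ?_)))
  · rw [hv, F_sub]; ring
  · rw [F_sub M (fun d => w (p ^ k * d)) (fun d => w (p ^ k * p * d))]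
    simp only [pow_succ p]
    ring

theorem main (h0 : ∀ n, 0 ≤ x n) (hs : Summable x) (hm : ∀ a b, x (a * b) = x a * x b)
    (h1 : x 1 = 1) (V : ℕ) (P : Finset ℕ) (hP : ∀ p ∈ P, p.Prime) :
    ∃ S : Finset ℕ, (∀ n ∈ S, n ≠ 0 ∧ ∀ p, p.Prime → p ∣ n → p ∈ P) ∧
      ∀ w : ℕ → ℝ, (∀ d, V < d → w d = 0) → ∑' n, x n * F (∏ p ∈ P, p) w n ^ 2 ≤
        (∑' n, x n) * ∑ n ∈ S, x n * be x (∏ p ∈ P, p) w n ^ 2 := by
  induction P using Finset.induction_on with
  | empty =>
    refine ⟨{1}, fun n hn => ?_, fun w _ => ?_⟩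
    · rw [mem_singleton.1 hn]
      exact ⟨one_ne_zero, fun p hp h => absurd (Nat.dvd_one.1 h) hp.ne_one⟩
    · simp [F, be, h1, tsum_mul_right]
  | insert p P hpP ih =>
    obtain ⟨S, hS, hI⟩ := ih fun r hr => hP r (mem_insert_of_mem hr)
    have hp : p.Prime := hP p (mem_insert_self _ _)
    have hc : p.Coprime (∏ r ∈ P, r) := Nat.Coprime.prod_right fun r hr =>
      (Nat.coprime_primes hp (hP r (mem_insert_of_mem hr))).2 fun e => hpP (e ▸ hr)
    have hxp : ∀ k, x (p ^ k) = x p ^ k := fun k => by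
      induction k with
      | zero => simpa using h1
      | succ k ih => rw [pow_succ, hm, ih, pow_succ]
    have hinj : Set.InjOn (fun q : ℕ × ℕ => p ^ q.1 * q.2) ↑(range (V + 1) ×ˢ S) := by
      rintro ⟨k, n⟩ hq ⟨k', n'⟩ hq' e
      have hn := hS n (mem_product.1 hq).2
      have hn' := hS n' (mem_product.1 hq').2
      have f : ∀ j m : ℕ, m ≠ 0 → ¬ p ∣ m → (p ^ j * m).factorization p = j := fun j m a b => by
        rw [Nat.factorization_mul (pow_ne_zero _ hp.ne_zero) a, Finsupp.add_apply,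
          hp.factorization_pow, Finsupp.single_eq_same, Nat.factorization_eq_zero_of_not_dvd b,
          add_zero]
      have e' : p ^ k * n = p ^ k' * n' := e
      have hk : k = k' := by
        rw [← f k n hn.1 fun h => hpP (hn.2 p hp h), e', f k' n' hn'.1 fun h => hpP (hn'.2 p hp h)]
      subst hk
      rw [Nat.eq_of_mul_eq_mul_left (pow_pos hp.pos k) e']
    refine ⟨(range (V + 1) ×ˢ S).image fun q => p ^ q.1 * q.2, fun n hn => ?_, fun w hw => ?_⟩
    · obtain ⟨⟨k, m⟩, hq, rfl⟩ := mem_image.1 hn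
      have hm' := hS m (mem_product.1 hq).2
      refine ⟨mul_ne_zero (pow_ne_zero _ hp.ne_zero) hm'.1, fun r hr h => ?_⟩
      rcases (Nat.Prime.dvd_mul hr).1 h with h | h
      · rw [(Nat.prime_dvd_prime_iff_eq hr hp).1 (hr.dvd_of_dvd_pow h)]
        exact mem_insert_self _ _
      · exact mem_insert_of_mem (hm'.2 r hr h)
    · rw [prod_insert hpP, sum_image hinj, sum_product, mul_sum]
      refine (step h0 hs hm hp hc w V fun d hd => hw _ ?_).trans (sum_le_sum fun k _ => ?_)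
      · calc V < p ^ (V + 1) := (Nat.lt_succ_self V).trans (Nat.lt_pow_self hp.one_lt)
          _ ≤ _ := Nat.le_mul_of_pos_right _ (Nat.pos_of_ne_zero hd)
      · have h2 := hI (fun d => w (p ^ k * d) - x p * w (p ^ k * p * d)) fun d hd => by
          rw [hw _ (hd.trans_le (Nat.le_mul_of_pos_left d (pow_pos hp.pos k))),
            hw _ (hd.trans_le (Nat.le_mul_of_pos_left d (mul_pos (pow_pos hp.pos k) hp.pos))),
            mul_zero, sub_zero]
        refine (mul_le_mul_of_nonneg_left h2 (pow_nonneg (h0 p) k)).trans (le_of_eq ?_)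
        rw [mul_left_comm, mul_sum]
        congr 1
        refine sum_congr rfl fun n _ => ?_
        rw [be_mul hm hp hc, hm, hxp, mul_assoc]

theorem sum_eq_of {A B : Finset ℕ} {f : ℕ → ℝ} (h1 : ∀ a ∈ A, f a ≠ 0 → a ∈ B)
    (h2 : ∀ a ∈ B, f a ≠ 0 → a ∈ A) : ∑ a ∈ A, f a = ∑ a ∈ B, f a := by
  classical
  rw [← sum_filter_ne_zero A, ← sum_filter_ne_zero B]
  refine sum_congr (Finset.ext fun a => ?_) fun _ _ => rfl
  simp only [mem_filter]
  exact ⟨fun h => ⟨h1 a h.1 h.2, h.2⟩, fun h => ⟨h2 a h.1 h.2, h.2⟩⟩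

theorem mem_div {T d : ℕ} (hd : (moebius d : ℝ) ≠ 0) (hT : d ≤ T) :
    d ∈ (∏ p ∈ (range (T + 1)).filter Nat.Prime, p).divisors := by
  have hsq : Squarefree d := moebius_ne_zero_iff_squarefree.1 (by exact_mod_cast hd)
  refine Nat.mem_divisors.2 ⟨?_, prod_ne_zero_iff.2 fun p hp => (mem_filter.1 hp).2.ne_zero⟩
  rw [← Nat.prod_primeFactors_of_squarefree hsq]
  refine prod_dvd_prod_of_subset _ _ _ fun p hp => mem_filter.2 ⟨mem_range.2 ?_,
    Nat.prime_of_mem_primeFactors hp⟩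
  exact Nat.lt_succ_of_le ((Nat.le_of_mem_primeFactors hp).trans hT)

theorem zeta_le {s : ℝ} (hs : 1 < s) : ∑' n : ℕ, (n : ℝ) ^ (-s) ≤ 1 + 1 / (s - 1) := by
  have h := ZetaAsymptotics.zeta_limit_aux1 hs
  have h2 : 0 ≤ ZetaAsymptotics.termTSum s := tsum_nonneg fun n => ZetaAsymptotics.term_nonneg _ _
  have h3 : Summable fun n : ℕ => (n : ℝ) ^ (-s) := Real.summable_nat_rpow.2 (by linarith)
  rw [h3.tsum_eq_zero_add, Nat.cast_zero, Real.zero_rpow (by linarith), zero_add]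
  have e : ∑' n : ℕ, ((n + 1 : ℕ) : ℝ) ^ (-s) = ∑' n : ℕ, 1 / (n + 1 : ℝ) ^ s :=
    tsum_congr fun n => by rw [Real.rpow_neg (by positivity), one_div]; simp
  rw [e]
  nlinarith

end Bv1A

theorem bv1 : Bv1S := by
  intro w V N s hs hw
  set x : ℕ → ℝ := fun n => (n : ℝ) ^ (-s) with hx
  have h0 : ∀ n, 0 ≤ x n := fun n => by positivity
  have hsum : Summable x := Real.summable_nat_rpow.2 (by linarith)
  have hm : ∀ a b, x (a * b) = x a * x b := fun a b => by
    simp only [hx, Nat.cast_mul]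
    exact Real.mul_rpow (by positivity) (by positivity)
  obtain ⟨S, hS, hI⟩ := Bv1A.main h0 hsum hm (by simp [hx]) V
    ((range (N + V + 1)).filter Nat.Prime) fun p hp => (mem_filter.1 hp).2
  set M := ∏ p ∈ (range (N + V + 1)).filter Nat.Prime, p with hM
  have hb : ∀ n, n ≠ 0 → Bv1A.be x M w n =
      ∑ m ∈ Icc 1 V, (moebius m : ℝ) * (m : ℝ) ^ (-s) * w (n * m) := fun n hn => by
    refine Bv1A.sum_eq_of (fun m hm' h => mem_Icc.2 ⟨Nat.pos_of_mem_divisors hm', ?_⟩)
      fun m hm' h => Bv1A.mem_div (left_ne_zero_of_mul (left_ne_zero_of_mul h))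
        ((mem_Icc.1 hm').2.trans (Nat.le_add_left V N))
    by_contra hc
    exact right_ne_zero_of_mul h
      (hw _ ((not_le.1 hc).trans_le (Nat.le_mul_of_pos_left m (Nat.pos_of_ne_zero hn))))
  have hF : ∀ n ∈ Icc 1 N, ∑ d ∈ n.divisors, (moebius d : ℝ) * w d = Bv1A.F M w n :=
    fun n hn => by
    have hn' := mem_Icc.1 hn
    rw [Bv1A.F, ← sum_filter]
    refine Bv1A.sum_eq_of (fun d hd h => mem_filter.2 ⟨Bv1A.mem_div (left_ne_zero_of_mul h)
      ((Nat.divisor_le hd).trans (hn'.2.trans (Nat.le_add_right N V))),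
      Nat.dvd_of_mem_divisors hd⟩) fun d hd _ =>
        Nat.mem_divisors.2 ⟨(mem_filter.1 hd).2, by omega⟩
  calc _ = ∑ n ∈ Icc 1 N, x n * Bv1A.F M w n ^ 2 :=
        sum_congr rfl fun n hn => by rw [hF n hn, mul_comm]
    _ ≤ ∑' n, x n * Bv1A.F M w n ^ 2 :=
        (Bv1A.summ h0 hsum (Bv1A.F_abs M w)).sum_le_tsum _
          fun n _ => mul_nonneg (h0 n) (sq_nonneg _)
    _ ≤ (∑' n, x n) * ∑ n ∈ S, x n * Bv1A.be x M w n ^ 2 := hI w hw
    _ ≤ _ := by
        refine mul_le_mul (Bv1A.zeta_le hs) ?_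
          (sum_nonneg fun n _ => mul_nonneg (h0 n) (sq_nonneg _)) ?_
        · rw [sum_congr rfl fun n hn => by rw [hb n (hS n hn).1], ← sum_filter_ne_zero S]
          refine sum_le_sum_of_subset_of_nonneg (fun n hn => ?_)
            fun n _ _ => mul_nonneg (h0 n) (sq_nonneg _)
          obtain ⟨h1, h2⟩ := mem_filter.1 hn
          refine mem_Icc.2 ⟨Nat.pos_of_ne_zero (hS n h1).1, ?_⟩
          by_contra hc
          refine h2 ?_
          rw [sum_eq_zero fun m hm' => ?_]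
          · simp
          · rw [hw _ ((not_le.1 hc).trans_le (Nat.le_mul_of_pos_right n (mem_Icc.1 hm').1)),
              mul_zero]
        · have : 0 < s - 1 := by linarith
          positivity

end Pool.Agent.MP_c5bf7b_nt.H38
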