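import Pool.Agent.MP_c5bf7b_nt.H38.SpecA
import Pool.Agent.MP_ca0a54_nt.L0.ZetaA

/-! Growth of the L-functions near the line of real part one. -/

namespace Pool.Agent.MP_c5bf7b_nt.H38

open Finset Complex Pool.Agent.MP_ca0a54_nt.L0

namespace Grow

theorem big (c C : ℝ) (hc : 0 < c) : ∃ q₀ : ℕ, ∀ q : ℕ, q₀ ≤ q →
    1 ≤ Real.log q ∧ C * (1 + Real.log q) ^ 2 ≤ Real.exp (c * Real.log q) := by
  refine ⟨⌈Real.exp (max 1 (24 * |C| / c ^ 3))⌉₊, fun q hq => ?_⟩
  have h1 : max 1 (24 * |C| / c ^ 3) ≤ Real.log q := by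
    rw [Real.le_log_iff_exp_le ((Real.exp_pos _).trans_le (Nat.ceil_le.1 hq))]
    exact Nat.ceil_le.1 hq
  set l := Real.log q
  have h2 : 1 ≤ l := (le_max_left _ _).trans h1
  have h3 : 24 * |C| ≤ l * c ^ 3 := (div_le_iff₀ (by positivity)).1 ((le_max_right _ _).trans h1)
  refine ⟨h2, le_trans ?_ (Real.pow_div_factorial_le_exp (c * l) (by positivity) 3)⟩
  have h4 : (1 + l) ^ 2 ≤ 4 * l ^ 2 := by nlinarith
  calc C * (1 + l) ^ 2 ≤ |C| * (4 * l ^ 2) :=
        mul_le_mul (le_abs_self C) h4 (by positivity) (abs_nonneg C)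
    _ = 24 * |C| * (l ^ 2 / 6) := by ring
    _ ≤ l * c ^ 3 * (l ^ 2 / 6) := by gcongr
    _ = _ := by simp [Nat.factorial]; ring

theorem om (η : ℝ) (hη : 0 < η) : ∃ Y : ℝ, 0 ≤ Y ∧ ∀ q : ℕ, q ≠ 0 →
    (q.primeFactors.card : ℝ) ≤ Y + η * Real.log q := by
  refine ⟨⌈Real.exp (1 / η)⌉₊, Nat.cast_nonneg _, fun q hq => ?_⟩
  set Y := ⌈Real.exp (1 / η)⌉₊ with hY
  have h1 : (q.primeFactors.card : ℝ) ≤
      ∑ p ∈ q.primeFactors, ((if p < Y then (1 : ℝ) else 0) + η * Real.log p) := by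
    rw [Finset.card_eq_sum_ones, Nat.cast_sum]
    refine Finset.sum_le_sum fun p hp => ?_
    have h0 : 0 ≤ η * Real.log p := mul_nonneg hη.le (Real.log_natCast_nonneg p)
    split_ifs with h
    · simpa using h0
    · have h2 : Real.exp (1 / η) ≤ p := Nat.ceil_le.1 (not_lt.1 h)
      have h3 := (Real.le_log_iff_exp_le ((Real.exp_pos _).trans_le h2)).2 h2
      rw [div_le_iff₀ hη] at h3
      simpa [mul_comm] using h3
  rw [Finset.sum_add_distrib, ← Finset.mul_sum, Finset.sum_boole] at h1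
  refine h1.trans (add_le_add ?_ (mul_le_mul_of_nonneg_left ?_ hη.le))
  · have : (q.primeFactors.filter fun p => p < Y).card ≤ (range Y).card :=
      Finset.card_le_card fun p hp => mem_range.2 (mem_filter.1 hp).2
    rw [Finset.card_range] at this
    exact_mod_cast this
  · have hpos : ∀ p ∈ q.primeFactors, (p : ℝ) ≠ 0 := fun p hp =>
      Nat.cast_ne_zero.2 (Nat.prime_of_mem_primeFactors hp).ne_zero
    rw [← Real.log_prod hpos]
    refine Real.log_le_log (lt_of_le_of_ne (by positivity) (Finset.prod_ne_zero_iff.2 hpos).symm) ?_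
    rw [← Nat.cast_prod, Nat.cast_le]
    exact Nat.le_of_dvd (Nat.pos_of_ne_zero hq) (Nat.prod_primeFactors_dvd q)

theorem triv_eq (q : ℕ) [NeZero q] (s : ℂ) : DirichletCharacter.LFunctionTrivChar₁ q s =
    (∏ p ∈ q.primeFactors, (1 - (p : ℂ) ^ (-s))) * riemannZeta₁ s := by
  rcases eq_or_ne s 1 with rfl | hs
  · simp [DirichletCharacter.LFunctionTrivChar₁, riemannZeta₁_one, cpow_neg_one]
  · rw [DirichletCharacter.LFunctionTrivChar₁, Function.update_of_ne hs,
      DirichletCharacter.LFunctionTrivChar_eq_mul_riemannZeta hs, riemannZeta_eq_inv_sub_mul hs]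
    field_simp [sub_ne_zero.2 hs]

theorem z1_le (s : ℂ) (hs : 1 / 4 < s.re) : ‖riemannZeta₁ s‖ ≤ ‖s - 1‖ * ‖s‖ * ZetaA.Z + 1 := by
  have h2 : ‖riemannZeta₁ s - 1‖ ≤ ‖s - 1‖ * ‖s‖ * ZetaA.Z := by
    rw [← ZetaA.tsum_tm s hs, ← ZetaA.tsum_Z', ← tsum_mul_left]
    exact tsum_of_norm_bounded (ZetaA.summable_Z'.mul_left _).hasSum fun n =>
      ZetaA.norm_tm_le n s hs.le
  have := norm_add_le (riemannZeta₁ s - 1) 1
  simp only [sub_add_cancel, norm_one] at this
  linarith

theorem euler_le (q : ℕ) (s : ℂ) (hs : 0 ≤ s.re) :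
    ‖∏ p ∈ q.primeFactors, (1 - (p : ℂ) ^ (-s))‖ ≤ Real.exp q.primeFactors.card := by
  rw [norm_prod, ← mul_one (q.primeFactors.card : ℝ), Real.exp_nat_mul, ← Finset.prod_const]
  refine Finset.prod_le_prod (fun _ _ => norm_nonneg _) fun p hp => ?_
  have hp' := Nat.prime_of_mem_primeFactors hp
  have h1 : ‖(p : ℂ) ^ (-s)‖ ≤ 1 := by
    rw [norm_natCast_cpow_of_pos hp'.pos]
    exact Real.rpow_le_one_of_one_le_of_nonpos (by exact_mod_cast hp'.one_le) (by simpa using hs)
  have h2 := norm_sub_le (1 : ℂ) ((p : ℂ) ^ (-s))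
  have h3 := Real.add_one_le_exp 1
  rw [norm_one] at h2
  linarith

theorem ls_le (f : ℕ → ℂ) (hf : ∀ n, ‖f n‖ ≤ 1) (s : ℂ) (h1 : 1 < s.re) (h2 : s.re ≤ 2) :
    ‖LSeries f s‖ ≤ (2 * ZetaA.Z + 1) / (s.re - 1) := by
  set σ := s.re with hσ
  have hsum : LSeriesSummable 1 (σ : ℂ) := LSeriesSummable_one_iff.2 (by simpa using h1)
  have h3 : ‖LSeries f s‖ ≤ ∑' n, ‖LSeries.term 1 (σ : ℂ) n‖ := by
    refine tsum_of_norm_bounded (summable_norm_iff.2 hsum).hasSum fun n => ?_
    refine (LSeries.norm_term_le (g := 1) s (by simpa using hf n)).trans (le_of_eq ?_)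
    simp [LSeries.norm_term_eq, hσ]
  have h4 : ((∑' n, ‖LSeries.term 1 (σ : ℂ) n‖ : ℝ) : ℂ) = riemannZeta σ := by
    rw [← LSeries_one_eq_riemannZeta (by simpa using h1), ofReal_tsum, LSeries]
    refine tsum_congr fun n => ?_
    rcases eq_or_ne n 0 with rfl | hn
    · simp
    · rw [LSeries.norm_term_eq, if_neg hn, LSeries.term_of_ne_zero hn]
      simp [ofReal_cpow]
  have h5 : (σ : ℂ) ≠ 1 := by exact_mod_cast h1.ne'
  have h6 := z1_le σ (by simp; linarith)
  have h7 : ‖(σ : ℂ) - 1‖ = σ - 1 := by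
    rw [← ofReal_one, ← ofReal_sub, norm_real, Real.norm_of_nonneg (by linarith)]
  have h8 : ‖(σ : ℂ)‖ = σ := by rw [norm_real, Real.norm_of_nonneg (by linarith)]
  refine h3.trans ((le_abs_self _).trans ?_)
  rw [← Real.norm_eq_abs, ← norm_real, h4, riemannZeta_eq_inv_sub_mul h5, norm_mul, norm_inv, h7,
    inv_mul_eq_div]
  refine div_le_div_of_nonneg_right (h6.trans ?_) (by linarith)
  rw [h7, h8]
  have : (σ - 1) * σ ≤ 2 := by nlinarith
  nlinarith [ZetaA.Z_nonneg]

theorem low {q : ℕ} [NeZero q] (χ : Ch q) (s : ℂ) (h1 : 1 < s.re) (h2 : s.re ≤ 2) :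
    (s.re - 1) / (2 * ZetaA.Z + 1) ≤ ‖DirichletCharacter.LFunction χ s‖ := by
  have h3 := congrArg norm (DirichletCharacter.LSeries.mul_mu_eq_one χ h1)
  rw [norm_mul, norm_one] at h3
  have h4 := ls_le ((fun n : ℕ => χ n) * fun n : ℕ => ((ArithmeticFunction.moebius n : ℤ) : ℂ))
    (fun n => by
      rw [Pi.mul_apply, norm_mul]
      refine mul_le_one₀ (χ.norm_le_one _) (norm_nonneg _) ?_
      rw [norm_intCast]
      exact_mod_cast ArithmeticFunction.abs_moebius_le_one) s h1 h2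
  rw [DirichletCharacter.LFunction_eq_LSeries χ h1]
  have hZ := ZetaA.Z_nonneg
  rw [le_div_iff₀ (by linarith)] at h4
  rw [div_le_iff₀ (by linarith)]
  refine le_trans (le_of_eq ?_) (mul_le_mul_of_nonneg_left h4 (norm_nonneg _))
  rw [← mul_assoc, h3, one_mul]

theorem head_le {q : ℕ} (χ : Ch q) (s : ℂ) (N : ℕ) :
    ‖∑ n ∈ Icc 1 N, χ n * (n : ℂ) ^ (-s)‖ ≤
      Real.exp (max 0 (1 - s.re) * Real.log N) * (1 + Real.log N) := by
  refine (norm_sum_le _ _).trans ?_
  have h1 := harmonic_le_one_add_log N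
  simp only [harmonic_eq_sum_Icc, Rat.cast_sum, Rat.cast_inv, Rat.cast_natCast] at h1
  refine le_trans ?_ (mul_le_mul_of_nonneg_left h1 (Real.exp_pos _).le)
  rw [Finset.mul_sum]
  refine Finset.sum_le_sum fun n hn => ?_
  obtain ⟨h2, h3⟩ := mem_Icc.1 hn
  have h4 : (0 : ℝ) < n := by exact_mod_cast h2
  have h5 : Real.log n ≤ Real.log N := Real.log_le_log h4 (by exact_mod_cast h3)
  have h6 := Real.log_natCast_nonneg n
  rw [norm_mul, norm_natCast_cpow_of_pos h2, Real.rpow_def_of_pos h4]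
  refine (mul_le_of_le_one_left (Real.exp_pos _).le (χ.norm_le_one _)).trans ?_
  rw [← Real.exp_log (inv_pos.2 h4), ← Real.exp_add, Real.log_inv, neg_re]
  refine Real.exp_le_exp.2 ?_
  have h7 := mul_le_mul_of_nonneg_left h5 (le_max_left 0 (1 - s.re))
  have h8 := mul_le_mul_of_nonneg_right (le_max_right 0 (1 - s.re)) h6
  linarith

end Grow

open Grow in
theorem growOf : GrowOf := by
  intro hT ε hε
  obtain ⟨δ, hδ, q₁, hq₁⟩ := hT (1 / 4 + ε) (by linarith)
  set φ := 1 / 4 + ε with hφ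
  have hφ0 : 0 < φ := by positivity
  set R := min δ (1 / 10) with hR
  have hR0 : 0 < R := by positivity
  have hR1 : R ≤ 1 / 10 := min_le_right _ _
  set η := min (δ / 2) (ε * R / 4) with hη
  have hη0 : 0 < η := by positivity
  have hη1 : η ≤ δ / 2 := min_le_left _ _
  have hη2 : η ≤ ε * R / 4 := min_le_right _ _
  obtain ⟨Y, hY0, hY⟩ := om η hη0
  have hZ := ZetaA.Z_nonneg
  set Z := ZetaA.Z with hZd
  obtain ⟨q₂, hq₂⟩ := big η (Real.exp Y * (12 * Z + 1) + (7 + 3 * φ)) hη0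
  refine ⟨R, η, hR0, hR1, hη0, max q₁ q₂, fun q _ hq χ s h1 h2 h3 => ?_⟩
  obtain ⟨hl, hb⟩ := hq₂ q (le_of_max_le_right hq)
  have hq0 : (0 : ℝ) < q := by exact_mod_cast Nat.pos_of_ne_zero (NeZero.ne q)
  have hpw : ∀ x : ℝ, (q : ℝ) ^ x = Real.exp (x * Real.log q) := fun x => by
    rw [Real.rpow_def_of_pos hq0, mul_comm]
  set l := Real.log q with hld
  set E := Real.exp (η * l) with hE
  have hY1 : 1 ≤ Real.exp Y := Real.one_le_exp hY0
  have hl0 : 0 < l := by linarith
  have hsq : 1 + l ≤ (1 + l) ^ 2 := le_self_pow₀ (by linarith) two_ne_zero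
  have hb1 : Real.exp Y * (12 * Z + 1) * (1 + l) ^ 2 ≤ E :=
    le_trans (mul_le_mul_of_nonneg_right (by linarith) (sq_nonneg _)) hb
  have hb2 : (7 + 3 * φ) * (1 + l) ^ 2 ≤ E :=
    le_trans (mul_le_mul_of_nonneg_right (le_add_of_nonneg_left (by positivity)) (sq_nonneg _)) hb
  have hE2 : 2 ≤ E :=
    le_trans (le_trans (by linarith) (le_mul_of_one_le_right (by linarith) (by linarith))) hb2
  have hE4 : E ^ 4 ≤ Real.exp (ε * R * l) := by
    rw [hE, ← Real.exp_nat_mul]
    refine Real.exp_le_exp.2 ?_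
    push_cast
    linarith [mul_le_mul_of_nonneg_right hη2 hl0.le]
  have hE1 : E ≤ Real.exp (ε * R * l) :=
    le_trans (le_self_pow₀ (by linarith) (by norm_num)) hE4
  rw [hpw] at h3
  constructor
  · by_cases hχ : χ = 1
    · rw [Phi, if_pos hχ, if_pos hχ, zero_mul, zero_mul, zero_add, triv_eq, norm_mul]
      have h4 := (euler_le q s (by linarith)).trans (Real.exp_le_exp.2 (hY q (NeZero.ne q)))
      rw [Real.exp_add] at h4
      have h5 : ‖s‖ ≤ 4 * E := by
        have := norm_le_abs_re_add_abs_im s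
        rw [abs_of_nonneg (by linarith : 0 ≤ s.re)] at this
        linarith
      have h6 : ‖s - 1‖ ≤ 3 * E := by
        have := norm_le_abs_re_add_abs_im (s - 1)
        have h7 : |(s - 1).re| ≤ 1 := by
          rw [abs_le, sub_re, one_re]; constructor <;> linarith
        rw [sub_im, one_im, sub_zero] at this
        linarith
      have h7 : ‖riemannZeta₁ s‖ ≤ (12 * Z + 1) * E ^ 2 := by
        refine (z1_le s (by linarith)).trans ?_
        have : ‖s - 1‖ * ‖s‖ * Z ≤ 3 * E * (4 * E) * Z := by gcongr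
        have h8 : 1 ≤ E ^ 2 := one_le_pow₀ (by linarith)
        linarith
      have h8 : Real.exp Y * (12 * Z + 1) ≤ E :=
        le_trans (le_mul_of_one_le_right (by positivity) (by linarith)) hb1
      calc _ ≤ Real.exp Y * E * ((12 * Z + 1) * E ^ 2) := by gcongr
        _ = Real.exp Y * (12 * Z + 1) * E ^ 3 := by ring
        _ ≤ E * E ^ 3 := by gcongr
        _ = E ^ 4 := by ring
        _ ≤ _ := hE4
    · rw [Phi, if_neg hχ, if_neg hχ]
      set N := ⌈(q : ℝ) ^ φ⌉₊ with hN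
      have h4 : |s.im| ≤ (q : ℝ) ^ δ := by
        rw [hpw]
        refine h3.trans ((mul_le_mul_of_nonneg_right hE2 (Real.exp_pos _).le).trans ?_)
        rw [hE, ← Real.exp_add]
        exact Real.exp_le_exp.2 (by linarith [mul_le_mul_of_nonneg_right hη1 hl0.le])
      have h5 := hq₁ q (le_of_max_le_left hq) χ s N hχ
        (by linarith [min_le_left δ (1 / 10)]) h2 h4 (Nat.le_ceil _)
      have h6 : (q : ℝ) ^ (-δ) ≤ 1 := by
        rw [hpw]; exact Real.exp_le_one_iff.2 (by linarith [mul_pos hδ hl0])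
      have h7 : 1 ≤ (q : ℝ) ^ φ := by rw [hpw]; exact Real.one_le_exp (by positivity)
      have h8 : Real.log N ≤ 1 + φ * l := by
        have h9 : (N : ℝ) ≤ Real.exp (1 + φ * l) := by
          have := (Nat.ceil_lt_add_one (by linarith : 0 ≤ (q : ℝ) ^ φ)).le
          rw [Real.exp_add, ← hpw]
          linarith [mul_le_mul_of_nonneg_right (Real.add_one_le_exp 1) (zero_le_one.trans h7)]
        exact (Real.log_le_iff_le_exp (lt_of_lt_of_le (by linarith) (Nat.le_ceil _))).2 h9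
      have h9 := head_le χ s N
      set m := max 0 (1 - s.re) with hm
      have hm0 : 0 ≤ m := le_max_left _ _
      have hm1 : m ≤ 1 := max_le zero_le_one (by linarith)
      have h10 : Real.exp (m * Real.log N) ≤ 3 * Real.exp (φ * l * m) := by
        refine le_trans (Real.exp_le_exp.2 (?_ : _ ≤ 1 + φ * l * m)) ?_
        · linarith [mul_le_mul_of_nonneg_left h8 hm0]
        · rw [Real.exp_add]
          gcongr
          linarith [Real.exp_one_lt_d9]
      have h11 : 1 ≤ Real.exp (φ * l * m) := Real.one_le_exp (by positivity)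
      have h12 := Real.log_natCast_nonneg N
      have h13 := norm_add_le (DirichletCharacter.LFunction χ s -
        ∑ n ∈ Icc 1 N, χ n * (n : ℂ) ^ (-s)) (∑ n ∈ Icc 1 N, χ n * (n : ℂ) ^ (-s))
      rw [sub_add_cancel] at h13
      have h14 : Real.exp (m * Real.log N) * (1 + Real.log N) ≤
          3 * Real.exp (φ * l * m) * (2 + φ * l) :=
        mul_le_mul h10 (by linarith) (by linarith) (by linarith)
      have h15 : 7 + 3 * φ * l ≤ Real.exp (ε * R * l) := by
        refine le_trans ?_ (hb2.trans hE1)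
        refine le_trans ?_ (mul_le_mul_of_nonneg_left hsq (by positivity))
        linarith
      rw [Real.exp_add]
      refine le_trans ?_ (mul_le_mul_of_nonneg_left h15 (Real.exp_pos _).le)
      linarith
  · intro h4
    have h5 : 1 / l ≤ s.re - 1 := by linarith
    have h6 : 0 < 1 / l := by positivity
    have h7 := low χ s (by linarith) h2
    have h8 : (2 * Z + 1) * l ^ 2 ≤ Real.exp (ε * R * l) := by
      refine le_trans ?_ (hb1.trans hE1)
      exact mul_le_mul (le_trans (by linarith) (le_mul_of_one_le_left (by linarith) hY1))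
        (pow_le_pow_left₀ hl0.le (by linarith) 2) (sq_nonneg _) (by positivity)
    have h9 : Real.exp (-(ε * R * l)) ≤ 1 / l * (1 / l / (2 * Z + 1)) := by
      rw [Real.exp_neg, inv_le_comm₀ (Real.exp_pos _) (by positivity)]
      refine le_trans (le_of_eq ?_) h8
      field_simp
    have h10 : 1 / l / (2 * Z + 1) ≤ ‖DirichletCharacter.LFunction χ s‖ :=
      le_trans (by gcongr) h7
    refine h9.trans ?_
    by_cases hχ : χ = 1
    · have hs : s ≠ 1 := by rintro rfl; simp at h5; linarith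
      rw [Phi, if_pos hχ, DirichletCharacter.LFunctionTrivChar₁, Function.update_of_ne hs, norm_mul]
      subst hχ
      refine mul_le_mul (h5.trans ?_) h10 (by positivity) (norm_nonneg _)
      simpa using re_le_norm (s - 1)
    · rw [Phi, if_neg hχ]
      refine le_trans (mul_le_of_le_one_left (by positivity) ?_) h10
      rw [div_le_one hl0]; exact hl

end Pool.Agent.MP_c5bf7b_nt.H38
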