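import Pool.Agent.MP_c5bf7b_nt.H38.SpecA
import Pool.Agent.MP_c69980_ag.H60.Disc

/-! The derivative form of the formula of Jensen. -/

set_option autoImplicit false

namespace Pool.Agent.MP_c5bf7b_nt.H38

open Complex Metric

namespace Jd

theorem exists_log (g : ℂ → ℂ) (c : ℂ) (R : ℝ) (hR : 0 < R) (hg : DifferentiableOn ℂ g (ball c R))
    (hne : ∀ w ∈ ball c R, g w ≠ 0) :
    ∃ h : ℂ → ℂ, (∀ w ∈ ball c R, HasDerivAt h (deriv g w / g w) w) ∧
      ∀ w ∈ ball c R, g w = exp (h w) := by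
  have hq : DifferentiableOn ℂ (fun w => deriv g w / g w) (ball c R) :=
    (hg.deriv isOpen_ball).div hg hne
  obtain ⟨h, hc, hh⟩ := hq.isExactOn_ball.with_val_at c (log (g c))
  refine ⟨h, hh, fun w hw => ?_⟩
  have hk : ∀ z ∈ ball c R, HasDerivAt (fun z => g z * exp (-h z)) 0 z := by
    intro z hz
    have h1 : HasDerivAt g (deriv g z) z :=
      (hg.differentiableAt (isOpen_ball.mem_nhds hz)).hasDerivAt
    have h2 := h1.mul ((hh z hz).neg.cexp)
    have h3 : deriv g z * exp (-h z) + g z * (exp (-h z) * -(deriv g z / g z)) = 0 := by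
      have := hne z hz
      field_simp
      ring
    exact h3 ▸ h2
  have hconst := isOpen_ball.is_const_of_deriv_eq_zero (convex_ball c R).isPreconnected
    (f := fun z => g z * exp (-h z))
    (fun z hz => (hk z hz).differentiableAt.differentiableWithinAt)
    (fun z hz => (hk z hz).deriv) hw (mem_ball_self hR)
  have h0 : g c * exp (-h c) = 1 := by
    rw [hc, exp_neg, exp_log (hne c (mem_ball_self hR))]
    exact mul_inv_cancel₀ (hne c (mem_ball_self hR))
  rw [h0, exp_neg] at hconst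
  have he := exp_ne_zero (h w)
  field_simp at hconst
  exact hconst

/-- the mean of the real part of a holomorphic function -/
theorem avg_re {F : ℂ → ℂ} {r r' : ℝ} (h0 : 0 < r) (h : r < r')
    (hF : DifferentiableOn ℂ F (ball 0 r')) :
    Real.circleAverage (fun z => (F z).re) 0 r = (F 0).re := by
  have hs : closedBall (0 : ℂ) r ⊆ ball 0 r' := closedBall_subset_ball h
  have h1 : DiffContOnCl ℂ F (ball 0 |r|) := by
    rw [abs_of_pos h0]
    refine DifferentiableOn.diffContOnCl ?_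
    rw [closure_ball _ h0.ne']
    exact hF.mono hs
  have h2 : CircleIntegrable F 0 r :=
    (hF.continuousOn.mono (sphere_subset_closedBall.trans hs)).circleIntegrable h0.le
  have h3 := reCLM.circleAverage_comp_comm h2
  rw [h1.circleAverage] at h3
  exact h3

theorem avg_neg (u : ℂ → ℝ) (r : ℝ) :
    Real.circleAverage (fun z => u (-z)) 0 r = Real.circleAverage u 0 r := by
  rw [← Real.circleAverage_neg_radius (f := u)]
  unfold Real.circleAverage
  congr 2
  funext θ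
  simp [circleMap]

theorem avg_sq {r : ℝ} (h0 : 0 < r) :
    Real.circleAverage (fun z : ℂ => (max 0 (-z.re)) ^ 2) 0 r = r ^ 2 / 4 := by
  have c1 : Continuous fun z : ℂ => (max 0 (-z.re)) ^ 2 := by fun_prop
  have c2 : Continuous fun z : ℂ => (max 0 (-(-z).re)) ^ 2 := by fun_prop
  have h1 := avg_neg (fun z : ℂ => (max 0 (-z.re)) ^ 2) r
  have h2 := Real.circleAverage_fun_add (c := 0) (R := r) (c1.continuousOn.circleIntegrable h0.le)
    (c2.continuousOn.circleIntegrable h0.le)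
  have h3 := avg_re (F := fun z => (z ^ 2 + (r : ℂ) ^ 2) / 2) h0 (lt_add_one r) (by fun_prop)
  have h4 : Real.circleAverage (fun z : ℂ => (max 0 (-z.re)) ^ 2 + (max 0 (-(-z).re)) ^ 2) 0 r =
      Real.circleAverage (fun z : ℂ => ((z ^ 2 + (r : ℂ) ^ 2) / 2).re) 0 r := by
    refine Real.circleAverage_congr_sphere fun z hz => ?_
    have hz' : ‖z‖ = r := by simpa [abs_of_pos h0] using hz
    have e : z.re ^ 2 + z.im ^ 2 = r ^ 2 := by
      rw [← hz', Complex.sq_norm, Complex.normSq_apply]; ring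
    have e2 : ((z ^ 2 + (r : ℂ) ^ 2) / 2).re = z.re ^ 2 := by
      simp [pow_two]; nlinarith
    simp only [e2, neg_re, neg_neg]
    rcases le_total 0 z.re with hx | hx
    · rw [max_eq_left (by linarith), max_eq_right hx]; ring
    · rw [max_eq_right (by linarith), max_eq_left hx]; ring
  have h5 : (((0 : ℂ) ^ 2 + (r : ℂ) ^ 2) / 2).re = r ^ 2 / 2 := by
    simp [pow_two]
  rw [h4, h3, h1, h5] at h2
  linarith

/-- the zero free case -/
theorem free {G : ℂ → ℂ} {r R' M₁ M₀ : ℝ} (h0 : 0 < r) (h : r < R') (h1 : 0 ≤ M₁) (h2 : 0 ≤ M₀)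
    (hG : DifferentiableOn ℂ G (ball 0 R')) (hne : ∀ z, ‖z‖ ≤ r → G z ≠ 0)
    (hu : ∀ z, ‖z‖ = r → ‖G z‖ ≤ Real.exp (M₁ * max 0 (-z.re) + M₀))
    (hl : ∀ z, ‖z‖ = r → 0 ≤ z.re → Real.exp (-M₀) ≤ ‖G z‖) :
    -(deriv G 0 / G 0).re ≤ M₁ / 2 + 2 * M₀ / r := by
  have hU : IsOpen (ball (0 : ℂ) R' ∩ G ⁻¹' {0}ᶜ) :=
    hG.continuousOn.isOpen_inter_preimage isOpen_ball isOpen_compl_singleton
  obtain ⟨δ, hδ, hsub⟩ := (isCompact_closedBall (0 : ℂ) r).exists_thickening_subset_open hU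
    (fun z hz => ⟨closedBall_subset_ball h hz, hne z (by simpa using hz)⟩)
  rw [thickening_closedBall hδ h0.le] at hsub
  have hr' : r < δ + r := by linarith
  obtain ⟨L, hL, hE⟩ := exists_log G 0 (δ + r) (by linarith) (hG.mono fun z hz => (hsub hz).1)
    fun z hz => (hsub hz).2
  have h00 : (0 : ℂ) ∈ ball (0 : ℂ) (δ + r) := mem_ball_self (by linarith)
  have hLd : DifferentiableOn ℂ L (ball 0 (δ + r)) := fun w hw =>
    (hL w hw).differentiableAt.differentiableWithinAt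
  have hds : DifferentiableOn ℂ (dslope L 0) (ball 0 (δ + r)) :=
    (Complex.differentiableOn_dslope (isOpen_ball.mem_nhds h00)).2 hLd
  set Fn : ℂ → ℂ := fun z => -(L z * z + (starRingEnd ℂ) (L 0) * z + (r : ℂ) ^ 2 * dslope L 0 z)
    with hFn
  have hF : DifferentiableOn ℂ Fn (ball 0 (δ + r)) :=
    (((hLd.mul differentiableOn_id).add (differentiableOn_id.const_mul _)).add
      (hds.const_mul _)).neg
  have ha := avg_re h0 hr' hF
  have hF0 : (Fn 0).re = -(r ^ 2 * (deriv G 0 / G 0).re) := by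
    simp only [hFn, mul_zero, zero_add, dslope_same, (hL 0 h00).deriv]
    simp [pow_two]
  have c1 : Continuous fun z : ℂ => (max 0 (-z.re)) ^ 2 := by fun_prop
  have c2 : Continuous fun z : ℂ => (2 * M₁) • (max 0 (-z.re)) ^ 2 := by fun_prop
  have c3 : Continuous fun z : ℂ => (2 * M₁) • (max 0 (-z.re)) ^ 2 + 2 * r * M₀ := by fun_prop
  have hb : Real.circleAverage (fun z : ℂ => (2 * M₁) • (max 0 (-z.re)) ^ 2 + 2 * r * M₀) 0 r =
      2 * M₁ * (r ^ 2 / 4) + 2 * r * M₀ := by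
    rw [Real.circleAverage_fun_add (c2.continuousOn.circleIntegrable h0.le)
      (continuousOn_const.circleIntegrable h0.le), Real.circleAverage_fun_smul, avg_sq h0,
      Real.circleAverage_const, smul_eq_mul]
  have hsp : sphere (0 : ℂ) r ⊆ ball 0 (δ + r) :=
    sphere_subset_closedBall.trans (closedBall_subset_ball hr')
  have hm : Real.circleAverage (fun z => (Fn z).re) 0 r ≤
      Real.circleAverage (fun z : ℂ => (2 * M₁) • (max 0 (-z.re)) ^ 2 + 2 * r * M₀) 0 r := by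
    refine Real.circleAverage_mono
      ((continuous_re.comp_continuousOn (hF.continuousOn.mono hsp)).circleIntegrable h0.le)
      (c3.continuousOn.circleIntegrable h0.le) fun z hz => ?_
    have hz' : ‖z‖ = r := by simpa [abs_of_pos h0] using hz
    have hzb : z ∈ ball (0 : ℂ) (δ + r) := hsp (by simpa using hz')
    have e1 : z * dslope L 0 z = L z - L 0 := by
      have := sub_smul_dslope L 0 z
      rwa [sub_zero, smul_eq_mul] at this
    have e2 : (r : ℂ) ^ 2 = z * (starRingEnd ℂ) z := by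
      rw [← hz', Complex.mul_conj']
    have e3 : (Fn z).re = -(2 * z.re * (L z).re) := by
      have : (r : ℂ) ^ 2 * dslope L 0 z = (L z - L 0) * (starRingEnd ℂ) z := by
        rw [e2, ← e1]; ring
      simp only [hFn, this]
      simp
      ring
    have e4 : ‖G z‖ = Real.exp (L z).re := by rw [hE z hzb, Complex.norm_exp]
    have hre : |z.re| ≤ r := hz' ▸ Complex.abs_re_le_norm z
    have hre' := abs_le.1 hre
    rw [e3, smul_eq_mul]
    rcases le_total 0 z.re with hx | hx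
    · have := hl z hz' hx
      rw [e4, Real.exp_le_exp] at this
      rw [max_eq_left (by linarith)]
      nlinarith [mul_le_mul_of_nonneg_left this hx, mul_le_mul_of_nonneg_right hre'.2 h2]
    · have := hu z hz'
      rw [e4, Real.exp_le_exp, max_eq_right (by linarith)] at this
      rw [max_eq_right (by linarith)]
      have hx' : 0 ≤ -z.re := by linarith
      nlinarith [mul_le_mul_of_nonneg_left this hx', mul_le_mul_of_nonneg_right hre'.1 h2]
  rw [ha, hb, hF0] at hm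
  have hr2 : 0 < r ^ 2 := by positivity
  have : M₁ / 2 + 2 * M₀ / r = (2 * M₁ * (r ^ 2 / 4) + 2 * r * M₀) / r ^ 2 := by
    field_simp; ring
  rw [this, le_div_iff₀ hr2]
  linarith

theorem PZ_cons (ρ : ℂ) (Z : Multiset ℂ) (s : ℂ) : PZ (ρ ::ₘ Z) s = (s - ρ) * PZ Z s := by
  simp [PZ]

/-- zeros inside the circle are reflected -/
theorem refl {r R' M₁ M₀ : ℝ} (h0 : 0 < r) (h : r < R') (h1 : 0 ≤ M₁) (h2 : 0 ≤ M₀)
    (Z : Multiset ℂ) : ∀ G : ℂ → ℂ, (∀ ρ ∈ Z, ‖ρ‖ < r) → DifferentiableOn ℂ G (ball 0 R') →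
    (∀ z, ‖z‖ ≤ r → G z ≠ 0) →
    (∀ z, ‖z‖ = r → ‖PZ Z z * G z‖ ≤ Real.exp (M₁ * max 0 (-z.re) + M₀)) →
    (∀ z, ‖z‖ = r → 0 ≤ z.re → Real.exp (-M₀) ≤ ‖PZ Z z * G z‖) →
    -(deriv G 0 / G 0).re ≤ M₁ / 2 + 2 * M₀ / r - (Z.map fun ρ => ρ.re / r ^ 2).sum := by
  induction Z using Multiset.induction_on with
  | empty =>
    intro G _ hG hne hu hl
    simpa using free h0 h h1 h2 hG hne (by simpa [PZ] using hu) (by simpa [PZ] using hl)
  | cons ρ Z ih =>
    intro G hZ hG hne hu hl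
    have hρ := hZ ρ (Multiset.mem_cons_self _ _)
    have hr : (r : ℂ) ≠ 0 := by exact_mod_cast h0.ne'
    have key : ∀ z, ‖z‖ = r → ‖PZ Z z * (G z * (((r : ℂ) ^ 2 - (starRingEnd ℂ) ρ * z) / r))‖ =
        ‖PZ (ρ ::ₘ Z) z * G z‖ := by
      intro z hz
      rw [PZ_cons, norm_mul, norm_mul, MP_c69980_ag.H60.norm_refl h0 hz, norm_mul, norm_mul]
      ring
    have hi := ih (fun z => G z * (((r : ℂ) ^ 2 - (starRingEnd ℂ) ρ * z) / r))
      (fun σ hσ => hZ σ (Multiset.mem_cons_of_mem hσ)) (hG.mul (by fun_prop))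
      (fun z hz => mul_ne_zero (hne z hz) (div_ne_zero (fun e => by
        have e1 : ‖(r : ℂ) ^ 2‖ = ‖(starRingEnd ℂ) ρ * z‖ := by rw [sub_eq_zero.1 e]
        rw [norm_pow, norm_mul, Complex.norm_conj, Complex.norm_real, Real.norm_eq_abs,
          abs_of_pos h0] at e1
        nlinarith [norm_nonneg ρ, norm_nonneg z]) hr))
      (fun z hz => by rw [key z hz]; exact hu z hz)
      (fun z hz hx => by rw [key z hz]; exact hl z hz hx)
    have hG0 : HasDerivAt G (deriv G 0) 0 :=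
      (hG.differentiableAt (isOpen_ball.mem_nhds (mem_ball_self (h0.trans h)))).hasDerivAt
    have hB : HasDerivAt (fun z : ℂ => ((r : ℂ) ^ 2 - (starRingEnd ℂ) ρ * z) / r)
        (-(starRingEnd ℂ) ρ / r) 0 := by
      have := (((hasDerivAt_id (0 : ℂ)).const_mul ((starRingEnd ℂ) ρ)).const_sub
        ((r : ℂ) ^ 2)).div_const (r : ℂ)
      simpa using this
    have hd := (hG0.fun_mul hB).deriv
    have hg0 := hne 0 (by simpa using h0.le)
    have e : (deriv G 0 * (((r : ℂ) ^ 2 - (starRingEnd ℂ) ρ * 0) / r) +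
        G 0 * (-(starRingEnd ℂ) ρ / r)) / (G 0 * (((r : ℂ) ^ 2 - (starRingEnd ℂ) ρ * 0) / r)) =
        deriv G 0 / G 0 - (starRingEnd ℂ) ρ / ((r ^ 2 : ℝ) : ℂ) := by
      push_cast
      field_simp
      ring
    simp only [hd, e, sub_re, Complex.div_ofReal_re, conj_re] at hi
    rw [Multiset.map_cons, Multiset.sum_cons]
    linarith

/-- the logarithmic derivative of a product -/
theorem ld (Z : Multiset ℂ) (a : ℂ) : ∀ G : ℂ → ℂ, (∀ ρ ∈ Z, a - ρ ≠ 0) → DifferentiableAt ℂ G a →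
    G a ≠ 0 → (deriv (fun s => PZ Z s * G s) a / (PZ Z a * G a)).re =
      (Z.map fun ρ => ((a - ρ)⁻¹).re).sum + (deriv G a / G a).re := by
  induction Z using Multiset.induction_on with
  | empty => intro G _ _ _; simp [PZ]
  | cons ρ Z ih =>
    intro G hZ hG hne
    have hρ := hZ ρ (Multiset.mem_cons_self _ _)
    have hi := ih (fun s => (s - ρ) * G s) (fun σ hσ => hZ σ (Multiset.mem_cons_of_mem hσ))
      (by fun_prop) (mul_ne_zero hρ hne)
    have e1 : (fun s => PZ (ρ ::ₘ Z) s * G s) = fun s => PZ Z s * ((s - ρ) * G s) := by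
      funext s; rw [PZ_cons]; ring
    have e2 : PZ (ρ ::ₘ Z) a * G a = PZ Z a * ((a - ρ) * G a) := by rw [PZ_cons]; ring
    have hd := (((hasDerivAt_id a).sub_const ρ).fun_mul hG.hasDerivAt).deriv
    simp only [id] at hd
    have e3 : (1 * G a + (a - ρ) * deriv G a) / ((a - ρ) * G a) =
        (a - ρ)⁻¹ + deriv G a / G a := by field_simp
    rw [e1, e2, hi, hd, e3, add_re, Multiset.map_cons, Multiset.sum_cons]
    ring

theorem PZ_zero {Z : Multiset ℂ} {ρ : ℂ} (h : ρ ∈ Z) : PZ Z ρ = 0 := by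
  unfold PZ
  exact Multiset.prod_eq_zero (Multiset.mem_map.2 ⟨ρ, h, sub_self ρ⟩)

theorem sum_le (Z : Multiset ℂ) (u : ℂ → ℝ) (c : ℝ) (h : ∀ ρ ∈ Z, u ρ ≤ c) :
    (Z.map u).sum ≤ Z.card * c := by
  have := Multiset.sum_le_card_nsmul (Z.map u) c (by
    intro x hx
    obtain ⟨ρ, hρ, rfl⟩ := Multiset.mem_map.1 hx
    exact h ρ hρ)
  simpa using this

/-- the statement at the origin -/
theorem origin (f g : ℂ → ℂ) (Y : Multiset ℂ) (R d M₁ M₀ : ℝ) (hR : 0 < R) (hd : 0 ≤ d)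
    (hdR : d ≤ R / 2) (h1 : 0 ≤ M₁) (h2 : 0 ≤ M₀) (hg : Differentiable ℂ g)
    (hf : ∀ s, f s = PZ Y s * g s) (hY : ∀ ρ ∈ Y, ‖ρ‖ ≤ d)
    (hu : ∀ s, ‖s‖ ≤ R → ‖f s‖ ≤ Real.exp (M₁ * max 0 (-s.re) + M₀))
    (hl : ∀ s, ‖s‖ ≤ R → 0 ≤ s.re → Real.exp (-M₀) ≤ ‖f s‖) :
    -(deriv f 0 / f 0).re ≤
      -(Y.map fun ρ => ((0 - ρ)⁻¹).re).sum + 4 * Y.card * d / R ^ 2 + M₁ / 2 + 3 * M₀ / R := by
  have hnz : ∀ s, ‖s‖ ≤ R → f s = 0 → s.re < 0 := by
    intro s hs e
    by_contra hn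
    have := hl s hs (not_lt.1 hn)
    rw [e, norm_zero] at this
    exact absurd (Real.exp_pos _) (not_lt.2 this)
  have hf0 : f 0 ≠ 0 := fun e => by simpa using hnz 0 (by simpa using hR.le) e
  have hg0 : g 0 ≠ 0 := fun e => hf0 (by rw [hf, e, mul_zero])
  have hH : MP_c69980_ag.H60.Hol (R + 1) g := hg.differentiableOn
  have hN : MP_c69980_ag.H60.NZ (R + 1) g := ⟨0, mem_ball_self (by linarith), hg0⟩
  have hfin := (MP_c69980_ag.H60.zeros_fin hH hN (lt_add_one R)).image fun z => ‖z‖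
  obtain ⟨r, hr, hrn⟩ := (Set.Ioo_infinite (show 2 * R / 3 < R by linarith)).exists_notMem_finite hfin
  have h0 : 0 < r := by linarith [hr.1]
  obtain ⟨N, b, G, hb, hG, hgG, hne⟩ := MP_c69980_ag.H60.factor hH hN (ρ := r) (by linarith [hr.2])
  set Y' : Multiset ℂ := Finset.univ.val.map b with hY'
  have hP : ∀ z, PZ Y' z = ∏ i, (z - b i) := by
    intro z
    rw [PZ, hY', Multiset.map_map]
    rfl
  have hfe : ∀ s, f s = PZ (Y + Y') s * G s := by
    intro s
    rw [hf, hgG, ← hP, PZ, PZ, PZ, Multiset.map_add, Multiset.prod_add, mul_assoc]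
  have hin : ∀ ρ ∈ Y', ‖ρ‖ < r := by
    intro ρ hρ
    have hz : g ρ = 0 := by rw [hgG, ← hP, PZ_zero hρ, zero_mul]
    obtain ⟨i, _, rfl⟩ := Multiset.mem_map.1 hρ
    exact lt_of_le_of_ne (hb i) fun e => hrn ⟨b i, ⟨(hb i).trans hr.2.le, hz⟩, e⟩
  have hall : ∀ ρ ∈ Y + Y', ‖ρ‖ < r := by
    intro ρ hρ
    rcases Multiset.mem_add.1 hρ with h | h
    · linarith [hY ρ h, hr.1]
    · exact hin ρ h
  have hneg : ∀ ρ ∈ Y + Y', ρ.re < 0 := fun ρ hρ =>
    hnz ρ ((hall ρ hρ).le.trans hr.2.le) (by rw [hfe, PZ_zero hρ, zero_mul])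
  have hA := refl h0 (show r < R + 1 by linarith [hr.2]) h1 h2 (Y + Y') G hall hG hne
    (fun z hz => by rw [← hfe]; exact hu z (hz.le.trans hr.2.le))
    (fun z hz hx => by rw [← hfe]; exact hl z (hz.le.trans hr.2.le) hx)
  have hB := ld (Y + Y') 0 G (fun ρ hρ e => by
      have := hneg ρ hρ
      rw [zero_sub, neg_eq_zero] at e
      simp [e] at this)
    (hG.differentiableAt (isOpen_ball.mem_nhds (mem_ball_self (by linarith))))
    (hne 0 (by simpa using h0.le))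
  have hfun : f = fun s => PZ (Y + Y') s * G s := funext hfe
  rw [← hfun, ← hfe] at hB
  rw [hB]
  simp only [Multiset.map_add, Multiset.sum_add] at hA ⊢
  have hr2 : 0 < r ^ 2 := by positivity
  have s1 : (Y.map fun ρ => -(ρ.re / r ^ 2)).sum ≤ Y.card * (4 * d / R ^ 2) := by
    refine sum_le Y _ _ fun ρ hρ => ?_
    have a1 : -ρ.re ≤ d := by
      linarith [(abs_le.1 (Complex.abs_re_le_norm ρ)).1, hY ρ hρ]
    rw [← neg_div, div_le_div_iff₀ hr2 (by positivity)]
    have a2 : R ^ 2 ≤ 4 * r ^ 2 := by nlinarith [hr.1]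
    nlinarith [mul_le_mul_of_nonneg_left a2 hd, mul_le_mul_of_nonneg_right a1 (sq_nonneg R)]
  have s2 : (Y'.map fun ρ => -((0 - ρ)⁻¹).re + -(ρ.re / r ^ 2)).sum ≤ Y'.card * (0 : ℝ) := by
    refine sum_le Y' _ _ fun ρ hρ => ?_
    have a1 := hneg ρ (Multiset.mem_add.2 (Or.inr hρ))
    have a2 := hin ρ hρ
    have a3 : 0 < ‖ρ‖ := norm_pos_iff.2 fun e => by simp [e] at a1
    have a4 : ((0 - ρ)⁻¹).re = -ρ.re / ‖ρ‖ ^ 2 := by
      rw [zero_sub, inv_re, neg_re, normSq_neg, Complex.sq_norm]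
    have a5 : -ρ.re / r ^ 2 ≤ -ρ.re / ‖ρ‖ ^ 2 :=
      div_le_div_of_nonneg_left (by linarith) (by positivity) (by nlinarith)
    rw [a4, ← neg_div (r ^ 2)]
    linarith
  rw [Multiset.sum_map_add, Multiset.sum_map_neg, Multiset.sum_map_neg] at s2
  rw [Multiset.sum_map_neg] at s1
  have s3 : 2 * M₀ / r ≤ 3 * M₀ / R := by
    rw [div_le_div_iff₀ h0 hR]
    nlinarith [hr.1]
  have s4 : (Y.card : ℝ) * (4 * d / R ^ 2) = 4 * Y.card * d / R ^ 2 := by ring
  linarith

end Jd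

theorem jd : JdS := by
  intro f g Y a R d M₁ M₀ hR hd hdR h1 h2 hg hf hY hu hl
  have h := Jd.origin (fun z => f (z + a)) (fun z => g (z + a)) (Y.map fun ρ => ρ - a) R d M₁ M₀ hR
    hd hdR h1 h2 (by fun_prop) (fun s => by
      rw [hf, PZ, PZ, Multiset.map_map]
      congr 3
      funext ρ
      simp only [Function.comp]
      ring) (fun ρ hρ => by
      obtain ⟨σ, hσ, rfl⟩ := Multiset.mem_map.1 hρ
      rw [norm_sub_rev]; exact hY σ hσ)
    (fun s hs => by simpa using hu (s + a) (by simpa using hs))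
    (fun s hs hx => hl (s + a) (by simpa using hs) (by simpa using hx))
  rw [deriv_comp_add_const, zero_add, Multiset.map_map, Multiset.card_map] at h
  have e : ((fun ρ : ℂ => ((0 - ρ)⁻¹).re) ∘ fun ρ => ρ - a) = fun ρ => ((a - ρ)⁻¹).re := by
    funext ρ
    simp only [Function.comp, zero_sub, neg_sub]
  rw [e] at h
  exact h

end Pool.Agent.MP_c5bf7b_nt.H38
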