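import Pool.Agent.MP_c5bf7b_nt.H38.Kf2

/-! Row KF: the basic inequality. -/

set_option autoImplicit false

namespace Pool.Agent.MP_c5bf7b_nt.H38

open Complex ArithmeticFunction

namespace Kf

open Classical in
lemma zeros {f : ℝ → ℝ} {x C CN l d : ℝ} (hA : Adm f x) (hC : 0 ≤ C) (hF : FB f x C) (hl : 0 < l)
    (hCN : 0 ≤ CN) {N Y : Multiset ℂ} (hc : Cnt l CN N) (hY : Y ≤ N) (hd : 0 < d) (hd1 : d ≤ 1)
    {w : ℂ} (hP : (Y.filter fun ζ => d / 2 * l < ‖ζ - w.im * I‖).card ≤ 4) (hw : 0 ≤ w.re)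
    (hwd : 2 * (1 + w.re) ≤ d * l) (hH : ∀ ζ ∈ N - Y, Hp l w ζ) :
    (Y.map fun ζ => (Lp f x (ζ - w)).re).sum - 4 * (f 0 / (d * l)) -
      (4 * C * Real.exp 50 + 2 * f 0 * (1 + w.re)) * (4 / (d * l) ^ 2) *
        (2 * (CN * l) * ∑' j : ℕ, pw j) ≤
      (N.map fun ζ => (Lp f x (ζ - w.im * I - w.re) - f 0 / (ζ - w.im * I + 1)).re).sum +
        f 0 * (N.map fun ζ =>
          if ‖ζ - w.im * I + 1‖ ≤ d * l then ((ζ - w.im * I + 1)⁻¹).re else 0).sum := by
  have h0 : 0 ≤ f 0 := hA.nonneg 0 le_rfl hA.pos.le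
  have hdl : 0 < d * l := mul_pos hd hl
  have he : ∀ ζ : ℂ, ζ - w.im * I - w.re = ζ - w := fun ζ => by
    conv_rhs => rw [← re_add_im w]
    ring
  have hre : ∀ z : ℂ, ((f 0 : ℂ) / z).re = f 0 * (z⁻¹).re := fun z => by
    rw [div_eq_mul_inv, re_ofReal_mul]
  set B := (4 * C * Real.exp 50 + 2 * f 0 * (1 + w.re)) * (4 / (d * l) ^ 2) with hB
  have hB0 : 0 ≤ B := by positivity
  have h1 := book hY (fun ζ => (Lp f x (ζ - w.im * I - w.re) - f 0 / (ζ - w.im * I + 1)).re +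
      f 0 * if ‖ζ - w.im * I + 1‖ ≤ d * l then ((ζ - w.im * I + 1)⁻¹).re else 0)
    (fun ζ => (Lp f x (ζ - w)).re) (fun ζ => B * pw (|ζ.im - w.im| / l))
    (fun ζ => d / 2 * l < ‖ζ - w.im * I‖) (c := f 0 / (d * l)) (by positivity) hP ?_ ?_
    (fun ζ => mul_nonneg hB0 (pw_nonneg (by positivity)))
  · rw [Multiset.sum_map_add, Multiset.sum_map_mul_left, Multiset.sum_map_mul_left] at h1
    have h2 := mul_le_mul_of_nonneg_left (cnt_sum hl hCN hc w.im) hB0
    linarith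
  · intro ζ _
    rw [he, sub_re, hre]
    by_cases hn : ‖ζ - w.im * I + 1‖ ≤ d * l
    · rw [if_pos hn]
      have : 0 ≤ if d / 2 * l < ‖ζ - w.im * I‖ then f 0 / (d * l) else 0 := by
        split_ifs <;> positivity
      linarith
    · rw [if_neg hn]
      rw [not_le] at hn
      have h2 := norm_add_le (ζ - w.im * I) 1
      rw [norm_one] at h2
      rw [if_pos (by linarith)]
      have h3 : ((ζ - w.im * I + 1)⁻¹).re ≤ (d * l)⁻¹ := by
        refine (re_le_norm _).trans ?_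
        rw [norm_inv]
        exact inv_anti₀ hdl hn.le
      have h4 := mul_le_mul_of_nonneg_left h3 h0
      rw [div_eq_mul_inv]
      linarith
  · intro ζ hζ
    obtain ⟨h2, h3⟩ := hH ζ hζ
    have him : |ζ.im - w.im| ≤ ‖ζ - w.im * I + 1‖ := by
      simpa using abs_im_le_norm (ζ - w.im * I + 1)
    have hφ : 0 ≤ B * pw (|ζ.im - w.im| / l) := mul_nonneg hB0 (pw_nonneg (by positivity))
    by_cases hn : ‖ζ - w.im * I + 1‖ ≤ d * l
    · rw [if_pos hn, he, sub_re, hre]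
      have h4 : w.re ≤ ζ.re := h2 (by nlinarith)
      have h5 := hA.re (ζ - w) (by rw [sub_re]; linarith)
      linarith
    · rw [if_neg hn, mul_zero, add_zero]
      rw [not_le] at hn
      set T := 1 + |ζ.im - w.im| / l with hT
      have hT1 : 1 ≤ T := le_add_of_nonneg_right (by positivity)
      have h4 := kap_far hA.le hC hF h0 hw (z := ζ - w.im * I) hT1 (by simpa using h3)
        (by linarith)
      have h5 : d * l * T / 2 ≤ ‖ζ - w.im * I + 1‖ := by
        have h6 : d * l * T = d * l + d * |ζ.im - w.im| := by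
          rw [hT]
          field_simp
        have h7 : d * |ζ.im - w.im| ≤ |ζ.im - w.im| := mul_le_of_le_one_left (abs_nonneg _) hd1
        linarith
      have h6 : (4 * C * Real.exp 50 + 2 * f 0 * (1 + w.re)) * √T / ‖ζ - w.im * I + 1‖ ^ 2 ≤
          B * pw (|ζ.im - w.im| / l) := by
        have h7 : B * pw (|ζ.im - w.im| / l) =
            (4 * C * Real.exp 50 + 2 * f 0 * (1 + w.re)) * √T / (d * l * T / 2) ^ 2 := by
          rw [hB, pw, ← hT]
          have hs : 0 < √T := Real.sqrt_pos.2 (by linarith)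
          have hss : √T * √T = T := Real.mul_self_sqrt (by linarith)
          generalize √T = s at hs hss ⊢
          rw [← hss]
          field_simp
          norm_num
        rw [h7]
        gcongr
      have h7 := abs_re_le_norm (Lp f x (ζ - w.im * I - w.re) - f 0 / (ζ - w.im * I + 1))
      have h8 := neg_abs_le (Lp f x (ζ - w.im * I - w.re) - f 0 / (ζ - w.im * I + 1)).re
      linarith

lemma re_msum (Y : Multiset ℂ) (g : ℂ → ℂ) :
    (Y.map g).sum.re = (Y.map fun ζ => (g ζ).re).sum := by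
  induction Y using Multiset.induction_on with
  | empty => simp
  | cons a Y ih => simp [ih]

lemma tail_small {l lam : ℝ} (hl : 0 < l) (h : lam ≤ l / 10) :
    Real.exp (5 * (1 + lam)) * l ^ 3 / Real.exp l ^ 2 ≤ Real.exp 5 * 24 / l := by
  have h1 := Real.pow_div_factorial_le_exp l hl.le 4
  have h2 : Real.exp (5 * (1 + lam)) ≤ Real.exp 5 * Real.exp l := by
    rw [← Real.exp_add]
    exact Real.exp_le_exp.2 (by linarith)
  have h3 := Real.exp_pos l
  have h4 := Real.exp_pos 5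
  rw [div_le_div_iff₀ (by positivity) hl]
  norm_num [Nat.factorial] at h1
  calc _ ≤ Real.exp 5 * Real.exp l * l ^ 3 * l := by gcongr
    _ = Real.exp 5 * Real.exp l * l ^ 4 := by ring
    _ ≤ Real.exp 5 * Real.exp l * (24 * Real.exp l) := by
        gcongr
        linarith
    _ = _ := by ring

end Kf

open Kf in
theorem kfOf : KfOf := by
  classical
  intro hPhi hCnt hJ hGrow hLp hEf f x ε hA hε
  obtain ⟨A₀, hPhi⟩ := hPhi
  obtain ⟨CN, hCN, hCnt⟩ := hCnt
  obtain ⟨CE, hCE, qE, hEf⟩ := hEf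
  obtain ⟨⟨C, hC, hF⟩, -⟩ := hLp f x hA
  have hF : FB f x C := hF
  have hfc : Continuous f := hA.diff.continuous
  obtain ⟨M, hM⟩ := (isCompact_Icc (a := (0 : ℝ)) (b := x)).exists_bound_of_continuousOn
    hfc.continuousOn
  have hM' : ∀ t, 0 ≤ t → t ≤ x → |f t| ≤ M := fun t h1 h2 => hM t ⟨h1, h2⟩
  have hM0 : 0 ≤ M := (abs_nonneg _).trans (hM' 0 le_rfl hA.pos.le)
  have h0 : 0 ≤ f 0 := hA.nonneg 0 le_rfl hA.pos.le
  obtain ⟨e, he0, he⟩ : ∃ e : ℝ, 0 < e ∧ 5 * f 0 * e ≤ ε / 2 := by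
    refine ⟨ε / (10 * (f 0 + 1)), by positivity, ?_⟩
    rw [← mul_div_assoc, div_le_div_iff₀ (by positivity) (by norm_num)]
    nlinarith
  obtain ⟨R, η, hR, hR1, hη, qG, hGrow⟩ := hGrow e he0
  obtain ⟨d, hd0, hdR, hd2⟩ : ∃ d : ℝ, 0 < d ∧ d ≤ R / 2 ∧ 4 * CN * d / R ^ 2 ≤ e := by
    refine ⟨min (R / 2) (e * R ^ 2 / (4 * CN)), lt_min (by positivity) (by positivity),
      min_le_left _ _, ?_⟩
    rw [div_le_iff₀ (by positivity), mul_comm, ← le_div_iff₀ (by positivity)]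
    exact min_le_right _ _
  have hI0 : 0 ≤ ∫ y, ph y := MeasureTheory.integral_nonneg ph_nonneg
  have hK0 : 0 ≤ ∑' j : ℕ, pw j := tsum_nonneg fun j => pw_nonneg (Nat.cast_nonneg _)
  obtain ⟨K₁, hK₁⟩ : ∃ K : ℝ,
    K = (2 * ((2 * C + 4 * f 0) * Real.exp 5) + 2 * f 0) * ∫ y, ph y := ⟨_, rfl⟩
  have hK₁0 : 0 ≤ K₁ := by rw [hK₁]; positivity
  obtain ⟨K₂, hK₂⟩ : ∃ K : ℝ, K = ∑' j : ℕ, pw j := ⟨_, rfl⟩
  have hK₂0 : 0 ≤ K₂ := by rw [hK₂]; positivity
  obtain ⟨A, hAd⟩ : ∃ A : ℝ, A = 2 * M + (2 * C + 4 * f 0) := ⟨_, rfl⟩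
  have hA0 : 0 ≤ A := by rw [hAd]; positivity
  obtain ⟨K, hK⟩ : ∃ K : ℝ, K = CE * K₁ * 2 + CE * A * (Real.exp 5 * 24) + 4 * (f 0 / d) +
    (4 * C * Real.exp 50 + 4 * f 0) * (8 * CN * K₂ / d ^ 2) := ⟨_, rfl⟩
  have hKp : 0 ≤ K := by rw [hK]; positivity
  obtain ⟨σ, hσ0, hσ1, hσ2, hσ3, hσ4⟩ :
      ∃ σ : ℝ, 0 < σ ∧ σ ≤ η ∧ σ ≤ 1 / 10 ∧ σ ≤ d / 4 ∧ K * σ ≤ ε / 2 := by
    refine ⟨min (min η (1 / 10)) (min (d / 4) (ε / (2 * (K + 1)))), by positivity,
      (min_le_left _ _).trans (min_le_left _ _), (min_le_left _ _).trans (min_le_right _ _),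
      (min_le_right _ _).trans (min_le_left _ _), ?_⟩
    refine (mul_le_mul_of_nonneg_left ((min_le_right _ _).trans (min_le_right _ _)) hKp).trans ?_
    rw [← mul_div_assoc, div_le_div_iff₀ (by positivity) (by norm_num)]
    nlinarith
  have hδσ : σ ^ 2 ≤ σ := by nlinarith
  refine ⟨σ ^ 2, d / 2, by positivity, by positivity, by linarith,
    max (max qE qG) (max 2 ⌈Real.exp (1 / σ ^ 2)⌉₊), fun q _ hq N hN χ w Y hY hP hw0 hw1 hw2 hH => ?_⟩
  simp only [max_le_iff] at hq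
  obtain ⟨⟨hqE, hqG⟩, hq2, hq3⟩ := hq
  have hq1 : (1 : ℝ) < q := by exact_mod_cast hq2
  have hl : 0 < Real.log q := Real.log_pos hq1
  have hl1 : 1 ≤ σ ^ 2 * Real.log q := by
    rw [mul_comm, ← div_le_iff₀ (by positivity), Real.le_log_iff_exp_le (by linarith)]
    exact Nat.ceil_le.1 hq3
  have hl2 : σ ^ 2 * Real.log q ≤ σ * Real.log q := by gcongr
  have hl3 : σ * Real.log q ≤ 1 / 10 * Real.log q := by gcongr
  have hl4 : σ * Real.log q ≤ d / 4 * Real.log q := by gcongr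
  have hinv : 1 / Real.log q ≤ σ ^ 2 := by rwa [div_le_iff₀ hl]
  have hqδ : (q : ℝ) ^ (σ ^ 2) ≤ (q : ℝ) ^ η :=
    Real.rpow_le_rpow_of_exponent_le hq1.le (by linarith)
  have hqη : 1 ≤ (q : ℝ) ^ η := Real.one_le_rpow hq1.le hη.le
  have hqδ1 : (q : ℝ) ^ (σ ^ 2) ≤ q := by
    have := Real.rpow_le_rpow_of_exponent_le hq1.le (show σ ^ 2 ≤ 1 by linarith)
    rwa [Real.rpow_one] at this
  obtain ⟨hc, hpos, -⟩ := (hCnt q χ hq2).2 _ (hN χ)
  obtain ⟨-, -, -, -, -, hlog⟩ := hPhi q χ hq2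
  have hlc : ((Real.log q : ℝ) : ℂ) ≠ 0 := by exact_mod_cast hl.ne'
  -- the explicit formula
  have hE := hEf q hqE χ (N χ) (kk f x w.re) (A * Real.exp (5 * (1 + w.re))) w.re w.im (hN χ)
    (kk_cont hfc _ _) (kk_neg f hA.pos _)
    (fun u hu => (kk_bound hA.pos hA.le hA.zero hM' hw0 hu).trans (by
      gcongr
      rw [hAd]
      exact le_add_of_nonneg_right (by positivity)))
    hw0 (by linarith)
    (fun z hz _ => by
      rw [lh_kk hfc hA.pos hA.zero _ (by linarith)]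
      refine (kap_strip hA.le (by linarith) hF h0 hw0 hz).trans ?_
      gcongr
      rw [hAd]
      exact le_add_of_nonneg_left (by positivity))
    (hw2.trans (by gcongr))
  have e1 : ((N χ).map fun ζ => Lh (kk f x w.re) (ζ - w.im * I)) =
      (N χ).map fun ζ => Lp f x (ζ - w.im * I - w.re) - f 0 / (ζ - w.im * I + 1) :=
    Multiset.map_congr rfl fun ζ hζ => lh_kk hfc hA.pos hA.zero _ (by
      have := (hpos ζ hζ).1
      simp only [sub_re, mul_re, ofReal_re, I_re, mul_zero, ofReal_im, I_im, mul_one, sub_self,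
        sub_zero]
      linarith)
  have e2 : Lh (kk f x w.re) (-(w.im * I)) = Lp f x (-w) - f 0 / (1 - w.im * I) := by
    rw [lh_kk hfc hA.pos hA.zero _ (by simp)]
    congr 2
    · conv_rhs => rw [← re_add_im w]
      ring
    · ring
  have e3 : (∫ y : ℝ, ‖Lh (kk f x w.re) (w.re + y * I)‖ * √|y|) ≤ K₁ * √(1 + w.re) := by
    rw [hK₁]
    refine le_trans (le_of_eq ?_) (kap_int hA.le (by linarith) hF h0 hw0)
    congr 1
    funext y
    rw [lh_kk hfc hA.pos hA.zero _ (by simp; linarith)]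
  obtain ⟨a, ha⟩ : ∃ a : ℂ, a = 1 + (1 - w.im * I) / Real.log q := ⟨_, rfl⟩
  have hare : a.re = 1 + 1 / Real.log q := by
    rw [ha, add_re, div_ofReal_re]
    simp
  have haim : |a.im| ≤ (q : ℝ) ^ η := by
    rw [ha, add_im, div_ofReal_im]
    simp only [one_im, sub_im, mul_im, ofReal_re, I_im, mul_one, ofReal_im, I_re, mul_zero,
      add_zero, zero_sub, zero_add]
    rw [abs_div, abs_neg, abs_of_pos hl, div_le_iff₀ hl]
    exact hw2.trans (by gcongr)
  have hl0 : 0 < 1 / Real.log q := by positivity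
  have e4 := hlog a (by rw [hare]; linarith)
  rw [series hq2 χ f hA.zero w, e1, e2, ← ha] at hE
  have e5 : Kn q f x χ w - f 0 / Real.log q * LSeries (fun n => (vonMangoldt n : ℂ) * χ n) a +
      ((N χ).map fun ζ => Lp f x (ζ - w.im * I - w.re) - f 0 / (ζ - w.im * I + 1)).sum -
      (if χ = 1 then Lp f x (-w) - f 0 / (1 - w.im * I) else 0) =
      Kn q f x χ w + ((f 0 / Real.log q : ℝ) : ℂ) * (deriv (Phi χ) a / Phi χ a) +
      ((N χ).map fun ζ => Lp f x (ζ - w.im * I - w.re) - f 0 / (ζ - w.im * I + 1)).sum -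
      (if χ = 1 then Lp f x (-w) else 0) := by
    rw [← neg_neg (deriv (Phi χ) a / Phi χ a), e4, ofReal_div]
    split_ifs
    · have h1 : a - 1 = (1 - w.im * I) / Real.log q := by
        rw [ha]
        ring
      rw [h1, one_div_div]
      have h2 : (f 0 : ℂ) / Real.log q * (Real.log q / (1 - w.im * I)) =
          f 0 / (1 - w.im * I) := by
        rw [div_mul_div_comm, mul_comm (f 0 : ℂ), mul_div_mul_left _ _ hlc]
      linear_combination -h2
    · ring
  rw [e5] at hE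
  replace hE := (re_le_norm _).trans hE
  rw [sub_re, add_re, add_re, re_ofReal_mul, re_msum] at hE
  -- the formula of Jensen
  have hball : ∀ s ∈ Metric.closedBall a R,
      1 - R ≤ s.re ∧ s.re ≤ 2 ∧ |s.im| ≤ 2 * (q : ℝ) ^ η := by
    intro s hs
    rw [Metric.mem_closedBall, dist_eq_norm] at hs
    have h1 := abs_le.1 ((abs_re_le_norm _).trans hs)
    have h2 := (abs_im_le_norm _).trans hs
    rw [sub_re, hare] at h1
    rw [sub_im] at h2
    have h3 := abs_sub_abs_le_abs_sub s.im a.im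
    exact ⟨by linarith [h1.1], by linarith [h1.2], by linarith⟩
  have hM₁ : 0 ≤ (if χ = 1 then 0 else 1 / 4 + e) * Real.log q := by
    split_ifs <;> positivity
  have hJ' := jensen hJ (hN χ) hl hc hR hd0.le hdR (by linarith) hM₁
    (M₀ := e * R * Real.log q) (by positivity) ha
    (fun s hs => by
      obtain ⟨h1, h2, h3⟩ := hball s hs
      refine (hGrow q hqG χ s h1 h2 h3).1.trans (Real.exp_le_exp.2 ?_)
      gcongr
      rw [hare]
      linarith)
    (fun s hs h4 => by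
      obtain ⟨h1, h2, h3⟩ := hball s hs
      exact (hGrow q hqG χ s h1 h2 h3).2 (by rwa [← hare]))
  have hZ := zeros hA (by linarith) hF hl (by linarith) hc hY hd0 (by linarith) hP hw0
    (by linarith) hH
  rw [← hK₂] at hZ
  -- the error terms
  have hw3 : (1 + w.re) / Real.log q ≤ 2 * σ ^ 2 := by
    rw [div_le_iff₀ hl]
    linarith
  have r1 : CE * (∫ y : ℝ, ‖Lh (kk f x w.re) (w.re + y * I)‖ * √|y|) / √(Real.log q) ≤
      CE * K₁ * 2 * σ := by
    have h1 : √(1 + w.re) / √(Real.log q) ≤ 2 * σ := by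
      rw [← Real.sqrt_div (by linarith)]
      refine Real.sqrt_le_iff.2 ⟨by positivity, ?_⟩
      nlinarith
    calc _ ≤ CE * (K₁ * √(1 + w.re)) / √(Real.log q) := by gcongr
      _ = CE * K₁ * (√(1 + w.re) / √(Real.log q)) := by ring
      _ ≤ CE * K₁ * (2 * σ) := by gcongr
      _ = _ := by ring
  have r2 : CE * (A * Real.exp (5 * (1 + w.re))) * Real.log q ^ 3 / (q : ℝ) ^ 2 ≤
      CE * A * (Real.exp 5 * 24) * σ := by
    have h1 := tail_small hl (lam := w.re) (by linarith)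
    rw [Real.exp_log (by linarith)] at h1
    calc _ = CE * A * (Real.exp (5 * (1 + w.re)) * Real.log q ^ 3 / (q : ℝ) ^ 2) := by ring
      _ ≤ CE * A * (Real.exp 5 * 24 / Real.log q) := by gcongr
      _ = CE * A * (Real.exp 5 * 24) * (1 / Real.log q) := by ring
      _ ≤ _ := by
        gcongr
        linarith
  have r3 : 4 * (f 0 / (d * Real.log q)) ≤ 4 * (f 0 / d) * σ := by
    calc _ = 4 * (f 0 / d) * (1 / Real.log q) := by field_simp
      _ ≤ _ := by
        gcongr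
        linarith
  have r4 : (4 * C * Real.exp 50 + 2 * f 0 * (1 + w.re)) * (4 / (d * Real.log q) ^ 2) *
      (2 * (CN * Real.log q) * K₂) ≤
      (4 * C * Real.exp 50 + 4 * f 0) * (8 * CN * K₂ / d ^ 2) * σ := by
    calc _ = (4 * C * Real.exp 50 * (1 / Real.log q) + 2 * f 0 * ((1 + w.re) / Real.log q)) *
          (8 * CN * K₂ / d ^ 2) := by
          field_simp
          ring
      _ ≤ (4 * C * Real.exp 50 * σ + 2 * f 0 * (2 * σ)) * (8 * CN * K₂ / d ^ 2) := by
          gcongr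
          · linarith
          · linarith
      _ = _ := by ring
  have r5 := mul_le_mul_of_nonneg_left hJ' (show 0 ≤ f 0 / Real.log q by positivity)
  have r6 : ∀ S : ℝ, f 0 / Real.log q * (-(Real.log q * S) + 4 * (CN * Real.log q) * d / R ^ 2 +
      (if χ = 1 then 0 else 1 / 4 + e) * Real.log q / 2 + 3 * (e * R * Real.log q) / R) =
      -(f 0 * S) + f 0 * (4 * CN * d / R ^ 2) + f 0 * (if χ = 1 then 0 else 1 / 4 + e) / 2 +
        3 * (f 0 * e) := by
    intro S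
    field_simp
  rw [r6] at r5
  have r7 : f 0 * (4 * CN * d / R ^ 2) ≤ f 0 * e := mul_le_mul_of_nonneg_left hd2 h0
  have r8 : 0 ≤ f 0 * e := by positivity
  rw [hK] at hσ4
  unfold Rhs
  split_ifs at hE r5 ⊢
  · linarith
  · rw [zero_re] at hE
    linarith

end Pool.Agent.MP_c5bf7b_nt.H38
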