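import Pool.Agent.MP_c5bf7b_nt.H38.SpecA
import Pool.Agent.MP_807c24_nt.H13.Newman

/-! The logarithmic mean of the Moebius function, from the theorem of Newman. -/

set_option autoImplicit false

namespace Pool.Agent.MP_c5bf7b_nt.H38

open Finset Complex ArithmeticFunction Filter Topology MeasureTheory

namespace MuR

noncomputable def A (N : ℕ) : ℝ := ∑ m ∈ Icc 1 N, (moebius m : ℝ) / m

theorem abs_mu (m : ℕ) : |(moebius m : ℝ)| ≤ 1 := by
  have := abs_moebius_le_one (n := m)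
  exact_mod_cast this

theorem sum_floor (N : ℕ) (hN : 1 ≤ N) :
    ∑ m ∈ Icc 1 N, (moebius m : ℝ) * ((N / m : ℕ) : ℝ) = 1 := by
  have h := sum_Ioc_mul_zeta_eq_sum (R := ℤ) moebius N
  rw [moebius_mul_coe_zeta] at h
  have h1 : ∑ n ∈ Ioc 0 N, (1 : ArithmeticFunction ℤ) n = 1 := by
    rw [sum_eq_single 1]
    · simp
    · intro b _ hb
      simp [one_apply, hb]
    · intro hb
      exact absurd (mem_Ioc.2 ⟨one_pos, hN⟩) hb
  rw [h1] at h
  have h2 : Icc 1 N = Ioc 0 N := rfl
  rw [h2]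
  have h3 := congrArg (fun x : ℤ => (x : ℝ)) h.symm
  simpa only [Int.cast_sum, Int.cast_mul, Int.cast_natCast, Int.cast_one] using h3

theorem abs_A (N : ℕ) : |A N| ≤ 2 := by
  rcases Nat.eq_zero_or_pos N with rfl | hN
  · simp [A]
  have hN' : (1 : ℝ) ≤ N := by exact_mod_cast hN
  have e : N * A N = 1 + ∑ m ∈ Icc 1 N, (moebius m : ℝ) * ((N : ℝ) / m - ((N / m : ℕ) : ℝ)) := by
    rw [← sum_floor N hN, ← sum_add_distrib, A, mul_sum]
    exact sum_congr rfl fun m _ => by ring
  have b : |∑ m ∈ Icc 1 N, (moebius m : ℝ) * ((N : ℝ) / m - ((N / m : ℕ) : ℝ))| ≤ N := by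
    refine (abs_sum_le_sum_abs _ _).trans ?_
    have : ∀ m ∈ Icc 1 N, |(moebius m : ℝ) * ((N : ℝ) / m - ((N / m : ℕ) : ℝ))| ≤ 1 := by
      intro m _
      have h1 : ((N / m : ℕ) : ℝ) ≤ (N : ℝ) / m := Nat.cast_div_le
      have h2 : (N : ℝ) / m < ((N / m : ℕ) : ℝ) + 1 := by
        rw [← Nat.floor_div_eq_div (K := ℝ)]
        exact Nat.lt_floor_add_one _
      rw [abs_mul]
      exact mul_le_one₀ (abs_mu m) (abs_nonneg _) (abs_le.2 ⟨by linarith, by linarith⟩)
    refine (sum_le_sum this).trans ?_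
    simp
  have c : N * |A N| ≤ N * 2 := by
    have : |N * A N| ≤ 1 + N := by
      rw [e]
      exact (abs_add_le _ _).trans (by simpa using b)
    rw [abs_mul, Nat.abs_cast] at this
    linarith
  exact le_of_mul_le_mul_left c (by linarith)

noncomputable def f (t : ℝ) : ℝ := A ⌊Real.exp t⌋₊

theorem f_meas : Measurable f :=
  (measurable_from_nat (f := A)).comp (Nat.measurable_floor.comp Real.measurable_exp)

noncomputable def g (z : ℂ) : ℂ := (riemannZeta₁ (z + 1))⁻¹

def U : Set ℂ := {z | riemannZeta₁ (z + 1) ≠ 0}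

theorem U_open : IsOpen U :=
  isOpen_ne_fun (differentiable_riemannZeta₁.continuous.comp (by fun_prop)) continuous_const

theorem mem_U (z : ℂ) (hz : 0 ≤ z.re) : z ∈ U := by
  show riemannZeta₁ (z + 1) ≠ 0
  by_cases h : z + 1 = 1
  · rw [h]; simp
  · intro h0
    have h1 := riemannZeta_ne_zero_of_one_le_re (s := z + 1) (by simp; linarith)
    rw [riemannZeta_eq_inv_sub_mul h, h0, mul_zero] at h1
    exact h1 rfl

theorem g_diff : DifferentiableOn ℂ g U := by
  intro z hz
  have h1 : DifferentiableAt ℂ (fun z : ℂ => riemannZeta₁ (z + 1)) z :=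
    (differentiable_riemannZeta₁ _).comp z (by fun_prop)
  exact (h1.inv hz).differentiableWithinAt

theorem term_eq (z : ℂ) : LSeries.term (fun k : ℕ => ((moebius k : ℤ) : ℂ) / k) z =
    LSeries.term (fun k : ℕ => ((moebius k : ℤ) : ℂ)) (z + 1) := by
  funext n
  rcases eq_or_ne n 0 with rfl | hn
  · simp
  · rw [LSeries.term_of_ne_zero hn, LSeries.term_of_ne_zero hn,
      cpow_add _ _ (by exact_mod_cast hn), cpow_one, div_div, mul_comm]

theorem castA (n : ℕ) : (∑ k ∈ Icc 1 n, ((moebius k : ℤ) : ℂ) / k) = (A n : ℂ) := by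
  simp [A]

theorem g_eq (z : ℂ) (hz : 0 < z.re) :
    g z = ∫ t in Set.Ioi (0 : ℝ), (f t : ℂ) * exp (-(z * t)) := by
  have hs : (1 : ℝ) < (z + 1).re := by simp; linarith
  have hz0 : z ≠ 0 := by rintro rfl; simp at hz
  have hne : z + 1 ≠ 1 := by simpa using hz0
  have hS : LSeriesSummable (fun k : ℕ => ((moebius k : ℤ) : ℂ) / k) z := by
    unfold LSeriesSummable
    rw [term_eq]
    exact LSeriesSummable_moebius_iff.2 hs
  have hO : (fun n : ℕ => ∑ k ∈ Icc 1 n, ((moebius k : ℤ) : ℂ) / k) =O[atTop]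
      fun n : ℕ => (n : ℝ) ^ (0 : ℝ) := by
    refine Asymptotics.IsBigO.of_bound 2 (Eventually.of_forall fun n => ?_)
    rw [castA, norm_real, Real.norm_eq_abs, Real.rpow_zero, norm_one, mul_one]
    exact abs_A n
  have key := LSeries_eq_mul_integral _ le_rfl (s := z) (by simpa using hz) hS hO
  have hL : LSeries (fun k : ℕ => ((moebius k : ℤ) : ℂ) / k) z = z * g z := by
    unfold LSeries
    rw [term_eq]
    have h := LSeries_zeta_mul_Lseries_moebius hs
    rw [LSeries_zeta_eq_riemannZeta hs, riemannZeta_eq_inv_sub_mul hne, add_sub_cancel_right] at h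
    have hU : riemannZeta₁ (z + 1) ≠ 0 := mem_U z hz.le
    unfold LSeries at h
    unfold g
    field_simp at h ⊢
    exact h
  rw [hL] at key
  rw [mul_left_cancel₀ hz0 key]
  have sub := integral_comp_exp_Ioi (fun t : ℝ =>
    (∑ k ∈ Icc 1 ⌊t⌋₊, ((moebius k : ℤ) : ℂ) / k) * (t : ℂ) ^ (-(z + 1))) 0
  rw [Real.exp_zero] at sub
  rw [← sub]
  refine integral_congr_ae (Eventually.of_forall fun t => ?_)
  simp only
  have e1 : ((Real.exp t : ℝ) : ℂ) ^ (-(z + 1)) = exp (t * (-(z + 1))) := by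
    rw [cpow_def_of_ne_zero (by exact_mod_cast (Real.exp_pos t).ne'),
      ← ofReal_log (Real.exp_pos t).le, Real.log_exp]
  rw [e1, castA, real_smul, ofReal_exp, mul_left_comm, ← exp_add]
  unfold f
  congr 2
  ring

theorem step_int (T c : ℝ) (h0 : 0 ≤ c) (hT : c ≤ T) :
    ∫ t in Set.Ioc (0 : ℝ) T, (Set.Ici c).indicator (fun _ => (1 : ℝ)) t = T - c := by
  rw [integral_indicator measurableSet_Ici, setIntegral_const, Measure.real,
    Measure.restrict_apply measurableSet_Ici, smul_eq_mul, mul_one]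
  have h1 : Set.Ioc c T ⊆ Set.Ici c ∩ Set.Ioc 0 T := fun x hx =>
    ⟨hx.1.le, lt_of_le_of_lt h0 hx.1, hx.2⟩
  have h2 : Set.Ici c ∩ Set.Ioc 0 T ⊆ Set.Icc c T := fun x hx => ⟨hx.1, hx.2.2⟩
  have h3 : volume (Set.Ici c ∩ Set.Ioc 0 T) = ENNReal.ofReal (T - c) :=
    le_antisymm ((measure_mono h2).trans Real.volume_Icc.le)
      (Real.volume_Ioc.symm.le.trans (measure_mono h1))
  rw [h3, ENNReal.toReal_ofReal (by linarith)]

theorem int_f (T : ℝ) (hT : 0 ≤ T) : ∫ t in (0 : ℝ)..T, f t = Mu 0 (Real.exp T) := by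
  rw [intervalIntegral.integral_of_le hT]
  have e : ∀ t ∈ Set.Ioc (0 : ℝ) T, f t = ∑ m ∈ Icc 1 ⌊Real.exp T⌋₊,
      (moebius m : ℝ) / m * (Set.Ici (Real.log m)).indicator (fun _ => (1 : ℝ)) t := by
    intro t ht
    unfold f A
    have hsub : Icc 1 ⌊Real.exp t⌋₊ ⊆ Icc 1 ⌊Real.exp T⌋₊ :=
      Icc_subset_Icc_right (Nat.floor_le_floor (Real.exp_le_exp.2 ht.2))
    rw [← sum_subset hsub]
    · refine sum_congr rfl fun m hm => ?_
      have hm := mem_Icc.1 hm
      have h1 : (0 : ℝ) < m := by exact_mod_cast hm.1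
      have h2 : Real.log m ≤ t := (Real.log_le_iff_le_exp h1).2
        ((Nat.le_floor_iff (Real.exp_pos t).le).1 hm.2)
      rw [Set.indicator_of_mem (Set.mem_Ici.2 h2), mul_one]
    · intro m hm hm'
      have hm := mem_Icc.1 hm
      have h1 : (0 : ℝ) < m := by exact_mod_cast hm.1
      rw [Set.indicator_of_notMem, mul_zero]
      intro h2
      exact hm' (mem_Icc.2 ⟨hm.1, (Nat.le_floor_iff (Real.exp_pos t).le).2
        ((Real.log_le_iff_le_exp h1).1 h2)⟩)
  rw [setIntegral_congr_fun measurableSet_Ioc e, integral_finsetSum]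
  · unfold Mu
    refine sum_congr rfl fun m hm => ?_
    have hm := mem_Icc.1 hm
    have h1 : (1 : ℝ) ≤ m := by exact_mod_cast hm.1
    have h2 : Real.log m ≤ T := (Real.log_le_iff_le_exp (by linarith)).2
      ((Nat.le_floor_iff (Real.exp_pos T).le).1 hm.2)
    rw [integral_const_mul, step_int T _ (Real.log_nonneg h1) h2, sub_zero, Real.rpow_neg_one,
      Real.log_div (Real.exp_pos T).ne' (by linarith), Real.log_exp, div_eq_mul_inv]
  · intro m _
    exact ((integrable_const (1 : ℝ)).indicator measurableSet_Ici).const_mul _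

theorem tend : Tendsto (Mu 0) atTop (𝓝 1) := by
  have h := MP_807c24_nt.H13.newman f g U 2 f_meas (fun t => abs_A _) U_open mem_U g_diff g_eq
  have h0 : g 0 = 1 := by simp [g]
  rw [h0] at h
  have h1 : Tendsto (fun T : ℝ => ∫ t in (0 : ℝ)..T, f t) atTop (𝓝 1) := by
    exact (continuous_re.tendsto _).comp h
  refine (h1.comp Real.tendsto_log_atTop).congr' ?_
  filter_upwards [eventually_ge_atTop (1 : ℝ)] with y hy
  rw [Function.comp, int_f _ (Real.log_nonneg hy), Real.exp_log (by linarith)]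

theorem small (y : ℝ) (hy : 1 ≤ y) : |Mu 0 y| ≤ 2 * Real.log y := by
  have h := int_f _ (Real.log_nonneg hy)
  rw [Real.exp_log (by linarith)] at h
  rw [← h]
  have := intervalIntegral.norm_integral_le_of_norm_le_const (a := 0) (b := Real.log y) (C := 2)
    (f := f) fun t _ => abs_A _
  rwa [sub_zero, abs_of_nonneg (Real.log_nonneg hy)] at this

end MuR

theorem mu : MuS := by
  refine ⟨?_, MuR.tend⟩
  have h := MuR.tend.eventually (Metric.closedBall_mem_nhds (1 : ℝ) one_pos)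
  obtain ⟨b, hb⟩ := eventually_atTop.1 h
  refine ⟨2 + 2 * Real.log (max 1 b), fun y => ?_⟩
  have hl : 0 ≤ Real.log (max 1 b) := Real.log_nonneg (le_max_left _ _)
  by_cases h1 : b ≤ y
  · have := hb y h1
    rw [Real.dist_eq, abs_le] at this
    exact abs_le.2 ⟨by linarith, by linarith⟩
  by_cases h2 : 1 ≤ y
  · have h3 := MuR.small y h2
    have h4 : Real.log y ≤ Real.log (max 1 b) :=
      Real.log_le_log (by linarith) ((not_le.1 h1).le.trans (le_max_right _ _))
    linarith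
  · have h3 : ⌊y⌋₊ = 0 := Nat.floor_eq_zero.2 (not_le.1 h2)
    simp only [Mu, h3]
    simp
    linarith

end Pool.Agent.MP_c5bf7b_nt.H38
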