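import Pool.Agent.MP_c5bf7b_nt.H38.SpecA

/-! The tail of the Dirichlet series beyond the Burgess range. -/

set_option autoImplicit false

namespace Pool.Agent.MP_c5bf7b_nt.H38

open Finset Complex

namespace TailAux

theorem interp {x a b η : ℝ} (hx : 0 ≤ x) (ha : x ≤ a) (hb : x ≤ b) (h0 : 0 ≤ η) (h1 : η ≤ 1) :
    x ≤ a ^ (1 - η) * b ^ η := by
  calc x = x ^ ((1 - η) + η) := by simp
    _ = x ^ (1 - η) * x ^ η := Real.rpow_add_of_nonneg hx (by linarith) h0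
    _ ≤ a ^ (1 - η) * b ^ η :=
      mul_le_mul (Real.rpow_le_rpow hx ha (by linarith)) (Real.rpow_le_rpow hx hb h0)
        (Real.rpow_nonneg hx _) (Real.rpow_nonneg (hx.trans ha) _)

theorem sum_Ioc_eq (f : ℕ → ℂ) (N n : ℕ) :
    ∑ k ∈ Ioc N (N + n), f k = ∑ k ∈ Icc 1 (N + n), f k - ∑ k ∈ Icc 1 N, f k := by
  have e : ∀ M : ℕ, Icc 1 M = Ioc 0 M := fun M => by ext k; simp only [mem_Icc, mem_Ioc]; omega
  rw [e, e, ← sum_Ioc_consecutive f (Nat.zero_le N) (Nat.le_add_right N n)]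
  ring

/-- the bound for one term of the series -/
theorem term {x C q M m d δ σ : ℝ} (hx : 0 ≤ x) (hC : 1 ≤ C) (hq : 1 ≤ q) (hm : 1 ≤ m)
    (hM : m ≤ M) (hδ : 0 < δ) (h4 : δ ≤ 1 / 4) (hd : 10 * δ ≤ d) (hσ : 1 - δ ≤ σ)
    (h1 : x ≤ 2 * C * M * q ^ (-d)) (h2 : x ≤ q) :
    x * M ^ (-σ - 1) ≤ 2 * C * q ^ (-3 * δ) * m ^ (-(1 + δ)) := by
  have hM1 : 1 ≤ M := hm.trans hM
  have hM0 : 0 < M := by linarith
  have hq0 : 0 < q := by linarith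
  have hi := interp hx h1 h2 (η := 2 * δ) (by linarith) (by linarith)
  rw [Real.mul_rpow (by positivity) (by positivity), Real.mul_rpow (by positivity) hM0.le,
    ← Real.rpow_mul hq0.le] at hi
  have a1 : (2 * C) ^ (1 - 2 * δ) ≤ 2 * C := by
    calc (2 * C) ^ (1 - 2 * δ) ≤ (2 * C) ^ (1 : ℝ) :=
          Real.rpow_le_rpow_of_exponent_le (by linarith) (by linarith)
      _ = 2 * C := Real.rpow_one _
  have a2 : q ^ (-d * (1 - 2 * δ)) * q ^ (2 * δ) ≤ q ^ (-3 * δ) := by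
    rw [← Real.rpow_add hq0]
    apply Real.rpow_le_rpow_of_exponent_le hq
    nlinarith
  have a3 : M ^ (1 - 2 * δ) * M ^ (-σ - 1) ≤ m ^ (-(1 + δ)) := by
    rw [← Real.rpow_add hM0]
    calc M ^ (1 - 2 * δ + (-σ - 1)) ≤ M ^ (-(1 + δ)) :=
          Real.rpow_le_rpow_of_exponent_le hM1 (by linarith)
      _ ≤ m ^ (-(1 + δ)) := Real.rpow_le_rpow_of_nonpos (by linarith) hM (by linarith)
  calc x * M ^ (-σ - 1)
      ≤ (2 * C) ^ (1 - 2 * δ) * M ^ (1 - 2 * δ) * q ^ (-d * (1 - 2 * δ)) * q ^ (2 * δ) *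
          M ^ (-σ - 1) := mul_le_mul_of_nonneg_right hi (by positivity)
    _ = (2 * C) ^ (1 - 2 * δ) * (q ^ (-d * (1 - 2 * δ)) * q ^ (2 * δ)) *
          (M ^ (1 - 2 * δ) * M ^ (-σ - 1)) := by ring
    _ ≤ 2 * C * q ^ (-3 * δ) * m ^ (-(1 + δ)) := by
      apply mul_le_mul (mul_le_mul a1 a2 (by positivity) (by positivity)) a3 (by positivity)
      positivity

end TailAux

open TailAux in
theorem tailOf : TailOf := by
  intro hB hS φ hφ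
  obtain ⟨d, C, hd, hC, hb⟩ := hB (φ - 1 / 4) (by linarith)
  set δ : ℝ := min (d / 10) (1 / 4) with hδdef
  have hδ : 0 < δ := lt_min (by linarith) (by norm_num)
  have h4 : δ ≤ 1 / 4 := min_le_right _ _
  have h10 : 10 * δ ≤ d := by have := min_le_left (d / 10) (1 / 4); linarith
  have hsum : Summable fun n : ℕ => ((n + 1 : ℕ) : ℝ) ^ (-(1 + δ)) :=
    (summable_nat_add_iff 1).2 (Real.summable_nat_rpow.2 (by linarith))
  set Z : ℝ := ∑' n : ℕ, ((n + 1 : ℕ) : ℝ) ^ (-(1 + δ)) with hZ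
  have hZ0 : 0 ≤ Z := tsum_nonneg fun n => by positivity
  have ht : Filter.Tendsto (fun q : ℕ => (q : ℝ) ^ δ) Filter.atTop Filter.atTop :=
    (tendsto_rpow_atTop hδ).comp tendsto_natCast_atTop_atTop
  obtain ⟨q₀, hq₀⟩ := Filter.eventually_atTop.1 (ht.eventually_ge_atTop (6 * C * Z))
  refine ⟨δ, hδ, q₀, fun q _ hq χ s N hχ hs1 hs2 hs3 hN => ?_⟩
  have hq1 : (1 : ℝ) ≤ q := by exact_mod_cast Nat.one_le_iff_ne_zero.2 (NeZero.ne q)
  have hq0 : (0 : ℝ) < q := by linarith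
  have hN1 : 1 ≤ N := by
    have : (1 : ℝ) ≤ N := (Real.one_le_rpow hq1 (by linarith)).trans hN
    exact_mod_cast this
  obtain ⟨hA, hL⟩ := hS q χ hχ
  have h1 := (hL s N (by linarith) hN1).1
  have e : 1 / 4 + (φ - 1 / 4) = φ := by ring
  have hterm : ∀ n : ℕ, ‖∑ k ∈ Ioc N (N + n), χ k‖ * ((N + n : ℕ) : ℝ) ^ (-s.re - 1) ≤
      2 * C * (q : ℝ) ^ (-3 * δ) * ((n + 1 : ℕ) : ℝ) ^ (-(1 + δ)) := by
    intro n
    have hle : (N : ℝ) ≤ ((N + n : ℕ) : ℝ) := by exact_mod_cast Nat.le_add_right N n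
    refine term (norm_nonneg _) hC hq1 (by exact_mod_cast Nat.le_add_left 1 n)
      (by exact_mod_cast (by omega : n + 1 ≤ N + n)) hδ h4 h10 hs1 ?_ (hA _ _)
    have b1 := hb q χ N hχ (by rw [e]; exact hN)
    have b2 := hb q χ (N + n) hχ (by rw [e]; exact hN.trans hle)
    have hp : (0 : ℝ) ≤ (q : ℝ) ^ (-d) := by positivity
    rw [sum_Ioc_eq (fun k : ℕ => χ k)]
    refine (norm_sub_le _ _).trans ?_
    have b3 : C * N * (q : ℝ) ^ (-d) ≤ C * ((N + n : ℕ) : ℝ) * (q : ℝ) ^ (-d) := by gcongr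
    linarith
  have hsum2 := hsum.mul_left (2 * C * (q : ℝ) ^ (-3 * δ))
  have hsum1 := Summable.of_nonneg_of_le (fun n => by positivity) hterm hsum2
  have h2 := hsum1.tsum_le_tsum hterm hsum2
  rw [tsum_mul_left, ← hZ] at h2
  have hqδ : 1 ≤ (q : ℝ) ^ δ := Real.one_le_rpow hq1 hδ.le
  have hs : ‖s‖ ≤ 3 * (q : ℝ) ^ δ := by
    have := Complex.norm_le_abs_re_add_abs_im s
    rw [abs_of_nonneg (by linarith : 0 ≤ s.re)] at this
    linarith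
  have e2 : (q : ℝ) ^ δ * (q : ℝ) ^ δ * (q : ℝ) ^ (-3 * δ) = (q : ℝ) ^ (-δ) := by
    rw [← Real.rpow_add hq0, ← Real.rpow_add hq0]; congr 1; ring
  calc _ ≤ _ := h1
    _ ≤ 3 * (q : ℝ) ^ δ * (2 * C * (q : ℝ) ^ (-3 * δ) * Z) :=
      mul_le_mul hs h2 (tsum_nonneg fun n => by positivity) (by positivity)
    _ = 6 * C * Z * ((q : ℝ) ^ δ * (q : ℝ) ^ (-3 * δ)) := by ring
    _ ≤ (q : ℝ) ^ δ * ((q : ℝ) ^ δ * (q : ℝ) ^ (-3 * δ)) :=
      mul_le_mul_of_nonneg_right (hq₀ q hq) (by positivity)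
    _ = (q : ℝ) ^ (-δ) := by rw [← e2]; ring

end Pool.Agent.MP_c5bf7b_nt.H38
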