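import Pool.Agent.MP_c5bf7b_nt.H38.SpecC

/-! The zeros outside the window. -/

set_option autoImplicit false

namespace Pool.Agent.MP_c5bf7b_nt.H38

open Finset Complex

namespace OutL

theorem cover {α ι : Type*} (s : Multiset α) (g : α → ℝ) (hg : ∀ x, 0 ≤ g x) (K : Finset ι)
    (Q : ι → α → Prop) [∀ k, DecidablePred (Q k)] (h : ∀ x ∈ s, ∃ k ∈ K, Q k x) :
    (s.map g).sum ≤ ∑ k ∈ K, ((s.filter (Q k)).map g).sum := by
  induction s using Multiset.induction_on with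
  | empty => simp
  | cons a s ih =>
    have h1 := ih fun x hx => h x (Multiset.mem_cons_of_mem hx)
    obtain ⟨k, hk, hq⟩ := h a (Multiset.mem_cons_self _ _)
    have h2 : ∀ j ∈ K, ((Multiset.filter (Q j) (a ::ₘ s)).map g).sum =
        (if Q j a then g a else 0) + ((s.filter (Q j)).map g).sum := by
      intro j _
      by_cases hj : Q j a
      · rw [Multiset.filter_cons_of_pos _ hj, if_pos hj, Multiset.map_cons, Multiset.sum_cons]
      · rw [Multiset.filter_cons_of_neg _ hj, if_neg hj, zero_add]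
    rw [Finset.sum_congr rfl h2, Finset.sum_add_distrib, Multiset.map_cons, Multiset.sum_cons]
    have h3 : (if Q k a then g a else 0) ≤ ∑ j ∈ K, if Q j a then g a else 0 :=
      Finset.single_le_sum (f := fun j => if Q j a then g a else 0)
        (fun j _ => by
          by_cases hj : Q j a
          · rw [if_pos hj]; exact hg a
          · rw [if_neg hj]) hk
    rw [if_pos hq] at h3
    linarith

theorem sum_le {α : Type*} (s : Multiset α) (g : α → ℝ) (b : ℝ) (h : ∀ x ∈ s, g x ≤ b) :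
    (s.map g).sum ≤ s.card * b := by
  have := Multiset.sum_le_card_nsmul (s.map g) b (by
    intro y hy
    obtain ⟨x, hx, rfl⟩ := Multiset.mem_map.1 hy
    exact h x hx)
  simpa [nsmul_eq_mul] using this

theorem cnt_le {L C R : ℝ} {Y : Multiset ℂ} (h : Cnt L C Y) (hL : 0 < L) (hC : 0 ≤ C)
    (hR : L ≤ R) (s : Multiset ℂ) (hs : s ≤ Y) (hb : ∀ ζ ∈ s, |ζ.im| ≤ R) :
    (s.card : ℝ) ≤ 2 * C * R := by
  have h1 := cover s (fun _ => (1 : ℝ)) (fun _ => zero_le_one) (range (⌊R / L⌋₊ + 1))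
    (fun j ζ => |ζ.im - (-R + (2 * (j : ℝ) + 1) * L)| ≤ L) (by
      intro ζ hζ
      obtain ⟨a1, a2⟩ := abs_le.1 (hb ζ hζ)
      have b0 : 0 ≤ (ζ.im + R) / (2 * L) := div_nonneg (by linarith) (by linarith)
      have b1 := Nat.floor_le b0
      have b2 := Nat.lt_floor_add_one ((ζ.im + R) / (2 * L))
      refine ⟨⌊(ζ.im + R) / (2 * L)⌋₊, ?_, ?_⟩
      · refine mem_range.2 (Nat.lt_succ_of_le (Nat.floor_mono ?_))
        rw [div_le_div_iff₀ (by linarith) hL]
        nlinarith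
      · rw [le_div_iff₀ (by linarith)] at b1
        rw [div_lt_iff₀ (by linarith)] at b2
        rw [abs_le]
        constructor <;> nlinarith)
  have h2 : ∀ j ∈ range (⌊R / L⌋₊ + 1),
      ((s.filter fun ζ => |ζ.im - (-R + (2 * (j : ℝ) + 1) * L)| ≤ L).map fun _ => (1 : ℝ)).sum ≤
        C * L := by
    intro j _
    refine le_trans ?_ (h (-R + (2 * (j : ℝ) + 1) * L))
    rw [Multiset.map_const', Multiset.sum_replicate, nsmul_eq_mul, mul_one]
    exact Nat.cast_le.2 (Multiset.card_le_card (Multiset.filter_le_filter _ hs))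
  have h3 := h1.trans (Finset.sum_le_card_nsmul _ _ _ h2)
  rw [Multiset.map_const', Multiset.sum_replicate, nsmul_eq_mul, mul_one, card_range,
    nsmul_eq_mul] at h3
  have h4 : ((⌊R / L⌋₊ + 1 : ℕ) : ℝ) * L ≤ 2 * R := by
    have := Nat.floor_le (div_nonneg (hL.le.trans hR) hL.le)
    rw [le_div_iff₀ hL] at this
    push_cast
    linarith
  nlinarith

theorem c1_ge (l : ℝ) (hl : 0 < l) :
    Real.exp (-2 * l) ≤
      Real.exp 4 * c1 f0 ((14 : ℕ) / 200) ((18 : ℕ) / 100) ((7 : ℕ) / 2) l := by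
  unfold c1 II f0
  push_cast
  have ha : (1 : ℝ) ≤ 2 * l + 7 / 2 := by linarith
  have h1 : Real.exp ((2 * l + 7 / 2) * (2501 / 10000 + 2 * (14 / 200))) <
      Real.exp ((2 * l + 7 / 2) * (2 * (2501 / 10000) + 3 * (14 / 200) + 18 / 100)) :=
    Real.exp_lt_exp.2 (by nlinarith)
  have h2 : Real.exp ((2 * l + 7 / 2) * (2 * (2501 / 10000) + 3 * (14 / 200) + 18 / 100)) ≤
      Real.exp (2 * l + 4) := Real.exp_le_exp.2 (by nlinarith)
  have h3 := Real.exp_pos ((2 * l + 7 / 2) * (2501 / 10000 + 2 * (14 / 200)))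
  have h4 : Real.exp (-2 * l) * Real.exp (2 * l + 4) = Real.exp 4 := by
    rw [← Real.exp_add]; congr 1; ring
  have h5 := Real.exp_pos (-2 * l)
  generalize Real.exp ((2 * l + 7 / 2) * (2501 / 10000 + 2 * (14 / 200))) = a at *
  generalize
    Real.exp ((2 * l + 7 / 2) * (2 * (2501 / 10000) + 3 * (14 / 200) + 18 / 100)) = b at *
  rw [one_div, inv_div, ← mul_div_assoc, le_div_iff₀ (by linarith)]
  have h6 : Real.exp (-2 * l) * (b - a) ≤ Real.exp 4 := by
    rw [← h4]; exact mul_le_mul_of_nonneg_left (by linarith) h5.le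
  have h7 := Real.exp_pos 4
  nlinarith

theorem hh_le (hA : AdmS) {e r : ℝ} {ζ : ℂ} (h0 : 0 < ζ.re) (hr : 0 < r) (hi : r ≤ |ζ.im|) :
    ‖HH e ζ‖ ≤ Real.exp (-e * ζ.re) * (4 / r ^ 2) := by
  have h1 := (hA.2.2.2.1 ζ h0).1
  have h2 : r ≤ ‖ζ‖ := hi.trans (abs_im_le_norm ζ)
  have h3 : 4 / ‖ζ‖ ^ 2 ≤ 4 / r ^ 2 := by gcongr
  have h4 : ‖exp (-(e : ℂ) * ζ)‖ = Real.exp (-e * ζ.re) := by
    rw [norm_exp]; simp
  unfold HH
  rw [norm_mul, h4]
  exact mul_le_mul_of_nonneg_left (h1.trans h3) (Real.exp_pos _).le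

/-- the constant of the density estimate -/
noncomputable def K0 : ℝ :=
  1 + Real.exp 4 * |S1 f0 ((14 : ℕ) / 200) ((18 : ℕ) / 100) ((7 : ℕ) / 2) + e0|

theorem one_le_K0 : 1 ≤ K0 := by
  unfold K0
  have := Real.exp_pos 4
  have := abs_nonneg (S1 f0 ((14 : ℕ) / 200) ((18 : ℕ) / 100) ((7 : ℕ) / 2) + e0)
  nlinarith

open Classical in
theorem level (hA : AdmS) {q : ℕ} [NeZero q] {N : Ch q → Multiset ℂ} {Lm Th C M e r l : ℝ}
    (hE : Env q N Lm Th C M) (hC : 1 ≤ C) (he : 4 ≤ e) (hr : Real.log q ≤ r)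
    (s : Ch q → Multiset ℂ) (hs : ∀ χ, s χ ≤ N χ)
    (hb : ∀ χ, ∀ ζ ∈ s χ, ζ.re ≤ Lm ∧ |ζ.im| ≤ Th ∧ r ≤ |ζ.im| ∧ |ζ.im| ≤ 10 * r ∧ l ≤ ζ.re) :
    ∑ χ, ((s χ).map fun ζ => ‖HH e ζ‖).sum ≤ 80 * C / r * Real.exp (-2 * l) * K0 := by
  have hL : 0 < Real.log q := Real.log_pos (by exact_mod_cast hE.two)
  have hr0 : 0 < r := hL.trans_le hr
  have hz : ∀ χ, ∃ z : ℂ, s χ ≠ 0 → z ∈ s χ ∧ ∀ x ∈ s χ, z.re ≤ x.re := by
    intro χ
    by_cases h : s χ = 0
    · exact ⟨0, fun h' => (h' h).elim⟩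
    · obtain ⟨y, hy⟩ := Multiset.exists_min_image (fun x : ℂ => x.re) h
      exact ⟨y, fun _ => hy⟩
  choose z hz using hz
  have hA0 : 0 ≤ 80 * C / r * Real.exp (-2 * l) := by positivity
  have k1 : ∀ χ, s χ ≠ 0 → ((s χ).map fun ζ => ‖HH e ζ‖).sum ≤
      80 * C / r * Real.exp (-2 * l) * Real.exp (-2 * (z χ).re) := by
    intro χ h
    obtain ⟨z1, z2⟩ := hz χ h
    have p0 := (hE.pos χ _ (Multiset.mem_of_le (hs χ) z1)).1
    have p1 := (hb χ _ z1).2.2.2.2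
    have a1 := sum_le (s χ) (fun ζ => ‖HH e ζ‖)
      (Real.exp (-2 * l) * Real.exp (-2 * (z χ).re) * (4 / r ^ 2)) (by
        intro x hx
        have p2 := (hE.pos χ _ (Multiset.mem_of_le (hs χ) hx)).1
        refine (hh_le hA p2 hr0 (hb χ x hx).2.2.1).trans ?_
        refine mul_le_mul_of_nonneg_right ?_ (by positivity)
        rw [← Real.exp_add]
        have := z2 x hx
        exact Real.exp_le_exp.2 (by nlinarith))
    have a2 := cnt_le (hE.cnt χ) hL (by linarith) (R := 10 * r) (by linarith) (s χ) (hs χ)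
      fun ζ hζ => (hb χ ζ hζ).2.2.2.1
    refine a1.trans ((mul_le_mul_of_nonneg_right a2 (by positivity)).trans (le_of_eq ?_))
    field_simp
    ring
  have k2 : ((s 1).map fun ζ => ‖HH e ζ‖).sum ≤ 80 * C / r * Real.exp (-2 * l) := by
    by_cases h : s 1 = 0
    · rw [h]; simpa using hA0
    · refine (k1 1 h).trans (mul_le_of_le_one_right hA0 ?_)
      have p0 := (hE.pos 1 _ (Multiset.mem_of_le (hs 1) (hz 1 h).1)).1
      exact Real.exp_le_one_iff.2 (by linarith)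
  have k3 := hE.d1 14 (by decide) 18 (by decide) 7 (by decide)
    ((univ.erase 1).filter fun χ => s χ ≠ 0) z (by
      intro χ hχ
      obtain ⟨h1, h2⟩ := mem_filter.1 hχ
      have z1 := (hz χ h2).1
      exact ⟨(mem_erase.1 h1).1, Multiset.mem_of_le (hs χ) z1, (hb χ _ z1).1, (hb χ _ z1).2.1⟩)
  have k4 : ∑ χ ∈ univ.erase 1, ((s χ).map fun ζ => ‖HH e ζ‖).sum =
      ∑ χ ∈ (univ.erase 1).filter fun χ => s χ ≠ 0, ((s χ).map fun ζ => ‖HH e ζ‖).sum := by
    refine (Finset.sum_filter_of_ne ?_).symm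
    intro χ _ h h'
    rw [h'] at h
    simp at h
  have k5 : ∑ χ ∈ (univ.erase 1).filter fun χ => s χ ≠ 0, ((s χ).map fun ζ => ‖HH e ζ‖).sum ≤
      ∑ χ ∈ (univ.erase 1).filter fun χ => s χ ≠ 0, 80 * C / r * Real.exp (-2 * l) * Real.exp 4 *
        c1 f0 ((14 : ℕ) / 200) ((18 : ℕ) / 100) ((7 : ℕ) / 2) (z χ).re := by
    refine Finset.sum_le_sum fun χ hχ => ?_
    have h2 := (mem_filter.1 hχ).2
    have p0 := (hE.pos χ _ (Multiset.mem_of_le (hs χ) (hz χ h2).1)).1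
    rw [mul_assoc _ (Real.exp 4)]
    exact (k1 χ h2).trans (mul_le_mul_of_nonneg_left (c1_ge _ p0) hA0)
  rw [← Finset.mul_sum] at k5
  have k6 := mul_le_mul_of_nonneg_left (k3.trans (le_abs_self _))
    (mul_nonneg hA0 (Real.exp_pos 4).le)
  rw [← Finset.add_sum_erase _ _ (mem_univ (1 : Ch q)), k4]
  unfold K0
  linarith

theorem geo (k : ℕ) : Real.exp (2 * c0 * (k + 1 : ℕ)) / 10 ^ k ≤ 2 * (1 / 2) ^ k := by
  have h1 : Real.exp (2 * c0) ≤ 2 := by
    have := Real.exp_bound_div_one_sub_of_interval (x := 2 * c0) (by unfold c0; norm_num)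
      (by unfold c0; norm_num)
    refine this.trans ?_
    unfold c0; norm_num
  have h2 : Real.exp (2 * c0 * (k + 1 : ℕ)) ≤ 2 ^ (k + 1) := by
    rw [mul_comm, Real.exp_nat_mul]
    exact pow_le_pow_left₀ (Real.exp_pos _).le h1 _
  rw [div_le_iff₀ (by positivity)]
  refine h2.trans ?_
  rw [mul_assoc, ← mul_pow, pow_succ, mul_comm]
  exact mul_le_mul_of_nonneg_left (pow_le_pow_left₀ (by norm_num) (by norm_num) _) (by norm_num)

end OutL

open OutL in
theorem outOf : OutOf := by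
  classical
  intro hA C hC
  have hK := one_le_K0
  refine ⟨320 * C * K0, by nlinarith, ?_⟩
  intro q _ N E Lm Th M T l₂ e hE hT hF hl he _
  have hL : 0 < Real.log q := Real.log_pos (by exact_mod_cast hE.two)
  have hT0 : 0 < T := hL.trans_le hl
  obtain ⟨K, hK'⟩ := pow_unbounded_of_one_lt (Th / T) (by norm_num : (1 : ℝ) < 10)
  suffices H : ∀ s : Ch q → Multiset ℂ, (∀ χ, s χ ≤ N χ) →
      (∀ χ, ∀ ζ ∈ s χ, ζ.re < Lm ∧ T < |ζ.im| ∧ |ζ.im| ≤ Th) →
      ∑ χ, ((s χ).map fun ζ => ‖HH e ζ‖).sum ≤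
        320 * C * K0 * Real.exp (-2 * l₂) / Real.log q from
    H _ (fun χ => @Multiset.filter_le _ _ (_) _)
      fun χ ζ hζ => ((@Multiset.mem_filter _ _ (_) _ _).1 hζ).2
  intro s hs hb
  refine (Finset.sum_le_sum fun χ _ => cover _ _ (fun _ => norm_nonneg _) (range K)
    (fun k (ζ : ℂ) => 10 ^ k * T ≤ |ζ.im| ∧ |ζ.im| ≤ 10 * (10 ^ k * T)) ?_).trans ?_
  · intro ζ hζ
    obtain ⟨-, h1, h2⟩ := hb χ ζ hζ
    obtain ⟨n, n1, n2⟩ := exists_nat_pow_near (x := |ζ.im| / T) (y := 10)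
      (by rw [le_div_iff₀ hT0]; linarith) (by norm_num)
    have n3 : (10 : ℝ) ^ n < 10 ^ K :=
      n1.trans_lt ((div_le_div_of_nonneg_right h2 hT0.le).trans_lt hK')
    rw [le_div_iff₀ hT0] at n1
    rw [div_lt_iff₀ hT0, pow_succ] at n2
    exact ⟨n, mem_range.2 ((pow_lt_pow_iff_right₀ (by norm_num)).1 n3), n1, by linarith⟩
  rw [Finset.sum_comm]
  have h1 : ∑ k ∈ range K, (1 / 2 : ℝ) ^ k ≤ 2 := sum_geometric_two_le K
  have h0 : 0 ≤ 160 * C * K0 * Real.exp (-2 * l₂) / Real.log q := by positivity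
  refine (Finset.sum_le_sum (g := fun k =>
    160 * C * K0 * Real.exp (-2 * l₂) / Real.log q * (1 / 2 : ℝ) ^ k) fun k _ => ?_).trans ?_
  · have p1 : (1 : ℝ) ≤ 10 ^ k := one_le_pow₀ (by norm_num)
    refine (level hA hE hC he (r := 10 ^ k * T) (l := l₂ - c0 * (k + 1 : ℕ)) (by nlinarith) _
      (fun χ => (Multiset.filter_le _ _).trans (hs χ)) ?_).trans ?_
    · intro χ ζ hζ
      obtain ⟨a1, a2, a3⟩ := Multiset.mem_filter.1 hζ
      obtain ⟨b2, b3, b4⟩ := hb χ ζ a1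
      have b1 := Multiset.mem_of_le (hs χ) a1
      refine ⟨b2.le, b4, a2, a3, hF χ ζ ?_ (k + 1) (by rw [pow_succ]; linarith)⟩
      have b5 : ζ ∉ E χ := fun h => absurd (hT χ ζ h) (not_le.2 b3)
      rw [← Multiset.one_le_count_iff_mem, Multiset.count_sub, Multiset.count_eq_zero.2 b5]
      exact Multiset.one_le_count_iff_mem.2 b1
    · have p2 := geo k
      have p3 : Real.exp (-2 * (l₂ - c0 * (k + 1 : ℕ))) =
          Real.exp (-2 * l₂) * Real.exp (2 * c0 * (k + 1 : ℕ)) := by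
        rw [← Real.exp_add]; congr 1; ring
      have p4 : 1 / T ≤ 1 / Real.log q := one_div_le_one_div_of_le hL hl
      have p5 := mul_le_mul p4 p2 (by positivity) (by positivity)
      have p6 := mul_le_mul_of_nonneg_left p5
        (by positivity : 0 ≤ 80 * C * K0 * Real.exp (-2 * l₂))
      rw [p3]
      refine le_trans (le_of_eq ?_) (p6.trans (le_of_eq ?_))
      · field_simp
      · ring
  · rw [← Finset.mul_sum]
    refine (mul_le_mul_of_nonneg_left h1 h0).trans (le_of_eq ?_)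
    ring

end Pool.Agent.MP_c5bf7b_nt.H38
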