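import Pool.Agent.MP_c5bf7b_nt.H38.SpecB

/-! The main case of the Burgess bound. -/

set_option autoImplicit false

namespace Pool.Agent.MP_c5bf7b_nt.H38

open Finset

namespace BM1

theorem omega (a θ : ℝ) (ha : 0 ≤ a) (hθ : 0 < θ) :
    ∃ K : ℝ, 1 ≤ K ∧ ∀ n : ℕ, n ≠ 0 → a ^ n.primeFactors.card ≤ K * (n : ℝ) ^ θ := by
  have hM : (1 : ℝ) ≤ max a 1 := le_max_right _ _
  refine ⟨max a 1 ^ ⌈a ^ θ⁻¹⌉₊, one_le_pow₀ hM, fun n hn => ?_⟩
  have h1 : a ^ n.primeFactors.card ≤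
      ∏ p ∈ n.primeFactors, ((if p < ⌈a ^ θ⁻¹⌉₊ then max a 1 else 1) * (p : ℝ) ^ θ) := by
    rw [← Finset.prod_const]
    refine Finset.prod_le_prod (fun _ _ => ha) fun p hp => ?_
    have hp1 : (1 : ℝ) ≤ p := by exact_mod_cast (Nat.prime_of_mem_primeFactors hp).one_le
    split_ifs with h
    · exact (le_max_left a 1).trans
        (le_mul_of_one_le_right (by positivity) (Real.one_le_rpow hp1 hθ.le))
    · rw [one_mul]
      have h2 : a ^ θ⁻¹ ≤ p := (Nat.le_ceil _).trans (by exact_mod_cast not_lt.1 h)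
      calc a = (a ^ θ⁻¹) ^ θ := (Real.rpow_inv_rpow ha hθ.ne').symm
        _ ≤ (p : ℝ) ^ θ := Real.rpow_le_rpow (by positivity) h2 hθ.le
  refine h1.trans ?_
  rw [Finset.prod_mul_distrib]
  refine mul_le_mul ?_ ?_ (Finset.prod_nonneg fun _ _ => by positivity) (by positivity)
  · rw [Finset.prod_ite, Finset.prod_const_one, mul_one, Finset.prod_const]
    refine pow_le_pow_right₀ hM ?_
    calc _ ≤ (Finset.range ⌈a ^ θ⁻¹⌉₊).card :=
          Finset.card_le_card fun p hp => Finset.mem_range.2 (Finset.mem_filter.1 hp).2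
      _ = _ := Finset.card_range _
  · rw [Real.finsetProd_rpow _ _ (fun _ _ => by positivity), ← Nat.cast_prod]
    refine Real.rpow_le_rpow (by positivity) ?_ hθ.le
    exact_mod_cast Nat.le_of_dvd (Nat.pos_of_ne_zero hn) (Nat.prod_primeFactors_dvd n)

theorem norm_le {m : ℕ} {χ : ℤ → ℂ} (h : PC m χ) (a : ℤ) : ‖χ a‖ ≤ 1 := by
  by_cases ha : IsCoprime a (m : ℤ)
  · exact (h.norm a ha).le
  · rw [h.zero a ha]; simp

theorem triv {m : ℕ} {χ : ℤ → ℂ} (h : PC m χ) (N : ℕ) : ‖Sm χ N‖ ≤ N := by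
  unfold Sm
  refine (norm_sum_le _ _).trans ?_
  refine (Finset.sum_le_card_nsmul _ _ 1 fun n _ => norm_le h _).trans ?_
  simp

theorem exK (m s : ℕ) (hm : 0 < m) : ∃ K : ℕ, 1 ≤ K ∧ m ∣ K ^ (s + 1) ∧
    (∀ n, m.Coprime n → K.Coprime n) ∧ K ^ (s + 1) ≤ rad m ^ (s + 1) * m := by
  have hmp : ∏ p ∈ m.primeFactors, p ^ m.factorization p = m :=
    Nat.prod_factorization_pow_eq_self hm.ne'
  refine ⟨∏ p ∈ m.primeFactors, p ^ (m.factorization p / (s + 1) + 1), ?_, ?_, ?_, ?_⟩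
  · exact Finset.prod_pos fun p hp => pow_pos (Nat.prime_of_mem_primeFactors hp).pos _
  · rw [← Finset.prod_pow]
    conv_lhs => rw [← hmp]
    refine Finset.prod_dvd_prod_of_dvd _ _ fun p _ => ?_
    rw [← pow_mul]
    refine pow_dvd_pow _ ?_
    have := Nat.lt_div_mul_add (a := m.factorization p) (b := s + 1) (by omega)
    nlinarith
  · intro n hn
    refine Nat.Coprime.prod_left fun p hp => Nat.Coprime.pow_left _ ?_
    exact Nat.Coprime.coprime_dvd_left (Nat.dvd_of_mem_primeFactors hp) hn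
  · conv_rhs => rw [← hmp]
    rw [← Finset.prod_pow]
    have : rad (∏ p ∈ m.primeFactors, p ^ m.factorization p) = rad m := by rw [hmp]
    rw [this, rad, ← Finset.prod_pow, ← Finset.prod_mul_distrib]
    refine Finset.prod_le_prod (fun _ _ => Nat.zero_le _) fun p hp => ?_
    rw [← pow_mul, ← pow_add]
    refine Nat.pow_le_pow_right (Nat.prime_of_mem_primeFactors hp).pos ?_
    have := Nat.div_mul_le_self (m.factorization p) (s + 1)
    nlinarith

theorem one_le_Vv (m : ℕ) : 1 ≤ Vv m := by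
  unfold Vv
  refine Finset.one_le_prod fun p hp => ?_
  have hp1 : (1 : ℝ) ≤ p := by exact_mod_cast (Nat.prime_of_mem_primeFactors hp).one_le
  split_ifs
  · exact Real.one_le_sqrt.2 hp1
  · exact one_le_pow₀ hp1

theorem pi_low (A : ℕ) (hA : 4 ≤ A) : (A : ℝ) ≤ 4 * Real.log A * Nat.primeCounting A := by
  have h := Chebyshev.pi_ge A
  have hA' : (4 : ℝ) ≤ A := by exact_mod_cast hA
  have hl : 0 < Real.log A := Real.log_pos (by linarith)
  rw [div_le_iff₀ hl] at h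
  have h2 : Real.log ((A + 1) / 4) ≤ (A + 1) / 4 - 1 := Real.log_le_sub_one_of_pos (by positivity)
  have h4 : Real.log 4 = 2 * Real.log 2 := by
    rw [show (4 : ℝ) = 2 ^ 2 by norm_num, Real.log_pow]; norm_num
  rw [Real.log_div (by positivity) (by norm_num), h4] at h2
  have h5 := Real.log_two_gt_d9
  have h6 := Real.log_two_lt_d9
  nlinarith

theorem primes (A n : ℕ) (hn : n ≠ 0) : ∃ P : Finset ℕ,
    (∀ a ∈ P, a.Prime ∧ a ≤ A ∧ a.Coprime n) ∧
    Nat.primeCounting A ≤ P.card + n.primeFactors.card := by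
  refine ⟨Nat.primesLE A \ n.primeFactors, fun a ha => ?_, ?_⟩
  · rw [Finset.mem_sdiff, Nat.mem_primesLE] at ha
    refine ⟨ha.1.2, ha.1.1, (Nat.Prime.coprime_iff_not_dvd ha.1.2).2 fun hd => ha.2 ?_⟩
    exact Nat.mem_primeFactors.2 ⟨ha.1.2, hd, hn⟩
  · rw [← Nat.primesLE_card_eq_primeCounting]
    exact Finset.card_le_card_sdiff_add_card

/-- the energy bound in a short form -/
theorem ener {N A Pc L mM E : ℝ} (hA : 1 ≤ A) (hAN : A ≤ N) (hP : 0 ≤ Pc) (hL : 0 ≤ L)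
    (hm : 0 < mM) (hE : E ≤ Pc * N * (N / mM + 1) + Pc * (2 * N * A / mM + 1) * (N * (1 + L) + A)) :
    E ≤ Pc * N * (5 + 2 * L) * (A * N / mM + 1) := by
  have hN : 0 < N := by linarith
  have h1 : N / mM + 1 ≤ A * N / mM + 1 := by
    gcongr
    nlinarith
  have h0 : 0 ≤ A * N / mM := by positivity
  have h2 : 2 * N * A / mM + 1 ≤ 2 * (A * N / mM + 1) := by
    have : 2 * N * A / mM = 2 * (A * N / mM) := by ring
    linarith
  have h3 : N * (1 + L) + A ≤ N * (2 + L) := by linarith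
  calc E ≤ Pc * N * (A * N / mM + 1) + Pc * (2 * (A * N / mM + 1)) * (N * (2 + L)) := by
        refine hE.trans ?_
        gcongr
    _ = _ := by ring

/-- the size of the main factor -/
theorem fac {y V mM A N K R B : ℝ} {a T : ℕ} (hy : 1 ≤ y) (hT : 1 ≤ T) (hV : 0 ≤ V)
    (hA : 0 ≤ A) (hm : 0 < mM) (hB0 : 0 ≤ B) (hR : 0 ≤ R)
    (h1 : y ^ T * V ≤ mM) (h2 : N ≤ 2 * K * B ^ 2 * A) (h3 : K ≤ R * y ^ T)
    (h4 : R * V ≤ y ^ (2 * a)) (h5 : y ^ (a + 8 * T) ≤ N) (hB : B ≤ 2 * y) :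
    y ^ T * (V * (A * N / mM + 1)) ≤ 9 * (A * N) := by
  have hN : 0 < N := lt_of_lt_of_le (by positivity) h5
  have e1 : y ^ T * V * (A * N / mM) ≤ A * N := by
    calc y ^ T * V * (A * N / mM) ≤ mM * (A * N / mM) := by gcongr
      _ = A * N := by field_simp
  have e2 : y ^ T * V * N ≤ 8 * (A * N) * N := by
    calc y ^ T * V * N ≤ y ^ T * V * (2 * (R * y ^ T) * (2 * y) ^ 2 * A) := by
          refine mul_le_mul_of_nonneg_left (h2.trans ?_) (by positivity)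
          gcongr
      _ = 8 * A * (R * V * y ^ (2 * T + 2)) := by ring
      _ ≤ 8 * A * (y ^ (2 * a) * y ^ (16 * T)) := by
          gcongr
          omega
      _ = 8 * A * (y ^ (a + 8 * T) * y ^ (a + 8 * T)) := by ring
      _ ≤ 8 * A * (N * N) := by gcongr
      _ = _ := by ring
  have e3 : y ^ T * V ≤ 8 * (A * N) := le_of_mul_le_mul_right e2 hN
  calc _ = y ^ T * V * (A * N / mM) + y ^ T * V := by ring
    _ ≤ _ := by linarith

/-- the quantity under the root -/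
theorem inner {y V W A N Pc L B E Mo Cs M D F : ℝ} {S : ℕ} (hy : 1 ≤ y) (hV : 0 ≤ V)
    (hW : 0 ≤ W) (hN : 0 < N) (hP : 0 < Pc) (hB0 : 0 ≤ B) (hMo0 : 0 ≤ Mo) (hE0 : 0 ≤ E)
    (hC : 0 ≤ Cs) (hM : 1 ≤ M) (hD : 0 ≤ D) (hF : 0 < F) (hB : B ≤ 2 * y) (hLy : L ≤ 2 * M * y)
    (hE : E ≤ Pc * N * (5 + 2 * L) * W) (hMo : Mo ≤ D * y * V * B * F) (hA : A ≤ 8 * L * Pc)
    (hw : y ^ (S + 5) * (V * W) ≤ 9 * (A * N)) :
    Cs * B ^ S * E * Mo / ((Pc * N) ^ 2 * F) ≤ Cs * 2 ^ S * 2592 * M ^ 2 * D / y := by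
  have hy0 : 0 < y := by linarith
  have hMy : 1 ≤ M * y := by nlinarith
  have h1 : 5 + 2 * L ≤ 9 * M * y := by nlinarith
  have h2 : y ^ (S + 5) * (V * W) ≤ 9 * (8 * (2 * M * y) * Pc * N) := by
    refine hw.trans ?_
    gcongr
    exact hA.trans (by gcongr)
  have hE' : E ≤ Pc * N * (9 * M * y) * W := hE.trans (by gcongr)
  have hMo' : Mo ≤ D * y * V * (2 * y) * F := hMo.trans (by gcongr)
  rw [div_le_div_iff₀ (by positivity) hy0]
  refine le_of_mul_le_mul_right ?_ hy0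
  calc Cs * B ^ S * E * Mo * y * y
      ≤ Cs * (2 * y) ^ S * (Pc * N * (9 * M * y) * W) * (D * y * V * (2 * y) * F) * y * y := by
        gcongr
    _ = Cs * 2 ^ S * 18 * M * D * (Pc * N * F) * (y ^ (S + 5) * (V * W)) := by ring
    _ ≤ Cs * 2 ^ S * 18 * M * D * (Pc * N * F) * (9 * (8 * (2 * M * y) * Pc * N)) := by gcongr
    _ = _ := by ring

/-- the moment bound in a short form -/
theorem momb {y V B mM Kw Mo : ℝ} {M w : ℕ} (hy : 0 ≤ y) (hV : 1 ≤ V) (hB : 1 ≤ B) (hK : 0 ≤ Kw)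
    (hM : 1 ≤ M) (hm : mM ≤ B ^ M) (hG : ((2 * M + 1 : ℝ) ^ (2 * M)) ^ w ≤ Kw * y)
    (h : Mo ≤ (2 * M : ℝ) ^ w * V * B * B ^ (2 * M) +
      mM * ((2 * (2 * M + 1 : ℝ) ^ w) ^ (2 * M) * B ^ M)) :
    Mo ≤ Kw * (1 + 2 ^ (2 * M)) * y * V * B * B ^ (2 * M) := by
  have hM0 : (0 : ℝ) ≤ M := by positivity
  have h1 : (2 * M : ℝ) ^ w ≤ Kw * y := by
    refine le_trans (pow_le_pow_left₀ (by positivity) ?_ w) hG
    exact le_trans (by linarith) (le_self_pow₀ (by linarith) (by omega))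
  have h2 : (2 * (2 * M + 1 : ℝ) ^ w) ^ (2 * M) ≤ 2 ^ (2 * M) * (Kw * y) := by
    rw [mul_pow, ← pow_mul, mul_comm w, pow_mul (2 * M + 1 : ℝ)]
    gcongr
  have h3 : 1 ≤ V * B := one_le_mul_of_one_le_of_one_le hV hB
  calc Mo ≤ Kw * y * V * B * B ^ (2 * M) + B ^ M * (2 ^ (2 * M) * (Kw * y) * B ^ M) := by
        refine h.trans ?_
        gcongr
    _ = Kw * y * V * B * B ^ (2 * M) + 2 ^ (2 * M) * (Kw * y) * 1 * B ^ (2 * M) := by ring
    _ ≤ Kw * y * V * B * B ^ (2 * M) + 2 ^ (2 * M) * (Kw * y) * (V * B) * B ^ (2 * M) := by gcongr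
    _ = _ := by ring

/-- the length of the range of primes -/
theorem lenA {y K B N A : ℝ} {a T : ℕ} (hy : 2 ≤ y) (hT : 2 ≤ T) (hB0 : 0 ≤ B) (hA : 0 ≤ A)
    (hK : K ≤ y ^ a * y ^ T) (hB : B ≤ 2 * y) (hN : y ^ (a + 8 * T) ≤ N)
    (h : N ≤ K * B ^ 2 * (A + 1)) : y ^ 4 ≤ A := by
  have hy1 : 1 ≤ y := by linarith
  have h1 : y ^ (a + T + 2) * y ^ 7 ≤ y ^ (a + T + 2) * (4 * (A + 1)) := by
    calc y ^ (a + T + 2) * y ^ 7 = y ^ (a + T + 9) := by ring
      _ ≤ y ^ (a + 8 * T) := pow_le_pow_right₀ hy1 (by omega)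
      _ ≤ y ^ a * y ^ T * (2 * y) ^ 2 * (A + 1) := by
          refine hN.trans (h.trans ?_)
          gcongr
      _ = _ := by ring
  have h2 : y ^ 7 ≤ 4 * (A + 1) := le_of_mul_le_mul_left h1 (by positivity)
  have h3 : (2 : ℝ) ^ 3 ≤ y ^ 3 := by gcongr
  have h4 : 1 ≤ y ^ 4 := one_le_pow₀ hy1
  have h5 : y ^ 4 * 2 ^ 3 ≤ y ^ 4 * y ^ 3 := by gcongr
  have h6 : y ^ 4 * y ^ 3 = y ^ 7 := by ring
  linarith

end BM1

open BM1 in
theorem bm1Of : BM1Of := by
  intro hF2 hMom hEn hCore ε hε _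
  obtain ⟨e, he⟩ := exists_nat_ge (1 / ε)
  obtain ⟨Cs, hCs, hcore⟩ := hCore (8 * e + 7) (by omega)
  obtain ⟨S, hS⟩ : ∃ S, S = (8 * e + 7 + 1) ^ 2 := ⟨_, rfl⟩
  rw [← hS] at hcore
  obtain ⟨T, hT⟩ : ∃ T, T = S + 5 := ⟨_, rfl⟩
  obtain ⟨a, ha⟩ : ∃ a, a = 2 * (e + 1) * T := ⟨_, rfl⟩
  obtain ⟨M, hM⟩ : ∃ M, M = 4 * a := ⟨_, rfl⟩
  have hT2 : 2 ≤ T := by omega
  have ha1 : 1 ≤ a := by rw [ha]; nlinarith
  have hM1 : 1 ≤ M := by omega
  have hMr : (1 : ℝ) ≤ M := by exact_mod_cast hM1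
  have hMe : (M : ℝ) = 8 * (e + 1) * T := by rw [hM, ha]; push_cast; ring
  have hTr : (0 : ℝ) < T := by exact_mod_cast (by omega : 0 < T)
  have he1 : 1 / ((e : ℝ) + 1) ≤ ε := by
    rw [div_le_iff₀ (by positivity)]
    rw [div_le_iff₀ hε] at he
    nlinarith
  obtain ⟨Kw, hKw, hω⟩ := omega ((2 * M + 1 : ℝ) ^ (2 * M)) (1 / M) (by positivity) (by positivity)
  obtain ⟨C₁, hC₁⟩ : ∃ C₁ : ℝ, C₁ = Cs * 2 ^ S * 2592 * M ^ 2 * (Kw * (1 + 2 ^ (2 * M))) := ⟨_, rfl⟩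
  have hC1 : 1 ≤ C₁ := by
    rw [hC₁]
    have h1 : (1 : ℝ) ≤ 2 ^ S := one_le_pow₀ (by norm_num)
    have h2 : (1 : ℝ) ≤ M ^ 2 := one_le_pow₀ hMr
    have h3 : (1 : ℝ) ≤ 1 + 2 ^ (2 * M) := le_add_of_nonneg_right (by positivity)
    calc (1 : ℝ) = 1 * 1 * 1 * 1 * (1 * 1) := by ring
      _ ≤ _ := by gcongr; norm_num
  have hKM : 0 ≤ 16 * Kw * M := by positivity
  refine ⟨1 / M * (1 / (2 * M)), 3 + C₁ + (2 + 16 * Kw * M), by positivity, by linarith, ?_⟩
  rintro m N χ hm hχ ⟨mB, mM, hmm, hcop, h1, h2, h3⟩ hN1 hN2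
  have hx : (1 : ℝ) ≤ m := by exact_mod_cast hm.le
  obtain ⟨y, hy⟩ : ∃ y : ℝ, y = (m : ℝ) ^ (1 / M : ℝ) := ⟨_, rfl⟩
  have hy1 : 1 ≤ y := hy ▸ Real.one_le_rpow hx (by positivity)
  have hyk : ∀ k : ℕ, y ^ k = (m : ℝ) ^ (k / M : ℝ) := fun k => by
    rw [hy, ← Real.rpow_natCast, ← Real.rpow_mul (by positivity)]
    congr 1
    ring
  have hyM : y ^ M = m := by rw [hyk, div_self (by positivity), Real.rpow_one]
  obtain ⟨z, hz⟩ : ∃ z : ℝ, z = y ^ (1 / (2 * M) : ℝ) := ⟨_, rfl⟩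
  have hex : (1 / (2 * M) : ℝ) ≤ 1 := by
    rw [div_le_one (by positivity)]
    linarith
  have hz1 : 1 ≤ z := hz ▸ Real.one_le_rpow hy1 (by positivity)
  have hzy : z ≤ y := hz ▸ Real.rpow_le_self_of_one_le hy1 hex
  rw [Real.rpow_neg (by positivity), Real.rpow_mul (by positivity), ← hy, ← hz, ← div_eq_mul_inv,
    le_div_iff₀ (by positivity)]
  have hN0 : (0 : ℝ) ≤ N := by positivity
  rcases lt_or_ge y (2 + 16 * Kw * M) with hsm | hbig
  · calc ‖Sm χ N‖ * z ≤ N * (3 + C₁ + (2 + 16 * Kw * M)) :=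
          mul_le_mul (triv hχ N) (by linarith) (by positivity) hN0
      _ = _ := by ring
  have hy2 : 2 ≤ y := by linarith
  subst hmm
  obtain ⟨χB, χM, hB, hMc, hχe⟩ := hF2 mB mM χ hcop hχ
  obtain rfl : χ = fun n => χB n * χM n := funext hχe
  have hmM : (1 : ℝ) ≤ mM := by exact_mod_cast hMc.pos
  have hmB : (1 : ℝ) ≤ mB := by exact_mod_cast hB.pos
  have hmMx : (mM : ℝ) ≤ (mB * mM : ℕ) := by push_cast; nlinarith
  have hmBx : (mB : ℝ) ≤ (mB * mM : ℕ) := by push_cast; nlinarith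
  have hV := one_le_Vv mM
  have g1 : y ^ T * Vv mM ≤ mM := by
    refine le_trans ?_ h3
    rw [hyk]
    refine mul_le_mul_of_nonneg_right (Real.rpow_le_rpow_of_exponent_le hx ?_) (by positivity)
    rw [hMe]
    calc (T : ℝ) / (8 * (e + 1) * T) = 1 / (e + 1) / 8 := by field_simp
      _ ≤ _ := by gcongr
  have g5 : y ^ (a + 8 * T) ≤ N := by
    refine le_trans ?_ hN1
    rw [hyk]
    gcongr
    rw [hMe, ha]
    push_cast
    calc ((2 * (e + 1) * T + 8 * T) / (8 * (e + 1) * T) : ℝ) = 1 / 4 + 1 / (e + 1) := by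
          field_simp
          ring
      _ ≤ _ := by gcongr
  have gR : (rad mB : ℝ) ≤ y ^ a := by
    refine le_of_pow_le_pow_left₀ (n := 4) (by norm_num) (by positivity) ?_
    rw [← pow_mul, mul_comm a, ← hM, hyM]
    exact_mod_cast h2
  have g4 : rad mB * Vv mM ≤ y ^ (2 * a) := by
    refine le_of_pow_le_pow_left₀ (n := 2) (by norm_num) (by positivity) ?_
    rw [← pow_mul, show 2 * a * 2 = M by omega, hyM]
    exact h1
  obtain ⟨K, hK1, hKd, hKc, hKs⟩ := exK mB (8 * e + 7) hB.pos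
  have g3 : (K : ℝ) ≤ rad mB * y ^ T := by
    refine le_of_pow_le_pow_left₀ (n := 8 * e + 7 + 1) (by omega) (by positivity) ?_
    rw [mul_pow, ← pow_mul y, show T * (8 * e + 7 + 1) = M by rw [hM, ha]; ring, hyM]
    refine le_trans (b := (rad mB : ℝ) ^ (8 * e + 7 + 1) * mB) (by exact_mod_cast hKs) ?_
    gcongr
  obtain ⟨B, hBd⟩ : ∃ B : ℕ, B = ⌈y⌉₊ := ⟨_, rfl⟩
  have hyB : y ≤ B := hBd ▸ Nat.le_ceil y
  have hBy : (B : ℝ) ≤ 2 * y := by
    have := Nat.ceil_lt_add_one (a := y) (by positivity)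
    rw [← hBd] at this
    linarith
  have hBr : (1 : ℝ) ≤ B := by linarith
  have hB1 : 1 ≤ B := by exact_mod_cast hBr
  obtain ⟨A, hAd⟩ : ∃ A : ℕ, A = N / (K * B ^ 2) := ⟨_, rfl⟩
  have hA1 : (K * B ^ 2 * A : ℝ) ≤ N := by
    have := Nat.mul_div_le N (K * B ^ 2)
    rw [← hAd] at this
    exact_mod_cast this
  have hA2 : (N : ℝ) ≤ K * B ^ 2 * (A + 1) := by
    have := (Nat.lt_mul_div_succ N (b := K * B ^ 2) (by positivity)).le
    rw [← hAd] at this
    exact_mod_cast this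
  have hAN : (A : ℝ) ≤ N := by exact_mod_cast hAd ▸ Nat.div_le_self _ _
  have hA4 : y ^ 4 ≤ A := lenA hy2 hT2 (by positivity) (by positivity)
    (g3.trans (by gcongr)) hBy g5 hA2
  have hy4 : (2 : ℝ) ^ 4 ≤ y ^ 4 := by gcongr
  have hAr : (4 : ℝ) ≤ A := by linarith
  have hNr : (1 : ℝ) ≤ N := by linarith
  have g2 : (N : ℝ) ≤ 2 * K * B ^ 2 * A := by
    refine hA2.trans ?_
    calc (K * B ^ 2 * (A + 1) : ℝ) ≤ K * B ^ 2 * (2 * A) := by gcongr; linarith
      _ = _ := by ring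
  have hL0 : 0 ≤ Real.log A := Real.log_nonneg (by linarith)
  have hL : Real.log A ≤ 2 * M * y := by
    have : (A : ℝ) ≤ y ^ (2 * M) := by
      rw [mul_comm, pow_mul, hyM]
      exact hAN.trans (by exact_mod_cast hN2)
    refine (Real.log_le_log (by linarith) this).trans ?_
    rw [Real.log_pow]
    push_cast
    gcongr
    exact Real.log_le_self (by positivity)
  have hG : ((2 * M + 1 : ℝ) ^ (2 * M)) ^ mM.primeFactors.card ≤ Kw * y := by
    refine (hω mM hMc.pos.ne').trans ?_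
    rw [hy]
    gcongr
  have hw : (mM.primeFactors.card : ℝ) ≤ Kw * y := by
    refine le_trans ?_ hG
    refine le_trans (b := 2 ^ mM.primeFactors.card) ?_ (pow_le_pow_left₀ (by norm_num) ?_ _)
    · exact_mod_cast Nat.lt_two_pow_self.le
    · exact le_trans (by linarith) (le_self_pow₀ (by linarith) (by omega))
  obtain ⟨P, hP, hPc⟩ := primes A mM hMc.pos.ne'
  have hAP : (A : ℝ) ≤ 8 * Real.log A * P.card := by
    have k1 := pi_low A (by exact_mod_cast hAr)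
    have k2 : (Nat.primeCounting A : ℝ) ≤ P.card + mM.primeFactors.card := by exact_mod_cast hPc
    have k3 : 8 * Real.log A * mM.primeFactors.card ≤ A := by
      calc 8 * Real.log A * mM.primeFactors.card ≤ 8 * (2 * M * y) * (Kw * y) := by gcongr
        _ = 16 * Kw * M * 1 * y ^ 2 := by ring
        _ ≤ y * y * y ^ 2 := by gcongr; linarith
        _ = y ^ 4 := by ring
        _ ≤ A := hA4
    have k4 : 4 * Real.log A * Nat.primeCounting A ≤
      4 * Real.log A * (P.card + mM.primeFactors.card) := by gcongr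
    linarith
  have hPne : P.Nonempty := by
    rw [Finset.nonempty_iff_ne_empty]
    rintro rfl
    simp only [Finset.card_empty, Nat.cast_zero, mul_zero] at hAP
    linarith
  have hPr : (0 : ℝ) < P.card := by exact_mod_cast hPne.card_pos
  have hE := ener (by linarith) hAN hPr.le hL0 (by linarith)
    (hEn.1 mM N A P hMc.pos (by exact_mod_cast (by linarith : (1 : ℝ) ≤ A)) hP)
  have hMo := momb (by positivity) hV hBr (by positivity) hM1
    (hmMx.trans (hyM ▸ pow_le_pow_left₀ (by positivity) hyB M)) hG (hMom mM B M χM hMc hB1 hM1)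
  have hfac := fac hy1 (by omega) (by positivity) (by positivity) (by linarith) (by positivity)
    (by positivity) g1 g2 g3 g4 g5 hBy
  have hmo0 : 0 ≤ mom χM B M (range mM) :=
    Finset.sum_nonneg fun _ _ => Finset.sum_nonneg fun _ _ => norm_nonneg _
  rw [hT] at hfac
  have hQ := inner (Cs := Cs) hy1 (by positivity) (by positivity) (by linarith) hPr
    (by positivity) hmo0 (by positivity) (by positivity) hMr (by positivity) (by positivity) hBy hL
    hE hMo hAP hfac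
  rw [← hC₁] at hQ
  have hc := hcore mB mM K N A B M χB χM P (range mM) hB hMc hKd (hKc mM hcop)
    (by exact_mod_cast hNr) hB1 hM1 hPne (fun p hp => (hP p hp).2) subset_rfl
  have hbad : Bad mM K N P (range mM) = 0 := by simp [Bad]
  rw [hbad, Nat.cast_zero, zero_div, add_zero] at hc
  have hroot := Real.rpow_le_rpow (z := 1 / (2 * M)) (by positivity) hQ (by positivity)
  rw [Real.div_rpow (x := C₁) (by positivity) (by positivity), ← hz] at hroot
  have hroot' := hroot.trans (div_le_div_of_nonneg_right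
    (Real.rpow_le_self_of_one_le hC1 hex) (by positivity))
  have t1 : (2 * K * A * B : ℝ) * z ≤ 2 * N := by
    calc (2 * K * A * B : ℝ) * z ≤ 2 * K * A * B * B := by gcongr; linarith
      _ = 2 * (K * B ^ 2 * A) := by ring
      _ ≤ _ := by gcongr
  have t2 : (N / B : ℝ) * z ≤ N := by
    calc (N / B : ℝ) * z ≤ N / B * B := by gcongr; linarith
      _ = N := by field_simp
  have t3 : N * (C₁ / z) * z = C₁ * N := by field_simp
  have t4 : 0 ≤ (2 + 16 * Kw * M) * N := by positivity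
  calc _ ≤ (2 * K * A * B + N / B + N * (C₁ / z)) * z := by
        gcongr
        refine hc.trans ?_
        gcongr
    _ = (2 * K * A * B : ℝ) * z + (N / B : ℝ) * z + N * (C₁ / z) * z := by ring
    _ ≤ _ := by rw [t3]; linarith

end Pool.Agent.MP_c5bf7b_nt.H38
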