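import Pool.Agent.MP_c5bf7b_nt.H38.SpecB

/-! The Burgess bound when the modulus is divisible by the cube of a large prime. -/

set_option autoImplicit false

namespace Pool.Agent.MP_c5bf7b_nt.H38

open Finset

namespace BM2A

theorem omega (a θ : ℝ) (ha : 0 ≤ a) (hθ : 0 < θ) : ∃ K : ℝ, 0 < K ∧ ∀ n : ℕ, n ≠ 0 →
    a ^ n.primeFactors.card ≤ K * (n : ℝ) ^ θ := by
  have hM : (1 : ℝ) ≤ max a 1 := le_max_right _ _
  refine ⟨max a 1 ^ ⌈a ^ θ⁻¹⌉₊, by positivity, fun n hn => ?_⟩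
  have h1 : a ^ n.primeFactors.card ≤
      ∏ p ∈ n.primeFactors, ((if p < ⌈a ^ θ⁻¹⌉₊ then max a 1 else 1) * (p : ℝ) ^ θ) := by
    rw [← Finset.prod_const]
    refine Finset.prod_le_prod (fun _ _ => ha) fun p hp => ?_
    have hp1 : (1 : ℝ) ≤ p := by exact_mod_cast (Nat.prime_of_mem_primeFactors hp).one_le
    split_ifs with h
    · exact (le_max_left a 1).trans
        (le_mul_of_one_le_right (by positivity) (Real.one_le_rpow hp1 hθ.le))
    · rw [one_mul]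
      have h2 : a ^ θ⁻¹ ≤ p := (Nat.le_ceil _).trans (by exact_mod_cast not_lt.1 h)
      calc a = (a ^ θ⁻¹) ^ θ := (Real.rpow_inv_rpow ha hθ.ne').symm
        _ ≤ (p : ℝ) ^ θ := Real.rpow_le_rpow (by positivity) h2 hθ.le
  refine h1.trans ?_
  rw [Finset.prod_mul_distrib]
  refine mul_le_mul ?_ ?_ (Finset.prod_nonneg fun _ _ => by positivity) (by positivity)
  · rw [Finset.prod_ite, Finset.prod_const_one, mul_one, Finset.prod_const]
    refine pow_le_pow_right₀ hM ?_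
    calc _ ≤ (Finset.range ⌈a ^ θ⁻¹⌉₊).card :=
          Finset.card_le_card fun p hp => Finset.mem_range.2 (Finset.mem_filter.1 hp).2
      _ = _ := Finset.card_range _
  · rw [Real.finsetProd_rpow _ _ (fun _ _ => by positivity), ← Nat.cast_prod]
    refine Real.rpow_le_rpow (by positivity) ?_ hθ.le
    exact_mod_cast Nat.le_of_dvd (Nat.pos_of_ne_zero hn) (Nat.prod_primeFactors_dvd n)

theorem exK (m : ℕ) (hm : 0 < m) (hr : rad m ^ 3 ≤ m) :
    ∃ K : ℕ, 1 ≤ K ∧ m ∣ K ^ (5 + 1) ∧ K ^ 2 ≤ m ∧ ∀ n, m.Coprime n → K.Coprime n := by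
  have hf : ∏ q ∈ m.primeFactors, q ^ m.factorization q = m :=
    Nat.factorization_prod_pow_eq_self hm.ne'
  have hpos : ∀ q ∈ m.primeFactors, 0 < q := fun q hq => (Nat.prime_of_mem_primeFactors hq).pos
  refine ⟨∏ q ∈ m.primeFactors, q ^ (m.factorization q / 6 + 1), ?_, ?_, ?_, ?_⟩
  · exact Finset.prod_pos fun q hq => pow_pos (hpos q hq) _
  · rw [← Finset.prod_pow]
    nth_rewrite 1 [← hf]
    refine Finset.prod_dvd_prod_of_dvd _ _ fun q _ => ?_
    rw [← pow_mul]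
    exact pow_dvd_pow _ (by omega)
  · have h6 : ((∏ q ∈ m.primeFactors, q ^ (m.factorization q / 6 + 1)) ^ 2) ^ 3 ≤ m ^ 3 := by
      calc _ = ∏ q ∈ m.primeFactors, q ^ ((m.factorization q / 6 + 1) * 6) := by
            rw [← pow_mul, ← Finset.prod_pow]
            exact Finset.prod_congr rfl fun q _ => by rw [← pow_mul]
        _ ≤ ∏ q ∈ m.primeFactors, (q ^ m.factorization q * q ^ 6) := by
            refine Finset.prod_le_prod' fun q hq => ?_
            rw [← pow_add]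
            exact Nat.pow_le_pow_right (hpos q hq) (by omega)
        _ = m * (rad m ^ 3) ^ 2 := by
            rw [Finset.prod_mul_distrib, hf, Finset.prod_pow, ← pow_mul]; rfl
        _ ≤ m * m ^ 2 := by gcongr
        _ = m ^ 3 := by ring
    exact (Nat.pow_le_pow_iff_left (by norm_num)).1 h6
  · intro n hn
    refine Nat.Coprime.prod_left fun q hq => Nat.Coprime.pow_left _ ?_
    exact Nat.Coprime.coprime_dvd_left (Nat.dvd_of_mem_primeFactors hq) hn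

theorem log_small (T : ℕ) (y : ℝ) (hy : (16 * T + 8 : ℝ) ^ 2 ≤ y) :
    8 + 8 * T * Real.log y ≤ y := by
  have hT : (0 : ℝ) ≤ T := Nat.cast_nonneg _
  have h0 : (0 : ℝ) < y := lt_of_lt_of_le (by positivity) hy
  have hs : (16 * T + 8 : ℝ) ≤ √y := Real.le_sqrt_of_sq_le hy
  have hs0 : 0 < √y := Real.sqrt_pos.2 h0
  have h1 : Real.log y ≤ 2 * √y := by
    have := Real.log_le_sub_one_of_pos hs0
    rw [Real.log_sqrt h0.le] at this
    linarith
  have h2 : √y * √y = y := Real.mul_self_sqrt h0.le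
  have h3 : T * Real.log y ≤ T * (2 * √y) := mul_le_mul_of_nonneg_left h1 hT
  nlinarith

theorem exP (T : ℕ) (y : ℝ) (hy : (16 * T + 8 : ℝ) ^ 2 ≤ y) (m A : ℕ) (hm : 1 ≤ m)
    (hmy : (m : ℝ) ≤ y ^ T) (hA : y ^ 2 ≤ A) (hA2 : (A : ℝ) ≤ y ^ (2 * T)) :
    ∃ P : Finset ℕ, (∀ a ∈ P, a.Prime ∧ a ≤ A ∧ a.Coprime m) ∧ (A : ℝ) ≤ P.card * y ∧
      2 + Real.log A ≤ y := by
  classical
  have hT : (0 : ℝ) ≤ T := Nat.cast_nonneg _
  have hy64 : (64 : ℝ) ≤ y := le_trans (by nlinarith) hy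
  have h0 : (0 : ℝ) < y := by linarith
  have hl := log_small T y hy
  have hA1 : (1 : ℝ) < A := by nlinarith
  have hlA : Real.log A ≤ 2 * T * Real.log y := by
    calc Real.log A ≤ Real.log (y ^ (2 * T)) := Real.log_le_log (by linarith) hA2
      _ = _ := by rw [Real.log_pow]; push_cast; ring
  have hlA0 : 0 < Real.log A := Real.log_pos hA1
  have h2 : (0.69 : ℝ) ≤ Real.log 2 := by have := Real.log_two_gt_d9; linarith
  have h2' : Real.log 2 ≤ 1 := by have := Real.log_two_lt_d9; linarith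
  have hlA1 : Real.log (A + 1) ≤ 1 + Real.log A := by
    calc Real.log (A + 1) ≤ Real.log (2 * A) := Real.log_le_log (by linarith) (by linarith)
      _ = Real.log 2 + Real.log A := Real.log_mul (by norm_num) (by linarith)
      _ ≤ _ := by linarith
  have hpi := Chebyshev.pi_ge A
  rw [div_le_iff₀ hlA0] at hpi
  have hω : (m.primeFactors.card : ℝ) ≤ y := by
    have h3 : 2 ^ m.primeFactors.card ≤ m := by
      calc 2 ^ m.primeFactors.card ≤ ∏ p ∈ m.primeFactors, p := by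
            rw [← Finset.prod_const]
            exact Finset.prod_le_prod' fun p hp => (Nat.prime_of_mem_primeFactors hp).two_le
        _ ≤ m := Nat.le_of_dvd hm (Nat.prod_primeFactors_dvd m)
    have h4 : (2 : ℝ) ^ m.primeFactors.card ≤ y ^ T := le_trans (by exact_mod_cast h3) hmy
    have h5 := Real.log_le_log (by positivity) h4
    rw [Real.log_pow, Real.log_pow] at h5
    have h6 : (0 : ℝ) ≤ m.primeFactors.card := Nat.cast_nonneg _
    nlinarith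
  refine ⟨Nat.primesLE A \ m.primeFactors, ?_, ?_, by linarith⟩
  · intro a ha
    obtain ⟨h3, h4⟩ := Finset.mem_sdiff.1 ha
    obtain ⟨h5, h6⟩ := Nat.mem_primesLE.1 h3
    refine ⟨h6, h5, (Nat.Prime.coprime_iff_not_dvd h6).2 fun h => h4 ?_⟩
    exact Nat.mem_primeFactors.2 ⟨h6, h, by omega⟩
  · have h3 : (Nat.primesLE A).card ≤ (Nat.primesLE A \ m.primeFactors).card + m.primeFactors.card :=
      Finset.card_le_card_sdiff_add_card
    rw [Nat.primesLE_card_eq_primeCounting] at h3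
    have h4 : (Nat.primeCounting A : ℝ) ≤
        (Nat.primesLE A \ m.primeFactors).card + m.primeFactors.card := by exact_mod_cast h3
    have h5 : (0 : ℝ) ≤ Nat.primeCounting A := Nat.cast_nonneg _
    have h6 : (Nat.primeCounting A : ℝ) * Real.log A ≤ Nat.primeCounting A * (y / 4) :=
      mul_le_mul_of_nonneg_left (by linarith) h5
    have h7 : (A : ℝ) * 0.69 ≤ A * Real.log 2 := mul_le_mul_of_nonneg_left h2 (by linarith)
    have h8 : 64 * y ≤ A := by nlinarith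
    have h9 : 2 * (A : ℝ) ≤ Nat.primeCounting A * y := by nlinarith
    have h10 : (Nat.primeCounting A : ℝ) * y ≤
        ((Nat.primesLE A \ m.primeFactors).card + y) * y :=
      mul_le_mul_of_nonneg_right (by linarith) h0.le
    nlinarith

theorem ener (E P n a q L y : ℝ) (hq : 0 < q) (ha : 1 ≤ a) (han : a ≤ n) (hL : 0 ≤ L)
    (hLy : 2 + L ≤ y) (hP : a ≤ P * y) (hP0 : 0 ≤ P)
    (hE : E ≤ P * n * (n / q + 1) + P * (2 * n * a / q + 1) * (n * (1 + L) + a)) :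
    E ≤ (P * n) ^ 2 * (y ^ 2 * (3 / q + 2 / (n * a))) := by
  have hn : 0 < n := by linarith
  have hy : 1 ≤ y := by linarith
  have h1 : n * (1 + L) + a ≤ n * y := by nlinarith
  have h2 : n / q + 1 ≤ (n * a / q + 1) * y := by
    have : n / q ≤ n * a / q := by gcongr; nlinarith
    have h3 : 0 ≤ n * a / q + 1 := by positivity
    nlinarith
  have h3 : E ≤ P * n * y * (3 * n * a / q + 2) := by
    calc E ≤ _ := hE
      _ ≤ P * n * ((n * a / q + 1) * y) + P * (2 * n * a / q + 1) * (n * y) := by gcongr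
      _ = _ := by ring
  have h4 : (P * n) ^ 2 * (y ^ 2 * (3 / q + 2 / (n * a))) =
      P * n * y * (3 * n * a / q + 2) * (P * y / a) := by
    field_simp
  rw [h4]
  refine h3.trans (le_mul_of_one_le_right (by positivity) ?_)
  rw [le_div_iff₀ (by linarith)]
  linarith

theorem bad (Bd S E P n y p X C B g : ℝ) (hy : 2 ≤ y) (hC : 1 ≤ C) (hP : 0 < P) (hn : 0 < n)
    (hp : y ^ 50 ≤ p) (hX : p ≤ X) (hB : B ≤ 2 * y) (hE0 : 0 ≤ E)
    (hS : S = p - g) (hg : p ≤ g + (C / (y ^ 4 / p) + B))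
    (hE : E ≤ (P * n) ^ 2 * (y ^ 2 * (3 / p + 2 / X))) (hBd : Bd ≤ √(S * E)) :
    Bd / P ≤ 5 * (C + 2) * (n / y) := by
  have hy0 : 0 < y := by linarith
  have hp0 : 0 < p := lt_of_lt_of_le (by positivity) hp
  have h5 : y ^ 5 ≤ p := (pow_le_pow_right₀ (by linarith) (by norm_num)).trans hp
  have h1 : S ≤ (C + 2) * p / y ^ 4 := by
    have e1 : C / (y ^ 4 / p) = C * p / y ^ 4 := by field_simp
    have e2 : 2 * y ≤ 2 * p / y ^ 4 := by
      rw [le_div_iff₀ (by positivity)]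
      nlinarith
    have e3 : (C + 2) * p / y ^ 4 = C * p / y ^ 4 + 2 * p / y ^ 4 := by ring
    linarith
  have h2 : E ≤ (P * n) ^ 2 * (y ^ 2 * (5 / p)) := by
    refine hE.trans ?_
    have : 2 / X ≤ 2 / p := by gcongr
    have e : 5 / p = 3 / p + 2 / p := by ring
    gcongr
    linarith
  rw [div_le_iff₀ hP]
  refine hBd.trans (Real.sqrt_le_iff.2 ⟨by positivity, ?_⟩)
  calc S * E ≤ ((C + 2) * p / y ^ 4) * ((P * n) ^ 2 * (y ^ 2 * (5 / p))) :=
        (mul_le_mul_of_nonneg_right h1 hE0).trans (by gcongr)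
    _ = (5 * (C + 2)) * (n / y * P) ^ 2 := by field_simp
    _ ≤ (5 * (C + 2)) ^ 2 * (n / y * P) ^ 2 := by
        gcongr
        nlinarith
    _ = _ := by ring

theorem inside (T : ℕ) (Cc E Mo P n y p X C B V M c₁ c₂ Ω₁ Ω₂ t : ℝ) (hT : 40 ≤ T) (hy : 2 ≤ y)
    (hC : 1 ≤ C) (hCc : 1 ≤ Cc) (hP : 0 < P) (hn : 0 < n) (hc₁ : 0 < c₁) (hc₂ : 0 < c₂)
    (hp : y ^ 50 ≤ p) (hX1 : 1 ≤ X) (hB : B ≤ 2 * y) (hB' : y ≤ B) (hV : 0 ≤ V) (hM : 1 ≤ M)
    (hMy : M ≤ y ^ T) (hWM : V * (p * √p) * p ≤ M) (hWX : V * (p * √p) * y ^ 98 ≤ 8 * X)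
    (hΩ₁ : Ω₁ ≤ c₁ * y) (hΩ₂ : Ω₂ ≤ c₂ * y) (hMo0 : 0 ≤ Mo) (ht0 : 0 ≤ t)
    (ht : t ≤ C * B ^ (2 * (2 * T)) * √(y ^ 4 / p))
    (hE : E ≤ (P * n) ^ 2 * (y ^ 2 * (3 / M + 2 / X)))
    (hMo : Mo ≤ Ω₁ * V * B * (2 * (2 * T : ℕ) * (p * √p) * B ^ (2 * (2 * T)) + p ^ 2 * t) +
      M * (Ω₂ * B ^ (2 * T))) :
    Cc * B ^ ((5 + 1) ^ 2) * E * Mo / ((P * n) ^ 2 * B ^ (2 * (2 * T))) ≤
      Cc * 2 ^ 36 * (38 * c₁ * (4 * T + C) + 5 * c₂) / y := by
  have hy0 : 0 < y := by linarith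
  have hy1 : 1 ≤ y := by linarith
  have hB0 : 0 < B := by linarith
  have hp0 : 0 < p := lt_of_lt_of_le (by positivity) hp
  have hT0 : (0 : ℝ) ≤ T := Nat.cast_nonneg _
  set W := V * (p * √p) with hW
  have hW0 : 0 ≤ W := by positivity
  set Z := B ^ (2 * (2 * T)) with hZ
  have hZ0 : 0 < Z := by positivity
  have hs : 0 < √p := Real.sqrt_pos.2 hp0
  have hsq : p ^ 2 * √(y ^ 4 / p) = p * √p * y ^ 2 := by
    rw [Real.sqrt_div (by positivity), show y ^ 4 = (y ^ 2) ^ 2 by ring,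
      Real.sqrt_sq (by positivity)]
    have : √p * √p = p := Real.mul_self_sqrt hp0.le
    field_simp
    nlinarith
  have hy2 : 1 ≤ y ^ 2 := one_le_pow₀ hy1
  have h1 : 2 * (2 * T : ℕ) * (p * √p) * Z + p ^ 2 * t ≤ (4 * T + C) * y ^ 2 * (p * √p) * Z := by
    have e1 : p ^ 2 * t ≤ C * y ^ 2 * (p * √p) * Z := by
      calc p ^ 2 * t ≤ p ^ 2 * (C * Z * √(y ^ 4 / p)) := by gcongr
        _ = C * Z * (p ^ 2 * √(y ^ 4 / p)) := by ring
        _ = _ := by rw [hsq]; ring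
    have e2 : 2 * (2 * T : ℕ) * (p * √p) * Z ≤ 4 * T * y ^ 2 * (p * √p) * Z := by
      push_cast
      calc 2 * (2 * (T : ℝ)) * (p * √p) * Z = 4 * T * 1 * (p * √p) * Z := by ring
        _ ≤ _ := by gcongr
    linarith
  have h2 : B ^ (2 * T) ≤ Z / y ^ (2 * T) := by
    rw [le_div_iff₀ (by positivity), hZ, two_mul (2 * T), pow_add]
    gcongr
  have h3 : Mo ≤ (2 * c₁ * (4 * T + C) * y ^ 4 * W + c₂ * y / y ^ (2 * T) * M) * Z := by
    have e0 : 0 ≤ 2 * (2 * T : ℕ) * (p * √p) * Z + p ^ 2 * t := by positivity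
    calc Mo ≤ _ := hMo
      _ ≤ (c₁ * y) * V * (2 * y) * ((4 * T + C) * y ^ 2 * (p * √p) * Z) +
          M * ((c₂ * y) * (Z / y ^ (2 * T))) := by
        refine add_le_add ?_ ?_
        · calc _ ≤ (c₁ * y) * V * B * (2 * (2 * T : ℕ) * (p * √p) * Z + p ^ 2 * t) := by gcongr
            _ ≤ _ := by gcongr
        · calc _ ≤ M * ((c₂ * y) * B ^ (2 * T)) := by gcongr
            _ ≤ _ := by gcongr
      _ = _ := by rw [hW]; ring
  have h4 : (3 / M + 2 / X) * W ≤ 19 / y ^ 50 := by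
    have e1 : W / M ≤ 1 / y ^ 50 := by
      rw [div_le_div_iff₀ (by linarith) (by positivity)]
      calc W * y ^ 50 ≤ W * p := by gcongr
        _ ≤ _ := by linarith
    have e2 : W / X ≤ 8 / y ^ 50 := by
      rw [div_le_div_iff₀ (by linarith) (by positivity)]
      calc W * y ^ 50 ≤ W * y ^ 98 := by gcongr; norm_num
        _ ≤ _ := hWX
    calc _ = 3 * (W / M) + 2 * (W / X) := by ring
      _ ≤ 3 * (1 / y ^ 50) + 2 * (8 / y ^ 50) := by gcongr
      _ = _ := by ring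
  have h5 : (3 / M + 2 / X) * M ≤ 5 * y ^ T := by
    have e1 : M / X ≤ M := div_le_self (by linarith) hX1
    have e2 : 1 ≤ y ^ T := one_le_pow₀ hy1
    have e3 : (3 / M + 2 / X) * M = 3 + 2 * (M / X) := by field_simp
    linarith
  have h6 : y ^ 42 / y ^ 50 ≤ 1 / y := by
    rw [div_le_div_iff₀ (by positivity) hy0, one_mul, ← pow_succ]
    exact pow_le_pow_right₀ hy1 (by norm_num)
  have h7 : y ^ (39 + T) / y ^ (2 * T) ≤ 1 / y := by
    rw [div_le_div_iff₀ (by positivity) hy0, one_mul, ← pow_succ]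
    exact pow_le_pow_right₀ hy1 (by omega)
  have hF : 0 ≤ 3 / M + 2 / X := by positivity
  rw [div_le_iff₀ (by positivity)]
  calc Cc * B ^ ((5 + 1) ^ 2) * E * Mo
      ≤ Cc * (2 * y) ^ ((5 + 1) ^ 2) * ((P * n) ^ 2 * (y ^ 2 * (3 / M + 2 / X))) * Mo := by
        refine mul_le_mul_of_nonneg_right ?_ hMo0
        calc _ ≤ Cc * B ^ ((5 + 1) ^ 2) * ((P * n) ^ 2 * (y ^ 2 * (3 / M + 2 / X))) := by gcongr
          _ ≤ _ := by gcongr
    _ ≤ Cc * (2 * y) ^ ((5 + 1) ^ 2) * ((P * n) ^ 2 * (y ^ 2 * (3 / M + 2 / X))) *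
        ((2 * c₁ * (4 * T + C) * y ^ 4 * W + c₂ * y / y ^ (2 * T) * M) * Z) := by gcongr
    _ = Cc * 2 ^ 36 * (2 * c₁ * (4 * T + C) * y ^ 42 * ((3 / M + 2 / X) * W) +
          c₂ * (y ^ 39 / y ^ (2 * T)) * ((3 / M + 2 / X) * M)) * ((P * n) ^ 2 * Z) := by
        norm_num only; ring
    _ ≤ Cc * 2 ^ 36 * (2 * c₁ * (4 * T + C) * y ^ 42 * (19 / y ^ 50) +
          c₂ * (y ^ 39 / y ^ (2 * T)) * (5 * y ^ T)) * ((P * n) ^ 2 * Z) := by gcongr
    _ = Cc * 2 ^ 36 * (38 * c₁ * (4 * T + C) * (y ^ 42 / y ^ 50) +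
          5 * c₂ * (y ^ (39 + T) / y ^ (2 * T))) * ((P * n) ^ 2 * Z) := by rw [pow_add]; ring
    _ ≤ Cc * 2 ^ 36 * (38 * c₁ * (4 * T + C) * (1 / y) + 5 * c₂ * (1 / y)) *
          ((P * n) ^ 2 * Z) := by gcongr
    _ = _ := by ring

theorem triv {m : ℕ} {χ : ℤ → ℂ} (h : PC m χ) (N : ℕ) : ‖Sm χ N‖ ≤ N := by
  unfold Sm
  refine (norm_sum_le _ _).trans ?_
  calc ∑ n ∈ Icc 1 N, ‖χ n‖ ≤ ∑ _n ∈ Icc 1 N, (1 : ℝ) := by
        refine Finset.sum_le_sum fun n _ => ?_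
        by_cases hc : IsCoprime (n : ℤ) (m : ℤ)
        · exact (h.norm _ hc).le
        · rw [h.zero _ hc]; simp
    _ = N := by simp

theorem Vv_nonneg (m : ℕ) : 0 ≤ Vv m :=
  Finset.prod_nonneg fun p _ => by split_ifs <;> positivity

theorem mom_nonneg (χ : ℤ → ℂ) (B r : ℕ) (G : Finset ℕ) : 0 ≤ mom χ B r G :=
  Finset.sum_nonneg fun _ _ => Finset.sum_nonneg fun _ _ => norm_nonneg _

end BM2A

open BM2A in
theorem bm2Of : BM2Of := by
  classical
  intro hF2 hMom hTan hEn hCore ε hε hε'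
  obtain ⟨T, hTε⟩ : ∃ T : ℕ, 50 ≤ ε * T := by
    refine ⟨⌈50 / ε⌉₊, ?_⟩
    have := Nat.le_ceil (50 / ε)
    rw [div_le_iff₀ hε] at this
    linarith
  have hT' : (200 : ℝ) ≤ T := by
    have : (0 : ℝ) ≤ T := Nat.cast_nonneg _
    nlinarith
  have hT : 200 ≤ T := by exact_mod_cast hT'
  have hT0 : (0 : ℝ) < T := by linarith
  obtain ⟨C, hC, hTan⟩ := hTan T (2 * T) (by omega) le_rfl
  obtain ⟨Cc, hCc, hCore⟩ := hCore 5 (by norm_num)
  obtain ⟨c₁, hc₁, hω₁⟩ := omega (2 * (2 * T : ℕ)) (1 / T) (by positivity) (by positivity)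
  obtain ⟨c₂, hc₂, hω₂⟩ := omega ((2 * (2 * T : ℕ) + 1) ^ (2 * (2 * T))) (1 / T) (by positivity)
    (by positivity)
  set D : ℝ := Cc * 2 ^ 36 * (38 * c₁ * (4 * T + C) + 5 * (2 ^ (2 * (2 * T)) * c₂)) with hD
  have hD0 : 0 < D := by positivity
  set Y : ℝ := (16 * T + 8) ^ 2 + C with hY
  have hY1 : (64 : ℝ) ≤ (16 * T + 8) ^ 2 := by nlinarith
  set e : ℝ := 1 / (2 * (2 * T : ℕ)) with he
  have he0 : 0 < e := by rw [he]; push_cast; positivity
  have he1 : e ≤ 1 := by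
    rw [he, div_le_one (by push_cast; positivity)]; push_cast; linarith
  refine ⟨1 / T * e, Y + (3 + 5 * (C + 2)) + (D + 1), by positivity, by linarith, ?_⟩
  intro m N χ hm hχ hH hN hN2
  have hm0 : (0 : ℝ) < m := by positivity
  have hm1 : (1 : ℝ) ≤ m := by exact_mod_cast hm.le
  set y : ℝ := (m : ℝ) ^ (1 / (T : ℝ)) with hy
  have hy1 : 1 ≤ y := Real.one_le_rpow hm1 (by positivity)
  have hy0 : 0 < y := by linarith
  have hyT : y ^ T = m := by
    rw [hy, one_div]; exact Real.rpow_inv_natCast_pow hm0.le (by omega)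
  set z : ℝ := (m : ℝ) ^ (-(1 / T * e)) with hz
  have hzy : z = (1 / y) ^ e := by
    rw [hz, hy, Real.rpow_neg hm0.le, Real.rpow_mul hm0.le, one_div (_ ^ _),
      Real.inv_rpow (by positivity)]
  have hz0 : 0 < z := by positivity
  have hyz : 1 / y ≤ z := by
    rw [hzy]
    exact Real.self_le_rpow_of_le_one (by positivity) ((div_le_one hy0).2 hy1) he1
  have hn0 : (0 : ℝ) ≤ N := Nat.cast_nonneg _
  have hnz : 0 ≤ (N : ℝ) * z := by positivity
  by_cases hyY : y < Y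
  · have h1 : 1 ≤ Y * z := by
      have : 1 ≤ y * z := by rw [div_le_iff₀ hy0] at hyz; linarith only [hyz]
      exact this.trans (by gcongr)
    have h2 := triv hχ N
    have h3 : (N : ℝ) * 1 ≤ N * (Y * z) := by gcongr
    have h4 : 0 ≤ (3 + 5 * (C + 2) + (D + 1)) * (N * z) := by positivity
    linarith only [h2, h3, h4]
  rw [not_lt] at hyY
  have hy64 : 64 ≤ y := by linarith
  have hCy : C ≤ y := by linarith
  obtain ⟨mB, m₁, p, hp, hmm, hco, hco₁, hp4, hrad, hV⟩ := hH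
  have hmB : 0 < mB := Nat.pos_of_ne_zero (by rintro rfl; omega)
  have hm₁ : 0 < m₁ := Nat.pos_of_ne_zero (by rintro rfl; simp at hmm; omega)
  have hp1 : 1 ≤ p := hp.one_le
  have hM1 : 1 ≤ m₁ * p ^ 3 := Nat.mul_pos hm₁ (pow_pos hp1 _)
  have hMm : m₁ * p ^ 3 ≤ m := by rw [hmm]; exact Nat.le_mul_of_pos_left _ hmB
  have hpM : p ∣ m₁ * p ^ 3 := Dvd.dvd.mul_left (dvd_pow_self p (by norm_num)) _
  have hMd : m₁ * p ^ 3 ∣ m := by rw [hmm]; exact Dvd.intro_left _ rfl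
  have hpm : p ≤ m := (Nat.le_of_dvd hM1 hpM).trans hMm
  rw [hmm] at hχ
  obtain ⟨χB, χM, hχB, hχM, hχe⟩ := hF2 _ _ χ hco hχ
  obtain rfl : χ = fun n => χB n * χM n := funext hχe
  obtain ⟨K, hK1, hKd, hK2, hKc⟩ := exK mB hmB hrad
  have hKM := hKc _ hco
  have hp50 : y ^ 50 ≤ p := by
    have h1 : (y ^ 50) ^ 4 ≤ (p : ℝ) ^ 4 := by
      calc (y ^ 50) ^ 4 = y ^ 200 := by ring
        _ ≤ y ^ T := pow_le_pow_right₀ hy1 hT
        _ ≤ _ := by rw [hyT]; exact_mod_cast hp4.le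
    exact (pow_le_pow_iff_left₀ (by positivity) (by positivity) (by norm_num)).1 h1
  have hp0 : (0 : ℝ) < p := by positivity
  have hp6 : y ^ 6 ≤ p := (pow_le_pow_right₀ hy1 (by norm_num)).trans hp50
  have hy4 : 1 ≤ y ^ 4 := one_le_pow₀ hy1
  have hy2 : y ^ 2 ≤ p := (pow_le_pow_right₀ hy1 (by norm_num)).trans hp50
  set B : ℕ := ⌈y⌉₊ with hB
  have hyB : y ≤ B := Nat.le_ceil y
  have hB2 : (B : ℝ) ≤ 2 * y := by have := Nat.ceil_lt_add_one hy0.le; linarith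
  have hB1 : 1 ≤ B := by exact_mod_cast hy1.trans hyB
  have hB0 : (0 : ℝ) < B := by linarith
  have hyy : 64 * y ≤ y ^ 2 := by rw [sq]; gcongr
  have hBp : B < p := by
    have : (B : ℝ) < p := by linarith only [hyy, hy2, hB2, hy0]
    exact_mod_cast this
  have hpB : p ≤ B ^ T := by
    have : (p : ℝ) ≤ (B : ℝ) ^ T := by
      calc (p : ℝ) ≤ m := by exact_mod_cast hpm
        _ = y ^ T := hyT.symm
        _ ≤ _ := by gcongr
    exact_mod_cast this
  have h46 : y ^ 4 * 4 ≤ 1 * p := by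
    calc y ^ 4 * 4 ≤ y ^ 4 * y ^ 2 := by gcongr; linarith only [hyy, hy1]
      _ = y ^ 6 := by ring
      _ ≤ _ := by rw [one_mul]; exact hp6
  obtain ⟨G, hG, htan⟩ := hTan p B (y ^ 4 / p) hp (by linarith only [hCy, hyy, hy2, hy0]) hBp hpB
    (by gcongr) (by rw [div_le_div_iff₀ hp0 (by norm_num)]; exact h46)
  set R : ℝ := (m : ℝ) ^ (1 / 4 : ℝ) with hR
  have hR0 : 0 < R := by positivity
  have hR4 : R ^ 4 = m := by
    rw [hR, one_div]; exact_mod_cast Real.rpow_inv_natCast_pow (n := 4) hm0.le (by omega)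
  have hRN : R * y ^ 50 ≤ N := by
    refine le_trans ?_ hN
    rw [Real.rpow_add hm0]
    refine mul_le_mul_of_nonneg_left ?_ hR0.le
    rw [hy, ← Real.rpow_natCast, ← Real.rpow_mul hm0.le]
    refine Real.rpow_le_rpow_of_exponent_le hm1 ?_
    rw [one_div, inv_mul_le_iff₀ hT0]
    push_cast
    linarith
  have hK0 : (0 : ℝ) < K := by positivity
  have hK2' : (K : ℝ) ^ 2 ≤ mB := by exact_mod_cast hK2
  have hmm' : (m : ℝ) = mB * (m₁ * p ^ 3) := by exact_mod_cast hmm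
  have hm₁' : (1 : ℝ) ≤ m₁ := by exact_mod_cast hm₁
  have hp1' : (1 : ℝ) ≤ p := by exact_mod_cast hp1
  have hmB' : (0 : ℝ) < mB := by exact_mod_cast hmB
  have hsq : √(p : ℝ) ^ 2 = p := Real.sq_sqrt hp0.le
  have hV0 := Vv_nonneg m₁
  have hW2 : (Vv m₁ * (p * √(p : ℝ))) ^ 2 ≤ m₁ * p ^ 3 := by
    calc _ = Vv m₁ ^ 2 * (p ^ 2 * √(p : ℝ) ^ 2) := by ring
      _ = Vv m₁ ^ 2 * p ^ 3 := by rw [hsq]; ring
      _ ≤ _ := by gcongr
  have hp2 : (p : ℝ) ^ 2 ≤ m₁ * p ^ 3 := by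
    calc (p : ℝ) ^ 2 ≤ p ^ 3 := pow_le_pow_right₀ hp1' (by norm_num)
      _ ≤ _ := le_mul_of_one_le_left (by positivity) hm₁'
  have hWK : ∀ W : ℝ, 0 ≤ W → W ^ 2 ≤ m₁ * p ^ 3 → W * K ≤ R ^ 2 := by
    intro W hW0 hW
    refine (pow_le_pow_iff_left₀ (n := 2) (by positivity) (by positivity) (by norm_num)).1 ?_
    calc (W * K) ^ 2 = (K : ℝ) ^ 2 * W ^ 2 := by ring
      _ ≤ (mB : ℝ) * (m₁ * p ^ 3) := by gcongr
      _ = _ := by rw [← hmm', ← hR4]; ring
  have hKR : (K : ℝ) ≤ R := by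
    have h1 : mB < p := by
      have : mB * p ^ 3 < p * p ^ 3 := by
        calc mB * p ^ 3 ≤ mB * (m₁ * p ^ 3) := by gcongr; exact Nat.le_mul_of_pos_left _ hm₁
          _ < p ^ 4 := hmm ▸ hp4
          _ = _ := by ring
      exact Nat.lt_of_mul_lt_mul_right this
    have h2 : (mB : ℝ) ≤ p := by exact_mod_cast h1.le
    have h3 := hWK K hK0.le (hK2'.trans (h2.trans ((le_self_pow₀ hp1' (by norm_num)).trans hp2)))
    exact (pow_le_pow_iff_left₀ (n := 2) hK0.le hR0.le (by norm_num)).1 (by rw [sq]; exact h3)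
  have hKB : 0 < K * B ^ 2 := by positivity
  set A : ℕ := N / (K * B ^ 2) with hA
  have hA1 : (A : ℝ) * (K * B ^ 2) ≤ N := by exact_mod_cast Nat.div_mul_le_self N (K * B ^ 2)
  have hA2 : (N : ℝ) ≤ (A + 1) * (K * (4 * y ^ 2)) := by
    have h1 : N < (A + 1) * (K * B ^ 2) := by
      rw [mul_comm]; exact Nat.lt_mul_div_succ N hKB
    calc (N : ℝ) ≤ (A + 1) * (K * B ^ 2) := by exact_mod_cast h1.le
      _ ≤ (A + 1) * (K * (2 * y) ^ 2) := by gcongr
      _ = _ := by ring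
  have hA0 : (0 : ℝ) ≤ A := Nat.cast_nonneg _
  have hyA : y ^ 2 ≤ A := by
    have h1 : K * y ^ 2 * y ^ 48 ≤ K * y ^ 2 * (4 * (A + 1)) := by
      calc K * y ^ 2 * y ^ 48 = K * y ^ 50 := by ring
        _ ≤ R * y ^ 50 := by gcongr
        _ ≤ _ := hRN
        _ ≤ _ := hA2
        _ = _ := by ring
    have h2 := le_of_mul_le_mul_left h1 (by positivity)
    have h3 : y ^ 3 ≤ y ^ 48 := pow_le_pow_right₀ hy1 (by norm_num)
    have h4 : 64 * y ^ 2 ≤ y ^ 3 := by rw [pow_succ' y 2]; gcongr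
    linarith only [h2, h3, h4, hyy, hy1]
  have ha1 : (1 : ℝ) ≤ A := (one_le_pow₀ hy1).trans hyA
  have hAN : (A : ℝ) ≤ N := by exact_mod_cast Nat.div_le_self _ _
  have hn1 : (1 : ℝ) ≤ N := ha1.trans hAN
  have hNy : (N : ℝ) ≤ y ^ (2 * T) := by
    rw [mul_comm, pow_mul, hyT]; exact_mod_cast hN2
  obtain ⟨P, hP, hPc, hlog⟩ := exP T y (by linarith) m A hm.le hyT.ge hyA (hAN.trans hNy)
  have hP0 : (0 : ℝ) < P.card := by
    by_contra h
    have : (P.card : ℝ) * y ≤ 0 := mul_nonpos_of_nonpos_of_nonneg (not_lt.1 h) hy0.le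
    linarith
  have hPM : ∀ a ∈ P, a.Coprime (m₁ * p ^ 3) := fun a ha =>
    Nat.Coprime.coprime_dvd_right hMd (hP a ha).2.2
  have hPp : ∀ a ∈ P, a.Coprime p := fun a ha => Nat.Coprime.coprime_dvd_right hpM (hPM a ha)
  have hX : ∀ W : ℝ, 0 ≤ W → W ^ 2 ≤ m₁ * p ^ 3 → W * y ^ 98 ≤ 8 * (N * A) := by
    intro W hW0 hW
    have h1 : K * y ^ 2 * (W * y ^ 98) ≤ K * y ^ 2 * (8 * (N * A)) := by
      calc K * y ^ 2 * (W * y ^ 98) = W * K * y ^ 100 := by ring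
        _ ≤ R ^ 2 * y ^ 100 := by gcongr; exact hWK W hW0 hW
        _ = (R * y ^ 50) * (R * y ^ 50) := by ring
        _ ≤ N * N := by gcongr
        _ ≤ N * ((A + A) * (K * (4 * y ^ 2))) := by
            gcongr
            exact hA2.trans (by gcongr)
        _ = _ := by ring
    exact le_of_mul_le_mul_left h1 (by positivity)
  have hA' : 1 ≤ A := by exact_mod_cast ha1
  have hL : 0 ≤ Real.log A := Real.log_nonneg ha1
  have hE : ∀ q : ℕ, 1 ≤ q → (∀ a ∈ P, a.Coprime q) → (En q N P : ℝ) ≤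
      ((P.card : ℝ) * N) ^ 2 * (y ^ 2 * (3 / q + 2 / (N * A))) := fun q hq h =>
    ener _ _ _ _ _ _ y (by positivity) ha1 hAN hL hlog hPc hP0.le
      (hEn.1 q N A P hq hA' fun a ha => ⟨(hP a ha).1, (hP a ha).2.1, h a ha⟩)
  have hcore := hCore mB (m₁ * p ^ 3) K N A B (2 * T) χB χM P
    ((range (m₁ * p ^ 3)).filter fun x : ℕ => (x : ZMod p) ∈ G) hχB hχM hKd hKM
    (by exact_mod_cast hn1) hB1 (by omega) (Finset.card_pos.1 (by exact_mod_cast hP0))
    (fun a ha => ⟨(hP a ha).2.1, hPM a ha⟩) (Finset.filter_subset _ _)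
  have hbad := bad _ _ _ _ _ y p (N * A) C B G.card (by linarith) hC hP0 (by linarith) hp50
    (by
      have h1 := hX p hp0.le hp2
      have h2 : y ≤ y ^ 98 := le_self_pow₀ hy1 (by norm_num)
      have h3 : (p : ℝ) * 8 ≤ p * y ^ 98 := by gcongr; linarith
      linarith)
    hB2 (Nat.cast_nonneg _) rfl hG (hE p hp1 hPp)
    (hEn.2 (m₁ * p ^ 3) p K N P G hp hpM (Nat.Coprime.coprime_dvd_right hpM hKM) hPp)
  have hroot : ∀ n : ℕ, n ≤ m → (n : ℝ) ^ (1 / (T : ℝ)) ≤ y := fun n hn =>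
    Real.rpow_le_rpow (Nat.cast_nonneg _) (by exact_mod_cast hn) (by positivity)
  have hMr : ((m₁ * p ^ 3 : ℕ) : ℝ) = m₁ * p ^ 3 := by push_cast; rfl
  have hin := inside T Cc _ _ _ _ y p (N * A) C B (Vv m₁) (m₁ * p ^ 3 : ℕ) c₁
    (2 ^ (2 * (2 * T)) * c₂) _ _ _ (by omega) (by linarith) hC hCc hP0 (by linarith) hc₁
    (by positivity) hp50 (one_le_mul_of_one_le_of_one_le hn1 ha1) hB2 hyB hV0 (by exact_mod_cast hM1)
    (by rw [hyT]; exact_mod_cast hMm)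
    (by
      rw [hMr]
      refine (pow_le_pow_iff_left₀ (n := 2) (by positivity) (by positivity) (by norm_num)).1 ?_
      rw [mul_pow, sq ((m₁ : ℝ) * p ^ 3)]
      gcongr)
    (hX _ (by positivity) hW2)
    ((hω₁ m₁ hm₁.ne').trans (mul_le_mul_of_nonneg_left
      (hroot m₁ ((Nat.le_mul_of_pos_right _ (pow_pos hp1 _)).trans hMm)) hc₁.le))
    (by
      rw [mul_pow, pow_right_comm, mul_assoc (2 ^ _ : ℝ) c₂ y]
      exact mul_le_mul_of_nonneg_left ((hω₂ (m₁ * p ^ 3) (by omega)).trans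
        (mul_le_mul_of_nonneg_left (hroot _ hMm) hc₂.le)) (by positivity))
    (mom_nonneg _ _ _ _) (Nat.cast_nonneg _) htan (hE _ hM1 hPM)
    (hMom m₁ p B (2 * T) χM G hp hco₁ hχM hB1 hBp.le (by omega))
  have hNz : (N : ℝ) / y ≤ N * z := by rw [div_eq_mul_one_div]; gcongr
  have t1 : 2 * (K : ℝ) * A * B ≤ 2 * (N / y) := by
    have : (K : ℝ) * A * B ≤ N / y := by
      rw [le_div_iff₀ hy0]
      calc (K : ℝ) * A * B * y ≤ K * A * B * B := by gcongr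
        _ = A * (K * B ^ 2) := by ring
        _ ≤ _ := hA1
    linarith
  have t2 : (N : ℝ) / B ≤ N / y := by gcongr
  have t4 : (D / y) ^ e ≤ (D + 1) * z := by
    rw [hzy, div_eq_mul_one_div, Real.mul_rpow hD0.le (by positivity)]
    refine mul_le_mul_of_nonneg_right ?_ (by positivity)
    calc D ^ e ≤ (D + 1) ^ e := Real.rpow_le_rpow hD0.le (by linarith) he0.le
      _ ≤ _ := Real.rpow_le_self_of_one_le (by linarith) he1
  have t5 := mul_le_mul_of_nonneg_left ((Real.rpow_le_rpow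
    (by have := mom_nonneg χM B (2 * T)
          ((range (m₁ * p ^ 3)).filter fun x : ℕ => (x : ZMod p) ∈ G)
        positivity) hin he0.le).trans t4) hn0
  have t6 : (3 + 5 * (C + 2)) * (N / y) ≤ (3 + 5 * (C + 2)) * (N * z) := by gcongr
  have t7 : 0 ≤ Y * (N * z) := by positivity
  refine hcore.trans ?_
  linarith only [t1, t2, hbad, t5, t6, t7]

end Pool.Agent.MP_c5bf7b_nt.H38
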