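import Pool.Agent.MP_c5bf7b_nt.H38.SpecB

/-! The Burgess bound for moduli with small radical, from the Weyl bound. -/

set_option autoImplicit false

namespace Pool.Agent.MP_c5bf7b_nt.H38

open Finset

namespace BW

/-- the induction claim -/
def W (s : ℕ) : Prop :=
  ∀ ε : ℝ, 0 < ε → ∃ δ C : ℝ, 0 < δ ∧ 1 ≤ C ∧ ∀ (m K N : ℕ) (χ : ℤ → ℂ), 1 < m → PC m χ → 1 ≤ K →
    m ∣ K ^ s → (K : ℝ) * (m : ℝ) ^ ε ≤ N → (K : ℝ) * (m : ℝ) ^ ε < m →
    ‖Sm χ N‖ ≤ C * N * (m : ℝ) ^ (-δ)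

lemma w_one : W 1 := by
  intro ε hε
  refine ⟨1, 1, one_pos, le_rfl, fun m K N χ hm _ hK hd _ h2 => ?_⟩
  exfalso
  rw [pow_one] at hd
  have h3 : (m : ℝ) ≤ K := by exact_mod_cast Nat.le_of_dvd hK hd
  have hm1 : (1 : ℝ) ≤ m := by exact_mod_cast hm.le
  have h4 : (1 : ℝ) ≤ (m : ℝ) ^ ε := Real.one_le_rpow hm1 hε.le
  have h5 : (0 : ℝ) ≤ K := Nat.cast_nonneg K
  nlinarith

lemma mono_bound {m N : ℕ} (hm : 1 < m) {x δ δ' C C' : ℝ} (hC : 0 ≤ C) (h1 : δ' ≤ δ) (h2 : C ≤ C')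
    (h : x ≤ C * N * (m : ℝ) ^ (-δ)) : x ≤ C' * N * (m : ℝ) ^ (-δ') := by
  have hm1 : (1 : ℝ) ≤ m := by exact_mod_cast hm.le
  have h3 : (m : ℝ) ^ (-δ) ≤ (m : ℝ) ^ (-δ') :=
    Real.rpow_le_rpow_of_exponent_le hm1 (by linarith)
  have h4 : (0 : ℝ) ≤ (m : ℝ) ^ (-δ) := by positivity
  have h5 : (0 : ℝ) ≤ N := Nat.cast_nonneg N
  refine h.trans ?_
  gcongr
  exact mul_nonneg (hC.trans h2) h5

lemma w_step (hW : WeylS) (d : ℕ) (hd : 1 ≤ d) (ih : W d) : W (d + 1) := by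
  intro ε hε
  obtain ⟨δ₁, C₁, hδ₁, hC₁, h₁⟩ := ih (ε / 2) (by positivity)
  obtain ⟨C₂, hC₂, h₂⟩ := hW d (ε / 4) hd (by positivity)
  have hq0 : (0 : ℝ) < 1 / (2 : ℝ) ^ d := by positivity
  have hq1 : 1 / (2 : ℝ) ^ d ≤ 1 := by
    rw [div_le_one (by positivity)]
    exact one_le_pow₀ (by norm_num)
  set q : ℝ := 1 / (2 : ℝ) ^ d with hq
  refine ⟨min δ₁ (ε / 4 * q), C₁ + (4 + 2 * C₂), lt_min hδ₁ (by positivity), by linarith,
    fun m K N χ hm hχ hK hdv hN hK2 => ?_⟩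
  have hm1 : (1 : ℝ) ≤ m := by exact_mod_cast hm.le
  have hm0 : (0 : ℝ) < m := by linarith
  have hK0 : (0 : ℝ) ≤ K := Nat.cast_nonneg K
  have hN0 : (0 : ℝ) ≤ N := Nat.cast_nonneg N
  have hg0 : 0 < m.gcd (K ^ d) := Nat.gcd_pos_of_pos_left _ (by omega)
  set m' : ℕ := m / m.gcd (K ^ d) with hm'
  have hmm : m.gcd (K ^ d) * m' = m := Nat.mul_div_cancel' (Nat.gcd_dvd_left _ _)
  have hm'0 : 0 < m' := by
    rcases Nat.eq_zero_or_pos m' with h | h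
    · rw [h] at hmm
      omega
    · exact h
  have hm'K : m' ∣ K := by
    have h1 : m ∣ K ^ d * K := by rwa [← pow_succ]
    have h2 : m.gcd (K ^ d) * m' ∣ m.gcd (K ^ d) * K := by
      rw [hmm, ← Nat.gcd_mul_right]
      exact Nat.dvd_gcd (Dvd.intro _ rfl) h1
    exact Nat.dvd_of_mul_dvd_mul_left hg0 h2
  have he : (m : ℝ) ^ ε = (m : ℝ) ^ (ε / 2) * (m : ℝ) ^ (ε / 2) := by
    rw [← Real.rpow_add hm0]
    congr 1
    ring
  have hx1 : (1 : ℝ) ≤ (m : ℝ) ^ (ε / 2) := Real.one_le_rpow hm1 (by positivity)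
  rcases le_or_gt ((m : ℝ) ^ (ε / 2)) (m' : ℝ) with hc | hc
  · have hm'N : m' ≤ N := by
      have h1 : (m' : ℝ) ≤ K := by exact_mod_cast Nat.le_of_dvd hK hm'K
      have h2 : (1 : ℝ) ≤ (m : ℝ) ^ ε := Real.one_le_rpow hm1 hε.le
      have h3 : (m' : ℝ) ≤ N := by nlinarith
      exact_mod_cast h3
    set B : ℕ := ⌈(m : ℝ) ^ (ε / 2)⌉₊ with hB
    have hB1 : (m : ℝ) ^ (ε / 2) ≤ B := Nat.le_ceil _
    have hB2 : (B : ℝ) ≤ 2 * (m : ℝ) ^ (ε / 2) := by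
      have := (Nat.ceil_lt_add_one (a := (m : ℝ) ^ (ε / 2)) (by positivity)).le
      linarith
    have hB3 : 1 ≤ B := by
      have : (1 : ℝ) ≤ B := hx1.trans hB1
      exact_mod_cast this
    have h3 := h₂ m K N B χ hχ hdv hm'N hB3
    rw [← hm'] at h3
    have hinv : (m : ℝ) ^ (-(ε / 2)) = 1 / (m : ℝ) ^ (ε / 2) := by
      rw [Real.rpow_neg hm0.le, one_div]
    have h4 : 2 * (K : ℝ) * B ≤ 4 * N * (m : ℝ) ^ (-(ε / 4 * q)) := by
      refine mono_bound hm (δ := ε / 2) (C := 4) (by norm_num) (by nlinarith) le_rfl ?_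
      rw [hinv, mul_one_div, le_div_iff₀ (by linarith)]
      rw [he] at hN
      have h5 : (K : ℝ) * B * (m : ℝ) ^ (ε / 2) ≤
          K * (2 * (m : ℝ) ^ (ε / 2)) * (m : ℝ) ^ (ε / 2) := by gcongr
      nlinarith
    have h5 : (m : ℝ) ^ (ε / 4) * (1 / (m' : ℝ) + 1 / B) ≤ 2 * (m : ℝ) ^ (-(ε / 4)) := by
      have h6 : 1 / (m' : ℝ) ≤ (m : ℝ) ^ (-(ε / 2)) := by
        rw [hinv]
        exact one_div_le_one_div_of_le (by linarith) hc
      have h7 : 1 / (B : ℝ) ≤ (m : ℝ) ^ (-(ε / 2)) := by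
        rw [hinv]
        exact one_div_le_one_div_of_le (by linarith) hB1
      have h8 : (m : ℝ) ^ (-(ε / 4)) = (m : ℝ) ^ (ε / 4) * (m : ℝ) ^ (-(ε / 2)) := by
        rw [← Real.rpow_add hm0]
        congr 1
        ring
      have h9 : (0 : ℝ) ≤ (m : ℝ) ^ (ε / 4) := by positivity
      rw [h8]
      nlinarith
    have h6 : ((m : ℝ) ^ (ε / 4) * (1 / (m' : ℝ) + 1 / B)) ^ q ≤ 2 * (m : ℝ) ^ (-(ε / 4 * q)) := by
      refine (Real.rpow_le_rpow (by positivity) h5 hq0.le).trans ?_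
      rw [Real.mul_rpow (by norm_num) (by positivity), ← Real.rpow_mul hm0.le, neg_mul]
      have h7 : (2 : ℝ) ^ q ≤ 2 := by
        have := Real.rpow_le_rpow_of_exponent_le (x := 2) (by norm_num) hq1
        rwa [Real.rpow_one] at this
      gcongr
    refine mono_bound hm (δ := ε / 4 * q) (C := 4 + 2 * C₂) (by linarith) (min_le_right _ _)
      (by linarith) ?_
    have h7 : C₂ * N * ((m : ℝ) ^ (ε / 4) * (1 / (m' : ℝ) + 1 / B)) ^ q ≤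
        C₂ * N * (2 * (m : ℝ) ^ (-(ε / 4 * q))) := by
      have : (0 : ℝ) ≤ C₂ := by linarith
      gcongr
    calc ‖Sm χ N‖ ≤ _ := h3
      _ ≤ 4 * N * (m : ℝ) ^ (-(ε / 4 * q)) + C₂ * N * (2 * (m : ℝ) ^ (-(ε / 4 * q))) :=
        add_le_add h4 h7
      _ = _ := by ring
  · have h3 : m ∣ (K * m') ^ d := by
      rw [mul_pow]
      conv_lhs => rw [← hmm]
      exact Nat.mul_dvd_mul (Nat.gcd_dvd_right _ _) (dvd_pow_self _ (by omega))
    have h4 : ((K * m' : ℕ) : ℝ) * (m : ℝ) ^ (ε / 2) ≤ K * (m : ℝ) ^ ε := by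
      rw [he, Nat.cast_mul, mul_assoc]
      gcongr
    refine mono_bound hm (δ := δ₁) (C := C₁) (by linarith) (min_le_left _ _) (by linarith) ?_
    exact h₁ m (K * m') N χ hm hχ (Nat.mul_pos hK hm'0) h3 (h4.trans hN) (h4.trans_lt hK2)

lemma w_all (hW : WeylS) (s : ℕ) : W (s + 1) := by
  induction s with
  | zero => exact w_one
  | succ s ih => exact w_step hW (s + 1) (by omega) ih

lemma start (m s : ℕ) (hm : 0 < m) (hs : 0 < s) :
    ∃ L : ℕ, 0 < L ∧ L ^ s ≤ m ∧ m ∣ (rad m * L) ^ s := by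
  have hf : ∏ p ∈ m.primeFactors, p ^ m.factorization p = m :=
    (Nat.prod_primeFactors_pow_factorization hm.ne').symm
  refine ⟨∏ p ∈ m.primeFactors, p ^ (m.factorization p / s), ?_, ?_, ?_⟩
  · exact prod_pos fun p hp => pow_pos (Nat.pos_of_mem_primeFactors hp) _
  · refine Nat.le_of_dvd hm ?_
    conv_rhs => rw [← hf]
    rw [← prod_pow]
    refine prod_dvd_prod_of_dvd _ _ fun p _ => ?_
    rw [← pow_mul]
    exact pow_dvd_pow _ (Nat.div_mul_le_self _ _)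
  · conv_lhs => rw [← hf]
    rw [rad, ← prod_mul_distrib, ← prod_pow]
    refine prod_dvd_prod_of_dvd _ _ fun p _ => ?_
    rw [← pow_succ', ← pow_mul]
    refine pow_dvd_pow _ ?_
    rw [mul_comm]
    exact (Nat.lt_mul_div_succ _ hs).le

end BW

theorem bwOf : BWOf := by
  intro hW ε hε hε1
  obtain ⟨s, hs⟩ := exists_nat_ge (8 / ε)
  obtain ⟨δ, C, hδ, hC, h⟩ := BW.w_all hW s (ε / 2) (by positivity)
  refine ⟨δ, C, hδ, hC, fun m N χ hm hχ hH hN _ => ?_⟩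
  obtain ⟨L, hL0, hL1, hL2⟩ := BW.start m (s + 1) (by omega) (by omega)
  have hm1 : (1 : ℝ) < m := by exact_mod_cast hm
  have hm0 : (0 : ℝ) < m := by linarith
  have hr : 0 < rad m := prod_pos fun p hp => Nat.pos_of_mem_primeFactors hp
  have hL3 : (L : ℝ) ≤ (m : ℝ) ^ (ε / 8) := by
    refine le_of_pow_le_pow_left₀ (n := s + 1) (by omega) (by positivity) ?_
    rw [← Real.rpow_natCast ((m : ℝ) ^ (ε / 8)), ← Real.rpow_mul hm0.le]
    have h1 : (L : ℝ) ^ (s + 1) ≤ m := by exact_mod_cast hL1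
    refine h1.trans ?_
    have h2 : (1 : ℝ) ≤ ε / 8 * ((s + 1 : ℕ) : ℝ) := by
      rw [div_le_iff₀ hε] at hs
      push_cast
      nlinarith
    have h3 := Real.rpow_le_rpow_of_exponent_le hm1.le h2
    rwa [Real.rpow_one] at h3
  have hK : ((rad m * L : ℕ) : ℝ) * (m : ℝ) ^ (ε / 2) ≤ (m : ℝ) ^ (1 / 4 + ε) := by
    have h1 : (rad m : ℝ) ≤ (m : ℝ) ^ (1 / 4 + ε / 4) := hH
    calc ((rad m * L : ℕ) : ℝ) * (m : ℝ) ^ (ε / 2)
        ≤ (m : ℝ) ^ (1 / 4 + ε / 4) * (m : ℝ) ^ (ε / 8) * (m : ℝ) ^ (ε / 2) := by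
          rw [Nat.cast_mul]
          gcongr
      _ = (m : ℝ) ^ (1 / 4 + ε / 4 + ε / 8 + ε / 2) := by
          rw [← Real.rpow_add hm0, ← Real.rpow_add hm0]
      _ ≤ _ := Real.rpow_le_rpow_of_exponent_le hm1.le (by linarith)
  refine h m (rad m * L) N χ hm hχ (Nat.mul_pos hr hL0) hL2 (hK.trans hN) (hK.trans_lt ?_)
  have h3 := Real.rpow_lt_rpow_of_exponent_lt hm1 (show 1 / 4 + ε < 1 by linarith)
  rwa [Real.rpow_one] at h3

end Pool.Agent.MP_c5bf7b_nt.H38
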