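import Pool.Agent.MP_c5bf7b_nt.H38.SpecB
import Pool.Agent.MP_74e98a_nt.H25.Div

/-! From primitive characters to all characters. -/

set_option autoImplicit false

namespace Pool.Agent.MP_c5bf7b_nt.H38

open Finset

namespace BurgA

theorem norm_le {m : ℕ} {ψ : ℤ → ℂ} (h : PC m ψ) (a : ℤ) : ‖ψ a‖ ≤ 1 := by
  by_cases ha : IsCoprime a (m : ℤ)
  · exact (h.norm a ha).le
  · rw [h.zero a ha, norm_zero]; exact zero_le_one

theorem sm_triv {m : ℕ} {ψ : ℤ → ℂ} (h : PC m ψ) (N : ℕ) : ‖Sm ψ N‖ ≤ N := by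
  unfold Sm
  refine (norm_sum_le _ _).trans ?_
  refine (sum_le_card_nsmul (Icc 1 N) (fun n : ℕ => ‖ψ n‖) 1 fun n _ => norm_le h n).trans ?_
  simp

theorem period_zero {m : ℕ} {ψ : ℤ → ℂ} (hm : 1 < m) (h : PC m ψ) :
    ∑ n ∈ range m, ψ (n : ℤ) = 0 := by
  have : NeZero m := ⟨by omega⟩
  obtain ⟨p, hp, hpm⟩ := Nat.exists_prime_and_dvd (n := m) (by omega)
  obtain ⟨a, ha, -, ha1⟩ := h.prim p hp hpm
  obtain ⟨f, hf⟩ : ∃ f : ZMod m → ℂ, f = fun x => ψ (x.val : ℤ) := ⟨_, rfl⟩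
  have hfψ : ∀ n : ℤ, ψ n = f (n : ZMod m) := by
    intro n
    rw [hf]
    refine h.per _ _ ?_
    rw [← ZMod.intCast_eq_intCast_iff]
    simp
  have h1 : ∑ n ∈ range m, ψ (n : ℤ) = ∑ x : ZMod m, f x := by
    refine sum_bij' (fun n _ => (n : ZMod m)) (fun x _ => x.val) (fun _ _ => mem_univ _)
      (fun x _ => mem_range.2 (ZMod.val_lt x)) (fun n hn => ZMod.val_cast_of_lt (mem_range.1 hn))
      (fun x _ => ZMod.natCast_zmod_val x) (fun n _ => ?_)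
    rw [hfψ]; simp
  have hu : IsUnit (a : ZMod m) := (ZMod.coe_int_isUnit_iff_isCoprime a m).2 ha.symm
  have h2 : ∑ x : ZMod m, f x = ∑ x : ZMod m, f ((a : ZMod m) * x) :=
    (Equiv.sum_comp hu.unit.mulLeft f).symm
  have h3 : ∀ x : ZMod m, f ((a : ZMod m) * x) = ψ a * f x := by
    intro x
    have e : (a : ZMod m) * x = ((a * (x.val : ℤ) : ℤ) : ZMod m) := by simp
    rw [e, ← hfψ, h.mul, hf]
  rw [h1]
  simp only [h3, ← mul_sum] at h2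
  by_contra h0
  exact ha1 (mul_right_cancel₀ h0 (by rw [one_mul]; exact h2.symm))

theorem shift_zero {m : ℕ} {ψ : ℤ → ℂ} (hm : 1 < m) (h : PC m ψ) (c : ℕ) :
    ∑ n ∈ range m, ψ ((c + n : ℕ) : ℤ) = 0 := by
  induction c with
  | zero => simpa using period_zero hm h
  | succ c ih =>
    have e1 := sum_range_succ (fun n => ψ ((c + n : ℕ) : ℤ)) m
    have e2 := sum_range_succ' (fun n => ψ ((c + n : ℕ) : ℤ)) m
    have e3 : ψ ((c + m : ℕ) : ℤ) = ψ ((c + 0 : ℕ) : ℤ) := by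
      refine h.per _ _ ?_
      push_cast
      simp
    have e4 : ∑ n ∈ range m, ψ ((c + 1 + n : ℕ) : ℤ) = ∑ n ∈ range m, ψ ((c + (n + 1) : ℕ) : ℤ) :=
      sum_congr rfl fun n _ => by congr 2; ring
    rw [e4]
    rw [e1, ih, e3] at e2
    simpa using e2.symm

theorem sm_range (ψ : ℤ → ℂ) (N : ℕ) : Sm ψ N = ∑ n ∈ range N, ψ ((1 + n : ℕ) : ℤ) := by
  unfold Sm
  rw [← Finset.Ico_add_one_right_eq_Icc, sum_Ico_eq_sum_range]
  simp

theorem sm_period {m : ℕ} {ψ : ℤ → ℂ} (hm : 1 < m) (h : PC m ψ) (N : ℕ) : ‖Sm ψ N‖ ≤ m := by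
  induction N using Nat.strong_induction_on with
  | _ N ih =>
    rcases le_or_gt N m with hN | hN
    · exact (sm_triv h N).trans (Nat.cast_le.2 hN)
    · obtain ⟨M, rfl⟩ : ∃ M, N = M + m := ⟨N - m, by omega⟩
      have e : Sm ψ (M + m) = Sm ψ M := by
        rw [sm_range, sm_range, sum_range_add]
        have := shift_zero hm h (1 + M)
        simp only [add_assoc] at this
        rw [this, add_zero]
      rw [e]
      exact ih M (by omega)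

theorem prim (hS : SplitS) (h0 : BurOn HW) (h1 : BurOn HM1) (h2 : BurOn HM2) (ε : ℝ) (hε : 0 < ε)
    (hε' : ε ≤ 1 / 10) : ∃ δ C : ℝ, 0 < δ ∧ 1 ≤ C ∧ ∀ (m N : ℕ) (ψ : ℤ → ℂ), 1 < m → PC m ψ →
      (m : ℝ) ^ (1 / 4 + ε) ≤ N → ‖Sm ψ N‖ ≤ C * N * (m : ℝ) ^ (-δ) := by
  obtain ⟨δ0, C0, hδ0, hC0, H0⟩ := h0 ε hε hε'
  obtain ⟨δ1, C1, hδ1, hC1, H1⟩ := h1 ε hε hε'
  obtain ⟨δ2, C2, hδ2, hC2, H2⟩ := h2 ε hε hε'
  obtain ⟨δ, hδ, hd0, hd1, hd2, hd3⟩ : ∃ δ : ℝ, 0 < δ ∧ δ ≤ δ0 ∧ δ ≤ δ1 ∧ δ ≤ δ2 ∧ δ ≤ 1 :=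
    ⟨min (min δ0 δ1) (min δ2 1), by positivity, (min_le_left _ _).trans (min_le_left _ _),
      (min_le_left _ _).trans (min_le_right _ _), (min_le_right _ _).trans (min_le_left _ _),
      (min_le_right _ _).trans (min_le_right _ _)⟩
  refine ⟨δ, C0 + C1 + C2, hδ, by linarith, fun m N ψ hm hψ hN => ?_⟩
  have hm1 : (1 : ℝ) ≤ m := by exact_mod_cast hm.le
  have hm0 : (0 : ℝ) < m := by linarith
  have hN0 : (0 : ℝ) ≤ N := Nat.cast_nonneg N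
  have key : ∀ δ' C' : ℝ, δ ≤ δ' → 0 ≤ C' → C' ≤ C0 + C1 + C2 →
      C' * N * (m : ℝ) ^ (-δ') ≤ (C0 + C1 + C2) * N * (m : ℝ) ^ (-δ) := by
    intro δ' C' h h' h''
    have : (m : ℝ) ^ (-δ') ≤ (m : ℝ) ^ (-δ) := Real.rpow_le_rpow_of_exponent_le hm1 (by linarith)
    gcongr
  rcases le_or_gt N (m ^ 2) with hle | hlt
  · rcases hS ε m hε hm with h | h | h
    · exact (H0 m N ψ hm hψ h hN hle).trans (key _ _ hd0 (by linarith) (by linarith))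
    · exact (H1 m N ψ hm hψ h hN hle).trans (key _ _ hd1 (by linarith) (by linarith))
    · exact (H2 m N ψ hm hψ h hN hle).trans (key _ _ hd2 (by linarith) (by linarith))
  · refine (sm_period hm hψ N).trans (le_trans ?_ (key 1 1 hd3 zero_le_one (by linarith)))
    have : (m : ℝ) ^ 2 ≤ N := by exact_mod_cast hlt.le
    rw [Real.rpow_neg_one, one_mul, ← div_eq_mul_inv, le_div_iff₀ hm0]
    nlinarith

open ArithmeticFunction in
theorem sum_mu (n : ℕ) : ∑ d ∈ n.divisors, ((moebius d : ℤ) : ℂ) = if n = 1 then 1 else 0 := by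
  have h := congrArg (fun f : ArithmeticFunction ℤ => f n) moebius_mul_coe_zeta
  simp only [coe_mul_zeta_apply, one_apply] at h
  have h' := congrArg (fun z : ℤ => (z : ℂ)) h
  push_cast at h'
  exact h'

open ArithmeticFunction in
theorem expand {q m : ℕ} [NeZero q] (χ : DirichletCharacter ℂ q) {ψ : ℤ → ℂ} (h : PC m ψ)
    (hχ : ∀ n : ℤ, IsCoprime n (q : ℤ) → χ n = ψ n) (N : ℕ) :
    ∑ n ∈ Icc 1 N, χ n = ∑ d ∈ q.divisors, ((moebius d : ℤ) : ℂ) * ψ d * Sm ψ (N / d) := by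
  have hq : q ≠ 0 := NeZero.ne q
  have e1 : ∀ n ∈ Icc 1 N, χ n =
      ∑ d ∈ q.divisors, if d ∣ n then ((moebius d : ℤ) : ℂ) * ψ n else 0 := by
    intro n hn
    have hd : q.divisors.filter (· ∣ n) = (Nat.gcd n q).divisors := by
      ext d
      simp only [mem_filter, Nat.mem_divisors, Nat.dvd_gcd_iff, ne_eq, Nat.gcd_eq_zero_iff]
      tauto
    rw [← sum_filter, hd, ← sum_mul, sum_mu]
    split_ifs with hc
    · have := hχ n (Nat.isCoprime_iff_coprime.2 hc)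
      rw [one_mul, ← this, Int.cast_natCast]
    · rw [zero_mul]
      exact χ.map_nonunit fun hu => hc ((ZMod.isUnit_iff_coprime n q).1 hu)
  rw [sum_congr rfl e1, sum_comm]
  refine sum_congr rfl fun d hd => ?_
  have hd0 : 0 < d := Nat.pos_of_mem_divisors hd
  rw [← sum_filter, Sm, mul_sum]
  symm
  refine sum_bij (fun k _ => d * k) (fun k hk => ?_) (fun k _ k' _ hkk => ?_) (fun n hn => ?_)
    (fun k _ => ?_)
  · rw [mem_Icc] at hk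
    rw [mem_filter, mem_Icc]
    refine ⟨⟨Nat.mul_pos hd0 hk.1, ?_⟩, Dvd.intro _ rfl⟩
    rw [mul_comm]
    exact (Nat.le_div_iff_mul_le hd0).1 hk.2
  · exact Nat.eq_of_mul_eq_mul_left hd0 hkk
  · rw [mem_filter, mem_Icc] at hn
    obtain ⟨⟨h1, h2⟩, k, rfl⟩ := hn
    refine ⟨k, mem_Icc.2 ⟨?_, ?_⟩, rfl⟩
    · exact Nat.pos_of_mul_pos_left h1
    · rw [Nat.le_div_iff_mul_le hd0, mul_comm]; exact h2
  · rw [Nat.cast_mul, h.mul, mul_assoc]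

/-- One term of the expansion. -/
theorem term {ε δ C η : ℝ} (hε : 0 < ε) (hC : 1 ≤ C) (hδ : 0 < δ)
    (H : ∀ (m N : ℕ) (ψ : ℤ → ℂ), 1 < m → PC m ψ →
      (m : ℝ) ^ (1 / 4 + ε / 4) ≤ N → ‖Sm ψ N‖ ≤ C * N * (m : ℝ) ^ (-δ))
    (h1 : η ≤ ε / 2) (h2 : η ≤ δ / 8) (h3 : η ≤ 1 / 8)
    {q m N d : ℕ} {ψ : ℤ → ℂ} (hm : 1 < m) (hmq : m ≤ q) (h : PC m ψ) (hd : 0 < d)
    (hq : 2 ≤ (q : ℝ) ^ (ε / 4)) (hN : (q : ℝ) ^ (1 / 4 + ε) ≤ N) :
    ‖Sm ψ (N / d)‖ ≤ C * N * (q : ℝ) ^ (-η) := by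
  have hm1 : (1 : ℝ) ≤ m := by exact_mod_cast hm.le
  have hmq' : (m : ℝ) ≤ q := by exact_mod_cast hmq
  have hq1 : (1 : ℝ) ≤ q := hm1.trans hmq'
  have hq0 : (0 : ℝ) < q := by linarith
  have hN0 : (0 : ℝ) ≤ N := Nat.cast_nonneg N
  have hd0 : (0 : ℝ) < d := by exact_mod_cast hd
  have key : ∀ η' : ℝ, η ≤ η' → (N : ℝ) * (q : ℝ) ^ (-η') ≤ C * N * (q : ℝ) ^ (-η) := by
    intro η' h
    have a1 : (q : ℝ) ^ (-η') ≤ (q : ℝ) ^ (-η) :=
      Real.rpow_le_rpow_of_exponent_le hq1 (by linarith)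
    have a2 : (N : ℝ) ≤ C * N := le_mul_of_one_le_left hN0 hC
    gcongr
  rcases le_or_gt ((q : ℝ) ^ (ε / 2)) d with hdq | hdq
  · refine (sm_triv h _).trans (Nat.cast_div_le.trans (le_trans ?_ (key _ h1)))
    rw [Real.rpow_neg hq0.le, ← div_eq_mul_inv]
    gcongr
  rcases le_or_gt (m : ℝ) ((q : ℝ) ^ (1 / 8 : ℝ)) with hm8 | hm8
  · refine (sm_period hm h _).trans (hm8.trans (le_trans ?_ (key _ h3)))
    have a1 : (q : ℝ) ^ (1 / 4 : ℝ) ≤ N :=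
      (Real.rpow_le_rpow_of_exponent_le hq1 (by linarith)).trans hN
    calc (q : ℝ) ^ (1 / 8 : ℝ) = (q : ℝ) ^ (1 / 4 : ℝ) * (q : ℝ) ^ (-(1 / 8 : ℝ)) := by
          rw [← Real.rpow_add hq0]; norm_num
      _ ≤ _ := by gcongr
  · have a0 : (1 : ℝ) ≤ (q : ℝ) ^ (1 / 4 + ε / 4) := Real.one_le_rpow hq1 (by linarith)
    have a1 : 2 * (q : ℝ) ^ (1 / 4 + ε / 4) * d ≤ N := by
      calc 2 * (q : ℝ) ^ (1 / 4 + ε / 4) * d
          ≤ (q : ℝ) ^ (ε / 4) * (q : ℝ) ^ (1 / 4 + ε / 4) * (q : ℝ) ^ (ε / 2) := by gcongr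
        _ = (q : ℝ) ^ (1 / 4 + ε) := by
          rw [← Real.rpow_add hq0, ← Real.rpow_add hq0]; congr 1; ring
        _ ≤ N := hN
    have a2 : (N : ℝ) / d < ((N / d : ℕ) : ℝ) + 1 := by
      have := Nat.lt_floor_add_one ((N : ℝ) / d)
      rwa [Nat.floor_div_eq_div] at this
    have a3 : 2 * (q : ℝ) ^ (1 / 4 + ε / 4) ≤ (N : ℝ) / d := by
      rw [le_div_iff₀ hd0]; exact a1
    have a4 : (m : ℝ) ^ (1 / 4 + ε / 4) ≤ (q : ℝ) ^ (1 / 4 + ε / 4) :=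
      Real.rpow_le_rpow (by linarith) hmq' (by linarith)
    refine (H m (N / d) ψ hm h (by linarith)).trans ?_
    have a5 : ((N / d : ℕ) : ℝ) ≤ N := Nat.cast_le.2 (Nat.div_le_self _ _)
    have a6 : (m : ℝ) ^ (-δ) ≤ (q : ℝ) ^ (-η) := by
      calc (m : ℝ) ^ (-δ) ≤ ((q : ℝ) ^ (1 / 8 : ℝ)) ^ (-δ) :=
            Real.rpow_le_rpow_of_nonpos (by positivity) hm8.le (by linarith)
        _ = (q : ℝ) ^ (-(δ / 8)) := by
            rw [← Real.rpow_mul hq0.le]; congr 1; ring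
        _ ≤ _ := Real.rpow_le_rpow_of_exponent_le hq1 (by linarith)
    have hC0 : 0 ≤ C := by linarith
    gcongr

end BurgA

open BurgA in
theorem burgOf : BurgOf := by
  intro hF hS h0 h1 h2 ε₀ hε₀
  obtain ⟨ε, hε, hε1, hε2⟩ : ∃ ε : ℝ, 0 < ε ∧ ε ≤ ε₀ ∧ ε ≤ 1 / 10 :=
    ⟨min ε₀ (1 / 10), by positivity, min_le_left _ _, min_le_right _ _⟩
  obtain ⟨δ, C, hδ, hC, H⟩ := prim hS h0 h1 h2 (ε / 4) (by positivity) (by linarith)
  obtain ⟨η, hη, e1, e2, e3⟩ : ∃ η : ℝ, 0 < η ∧ η ≤ ε / 2 ∧ η ≤ δ / 8 ∧ η ≤ 1 / 8 :=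
    ⟨min (ε / 2) (min (δ / 8) (1 / 8)), by positivity, min_le_left _ _,
      (min_le_right _ _).trans (min_le_left _ _), (min_le_right _ _).trans (min_le_right _ _)⟩
  obtain ⟨D, hD, HD⟩ := MP_74e98a_nt.H25.divisor_bound (η / 2) (by positivity)
  have hDC : 1 ≤ D * C := one_le_mul_of_one_le_of_one_le hD hC
  refine ⟨η / 2, 2 * (D * C), by positivity, by linarith, fun q _ χ N hχ hN₀ => ?_⟩
  have hq1 : (1 : ℝ) ≤ q := by exact_mod_cast Nat.one_le_iff_ne_zero.2 (NeZero.ne q)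
  have hq0 : (0 : ℝ) < q := by linarith
  have hN0 : (0 : ℝ) ≤ N := Nat.cast_nonneg N
  have hN : (q : ℝ) ^ (1 / 4 + ε) ≤ N :=
    (Real.rpow_le_rpow_of_exponent_le hq1 (by linarith)).trans hN₀
  have hpos : 0 < (q : ℝ) ^ (-(η / 2)) := Real.rpow_pos_of_pos hq0 _
  rcases le_or_gt 2 ((q : ℝ) ^ (ε / 4)) with hq | hq
  · obtain ⟨m, ψ, hm, hmq, hψ, hχψ⟩ := hF q χ hχ
    have hmq' : m ≤ q := Nat.le_of_dvd (Nat.pos_of_ne_zero (NeZero.ne q)) hmq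
    rw [expand χ hψ hχψ N]
    have hb : ∀ d ∈ q.divisors,
        ‖((ArithmeticFunction.moebius d : ℤ) : ℂ) * ψ d * Sm ψ (N / d)‖ ≤
          C * N * (q : ℝ) ^ (-η) := by
      intro d hd
      have a1 : ‖((ArithmeticFunction.moebius d : ℤ) : ℂ)‖ ≤ 1 := by
        rw [Complex.norm_intCast]
        exact_mod_cast ArithmeticFunction.abs_moebius_le_one
      have a2 := norm_le hψ d
      have a3 := term hε hC hδ H e1 e2 e3 hm hmq' hψ (Nat.pos_of_mem_divisors hd) hq hN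
      rw [norm_mul, norm_mul]
      calc _ ≤ 1 * 1 * ‖Sm ψ (N / d)‖ := by gcongr
        _ ≤ _ := by rw [one_mul, one_mul]; exact a3
    have hC0 : 0 ≤ C := by linarith
    calc _ ≤ ∑ d ∈ q.divisors, C * N * (q : ℝ) ^ (-η) :=
          (norm_sum_le _ _).trans (sum_le_sum hb)
      _ = q.divisors.card * (C * N * (q : ℝ) ^ (-η)) := by rw [sum_const, nsmul_eq_mul]
      _ ≤ D * (q : ℝ) ^ (η / 2) * (C * N * (q : ℝ) ^ (-η)) := by
          have := HD q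
          gcongr
      _ = D * C * N * ((q : ℝ) ^ (η / 2) * (q : ℝ) ^ (-η)) := by ring
      _ = D * C * N * (q : ℝ) ^ (-(η / 2)) := by
          rw [← Real.rpow_add hq0]; congr 2; ring
      _ ≤ _ := by
          have : D * C ≤ 2 * (D * C) := by linarith
          gcongr
  · have a1 : ‖∑ n ∈ Icc 1 N, χ n‖ ≤ N := by
      refine (norm_sum_le _ _).trans ?_
      refine (sum_le_card_nsmul (Icc 1 N) (fun n : ℕ => ‖χ n‖) 1
        fun n _ => χ.norm_le_one n).trans ?_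
      simp
    have a2 : (q : ℝ) ^ (η / 2) ≤ 2 :=
      (Real.rpow_le_rpow_of_exponent_le hq1 (by linarith)).trans hq.le
    have a3 : (q : ℝ) ^ (η / 2) * (q : ℝ) ^ (-(η / 2)) = 1 := by
      rw [← Real.rpow_add hq0]; simp
    calc _ ≤ (N : ℝ) := a1
      _ = (q : ℝ) ^ (η / 2) * N * (q : ℝ) ^ (-(η / 2)) := by
          rw [mul_right_comm, a3, one_mul]
      _ ≤ _ := by
          have : (q : ℝ) ^ (η / 2) ≤ 2 * (D * C) := by linarith
          gcongr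

end Pool.Agent.MP_c5bf7b_nt.H38
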