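import Pool.Agent.MP_c5bf7b_nt.H38.SpecB

/-! The core inequality of the Burgess argument. -/

set_option autoImplicit false

namespace Pool.Agent.MP_c5bf7b_nt.H38

open Finset

namespace CoreAux

lemma nle {m : ℕ} {χ : ℤ → ℂ} (h : PC m χ) (a : ℤ) : ‖χ a‖ ≤ 1 := by
  by_cases ha : IsCoprime a (m : ℤ)
  · exact (h.norm a ha).le
  · rw [h.zero a ha]; simp

/-- shifting the range of summation -/
lemma shift (f : ℤ → ℂ) (hf : ∀ a, ‖f a‖ ≤ 1) (N h : ℕ) :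
    ‖∑ n ∈ Icc 1 N, f (n : ℕ) - ∑ n ∈ Icc 1 N, f ((n : ℕ) + (h : ℕ))‖ ≤ 2 * h := by
  induction h with
  | zero => simp
  | succ h ih =>
    have key : ∀ M : ℕ, ∑ n ∈ Icc 1 M, f ((n : ℕ) + (h : ℕ)) -
        ∑ n ∈ Icc 1 M, f ((n : ℕ) + ((h + 1 : ℕ) : ℤ)) = f (1 + h) - f (M + 1 + h) := by
      intro M
      induction M with
      | zero => simp
      | succ M ihM =>
        rw [sum_Icc_succ_top (by omega), sum_Icc_succ_top (by omega)]
        have e1 : (((M + 1 : ℕ) : ℤ) + ((h + 1 : ℕ) : ℤ)) = ((M + 1 : ℕ) : ℤ) + 1 + h := by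
          push_cast; ring
        have e2 : (((M + 1 : ℕ) : ℤ) + (h : ℤ)) = (M : ℤ) + 1 + h := by push_cast; ring
        rw [e1, e2]
        linear_combination ihM
    have e : ∑ n ∈ Icc 1 N, f (n : ℕ) - ∑ n ∈ Icc 1 N, f ((n : ℕ) + ((h + 1 : ℕ) : ℤ)) =
        (∑ n ∈ Icc 1 N, f (n : ℕ) - ∑ n ∈ Icc 1 N, f ((n : ℕ) + (h : ℕ))) +
          (f (1 + h) - f (N + 1 + h)) := by
      rw [← key N]; ring
    rw [e]
    have h1 := norm_add_le (∑ n ∈ Icc 1 N, f (n : ℕ) - ∑ n ∈ Icc 1 N, f ((n : ℕ) + (h : ℕ)))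
      (f (1 + h) - f (N + 1 + h))
    have h2 := norm_sub_le (f (1 + h)) (f (N + 1 + h))
    have h3 := hf (1 + h)
    have h4 := hf (N + 1 + h)
    push_cast
    linarith

/-- the twisted short sums -/
noncomputable def Tw (χ : ℤ → ℂ) (B : ℕ) (w : ℕ → ℂ) (x : ℕ) : ℂ :=
  ∑ b ∈ Icc (1 : ℤ) B, w b.toNat * χ (x + b)

lemma tw_mom (χ : ℤ → ℂ) (B r : ℕ) (w : ℕ → ℂ) (hw : ∀ b, ‖w b‖ ≤ 1) (G : Finset ℕ) :
    ∑ x ∈ G, ‖Tw χ B w x‖ ^ (2 * r) ≤ mom χ B r G := by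
  have e1 : ∀ x : ℕ, ((‖Tw χ B w x‖ ^ (2 * r) : ℝ) : ℂ) =
      ∑ u ∈ box B r, ∑ v ∈ box B r,
        ((∏ i, w (u i).toNat) * (starRingEnd ℂ) (∏ i, w (v i).toNat)) * cs χ u v x := by
    intro x
    have : ((‖Tw χ B w x‖ ^ (2 * r) : ℝ) : ℂ) =
        Tw χ B w x ^ r * (starRingEnd ℂ) (Tw χ B w x ^ r) := by
      rw [Complex.mul_conj, Complex.normSq_eq_norm_sq, norm_pow, ← pow_mul, mul_comm r 2]
    rw [this]
    unfold Tw
    rw [sum_pow', map_sum, sum_mul_sum]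
    refine sum_congr rfl fun u _ => sum_congr rfl fun v _ => ?_
    unfold cs
    rw [prod_mul_distrib, prod_mul_distrib, map_mul]
    ring
  have e2 : ((∑ x ∈ G, ‖Tw χ B w x‖ ^ (2 * r) : ℝ) : ℂ) =
      ∑ u ∈ box B r, ∑ v ∈ box B r,
        ((∏ i, w (u i).toNat) * (starRingEnd ℂ) (∏ i, w (v i).toNat)) * ∑ x ∈ G, cs χ u v x := by
    rw [Complex.ofReal_sum]
    simp_rw [e1]
    rw [sum_comm]
    refine sum_congr rfl fun u _ => ?_
    rw [sum_comm]
    refine sum_congr rfl fun v _ => ?_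
    rw [mul_sum]
  have h0 : 0 ≤ ∑ x ∈ G, ‖Tw χ B w x‖ ^ (2 * r) := sum_nonneg fun x _ => by positivity
  have e3 : ∑ x ∈ G, ‖Tw χ B w x‖ ^ (2 * r) =
      ‖((∑ x ∈ G, ‖Tw χ B w x‖ ^ (2 * r) : ℝ) : ℂ)‖ := by
    rw [Complex.norm_real, Real.norm_of_nonneg h0]
  rw [e3, e2]
  unfold mom
  refine (norm_sum_le _ _).trans (sum_le_sum fun u _ => ?_)
  refine (norm_sum_le _ _).trans (sum_le_sum fun v _ => ?_)
  rw [norm_mul, norm_mul, Complex.norm_conj, norm_prod, norm_prod]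
  have a1 : ∏ i, ‖w (u i).toNat‖ ≤ 1 := prod_le_one (fun _ _ => norm_nonneg _) fun _ _ => hw _
  have a2 : ∏ i, ‖w (v i).toNat‖ ≤ 1 := prod_le_one (fun _ _ => norm_nonneg _) fun _ _ => hw _
  have a3 : 0 ≤ ∏ i, ‖w (v i).toNat‖ := prod_nonneg fun _ _ => norm_nonneg _
  have a4 : (∏ i, ‖w (u i).toNat‖) * ∏ i, ‖w (v i).toNat‖ ≤ 1 := mul_le_one₀ a1 a3 a2
  exact mul_le_of_le_one_left (norm_nonneg _) a4

lemma cop_of {mB K s : ℕ} (hK : mB ∣ K ^ (s + 1)) (n c : ℤ)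
    (h : IsCoprime (n + K * c) (mB : ℤ)) : IsCoprime n (mB : ℤ) := by
  rw [Int.isCoprime_iff_gcd_eq_one]
  by_contra hne
  obtain ⟨p, hp, hd⟩ := Nat.exists_prime_and_dvd hne
  have h1 : (p : ℤ) ∣ n := (Int.natCast_dvd_natCast.2 hd).trans (Int.gcd_dvd_left _ _)
  have h2 : (p : ℤ) ∣ (mB : ℤ) := (Int.natCast_dvd_natCast.2 hd).trans (Int.gcd_dvd_right _ _)
  have h3 : p ∣ K := hp.dvd_of_dvd_pow ((Int.natCast_dvd_natCast.1 h2).trans hK)
  have h4 : (p : ℤ) ∣ n + K * c := dvd_add h1 (Dvd.dvd.mul_right (Int.natCast_dvd_natCast.2 h3) _)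
  have h5 := h.isUnit_of_dvd' h4 h2
  rw [Int.isUnit_iff_natAbs_eq, Int.natAbs_natCast] at h5
  exact hp.one_lt.ne' h5

/-- the inner sum for one pair `(n, a)` -/
lemma inner (hP : PolyS) {s mB mM K B : ℕ} (hs : 1 ≤ s) {χB χM : ℤ → ℂ} (hB : PC mB χB)
    (hM : PC mM χM) (hK : mB ∣ K ^ (s + 1)) (hB1 : 1 ≤ B) (W : Finset (ℕ → ℂ)) (hW : W.Nonempty)
    (hnet : ∀ (z : ℂ) (F : ℕ → ℂ), Ph s z F → ∃ w ∈ W, ∀ b ≤ B, ‖F b - w b‖ ≤ 1 / B)
    (n a x : ℕ) (hx : n ≡ K * a * x [MOD mM]) :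
    ∃ w ∈ W, ‖∑ b ∈ Icc (1 : ℤ) B, χB (n + K * a * b) * χM (n + K * a * b)‖ ≤
      1 + ‖Tw χM B w x‖ := by
  by_cases hn : IsCoprime (n : ℤ) (mB : ℤ)
  · obtain ⟨n', k, hk⟩ := hn
    have hn' : (n : ℤ) * n' ≡ 1 [ZMOD mB] := by
      rw [Int.modEq_iff_dvd]
      exact ⟨k, by linear_combination -hk⟩
    obtain ⟨w, hw, hF⟩ := hnet _ _ (hP mB K s χB n n' a hB hs hK hn')
    refine ⟨w, hw, ?_⟩
    have e : ∀ b : ℤ, χM (n + K * a * b) = χM (K * a) * χM (x + b) := by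
      intro b
      rw [← hM.mul]
      apply hM.per
      have h1 : (n : ℤ) ≡ K * a * x [ZMOD mM] := by
        have := Int.natCast_modEq_iff.2 hx
        push_cast at this
        exact this
      have h2 := h1.add_right (K * a * b)
      have e2 : (K : ℤ) * a * x + K * a * b = K * a * (x + b) := by ring
      rwa [e2] at h2
    have e2 : ∑ b ∈ Icc (1 : ℤ) B, χB (n + K * a * b) * χM (n + K * a * b) =
        ∑ b ∈ Icc (1 : ℤ) B, (χB (n + K * a * b) - w b.toNat) * χM (n + K * a * b) +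
          χM (K * a) * Tw χM B w x := by
      unfold Tw
      rw [mul_sum, ← sum_add_distrib]
      refine sum_congr rfl fun b _ => ?_
      rw [e b]; ring
    rw [e2]
    refine (norm_add_le _ _).trans (add_le_add ?_ ?_)
    · refine (norm_sum_le _ _).trans ?_
      have hb : ∀ b ∈ Icc (1 : ℤ) B,
          ‖(χB (n + K * a * b) - w b.toNat) * χM (n + K * a * b)‖ ≤ 1 / (B : ℝ) := by
        intro b hb
        rw [mem_Icc] at hb
        have h1 := hF b.toNat (by omega)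
        have e3 : ((b.toNat : ℕ) : ℤ) = b := Int.toNat_of_nonneg (by omega)
        simp only [e3] at h1
        rw [norm_mul]
        exact (mul_le_of_le_one_right (norm_nonneg _) (nle hM _)).trans h1
      refine (sum_le_card_nsmul _ _ _ hb).trans ?_
      have hB0 : (0 : ℝ) < B := by exact_mod_cast hB1
      rw [Int.card_Icc, nsmul_eq_mul]
      have : ((B : ℤ) + 1 - 1).toNat = B := by omega
      rw [this]
      field_simp
      rfl
    · rw [norm_mul]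
      exact mul_le_of_le_one_left (norm_nonneg _) (nle hM _)
  · obtain ⟨w, hw⟩ := hW
    refine ⟨w, hw, ?_⟩
    have : ∑ b ∈ Icc (1 : ℤ) B, χB (n + K * a * b) * χM (n + K * a * b) = 0 := by
      refine sum_eq_zero fun b _ => ?_
      rw [hB.zero, zero_mul]
      intro h
      apply hn
      refine cop_of hK n (a * b) ?_
      rwa [← mul_assoc]
    rw [this, norm_zero]
    positivity

/-- the Hoelder step -/
lemma hold {ι : Type} (D : Finset ι) (G : Finset ℕ) (X : ι → ℕ) (hX : ∀ t ∈ D, X t ∈ G)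
    (y : ι → ℝ) (hy : ∀ t ∈ D, 0 ≤ y t) (Φ : ℕ → ℝ) (hΦ : ∀ x, 0 ≤ Φ x) (r : ℕ) (hr : 1 ≤ r)
    (hyΦ : ∀ t ∈ D, y t ^ (2 * r) ≤ Φ (X t)) :
    (∑ t ∈ D, y t) ^ (2 * r) ≤ (D.card : ℝ) ^ (2 * r - 2) *
      (((D ×ˢ D).filter fun q : ι × ι => X q.1 = X q.2).card * ∑ x ∈ G, Φ x) := by
  classical
  obtain ⟨k, rfl⟩ : ∃ k, r = k + 1 := ⟨r - 1, by omega⟩
  have h1 := pow_sum_le_card_mul_sum_pow (s := D) (f := y) hy k
  have h2 : ∑ t ∈ D, y t ^ (k + 1) ≤ ∑ t ∈ D, √(Φ (X t)) := by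
    refine sum_le_sum fun t ht => ?_
    apply Real.le_sqrt_of_sq_le
    rw [← pow_mul, mul_comm]
    exact hyΦ t ht
  have h3 : ∑ t ∈ D, √(Φ (X t)) =
      ∑ x ∈ G, ((D.filter fun t => X t = x).card : ℝ) * √(Φ x) := by
    rw [← sum_fiberwise_of_maps_to hX]
    refine sum_congr rfl fun x _ => ?_
    rw [sum_congr rfl (g := fun _ => √(Φ x)) fun t ht => by rw [(mem_filter.1 ht).2]]
    rw [sum_const, nsmul_eq_mul]
  have h4 := sum_mul_sq_le_sq_mul_sq G (fun x => ((D.filter fun t => X t = x).card : ℝ))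
    (fun x => √(Φ x))
  have h5 : ∑ x ∈ G, √(Φ x) ^ 2 = ∑ x ∈ G, Φ x :=
    sum_congr rfl fun x _ => Real.sq_sqrt (hΦ x)
  have h6 : ∑ x ∈ G, ((D.filter fun t => X t = x).card : ℝ) ^ 2 =
      ((D ×ˢ D).filter fun q : ι × ι => X q.1 = X q.2).card := by
    rw [card_eq_sum_card_fiberwise (f := fun q : ι × ι => X q.1) (t := G)
      (fun q hq => hX _ (mem_product.1 (mem_filter.1 (mem_coe.1 hq)).1).1)]
    push_cast
    refine sum_congr rfl fun x _ => ?_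
    rw [sq, ← Nat.cast_mul, ← card_product]
    congr 2
    ext q
    simp only [mem_filter, mem_product]
    constructor
    · rintro ⟨⟨a, b⟩, c, d⟩
      exact ⟨⟨⟨a, c⟩, b.trans d.symm⟩, b⟩
    · rintro ⟨⟨⟨a, c⟩, b⟩, d⟩
      exact ⟨⟨a, d⟩, c, b.symm.trans d⟩
  rw [h5, h6, ← h3] at h4
  have h7 : (∑ t ∈ D, y t) ^ (k + 1) ≤ (D.card : ℝ) ^ k * ∑ t ∈ D, √(Φ (X t)) :=
    h1.trans (mul_le_mul_of_nonneg_left h2 (by positivity))
  have h8 : 0 ≤ (∑ t ∈ D, y t) ^ (k + 1) := pow_nonneg (sum_nonneg hy) _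
  have h9 := pow_le_pow_left₀ h8 h7 2
  rw [← pow_mul, mul_pow, ← pow_mul] at h9
  have e1 : 2 * (k + 1) = (k + 1) * 2 := by ring
  have e2 : (k + 1) * 2 - 2 = k * 2 := by omega
  rw [e1, e2]
  exact h9.trans (mul_le_mul_of_nonneg_left h4 (by positivity))

end CoreAux

open CoreAux in
theorem coreOf : CoreOf := by
  classical
  intro hP hN s hs
  obtain ⟨C, hC, hnet⟩ := hN s
  refine ⟨C, hC, ?_⟩
  intro mB mM K N A B r χB χM P G hB hM hK hKM hN1 hB1 hr hPne hPA hG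
  obtain ⟨W, hW, hWc, hW1, hWn⟩ := hnet B hB1
  set I := Icc 1 N ×ˢ P with hI
  have hex : ∀ t : ℕ × ℕ, ∃ x, t ∈ I → x < mM ∧ t.1 ≡ K * t.2 * x [MOD mM] := by
    intro t
    by_cases ht : t ∈ I
    · have h1 : (K * t.2).Coprime mM :=
        Nat.Coprime.mul_left hKM (hPA _ (mem_product.1 ht).2).2
      obtain ⟨x, hx, hx2⟩ := Nat.exists_mul_mod_eq_of_coprime t.1 h1 hM.pos.ne'
      exact ⟨x, fun _ => ⟨hx, hx2.symm⟩⟩
    · exact ⟨0, fun h => absurd h ht⟩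
  choose X hX using hex
  set T : ℕ × ℕ → ℂ := fun t =>
    ∑ b ∈ Icc (1 : ℤ) B, χB (t.1 + K * t.2 * b) * χM (t.1 + K * t.2 * b) with hT
  have hexw : ∀ t : ℕ × ℕ, ∃ w, t ∈ I → w ∈ W ∧ ‖T t‖ ≤ 1 + ‖Tw χM B w (X t)‖ := by
    intro t
    by_cases ht : t ∈ I
    · obtain ⟨w, hw, h⟩ := inner hP hs hB hM hK hB1 W hW hWn t.1 t.2 (X t) (hX t ht).2
      exact ⟨w, fun _ => ⟨hw, h⟩⟩
    · exact ⟨0, fun h => absurd h ht⟩
  choose w hw using hexw
  have hχ : ∀ a, ‖χB a * χM a‖ ≤ 1 := fun a => by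
    rw [norm_mul]; exact mul_le_one₀ (nle hB a) (norm_nonneg _) (nle hM a)
  have hB0 : (0 : ℝ) < B := by exact_mod_cast hB1
  have hN0 : (0 : ℝ) < N := by exact_mod_cast hN1
  have hP0 : (0 : ℝ) < P.card := by exact_mod_cast hPne.card_pos
  have hcB : ((Icc (1 : ℤ) B).card : ℝ) = B := by
    rw [Int.card_Icc]
    have : ((B : ℤ) + 1 - 1).toNat = B := by omega
    rw [this]
  have hcI : (I.card : ℝ) = P.card * N := by
    rw [hI, card_product, Nat.card_Icc]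
    push_cast [Nat.add_sub_cancel]
    ring
  set S := Sm (fun n => χB n * χM n) N with hS
  -- averaging over the shifts
  have h1 : (P.card * B : ℝ) * ‖S‖ ≤ (P.card * B : ℝ) * (2 * K * A * B) + ∑ t ∈ I, ‖T t‖ := by
    have e1 : ((P.card * B : ℝ) : ℂ) * S - ∑ t ∈ I, T t =
        ∑ a ∈ P, ∑ b ∈ Icc (1 : ℤ) B,
          (S - ∑ n ∈ Icc 1 N, χB ((n : ℕ) + K * a * b) * χM ((n : ℕ) + K * a * b)) := by
      have e2 : ∑ t ∈ I, T t = ∑ a ∈ P, ∑ b ∈ Icc (1 : ℤ) B,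
          ∑ n ∈ Icc 1 N, χB ((n : ℕ) + K * a * b) * χM ((n : ℕ) + K * a * b) := by
        rw [hI, sum_product_right]
        refine sum_congr rfl fun a _ => ?_
        rw [sum_comm]
      rw [e2]
      simp_rw [sum_sub_distrib]
      congr 1
      rw [sum_const, sum_const, ← hcB, nsmul_eq_mul, nsmul_eq_mul]
      push_cast
      ring
    have h2 : ‖((P.card * B : ℝ) : ℂ) * S - ∑ t ∈ I, T t‖ ≤
        (P.card * B : ℝ) * (2 * K * A * B) := by
      rw [e1]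
      refine (norm_sum_le _ _).trans ?_
      have hb : ∀ a ∈ P, ‖∑ b ∈ Icc (1 : ℤ) B,
          (S - ∑ n ∈ Icc 1 N, χB ((n : ℕ) + K * a * b) * χM ((n : ℕ) + K * a * b))‖ ≤
          B * (2 * K * A * B : ℝ) := by
        intro a ha
        refine (norm_sum_le _ _).trans ?_
        have hb2 : ∀ b ∈ Icc (1 : ℤ) B,
            ‖S - ∑ n ∈ Icc 1 N, χB ((n : ℕ) + K * a * b) * χM ((n : ℕ) + K * a * b)‖ ≤
            (2 * K * A * B : ℝ) := by
          intro b hb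
          rw [mem_Icc] at hb
          obtain ⟨c, rfl⟩ : ∃ c : ℕ, b = c := ⟨b.toNat, (Int.toNat_of_nonneg (by omega)).symm⟩
          have h3 := shift (fun n => χB n * χM n) hχ N (K * a * c)
          have hc : (c : ℝ) ≤ B := by exact_mod_cast hb.2
          have ha' : (a : ℝ) ≤ A := by exact_mod_cast (hPA a ha).1
          push_cast at h3
          refine h3.trans ?_
          have : (K : ℝ) * a * c ≤ K * A * B := by gcongr
          linarith
        refine (sum_le_card_nsmul _ _ _ hb2).trans ?_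
        rw [nsmul_eq_mul, hcB]
      refine (sum_le_card_nsmul _ _ _ hb).trans ?_
      rw [nsmul_eq_mul]
      apply le_of_eq
      ring
    have h3 : ‖((P.card * B : ℝ) : ℂ) * S‖ = (P.card * B : ℝ) * ‖S‖ := by
      rw [norm_mul, Complex.norm_real, Real.norm_of_nonneg (by positivity)]
    have h4 := norm_sub_norm_le (((P.card * B : ℝ) : ℂ) * S) (∑ t ∈ I, T t)
    have h5 := norm_sum_le I T
    linarith
  set D := I.filter fun t => X t ∈ G with hD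
  set Y := ∑ t ∈ D, ‖Tw χM B (w t) (X t)‖ with hY
  have h2 : ∑ t ∈ I, ‖T t‖ ≤ P.card * N + Y + B * Bad mM K N P G := by
    rw [← sum_filter_add_sum_filter_not I fun t => X t ∈ G]
    refine add_le_add ?_ ?_
    · have : ∑ t ∈ D, ‖T t‖ ≤ ∑ t ∈ D, (1 + ‖Tw χM B (w t) (X t)‖) :=
        sum_le_sum fun t ht => (hw t (mem_filter.1 ht).1).2
      refine this.trans ?_
      rw [sum_add_distrib, sum_const, nsmul_eq_mul, mul_one, ← hcI]
      have : (D.card : ℝ) ≤ I.card := by exact_mod_cast card_filter_le _ _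
      linarith
    · have hb : ∀ t ∈ I.filter fun t => ¬ X t ∈ G, ‖T t‖ ≤ B := by
        intro t _
        refine (norm_sum_le _ _).trans ?_
        refine (sum_le_card_nsmul _ _ 1 fun b _ => hχ _).trans ?_
        rw [nsmul_eq_mul, hcB, mul_one]
      refine (sum_le_card_nsmul _ _ _ hb).trans ?_
      rw [nsmul_eq_mul, mul_comm]
      refine mul_le_mul_of_nonneg_left ?_ hB0.le
      unfold Bad
      exact_mod_cast card_le_card fun t ht => by
        rw [mem_filter] at ht ⊢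
        exact ⟨ht.1, X t, mem_sdiff.2 ⟨mem_range.2 (hX t ht.1).1, ht.2⟩, (hX t ht.1).2⟩
  have h3 := hold D G X (fun t ht => (mem_filter.1 ht).2) (fun t => ‖Tw χM B (w t) (X t)‖)
    (fun t _ => norm_nonneg _) (fun x => ∑ v ∈ W, ‖Tw χM B v x‖ ^ (2 * r))
    (fun x => sum_nonneg fun v _ => by positivity) r hr
    (fun t ht => single_le_sum (f := fun v => ‖Tw χM B v (X t)‖ ^ (2 * r))
      (fun v _ => by positivity) (hw t (mem_filter.1 ht).1).1)
  have hmom : 0 ≤ mom χM B r G :=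
    sum_nonneg fun _ _ => sum_nonneg fun _ _ => norm_nonneg _
  have h4 : ∑ x ∈ G, ∑ v ∈ W, ‖Tw χM B v x‖ ^ (2 * r) ≤
      C * (B : ℝ) ^ ((s + 1) ^ 2) * mom χM B r G := by
    rw [sum_comm]
    refine (sum_le_card_nsmul _ _ _ fun v hv => tw_mom χM B r v (hW1 v hv) G).trans ?_
    rw [nsmul_eq_mul]
    exact mul_le_mul_of_nonneg_right hWc hmom
  have h5 : (((D ×ˢ D).filter fun q : (ℕ × ℕ) × (ℕ × ℕ) => X q.1 = X q.2).card : ℝ) ≤
      En mM N P := by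
    unfold En
    exact_mod_cast card_le_card fun q hq => by
      rw [mem_filter, mem_product] at hq ⊢
      have a1 := (mem_filter.1 hq.1.1).1
      have a2 := (mem_filter.1 hq.1.2).1
      refine ⟨⟨a1, a2⟩, ?_⟩
      have b1 := ((hX _ a1).2).mul_right q.2.2
      have b2 := ((hX _ a2).2).mul_right q.1.2
      rw [← hq.2] at b2
      have e : K * q.1.2 * X q.1 * q.2.2 = K * q.2.2 * X q.1 * q.1.2 := by ring
      rw [e] at b1
      exact b1.trans b2.symm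
  have hDI : (D.card : ℝ) ≤ P.card * N := by
    rw [← hcI]; exact_mod_cast card_filter_le _ _
  have h6 : Y ^ (2 * r) ≤ (P.card * N : ℝ) ^ (2 * r - 2) *
      (En mM N P * (C * (B : ℝ) ^ ((s + 1) ^ 2) * mom χM B r G)) := by
    refine h3.trans ?_
    have : 0 ≤ ∑ x ∈ G, ∑ v ∈ W, ‖Tw χM B v x‖ ^ (2 * r) :=
      sum_nonneg fun _ _ => sum_nonneg fun _ _ => by positivity
    gcongr
  have hY0 : 0 ≤ Y := sum_nonneg fun _ _ => norm_nonneg _
  have h7 : (Y / (P.card * N * B)) ^ (2 * r) ≤ C * (B : ℝ) ^ ((s + 1) ^ 2) * En mM N P *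
      mom χM B r G / ((P.card * N : ℝ) ^ 2 * (B : ℝ) ^ (2 * r)) := by
    rw [div_pow, div_le_div_iff₀ (by positivity) (by positivity)]
    have e : ((P.card : ℝ) * N * B) ^ (2 * r) =
        (P.card * N : ℝ) ^ (2 * r - 2) * ((P.card * N : ℝ) ^ 2 * (B : ℝ) ^ (2 * r)) := by
      rw [mul_pow ((P.card : ℝ) * N), ← mul_assoc, ← pow_add]
      congr 2
      omega
    rw [e]
    have := mul_le_mul_of_nonneg_right h6
      (show (0:ℝ) ≤ (P.card * N : ℝ) ^ 2 * (B : ℝ) ^ (2 * r) by positivity)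
    refine this.trans (le_of_eq ?_)
    ring
  have h8 : Y / (P.card * N * B) ≤ (C * (B : ℝ) ^ ((s + 1) ^ 2) * En mM N P *
      mom χM B r G / ((P.card * N : ℝ) ^ 2 * (B : ℝ) ^ (2 * r))) ^ (1 / (2 * r : ℝ)) := by
    have hZ : 0 ≤ Y / (P.card * N * B) := by positivity
    have h9 := Real.rpow_le_rpow (pow_nonneg hZ _) h7
      (show (0 : ℝ) ≤ 1 / (2 * r : ℝ) by positivity)
    have e : (1 / (2 * r : ℝ)) = ((2 * r : ℕ) : ℝ)⁻¹ := by push_cast; rw [one_div]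
    rw [e] at h9 ⊢
    rwa [Real.pow_rpow_inv_natCast hZ (by omega)] at h9
  have h9 : ‖S‖ ≤ 2 * K * A * B + N / B + Bad mM K N P G / P.card +
      N * (Y / (P.card * N * B)) := by
    have e : 2 * K * A * B + N / B + Bad mM K N P G / P.card + N * (Y / (P.card * N * B)) =
        ((P.card * B : ℝ) * (2 * K * A * B) + (P.card * N + Y + B * Bad mM K N P G)) /
          (P.card * B : ℝ) := by
      field_simp
      ring
    rw [e, le_div_iff₀ (by positivity)]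
    linarith
  refine h9.trans ?_
  gcongr

end Pool.Agent.MP_c5bf7b_nt.H38
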