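import Pool.Agent.MP_c5bf7b_nt.H38.SpecB

/-! Row Ener: the multiplicative energy and the bad pairs. -/

set_option autoImplicit false

namespace Pool.Agent.MP_c5bf7b_nt.H38

open Finset

namespace EnerH

lemma eq_of_mod_div {m a b : ℕ} (h : a ≡ b [MOD m]) (h2 : a / m = b / m) : a = b := by
  rw [← Nat.div_add_mod a m, ← Nat.div_add_mod b m, h2, h]

lemma fib_le {α : Type} (S : Finset α) (g : α → ℕ) (N m : ℕ) (hN : ∀ t ∈ S, g t ≤ N)
    (hinj : ∀ t ∈ S, ∀ t' ∈ S, g t / m = g t' / m → t = t') : S.card ≤ N / m + 1 := by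
  have h := Finset.card_le_card_of_injOn (s := S) (t := range (N / m + 1)) (fun t => g t / m)
    (fun t ht => by
      simp only [coe_range, Set.mem_Iio]
      exact Nat.lt_succ_of_le (Nat.div_le_div_right (hN t ht)))
    (fun t ht t' ht' h => hinj t ht t' ht' h)
  simpa using h

lemma harm (N A : ℕ) (P : Finset ℕ) (hP : ∀ a ∈ P, a.Prime ∧ a ≤ A) :
    ∑ a ∈ P, ((N / a + 1 : ℕ) : ℝ) ≤ N * (1 + Real.log A) + A := by
  have hs : P ⊆ Icc 1 A := fun a ha => mem_Icc.2 ⟨(hP a ha).1.one_lt.le, (hP a ha).2⟩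
  have h1 : ∑ a ∈ P, ((N / a + 1 : ℕ) : ℝ) ≤ ∑ a ∈ Icc 1 A, ((N : ℝ) * (a : ℝ)⁻¹ + 1) := by
    refine le_trans (sum_le_sum fun a _ => ?_)
      (sum_le_sum_of_subset_of_nonneg hs fun a _ _ => by positivity)
    push_cast
    have := @Nat.cast_div_le ℝ _ _ _ N a
    rw [div_eq_mul_inv] at this
    linarith
  have h2 : ∑ a ∈ Icc 1 A, (a : ℝ)⁻¹ ≤ 1 + Real.log A := by
    have h := harmonic_le_one_add_log A
    rw [harmonic_eq_sum_Icc] at h
    push_cast at h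
    exact h
  rw [sum_add_distrib, ← mul_sum] at h1
  simp only [sum_const, Nat.card_Icc, add_tsub_cancel_right, nsmul_eq_mul, mul_one] at h1
  have h3 : (N : ℝ) * ∑ a ∈ Icc 1 A, (a : ℝ)⁻¹ ≤ N * (1 + Real.log A) :=
    mul_le_mul_of_nonneg_left h2 (by positivity)
  linarith

lemma diag (m N : ℕ) (P : Finset ℕ) (hP : ∀ a ∈ P, a.Coprime m) :
    ((((Icc 1 N ×ˢ P) ×ˢ (Icc 1 N ×ˢ P)).filter
      fun t : (ℕ × ℕ) × (ℕ × ℕ) => t.1.1 * t.2.2 ≡ t.2.1 * t.1.2 [MOD m]).filter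
        fun t => t.1.2 = t.2.2).card ≤ (N / m + 1) * (N * P.card) := by
  set T := (((Icc 1 N ×ˢ P) ×ˢ (Icc 1 N ×ˢ P)).filter
      fun t : (ℕ × ℕ) × (ℕ × ℕ) => t.1.1 * t.2.2 ≡ t.2.1 * t.1.2 [MOD m]).filter
        fun t => t.1.2 = t.2.2 with hT
  have hm : ∀ t ∈ T, t.1 ∈ Icc 1 N ×ˢ P ∧ t.2.1 ≤ N ∧ t.1.2 = t.2.2 ∧ t.1.1 ≡ t.2.1 [MOD m] := by
    intro t ht
    simp only [hT, mem_filter, mem_product, mem_Icc] at ht
    obtain ⟨⟨⟨h1, h2⟩, h3⟩, h4⟩ := ht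
    refine ⟨by simp only [mem_product, mem_Icc]; exact h1, h2.1.2, h4, ?_⟩
    rw [← h4] at h3
    exact Nat.ModEq.cancel_right_of_coprime (hP _ h1.2).symm h3
  have h := Finset.card_le_mul_card_image_of_maps_to (s := T) (t := Icc 1 N ×ˢ P)
    (f := Prod.fst) (fun t ht => (hm t ht).1) (N / m + 1) (fun b _ => by
      refine fib_le _ (fun t => t.2.1) N m (fun t ht => (hm t (mem_filter.1 ht).1).2.1) ?_
      intro t ht t' ht' hd
      obtain ⟨ht, e1⟩ := mem_filter.1 ht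
      obtain ⟨ht', e2⟩ := mem_filter.1 ht'
      obtain ⟨-, -, a3, a4⟩ := hm t ht
      obtain ⟨-, -, b3, b4⟩ := hm t' ht'
      have e : t.1 = t'.1 := e1.trans e2.symm
      have e5 : t.2.1 = t'.2.1 := eq_of_mod_div (a4.symm.trans (e ▸ b4)) hd
      exact Prod.ext e (Prod.ext e5 (by rw [← a3, ← b3, e])))
  simpa [card_product] using h

lemma offd (m N A : ℕ) (P : Finset ℕ) (hm : 1 ≤ m) (hP : ∀ a ∈ P, a.Prime ∧ a ≤ A) :
    ((((Icc 1 N ×ˢ P) ×ˢ (Icc 1 N ×ˢ P)).filter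
      fun t : (ℕ × ℕ) × (ℕ × ℕ) => t.1.1 * t.2.2 ≡ t.2.1 * t.1.2 [MOD m]).filter
        fun t => ¬ t.1.2 = t.2.2).card ≤
      P.card * (2 * (N * A / m) + 1) * ∑ a ∈ P, (N / a + 1) := by
  set T := (((Icc 1 N ×ˢ P) ×ˢ (Icc 1 N ×ˢ P)).filter
      fun t : (ℕ × ℕ) × (ℕ × ℕ) => t.1.1 * t.2.2 ≡ t.2.1 * t.1.2 [MOD m]).filter
        fun t => ¬ t.1.2 = t.2.2 with hT
  set M : ℕ := N * A / m with hM
  let k : (ℕ × ℕ) × (ℕ × ℕ) → ℤ := fun t => ((t.1.1 : ℤ) * t.2.2 - t.2.1 * t.1.2) / m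
  let φ : (ℕ × ℕ) × (ℕ × ℕ) → ℕ × (ℕ × ℤ) := fun t => (t.1.2, t.2.2, k t)
  have hm0 : (0 : ℤ) < m := by exact_mod_cast hm
  have hT' : ∀ t ∈ T, t.1.1 ≤ N ∧ t.2.1 ≤ N ∧ t.1.2 ∈ P ∧ t.2.2 ∈ P ∧ t.1.2 ≠ t.2.2 ∧
      (t.1.1 : ℤ) * t.2.2 - t.2.1 * t.1.2 = m * k t := by
    intro t ht
    simp only [hT, mem_filter, mem_product, mem_Icc] at ht
    obtain ⟨⟨⟨h1, h2⟩, h3⟩, h4⟩ := ht
    refine ⟨h1.1.2, h2.1.2, h1.2, h2.2, h4, ?_⟩
    have h5 := h3.symm.dvd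
    push_cast at h5
    exact (Int.mul_ediv_cancel' h5).symm
  have hmap : ∀ t ∈ T, φ t ∈ P ×ˢ (P ×ˢ Icc (-(M : ℤ)) M) := by
    intro t ht
    obtain ⟨h1, h2, h3, h4, -, h6⟩ := hT' t ht
    simp only [φ, mem_product, mem_Icc]
    refine ⟨h3, h4, ?_⟩
    have a1 : t.1.1 * t.2.2 ≤ N * A := Nat.mul_le_mul h1 (hP _ h4).2
    have a2 : t.2.1 * t.1.2 ≤ N * A := Nat.mul_le_mul h2 (hP _ h3).2
    have a3 : N * A < m * (M + 1) := by
      rw [hM]; exact Nat.lt_mul_div_succ _ hm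
    have b1 : (t.1.1 : ℤ) * t.2.2 < m * (M + 1) := by exact_mod_cast a1.trans_lt a3
    have b2 : (t.2.1 : ℤ) * t.1.2 < m * (M + 1) := by exact_mod_cast a2.trans_lt a3
    have b3 : (0 : ℤ) ≤ (t.1.1 : ℤ) * t.2.2 := by positivity
    have b4 : (0 : ℤ) ≤ (t.2.1 : ℤ) * t.1.2 := by positivity
    constructor
    · by_contra hc
      have : k t ≤ -((M : ℤ) + 1) := by omega
      nlinarith
    · by_contra hc
      have : (M : ℤ) + 1 ≤ k t := by omega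
      nlinarith
  rw [card_eq_sum_card_fiberwise hmap]
  have hf : ∀ y ∈ P ×ˢ (P ×ˢ Icc (-(M : ℤ)) M), (T.filter fun t => φ t = y).card ≤ N / y.1 + 1 := by
    intro y _
    refine fib_le _ (fun t => t.1.1) N y.1 (fun t ht => (hT' t (mem_filter.1 ht).1).1) ?_
    intro t ht t' ht' hd
    obtain ⟨ht, e1⟩ := mem_filter.1 ht
    obtain ⟨ht', e2⟩ := mem_filter.1 ht'
    obtain ⟨-, -, a3, a4, a5, a6⟩ := hT' t ht
    obtain ⟨-, -, -, -, -, b6⟩ := hT' t' ht'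
    have e := e1.trans e2.symm
    simp only [φ, Prod.mk.injEq] at e
    obtain ⟨e3, e4, e5⟩ := e
    have ey : y.1 = t.1.2 := by rw [← e1]
    rw [ey] at hd
    have hco : (t.1.2).Coprime t.2.2 := (Nat.coprime_primes (hP _ a3).1 (hP _ a4).1).2 a5
    rw [← e3, ← e4, ← e5] at b6
    have hmod : t.1.1 * t.2.2 ≡ t'.1.1 * t.2.2 [MOD t.1.2] := by
      rw [Nat.modEq_iff_dvd]
      refine ⟨(t'.2.1 : ℤ) - t.2.1, ?_⟩
      push_cast
      linear_combination b6 - a6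
    have e6 : t.1.1 = t'.1.1 :=
      eq_of_mod_div (Nat.ModEq.cancel_right_of_coprime hco hmod) hd
    have e7 : t.2.1 = t'.2.1 := by
      have h0 : (t.1.2 : ℤ) ≠ 0 := by exact_mod_cast (hP _ a3).1.ne_zero
      have : (t.2.1 : ℤ) * t.1.2 = t'.2.1 * t.1.2 := by
        rw [← e6] at b6
        linear_combination b6 - a6
      exact_mod_cast mul_right_cancel₀ h0 this
    exact Prod.ext (Prod.ext e6 e3) (Prod.ext e7 e4)
  refine (sum_le_sum hf).trans (le_of_eq ?_)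
  rw [sum_product, mul_sum]
  refine sum_congr rfl fun a _ => ?_
  simp only [sum_const, card_product, Int.card_Icc, smul_eq_mul]
  congr 2
  omega

lemma part1 (m N A : ℕ) (P : Finset ℕ) (hm : 1 ≤ m)
    (hP : ∀ a ∈ P, a.Prime ∧ a ≤ A ∧ a.Coprime m) :
    (En m N P : ℝ) ≤ P.card * N * (N / m + 1) +
      P.card * (2 * N * A / m + 1) * (N * (1 + Real.log A) + A) := by
  have h1 := diag m N P fun a ha => (hP a ha).2.2
  have h2 := offd m N A P hm fun a ha => ⟨(hP a ha).1, (hP a ha).2.1⟩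
  have h3 := harm N A P fun a ha => ⟨(hP a ha).1, (hP a ha).2.1⟩
  have h4 : En m N P ≤ (N / m + 1) * (N * P.card) +
      P.card * (2 * (N * A / m) + 1) * ∑ a ∈ P, (N / a + 1) := by
    unfold En
    rw [← card_filter_add_card_filter_not (fun t : (ℕ × ℕ) × (ℕ × ℕ) => t.1.2 = t.2.2)]
    exact add_le_add h1 h2
  have h5 : (En m N P : ℝ) ≤ (((N / m : ℕ) : ℝ) + 1) * (N * P.card) +
      P.card * (2 * ((N * A / m : ℕ) : ℝ) + 1) * ∑ a ∈ P, ((N / a + 1 : ℕ) : ℝ) := by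
    exact_mod_cast h4
  have h6 : ((N / m : ℕ) : ℝ) ≤ N / m := Nat.cast_div_le
  have h7 : 2 * ((N * A / m : ℕ) : ℝ) ≤ 2 * N * A / m := by
    have := @Nat.cast_div_le ℝ _ _ _ (N * A) m
    push_cast at this
    have e : (2 : ℝ) * N * A / m = 2 * (N * A / m) := by ring
    linarith
  refine h5.trans (add_le_add ?_ ?_)
  · calc (((N / m : ℕ) : ℝ) + 1) * (N * P.card) ≤ ((N : ℝ) / m + 1) * (N * P.card) := by gcongr
      _ = _ := by ring
  · have h8 : (0 : ℝ) ≤ ∑ a ∈ P, ((N / a + 1 : ℕ) : ℝ) := sum_nonneg fun _ _ => by positivity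
    gcongr

open Classical in
lemma part2 (m p K N : ℕ) (P : Finset ℕ) (G : Finset (ZMod p)) (hp : p.Prime) (hpm : p ∣ m)
    (hK : K.Coprime p) (hP : ∀ a ∈ P, a.Coprime p) :
    (Bad m K N P ((range m).filter fun x : ℕ => (x : ZMod p) ∈ G) : ℝ) ≤
      √((p - G.card : ℝ) * En p N P) := by
  have : Fact p.Prime := ⟨hp⟩
  unfold Bad
  set B := (Icc 1 N ×ˢ P).filter fun t : ℕ × ℕ =>
    ∃ x ∈ range m \ (range m).filter fun x : ℕ => (x : ZMod p) ∈ G,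
      t.1 ≡ K * t.2 * x [MOD m] with hB
  let φ : ℕ × ℕ → ZMod p := fun t => (t.1 : ZMod p) * ((K : ZMod p) * t.2)⁻¹
  have hne : ∀ a : ℕ, a.Coprime p → (a : ZMod p) ≠ 0 := fun a ha h =>
    ((Nat.Prime.coprime_iff_not_dvd hp).1 ha.symm) ((ZMod.natCast_eq_zero_iff a p).1 h)
  have hK0 := hne K hK
  have hBm : ∀ t ∈ B, t ∈ Icc 1 N ×ˢ P ∧ φ t ∈ Gᶜ := by
    intro t ht
    obtain ⟨h1, x, hx, h2⟩ := mem_filter.1 ht
    refine ⟨h1, ?_⟩
    have h3 : (t.1 : ZMod p) = (K : ZMod p) * t.2 * x := by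
      have := (ZMod.natCast_eq_natCast_iff _ _ _).2 (h2.of_dvd hpm)
      push_cast at this
      exact this
    have h4 := hne t.2 (hP _ (mem_product.1 h1).2)
    have h5 : φ t = x := by
      simp only [φ, h3]
      field_simp
    rw [h5, mem_compl]
    intro hG
    simp only [mem_sdiff, mem_filter, not_and] at hx
    exact hx.2 hx.1 hG
  let U := (B ×ˢ B).filter fun t => φ t.1 = φ t.2
  have hU : U.card ≤ En p N P := by
    unfold En
    refine card_le_card fun t ht => ?_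
    obtain ⟨h1, h2⟩ := mem_filter.1 ht
    obtain ⟨h3, h4⟩ := mem_product.1 h1
    have h5 := (hBm _ h3).1
    have h6 := (hBm _ h4).1
    refine mem_filter.2 ⟨mem_product.2 ⟨h5, h6⟩, ?_⟩
    rw [← ZMod.natCast_eq_natCast_iff]
    have h7 := hne _ (hP _ (mem_product.1 h5).2)
    have h8 := hne _ (hP _ (mem_product.1 h6).2)
    simp only [φ] at h2
    push_cast
    field_simp at h2
    linear_combination h2
  have hsum : ∑ y ∈ Gᶜ, (B.filter fun t => φ t = y).card ^ 2 ≤ U.card := by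
    have hmap : ∀ t ∈ U, φ t.1 ∈ Gᶜ := fun t ht =>
      (hBm _ (mem_product.1 (mem_filter.1 ht).1).1).2
    rw [card_eq_sum_card_fiberwise hmap]
    refine sum_le_sum fun y _ => ?_
    rw [sq, ← card_product]
    refine card_le_card fun t ht => ?_
    obtain ⟨h1, h2⟩ := mem_product.1 ht
    obtain ⟨h3, h4⟩ := mem_filter.1 h1
    obtain ⟨h5, h6⟩ := mem_filter.1 h2
    exact mem_filter.2 ⟨mem_filter.2 ⟨mem_product.2 ⟨h3, h5⟩, h4.trans h6.symm⟩, h4⟩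
  have hc : B.card = ∑ y ∈ Gᶜ, (B.filter fun t => φ t = y).card :=
    card_eq_sum_card_fiberwise fun t ht => (hBm t ht).2
  have hcs : B.card ^ 2 ≤ (Gᶜ).card * En p N P := by
    rw [hc]
    exact sq_sum_le_card_mul_sum_sq.trans (Nat.mul_le_mul_left _ (hsum.trans hU))
  have hG : ((Gᶜ).card : ℝ) = p - G.card := by
    have := card_add_card_compl G
    rw [ZMod.card] at this
    have h2 : (G.card : ℝ) + (Gᶜ).card = p := by exact_mod_cast this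
    linarith
  rw [← hG]
  refine Real.le_sqrt_of_sq_le ?_
  exact_mod_cast hcs

end EnerH

theorem ener : EnerS :=
  ⟨fun m N A P hm _ hP => EnerH.part1 m N A P hm hP,
    fun m p K N P G hp hpm hK hP => EnerH.part2 m p K N P G hp hpm hK hP⟩

end Pool.Agent.MP_c5bf7b_nt.H38
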