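import Pool.Agent.MP_c5bf7b_nt.H38.EszA

/-! The tangency bound for the curves of power sums. -/

set_option autoImplicit false

namespace Pool.Agent.MP_c5bf7b_nt.H38

open Finset Polynomial

namespace Esz

variable {F : Type} [Field F] {r : ℕ}

theorem ex_poly (D : ℕ) (L : Finset (Fin r → F))
    (h : L.card * ((3 * r + 1) * D + 1) < (D + 1) ^ 3) :
    ∃ P : F[X][X][X], P ≠ 0 ∧ Bd D P ∧ ∀ u ∈ L, num D u P = 0 := by
  classical
  set g : Fin (D + 1) × Fin (D + 1) × Fin (D + 1) → (L × Fin ((3 * r + 1) * D + 1) → F) :=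
    fun i t => (X ^ (i.2.2 : ℕ) * blk D t.1.1 i.1 i.2.1).coeff t.2 with hg
  have hn : ¬LinearIndependent F g := fun hl => by
    have := hl.fintype_card_le_finrank
    rw [Module.finrank_fintype_fun_eq_card] at this
    simp only [Fintype.card_prod, Fintype.card_fin, Fintype.card_coe] at this
    have e : (D + 1) ^ 3 = (D + 1) * ((D + 1) * (D + 1)) := by ring
    omega
  obtain ⟨c, hc, i0, hi0⟩ := Fintype.not_linearIndependent_iff.1 hn
  set q : Fin (D + 1) → Fin (D + 1) → F[X] := fun e b => ∑ a : Fin (D + 1),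
    monomial a (c (e, b, a)) with hq
  set Q : Fin (D + 1) → F[X][X] := fun e => ∑ b : Fin (D + 1), monomial b (q e b) with hQ
  have key : ∀ {R : Type} [CommRing R] (x : Fin (D + 1) → R),
      (∑ a : Fin (D + 1), monomial (a : ℕ) (x a)).natDegree ≤ D ∧
      (∀ a : Fin (D + 1), (∑ a : Fin (D + 1), monomial (a : ℕ) (x a)).coeff a = x a) :=
    fun x => ⟨natDegree_sum_le_of_forall_le _ _ fun a _ =>
      (natDegree_monomial_le _).trans (Nat.lt_succ_iff.1 a.2), fun a => by
        rw [finsetSum_coeff, sum_eq_single a]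
        · simp
        · intro b _ hb
          exact coeff_monomial_of_ne _ fun e => hb (Fin.ext e.symm)
        · simp⟩
  have cases : ∀ {R : Type} [CommRing R] (x : Fin (D + 1) → R) (n : ℕ),
      (∑ a : Fin (D + 1), monomial (a : ℕ) (x a)).coeff n = 0 ∨
        ∃ a, (∑ a : Fin (D + 1), monomial (a : ℕ) (x a)).coeff n = x a := fun x n => by
    by_cases hn : n < D + 1
    · exact Or.inr ⟨⟨n, hn⟩, (key x).2 ⟨n, hn⟩⟩
    · exact Or.inl (coeff_eq_zero_of_natDegree_lt ((key x).1.trans_lt (by omega)))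
  have hB : Bd D (∑ e : Fin (D + 1), monomial (e : ℕ) (Q e)) := by
    refine ⟨(key Q).1, fun e => ?_, fun e b => ?_⟩
    · rcases cases Q e with h | ⟨a, h⟩
      · simp [h]
      · rw [h]
        exact (key _).1
    · rcases cases Q e with h | ⟨a, h⟩
      · simp [h]
      · rw [h]
        rcases cases (q a) b with h | ⟨a', h⟩
        · simp only [hQ, h, natDegree_zero, Nat.zero_le]
        · simp only [hQ, h]
          exact (key _).1
  refine ⟨_, fun e => hi0 ?_, hB, fun u hu => ?_⟩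
  · have e1 := (key Q).2 i0.1
    rw [e, coeff_zero] at e1
    have e2 := (key (q i0.1)).2 i0.2.1
    have e3 := (key fun a => c (i0.1, i0.2.1, a)).2 i0.2.2
    change (Q i0.1).coeff _ = _ at e2
    change (q i0.1 i0.2.1).coeff _ = _ at e3
    rw [← e1, coeff_zero] at e2
    rw [← e2, coeff_zero] at e3
    exact e3.symm
  · ext n
    by_cases hn : n < (3 * r + 1) * D + 1
    · have e1 := congrFun hc (⟨u, hu⟩, ⟨n, hn⟩)
      rw [Finset.sum_apply, Fintype.sum_prod_type] at e1
      rw [coeff_zero, ← (show _ = (0 : F) from e1), num, sum_range, finsetSum_coeff]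
      refine sum_congr rfl fun e _ => ?_
      rw [(key Q).2 e, sum_range, finsetSum_coeff, Fintype.sum_prod_type]
      refine sum_congr rfl fun b _ => ?_
      rw [hQ, (key (q e)).2 b, hq, sum_mul, finsetSum_coeff]
      refine sum_congr rfl fun a _ => ?_
      rw [← C_mul_X_pow_eq_monomial, mul_assoc, coeff_C_mul]
      rfl
    · exact coeff_eq_zero_of_natDegree_lt ((deg_num u hB).trans_lt (by omega))

/-- `u` is tangent at `y` to the separated partner `v` -/
def Tn (u v : Fin r → F) (y : F) : Prop :=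
  SepZ u v ∧ (∀ i, y + u i ≠ 0) ∧ (∀ i, y + v i ≠ 0) ∧
    ∑ i, (y + u i)⁻¹ ^ 1 = ∑ i, (y + v i)⁻¹ ^ 1 ∧ ∑ i, (y + u i)⁻¹ ^ 2 = ∑ i, (y + v i)⁻¹ ^ 2

theorem flat {D : ℕ} {P : F[X][X][X]} (h0 : P ≠ 0) (hP : Bd D P) (hd : P.natDegree = 0)
    (L : Finset (Fin r → F)) (hL : ∀ u ∈ L, num D u P = 0) (u : Fin r → F) (Y : Finset F)
    (hY : ∀ y ∈ Y, ∃ v ∈ L, Tn u v y) : Y.card ≤ 2 * r * D := by
  classical
  set K := FractionRing F[X]
  set f : F[X] →+* K := algebraMap F[X] K with hf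
  have inj : Function.Injective f := IsFractionRing.injective _ _
  have ne : ∀ c : F, f (X + C c) ≠ 0 := fun c => (map_ne_zero_iff f inj).2 (X_add_C_ne_zero c)
  have hw : ∀ (v : Fin r → F) (i : Fin r), f (X + C (v i)) * (f (X + C (v i)))⁻¹ = 1 :=
    fun v i => mul_inv_cancel₀ (ne _)
  have hD : ∀ v : Fin r → F, f (Dn v) ≠ 0 := fun v => by
    rw [Dn, map_prod]
    exact prod_ne_zero_iff.2 fun i _ => ne _
  set φ : (Fin r → F) → K := fun v => ∑ i, (f (X + C (v i)))⁻¹ ^ 1 with hφ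
  have G0 : (P.coeff 0).map f ≠ 0 := by
    rw [Polynomial.map_ne_zero_iff inj]
    intro e
    exact h0 (by rw [eq_C_of_natDegree_eq_zero hd, e, C_0])
  have root : ∀ v ∈ L, φ v ∈ ((P.coeff 0).map f).roots.toFinset := fun v hv => by
    have e := map_num f v _ (hw v) hP
    rw [hL v hv, map_zero] at e
    have e2 := (mul_eq_zero.1 e.symm).resolve_left (pow_ne_zero _ (hD v))
    rw [ev, eq_C_of_natDegree_eq_zero hd, map_C, eval_C, coe_eval₂RingHom] at e2
    rw [Multiset.mem_toFinset, mem_roots G0, IsRoot, eval_map]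
    exact e2
  choose! v hv using hY
  have c1 : Y.card ≤ 2 * r * (((P.coeff 0).map f).roots.toFinset).card := by
    refine card_le_mul_card_image_of_maps_to (f := fun y => φ (v y))
      (fun y hy => root _ (hv y hy).1) _ fun k _ => ?_
    rcases (Y.filter fun y => φ (v y) = k).eq_empty_or_nonempty with e | ⟨y0, e⟩
    · rw [e]
      exact Nat.zero_le _
    obtain ⟨y1, y2⟩ := mem_filter.1 e
    have n0 := Nd_ne (hv y0 y1).2.1
    have sub : (Y.filter fun y => φ (v y) = k) ⊆ (Nd u (v y0)).roots.toFinset := by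
      intro y hy
      obtain ⟨y3, y4⟩ := mem_filter.1 hy
      obtain ⟨-, t1, t2, t3, -⟩ := (hv y y3).2
      have e1 : Nd u (v y) * Dn (v y0) = Nd u (v y0) * Dn (v y) := by
        refine inj ?_
        rw [map_mul, map_mul, map_Nd f u _ _ _ (hw u) (hw _), map_Nd f u _ _ _ (hw u) (hw _)]
        change _ * (φ u - φ (v y)) * _ = _ * (φ u - φ (v y0)) * _
        rw [y2, y4]
        ring
      have e2 : (Nd u (v y)).eval y = 0 := by
        have := map_Nd (evalRingHom y) u (v y) (fun i => (y + u i)⁻¹) (fun i => (y + v y i)⁻¹)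
          (fun i => by simpa using mul_inv_cancel₀ (t1 i))
          (fun i => by simpa using mul_inv_cancel₀ (t2 i))
        rw [t3, sub_self, mul_zero] at this
        exact this
      have e3 := congrArg (eval y) e1
      rw [eval_mul, eval_mul, e2, zero_mul, eval_Dn] at e3
      rw [Multiset.mem_toFinset, mem_roots n0]
      exact (mul_eq_zero.1 e3.symm).resolve_right (prod_ne_zero_iff.2 fun i _ => t2 i)
    refine (card_le_card sub).trans ((Multiset.toFinset_card_le _).trans ((card_roots' _).trans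
      ((deg_Nd _ _).trans (by omega))))
  exact c1.trans (Nat.mul_le_mul_left _ ((Multiset.toFinset_card_le _).trans
    ((card_roots' _).trans (natDegree_map_le.trans (hP.2.1 0)))))

theorem few {p : ℕ} [CharP F p] (hp : 2 * r ≤ p) {D : ℕ} (hD : D < p) (L : Finset (Fin r → F))
    (hL : L.Nonempty) (h : L.card * ((3 * r + 1) * D + 1) < (D + 1) ^ 3) :
    ∃ u ∈ L, ∀ Y : Finset F, (∀ y ∈ Y, ∃ v ∈ L, Tn u v y) → Y.card ≤ (3 * r + 1) * D := by
  classical
  by_contra hc
  push Not at hc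
  have step : ∀ P : F[X][X][X], Bd D P → (∀ u ∈ L, num D u P = 0) →
      ∀ u ∈ L, num D u (derivative P) = 0 := fun P hP h0 u hu => by
    obtain ⟨Y, hY, hcard⟩ := hc u hu
    refine eq_zero_of_natDegree_lt_card_of_eval_eq_zero' _ Y (fun y hy => ?_)
      ((deg_num u hP.deriv).trans_lt hcard)
    obtain ⟨v, hv, t0, t1, t2, t3, t4⟩ := hY y hy
    exact local_step hp hP t0 t1 t2 t3 t4 (h0 u hu) (h0 v hv)
  have main : ∀ (n : ℕ) (P : F[X][X][X]), P.natDegree = n → P ≠ 0 → Bd D P →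
      (∀ u ∈ L, num D u P = 0) → False := by
    intro n
    induction n using Nat.strong_induction_on with
    | _ n ih =>
      intro P hn h0 hP hz
      rcases n with _ | n
      · obtain ⟨u, hu⟩ := hL
        obtain ⟨Y, hY, hcard⟩ := hc u hu
        have := flat h0 hP hn L hz u Y hY
        have : 2 * r * D ≤ (3 * r + 1) * D := Nat.mul_le_mul_right _ (by omega)
        omega
      · refine ih _ ((natDegree_derivative_le P).trans_lt (by omega)) _ rfl (fun e => ?_) hP.deriv
          (step P hP hz)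
        have e1 := coeff_derivative P n
        rw [e, coeff_zero, ← hn, ← Nat.cast_succ] at e1
        rcases mul_eq_zero.1 e1.symm with e2 | e2
        · exact h0 (leadingCoeff_eq_zero.1 e2)
        · rw [CharP.cast_eq_zero_iff _ p] at e2
          have := hP.1
          exact Nat.not_dvd_of_pos_of_lt (by omega) (by omega) e2
  obtain ⟨P, p1, p2, p3⟩ := ex_poly D L h
  exact main _ P rfl p1 p2 p3

theorem rich {p : ℕ} [CharP F p] (hp : 2 * r ≤ p) {D : ℕ} (hD : D < p) (n : ℕ) :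
    ∀ (L : Finset (Fin r → F)) (R : Finset (F × F × F)), L.card = n →
      n * ((3 * r + 1) * D + 1) < (D + 1) ^ 3 →
      (∀ t ∈ R, ∃ u ∈ L, ∃ v ∈ L, Tn u v t.1 ∧ ∑ i, (t.1 + u i)⁻¹ ^ 1 = t.2.1 ∧
        ∑ i, (t.1 + u i)⁻¹ ^ 2 = t.2.2) → R.card ≤ n * ((3 * r + 1) * D) := by
  classical
  induction n with
  | zero =>
    intro L R hL _ hR
    rw [card_eq_zero.1 hL] at hR
    rw [eq_empty_of_forall_notMem (s := R) fun t ht => by simpa using hR t ht]
    simp
  | succ n ih =>
    intro L R hL h hR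
    obtain ⟨u, hu, hY⟩ := few hp hD L (card_pos.1 (by omega)) (hL ▸ h)
    set A : F × F × F → Prop := fun t => (∃ v ∈ L, Tn u v t.1) ∧
      ∑ i, (t.1 + u i)⁻¹ ^ 1 = t.2.1 ∧ ∑ i, (t.1 + u i)⁻¹ ^ 2 = t.2.2 with hA
    have c1 : (R.filter A).card ≤ (3 * r + 1) * D := by
      rw [← card_image_of_injOn (f := Prod.fst)]
      · refine hY _ fun y hy => ?_
        obtain ⟨t, ht, rfl⟩ := mem_image.1 hy
        exact (mem_filter.1 ht).2.1
      · intro t ht t' ht' e
        obtain ⟨-, a1, a2⟩ := (mem_filter.1 (mem_coe.1 ht)).2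
        obtain ⟨-, b1, b2⟩ := (mem_filter.1 (mem_coe.1 ht')).2
        exact Prod.ext e (Prod.ext (by rw [← a1, ← b1, e]) (by rw [← a2, ← b2, e]))
    have c2 := ih (L.erase u) (R.filter fun t => ¬A t) (by rw [card_erase_of_mem hu]; omega)
      (lt_of_le_of_lt (Nat.mul_le_mul_right _ n.le_succ) h) fun t ht => by
        obtain ⟨t1, t2⟩ := mem_filter.1 ht
        obtain ⟨a, ha, b, hb, h1, h2, h3⟩ := hR t t1
        refine ⟨a, mem_erase.2 ⟨?_, ha⟩, b, mem_erase.2 ⟨?_, hb⟩, h1, h2, h3⟩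
        · rintro rfl
          exact t2 ⟨⟨b, hb, h1⟩, h2, h3⟩
        · rintro rfl
          obtain ⟨s0, s1, s2, s3, s4⟩ := h1
          exact t2 ⟨⟨a, ha, sep_symm s0, s2, s1, s3.symm, s4.symm⟩, s3 ▸ h2, s4 ▸ h3⟩
    rw [← card_filter_add_card_filter_not (s := R) A, add_mul, one_mul]
    omega

end Esz

open Esz in
theorem esz : EszS := by
  intro r
  have r0 : (0 : ℝ) ≤ r := Nat.cast_nonneg r
  refine ⟨4 * (3 * r + 3) ^ 2, by nlinarith, fun p L R hp hC hL hR => ?_⟩
  have := Fact.mk hp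
  rcases Nat.eq_zero_or_pos L.card with l0 | l0
  · rw [card_eq_zero.1 l0] at hR
    rw [eq_empty_of_forall_notMem (s := R) fun t ht => by simpa using hR t ht, l0]
    simp
  set s := Nat.sqrt ((3 * r + 2) * L.card) with hs
  have s1 : s * s ≤ (3 * r + 2) * L.card := Nat.sqrt_le _
  have s2 : (3 * r + 2) * L.card < (s + 1) * (s + 1) := Nat.lt_succ_sqrt _
  have s3 : (s : ℝ) * s ≤ (3 * r + 2) * L.card := by exact_mod_cast s1
  have l1 : (1 : ℝ) ≤ L.card := by exact_mod_cast l0
  have p1 : 2 * r + 36 ≤ p := by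
    have : 2 * (r : ℝ) + 36 ≤ p := by nlinarith
    exact_mod_cast this
  have p2 : 2 * s ≤ p := by
    have a1 : 4 * ((3 * (r : ℝ) + 2) * L.card) ≤ 4 * (3 * r + 3) ^ 2 * L.card := by
      rw [← mul_assoc]
      exact mul_le_mul_of_nonneg_right (by nlinarith) (by linarith)
    have : (2 * (s : ℝ)) ^ 2 ≤ (p : ℝ) ^ 2 := by nlinarith
    exact_mod_cast le_of_pow_le_pow_left₀ two_ne_zero (Nat.cast_nonneg p) this
  have h := rich (F := ZMod p) (r := r) (p := p) (by omega) (D := s + 1) (by omega) L.card L R rfl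
    (by
      calc L.card * ((3 * r + 1) * (s + 1) + 1) ≤ L.card * ((3 * r + 2) * (s + 1)) :=
            Nat.mul_le_mul_left _ (by nlinarith)
        _ = (3 * r + 2) * L.card * (s + 1) := by ring
        _ ≤ (s + 1) * (s + 1) * (s + 1) := Nat.mul_le_mul_right _ s2.le
        _ = (s + 1) ^ 3 := by ring
        _ < (s + 1 + 1) ^ 3 := Nat.pow_lt_pow_left (by omega) (by norm_num))
    fun t ht => by
      obtain ⟨u, hu, v, hv, a0, a1, a2, a3, a4, a5⟩ := hR t ht
      exact ⟨u, hu, v, hv, ⟨a0, a1, a2, a3.1, a3.2⟩, a4, a5⟩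
  have h' : (R.card : ℝ) ≤ L.card * ((3 * r + 1) * (s + 1)) := by exact_mod_cast h
  have q1 : 1 ≤ √(L.card : ℝ) := Real.one_le_sqrt.2 l1
  have q2 : (s : ℝ) ≤ (3 * r + 2) * √(L.card : ℝ) := by
    refine le_of_pow_le_pow_left₀ two_ne_zero (by positivity) ?_
    rw [mul_pow, Real.sq_sqrt (by linarith), sq]
    exact s3.trans (mul_le_mul_of_nonneg_right (by nlinarith) (by linarith))
  refine h'.trans ?_
  rw [mul_right_comm, mul_comm]
  refine mul_le_mul_of_nonneg_right ?_ (by linarith)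
  calc (3 * (r : ℝ) + 1) * (s + 1) ≤ (3 * r + 3) * ((3 * r + 3) * √(L.card : ℝ)) :=
        mul_le_mul (by linarith) (by linarith) (by positivity) (by positivity)
    _ ≤ 4 * (3 * r + 3) ^ 2 * √(L.card : ℝ) := by
        have : 0 ≤ (3 * (r : ℝ) + 3) ^ 2 * √(L.card : ℝ) := by positivity
        nlinarith

end Pool.Agent.MP_c5bf7b_nt.H38
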