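import Pool.Agent.MP_c5bf7b_nt.H38.SpecB

/-! Row GCD: few tuples have a large product of bad primes. -/

set_option autoImplicit false

namespace Pool.Agent.MP_c5bf7b_nt.H38

open Finset

namespace Gcd

open Classical in
/-- primes of `P` modulo which `x` is congruent to an entry of `b` -/
noncomputable def SS (P : Finset ℕ) {k : ℕ} (x : ℤ) (b : Fin k → ℤ) : Finset ℕ :=
  P.filter fun p => ∃ j, (x : ZMod p) = (b j : ZMod p)

open Classical in
/-- primes of `P` modulo which the entry `i` is congruent to a later entry -/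
noncomputable def TT (P : Finset ℕ) {n : ℕ} (b : Fin n → ℤ) (i : Fin n) : Finset ℕ :=
  P.filter fun p => ∃ j, i < j ∧ (b i : ZMod p) = (b j : ZMod p)

/-- the weight -/
noncomputable def F (P : Finset ℕ) (B : ℕ) {n : ℕ} (b : Fin n → ℤ) : ℕ :=
  ∏ i, min (∏ p ∈ TT P b i, p) B

lemma F_cons (P : Finset ℕ) (B : ℕ) {n : ℕ} (x : ℤ) (b : Fin n → ℤ) :
    F P B (Fin.cons x b : Fin (n + 1) → ℤ) = min (∏ p ∈ SS P x b, p) B * F P B b := by
  unfold F
  rw [Fin.prod_univ_succ]
  have h0 : TT P (Fin.cons x b : Fin (n + 1) → ℤ) 0 = SS P x b := by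
    unfold TT SS
    ext p
    simp only [mem_filter, Fin.cons_zero, and_congr_right_iff]
    intro _
    constructor
    · rintro ⟨j, hj, h⟩
      obtain ⟨j', rfl⟩ := Fin.exists_succ_eq.mpr hj.ne'
      exact ⟨j', by simpa using h⟩
    · rintro ⟨j, h⟩
      exact ⟨j.succ, Fin.succ_pos j, by simpa using h⟩
  have h1 : ∀ i : Fin n, TT P (Fin.cons x b : Fin (n + 1) → ℤ) i.succ = TT P b i := by
    intro i
    unfold TT
    ext p
    simp only [mem_filter, Fin.cons_succ, and_congr_right_iff]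
    intro _
    constructor
    · rintro ⟨j, hj, h⟩
      have hj0 : j ≠ 0 := (lt_of_le_of_lt (Fin.zero_le _) hj).ne'
      obtain ⟨j', rfl⟩ := Fin.exists_succ_eq.mpr hj0
      exact ⟨j', Fin.succ_lt_succ_iff.mp hj, by simpa using h⟩
    · rintro ⟨j, hj, h⟩
      exact ⟨j.succ, Fin.succ_lt_succ_iff.mpr hj, by simpa using h⟩
  rw [h0]
  simp only [h1]

open Classical in
lemma count_le (S : Finset ℕ) (hS : ∀ p ∈ S, p.Prime) (B : ℕ) {k : ℕ} (b : Fin k → ℤ)
    (X : Finset ℤ) (hX : ∀ x ∈ X, 1 ≤ x ∧ x ≤ B ∧ ∀ p ∈ S, ∃ j, (x : ZMod p) = (b j : ZMod p)) :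
    X.card ≤ k ^ S.card * (B / (∏ p ∈ S, p) + 1) := by
  set D : ℕ := ∏ p ∈ S, p with hD
  have hDpos : 0 < D := Finset.prod_pos fun p hp => (hS p hp).pos
  have hch : ∀ x : X, ∃ f : S → Fin k, ∀ p : S, ((x : ℤ) : ZMod p) = (b (f p) : ZMod p) := by
    intro x
    have := (hX x x.2).2.2
    exact ⟨fun p => (this p p.2).choose, fun p => (this p p.2).choose_spec⟩
  choose f hf using hch
  have hq : ∀ x : X, (x : ℤ).toNat / D < B / D + 1 := by
    intro x
    have h := hX x x.2
    have : (x : ℤ).toNat ≤ B := by omega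
    exact Nat.lt_succ_of_le (Nat.div_le_div_right this)
  let g : X → (S → Fin k) × Fin (B / D + 1) := fun x => (f x, ⟨_, hq x⟩)
  have hg : Function.Injective g := by
    intro x y hxy
    have h1 : f x = f y := congrArg Prod.fst hxy
    have h2 : (x : ℤ).toNat / D = (y : ℤ).toNat / D := by
      have := congrArg (fun t => (t.2 : ℕ)) hxy
      simpa [g] using this
    have hx := hX x x.2
    have hy := hX y y.2
    have hdv : (D : ℤ) ∣ (y : ℤ) - x := by
      rw [hD]
      push_cast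
      apply Finset.prod_dvd_of_coprime
      · intro p hp q hq hpq
        exact Nat.isCoprime_iff_coprime.mpr ((Nat.coprime_primes (hS p hp) (hS q hq)).mpr hpq)
      · intro p hp
        have e1 := hf x ⟨p, hp⟩
        have e2 := hf y ⟨p, hp⟩
        rw [h1] at e1
        exact (ZMod.intCast_eq_intCast_iff_dvd_sub _ _ _).mp (e1.trans e2.symm)
    have hm : (x : ℤ).toNat % D = (y : ℤ).toNat % D := by
      have : (x : ℤ).toNat ≡ (y : ℤ).toNat [MOD D] := by
        rw [Nat.modEq_iff_dvd, Int.toNat_of_nonneg (by omega), Int.toNat_of_nonneg (by omega)]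
        exact hdv
      exact this
    have : (x : ℤ).toNat = (y : ℤ).toNat := by
      rw [← Nat.div_add_mod (x : ℤ).toNat D, ← Nat.div_add_mod (y : ℤ).toNat D, h2, hm]
    apply Subtype.ext
    omega
  have := Fintype.card_le_of_injective g hg
  simpa using this

open Classical in
lemma inner_le (P : Finset ℕ) (hP : ∀ p ∈ P, p.Prime) (B : ℕ) {k : ℕ} (b : Fin k → ℤ) :
    ∑ x ∈ Icc (1 : ℤ) B, min (∏ p ∈ SS P x b, p) B ≤ 2 * B * (k + 1) ^ P.card := by
  rw [← Finset.sum_fiberwise_of_maps_to (s := Icc (1 : ℤ) B) (t := P.powerset)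
    (g := fun x => SS P x b) (fun x _ => mem_powerset.mpr (filter_subset _ _))]
  have h1 : ∀ S ∈ P.powerset, ∑ x ∈ (Icc (1 : ℤ) B).filter (fun x => SS P x b = S),
      min (∏ p ∈ SS P x b, p) B ≤ 2 * B * (k ^ S.card * 1 ^ (P.card - S.card)) := by
    intro S hS
    have hSP := mem_powerset.mp hS
    rw [Finset.sum_congr rfl (g := fun _ => min (∏ p ∈ S, p) B)
      (fun x hx => by rw [(mem_filter.mp hx).2]), sum_const, smul_eq_mul]
    have hc := count_le S (fun p hp => hP p (hSP hp)) B b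
      ((Icc (1 : ℤ) B).filter (fun x => SS P x b = S)) (by
        intro x hx
        obtain ⟨h1, h2⟩ := mem_filter.mp hx
        obtain ⟨h3, h4⟩ := mem_Icc.mp h1
        refine ⟨h3, h4, fun p hp => ?_⟩
        rw [← h2] at hp
        exact (mem_filter.mp hp).2)
    set D : ℕ := ∏ p ∈ S, p
    have h2 : (B / D + 1) * min D B ≤ 2 * B := by
      have a1 : B / D * min D B ≤ B :=
        (Nat.mul_le_mul_left _ (min_le_left _ _)).trans (Nat.div_mul_le_self _ _)
      have a2 : min D B ≤ B := min_le_right _ _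
      nlinarith
    calc _ ≤ k ^ S.card * (B / D + 1) * min D B := Nat.mul_le_mul_right _ hc
      _ = k ^ S.card * ((B / D + 1) * min D B) := by ring
      _ ≤ k ^ S.card * (2 * B) := Nat.mul_le_mul_left _ h2
      _ = _ := by ring
  refine (Finset.sum_le_sum h1).trans ?_
  rw [← Finset.mul_sum, Finset.sum_pow_mul_eq_add_pow]

lemma sum_box_succ (B n : ℕ) (f : (Fin (n + 1) → ℤ) → ℕ) :
    ∑ b ∈ box B (n + 1), f b = ∑ b ∈ box B n, ∑ x ∈ Icc (1 : ℤ) B, f (Fin.cons x b) := by
  rw [← Finset.sum_product']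
  symm
  apply Finset.sum_nbij' (fun t => (Fin.cons t.2 t.1 : Fin (n + 1) → ℤ))
    (fun b => (Fin.tail b, b 0))
  · rintro ⟨b, x⟩ h
    simp only [box, mem_product, Fintype.mem_piFinset] at h ⊢
    intro i
    refine Fin.cases ?_ (fun j => ?_) i
    · simpa using h.2
    · simpa using h.1 j
  · intro b h
    simp only [box, mem_product, Fintype.mem_piFinset] at h ⊢
    exact ⟨fun i => h _, h 0⟩
  · rintro ⟨b, x⟩ _
    simp
  · intro b _
    simp
  · intro t _
    rfl

lemma sum_F_le (P : Finset ℕ) (hP : ∀ p ∈ P, p.Prime) (B K : ℕ) :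
    ∀ n, n ≤ K → ∑ b ∈ box B n, F P B b ≤ (2 * B * (K + 1) ^ P.card) ^ n := by
  intro n
  induction n with
  | zero => intro _; simp [box, F]
  | succ n ih =>
    intro hn
    rw [sum_box_succ, pow_succ]
    refine le_trans ?_ (Nat.mul_le_mul_right _ (ih (by omega)))
    rw [Finset.sum_mul]
    refine Finset.sum_le_sum fun b _ => ?_
    simp only [F_cons]
    rw [← Finset.sum_mul, mul_comm]
    refine Nat.mul_le_mul_left _ ((inner_le P hP B b).trans ?_)
    exact Nat.mul_le_mul_left _ (Nat.pow_le_pow_left (by omega) _)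

open Classical in
lemma half_le {R : Type} {n : ℕ} (c : Fin n → R) (h : ∀ i, ∃ j, j ≠ i ∧ c i = c j) :
    n ≤ 2 * (univ.filter fun i => ∃ j, i < j ∧ c i = c j).card := by
  choose g hg using h
  have h1 : (univ.filter fun i => ¬ ∃ j, i < j ∧ c i = c j).card ≤
      (univ.filter fun i => ∃ j, i < j ∧ c i = c j).card := by
    apply Finset.card_le_card_of_injOn g
    · intro i hi
      simp only [coe_filter, mem_univ, true_and, Set.mem_setOf_eq] at hi ⊢
      refine ⟨i, ?_, (hg i).2.symm⟩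
      rcases lt_or_gt_of_ne (hg i).1 with h | h
      · exact h
      · exact absurd ⟨g i, h, (hg i).2⟩ hi
    · intro i hi i' hi' hii
      simp only [coe_filter, mem_univ, true_and, Set.mem_setOf_eq] at hi hi'
      have e : c i = c i' := by rw [(hg i).2, (hg i').2, hii]
      rcases lt_trichotomy i i' with h | h | h
      · exact absurd ⟨i', h, e⟩ hi
      · exact h
      · exact absurd ⟨i, h, e.symm⟩ hi'
  have h2 := Finset.card_filter_add_card_filter_not (s := (univ : Finset (Fin n)))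
    (fun i => ∃ j, i < j ∧ c i = c j)
  rw [card_univ, Fintype.card_fin] at h2
  omega

open Classical in
lemma pow_le_F (P T : Finset ℕ) (hP : ∀ p ∈ P, p.Prime) (hT : T ⊆ P) (B r : ℕ) (hB : 1 ≤ B)
    (b : Fin (r + r) → ℤ) (h : ∀ p ∈ T, ∀ i, ∃ j, j ≠ i ∧ (b i : ZMod p) = (b j : ZMod p))
    (hQ : B ≤ ∏ p ∈ T, p) : B ^ r ≤ F P B b := by
  have hpos : ∀ S : Finset ℕ, S ⊆ P → 1 ≤ ∏ p ∈ S, p := fun S hS =>
    Finset.prod_pos fun p hp => (hP p (hS hp)).pos
  rcases hB.eq_or_lt with h1 | h1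
  · subst h1
    rw [one_pow]
    unfold F
    exact Finset.one_le_prod' fun i _ => le_min (hpos (TT P b i) (filter_subset _ _)) le_rfl
  set Q : ℕ := ∏ p ∈ T, p with hQd
  -- the products restricted to `T`
  let D : Fin (r + r) → ℕ := fun i => ∏ p ∈ TT T b i, p
  have hsub : ∀ i, TT T b i ⊆ TT P b i := fun i => filter_subset_filter _ hT
  have hD1 : ∀ i, 1 ≤ D i := fun i => hpos _ ((filter_subset _ _).trans hT)
  have hDQ : ∀ i, D i ≤ Q := fun i =>
    Finset.prod_le_prod_of_subset_of_one_le' (filter_subset _ _)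
      fun p hp _ => (hP p (hT hp)).pos
  have hDP : ∀ i, D i ≤ ∏ p ∈ TT P b i, p := fun i =>
    Finset.prod_le_prod_of_subset_of_one_le' (hsub i)
      fun p hp _ => (hP p (filter_subset _ _ hp)).pos
  have hprod : Q ^ r ≤ ∏ i, D i := by
    have e : ∏ i, D i = ∏ p ∈ T, p ^ (univ.filter fun i : Fin (r + r) =>
        ∃ j, i < j ∧ (b i : ZMod p) = (b j : ZMod p)).card := by
      simp only [D, TT, Finset.prod_filter]
      rw [Finset.prod_comm]
      refine Finset.prod_congr rfl fun p _ => ?_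
      rw [← Finset.prod_filter, prod_const]
    rw [e, hQd, ← Finset.prod_pow]
    refine Finset.prod_le_prod' fun p hp => ?_
    have := half_le (fun i => (b i : ZMod p)) (h p hp)
    refine Nat.pow_le_pow_right (hP p (hT hp)).pos (Nat.le_of_mul_le_mul_left ?_ two_pos)
    rw [two_mul r]
    convert this
  have hQ1 : (1 : ℝ) < Q := by exact_mod_cast h1.trans_le hQ
  have hB1 : (1 : ℝ) < B := by exact_mod_cast h1
  set θ : ℝ := Real.logb Q B with hθ
  have hQθ : (Q : ℝ) ^ θ = B := Real.rpow_logb (by linarith) hQ1.ne' (by linarith)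
  have hθ0 : 0 ≤ θ := Real.logb_nonneg hQ1 hB1.le
  have hθ1 : θ ≤ 1 := by
    rw [hθ, Real.logb_le_iff_le_rpow hQ1 (by linarith), Real.rpow_one]
    exact_mod_cast hQ
  have hi : ∀ i, (D i : ℝ) ^ θ ≤ ((min (∏ p ∈ TT P b i, p) B : ℕ) : ℝ) := by
    intro i
    have a1 : (1 : ℝ) ≤ D i := by exact_mod_cast hD1 i
    rw [Nat.cast_min]
    apply le_min
    · calc (D i : ℝ) ^ θ ≤ (D i : ℝ) ^ (1 : ℝ) := Real.rpow_le_rpow_of_exponent_le a1 hθ1
        _ = D i := Real.rpow_one _
        _ ≤ _ := by exact_mod_cast hDP i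
    · rw [← hQθ]
      exact Real.rpow_le_rpow (by linarith) (by exact_mod_cast hDQ i) hθ0
  have hfin : ((B ^ r : ℕ) : ℝ) ≤ (F P B b : ℝ) := by
    calc ((B ^ r : ℕ) : ℝ) = ((Q : ℝ) ^ θ) ^ r := by rw [hQθ]; push_cast; rfl
      _ = ((Q : ℝ) ^ r) ^ θ := by
        rw [← Real.rpow_natCast, ← Real.rpow_natCast, ← Real.rpow_mul (by linarith),
          ← Real.rpow_mul (by linarith), mul_comm]
      _ ≤ (∏ i, (D i : ℝ)) ^ θ :=
        Real.rpow_le_rpow (by positivity) (by exact_mod_cast hprod) hθ0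
      _ = ∏ i, (D i : ℝ) ^ θ := (Real.finset_prod_rpow _ _ (fun i _ => by positivity) _).symm
      _ ≤ ∏ i, ((min (∏ p ∈ TT P b i, p) B : ℕ) : ℝ) :=
        Finset.prod_le_prod (fun i _ => by positivity) fun i _ => hi i
      _ = _ := by unfold F; rw [Nat.cast_prod]
  exact_mod_cast hfin

end Gcd

open Gcd in
theorem gcdS : GcdS := by
  classical
  intro m B r hB
  set P := m.primeFactors with hPd
  have hP : ∀ p ∈ P, p.Prime := fun p hp => Nat.prime_of_mem_primeFactors hp
  set X := (box B r ×ˢ box B r).filter fun t => B ≤ Qb m t.1 t.2 with hX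
  let φ : (Fin r → ℤ) × (Fin r → ℤ) → Fin (r + r) → ℤ :=
    fun t i => Sum.elim t.1 t.2 (finSumFinEquiv.symm i)
  have hφ : Function.Injective φ := by
    rintro ⟨u, v⟩ ⟨u', v'⟩ h
    have h1 : ∀ s, Sum.elim u v s = Sum.elim u' v' s := fun s => by
      simpa [φ] using congrFun h (finSumFinEquiv s)
    exact Prod.ext (funext fun i => h1 (Sum.inl i)) (funext fun i => h1 (Sum.inr i))
  have hsub : X.image φ ⊆ box B (r + r) := by
    intro b hb
    obtain ⟨t, ht, rfl⟩ := mem_image.mp hb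
    have h1 := mem_product.mp (mem_filter.mp ht).1
    simp only [box, Fintype.mem_piFinset] at h1 ⊢
    intro i
    simp only [φ]
    rcases finSumFinEquiv.symm i with s | s
    · exact h1.1 s
    · exact h1.2 s
  have hlow : ∀ b ∈ X.image φ, B ^ r ≤ F P B b := by
    intro b hb
    obtain ⟨t, ht, rfl⟩ := mem_image.mp hb
    refine pow_le_F P (P.filter fun p => ¬ Sep p t.1 t.2) hP (filter_subset _ _) B r hB _ ?_
      (mem_filter.mp ht).2
    intro p hp i
    have h2 := (mem_filter.mp hp).2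
    unfold Sep SepZ at h2
    push Not at h2
    obtain ⟨j, hj, e⟩ := h2 (finSumFinEquiv.symm i)
    refine ⟨finSumFinEquiv j, fun h => hj (by rw [← h]; simp), ?_⟩
    simp only [φ, Equiv.symm_apply_apply]
    revert e
    rcases finSumFinEquiv.symm i with s | s <;> rcases j with s' | s' <;> simp
  have h1 : X.card * B ^ r ≤ (2 * B * (2 * r + 1) ^ P.card) ^ (r + r) := by
    calc X.card * B ^ r = (X.image φ).card • B ^ r := by
          rw [card_image_of_injective _ hφ, smul_eq_mul]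
      _ ≤ ∑ b ∈ X.image φ, F P B b := Finset.card_nsmul_le_sum _ _ _ hlow
      _ ≤ ∑ b ∈ box B (r + r), F P B b := Finset.sum_le_sum_of_subset hsub
      _ ≤ _ := sum_F_le P hP B (2 * r) (r + r) (by omega)
  have h2 : X.card ≤ (2 * (2 * r + 1) ^ P.card) ^ (2 * r) * B ^ r := by
    apply Nat.le_of_mul_le_mul_right _ (pow_pos hB r)
    refine h1.trans (le_of_eq ?_)
    rw [two_mul r, mul_right_comm 2 B, mul_pow, pow_add B]
    ring
  exact_mod_cast h2

end Pool.Agent.MP_c5bf7b_nt.H38
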