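import Pool.Agent.MP_c5bf7b_nt.H38.SpecB

/-! Complete sums modulo a higher power of a prime. -/

namespace Pool.Agent.MP_c5bf7b_nt.H38

open Finset

namespace HP

theorem shift_one (m : ℕ) (f : ℤ → ℂ) (hf : ∀ x, f (x + m) = f x) :
    ∑ x ∈ range m, f (x + 1) = ∑ x ∈ range m, f x := by
  have h1 := Finset.sum_range_succ (fun x : ℕ => f x) m
  have h2 := Finset.sum_range_succ' (fun x : ℕ => f x) m
  have h3 := hf 0
  simp only [Nat.cast_add, Nat.cast_one, Nat.cast_zero, zero_add] at h1 h2 h3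
  rw [h1, h3] at h2
  exact (add_right_cancel h2).symm

theorem shift (m : ℕ) (f : ℤ → ℂ) (hf : ∀ x, f (x + m) = f x) (c : ℕ) :
    ∑ x ∈ range m, f (x + c) = ∑ x ∈ range m, f x := by
  induction c with
  | zero => simp
  | succ c ih =>
    rw [← ih, ← shift_one m (fun x => f (x + c)) fun x => by
      rw [add_right_comm, hf]]
    refine Finset.sum_congr rfl fun x _ => ?_
    congr 1
    push_cast
    ring

open Polynomial in
theorem card_zero {F ι : Type} [Field F] [Fintype ι] [DecidableEq ι] (b e : ι → F) (i₀ : ι)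
    (he : e i₀ ≠ 0) (hb : ∀ j, j ≠ i₀ → b i₀ ≠ b j) (s : Finset F)
    (hs : ∀ y ∈ s, (∀ i, y + b i ≠ 0) ∧ ∑ i, e i * (y + b i)⁻¹ = 0) :
    s.card ≤ Fintype.card ι := by
  classical
  set N : F[X] := ∑ i, C (e i) * ∏ j ∈ univ.erase i, (X + C (b j)) with hN
  have hev : ∀ y, N.eval y = ∑ i, e i * ∏ j ∈ univ.erase i, (y + b j) := by
    intro y
    simp [hN, eval_finsetSum, eval_prod]
  have hN0 : N ≠ 0 := by
    intro h
    have h1 := hev (-b i₀)
    rw [h, eval_zero, Finset.sum_eq_single i₀] at h1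
    · refine mul_ne_zero he (Finset.prod_ne_zero_iff.2 fun j hj h0 => ?_) h1.symm
      exact hb j (Finset.ne_of_mem_erase hj) (by linear_combination -h0)
    · intro i _ hi
      rw [Finset.prod_eq_zero (i := i₀) (Finset.mem_erase.2 ⟨hi.symm, mem_univ _⟩) (by ring),
        mul_zero]
    · simp
  have hdeg : N.natDegree ≤ Fintype.card ι := by
    refine natDegree_sum_le_of_forall_le _ _ fun i _ => ?_
    refine (natDegree_C_mul_le _ _).trans ((natDegree_prod_le _ _).trans ?_)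
    simp only [natDegree_X_add_C, Finset.sum_const, smul_eq_mul, mul_one]
    exact Finset.card_le_univ _
  refine le_trans ?_ hdeg
  refine le_trans (Finset.card_le_card (t := N.roots.toFinset) fun y hy => ?_)
    ((Multiset.toFinset_card_le _).trans (card_roots' N))
  obtain ⟨h1, h2⟩ := hs y hy
  rw [Multiset.mem_toFinset, mem_roots hN0, IsRoot.def, hev]
  have : ∑ i, e i * ∏ j ∈ univ.erase i, (y + b j) =
      (∑ i, e i * (y + b i)⁻¹) * ∏ j, (y + b j) := by
    rw [Finset.sum_mul]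
    refine Finset.sum_congr rfl fun i _ => ?_
    rw [← Finset.mul_prod_erase univ (fun j => y + b j) (mem_univ i)]
    field_simp [h1 i]
  rw [this, h2, zero_mul]

theorem norm_le {m : ℕ} {χ : ℤ → ℂ} (h : PC m χ) (n : ℤ) : ‖χ n‖ ≤ 1 := by
  by_cases hn : IsCoprime n (m : ℤ)
  · exact (h.norm n hn).le
  · rw [h.zero n hn]; simp

theorem cs_le {m r : ℕ} {χ : ℤ → ℂ} (h : PC m χ) (u v : Fin r → ℤ) (x : ℤ) :
    ‖cs χ u v x‖ ≤ 1 := by
  unfold cs
  rw [norm_mul, RCLike.norm_conj, norm_prod, norm_prod]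
  exact mul_le_one₀ (Finset.prod_le_one (fun _ _ => norm_nonneg _) fun _ _ => norm_le h _)
    (Finset.prod_nonneg fun _ _ => norm_nonneg _)
    (Finset.prod_le_one (fun _ _ => norm_nonneg _) fun _ _ => norm_le h _)

theorem cop {p k : ℕ} [hp : Fact p.Prime] (n : ℤ) :
    IsCoprime n ((p ^ (k + 1) : ℕ) : ℤ) ↔ (n : ZMod p) ≠ 0 := by
  rw [Nat.cast_pow, IsCoprime.pow_right_iff (Nat.succ_pos k), Ne, ZMod.intCast_zmod_eq_zero_iff_dvd,
    isCoprime_comm, Prime.coprime_iff_not_dvd (Nat.prime_iff_prime_int.1 hp.out)]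

/-- the additive character attached to `χ` -/
theorem exi {p k : ℕ} [hp : Fact p.Prime] {χ : ℤ → ℂ} (h : PC (p ^ (k + 2)) χ) :
    ∃ ξ : ZMod p → ℂ, ξ 0 = 1 ∧ (∀ s t, ξ (s + t) = ξ s * ξ t) ∧
      (∀ t, (starRingEnd ℂ) (ξ t) = ξ (-t)) ∧ (∃ t, ξ t ≠ 1) ∧
      ∀ n z : ℤ, χ (n + p ^ (k + 1) * z) = χ n * ξ (z * (n : ZMod p)⁻¹) := by
  set ξ : ZMod p → ℂ := fun t => χ (1 + p ^ (k + 1) * (t.val : ℤ)) with hξ
  have hc : ∀ t : ℤ, ξ t = χ (1 + p ^ (k + 1) * t) := by
    intro t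
    refine h.per _ _ (Int.ModEq.add_left _ ?_)
    have h1 : (((t : ZMod p).val : ℕ) : ℤ) ≡ t [ZMOD p] := by
      rw [← ZMod.intCast_eq_intCast_iff]; simp
    have h2 := h1.mul_left' (c := (p : ℤ) ^ (k + 1))
    rwa [show ((p ^ (k + 2) : ℕ) : ℤ) = (p : ℤ) ^ (k + 1) * p by push_cast; ring]
  have h0 : ξ 0 = 1 := by simpa [h.one] using hc 0
  have hadd : ∀ s t, ξ (s + t) = ξ s * ξ t := by
    intro s t
    obtain ⟨s, rfl⟩ := ZMod.intCast_surjective s
    obtain ⟨t, rfl⟩ := ZMod.intCast_surjective t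
    rw [← Int.cast_add, hc, hc, hc, ← h.mul]
    refine h.per _ _ (Int.modEq_iff_dvd.2 ⟨p ^ k * s * t, ?_⟩)
    push_cast; ring
  have hn : ∀ t, ‖ξ t‖ = 1 := by
    intro t
    refine h.norm _ ((cop _).2 ?_)
    simp
  refine ⟨ξ, h0, hadd, fun t => ?_, ?_, fun n z => ?_⟩
  · have h1 : ξ t * ξ (-t) = 1 := by rw [← hadd, add_neg_cancel, h0]
    have h2 : ξ t * (starRingEnd ℂ) (ξ t) = 1 := by
      rw [Complex.mul_conj, Complex.normSq_eq_norm_sq, hn]; simp
    have h3 : ξ t ≠ 0 := left_ne_zero_of_mul_eq_one h1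
    exact mul_left_cancel₀ h3 (h2.trans h1.symm)
  · obtain ⟨a, -, ha1, ha2⟩ := h.prim p hp.out (dvd_pow_self p (by omega))
    rw [pow_succ p (k + 1), Nat.mul_div_cancel _ hp.out.pos] at ha1
    obtain ⟨t, ht⟩ := Int.modEq_iff_dvd.1 ha1.symm
    refine ⟨t, ?_⟩
    rw [hc]
    have : 1 + (p : ℤ) ^ (k + 1) * t = a := by push_cast at ht; linear_combination -ht
    rwa [this]
  · by_cases hz : (n : ZMod p) = 0
    · rw [h.zero n (by rw [cop]; simpa using hz), zero_mul]
      exact h.zero _ (by rw [cop]; simp [hz])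
    · obtain ⟨w, hw⟩ := ZMod.intCast_surjective (n : ZMod p)⁻¹
      have h1 : n * w ≡ 1 [ZMOD p] := by
        rw [← ZMod.intCast_eq_intCast_iff]; push_cast; rw [hw, mul_inv_cancel₀ hz]
      obtain ⟨c, hc'⟩ := Int.modEq_iff_dvd.1 h1.symm
      rw [← hw, ← Int.cast_mul, hc, ← h.mul]
      refine h.per _ _ (Int.modEq_iff_dvd.2 ⟨z * c, ?_⟩)
      push_cast
      linear_combination (p : ℤ) ^ (k + 1) * z * hc'

theorem xi_sum {A ι : Type} [AddCommMonoid A] (ξ : A → ℂ) (h0 : ξ 0 = 1)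
    (hadd : ∀ s t, ξ (s + t) = ξ s * ξ t) (s : Finset ι) (f : ι → A) :
    ∏ i ∈ s, ξ (f i) = ξ (∑ i ∈ s, f i) := by
  classical
  induction s using Finset.induction_on with
  | empty => simp [h0]
  | insert i s hi ih => rw [Finset.prod_insert hi, Finset.sum_insert hi, hadd, ih]

theorem card_class (p q : ℕ) (hp : 0 < p) (y : ZMod p) :
    ((range (q * p)).filter fun x : ℕ => (x : ZMod p) = y).card ≤ q := by
  rw [← Finset.card_range q]
  refine Finset.card_le_card_of_injOn (fun x => x / p) (fun x hx => ?_) (fun x hx x' hx' h => ?_)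
  · simp only [coe_filter, mem_range, Set.mem_ofPred_eq, coe_range, Set.mem_Iio] at hx ⊢
    rw [Finset.card_range] at hx
    exact (Nat.div_lt_iff_lt_mul hp).2 hx.1
  · simp only [coe_filter, mem_range, Set.mem_ofPred_eq] at hx hx'
    have h1 : x % p = x' % p := (ZMod.natCast_eq_natCast_iff' x x' p).1 (hx.2.trans hx'.2.symm)
    have h2 : x / p = x' / p := h
    rw [← Nat.div_add_mod x p, ← Nat.div_add_mod x' p, h1, h2]

end HP

open HP in
theorem hp : HPS := by
  classical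
  intro p a r χ u v hp ha h hsep
  obtain ⟨k, rfl⟩ : ∃ k, a = k + 2 := ⟨a - 2, by omega⟩
  have : Fact p.Prime := ⟨hp⟩
  obtain ⟨ξ, h0, hadd, hconj, ⟨t₀, ht₀⟩, hmul⟩ := exi h
  set g : ZMod p → ZMod p := fun y => ∑ i, (y + u i)⁻¹ - ∑ i, (y + v i)⁻¹ with hg
  have hcs : ∀ x z : ℤ, cs χ u v (x + p ^ (k + 1) * z) = cs χ u v x * ξ (z * g x) := by
    intro x z
    unfold cs
    simp only [add_right_comm x _ (u _), add_right_comm x _ (v _), hmul, Finset.prod_mul_distrib,
      xi_sum ξ h0 hadd, map_mul, hconj, hg]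
    rw [mul_sub, sub_eq_add_neg, hadd, Finset.mul_sum, Finset.mul_sum]
    push_cast
    ring
  set T : Finset (ZMod p) :=
    univ.filter fun y => ((∀ i, y + u i ≠ 0) ∧ ∀ i, y + v i ≠ 0) ∧ g y = 0 with hT
  have hTc : T.card ≤ 2 * r := by
    obtain ⟨i₀, hi₀⟩ := hsep
    have := card_zero (Sum.elim (fun i => (u i : ZMod p)) fun i => (v i : ZMod p))
      (Sum.elim (fun _ => 1) fun _ => -1) i₀ (by cases i₀ <;> simp) hi₀ T (fun y hy => by
        obtain ⟨⟨h1, h2⟩, h3⟩ := (Finset.mem_filter.1 hy).2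
        refine ⟨fun i => by cases i <;> simp [h1, h2], ?_⟩
        simpa [Fintype.sum_sum_type, hg, sub_eq_add_neg] using h3)
    simpa [two_mul] using this
  have hzero : ∀ y, y ∉ T →
      ∑ x ∈ (range (p ^ (k + 2))).filter (fun x : ℕ => (x : ZMod p) = y), cs χ u v x = 0 := by
    intro y hy
    by_cases hy1 : (∀ i, y + u i ≠ 0) ∧ ∀ i, y + v i ≠ 0
    · have hy2 : g y ≠ 0 := fun h3 => hy (Finset.mem_filter.2 ⟨mem_univ _, hy1, h3⟩)
      set f : ℤ → ℂ := fun x => if (x : ZMod p) = y then cs χ u v x else 0 with hf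
      have hper : ∀ x, f (x + (p ^ (k + 2) : ℕ)) = f x := by
        intro x
        have h1 := hcs x p
        simp only [Int.cast_natCast, ZMod.natCast_self, zero_mul, h0, mul_one] at h1
        simp only [hf]
        rw [show ((p ^ (k + 2) : ℕ) : ℤ) = (p : ℤ) ^ (k + 1) * p by push_cast; ring, h1]
        simp
      have h1 := shift _ f hper (p ^ (k + 1) * (t₀ * (g y)⁻¹).val)
      have h2 : ∀ x : ℤ, f (x + (p ^ (k + 1) * (t₀ * (g y)⁻¹).val : ℕ)) = f x * ξ t₀ := by
        intro x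
        simp only [hf]
        rw [Nat.cast_mul, Nat.cast_pow, hcs]
        by_cases hx : (x : ZMod p) = y
        · simp [hx, hy2]
        · simp [hx]
      simp only [h2, ← Finset.sum_mul] at h1
      have h3 : ∑ x ∈ range (p ^ (k + 2)), f x = 0 := by
        by_contra h4
        exact ht₀ (mul_left_cancel₀ h4 (h1.trans (mul_one _).symm))
      rw [Finset.sum_filter]
      simpa [hf] using h3
    · refine Finset.sum_eq_zero fun x hx => ?_
      have hx' : (x : ZMod p) = y := (Finset.mem_filter.1 hx).2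
      rw [not_and_or] at hy1
      unfold cs
      rcases hy1 with h1 | h1
      · obtain ⟨i, hi⟩ := not_forall.1 h1
        rw [Finset.prod_eq_zero (mem_univ i) (h.zero _ (by rw [cop]; push_cast; rwa [← hx'] at hi)),
          zero_mul]
      · obtain ⟨i, hi⟩ := not_forall.1 h1
        rw [Finset.prod_eq_zero (f := fun i => χ (x + v i)) (mem_univ i)
          (h.zero _ (by rw [cop]; push_cast; rwa [← hx'] at hi)), map_zero, mul_zero]
  rw [← Finset.sum_fiberwise (range (p ^ (k + 2))) (fun x : ℕ => (x : ZMod p)),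
    ← Finset.sum_subset (Finset.subset_univ T) fun y _ hy => hzero y hy]
  refine (norm_sum_le _ _).trans ?_
  refine (Finset.sum_le_card_nsmul _ _ ((p : ℝ) ^ (k + 1)) fun y _ => ?_).trans ?_
  · refine (norm_sum_le _ _).trans ?_
    refine (Finset.sum_le_card_nsmul _ _ 1 fun (x : ℕ) _ => cs_le h u v x).trans ?_
    rw [nsmul_eq_mul, mul_one, pow_succ p (k + 1)]
    exact_mod_cast card_class p (p ^ (k + 1)) hp.pos y
  · rw [nsmul_eq_mul, show k + 2 - 1 = k + 1 from rfl]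
    refine mul_le_mul_of_nonneg_right ?_ (by positivity)
    exact_mod_cast hTc

end Pool.Agent.MP_c5bf7b_nt.H38
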