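import Pool.Agent.MP_c5bf7b_nt.H38.SpecB

/-! The moments of the complete sums (rows MOM1 and MOM3). -/

set_option autoImplicit false

namespace Pool.Agent.MP_c5bf7b_nt.H38

open Finset

namespace MomK

theorem crt (a b : ℕ) (hab : a.Coprime b) (ha : 0 < a) (hb : 0 < b) (f g : ℕ → ℂ)
    (hf : ∀ x y, x ≡ y [MOD a] → f x = f y) (hg : ∀ x y, x ≡ y [MOD b] → g x = g y) :
    ∑ x ∈ range (a * b), f x * g x = (∑ x ∈ range a, f x) * ∑ x ∈ range b, g x := by
  rw [sum_mul_sum, ← sum_product']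
  refine sum_nbij' (fun x => (x % a, x % b)) (fun t => (Nat.chineseRemainder hab t.1 t.2 : ℕ))
    ?_ ?_ ?_ ?_ ?_
  · intro x _
    simp only [mem_product, mem_range]
    exact ⟨Nat.mod_lt _ ha, Nat.mod_lt _ hb⟩
  · intro t _
    exact mem_range.2 (Nat.chineseRemainder_lt_mul hab _ _ ha.ne' hb.ne')
  · intro x hx
    have h := (Nat.chineseRemainder hab (x % a) (x % b)).2
    have h1 : (Nat.chineseRemainder hab (x % a) (x % b) : ℕ) ≡ x [MOD a * b] :=
      (Nat.modEq_and_modEq_iff_modEq_mul hab).1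
        ⟨h.1.trans (Nat.mod_modEq _ _), h.2.trans (Nat.mod_modEq _ _)⟩
    exact Nat.ModEq.eq_of_lt_of_lt h1 (Nat.chineseRemainder_lt_mul hab _ _ ha.ne' hb.ne')
      (mem_range.1 hx)
  · intro t ht
    simp only [mem_product, mem_range] at ht
    have h := (Nat.chineseRemainder hab t.1 t.2).2
    refine Prod.ext ?_ ?_
    · have := h.1
      unfold Nat.ModEq at this
      simpa [Nat.mod_eq_of_lt ht.1] using this
    · have := h.2
      unfold Nat.ModEq at this
      simpa [Nat.mod_eq_of_lt ht.2] using this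
  · intro x _
    rw [hf x (x % a) (Nat.mod_modEq _ _).symm, hg x (x % b) (Nat.mod_modEq _ _).symm]

theorem norm_le {m : ℕ} {χ : ℤ → ℂ} (h : PC m χ) (a : ℤ) : ‖χ a‖ ≤ 1 := by
  by_cases ha : IsCoprime a (m : ℤ)
  · exact (h.norm a ha).le
  · rw [h.zero a ha]; simp

theorem cs_le {m : ℕ} {χ : ℤ → ℂ} (h : PC m χ) {r : ℕ} (u v : Fin r → ℤ) (x : ℤ) :
    ‖cs χ u v x‖ ≤ 1 := by
  unfold cs
  rw [norm_mul, Complex.norm_conj, norm_prod, norm_prod]
  exact mul_le_one₀ (prod_le_one (fun _ _ => norm_nonneg _) fun _ _ => norm_le h _)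
    (prod_nonneg fun _ _ => norm_nonneg _)
    (prod_le_one (fun _ _ => norm_nonneg _) fun _ _ => norm_le h _)

theorem sum_le {m : ℕ} {χ : ℤ → ℂ} (h : PC m χ) {r : ℕ} (u v : Fin r → ℤ) (G : Finset ℕ) :
    ‖∑ x ∈ G, cs χ u v x‖ ≤ G.card := by
  refine (norm_sum_le _ _).trans ?_
  calc ∑ x ∈ G, ‖cs χ u v x‖ ≤ ∑ _x ∈ G, (1 : ℝ) := sum_le_sum fun x _ => cs_le h u v _
    _ = G.card := by simp

theorem cs_per {m : ℕ} {χ : ℤ → ℂ} (h : PC m χ) {r : ℕ} (u v : Fin r → ℤ) (x y : ℕ)
    (hxy : x ≡ y [MOD m]) : cs χ u v x = cs χ u v y := by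
  have h1 : (x : ℤ) ≡ y [ZMOD m] := Int.natCast_modEq_iff.2 hxy
  unfold cs
  rw [prod_congr rfl fun i _ => h.per _ _ (h1.add_right (u i)),
    prod_congr rfl fun i _ => h.per _ _ (h1.add_right (v i))]

theorem cs_mul {χ χ₁ χ₂ : ℤ → ℂ} (h : ∀ a, χ a = χ₁ a * χ₂ a) {r : ℕ} (u v : Fin r → ℤ) (x : ℤ) :
    cs χ u v x = cs χ₁ u v x * cs χ₂ u v x := by
  unfold cs
  simp only [h, prod_mul_distrib, map_mul]
  ring

theorem Vv_mul {a b : ℕ} (hab : a.Coprime b) : Vv (a * b) = Vv a * Vv b := by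
  unfold Vv
  rw [hab.primeFactors_mul, prod_union hab.disjoint_primeFactors]
  congr 1
  · refine prod_congr rfl fun p hp => ?_
    rw [Nat.factorization_eq_of_coprime_left hab (Nat.mem_primeFactors_iff_mem_primeFactorsList.1 hp)]
  · refine prod_congr rfl fun p hp => ?_
    rw [Nat.factorization_eq_of_coprime_right hab
      (Nat.mem_primeFactors_iff_mem_primeFactorsList.1 hp)]

theorem Vv_nonneg (m : ℕ) : 0 ≤ Vv m := by
  unfold Vv
  refine prod_nonneg fun p _ => ?_
  split_ifs <;> positivity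

theorem Qb_mul {a b : ℕ} (hab : a.Coprime b) {r : ℕ} (u v : Fin r → ℤ) :
    Qb (a * b) u v = Qb a u v * Qb b u v := by
  classical
  unfold Qb
  rw [hab.primeFactors_mul, filter_union,
    prod_union (disjoint_filter_filter hab.disjoint_primeFactors)]

theorem Qb_pos (m : ℕ) {r : ℕ} (u v : Fin r → ℤ) : 0 < Qb m u v := by
  classical
  unfold Qb
  exact prod_pos fun p hp => (Nat.prime_of_mem_primeFactors (mem_filter.1 hp).1).pos

theorem Qb_pow {p a : ℕ} (hp : p.Prime) (ha : 0 < a) {r : ℕ} (u v : Fin r → ℤ) :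
    (Sep p u v ∧ Qb (p ^ a) u v = 1) ∨ (¬ Sep p u v ∧ Qb (p ^ a) u v = p) := by
  unfold Qb
  rw [Nat.primeFactors_prime_pow ha.ne' hp]
  by_cases h : Sep p u v
  · left; refine ⟨h, ?_⟩; rw [filter_singleton, if_neg (not_not.2 h), prod_empty]
  · right; refine ⟨h, ?_⟩; rw [filter_singleton, if_pos h, prod_singleton]

theorem complete (h2 : Fact2S) (hW : WeilS) (hH : HPS) {r : ℕ} (hr : 1 ≤ r) (u v : Fin r → ℤ)
    (m : ℕ) : ∀ χ : ℤ → ℂ, PC m χ → ‖∑ x ∈ range m, cs χ u v x‖ ≤
      (2 * r : ℝ) ^ m.primeFactors.card * Vv m * Qb m u v := by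
  have hr' : (1 : ℝ) ≤ r := by exact_mod_cast hr
  induction m using Nat.recOnPosPrimePosCoprime with
  | zero => intro χ h; exact absurd h.pos (lt_irrefl _)
  | one =>
    intro χ h
    have := sum_le h u v (range 1)
    simpa [Vv, Qb] using this
  | prime_pow p a hp ha =>
    intro χ h
    have hp1 : (1 : ℝ) ≤ p := by exact_mod_cast hp.one_le
    have hV : Vv (p ^ a) = if a = 1 then √(p : ℝ) else (p : ℝ) ^ (a - 1) := by
      unfold Vv
      rw [Nat.primeFactors_prime_pow ha.ne' hp, prod_singleton, hp.factorization_pow,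
        Finsupp.single_eq_same]
    rw [hV, Nat.primeFactors_prime_pow ha.ne' hp, card_singleton, pow_one]
    rcases Qb_pow hp ha u v with ⟨hs, hq⟩ | ⟨_, hq⟩
    · rw [hq, Nat.cast_one, mul_one]
      split_ifs with h1
      · subst h1
        rw [pow_one] at h ⊢
        exact hW p r χ u v hp h hs
      · exact hH p a r χ u v hp (by omega) h hs
    · rw [hq]
      refine (sum_le h u v _).trans ?_
      rw [card_range]
      split_ifs with h1
      · subst h1
        have h3 : (1 : ℝ) ≤ √(p : ℝ) := Real.one_le_sqrt.2 hp1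
        have h4 : (1 : ℝ) ≤ 2 * r * √(p : ℝ) := by nlinarith
        rw [pow_one]
        nlinarith
      · obtain ⟨c, rfl⟩ : ∃ c, a = c + 1 := ⟨a - 1, by omega⟩
        rw [Nat.add_sub_cancel]
        push_cast
        rw [pow_succ, mul_assoc]
        have h4 : (0 : ℝ) ≤ (p : ℝ) ^ c * p := by positivity
        nlinarith
  | coprime a b ha hb hab iha ihb =>
    intro χ h
    obtain ⟨χ₁, χ₂, h₁, h₂, he⟩ := h2 a b χ hab h
    rw [sum_congr rfl fun (x : ℕ) _ => cs_mul he u v (x : ℤ),
      crt a b hab h₁.pos h₂.pos (fun x => cs χ₁ u v x) (fun x => cs χ₂ u v x) (cs_per h₁ u v)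
        (cs_per h₂ u v), norm_mul, Vv_mul hab, Qb_mul hab, hab.primeFactors_mul,
      card_union_of_disjoint hab.disjoint_primeFactors, pow_add]
    refine (mul_le_mul (iha χ₁ h₁) (ihb χ₂ h₂) (norm_nonneg _)
      ((norm_nonneg _).trans (iha χ₁ h₁))).trans (le_of_eq ?_)
    push_cast
    ring

theorem card_box (B r : ℕ) : (box B r).card = B ^ r := by
  simp [box, Fintype.card_piFinset]

theorem split (hG : GcdS) (M B r : ℕ) (hB : 1 ≤ B) (F T : (Fin r → ℤ) → (Fin r → ℤ) → ℝ)
    (hT : ∀ u v, 0 ≤ T u v) (h1 : ∀ u v, F u v ≤ M) (h2 : ∀ u v, Qb M u v < B → F u v ≤ T u v) :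
    ∑ u ∈ box B r, ∑ v ∈ box B r, F u v ≤ (∑ u ∈ box B r, ∑ v ∈ box B r, T u v) +
      M * ((2 * (2 * r + 1 : ℝ) ^ M.primeFactors.card) ^ (2 * r) * (B : ℝ) ^ r) := by
  have h3 := mul_le_mul_of_nonneg_left (hG M B r hB) (Nat.cast_nonneg (α := ℝ) M)
  refine le_trans ?_ (add_le_add_right h3 _)
  rw [← sum_product', ← sum_product', card_filter, Nat.cast_sum, mul_sum, ← sum_add_distrib]
  refine sum_le_sum fun t _ => ?_
  split_ifs with h
  · have := h1 t.1 t.2
    have := hT t.1 t.2
    push_cast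
    linarith
  · have := h2 t.1 t.2 (not_le.1 h)
    push_cast
    linarith

end MomK

open MomK in
theorem momOf : MomOf := by
  intro h2 hW hH hP hG
  constructor
  · intro m B r χ h hB hr
    have hV := Vv_nonneg m
    have := split hG m B r hB (fun u v => ‖∑ x ∈ range m, cs χ u v x‖)
      (fun _ _ => (2 * r : ℝ) ^ m.primeFactors.card * Vv m * B) (fun _ _ => by positivity)
      (fun u v => by simpa using sum_le h u v (range m))
      (fun u v hq => (complete h2 hW hH hr u v m χ h).trans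
        (mul_le_mul_of_nonneg_left (by exact_mod_cast hq.le) (by positivity)))
    refine this.trans (le_of_eq ?_)
    simp only [sum_const, card_box, nsmul_eq_mul]
    push_cast
    ring
  · classical
    intro m p B r χ G hp hmp h hB hBp hr
    have hV := Vv_nonneg m
    have hc : m.Coprime (p ^ 3) := hmp.pow_right 3
    obtain ⟨χ₁, χ₂, h₁, h₂, he⟩ := h2 m (p ^ 3) χ hc h
    have := split hG (m * p ^ 3) B r hB
      (fun u v => ‖∑ x ∈ (range (m * p ^ 3)).filter (fun x : ℕ => (x : ZMod p) ∈ G), cs χ u v x‖)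
      (fun u v => (2 * r : ℝ) ^ m.primeFactors.card * Vv m * B * (2 * r * (p * √(p : ℝ)) +
        (p : ℝ) ^ 2 * (if Sep p u v then ((G.filter fun y => Tg (fun i => (u i : ZMod p))
          (fun i => (v i : ZMod p)) y).card : ℝ) else 0)))
      (fun u v => by split_ifs <;> positivity)
      (fun u v => (sum_le h u v _).trans (by
        exact_mod_cast (card_filter_le _ _).trans (card_range _).le))
      (fun u v hq => by
        rw [Qb_mul hc] at hq
        have hq1 := Qb_pos m u v
        rcases Qb_pow hp (by norm_num : 0 < 3) u v with ⟨hs, hq2⟩ | ⟨_, hq2⟩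
        · rw [hq2, mul_one] at hq
          rw [if_pos hs, sum_filter]
          have e : ∀ x : ℕ, (if (x : ZMod p) ∈ G then cs χ u v x else 0) =
              cs χ₁ u v x * (if (x : ZMod p) ∈ G then cs χ₂ u v x else 0) := by
            intro x
            split_ifs
            · exact cs_mul he u v _
            · rw [mul_zero]
          rw [sum_congr rfl fun x _ => e x,
            crt m (p ^ 3) hc h₁.pos h₂.pos (fun x => cs χ₁ u v x)
              (fun x => if (x : ZMod p) ∈ G then cs χ₂ u v x else 0) (cs_per h₁ u v) ?_,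
            norm_mul, ← sum_filter]
          · refine mul_le_mul ((complete h2 hW hH hr u v m χ₁ h₁).trans
              (mul_le_mul_of_nonneg_left (by exact_mod_cast hq.le) (by positivity))) ?_
              (norm_nonneg _) (by positivity)
            exact hP p r χ₂ u v G hp h₂ hs
          · intro x y hxy
            have h5 : (x : ZMod p) = y := (ZMod.natCast_eq_natCast_iff _ _ _).2
              (hxy.of_dvd (dvd_pow_self p (by norm_num)))
            rw [h5, cs_per h₂ u v x y hxy]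
        · rw [hq2] at hq
          nlinarith)
    refine this.trans (le_of_eq ?_)
    congr 1
    simp only [← mul_sum, sum_add_distrib, sum_const, card_box, nsmul_eq_mul, tanN, sum_filter]
    push_cast
    ring

end Pool.Agent.MP_c5bf7b_nt.H38
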