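import Pool.Agent.MP_c5bf7b_nt.H38.SpecB

/-! A finite net for the polynomial phases. -/

set_option autoImplicit false

namespace Pool.Agent.MP_c5bf7b_nt.H38

open Finset

namespace NetAux

/-- a net of the unit circle -/
theorem circle (M : ℕ) (hM : 1 ≤ M) : ∃ S : Finset ℂ, S.Nonempty ∧ (S.card : ℝ) ≤ 9 * M ∧
    (∀ s ∈ S, ‖s‖ ≤ 1) ∧ ∀ z : ℂ, ‖z‖ = 1 → ∃ s ∈ S, ‖z - s‖ ≤ 1 / M := by
  classical
  have hM' : (1 : ℝ) ≤ M := by exact_mod_cast hM
  have hM0 : (0 : ℝ) < M := by linarith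
  refine ⟨(Icc (-(4 * (M : ℤ))) (4 * M)).image
    fun k : ℤ => Complex.exp (Complex.I * (((k : ℝ) / M : ℝ) : ℂ)), ?_, ?_, ?_, ?_⟩
  · refine Nonempty.image ⟨0, ?_⟩ _
    rw [mem_Icc]
    constructor <;> omega
  · refine le_trans (Nat.cast_le.2 card_image_le) ?_
    rw [Int.card_Icc]
    have h : (4 * (M : ℤ) + 1 - -(4 * (M : ℤ))).toNat = 8 * M + 1 := by omega
    rw [h]
    push_cast
    linarith
  · intro s hs
    obtain ⟨k, _, rfl⟩ := mem_image.1 hs
    rw [Complex.norm_exp_I_mul_ofReal]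
  · intro z hz
    have h1 := Complex.neg_pi_lt_arg z
    have h2 := Complex.arg_le_pi z
    have h3 := Real.pi_lt_four
    have hf1 := Int.floor_le (z.arg * M)
    have hf2 := Int.lt_floor_add_one (z.arg * M)
    refine ⟨_, mem_image.2 ⟨⌊z.arg * M⌋, ?_, rfl⟩, ?_⟩
    · rw [mem_Icc]
      constructor
      · rw [Int.le_floor]
        push_cast
        nlinarith
      · have h4 : ((⌊z.arg * M⌋ : ℤ) : ℝ) ≤ ((4 * (M : ℤ) : ℤ) : ℝ) := by
          push_cast
          nlinarith
        exact_mod_cast h4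
    · have hz' : z = Complex.exp (Complex.I * ((z.arg : ℝ) : ℂ)) := by
        have h5 := Complex.norm_mul_exp_arg_mul_I z
        rw [hz] at h5
        rw [mul_comm Complex.I]
        simpa using h5.symm
      set k : ℝ := ((⌊z.arg * M⌋ : ℤ) : ℝ) with hk
      have he : z - Complex.exp (Complex.I * ((k / M : ℝ) : ℂ)) =
          Complex.exp (Complex.I * ((k / M : ℝ) : ℂ)) *
            (Complex.exp (Complex.I * ((z.arg - k / M : ℝ) : ℂ)) - 1) := by
        rw [mul_sub, mul_one, ← Complex.exp_add]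
        have h6 : Complex.I * ((k / M : ℝ) : ℂ) + Complex.I * ((z.arg - k / M : ℝ) : ℂ) =
            Complex.I * ((z.arg : ℝ) : ℂ) := by
          push_cast
          ring
        rw [h6, ← hz']
      rw [he, norm_mul, Complex.norm_exp_I_mul_ofReal, one_mul]
      refine le_trans Real.norm_exp_I_mul_ofReal_sub_one_le ?_
      have h7 : z.arg - k / M = (z.arg * M - k) / M := by field_simp
      rw [Real.norm_eq_abs, h7, abs_div, abs_of_pos hM0]
      refine div_le_div_of_nonneg_right ?_ hM0.le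
      rw [abs_le]
      constructor <;> linarith

/-- the net with a free precision -/
theorem gen (d : ℕ) : ∃ C : ℝ, 1 ≤ C ∧ ∀ B M : ℕ, 1 ≤ B → 1 ≤ M →
    ∃ W : Finset (ℕ → ℂ), W.Nonempty ∧
      (W.card : ℝ) ≤ C * (M : ℝ) ^ (d + 1) * (B : ℝ) ^ (d ^ 2) ∧ (∀ w ∈ W, ∀ b, ‖w b‖ ≤ 1) ∧
      ∀ (z : ℂ) (F : ℕ → ℂ), Ph d z F → ∃ w ∈ W, ∀ b ≤ B, ‖F b - w b‖ ≤ 1 / M := by
  classical
  induction d with
  | zero =>
    refine ⟨9, by norm_num, fun B M _ hM => ?_⟩
    obtain ⟨S, hS0, hS1, hS2, hS3⟩ := circle M hM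
    refine ⟨S.image fun s _ => s, hS0.image _, ?_, ?_, ?_⟩
    · refine le_trans (Nat.cast_le.2 card_image_le) ?_
      simpa using hS1
    · intro w hw b
      obtain ⟨s, hs, rfl⟩ := mem_image.1 hw
      exact hS2 s hs
    · intro z F hF
      obtain ⟨s, hs, h⟩ := hS3 z hF.1
      refine ⟨_, mem_image.2 ⟨s, hs, rfl⟩, fun b _ => ?_⟩
      rw [hF.2 b]
      exact h
  | succ d ih =>
    obtain ⟨C, hC, ih⟩ := ih
    have h2d : (1 : ℝ) ≤ 2 ^ (d + 1) := one_le_pow₀ (by norm_num)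
    refine ⟨18 * C * 2 ^ (d + 1), by nlinarith, fun B M hB hM => ?_⟩
    have hB' : (1 : ℝ) ≤ B := by exact_mod_cast hB
    have hM' : (1 : ℝ) ≤ M := by exact_mod_cast hM
    obtain ⟨S, hS0, hS1, hS2, hS3⟩ := circle (2 * M) (by omega)
    obtain ⟨W, hW0, hW1, hW2, hW3⟩ := ih B (2 * B * M) hB
      (Nat.one_le_iff_ne_zero.2 (by positivity))
    have hb : ∀ s ∈ S, ∀ w ∈ W, ∀ b, ‖s * ∏ i ∈ range b, w i‖ ≤ 1 := by
      intro s hs w hw b
      rw [norm_mul, norm_prod]
      exact mul_le_one₀ (hS2 s hs) (prod_nonneg fun _ _ => norm_nonneg _)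
        (prod_le_one (fun _ _ => norm_nonneg _) fun i _ => hW2 w hw i)
    refine ⟨(S ×ˢ W).image fun t b => t.1 * ∏ i ∈ range b, t.2 i, (hS0.product hW0).image _,
      ?_, ?_, ?_⟩
    · refine le_trans (Nat.cast_le.2 card_image_le) ?_
      rw [card_product]
      push_cast at hS1 hW1 ⊢
      have hpow : (B : ℝ) ^ (d + 1) * (B : ℝ) ^ (d ^ 2) ≤ (B : ℝ) ^ ((d + 1) ^ 2) := by
        rw [← pow_add]
        exact pow_le_pow_right₀ hB' (by nlinarith)
      calc (S.card : ℝ) * W.card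
          ≤ (9 * (2 * M)) * (C * (2 * B * M) ^ (d + 1) * (B : ℝ) ^ (d ^ 2)) :=
            mul_le_mul hS1 hW1 (Nat.cast_nonneg _) (by positivity)
        _ = 18 * C * 2 ^ (d + 1) * (M : ℝ) ^ (d + 1 + 1) *
              ((B : ℝ) ^ (d + 1) * (B : ℝ) ^ (d ^ 2)) := by
            rw [mul_pow, mul_pow]
            ring
        _ ≤ _ := mul_le_mul_of_nonneg_left hpow (by positivity)
    · intro w hw b
      obtain ⟨t, ht, rfl⟩ := mem_image.1 hw
      exact hb _ (mem_product.1 ht).1 _ (mem_product.1 ht).2 b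
    · intro z F hF
      obtain ⟨hF1, hF2⟩ := hF
      obtain ⟨s, hs, h0⟩ := hS3 (F 0) (hF1 0)
      obtain ⟨w, hw, h1⟩ := hW3 z _ hF2
      refine ⟨_, mem_image.2 ⟨(s, w), mem_product.2 ⟨hs, hw⟩, rfl⟩, ?_⟩
      push_cast at h0 h1
      have key : ∀ b ≤ B, ‖F b - s * ∏ i ∈ range b, w i‖ ≤
          1 / (2 * (M : ℝ)) + b * (1 / (2 * (B : ℝ) * M)) := by
        intro b
        induction b with
        | zero =>
          intro _
          simpa using h0
        | succ b ihb =>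
          intro hbB
          have ha := ihb (by omega)
          have hc := h1 b (by omega)
          have hu : F b * (starRingEnd ℂ) (F b) = 1 := by
            rw [Complex.mul_conj, Complex.normSq_eq_norm_sq, hF1 b]
            simp
          have hD : ‖F (b + 1) * (starRingEnd ℂ) (F b)‖ = 1 := by
            rw [norm_mul, Complex.norm_conj, hF1, hF1, one_mul]
          have he : F (b + 1) - s * ∏ i ∈ range (b + 1), w i =
              (F b - s * ∏ i ∈ range b, w i) * (F (b + 1) * (starRingEnd ℂ) (F b)) +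
                (s * ∏ i ∈ range b, w i) * (F (b + 1) * (starRingEnd ℂ) (F b) - w b) := by
            rw [prod_range_succ]
            linear_combination (-F (b + 1)) * hu
          rw [he]
          refine le_trans (norm_add_le _ _) ?_
          rw [norm_mul, hD, mul_one, norm_mul (s * ∏ i ∈ range b, w i)]
          have hd : ‖s * ∏ i ∈ range b, w i‖ * ‖F (b + 1) * (starRingEnd ℂ) (F b) - w b‖ ≤
              1 * (1 / (2 * (B : ℝ) * M)) :=
            mul_le_mul (hb s hs w hw b) hc (norm_nonneg _) zero_le_one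
          push_cast
          linarith
      intro b hbB
      refine le_trans (key b hbB) ?_
      have hbB' : (b : ℝ) ≤ B := by exact_mod_cast hbB
      have h8 : (b : ℝ) * (1 / (2 * (B : ℝ) * M)) ≤ B * (1 / (2 * (B : ℝ) * M)) :=
        mul_le_mul_of_nonneg_right hbB' (by positivity)
      have h9 : 1 / (2 * (M : ℝ)) + B * (1 / (2 * (B : ℝ) * M)) = 1 / M := by
        field_simp
        ring
      linarith

end NetAux

theorem net : NetS := by
  intro d
  obtain ⟨C, hC, h⟩ := NetAux.gen d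
  refine ⟨C, hC, fun B hB => ?_⟩
  obtain ⟨W, h0, h1, h2, h3⟩ := h B B hB hB
  refine ⟨W, h0, le_trans h1 ?_, h2, h3⟩
  have hB' : (1 : ℝ) ≤ B := by exact_mod_cast hB
  rw [mul_assoc, ← pow_add]
  exact mul_le_mul_of_nonneg_left (pow_le_pow_right₀ hB' (by nlinarith)) (by linarith)

end Pool.Agent.MP_c5bf7b_nt.H38
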