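import Pool.Agent.MP_c5bf7b_nt.H38.SpecB

/-! Complete sums modulo the cube of a prime. -/

set_option autoImplicit false

namespace Pool.Agent.MP_c5bf7b_nt.H38

open Finset Polynomial

namespace P3

/-- the additive character attached to a primitive character modulo a cube -/
theorem key {p : ℕ} [hp : Fact p.Prime] {χ : ℤ → ℂ} (h : PC (p ^ 3) χ) :
    ∃ ψ : AddChar (ZMod p) ℂ, (∀ a, ψ a = 1 → a = 0) ∧
      ∀ a w : ℤ, (a : ZMod p) ≠ 0 →
        χ (a + (p : ℤ) ^ 2 * w) = χ a * ψ ((w : ZMod p) * (a : ZMod p)⁻¹) := by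
  have hc : ∀ a b : ℤ, (a : ZMod p) = (b : ZMod p) →
      χ (1 + (p : ℤ) ^ 2 * a) = χ (1 + (p : ℤ) ^ 2 * b) := by
    intro a b hab
    obtain ⟨k, hk⟩ := ((ZMod.intCast_eq_intCast_iff a b p).1 hab).dvd
    apply h.per
    rw [Int.modEq_iff_dvd]
    refine ⟨k, ?_⟩
    push_cast
    linear_combination (p : ℤ) ^ 2 * hk
  have hv : ∀ w : ℤ, χ (1 + (p : ℤ) ^ 2 * (((w : ZMod p).val : ℕ) : ℤ)) =
      χ (1 + (p : ℤ) ^ 2 * w) := fun w => hc _ _ (by simp)
  let ψ : AddChar (ZMod p) ℂ :=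
    { toFun := fun t => χ (1 + (p : ℤ) ^ 2 * ((t.val : ℕ) : ℤ))
      map_zero_eq_one' := by simp [h.one]
      map_add_eq_mul' := by
        intro a b
        obtain ⟨a, rfl⟩ := ZMod.intCast_surjective a
        obtain ⟨b, rfl⟩ := ZMod.intCast_surjective b
        rw [← Int.cast_add, hv, hv, hv, ← h.mul]
        apply h.per
        rw [Int.modEq_iff_dvd]
        refine ⟨p * a * b, ?_⟩
        push_cast
        ring }
  have hψ : ∀ w : ℤ, ψ (w : ZMod p) = χ (1 + (p : ℤ) ^ 2 * w) := hv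
  have hne : ψ ≠ 1 := by
    obtain ⟨a, _, ha, ha1⟩ := h.prim p hp.out (dvd_pow_self p (by norm_num))
    have he : p ^ 3 / p = p ^ 2 := by
      rw [pow_succ, Nat.mul_div_cancel _ hp.out.pos]
    rw [he] at ha
    obtain ⟨k, hk⟩ := ha.symm.dvd
    intro h1
    apply ha1
    have : a = 1 + (p : ℤ) ^ 2 * k := by
      push_cast at hk
      linear_combination hk
    rw [this, ← hψ, h1, AddChar.one_apply]
  refine ⟨ψ, fun a ha => ?_, fun a w ha => ?_⟩
  · exact ((AddChar.IsPrimitive.of_ne_one hne).zmod_char_eq_one_iff p a).1 ha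
  · obtain ⟨n, hn⟩ := ZMod.intCast_surjective (a : ZMod p)⁻¹
    rw [← hn, ← Int.cast_mul, hψ, ← h.mul]
    have h1 : ((a * n : ℤ) : ZMod p) = ((1 : ℤ) : ZMod p) := by
      push_cast
      rw [hn, mul_inv_cancel₀ ha]
    obtain ⟨k, hk⟩ := ((ZMod.intCast_eq_intCast_iff _ _ p).1 h1).dvd
    apply h.per
    rw [Int.modEq_iff_dvd]
    refine ⟨-(w * k), ?_⟩
    push_cast
    linear_combination -((p : ℤ) ^ 2 * w) * hk

theorem cop {p : ℕ} [hp : Fact p.Prime] (a : ℤ) :
    IsCoprime a ((p ^ 3 : ℕ) : ℤ) ↔ (a : ZMod p) ≠ 0 := by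
  rw [Nat.cast_pow, IsCoprime.pow_right_iff (by norm_num), isCoprime_comm,
    (Nat.prime_iff_prime_int.1 hp.out).irreducible.coprime_iff_not_dvd, Ne,
    ZMod.intCast_zmod_eq_zero_iff_dvd]

theorem shift1 {M : ℕ} {f : ℕ → ℂ} (h : ∀ t, f (t + M) = f t) :
    ∑ t ∈ range M, f (t + 1) = ∑ t ∈ range M, f t := by
  have h1 := Finset.sum_range_succ f M
  have h2 := Finset.sum_range_succ' f M
  have h3 := h 0
  rw [zero_add] at h3
  linear_combination h1 - h2 + h3

theorem shift {M : ℕ} {f : ℕ → ℂ} (h : ∀ t, f (t + M) = f t) (k : ℕ) :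
    ∑ t ∈ range M, f (t + k) = ∑ t ∈ range M, f t := by
  induction k with
  | zero => simp
  | succ k ih =>
    rw [← ih, ← shift1 (f := fun t => f (t + k)) fun t => by
      show f (t + M + k) = f (t + k)
      rw [add_right_comm, h]]
    exact Finset.sum_congr rfl fun t _ => by rw [add_right_comm, add_assoc]

/-- a periodic function with an eigenvalue different from one has sum zero -/
theorem sum_zero {M k : ℕ} {f : ℕ → ℂ} {c : ℂ} (h : ∀ t, f (t + M) = f t) (hc : c ≠ 1)
    (hf : ∀ t, f (t + k) = f t * c) : ∑ t ∈ range M, f t = 0 := by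
  have h1 := shift h k
  simp only [hf, ← Finset.sum_mul] at h1
  have h2 : (∑ t ∈ range M, f t) * (c - 1) = 0 := by linear_combination h1
  exact (mul_eq_zero.1 h2).resolve_right (sub_ne_zero.2 hc)

/-- the Gauss sum bound for quadratic phases -/
theorem gauss {p : ℕ} (hp : 0 < p) {f : ℕ → ℂ} {c : ℕ → ℂ} (h : ∀ t, f (t + p ^ 2) = f t)
    (h1 : ∀ t, ‖f t‖ = 1) (hc : ∀ k, ¬ p ∣ k → c k ≠ 1)
    (hf : ∀ t k, f (t + k + 1) * f t = f (t + k) * f (t + 1) * c k) :
    ‖∑ t ∈ range (p ^ 2), f t‖ ≤ p * √(p : ℝ) := by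
  have hu : ∀ t, f t * (starRingEnd ℂ) (f t) = 1 := fun t => by
    rw [Complex.mul_conj, Complex.normSq_eq_norm_sq, h1]; simp
  have hD : ∀ k, ‖∑ t ∈ range (p ^ 2), f (t + k) * (starRingEnd ℂ) (f t)‖ ≤
      if p ∣ k then (p : ℝ) ^ 2 else 0 := by
    intro k
    split_ifs with hk
    · refine (norm_sum_le _ _).trans ?_
      simp [h1]
    · rw [sum_zero (k := 1) (c := c k) (f := fun t => f (t + k) * (starRingEnd ℂ) (f t))
        (fun t => by
          show f (t + p ^ 2 + k) * (starRingEnd ℂ) (f (t + p ^ 2)) = _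
          rw [add_right_comm, h, h]) (hc k hk) fun t => ?_]
      · simp
      · show f (t + 1 + k) * (starRingEnd ℂ) (f (t + 1)) = f (t + k) * (starRingEnd ℂ) (f t) * c k
        rw [add_right_comm t 1 k]
        have e1 := hu t
        have e2 := hu (t + 1)
        have e3 := hf t k
        linear_combination (starRingEnd ℂ) (f t) * (starRingEnd ℂ) (f (t + 1)) * e3 -
          f (t + k + 1) * (starRingEnd ℂ) (f (t + 1)) * e1 +
          f (t + k) * (starRingEnd ℂ) (f t) * c k * e2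
  have hS : (∑ t ∈ range (p ^ 2), f t) * (starRingEnd ℂ) (∑ t ∈ range (p ^ 2), f t) =
      ∑ k ∈ range (p ^ 2), ∑ t ∈ range (p ^ 2), f (t + k) * (starRingEnd ℂ) (f t) := by
    rw [Finset.sum_comm, map_sum, Finset.mul_sum]
    refine Finset.sum_congr rfl fun t _ => ?_
    rw [← Finset.sum_mul, ← shift h t]
    congr 1
    exact Finset.sum_congr rfl fun k _ => by rw [add_comm]
  have hcard : ((range (p ^ 2)).filter fun k => p ∣ k).card ≤ p := by
    calc ((range (p ^ 2)).filter fun k => p ∣ k).card ≤ ((range p).image fun j => p * j).card := by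
          refine Finset.card_le_card fun k hk => ?_
          obtain ⟨hk1, j, rfl⟩ := Finset.mem_filter.1 hk
          refine Finset.mem_image.2 ⟨j, Finset.mem_range.2 ?_, rfl⟩
          have := Finset.mem_range.1 hk1
          rw [sq] at this
          exact lt_of_mul_lt_mul_left this (Nat.zero_le _)
      _ ≤ p := Finset.card_image_le.trans (by simp)
  have hN : ‖∑ t ∈ range (p ^ 2), f t‖ ^ 2 ≤ (p * √(p : ℝ)) ^ 2 := by
    have e : ‖∑ t ∈ range (p ^ 2), f t‖ ^ 2 =
        ‖(∑ t ∈ range (p ^ 2), f t) * (starRingEnd ℂ) (∑ t ∈ range (p ^ 2), f t)‖ := by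
      rw [norm_mul, Complex.norm_conj, sq]
    rw [e, hS, mul_pow, Real.sq_sqrt (Nat.cast_nonneg p)]
    refine (norm_sum_le _ _).trans ((Finset.sum_le_sum fun k _ => hD k).trans ?_)
    rw [← Finset.sum_filter, Finset.sum_const, nsmul_eq_mul, mul_comm]
    exact mul_le_mul_of_nonneg_left (by exact_mod_cast hcard) (by positivity)
  exact (pow_le_pow_iff_left₀ (norm_nonneg _) (by positivity) two_ne_zero).1 hN

open Classical in
/-- few classes have a vanishing first power sum -/
theorem few {p r : ℕ} [Fact p.Prime] {u v : Fin r → ZMod p} (h : SepZ u v)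
    (G : Finset (ZMod p)) :
    (G.filter fun y => ((∀ i, y + u i ≠ 0) ∧ ∀ i, y + v i ≠ 0) ∧ ps 1 u y = ps 1 v y).card ≤
      2 * r := by
  obtain ⟨i₀, h₀⟩ := h
  set b : Fin r ⊕ Fin r → ZMod p := Sum.elim u v with hb
  let s : Fin r ⊕ Fin r → ZMod p := Sum.elim (fun _ => 1) fun _ => -1
  let N : (ZMod p)[X] := ∑ i, C (s i) * ∏ j ∈ univ.erase i, (X + C (b j))
  have hev : ∀ y, N.eval y = ∑ i, s i * ∏ j ∈ univ.erase i, (y + b j) := fun y => by
    simp [N, Polynomial.eval_finsetSum, Polynomial.eval_prod]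
  have hN : N ≠ 0 := by
    intro h0
    have h1 := hev (-b i₀)
    rw [h0, eval_zero, Finset.sum_eq_single i₀] at h1
    · refine mul_ne_zero ?_ (Finset.prod_ne_zero_iff.2 fun j hj => ?_) h1.symm
      · rcases i₀ with i | i <;> simp [s]
      · intro h2
        exact h₀ j (Finset.ne_of_mem_erase hj) (by linear_combination -h2)
    · intro i _ hi
      rw [Finset.prod_eq_zero (i := i₀) (Finset.mem_erase.2 ⟨hi.symm, mem_univ _⟩) (by ring),
        mul_zero]
    · simp
  have hdeg : N.natDegree ≤ 2 * r := by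
    refine Polynomial.natDegree_sum_le_of_forall_le _ _ fun i _ => ?_
    refine (Polynomial.natDegree_C_mul_le _ _).trans ((Polynomial.natDegree_prod_le _ _).trans ?_)
    simp only [Polynomial.natDegree_X_add_C, Finset.sum_const, smul_eq_mul, mul_one]
    refine Finset.card_erase_le.trans ?_
    simp [two_mul]
  refine le_trans (Polynomial.card_le_degree_of_subset_roots fun y hy => ?_) hdeg
  obtain ⟨_, ⟨hu, hv⟩, he⟩ := Finset.mem_filter.1 (Finset.mem_def.2 hy)
  have hy0 : ∀ i, y + b i ≠ 0 := by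
    rintro (i | i)
    · exact hu i
    · exact hv i
  rw [Polynomial.mem_roots hN, Polynomial.IsRoot.def, hev]
  have e : ∀ i, s i * ∏ j ∈ univ.erase i, (y + b j) =
      (∏ j, (y + b j)) * (s i * (y + b i)⁻¹) := fun i => by
    rw [← Finset.mul_prod_erase univ (fun j => y + b j) (mem_univ i)]
    have := hy0 i
    field_simp
  simp only [e, ← Finset.mul_sum]
  refine mul_eq_zero_of_right _ ?_
  simp only [ps, pow_one] at he
  simp [Fintype.sum_sum_type, s, hb, he]

theorem addChar_sum {p r : ℕ} (ψ : AddChar (ZMod p) ℂ) (a : Fin r → ZMod p) :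
    ∏ i, ψ (a i) = ψ (∑ i, a i) := by
  induction (univ : Finset (Fin r)) using Finset.cons_induction with
  | empty => simp
  | cons i s hi ih => rw [Finset.prod_cons, Finset.sum_cons, AddChar.map_add_eq_mul, ih]

open Classical in
/-- the sum over one class -/
theorem cls {p r : ℕ} [hp : Fact p.Prime] {χ : ℤ → ℂ} (h : PC (p ^ 3) χ) (u v : Fin r → ℤ)
    (y : ZMod p) :
    ‖∑ t ∈ range (p ^ 2), cs χ u v ((y.val + p * t : ℕ) : ℤ)‖ ≤
      (if ((∀ i, y + (u i : ZMod p) ≠ 0) ∧ ∀ i, y + (v i : ZMod p) ≠ 0) ∧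
          ps 1 (fun i => (u i : ZMod p)) y = ps 1 (fun i => (v i : ZMod p)) y
        then p * √(p : ℝ) else 0) +
      if Tg (fun i => (u i : ZMod p)) (fun i => (v i : ZMod p)) y then (p : ℝ) ^ 2 else 0 := by
  obtain ⟨ψ, hψ, hk⟩ := key h
  have hnn : (0 : ℝ) ≤ p * √(p : ℝ) := by positivity
  have hcast : ∀ (t : ℕ) (b : ℤ), ((((y.val + p * t : ℕ) : ℤ) + b : ℤ) : ZMod p) = y + b := by
    intro t b
    simp
  set f : ℕ → ℂ := fun t => cs χ u v ((y.val + p * t : ℕ) : ℤ) with hf
  by_cases hpole : (∀ i, y + (u i : ZMod p) ≠ 0) ∧ ∀ i, y + (v i : ZMod p) ≠ 0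
  swap
  · have h0 : ∀ t, f t = 0 := by
      intro t
      rw [not_and_or, not_forall, not_forall] at hpole
      rcases hpole with ⟨i, hi⟩ | ⟨i, hi⟩
      · refine mul_eq_zero_of_left (Finset.prod_eq_zero (mem_univ i) (h.zero _ ?_)) _
        rw [cop, hcast]
        exact hi
      · refine mul_eq_zero_of_right _ ?_
        have e : χ (((y.val + p * t : ℕ) : ℤ) + v i) = 0 := by
          refine h.zero _ ?_
          rw [cop, hcast]
          exact hi
        rw [Finset.prod_eq_zero (mem_univ i) e, map_zero]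
    rw [Finset.sum_eq_zero fun t _ => h0 t, norm_zero]
    positivity
  obtain ⟨hu, hv⟩ := hpole
  have hper : ∀ t, f (t + p ^ 2) = f t := by
    intro t
    have e : ∀ b : ℤ, χ (((y.val + p * (t + p ^ 2) : ℕ) : ℤ) + b) =
        χ (((y.val + p * t : ℕ) : ℤ) + b) := by
      intro b
      apply h.per
      rw [Int.modEq_iff_dvd]
      refine ⟨-1, ?_⟩
      push_cast
      ring
    simp only [hf, cs, e]
  have hone : ∀ t, ‖f t‖ = 1 := by
    intro t
    simp only [hf, cs, norm_mul, Complex.norm_conj, norm_prod]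
    rw [Finset.prod_eq_one fun i _ => h.norm _ (by rw [cop, hcast]; exact hu i),
      Finset.prod_eq_one fun i _ => h.norm _ (by rw [cop, hcast]; exact hv i), mul_one]
  by_cases h1 : ps 1 (fun i => (u i : ZMod p)) y = ps 1 (fun i => (v i : ZMod p)) y
  swap
  · have e : ∀ (t : ℕ) (b : ℤ), y + (b : ZMod p) ≠ 0 →
        χ (((y.val + p * (t + p) : ℕ) : ℤ) + b) =
          χ (((y.val + p * t : ℕ) : ℤ) + b) * ψ (y + (b : ZMod p))⁻¹ := by
      intro t b hb
      have := hk (((y.val + p * t : ℕ) : ℤ) + b) 1 (by rw [hcast]; exact hb)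
      rw [hcast, Int.cast_one, one_mul] at this
      rw [← this]
      congr 1
      push_cast
      ring
    rw [sum_zero (k := p) (c := ψ (ps 1 (fun i => (u i : ZMod p)) y -
      ps 1 (fun i => (v i : ZMod p)) y)) hper (fun h2 => h1 (sub_eq_zero.1 (hψ _ h2))) fun t => ?_]
    · rw [norm_zero]
      positivity
    · simp only [hf, cs]
      rw [Finset.prod_congr rfl fun i _ => e t (u i) (hu i),
        Finset.prod_congr rfl fun i _ => e t (v i) (hv i), Finset.prod_mul_distrib,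
        Finset.prod_mul_distrib, addChar_sum, addChar_sum, map_mul, ← AddChar.map_neg_eq_conj,
        sub_eq_add_neg, AddChar.map_add_eq_mul]
      simp only [ps, pow_one]
      ring
  rw [if_pos ⟨⟨hu, hv⟩, h1⟩]
  by_cases h2 : ps 2 (fun i => (u i : ZMod p)) y = ps 2 (fun i => (v i : ZMod p)) y
  · rw [if_pos ⟨h1, h2⟩]
    refine (norm_sum_le _ _).trans ?_
    rw [Finset.sum_congr rfl fun t _ => hone t]
    simp only [Finset.sum_const, card_range, nsmul_eq_mul, mul_one]
    push_cast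
    linarith
  rw [if_neg fun h3 => h2 h3.2, add_zero]
  have e : ∀ (t k : ℕ) (b : ℤ), y + (b : ZMod p) ≠ 0 →
      χ (((y.val + p * (t + k + 1) : ℕ) : ℤ) + b) * χ (((y.val + p * t : ℕ) : ℤ) + b) =
        χ (((y.val + p * (t + k) : ℕ) : ℤ) + b) * χ (((y.val + p * (t + 1) : ℕ) : ℤ) + b) *
          ψ (-(k : ZMod p) * ((y + (b : ZMod p))⁻¹) ^ 2) := by
    intro t k b hb
    have := hk ((((y.val + p * (t + k) : ℕ) : ℤ) + b) * (((y.val + p * (t + 1) : ℕ) : ℤ) + b))
      (-(k : ℤ)) (by rw [Int.cast_mul, hcast, hcast]; exact mul_ne_zero hb hb)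
    rw [Int.cast_mul, hcast, hcast, Int.cast_neg, Int.cast_natCast, ← sq, ← inv_pow] at this
    rw [← h.mul, ← h.mul, ← this]
    congr 1
    push_cast
    ring
  refine gauss (c := fun k => ψ (-(k : ZMod p) * (ps 2 (fun i => (u i : ZMod p)) y -
    ps 2 (fun i => (v i : ZMod p)) y))) hp.out.pos hper hone (fun k hk1 h3 => ?_) fun t k => ?_
  · rcases mul_eq_zero.1 (hψ _ h3) with h4 | h4
    · exact hk1 ((ZMod.natCast_eq_zero_iff k p).1 (neg_eq_zero.1 h4))
    · exact h2 (sub_eq_zero.1 h4)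
  · have eu := Finset.prod_congr (rfl : (univ : Finset (Fin r)) = univ)
      fun i _ => e t k (u i) (hu i)
    have ev := Finset.prod_congr (rfl : (univ : Finset (Fin r)) = univ)
      fun i _ => e t k (v i) (hv i)
    rw [Finset.prod_mul_distrib, Finset.prod_mul_distrib, Finset.prod_mul_distrib, addChar_sum,
      ← Finset.mul_sum] at eu ev
    have ev' := congrArg (starRingEnd ℂ) ev
    rw [map_mul, map_mul, map_mul, ← AddChar.map_neg_eq_conj] at ev'
    simp only [cs, ps]
    rw [mul_sub, sub_eq_add_neg, AddChar.map_add_eq_mul, mul_mul_mul_comm, eu, ev']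
    ring

end P3

theorem p3 : P3S := by
  classical
  intro p r χ u v G hp h hS
  have : Fact p.Prime := ⟨hp⟩
  have hsum : ∑ x ∈ (range (p ^ 3)).filter (fun x : ℕ => (x : ZMod p) ∈ G), cs χ u v x =
      ∑ y ∈ G, ∑ t ∈ range (p ^ 2), cs χ u v ((y.val + p * t : ℕ) : ℤ) := by
    rw [← Finset.sum_product']
    refine Finset.sum_nbij' (fun x => ((x : ZMod p), x / p)) (fun q => q.1.val + p * q.2)
      (fun x hx => ?_) (fun q hq => ?_) (fun x _ => ?_) (fun q _ => ?_) fun x _ => ?_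
    · obtain ⟨h1, h2⟩ := Finset.mem_filter.1 hx
      refine Finset.mem_product.2 ⟨h2, Finset.mem_range.2 ?_⟩
      rw [Nat.div_lt_iff_lt_mul hp.pos, ← pow_succ]
      exact Finset.mem_range.1 h1
    · obtain ⟨h1, h2⟩ := Finset.mem_product.1 hq
      refine Finset.mem_filter.2 ⟨Finset.mem_range.2 ?_, by simpa using h1⟩
      have h3 := Finset.mem_range.1 h2
      have h4 := ZMod.val_lt q.1
      calc q.1.val + p * q.2 < p * (q.2 + 1) := by rw [mul_add, mul_one]; omega
        _ ≤ p * p ^ 2 := Nat.mul_le_mul_left p h3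
        _ = p ^ 3 := by ring
    · simp [ZMod.val_natCast, Nat.mod_add_div]
    · have h4 := ZMod.val_lt q.1
      refine Prod.ext (by simp) ?_
      show (q.1.val + p * q.2) / p = q.2
      rw [Nat.add_mul_div_left _ _ hp.pos, Nat.div_eq_of_lt h4, zero_add]
    · simp [ZMod.val_natCast, Nat.mod_add_div]
  rw [hsum]
  refine (norm_sum_le _ _).trans ((Finset.sum_le_sum fun y _ => P3.cls h u v y).trans ?_)
  rw [Finset.sum_add_distrib, ← Finset.sum_filter, ← Finset.sum_filter, Finset.sum_const,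
    Finset.sum_const, nsmul_eq_mul, nsmul_eq_mul]
  refine add_le_add ?_ (le_of_eq ?_)
  · refine mul_le_mul_of_nonneg_right ?_ (by positivity)
    exact_mod_cast P3.few hS G
  · rw [mul_comm]

end Pool.Agent.MP_c5bf7b_nt.H38
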