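import Pool.Agent.MP_c5bf7b_nt.H38.SpecB

/-! The row `Poly`: characters along `n + K t b` are polynomial phases. -/

set_option autoImplicit false

namespace Pool.Agent.MP_c5bf7b_nt.H38

namespace PolyAux

variable {R : Type} [CommRing R]

/-- polynomial functions of `e b` -/
def PP (e : R) : Subalgebra R (ℕ → R) := Algebra.adjoin R {fun b : ℕ => e * (b : R)}

theorem x_mem (e : R) : (fun b : ℕ => e * (b : R)) ∈ PP e :=
  Algebra.subset_adjoin (Set.mem_singleton _)

theorem c_mem (e c : R) : (fun _ : ℕ => c) ∈ PP e := (PP e).algebraMap_mem c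

theorem diff {e : R} {f : ℕ → R} (hf : f ∈ PP e) :
    ∃ g ∈ PP e, ∀ b, f (b + 1) = f b + e * g b := by
  induction hf using Algebra.adjoin_induction with
  | mem x hx =>
    obtain rfl : x = fun b : ℕ => e * (b : R) := hx
    exact ⟨1, (PP e).one_mem, fun b => by simp [mul_add]⟩
  | algebraMap r => exact ⟨0, (PP e).zero_mem, fun b => by simp [Pi.algebraMap_apply]⟩
  | add x y _ _ ihx ihy =>
    obtain ⟨g, hg, h⟩ := ihx
    obtain ⟨g', hg', h'⟩ := ihy
    exact ⟨g + g', (PP e).add_mem hg hg', fun b => by simp only [Pi.add_apply, h, h']; ring⟩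
  | mul x y hx hy ihx ihy =>
    obtain ⟨g, hg, h⟩ := ihx
    obtain ⟨g', hg', h'⟩ := ihy
    refine ⟨g * y + x * g' + (fun _ => e) * (g * g'), (PP e).add_mem ((PP e).add_mem
      ((PP e).mul_mem hg hy) ((PP e).mul_mem hx hg'))
      ((PP e).mul_mem (c_mem e e) ((PP e).mul_mem hg hg')), fun b => ?_⟩
    simp only [Pi.add_apply, Pi.mul_apply, h, h']
    ring

/-- inverses of `1 + z` with `z = e w` pointwise -/
theorem inv_ex {e : R} {d : ℕ} (he : e ^ (d + 1) = 0) {z : ℕ → R} (hz : z ∈ PP e)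
    (hw : ∀ b, e ∣ z b) : ∃ y ∈ PP e, ∀ b, (1 + z b) * y b = 1 := by
  refine ⟨∑ i ∈ Finset.range (d + 1), (-z) ^ i,
    (PP e).sum_mem fun i _ => (PP e).pow_mem ((PP e).neg_mem hz) i, fun b => ?_⟩
  have h0 : (-z b) ^ (d + 1) = 0 := by
    obtain ⟨w, hw⟩ := hw b
    rw [hw, ← mul_neg, mul_pow, he, zero_mul]
  have h1 := mul_neg_geom_sum (-z b) (d + 1)
  rw [h0, sub_zero, sub_neg_eq_add] at h1
  simpa [Finset.sum_apply] using h1

theorem sh_pow {e : R} {v : ℕ → R} (hv : v ∈ PP e) (h1 : ∀ b : ℕ, (1 + e * (b : R)) * v b = 1)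
    (j : ℕ) : ∃ g ∈ PP e, ∀ b,
      v (b + 1) ^ j = v b ^ j - j * e * v b ^ (j + 1) + e ^ 2 * g b := by
  obtain ⟨g, hg, h⟩ := diff hv
  have h2 : ∀ b, v (b + 1) = v b - e * v b ^ 2 - e ^ 2 * (v b * g b) := by
    intro b
    have a1 := h1 b
    have a2 := h1 (b + 1)
    have a3 : v (b + 1) = v b - e * v b * v (b + 1) := by
      push_cast at a2
      linear_combination (-v (b + 1)) * a1 + v b * a2
    have a4 := h b
    linear_combination a3 - e * v b * a4
  induction j with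
  | zero => exact ⟨0, (PP e).zero_mem, fun b => by simp⟩
  | succ j ih =>
    obtain ⟨k, hk, h3⟩ := ih
    refine ⟨k * v - (fun _ => e) * (k * v ^ 2) - (fun _ => e ^ 2) * (k * (v * g)) - v ^ j * (v * g)
      + (fun _ => (j : R)) * v ^ (j + 3) + (fun _ => (j : R) * e) * (v ^ (j + 1) * (v * g)), ?_,
      fun b => ?_⟩
    · have m1 := (PP e).mul_mem hv hg
      exact (PP e).add_mem ((PP e).add_mem ((PP e).sub_mem ((PP e).sub_mem ((PP e).sub_mem
        ((PP e).mul_mem hk hv) ((PP e).mul_mem (c_mem e _) ((PP e).mul_mem hk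
        ((PP e).pow_mem hv 2)))) ((PP e).mul_mem (c_mem e _) ((PP e).mul_mem hk m1)))
        ((PP e).mul_mem ((PP e).pow_mem hv j) m1))
        ((PP e).mul_mem (c_mem e _) ((PP e).pow_mem hv _)))
        ((PP e).mul_mem (c_mem e _) ((PP e).mul_mem ((PP e).pow_mem hv _) m1))
    · rw [pow_succ, h3 b, h2 b]
      simp only [Pi.add_apply, Pi.sub_apply, Pi.mul_apply, Pi.pow_apply]
      push_cast
      ring

theorem conj_eq {f : R → ℂ} (f1 : f 1 = 1) (fm : ∀ a b, f (a * b) = f a * f b)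
    (fn : ∀ a b, a * b = 1 → ‖f a‖ = 1) {a y : R} (h : a * y = 1) :
    (starRingEnd ℂ) (f a) = f y := by
  have h1 : f a * f y = 1 := by rw [← fm, h, f1]
  have h2 : f a * (starRingEnd ℂ) (f a) = 1 := by
    rw [Complex.mul_conj, Complex.normSq_eq_norm_sq, fn a y h]
    simp
  have h3 : f a ≠ 0 := left_ne_zero_of_mul_eq_one h1
  exact mul_left_cancel₀ h3 (h2.trans h1.symm)

theorem main {f : R → ℂ} (f1 : f 1 = 1) (fm : ∀ a b, f (a * b) = f a * f b)
    (fn : ∀ a b, a * b = 1 → ‖f a‖ = 1) {e : R} {d : ℕ} (he : e ^ (d + 1 + 1) = 0)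
    {v : ℕ → R} (hv : v ∈ PP e) (h1 : ∀ b : ℕ, (1 + e * (b : R)) * v b = 1) :
    ∀ (k i : ℕ), i + k = d → ∀ φ ∈ PP e,
      Ph k (f (1 + (-1) ^ d * (d.factorial : R) * e ^ (d + 1)))
        fun b => f (1 + e ^ (i + 1) * ((-1) ^ i * (i.factorial : R) * v b ^ (i + 1) + e * φ b)) := by
  intro k
  induction k with
  | zero =>
    intro i hi φ hφ
    obtain rfl : i = d := by omega
    have hp : ∀ b j, e ^ (i + 1) * v b ^ j = e ^ (i + 1) := by
      intro b j
      induction j with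
      | zero => simp
      | succ j ih =>
        have a1 := h1 b
        linear_combination v b * ih + e ^ (i + 1) * a1 - (b : R) * v b * he
    refine ⟨?_, fun b => ?_⟩
    · obtain ⟨y, _, hy⟩ := inv_ex he (c_mem e ((-1) ^ i * (i.factorial : R) * e ^ (i + 1)))
        fun _ => ⟨(-1) ^ i * (i.factorial : R) * e ^ i, by ring⟩
      exact fn _ _ (hy 0)
    · have a1 := hp b (i + 1)
      have : 1 + e ^ (i + 1) * ((-1) ^ i * (i.factorial : R) * v b ^ (i + 1) + e * φ b) =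
          1 + (-1) ^ i * (i.factorial : R) * e ^ (i + 1) := by
        linear_combination (-1) ^ i * (i.factorial : R) * a1 + φ b * he
      simp only [this]
  | succ k ih =>
    intro i hi φ hφ
    have hw : ((fun _ => (-1) ^ i * (i.factorial : R)) * v ^ (i + 1) + (fun _ => e) * φ) ∈ PP e :=
      (PP e).add_mem ((PP e).mul_mem (c_mem e _) ((PP e).pow_mem hv _))
        ((PP e).mul_mem (c_mem e _) hφ)
    obtain ⟨y, hy, hy1⟩ := inv_ex he ((PP e).mul_mem (c_mem e (e ^ (i + 1))) hw)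
      fun b => ⟨e ^ i * ((-1) ^ i * (i.factorial : R) * v b ^ (i + 1) + e * φ b), by
        simp only [Pi.add_apply, Pi.mul_apply, Pi.pow_apply]; ring⟩
    simp only [Pi.add_apply, Pi.mul_apply, Pi.pow_apply] at hy1
    obtain ⟨g, hg, h2⟩ := sh_pow hv h1 (i + 1)
    obtain ⟨ψ, hψ, h3⟩ := diff hφ
    refine ⟨fun b => fn _ _ (hy1 b), ?_⟩
    have hφ' : (((fun _ => (-1) ^ i * (i.factorial : R)) * g + ψ) * y
        - (fun _ => (-1) ^ (i + 1) * ((i + 1).factorial : R) * e ^ i) * (v ^ (i + 2) *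
          (((fun _ => (-1) ^ i * (i.factorial : R)) * v ^ (i + 1) + (fun _ => e) * φ) * y))) ∈
          PP e :=
      (PP e).sub_mem ((PP e).mul_mem ((PP e).add_mem ((PP e).mul_mem (c_mem e _) hg) hψ) hy)
        ((PP e).mul_mem (c_mem e _) ((PP e).mul_mem ((PP e).pow_mem hv _) ((PP e).mul_mem hw hy)))
    have key := ih (i + 1) (by omega) _ hφ'
    refine Eq.mpr (congrArg _ (funext fun b => ?_)) key
    rw [conj_eq f1 fm fn (hy1 b), ← fm]
    congr 1
    simp only [Pi.add_apply, Pi.sub_apply, Pi.mul_apply, Pi.pow_apply]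
    rw [h2 b, h3 b, Nat.factorial_succ]
    have a1 := hy1 b
    push_cast
    linear_combination (1 + e ^ (i + 2) * ((-1) ^ (i + 1) * (((i : R) + 1) * i.factorial)) *
      v b ^ (i + 2)) * a1

theorem first {f : R → ℂ} (f1 : f 1 = 1) (fm : ∀ a b, f (a * b) = f a * f b)
    (fn : ∀ a b, a * b = 1 → ‖f a‖ = 1) {e n n' : R} {d : ℕ} (he : e ^ (d + 1 + 1) = 0)
    (hn : n * n' = 1) :
    Ph (d + 1) (f (1 + (-1) ^ d * (d.factorial : R) * e ^ (d + 1)))
      fun b : ℕ => f (n * (1 + e * (b : R))) := by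
  obtain ⟨v, hv, h1⟩ := inv_ex he (x_mem e) fun b => dvd_mul_right _ _
  have h2 : ∀ b : ℕ, n * (1 + e * (b : R)) * (n' * v b) = 1 := fun b => by
    linear_combination (n * n') * h1 b + hn
  refine ⟨fun b => fn _ _ (h2 b), ?_⟩
  have key := main f1 fm fn he hv h1 d 0 (by omega) 0 (PP e).zero_mem
  refine Eq.mpr (congrArg _ (funext fun b => ?_)) key
  rw [conj_eq f1 fm fn (h2 b), ← fm]
  congr 1
  have a1 := h2 b
  simp only [Pi.zero_apply, Nat.factorial_zero]
  push_cast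
  linear_combination a1 + e * v b * hn

end PolyAux

theorem poly : PolyS := by
  intro m K d χ n n' t hχ hd hm hn
  obtain ⟨d, rfl⟩ : ∃ d', d = d' + 1 := ⟨d - 1, by omega⟩
  have hf : ∀ a : ℤ, χ ((a : ZMod m).cast) = χ a := fun a =>
    hχ.per _ _ ((ZMod.intCast_eq_intCast_iff _ _ _).1 (ZMod.intCast_zmod_cast _))
  have f1 : χ ((1 : ZMod m).cast) = 1 := by
    have := hf 1
    rw [Int.cast_one] at this
    rw [this, hχ.one]
  have fm : ∀ a b : ZMod m, χ ((a * b).cast) = χ a.cast * χ b.cast := by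
    intro a b
    rw [← hχ.mul, ← hf (a.cast * b.cast), Int.cast_mul, ZMod.intCast_zmod_cast,
      ZMod.intCast_zmod_cast]
  have fn : ∀ a b : ZMod m, a * b = 1 → ‖χ a.cast‖ = 1 := by
    intro a b hab
    refine hχ.norm _ ?_
    have h1 : ((a.cast * b.cast : ℤ) : ZMod m) = ((1 : ℤ) : ZMod m) := by
      rw [Int.cast_mul, ZMod.intCast_zmod_cast, ZMod.intCast_zmod_cast, hab, Int.cast_one]
    obtain ⟨c, hc⟩ := ((ZMod.intCast_eq_intCast_iff _ _ _).1 h1).dvd
    exact ⟨b.cast, c, by linear_combination -hc⟩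
  have hK : (K : ZMod m) ^ (d + 1 + 1) = 0 := by
    rw [← Nat.cast_pow]
    exact (ZMod.natCast_eq_zero_iff _ _).2 hm
  have he : ((K : ZMod m) * (t : ZMod m) * (n' : ZMod m)) ^ (d + 1 + 1) = 0 := by
    rw [mul_pow, mul_pow, hK, zero_mul, zero_mul]
  have hn' : (n : ZMod m) * (n' : ZMod m) = 1 := by
    have := (ZMod.intCast_eq_intCast_iff _ _ _).2 hn
    rwa [Int.cast_mul, Int.cast_one] at this
  have key := PolyAux.first (f := fun a : ZMod m => χ a.cast) f1 fm fn he hn'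
  have e1 : χ (1 + (-1) ^ (d + 1 - 1) * (d + 1 - 1).factorial * (K * t * n') ^ (d + 1)) =
      χ ((1 + (-1) ^ d * (d.factorial : ZMod m) *
        ((K : ZMod m) * (t : ZMod m) * (n' : ZMod m)) ^ (d + 1) : ZMod m).cast) := by
    rw [← hf]
    simp
  have e2 : (fun b : ℕ => χ (n + K * t * b)) = fun b : ℕ => χ (((n : ZMod m) *
      (1 + (K : ZMod m) * (t : ZMod m) * (n' : ZMod m) * (b : ZMod m)) : ZMod m).cast) := by
    funext b
    rw [← hf]
    congr 2
    push_cast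
    linear_combination (-(K : ZMod m) * t * b) * hn'
  rw [e1, e2]
  exact key

end Pool.Agent.MP_c5bf7b_nt.H38
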