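import Pool.Agent.MP_c5bf7b_nt.H38.EszA
import Pool.Agent.MP_c5bf7b_nt.H38.Gcd

/-! Few tangencies among the tuples of a box, outside a small set of points. -/

set_option autoImplicit false

namespace Pool.Agent.MP_c5bf7b_nt.H38

open Finset

namespace Tan

theorem card_box (B n : ℕ) : (box B n).card = B ^ n := by
  simp [box, Fintype.card_piFinset]

section conv

variable {A : Type} [AddCommGroup A] [DecidableEq A] (g : ℤ → A) (B : ℕ)

/-- number of representations -/
noncomputable def rep (n : ℕ) (c : A) : ℕ := ((box B n).filter fun u => ∑ i, g (u i) = c).card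

theorem rep_add (m n : ℕ) (c : A) :
    rep g B (m + n) c ≤ ∑ a ∈ box B m, rep g B n (c - ∑ i, g (a i)) := by
  simp only [rep]
  rw [← card_sigma]
  refine card_le_card_of_injOn
    (fun u => ⟨fun i => u (Fin.castAdd n i), fun i => u (Fin.natAdd m i)⟩) (fun u hu => ?_)
    fun u _ v _ h => ?_
  · obtain ⟨h1, h2⟩ := mem_filter.1 (mem_coe.1 hu)
    have h1 := Fintype.mem_piFinset.1 h1
    refine mem_coe.2 (mem_sigma.2 ⟨Fintype.mem_piFinset.2 fun i => h1 _,
      mem_filter.2 ⟨Fintype.mem_piFinset.2 fun i => h1 _, ?_⟩⟩)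
    rw [← h2, Fin.sum_univ_add, add_sub_cancel_left]
  · obtain ⟨h1, h2⟩ := Sigma.mk.inj h
    funext i
    exact Fin.addCases (fun j => congrFun h1 j) (fun j => congrFun (eq_of_heq h2) j) i

theorem sum_fib [Fintype A] (k : ℕ) (f : A → ℕ) :
    ∑ a ∈ box B k, f (∑ i, g (a i)) = ∑ s, rep g B k s * f s := by
  rw [← sum_fiberwise (g := fun a : Fin k → ℤ => ∑ i, g (a i))]
  refine sum_congr rfl fun s _ => ?_
  rw [rep, ← smul_eq_mul, ← sum_const]
  exact sum_congr rfl fun a ha => by rw [(mem_filter.1 ha).2]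

theorem rep_le [Fintype A] (k t : ℕ) (c : A) :
    rep g B (t + (k + k)) c ≤ B ^ t * ∑ a ∈ box B k, rep g B k (∑ i, g (a i)) := by
  refine (rep_add g B t _ c).trans ?_
  rw [← card_box, ← smul_eq_mul]
  refine sum_le_card_nsmul _ _ _ fun a _ => (rep_add g B k k _).trans ?_
  generalize c - ∑ i, g (a i) = d
  rw [sum_fib g B k fun s => rep g B k (d - s), sum_fib g B k fun s => rep g B k s]
  have h1 : ∑ s, rep g B k (d - s) * rep g B k (d - s) = ∑ s, rep g B k s * rep g B k s :=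
    (Equiv.subLeft d).sum_comp fun s => rep g B k s * rep g B k s
  have h2 : ∑ s, 2 * (rep g B k s * rep g B k (d - s)) ≤
      ∑ s, (rep g B k s * rep g B k s + rep g B k (d - s) * rep g B k (d - s)) :=
    sum_le_sum fun s _ => by nlinarith [two_mul_le_add_sq (rep g B k s) (rep g B k (d - s))]
  rw [← mul_sum, sum_add_distrib, h1] at h2
  omega

end conv

/-- samples with exactly one member in `T`, equal to `a` -/
def One {α : Type} {l : ℕ} (T : α → Prop) (a : α) (ω : Fin l → α) : Prop :=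
  ∃ i, ω i = a ∧ ∀ j, j ≠ i → ¬T (ω j)

theorem One.uniq {α : Type} {l : ℕ} {T : α → Prop} {a b : α} {ω : Fin l → α} (hb : T b)
    (h1 : One T a ω) (h2 : One T b ω) : a = b := by
  obtain ⟨i, i1, i2⟩ := h1
  obtain ⟨j, j1, -⟩ := h2
  by_cases e : j = i
  · rw [← i1, ← j1, e]
  · exact absurd (j1 ▸ hb) (i2 j e)

open Classical in
theorem card_one {α : Type} (l : ℕ) (I : Finset α) (T : α → Prop) {a : α} (ha : a ∈ I)
    (hT : T a) : (l + 1) * (I.filter fun x => ¬T x).card ^ l ≤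
      ((Fintype.piFinset fun _ : Fin (l + 1) => I).filter (One T a)).card := by
  set J := I.filter fun x => ¬T x with hJ
  set W : Fin (l + 1) → Finset (Fin (l + 1) → α) := fun i =>
    Fintype.piFinset (Function.update (fun _ => J) i {a}) with hW
  have mem : ∀ i ω, ω ∈ W i → ω i = a ∧ ∀ j, j ≠ i → ω j ∈ J := fun i ω h => by
    have h := Fintype.mem_piFinset.1 h
    refine ⟨by simpa using h i, fun j hj => ?_⟩
    have := h j
    rwa [Function.update_of_ne hj] at this
  have c1 : (univ.biUnion W).card = (l + 1) * J.card ^ l := by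
    rw [card_biUnion]
    · rw [sum_congr rfl (g := fun _ => J.card ^ l)]
      · simp
      · intro i _
        rw [Fintype.card_piFinset, Fin.prod_univ_succAbove _ i]
        simp [Function.update_of_ne (Fin.succAbove_ne i _)]
    · intro i _ j _ hij
      rw [Function.onFun, disjoint_left]
      intro ω h1 h2
      exact (mem_filter.1 ((mem j ω h2).2 i hij)).2 ((mem i ω h1).1 ▸ hT)
  rw [← c1]
  refine card_le_card fun ω h => ?_
  obtain ⟨i, -, hi⟩ := mem_biUnion.1 h
  obtain ⟨h1, h2⟩ := mem i ω hi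
  refine mem_filter.2 ⟨Fintype.mem_piFinset.2 fun j => ?_, i, h1,
    fun j hj => (mem_filter.1 (h2 j hj)).2⟩
  by_cases e : j = i
  · rw [e, h1]
    exact ha
  · exact (mem_filter.1 (h2 j e)).1

open Classical in
theorem coll_sum (hG : GcdS) (p B k : ℕ) [Fact p.Prime] (hB : 1 ≤ B) (hp : B ≤ p)
    (hk : p ≤ B ^ k) (Y : Finset (ZMod p)) (hY : ∀ y ∈ Y, ∀ b ∈ Icc (1 : ℤ) B, y + b ≠ 0) :
    ((∑ y ∈ Y, ∑ a ∈ box B k, rep (fun b : ℤ => (y + b)⁻¹ ^ 1) B k
      (∑ i, (y + a i)⁻¹ ^ 1) : ℕ) : ℝ) ≤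
        ((2 * (2 * k + 1)) ^ (2 * k) + 2 * k) * (B : ℝ) ^ (2 * k) := by
  have pp : p.Prime := Fact.out
  have h1 : ∑ y ∈ Y, ∑ a ∈ box B k, rep (fun b : ℤ => (y + b)⁻¹ ^ 1) B k (∑ i, (y + a i)⁻¹ ^ 1) =
      ∑ t ∈ box B k ×ˢ box B k,
        (Y.filter fun y : ZMod p => ∑ i, (y + t.2 i)⁻¹ ^ 1 = ∑ i, (y + t.1 i)⁻¹ ^ 1).card := by
    simp only [rep, card_filter]
    rw [sum_product, sum_comm]
    exact sum_congr rfl fun a _ => sum_comm
  have h2 : ∀ t ∈ box B k ×ˢ box B k,
      (Y.filter fun y : ZMod p => ∑ i, (y + t.2 i)⁻¹ ^ 1 = ∑ i, (y + t.1 i)⁻¹ ^ 1).card ≤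
        (if B ≤ Qb p t.1 t.2 then p else 0) + 2 * k := by
    intro t ht
    obtain ⟨t1, t2⟩ := mem_product.1 ht
    by_cases hs : Sep p t.1 t.2
    · refine le_add_left ?_
      have n0 := Esz.Nd_ne hs
      refine (card_le_card (t := (Esz.Nd (fun i => (t.1 i : ZMod p))
        (fun i => (t.2 i : ZMod p))).roots.toFinset) fun y hy => ?_).trans
        ((Multiset.toFinset_card_le _).trans ((Polynomial.card_roots' _).trans
          ((Esz.deg_Nd _ _).trans (by omega))))
      obtain ⟨y1, y2⟩ := mem_filter.1 hy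
      have := Esz.map_Nd (Polynomial.evalRingHom y) (fun i => (t.1 i : ZMod p))
        (fun i => (t.2 i : ZMod p)) (fun i => (y + t.1 i)⁻¹) (fun i => (y + t.2 i)⁻¹)
        (fun i => by simpa using mul_inv_cancel₀ (hY y y1 _ (Fintype.mem_piFinset.1 t1 i)))
        (fun i => by simpa using mul_inv_cancel₀ (hY y y1 _ (Fintype.mem_piFinset.1 t2 i)))
      rw [y2, sub_self, mul_zero] at this
      rw [Multiset.mem_toFinset, Polynomial.mem_roots n0]
      exact this
    · have : Qb p t.1 t.2 = p := by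
        rw [Qb, pp.primeFactors, filter_true_of_mem (by simpa using hs), prod_singleton]
      rw [this, if_pos hp]
      refine le_add_right ((card_le_univ _).trans ?_)
      rw [ZMod.card]
  have h3 := sum_le_sum h2
  rw [← h1, sum_add_distrib, ← sum_filter, sum_const, sum_const, card_product, card_box,
    smul_eq_mul, smul_eq_mul] at h3
  have h4 := hG p B k hB
  rw [pp.primeFactors, card_singleton, pow_one] at h4
  have h5 : (p : ℝ) ≤ (B : ℝ) ^ k := by exact_mod_cast hk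
  refine (Nat.cast_le.2 h3).trans ?_
  push_cast
  have h6 := mul_le_mul h4 h5 (Nat.cast_nonneg p) (by positivity)
  rw [two_mul k, pow_add (B : ℝ)] at *
  linarith

theorem num (E n μ s : ℝ) (l : ℕ) (hE : 0 ≤ E) (hn : 0 < n) (hs : 0 ≤ s) (μ0 : 0 < μ)
    (h1 : 4 * μ * (l + 1) ≤ 1) (h2 : 1 ≤ 8 * μ * (l + 1))
    (h : s * (((l + 1) * (n * (1 - μ)) ^ l) * ((l + 1) * (n * (1 - μ)) ^ l)) ≤
      n ^ (l + 1) * n ^ (l + 1) * (E * (2 * (l + 1)) * √(2 * (l + 1)))) :
    s ≤ 16 * E * n ^ 2 * √μ := by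
  have l0 : (0 : ℝ) ≤ l := Nat.cast_nonneg l
  have a1 : 3 / 4 ≤ (1 - μ) ^ l := by
    have := one_add_mul_le_pow (a := -μ) (by nlinarith) l
    rw [← sub_eq_add_neg] at this
    nlinarith
  have a2 : 1 / 2 ≤ (1 - μ) ^ l * (1 - μ) ^ l := by nlinarith
  have a3 : √(2 * ((l : ℝ) + 1)) ≤ 4 * (l + 1) * √μ := by
    refine Real.sqrt_le_iff.2 ⟨by positivity, ?_⟩
    rw [mul_pow, Real.sq_sqrt μ0.le]
    nlinarith
  have pos : 0 < ((l : ℝ) + 1) ^ 2 * (n ^ l * n ^ l) := by positivity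
  refine le_of_mul_le_mul_right ?_ pos
  have a4 : s * (((l : ℝ) + 1) ^ 2 * (n ^ l * n ^ l)) * (1 / 2) ≤
      s * (((l : ℝ) + 1) ^ 2 * (n ^ l * n ^ l)) * ((1 - μ) ^ l * (1 - μ) ^ l) :=
    mul_le_mul_of_nonneg_left a2 (by positivity)
  have a5 : n ^ (l + 1) * n ^ (l + 1) * (E * (2 * (l + 1)) * √(2 * (l + 1))) ≤
      n ^ (l + 1) * n ^ (l + 1) * (E * (2 * (l + 1)) * (4 * (l + 1) * √μ)) := by gcongr
  rw [mul_pow] at h
  have a6 : n ^ (l + 1) * n ^ (l + 1) * (E * (2 * (l + 1)) * (4 * (l + 1) * √μ)) =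
      16 * E * n ^ 2 * √μ * ((l + 1) ^ 2 * (n ^ l * n ^ l)) * (1 / 2) := by ring
  linarith

end Tan

open Tan Classical in
theorem tanOf : TanOf := by
  intro hE k r hk hr
  obtain ⟨E, E1, hE⟩ := hE r
  have k0 : (0 : ℝ) ≤ (2 * (2 * k + 1)) ^ (2 * k) + 2 * k := by positivity
  generalize hK : ((2 * (2 * k + 1)) ^ (2 * k) + 2 * k : ℝ) = K at k0
  refine ⟨16 * E + K, by linarith, fun p B μ pp hC hB hp μ1 μ2 => ?_⟩
  have := Fact.mk pp
  have p0 : (0 : ℝ) < p := by exact_mod_cast pp.pos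
  have μ0 : 0 < μ := lt_of_lt_of_le (by positivity) μ1
  have B1 : 1 ≤ B := by
    rcases Nat.eq_zero_or_pos B with rfl | h
    · rw [zero_pow (by omega)] at hp
      exact absurd pp.pos (by omega)
    · exact h
  have B0 : (0 : ℝ) < B := by exact_mod_cast B1
  set NP := (univ : Finset (ZMod p)).filter
    fun y : ZMod p => ∀ b ∈ Icc (1 : ℤ) B, y + b ≠ 0 with hNP
  set coll : ZMod p → ℕ := fun y => ∑ a ∈ box B k, rep (fun b : ℤ => (y + b)⁻¹ ^ 1) B k
    (∑ i, (y + a i)⁻¹ ^ 1) with hcoll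
  set G := NP.filter fun y => (coll y : ℝ) ≤ μ * (B : ℝ) ^ (2 * k) with hG
  refine ⟨G, ?_, ?_⟩
  · have c1 := card_filter_add_card_filter_not (s := (univ : Finset (ZMod p)))
      fun y : ZMod p => ∀ b ∈ Icc (1 : ℤ) B, y + b ≠ 0
    have c2 := card_filter_add_card_filter_not (s := NP)
      fun y => (coll y : ℝ) ≤ μ * (B : ℝ) ^ (2 * k)
    rw [card_univ, ZMod.card, ← hNP, ← c2, ← hG] at c1
    have c3 : ((univ : Finset (ZMod p)).filter
        fun y : ZMod p => ¬∀ b ∈ Icc (1 : ℤ) B, y + b ≠ 0).card ≤ B := by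
      refine (card_le_card (t := (Icc (1 : ℤ) B).image fun b : ℤ => -(b : ZMod p))
        fun y hy => ?_).trans (card_image_le.trans (by simp))
      have := (mem_filter.1 hy).2
      push Not at this
      obtain ⟨b, b1, b2⟩ := this
      exact mem_image.2 ⟨b, b1, (eq_neg_of_add_eq_zero_left b2).symm⟩
    set X := NP.filter fun y => ¬(coll y : ℝ) ≤ μ * (B : ℝ) ^ (2 * k) with hX
    have c4 := coll_sum gcdS p B k B1 hB.le hp X fun y hy =>
      (mem_filter.1 (mem_filter.1 hy).1).2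
    rw [hK, Nat.cast_sum] at c4
    have c5 := card_nsmul_le_sum X (fun y => (coll y : ℝ)) _
      fun y hy => (not_le.1 (mem_filter.1 hy).2).le
    rw [nsmul_eq_mul, ← mul_assoc] at c5
    have c6 : (X.card : ℝ) * μ ≤ K := le_of_mul_le_mul_right (c5.trans c4) (by positivity)
    have c7 : (X.card : ℝ) ≤ (16 * E + K) / μ := by
      rw [le_div_iff₀ μ0]
      linarith
    have c8 : (p : ℝ) ≤ G.card + X.card + B := by
      have : p ≤ G.card + X.card + B := by omega
      exact_mod_cast this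
    linarith
  obtain ⟨l, hl⟩ : ∃ l : ℕ, ⌊1 / (4 * μ)⌋₊ = l + 1 := by
    refine Nat.exists_eq_succ_of_ne_zero (Nat.floor_pos.2 ?_).ne'
    rw [le_div_iff₀ (by positivity)]
    linarith
  have l0 : (0 : ℝ) ≤ l := Nat.cast_nonneg l
  have l1 : 4 * μ * (l + 1) ≤ 1 := by
    have := Nat.floor_le (a := 1 / (4 * μ)) (by positivity)
    rw [hl, le_div_iff₀ (by positivity)] at this
    push_cast at this
    linarith
  have l2 : 1 ≤ 8 * μ * (l + 1) := by
    have := Nat.lt_floor_add_one (1 / (4 * μ))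
    rw [hl, div_lt_iff₀ (by positivity)] at this
    push_cast at this
    nlinarith
  set c : (Fin r → ℤ) → Fin r → ZMod p := fun u i => (u i : ZMod p) with hc
  set S := (box B r).sigma fun u => ((box B r).filter fun v => Sep p u v).sigma fun v =>
    G.filter fun y => Tg (c u) (c v) y with hS
  have hcard : tanN p B r G = S.card := by
    rw [hS, card_sigma, tanN]
    refine sum_congr rfl fun u _ => ?_
    rw [card_sigma]
  set Ω := Fintype.piFinset fun _ : Fin (l + 1) => box B r with hΩ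
  set T : ZMod p → ZMod p → (Fin r → ℤ) → Prop := fun y e u => ps 1 (c u) y = e with hT
  set rel : (Σ _ : Fin r → ℤ, Σ _ : Fin r → ℤ, ZMod p) →
      (Fin (l + 1) → Fin r → ℤ) × (Fin (l + 1) → Fin r → ℤ) → Prop := fun s ω =>
    One (T s.2.2 (ps 1 (c s.1) s.2.2)) s.1 ω.1 ∧ One (T s.2.2 (ps 1 (c s.1) s.2.2)) s.2.1 ω.2
    with hrel
  have memS : ∀ s ∈ S, s.1 ∈ box B r ∧ s.2.1 ∈ box B r ∧ Sep p s.1 s.2.1 ∧ s.2.2 ∈ G ∧
      Tg (c s.1) (c s.2.1) s.2.2 := fun s hs => by
    obtain ⟨s1, s2⟩ := mem_sigma.1 hs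
    obtain ⟨s3, s4⟩ := mem_sigma.1 s2
    exact ⟨s1, (mem_filter.1 s3).1, (mem_filter.1 s3).2, mem_filter.1 s4⟩
  have key := card_nsmul_le_card_nsmul (R := ℝ) (s := S) (t := Ω ×ˢ Ω) rel
    (m := ((l + 1) * ((B : ℝ) ^ r * (1 - μ)) ^ l) * ((l + 1) * ((B : ℝ) ^ r * (1 - μ)) ^ l))
    (n := E * (2 * (l + 1)) * √(2 * (l + 1))) (fun s hs => ?_) fun ω hω => ?_
  · rw [nsmul_eq_mul, nsmul_eq_mul, card_product, hΩ, Fintype.card_piFinset_const, card_box] at key
    push_cast at key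
    have := num E ((B : ℝ) ^ r) μ S.card l (by linarith) (by positivity) (Nat.cast_nonneg _) μ0
      l1 l2 key
    rw [hcard, mul_comm 2 r, pow_mul]
    refine this.trans ?_
    gcongr
    linarith
  · obtain ⟨s1, s2, -, s4, s5⟩ := memS s hs
    set T0 := T s.2.2 (ps 1 (c s.1) s.2.2) with hT0
    have e1 : (Ω ×ˢ Ω).bipartiteAbove rel s =
        Ω.filter (One T0 s.1) ×ˢ Ω.filter (One T0 s.2.1) := by
      rw [← filter_product]
      rfl
    have e2 : (B : ℝ) ^ r * (1 - μ) ≤ ((box B r).filter fun x => ¬T0 x).card := by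
      have a1 := card_filter_add_card_filter_not (s := box B r) T0
      rw [card_box] at a1
      have a2 : (((box B r).filter T0).card : ℝ) + ((box B r).filter fun x => ¬T0 x).card =
          (B : ℝ) ^ r := by exact_mod_cast a1
      obtain ⟨t, rfl⟩ : ∃ t, r = t + (k + k) := ⟨r - 2 * k, by omega⟩
      have a3 := rep_le (fun b : ℤ => (s.2.2 + b)⁻¹ ^ 1) B k t (ps 1 (c s.1) s.2.2)
      have a4 : (((box B (t + (k + k))).filter T0).card : ℝ) ≤ (B : ℝ) ^ t * coll s.2.2 := by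
        have : ((box B (t + (k + k))).filter T0).card ≤ B ^ t * coll s.2.2 := by
          convert a3 using 1
          rfl
        exact_mod_cast this
      have a5 := mul_le_mul_of_nonneg_left (mem_filter.1 s4).2 (pow_pos B0 t).le
      rw [two_mul k] at a5
      rw [pow_add] at a2 ⊢
      linarith
    have e3 : ∀ a ∈ box B r, T0 a → (l + 1) * ((B : ℝ) ^ r * (1 - μ)) ^ l ≤
        (Ω.filter (One T0 a)).card := fun a ha hTa => by
      have a1 : (((l + 1) * ((box B r).filter fun x => ¬T0 x).card ^ l : ℕ) : ℝ) ≤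
          (Ω.filter (One T0 a)).card := by
        refine Nat.cast_le.2 ?_
        convert card_one l (box B r) T0 ha hTa
      push_cast at a1
      refine le_trans (mul_le_mul_of_nonneg_left (pow_le_pow_left₀ ?_ e2 l) (by positivity)) a1
      exact mul_nonneg (by positivity) (by linarith)
    rw [e1, card_product, Nat.cast_mul]
    refine mul_le_mul (e3 _ s1 rfl) (e3 _ s2 s5.1.symm) ?_ (Nat.cast_nonneg _)
    exact mul_nonneg (by positivity) (pow_nonneg (mul_nonneg (by positivity) (by linarith)) l)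
  · set L := (univ.image fun i => c (ω.1 i)) ∪ univ.image fun i => c (ω.2 i) with hL
    have L1 : (L.card : ℝ) ≤ 2 * (l + 1) := by
      have : L.card ≤ (l + 1) + (l + 1) := (card_union_le _ _).trans
        (add_le_add (card_image_le.trans (by simp)) (card_image_le.trans (by simp)))
      have : (L.card : ℝ) ≤ ((l + 1) + (l + 1) : ℕ) := by exact_mod_cast this
      push_cast at this
      linarith
    have L2 : 2 * ((l : ℝ) + 1) ≤ p := by
      rw [div_le_iff₀ p0] at μ1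
      nlinarith
    rw [← card_image_of_injOn (f := fun s => (s.2.2, ps 1 (c s.1) s.2.2, ps 2 (c s.1) s.2.2))]
    · refine (hE p L _ pp (by linarith) ?_ fun t ht => ?_).trans ?_
      · rw [sq]
        exact mul_le_mul (by linarith) (L1.trans L2) (Nat.cast_nonneg _) p0.le
      · obtain ⟨s, hs, rfl⟩ := mem_image.1 ht
        obtain ⟨hs, ⟨i, i1, -⟩, ⟨j, j1, -⟩⟩ := mem_filter.1 hs
        obtain ⟨s1, s2, s3, s4, s5⟩ := memS s hs
        have np := (mem_filter.1 (mem_filter.1 s4).1).2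
        exact ⟨c s.1, mem_union_left _ (mem_image.2 ⟨i, mem_univ _, by rw [i1]⟩), c s.2.1,
          mem_union_right _ (mem_image.2 ⟨j, mem_univ _, by rw [j1]⟩), s3,
          fun i => np _ (Fintype.mem_piFinset.1 s1 i), fun i => np _ (Fintype.mem_piFinset.1 s2 i),
          s5, rfl, rfl⟩
      · gcongr
    · rintro ⟨u, v, y⟩ hs ⟨u', v', y'⟩ hs' e
      obtain ⟨hs, a1, a2⟩ := mem_filter.1 (mem_coe.1 hs)
      obtain ⟨hs', b1, b2⟩ := mem_filter.1 (mem_coe.1 hs')
      obtain ⟨rfl, e2⟩ := Prod.mk.inj e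
      have e3 : ps 1 (c u) y = ps 1 (c u') y := (Prod.mk.inj e2).1
      dsimp only at a1 a2 b1 b2
      rw [e3] at a1 a2
      have f1 : u = u' := One.uniq (show T y _ u' from rfl) a1 b1
      have f2 : v = v' := One.uniq (show T y _ v' from (memS _ hs').2.2.2.2.1.symm) a2 b2
      rw [f1, f2]

end Pool.Agent.MP_c5bf7b_nt.H38
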