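import Pool.Agent.MP_c5bf7b_nt.H38.SpecB
import Pool.Agent.Shared.H87W.Weil

/-! Row WEIL: the complete sums modulo a prime. -/

set_option autoImplicit false

namespace Pool.Agent.MP_c5bf7b_nt.H38

open Finset

namespace WeilA

theorem cast_eq {p : ℕ} {χ : ℤ → ℂ} (h : PC p χ) {a b : ℤ} (e : (a : ZMod p) = (b : ZMod p)) :
    χ a = χ b :=
  h.per a b ((ZMod.intCast_eq_intCast_iff a b p).1 e)

/-- the character of the residue field -/
noncomputable def toChar {p : ℕ} [Fact p.Prime] {χ : ℤ → ℂ} (h : PC p χ) : MulChar (ZMod p) ℂ where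
  toFun x := χ (x.val : ℤ)
  map_one' := by
    rw [← h.one]
    exact cast_eq h (by simp)
  map_mul' x y := by
    rw [← h.mul]
    exact cast_eq h (by simp)
  map_nonunit' x hx := by
    have hx0 : x = 0 := by
      by_contra h0
      exact hx (isUnit_iff_ne_zero.2 h0)
    subst hx0
    refine h.zero _ ?_
    rw [ZMod.val_zero, Nat.cast_zero, isCoprime_zero_left, Int.isUnit_iff_natAbs_eq,
      Int.natAbs_natCast]
    exact (Fact.out : p.Prime).one_lt.ne'

theorem toChar_cast {p : ℕ} [Fact p.Prime] {χ : ℤ → ℂ} (h : PC p χ) (a : ℤ) :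
    toChar h (a : ZMod p) = χ a :=
  cast_eq h (by simp)

theorem toChar_ne {p : ℕ} [Fact p.Prime] {χ : ℤ → ℂ} (h : PC p χ) : toChar h ≠ 1 := by
  obtain ⟨a, ha, -, hne⟩ := h.prim p Fact.out dvd_rfl
  intro e
  apply hne
  rw [← toChar_cast h, e]
  exact MulChar.one_apply ((ZMod.coe_int_isUnit_iff_isCoprime a p).2 ha.symm)

end WeilA

open WeilA in
theorem weil : WeilS := by
  intro p r χ u v hp h hs
  have : Fact p.Prime := ⟨hp⟩
  have hw := Pool.Agent.Shared.H87W.weil_burgess (toChar h) (toChar_ne h)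
    (fun i => (u i : ZMod p)) (fun i => (v i : ZMod p)) (by
      obtain ⟨i | i, hi⟩ := hs
      · exact Or.inl ⟨i, fun k hk => (hi (Sum.inl k) (by simpa using hk)).symm,
          fun k => (hi (Sum.inr k) (by simp)).symm⟩
      · exact Or.inr ⟨i, fun k hk => (hi (Sum.inr k) (by simpa using hk)).symm,
          fun k => (hi (Sum.inl k) (by simp)).symm⟩)
  rw [Fintype.card_fin, ZMod.card] at hw
  have e : ∑ x ∈ range p, cs χ u v x = ∑ x : ZMod p,
      (∏ k, toChar h (x + (u k : ZMod p))) *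
        ∏ k, (starRingEnd ℂ) (toChar h (x + (v k : ZMod p))) := by
    refine sum_bij (fun x _ => (x : ZMod p)) (fun _ _ => mem_univ _) ?_ ?_ ?_
    · intro a ha b hb hab
      have := (ZMod.natCast_eq_natCast_iff' a b p).1 hab
      rwa [Nat.mod_eq_of_lt (mem_range.1 ha), Nat.mod_eq_of_lt (mem_range.1 hb)] at this
    · intro x _
      exact ⟨x.val, mem_range.2 (ZMod.val_lt x), ZMod.natCast_zmod_val x⟩
    · intro x _
      simp only [cs, map_prod, ← toChar_cast h]
      push_cast
      rfl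
  rw [e]
  refine hw.trans ?_
  have := Real.sqrt_nonneg (p : ℝ)
  nlinarith

end Pool.Agent.MP_c5bf7b_nt.H38
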