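import Pool.Agent.MP_c5bf7b_nt.H38.SpecB
import Pool.Agent.MP_74e98a_nt.H25.Div

/-! Weyl differencing for characters of a very composite modulus. -/

set_option autoImplicit false

namespace Pool.Agent.MP_c5bf7b_nt.H38

open Finset

namespace Weyl

/-! ### Polynomial phases -/

theorem ph_congr {d : ℕ} {w : ℂ} {F G : ℕ → ℂ} (h : ∀ b, F b = G b) (hF : Ph d w F) :
    Ph d w G := by
  rw [← funext h]; exact hF

theorem ph_one : ∀ d : ℕ, Ph d 1 fun _ => 1
  | 0 => ⟨norm_one, fun _ => rfl⟩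
  | d + 1 => ⟨fun _ => norm_one, ph_congr (fun _ => by simp) (ph_one d)⟩

theorem ph_mul : ∀ (d : ℕ) {w w' : ℂ} {F G : ℕ → ℂ}, Ph d w F → Ph d w' G →
    Ph d (w * w') fun b => F b * G b
  | 0, _, _, _, _, hF, hG =>
    ⟨by rw [norm_mul, hF.1, hG.1, one_mul], fun b => congrArg₂ (· * ·) (hF.2 b) (hG.2 b)⟩
  | d + 1, _, _, _, _, hF, hG =>
    ⟨fun b => by rw [norm_mul, hF.1, hG.1, one_mul],
      ph_congr (fun b => by rw [map_mul]; ring) (ph_mul d hF.2 hG.2)⟩

theorem ph_shift (j : ℕ) : ∀ (d : ℕ) {w : ℂ} {F : ℕ → ℂ}, Ph d w F → Ph d w fun b => F (b + j)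
  | 0, _, _, hF => ⟨hF.1, fun _ => hF.2 _⟩
  | d + 1, _, F, hF =>
    ⟨fun _ => hF.1 _, ph_congr (fun b => by rw [Nat.add_right_comm b j 1]) (ph_shift j d hF.2)⟩

theorem mul_conj_one {z : ℂ} (h : ‖z‖ = 1) : z * (starRingEnd ℂ) z = 1 := by
  rw [Complex.mul_conj, Complex.normSq_eq_norm_sq, h]; simp

theorem ph_diff {d : ℕ} {w : ℂ} {F : ℕ → ℂ} (hF : Ph (d + 1) w F) (h : ℕ) :
    Ph d (w ^ h) fun b => F (b + h) * (starRingEnd ℂ) (F b) := by
  induction h with
  | zero =>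
    rw [pow_zero]
    exact ph_congr (fun b => (mul_conj_one (hF.1 b)).symm) (ph_one d)
  | succ h ih =>
    rw [pow_succ']
    refine ph_congr (fun b => ?_) (ph_mul d (ph_shift h d hF.2) ih)
    have := mul_conj_one (hF.1 (b + h))
    rw [← add_assoc]
    linear_combination (F (b + h + 1) * (starRingEnd ℂ) (F b)) * this

theorem ph_lin {w : ℂ} {F : ℕ → ℂ} (hF : Ph 1 w F) (L : ℕ) :
    ‖∑ b ∈ range L, F b‖ = ‖∑ b ∈ range L, w ^ b‖ := by
  have e : ∀ b, F b = w ^ b * F 0 := fun b => by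
    have h1 := (ph_diff hF b).2 0
    have h2 := mul_conj_one (hF.1 0)
    simp only [zero_add] at h1
    linear_combination (F 0) * h1 - (F b) * h2
  rw [sum_congr rfl fun b _ => e b, ← sum_mul, norm_mul, hF.1 0, mul_one]

/-! ### The differencing inequality -/

theorem vdc_eq (F : ℕ → ℂ) (hF : ∀ b, ‖F b‖ = 1) (B L : ℕ) (hL : L ≤ B) :
    ‖∑ b ∈ range L, F b‖ ^ 2 = L + 2 *
      (∑ h ∈ range B, ∑ b ∈ range (L - (h + 1)), F (b + (h + 1)) * (starRingEnd ℂ) (F b)).re := by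
  induction L with
  | zero => simp
  | succ L ih =>
    have e : ∑ h ∈ range B, ∑ b ∈ range (L + 1 - (h + 1)), F (b + (h + 1)) * (starRingEnd ℂ) (F b) =
        ∑ h ∈ range B, ∑ b ∈ range (L - (h + 1)), F (b + (h + 1)) * (starRingEnd ℂ) (F b) +
          F L * (starRingEnd ℂ) (∑ b ∈ range L, F b) := by
      have e1 : F L * (starRingEnd ℂ) (∑ b ∈ range L, F b) =
          ∑ h ∈ range B, if h < L then F L * (starRingEnd ℂ) (F (L - 1 - h)) else 0 := by
        rw [← sum_filter]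
        have : (range B).filter (fun h => h < L) = range L := by
          ext h; simp only [mem_filter, mem_range]; omega
        rw [this, ← sum_range_reflect F L, map_sum, mul_sum]
      rw [e1, ← sum_add_distrib]
      refine sum_congr rfl fun h _ => ?_
      split_ifs with hh
      · have a1 : L + 1 - (h + 1) = L - (h + 1) + 1 := by omega
        have a2 : L - (h + 1) + (h + 1) = L := by omega
        have a3 : L - 1 - h = L - (h + 1) := by omega
        rw [a1, sum_range_succ, a2, a3]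
      · have a1 : L + 1 - (h + 1) = 0 := by omega
        have a2 : L - (h + 1) = 0 := by omega
        rw [a1, a2, add_zero]
    rw [e, sum_range_succ, Complex.add_re, ← Complex.normSq_eq_norm_sq, add_comm _ (F L),
      Complex.normSq_add, Complex.normSq_eq_norm_sq, Complex.normSq_eq_norm_sq, ih (by omega), hF]
    push_cast
    ring

theorem vdc (F : ℕ → ℂ) (hF : ∀ b, ‖F b‖ = 1) (B L : ℕ) (hL : L ≤ B) :
    ‖∑ b ∈ range L, F b‖ ^ 2 ≤ B + 2 *
      ∑ h ∈ range B, ‖∑ b ∈ range (L - (h + 1)), F (b + (h + 1)) * (starRingEnd ℂ) (F b)‖ := by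
  rw [vdc_eq F hF B L hL]
  have h1 : (L : ℝ) ≤ B := by exact_mod_cast hL
  have h2 := (Complex.re_le_norm _).trans (norm_sum_le (range B) fun h =>
    ∑ b ∈ range (L - (h + 1)), F (b + (h + 1)) * (starRingEnd ℂ) (F b))
  linarith

theorem cs_avg (S : Finset ℕ) (N B : ℝ) (hN : 0 < N) (hB : 0 < B) (hS : (S.card : ℝ) ≤ N)
    (f : ℕ → ℝ) : ((∑ n ∈ S, f n) / (N * B)) ^ 2 ≤ (∑ n ∈ S, f n ^ 2) / (N * B ^ 2) := by
  have h1 := sq_sum_le_card_mul_sum_sq (s := S) (f := f)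
  have h2 : 0 ≤ ∑ n ∈ S, f n ^ 2 := sum_nonneg fun _ _ => sq_nonneg _
  rw [div_pow, div_le_div_iff₀ (by positivity) (by positivity)]
  calc (∑ n ∈ S, f n) ^ 2 * (N * B ^ 2) ≤ (N * ∑ n ∈ S, f n ^ 2) * (N * B ^ 2) := by
        refine mul_le_mul_of_nonneg_right (h1.trans ?_) (by positivity)
        exact mul_le_mul_of_nonneg_right hS h2
    _ = _ := by ring

theorem weyl_ind (j : ℕ) : ∃ c : ℝ, 1 ≤ c ∧ ∀ (S : Finset ℕ) (N A τ : ℝ) (B : ℕ) (w : ℕ → ℂ)
    (γ : ℕ → ℝ), 0 < N → (S.card : ℝ) ≤ N → 1 ≤ A → 1 ≤ τ → 1 ≤ B → (∀ H, 0 ≤ γ H) →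
    (∀ H, ∑ h ∈ range B, γ (H * (h + 1)) ≤ B * (τ * γ H)) →
    (∀ H L, L ≤ B →
      (∑ n ∈ S, ‖∑ b ∈ range L, (w n ^ H) ^ b‖ ^ 2) / (N * B ^ 2) ≤ A * (1 / B + γ H)) →
    ∀ (H L : ℕ) (F : ℕ → ℕ → ℂ), L ≤ B → (∀ n ∈ S, Ph (j + 1) (w n ^ H) (F n)) →
      ((∑ n ∈ S, ‖∑ b ∈ range L, F n b‖ ^ 2) / (N * B ^ 2)) ^ 2 ^ j ≤
        c * A * τ ^ j * (1 / B + γ H) := by
  induction j with
  | zero =>
    refine ⟨1, le_rfl, fun S N A τ B w γ _ _ _ _ _ _ _ h0 H L F hL hF => ?_⟩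
    rw [sum_congr rfl fun n hn => by rw [ph_lin (hF n hn)]]
    simpa using h0 H L hL
  | succ j ih =>
    obtain ⟨c, hc, ih⟩ := ih
    set P : ℕ := 2 ^ (j + 1) with hP
    refine ⟨2 ^ P * (1 + 2 ^ P * c), ?_, fun S N A τ B w γ hN hS hA hτ hB hγ hav h0 H L F hL hF => ?_⟩
    · have : (1 : ℝ) ≤ 2 ^ P := one_le_pow₀ (by norm_num)
      exact one_le_mul_of_one_le_of_one_le this (le_add_of_nonneg_right (by positivity))
    have hB1 : (1 : ℝ) ≤ B := by exact_mod_cast hB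
    have hB0 : (0 : ℝ) < B := by linarith
    set Y : ℕ → ℝ := fun h => (∑ n ∈ S,
      ‖∑ b ∈ range (L - (h + 1)), F n (b + (h + 1)) * (starRingEnd ℂ) (F n b)‖) / (N * B) with hY
    have hY0 : ∀ h, 0 ≤ Y h := fun h =>
      div_nonneg (sum_nonneg fun _ _ => norm_nonneg _) (by positivity)
    have hYP : ∀ h, Y h ^ P ≤ c * A * τ ^ j * (1 / B + γ (H * (h + 1))) := fun h => by
      refine le_trans ?_ (ih S N A τ B w γ hN hS hA hτ hB hγ hav h0 (H * (h + 1)) (L - (h + 1))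
        (fun n b => F n (b + (h + 1)) * (starRingEnd ℂ) (F n b)) (by omega) fun n hn => ?_)
      · rw [hP, pow_succ' 2 j, pow_mul]
        exact pow_le_pow_left₀ (sq_nonneg _) (cs_avg S N B hN hB0 hS _) _
      · rw [pow_mul]; exact ph_diff (hF n hn) (h + 1)
    set Z : ℝ := ∑ h ∈ range B, 1 / (B : ℝ) * Y h with hZ
    have hZ0 : 0 ≤ Z := sum_nonneg fun h _ => mul_nonneg (by positivity) (hY0 h)
    have hX : (∑ n ∈ S, ‖∑ b ∈ range L, F n b‖ ^ 2) / (N * B ^ 2) ≤ 1 / B + 2 * Z := by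
      have h1 := sum_le_sum fun n (hn : n ∈ S) => vdc (F n) (hF n hn).1 B L hL
      rw [sum_add_distrib, sum_const, nsmul_eq_mul, ← mul_sum, sum_comm] at h1
      have h2 : Z * (N * B ^ 2) = ∑ h ∈ range B, ∑ n ∈ S,
          ‖∑ b ∈ range (L - (h + 1)), F n (b + (h + 1)) * (starRingEnd ℂ) (F n b)‖ := by
        rw [hZ, sum_mul]
        refine sum_congr rfl fun h _ => ?_
        rw [hY]
        field_simp
      rw [div_le_iff₀ (by positivity), add_mul, mul_assoc 2 Z, h2]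
      have h3 : (S.card : ℝ) * B ≤ 1 / B * (N * B ^ 2) := by
        have : 1 / (B : ℝ) * (N * B ^ 2) = N * B := by field_simp
        rw [this]
        exact mul_le_mul_of_nonneg_right hS hB0.le
      linarith
    have hτj : 1 ≤ τ ^ j := one_le_pow₀ hτ
    have hZP : Z ^ P ≤ c * A * τ ^ (j + 1) * (1 / B + γ H) := by
      have h1 := Real.pow_arith_mean_le_arith_mean_pow (range B) (fun _ => 1 / (B : ℝ)) Y
        (fun _ _ => by positivity) (by rw [sum_const, card_range, nsmul_eq_mul]; field_simp)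
        (fun h _ => hY0 h) P
      refine h1.trans ((sum_le_sum fun h _ =>
        mul_le_mul_of_nonneg_left (hYP h) (by positivity)).trans ?_)
      rw [← mul_sum, ← mul_sum, sum_add_distrib, sum_const, card_range, nsmul_eq_mul]
      have h2 : 1 / (B : ℝ) * (B * (1 / B) + ∑ h ∈ range B, γ (H * (h + 1))) ≤
          τ * (1 / B + γ H) := by
        calc 1 / (B : ℝ) * (B * (1 / B) + ∑ h ∈ range B, γ (H * (h + 1)))
            ≤ 1 / (B : ℝ) * (B * (1 / B) + B * (τ * γ H)) :=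
              mul_le_mul_of_nonneg_left (by linarith [hav H]) (by positivity)
          _ = 1 * (1 / B) + τ * γ H := by field_simp
          _ ≤ τ * (1 / B) + τ * γ H := by
              have : (0 : ℝ) ≤ 1 / B := by positivity
              nlinarith
          _ = _ := by ring
      calc 1 / (B : ℝ) * (c * A * τ ^ j * (B * (1 / B) + ∑ h ∈ range B, γ (H * (h + 1))))
          = c * A * τ ^ j * (1 / (B : ℝ) * (B * (1 / B) + ∑ h ∈ range B, γ (H * (h + 1)))) := by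
            ring
        _ ≤ c * A * τ ^ j * (τ * (1 / B + γ H)) :=
            mul_le_mul_of_nonneg_left h2 (by positivity)
        _ = _ := by ring
    have hP0 : P ≠ 0 := by positivity
    have hb1 : (1 / (B : ℝ)) ^ P ≤ 1 / B :=
      pow_le_of_le_one (by positivity) (by rw [div_le_one hB0]; exact hB1) hP0
    have hb2 : 1 / (B : ℝ) ≤ A * τ ^ (j + 1) * (1 / B + γ H) := by
      have h1 : 1 ≤ A * τ ^ (j + 1) := one_le_mul_of_one_le_of_one_le hA (one_le_pow₀ hτ)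
      have h2 : (0 : ℝ) ≤ 1 / B := by positivity
      have h3 := hγ H
      nlinarith
    have hX0 : 0 ≤ (∑ n ∈ S, ‖∑ b ∈ range L, F n b‖ ^ 2) / (N * B ^ 2) :=
      div_nonneg (sum_nonneg fun _ _ => sq_nonneg _) (by positivity)
    calc ((∑ n ∈ S, ‖∑ b ∈ range L, F n b‖ ^ 2) / (N * B ^ 2)) ^ P
        ≤ (1 / (B : ℝ) + 2 * Z) ^ P := pow_le_pow_left₀ hX0 hX _
      _ ≤ 2 ^ (P - 1) * ((1 / (B : ℝ)) ^ P + (2 * Z) ^ P) :=
          add_pow_le (by positivity) (by positivity) P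
      _ ≤ 2 ^ P * ((1 / (B : ℝ)) ^ P + (2 * Z) ^ P) :=
          mul_le_mul_of_nonneg_right (pow_le_pow_right₀ (by norm_num) (Nat.sub_le _ _))
            (by positivity)
      _ ≤ 2 ^ P * (A * τ ^ (j + 1) * (1 / B + γ H) +
            2 ^ P * (c * A * τ ^ (j + 1) * (1 / B + γ H))) := by
          refine mul_le_mul_of_nonneg_left (add_le_add (hb1.trans hb2) ?_) (by positivity)
          rw [mul_pow]
          exact mul_le_mul_of_nonneg_left hZP (by positivity)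
      _ = _ := by ring

/-! ### Roots of unity modulo an integer -/

theorem card_le_index {G : Type} [CommGroup G] [Finite G] (g : G) {p : ℕ} (hp : 0 < p) :
    Nat.card {x : G // x ^ p = 1} ≤ p * (Subgroup.zpowers g).index := by
  classical
  set H := Subgroup.zpowers g
  set K := (powMonoidHom p : G →* G).ker
  have e : Nat.card {x : G // x ^ p = 1} = Nat.card K := rfl
  have h1 : (H.subgroupOf K).index ≤ H.index :=
    Nat.le_of_dvd (Nat.pos_of_ne_zero Subgroup.index_ne_zero_of_finite)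
      (Subgroup.relIndex_dvd_index_of_normal H K)
  have h2 : Nat.card (H.subgroupOf K) ≤ p := by
    have := Fintype.ofFinite H
    refine le_trans ?_ (IsCyclic.card_pow_eq_one_le (α := H) hp)
    rw [← Nat.card_eq_finsetCard]
    refine Nat.card_le_card_of_injective
      (fun x => ⟨⟨x.1.1, x.2⟩, mem_filter.2 ⟨mem_univ _, Subtype.ext x.1.2⟩⟩) fun x y h => ?_
    exact Subtype.ext (Subtype.ext (congrArg (fun z => z.1.1) h))
  rw [e, ← Subgroup.card_mul_index (H.subgroupOf K)]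
  exact Nat.mul_le_mul h2 h1

theorem card_prime_pow {q a p : ℕ} (hq : q.Prime) (ha : 0 < a) (hp : 0 < p) :
    Nat.card {x : (ZMod (q ^ a))ˣ // x ^ p = 1} ≤ 2 ^ p := by
  have : NeZero (q ^ a) := ⟨pow_ne_zero _ hq.ne_zero⟩
  have key : ∃ g : (ZMod (q ^ a))ˣ, (Subgroup.zpowers g).index ≤ 2 := by
    by_cases h2 : q = 2
    · subst h2
      rcases Nat.lt_or_ge a 2 with h | h
      · obtain rfl : a = 1 := by omega
        refine ⟨1, (Nat.le_of_dvd Nat.card_pos (Subgroup.index_dvd_card _)).trans ?_⟩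
        rw [Nat.card_eq_fintype_card, ZMod.card_units_eq_totient]
        decide
      · obtain ⟨n, rfl⟩ : ∃ n, a = n + 2 := ⟨a - 2, by omega⟩
        have hc : Nat.Coprime 5 (2 ^ (n + 2)) := Nat.Coprime.pow_right _ (by norm_num)
        refine ⟨ZMod.unitOfCoprime 5 hc, le_of_eq ?_⟩
        have h1 := Subgroup.card_mul_index (Subgroup.zpowers (ZMod.unitOfCoprime 5 hc))
        have h3 : orderOf (ZMod.unitOfCoprime 5 hc) = 2 ^ n := by
          rw [← orderOf_units, ZMod.coe_unitOfCoprime]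
          exact_mod_cast ZMod.orderOf_five n
        rw [Nat.card_zpowers, h3, Nat.card_eq_fintype_card, ZMod.card_units_eq_totient,
          Nat.totient_prime_pow_succ Nat.prime_two] at h1
        exact Nat.eq_of_mul_eq_mul_left (show 0 < 2 ^ n by positivity)
          (h1.trans (by rw [pow_succ 2 n]; simp))
    · obtain ⟨g, hg⟩ := (ZMod.isCyclic_units_of_prime_pow q hq h2 a).exists_generator
      refine ⟨g, ?_⟩
      rw [(Subgroup.eq_top_iff' _).2 hg, Subgroup.index_top]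
      norm_num
  obtain ⟨g, hg⟩ := key
  refine (card_le_index g hp).trans ?_
  obtain ⟨k, rfl⟩ : ∃ k, p = k + 1 := ⟨p - 1, by omega⟩
  calc (k + 1) * (Subgroup.zpowers g).index ≤ 2 ^ k * 2 :=
        Nat.mul_le_mul Nat.lt_two_pow_self hg
    _ = 2 ^ (k + 1) := (pow_succ 2 k).symm

theorem card_roots {p : ℕ} (hp : 0 < p) (w : ℕ) (hw : 0 < w) :
    Nat.card {x : (ZMod w)ˣ // x ^ p = 1} ≤ w.divisors.card ^ p := by
  induction w using Nat.recOnPosPrimePosCoprime with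
  | prime_pow q a hq ha =>
    refine (card_prime_pow hq ha hp).trans ?_
    rw [Nat.divisors_prime_pow hq, card_map, card_range]
    exact Nat.pow_le_pow_left (by omega) p
  | zero => exact absurd hw (lt_irrefl 0)
  | one =>
    rw [Nat.divisors_one, card_singleton, one_pow]
    exact Finite.card_le_one_iff_subsingleton.2 inferInstance
  | coprime m n hm hn hmn im ih =>
    have : NeZero m := ⟨by omega⟩
    have : NeZero n := ⟨by omega⟩
    rw [hmn.card_divisors_mul, mul_pow]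
    refine le_trans ?_ (Nat.mul_le_mul (im (by omega)) (ih (by omega)))
    rw [← Nat.card_prod]
    let f := (Units.mapEquiv (ZMod.chineseRemainder hmn).toMulEquiv).trans MulEquiv.prodUnits
    have hf : ∀ x : {x : (ZMod (m * n))ˣ // x ^ p = 1}, f x.1 ^ p = 1 := fun x => by
      rw [← map_pow, x.2, map_one]
    refine Nat.card_le_card_of_injective
      (fun x => (⟨(f x.1).1, congrArg Prod.fst (hf x)⟩, ⟨(f x.1).2, congrArg Prod.snd (hf x)⟩))
      fun x y h => Subtype.ext (f.injective (Prod.ext ?_ ?_))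
    · exact congrArg (fun z => z.1.1) h
    · exact congrArg (fun z => z.2.1) h

theorem card_roots' {p : ℕ} (hp : 0 < p) (w : ℕ) [NeZero w] :
    (univ.filter fun x : ZMod w => x ^ p = 1).card ≤ w.divisors.card ^ p := by
  refine le_trans ?_ (card_roots hp w (Nat.pos_of_ne_zero (NeZero.ne w)))
  rw [← Nat.card_eq_finsetCard]
  have hu : ∀ x : {x // x ∈ univ.filter fun x : ZMod w => x ^ p = 1}, IsUnit x.1 := fun x =>
    IsUnit.of_pow_eq_one (mem_filter.1 x.2).2 hp.ne'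
  refine Nat.card_le_card_of_injective (fun x => ⟨(hu x).unit, Units.ext ?_⟩) fun x y h => ?_
  · rw [Units.val_pow_eq_pow_val, IsUnit.unit_spec, Units.val_one]
    exact (mem_filter.1 x.2).2
  · have := congrArg (fun z : {x : (ZMod w)ˣ // x ^ p = 1} => (z.1 : ZMod w)) h
    exact Subtype.ext (by simpa using this)

/-! ### Counting -/

theorem cnt (M L : ℕ) (T : Finset ℕ) (hT : ∀ b ∈ T, b ≤ L)
    (hc : ∀ b ∈ T, ∀ b' ∈ T, b % M = b' % M) : (T.card : ℝ) ≤ L / M + 1 := by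
  have h : T.card ≤ (range (L / M + 1)).card :=
    card_le_card_of_injOn (fun b => b / M)
      (fun b hb => mem_coe.2 (mem_range.2 (Nat.lt_succ_of_le (Nat.div_le_div_right (hT b hb)))))
      fun b hb b' hb' h => by
        have h1 : b / M = b' / M := h
        rw [← Nat.div_add_mod b M, ← Nat.div_add_mod b' M, h1, hc b hb b' hb']
  rw [card_range] at h
  have h2 : ((L / M : ℕ) : ℝ) ≤ L / M := Nat.cast_div_le
  have h3 : (T.card : ℝ) ≤ (L / M : ℕ) + 1 := by exact_mod_cast h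
  linarith

theorem sum_gcd (M B : ℕ) (hM : 0 < M) :
    ∑ h ∈ range B, (h + 1).gcd M ≤ B * M.divisors.card := by
  calc ∑ h ∈ range B, (h + 1).gcd M
      ≤ ∑ h ∈ range B, ∑ e ∈ M.divisors, if e ∣ h + 1 then e else 0 := by
        refine sum_le_sum fun h _ => ?_
        have := single_le_sum (f := fun e => if e ∣ h + 1 then e else 0) (s := M.divisors)
          (fun _ _ => Nat.zero_le _)
          (Nat.mem_divisors.2 ⟨Nat.gcd_dvd_right (h + 1) M, hM.ne'⟩)
        rwa [if_pos (Nat.gcd_dvd_left _ _)] at this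
    _ = ∑ e ∈ M.divisors, B / e * e := by
        rw [sum_comm]
        refine sum_congr rfl fun e _ => ?_
        rw [← sum_filter, sum_const, Nat.card_multiples, smul_eq_mul]
    _ ≤ ∑ e ∈ M.divisors, B := sum_le_sum fun e _ => Nat.div_mul_le_self _ _
    _ = _ := by rw [sum_const, smul_eq_mul, mul_comm]

/-! ### The additive character -/

/-- an additive character of the integers of exact order `M` -/
structure AC (M : ℕ) (ξ : ℤ → ℂ) : Prop where
  add : ∀ a b, ξ (a + b) = ξ a * ξ b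
  norm : ∀ a, ‖ξ a‖ = 1
  ker : ∀ a, ξ a = 1 ↔ (M : ℤ) ∣ a

theorem AC.pow {M : ℕ} {ξ : ℤ → ℂ} (h : AC M ξ) (a : ℤ) (n : ℕ) : ξ (a * n) = ξ a ^ n := by
  induction n with
  | zero => simpa using (h.ker 0).2 (dvd_zero _)
  | succ n ih => rw [Nat.cast_succ, mul_add, mul_one, h.add, ih, pow_succ]

theorem AC.sub {M : ℕ} {ξ : ℤ → ℂ} (h : AC M ξ) (a b : ℤ) :
    ξ (a - b) = ξ a * (starRingEnd ℂ) (ξ b) := by
  have h1 := h.add (a - b) b
  rw [sub_add_cancel] at h1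
  rw [h1, mul_assoc, mul_conj_one (h.norm b), mul_one]

theorem AC.per {M : ℕ} {ξ : ℤ → ℂ} (h : AC M ξ) {a b : ℤ} (hab : (M : ℤ) ∣ a - b) :
    ξ a = ξ b := by
  have h1 := h.add (a - b) b
  rwa [sub_add_cancel, (h.ker _).2 hab, one_mul] at h1

theorem AC.orth {M : ℕ} {ξ : ℤ → ℂ} (h : AC M ξ) (k : ℤ) :
    ∑ y ∈ range M, ξ (k * y) = if (M : ℤ) ∣ k then (M : ℂ) else 0 := by
  rw [sum_congr rfl fun y _ => h.pow k y]
  split_ifs with hk
  · rw [(h.ker k).2 hk]; simp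
  · have h1 : ξ k - 1 ≠ 0 := fun e => hk ((h.ker k).1 (sub_eq_zero.1 e))
    have h2 := geom_sum_mul (ξ k) M
    rw [← h.pow, (h.ker _).2 (dvd_mul_left _ _), sub_self] at h2
    exact (mul_eq_zero.1 h2).resolve_right h1

theorem AC.mean {M : ℕ} {ξ : ℤ → ℂ} (h : AC M ξ) (hM : 0 < M) (k : ℤ) (B L : ℕ) (hL : L ≤ B) :
    ∑ y ∈ range M, ‖∑ b ∈ range L, ξ (k * y) ^ b‖ ^ 2 ≤
      M * (B * (B * (k.natAbs.gcd M : ℝ) / M + 1)) := by
  have e : ((∑ y ∈ range M, ‖∑ b ∈ range L, ξ (k * y) ^ b‖ ^ 2 : ℝ) : ℂ) =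
      ((M * ∑ b' ∈ range L, (((range L).filter fun b : ℕ =>
        (M : ℤ) ∣ k * ((b : ℤ) - b')).card : ℝ) : ℝ) : ℂ) := by
    have e1 : ∀ y : ℕ, ((‖∑ b ∈ range L, ξ (k * y) ^ b‖ ^ 2 : ℝ) : ℂ) =
        ∑ b' ∈ range L, ∑ b ∈ range L, ξ (k * ((b : ℤ) - b') * y) := fun y => by
      rw [← Complex.normSq_eq_norm_sq, ← Complex.mul_conj, map_sum, sum_mul_sum, sum_comm]
      refine sum_congr rfl fun b' _ => sum_congr rfl fun b _ => ?_
      rw [← h.pow, ← h.pow, ← h.sub]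
      exact congrArg ξ (by ring)
    rw [Complex.ofReal_sum, sum_congr rfl fun y _ => e1 y, sum_comm]
    push_cast
    rw [mul_sum]
    refine sum_congr rfl fun b' _ => ?_
    rw [sum_comm, sum_congr rfl fun b _ => h.orth _, ← sum_filter, sum_const, nsmul_eq_mul,
      mul_comm]
  rw [Complex.ofReal_inj.1 e]
  refine mul_le_mul_of_nonneg_left ?_ (Nat.cast_nonneg _)
  set g := k.natAbs.gcd M with hg
  have hg0 : 0 < g := Nat.gcd_pos_of_pos_right _ hM
  obtain ⟨M₁, hM₁⟩ : g ∣ M := Nat.gcd_dvd_right _ _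
  obtain ⟨k₁, hk₁⟩ : g ∣ k.natAbs := Nat.gcd_dvd_left _ _
  have hM₁0 : 0 < M₁ := Nat.pos_of_mul_pos_left (hM₁ ▸ hM)
  have hco : Nat.Coprime M₁ k₁ := by
    have h1 := Nat.coprime_div_gcd_div_gcd (m := k.natAbs) (n := M) hg0
    rw [← hg] at h1
    have a1 : k.natAbs / g = k₁ := Nat.div_eq_of_eq_mul_right hg0 hk₁
    have a2 : M / g = M₁ := Nat.div_eq_of_eq_mul_right hg0 hM₁
    rw [a1, a2] at h1
    exact h1.symm
  have key : ∀ t : ℤ, (M : ℤ) ∣ k * t → (M₁ : ℤ) ∣ t := fun t ht => by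
    rw [Int.natCast_dvd, Int.natAbs_mul, hk₁, mul_assoc] at ht
    rw [Int.natCast_dvd]
    have h2 : g * M₁ ∣ g * (k₁ * t.natAbs) := hM₁ ▸ ht
    exact hco.dvd_of_dvd_mul_left (Nat.dvd_of_mul_dvd_mul_left hg0 h2)
  have hB : (L : ℝ) ≤ B := by exact_mod_cast hL
  have hq : (B : ℝ) / M₁ = B * (g : ℝ) / M := by
    have : (M : ℝ) = g * M₁ := by exact_mod_cast hM₁
    have h1 : (0 : ℝ) < g := by exact_mod_cast hg0
    have h2 : (0 : ℝ) < M₁ := by exact_mod_cast hM₁0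
    rw [this]; field_simp
  calc ∑ b' ∈ range L, (((range L).filter fun b : ℕ => (M : ℤ) ∣ k * ((b : ℤ) - b')).card : ℝ)
      ≤ ∑ b' ∈ range L, ((B : ℝ) / M₁ + 1) := by
        refine sum_le_sum fun b' _ => cnt M₁ B _ (fun b hb => ?_) fun b hb b₂ hb₂ => ?_
        · have := mem_range.1 (mem_filter.1 hb).1; omega
        · have h1 := dvd_sub (key _ (mem_filter.1 hb₂).2) (key _ (mem_filter.1 hb).2)
          rw [sub_sub_sub_cancel_right] at h1
          exact (Nat.modEq_iff_dvd).2 h1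
    _ = L * ((B : ℝ) / M₁ + 1) := by rw [sum_const, card_range, nsmul_eq_mul]
    _ ≤ _ := by
        rw [hq]
        exact mul_le_mul_of_nonneg_right hB (by positivity)

theorem ac_of {m K d : ℕ} {χ : ℤ → ℂ} (hχ : PC m χ) (hd : 1 ≤ d) (hK : m ∣ K ^ (d + 1)) :
    AC (m / m.gcd (K ^ d)) fun y => χ (1 + (K : ℤ) ^ d * y) := by
  set G := m.gcd (K ^ d) with hG
  have hG0 : 0 < G := Nat.gcd_pos_of_pos_left _ hχ.pos
  obtain ⟨M, hM⟩ : G ∣ m := Nat.gcd_dvd_left _ _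
  obtain ⟨k₁, hk₁⟩ : G ∣ K ^ d := Nat.gcd_dvd_right _ _
  have a2 : m / G = M := Nat.div_eq_of_eq_mul_right hG0 hM
  have hco : Nat.Coprime M k₁ := by
    have h1 := Nat.coprime_div_gcd_div_gcd (m := m) (n := K ^ d) hG0
    rw [← hG] at h1
    have a1 : K ^ d / G = k₁ := Nat.div_eq_of_eq_mul_right hG0 hk₁
    rwa [a1, a2] at h1
  have hM0 : 0 < M := Nat.pos_of_mul_pos_left (hM ▸ hχ.pos)
  have hsq : (m : ℤ) ∣ (K : ℤ) ^ d * (K : ℤ) ^ d := by
    have : m ∣ K ^ d * K ^ d := by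
      rw [← pow_add]; exact hK.trans (pow_dvd_pow K (by omega))
    exact_mod_cast this
  have hMz : (m : ℤ) = G * M := by exact_mod_cast hM
  have hkz : (K : ℤ) ^ d = G * k₁ := by exact_mod_cast hk₁
  have hmod : ∀ a b : ℤ, (1 + (K : ℤ) ^ d * (a + b)) ≡
      (1 + (K : ℤ) ^ d * a) * (1 + (K : ℤ) ^ d * b) [ZMOD m] := fun a b => by
    refine (Int.modEq_iff_dvd).2 ?_
    have : (1 + (K : ℤ) ^ d * a) * (1 + (K : ℤ) ^ d * b) - (1 + (K : ℤ) ^ d * (a + b)) =
        (K : ℤ) ^ d * (K : ℤ) ^ d * (a * b) := by ring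
    rw [this]
    exact hsq.mul_right _
  have hadd : ∀ a b : ℤ, χ (1 + (K : ℤ) ^ d * (a + b)) =
      χ (1 + (K : ℤ) ^ d * a) * χ (1 + (K : ℤ) ^ d * b) := fun a b => by
    rw [hχ.per _ _ (hmod a b), hχ.mul]
  have hper : ∀ a : ℤ, (M : ℤ) ∣ a → χ (1 + (K : ℤ) ^ d * a) = 1 := by
    rintro _ ⟨t, rfl⟩
    rw [← hχ.one]
    refine hχ.per _ _ (Int.ModEq.symm ((Int.modEq_iff_dvd).2 ⟨k₁ * t, ?_⟩))
    rw [hkz, hMz]; ring
  have hnorm : ∀ a : ℤ, ‖χ (1 + (K : ℤ) ^ d * a)‖ = 1 := fun a => by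
    refine hχ.norm _ ?_
    obtain ⟨t, ht⟩ := (Int.modEq_iff_dvd).1 (hmod a (-a))
    exact ⟨1 + (K : ℤ) ^ d * -a, -t, by linear_combination ht⟩
  have hmul : ∀ a : ℤ, χ (1 + (K : ℤ) ^ d * a) = 1 → ∀ t : ℤ, χ (1 + (K : ℤ) ^ d * (a * t)) = 1 := by
    intro a ha t
    induction t using Int.induction_on with
    | zero => simpa using hχ.one
    | succ n ih => rw [mul_add a, mul_one, hadd, ih, ha, one_mul]
    | pred n ih =>
      have h1 := hadd (a * (-(n : ℤ) - 1)) a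
      have h2 : a * (-(n : ℤ) - 1) + a = a * -(n : ℤ) := by ring
      rw [h2, ih, ha, mul_one] at h1
      exact h1.symm
  rw [a2]
  refine ⟨hadd, hnorm, fun a => ⟨fun ha => ?_, hper a⟩⟩
  by_contra hna
  have hg : χ (1 + (K : ℤ) ^ d * (Int.gcd a M : ℕ)) = 1 := by
    rw [Int.gcd_eq_gcd_ab, hadd, hmul a ha, hper _ (dvd_mul_right _ _), one_mul]
  obtain ⟨e, he⟩ : Int.gcd a M ∣ M := Int.natCast_dvd_natCast.1 (Int.gcd_dvd_right a M)
  have he1 : e ≠ 1 := by
    rintro rfl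
    rw [mul_one] at he
    exact hna (by rw [he]; exact Int.gcd_dvd_left a _)
  obtain ⟨p, hp, f, rfl⟩ := Nat.exists_prime_and_dvd he1
  set g := Int.gcd a M
  have hpM : p ∣ M := ⟨g * f, by rw [he]; ring⟩
  obtain ⟨x, -, hx1, hx2⟩ := hχ.prim p hp (hM ▸ hpM.mul_left G)
  have hmp : m / p = G * (g * f) :=
    Nat.div_eq_of_eq_mul_right hp.pos (by rw [hM, he]; ring)
  obtain ⟨z, hz⟩ := (Int.modEq_iff_dvd).1 hx1.symm
  obtain ⟨u, v, huv⟩ : IsCoprime (p : ℤ) (k₁ : ℤ) :=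
    Nat.isCoprime_iff_coprime.2 (Nat.Coprime.coprime_dvd_left hpM hco)
  refine hx2 ?_
  rw [← hmul _ hg (f * (v * z))]
  refine hχ.per _ _ ((Int.modEq_iff_dvd).2 ⟨-(u * z), ?_⟩)
  have hez : (M : ℤ) = g * (p * f) := by exact_mod_cast he
  rw [hmp] at hz
  push_cast at hz
  rw [hkz, hMz, hez]
  linear_combination (-1 : ℤ) * hz + ((G : ℤ) * g * f * z) * huv

/-! ### The mean over the base points -/

theorem fiber (M N d : ℕ) [NeZero M] (hd : 0 < d) (S : Finset ℕ) (hS : ∀ n ∈ S, n ≤ N)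
    (v : ℕ → ZMod M) (hv : ∀ n ∈ S, (n : ZMod M) * v n = 1) (y : ℕ) :
    ((S.filter fun n => (v n ^ d).val = y).card : ℝ) ≤
      (N / M + 1) * (M.divisors.card : ℝ) ^ d := by
  set T := S.filter fun n => (v n ^ d).val = y with hT
  rcases T.eq_empty_or_nonempty with h | ⟨n₀, hn₀⟩
  · rw [h, card_empty, Nat.cast_zero]; positivity
  have h0 := mem_filter.1 hn₀
  have hm : ∀ n ∈ T, (n : ZMod M) * v n₀ ∈ univ.filter fun x : ZMod M => x ^ d = 1 := fun n hn => by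
    have h1 := mem_filter.1 hn
    refine mem_filter.2 ⟨mem_univ _, ?_⟩
    have e : v n₀ ^ d = v n ^ d := ZMod.val_injective M (h0.2.trans h1.2.symm)
    rw [mul_pow, e, ← mul_pow, hv n h1.1, one_pow]
  rw [card_eq_sum_card_fiberwise hm, Nat.cast_sum]
  calc ∑ x ∈ univ.filter fun x : ZMod M => x ^ d = 1,
        ((T.filter fun n : ℕ => (n : ZMod M) * v n₀ = x).card : ℝ)
      ≤ ∑ x ∈ univ.filter fun x : ZMod M => x ^ d = 1, ((N : ℝ) / M + 1) := by
        refine sum_le_sum fun x _ => cnt M N _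
          (fun b hb => hS b (mem_filter.1 (mem_filter.1 hb).1).1) fun b hb b' hb' => ?_
        have e := (mem_filter.1 hb).2.trans (mem_filter.1 hb').2.symm
        refine (ZMod.natCast_eq_natCast_iff' b b' M).1 ?_
        linear_combination (n₀ : ZMod M) * e - ((b : ZMod M) - b') * hv n₀ h0.1
    _ ≤ _ := by
        rw [sum_const, nsmul_eq_mul, mul_comm]
        refine mul_le_mul_of_nonneg_left ?_ (by positivity)
        exact_mod_cast card_roots' hd M

theorem base {M : ℕ} {ξ : ℤ → ℂ} (h : AC M ξ) (hM : 0 < M) (N d B : ℕ) (hd : 0 < d) (hN : M ≤ N)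
    (hB : 1 ≤ B) (S : Finset ℕ) (hS : ∀ n ∈ S, n ≤ N) (v : ℕ → ℤ)
    (hv : ∀ n ∈ S, (n : ZMod M) * (v n : ZMod M) = 1) (c : ℤ) (H L : ℕ) (hL : L ≤ B) :
    (∑ n ∈ S, ‖∑ b ∈ range L, (ξ (c * v n ^ d) ^ H) ^ b‖ ^ 2) / (N * B ^ 2) ≤
      2 * (M.divisors.card : ℝ) ^ d * (1 / B + ((c.natAbs * H).gcd M : ℝ) / M) := by
  have : NeZero M := ⟨hM.ne'⟩
  set Φ : ℕ → ℝ := fun y => ‖∑ b ∈ range L, ξ (c * H * y) ^ b‖ ^ 2 with hΦ
  have e : ∀ n, ‖∑ b ∈ range L, (ξ (c * v n ^ d) ^ H) ^ b‖ ^ 2 = Φ ((v n : ZMod M) ^ d).val :=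
    fun n => by
      have h1 : ξ (c * v n ^ d) ^ H = ξ (c * H * (((v n : ZMod M) ^ d).val : ℕ)) := by
        rw [← h.pow]
        refine h.per ((ZMod.intCast_zmod_eq_zero_iff_dvd _ M).1 ?_)
        push_cast
        rw [ZMod.natCast_zmod_val]
        ring
      rw [h1]
  have hM' : (0 : ℝ) < M := by exact_mod_cast hM
  have hN' : (M : ℝ) ≤ N := by exact_mod_cast hN
  have hB' : (0 : ℝ) < B := by exact_mod_cast hB
  have hN0 : (0 : ℝ) < N := hM'.trans_le hN'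
  have hm : ∀ n ∈ S, ((v n : ZMod M) ^ d).val ∈ range M := fun n _ => mem_range.2 (ZMod.val_lt _)
  have h1 : ∑ n ∈ S, Φ ((v n : ZMod M) ^ d).val ≤
      (N / M + 1) * (M.divisors.card : ℝ) ^ d * ∑ y ∈ range M, Φ y := by
    rw [← sum_fiberwise_of_maps_to hm, mul_sum]
    refine sum_le_sum fun y _ => ?_
    rw [sum_congr rfl fun n hn => by rw [(mem_filter.1 hn).2], sum_const, nsmul_eq_mul]
    exact mul_le_mul_of_nonneg_right (fiber M N d hd S hS _ hv y) (sq_nonneg _)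
  have h2 := h.mean hM (c * H) B L hL
  rw [Int.natAbs_mul, Int.natAbs_natCast] at h2
  rw [sum_congr rfl fun n _ => e n, div_le_iff₀ (by positivity)]
  refine h1.trans ((mul_le_mul_of_nonneg_left h2 (by positivity)).trans ?_)
  set g : ℝ := ((c.natAbs * H).gcd M : ℝ)
  have hg : 0 ≤ g := Nat.cast_nonneg _
  have h3 : ((N : ℝ) / M + 1) * M ≤ 2 * N := by
    rw [add_mul, div_mul_cancel₀ _ hM'.ne']; linarith
  calc ((N : ℝ) / M + 1) * (M.divisors.card : ℝ) ^ d * (M * (B * (B * g / M + 1)))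
      = (((N : ℝ) / M + 1) * M) * ((M.divisors.card : ℝ) ^ d * (B * (B * g / M + 1))) := by ring
    _ ≤ 2 * N * ((M.divisors.card : ℝ) ^ d * (B * (B * g / M + 1))) :=
        mul_le_mul_of_nonneg_right h3 (by positivity)
    _ = _ := by field_simp; ring

theorem shift_le (g : ℕ → ℂ) (hg : ∀ n, ‖g n‖ ≤ 1) (N t : ℕ) :
    ‖∑ n ∈ Icc 1 N, g n - ∑ n ∈ Icc 1 N, g (n + t)‖ ≤ 2 * t := by
  have tel : ∀ (f : ℕ → ℂ) (N : ℕ),
      ∑ n ∈ Icc 1 N, f n - ∑ n ∈ Icc 1 N, f (n + 1) = f 1 - f (N + 1) := fun f N => by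
    induction N with
    | zero => simp
    | succ N ih =>
      rw [sum_Icc_succ_top (by omega), sum_Icc_succ_top (by omega)]
      linear_combination ih
  induction t with
  | zero => simp
  | succ t ih =>
    have h1 := tel (fun n => g (n + t)) N
    have e : ∑ n ∈ Icc 1 N, g (n + (t + 1)) = ∑ n ∈ Icc 1 N, g (n + 1 + t) :=
      sum_congr rfl fun n _ => congrArg g (by omega)
    have h2 : ∑ n ∈ Icc 1 N, g n - ∑ n ∈ Icc 1 N, g (n + (t + 1)) =
        (∑ n ∈ Icc 1 N, g n - ∑ n ∈ Icc 1 N, g (n + t)) + (g (1 + t) - g (N + 1 + t)) := by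
      rw [e]; linear_combination h1
    have h3 := norm_sub_le (g (1 + t)) (g (N + 1 + t))
    have h4 := hg (1 + t)
    have h5 := hg (N + 1 + t)
    rw [h2]
    refine (norm_add_le _ _).trans ?_
    push_cast
    linarith

theorem avg_le (g : ℕ → ℂ) (hg : ∀ n, ‖g n‖ ≤ 1) (N K B : ℕ) (hB : 1 ≤ B) :
    ‖∑ n ∈ Icc 1 N, g n‖ ≤ 2 * K * B + (∑ n ∈ Icc 1 N, ‖∑ b ∈ range B, g (n + K * b)‖) / B := by
  have hB' : (0 : ℝ) < B := by exact_mod_cast hB
  have e : (B : ℂ) * ∑ n ∈ Icc 1 N, g n =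
      ∑ b ∈ range B, (∑ n ∈ Icc 1 N, g n - ∑ n ∈ Icc 1 N, g (n + K * b)) +
        ∑ n ∈ Icc 1 N, ∑ b ∈ range B, g (n + K * b) := by
    rw [sum_sub_distrib, sum_const, card_range, nsmul_eq_mul, sum_comm (s := Icc 1 N)]
    ring
  have h1 : ‖∑ b ∈ range B, (∑ n ∈ Icc 1 N, g n - ∑ n ∈ Icc 1 N, g (n + K * b))‖ ≤
      B * (2 * K * B) := by
    refine (norm_sum_le _ _).trans ((sum_le_card_nsmul _ _ (2 * K * B : ℝ) fun b hb => ?_).trans ?_)
    · refine (shift_le g hg N (K * b)).trans ?_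
      have : (b : ℝ) ≤ B := by exact_mod_cast (mem_range.1 hb).le
      push_cast
      have hK : (0 : ℝ) ≤ K := Nat.cast_nonneg K
      nlinarith
    · rw [card_range, nsmul_eq_mul]
  have h2 := norm_sum_le (Icc 1 N) fun n => ∑ b ∈ range B, g (n + K * b)
  have h3 : (B : ℝ) * ‖∑ n ∈ Icc 1 N, g n‖ ≤
      B * (2 * K * B) + ∑ n ∈ Icc 1 N, ‖∑ b ∈ range B, g (n + K * b)‖ := by
    have := congrArg norm e
    rw [norm_mul, Complex.norm_natCast] at this
    rw [this]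
    exact (norm_add_le _ _).trans (add_le_add h1 h2)
  rw [← sub_le_iff_le_add', le_div_iff₀ hB']
  linarith

end Weyl

open Weyl in
theorem weylOf : WeylOf := by
  classical
  intro hP d ε hd hε
  obtain ⟨j, rfl⟩ : ∃ j, d = j + 1 := ⟨d - 1, by omega⟩
  obtain ⟨c, hc, hW⟩ := weyl_ind j
  obtain ⟨D, hD, hdiv⟩ := Pool.Agent.MP_74e98a_nt.H25.divisor_bound (ε / (2 * j + 1 : ℕ))
    (by positivity)
  have hf : (1 : ℝ) ≤ j.factorial := by exact_mod_cast j.factorial_pos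
  set C : ℝ := c * 2 * D ^ (2 * j + 1) * j.factorial with hC
  have hC1 : 1 ≤ C := one_le_mul_of_one_le_of_one_le
    (one_le_mul_of_one_le_of_one_le (by linarith) (one_le_pow₀ hD)) hf
  refine ⟨C, hC1, fun m K N B χ hχ hK hN hB => ?_⟩
  have hA := ac_of hχ hd hK
  have hMm : m / m.gcd (K ^ (j + 1)) ∣ m := Nat.div_dvd_of_dvd (Nat.gcd_dvd_left _ _)
  set M := m / m.gcd (K ^ (j + 1)) with hM
  have hM0 : 0 < M := Nat.pos_of_dvd_of_pos hMm hχ.pos
  have hM' : (0 : ℝ) < M := by exact_mod_cast hM0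
  have hB' : (0 : ℝ) < B := by exact_mod_cast hB
  have hN0 : (0 : ℝ) < N := by exact_mod_cast hM0.trans_le hN
  have h1 : ∀ a, ‖χ a‖ ≤ 1 := fun a => by
    by_cases h : IsCoprime a (m : ℤ)
    · exact (hχ.norm a h).le
    · rw [hχ.zero a h, norm_zero]; exact zero_le_one
  set S := (Icc 1 N).filter fun n : ℕ => IsCoprime (n : ℤ) (m : ℤ) with hS
  have hinv : ∀ n : ℕ, ∃ n' : ℤ, IsCoprime (n : ℤ) (m : ℤ) → n * n' ≡ 1 [ZMOD m] := fun n => by
    by_cases h : IsCoprime (n : ℤ) (m : ℤ)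
    · obtain ⟨a, b, hab⟩ := h
      exact ⟨a, fun _ => (Int.modEq_iff_dvd).2 ⟨b, by linear_combination -hab⟩⟩
    · exact ⟨0, fun h' => absurd h' h⟩
  choose v hv using hinv
  set F : ℕ → ℕ → ℂ := fun n b => χ ((n + K * b : ℕ) : ℤ) with hF
  set c₀ : ℤ := (-1) ^ j * j.factorial with hc₀
  have hc₀' : c₀.natAbs = j.factorial := by
    rw [hc₀, Int.natAbs_mul, Int.natAbs_pow, Int.natAbs_natCast]; simp
  have hred : ∑ n ∈ Icc 1 N, ‖∑ b ∈ range B, F n b‖ = ∑ n ∈ S, ‖∑ b ∈ range B, F n b‖ := by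
    refine (sum_subset (filter_subset _ _) fun n hn hn' => ?_).symm
    have h2 : ¬ IsCoprime (n : ℤ) (m : ℤ) := fun h => hn' (mem_filter.2 ⟨hn, h⟩)
    rw [sum_eq_zero fun b _ => hχ.zero _ fun h => h2 ?_, norm_zero]
    rw [Nat.isCoprime_iff_coprime] at h ⊢
    refine Nat.coprime_of_dvd fun p hp hpn hpm => ?_
    have hpK : p ∣ K := hp.dvd_of_dvd_pow (hpm.trans hK)
    exact hp.one_lt.ne' (Nat.eq_one_of_dvd_coprimes h (dvd_add hpn (hpK.mul_right b)) hpm)
  have hτ : (1 : ℝ) ≤ M.divisors.card := by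
    exact_mod_cast card_pos.2 ⟨1, Nat.one_mem_divisors.2 hM0.ne'⟩
  have hSN : (S.card : ℝ) ≤ N := by
    have h2 : S.card ≤ N := (card_filter_le _ _).trans (by rw [Nat.card_Icc]; omega)
    exact Nat.cast_le.2 h2
  have main := hW S N (2 * (M.divisors.card : ℝ) ^ (j + 1)) M.divisors.card B
    (fun n => χ (1 + (K : ℤ) ^ (j + 1) * (c₀ * v n ^ (j + 1))))
    (fun H => ((c₀.natAbs * H).gcd M : ℝ) / M) hN0 hSN
    (by linarith [one_le_pow₀ (n := j + 1) hτ]) hτ hB (fun H => by positivity)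
    (fun H => by
      rw [← sum_div, ← mul_div_assoc, ← mul_div_assoc]
      refine div_le_div_of_nonneg_right ?_ hM'.le
      have h2 : ∑ h ∈ range B, (c₀.natAbs * (H * (h + 1))).gcd M ≤
          B * (M.divisors.card * (c₀.natAbs * H).gcd M) := by
        calc ∑ h ∈ range B, (c₀.natAbs * (H * (h + 1))).gcd M
            ≤ ∑ h ∈ range B, (h + 1).gcd M * (c₀.natAbs * H).gcd M := by
              refine sum_le_sum fun h _ => Nat.le_of_dvd (Nat.mul_pos
                (Nat.gcd_pos_of_pos_right _ hM0) (Nat.gcd_pos_of_pos_right _ hM0)) ?_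
              rw [← mul_assoc, mul_comm _ (h + 1), Nat.gcd_comm _ M, Nat.gcd_comm _ M,
                Nat.gcd_comm _ M]
              exact Nat.gcd_mul_right_dvd_mul_gcd _ _ _
          _ ≤ _ := by
              rw [← sum_mul, ← mul_assoc]
              exact Nat.mul_le_mul_right _ (sum_gcd M B hM0)
      exact_mod_cast h2)
    (fun H L hL => base hA hM0 N (j + 1) B hd hN hB S
      (fun n hn => (mem_Icc.1 (mem_filter.1 hn).1).2) v
      (fun n hn => by
        have h2 := ((hv n (mem_filter.1 hn).2).of_dvd (Int.natCast_dvd_natCast.2 hMm))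
        have h3 := (ZMod.intCast_eq_intCast_iff _ _ M).2 h2
        push_cast at h3
        exact h3) c₀ H L hL)
    1 B F le_rfl
    (fun n hn => by
      have h2 := hP m K (j + 1) χ n (v n) 1 hχ hd hK (hv n (mem_filter.1 hn).2)
      have e : (1 : ℤ) + (-1) ^ (j + 1 - 1) * (j + 1 - 1).factorial * (K * 1 * v n) ^ (j + 1) =
          1 + (K : ℤ) ^ (j + 1) * (c₀ * v n ^ (j + 1)) := by
        rw [Nat.add_sub_cancel, hc₀]; ring
      rw [e] at h2
      rw [pow_one]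
      exact ph_congr (fun b => congrArg χ (by push_cast; ring)) h2)
  set T : ℝ := (∑ n ∈ S, ‖∑ b ∈ range B, F n b‖) / (N * B) with hT
  have hT0 : 0 ≤ T := div_nonneg (sum_nonneg fun _ _ => norm_nonneg _) (by positivity)
  set X : ℝ := (m : ℝ) ^ ε * (1 / M + 1 / B) with hX
  have hX0 : 0 ≤ X := by positivity
  have hτm : (M.divisors.card : ℝ) ^ (2 * j + 1) ≤ D ^ (2 * j + 1) * (m : ℝ) ^ ε := by
    refine (pow_le_pow_left₀ (by positivity) (hdiv M) _).trans ?_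
    rw [mul_pow, ← Real.rpow_natCast ((M : ℝ) ^ _), ← Real.rpow_mul hM'.le,
      div_mul_cancel₀ _ (by positivity)]
    refine mul_le_mul_of_nonneg_left (Real.rpow_le_rpow hM'.le ?_ hε.le) (by positivity)
    exact_mod_cast Nat.le_of_dvd hχ.pos hMm
  have hγ : 1 / (B : ℝ) + ((c₀.natAbs * 1).gcd M : ℝ) / M ≤ j.factorial * (1 / M + 1 / B) := by
    have h2 : ((c₀.natAbs * 1).gcd M : ℝ) ≤ j.factorial := by
      rw [mul_one, hc₀']
      exact_mod_cast Nat.gcd_le_left M j.factorial_pos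
    have h3 := div_le_div_of_nonneg_right h2 hM'.le
    have h4 : 1 / (B : ℝ) ≤ j.factorial * (1 / B) := le_mul_of_one_le_left (by positivity) hf
    rw [mul_add, mul_one_div]
    linarith
  have hTP : T ^ 2 ^ (j + 1) ≤ C * X := by
    rw [pow_succ' 2 j, pow_mul]
    refine (pow_le_pow_left₀ (sq_nonneg _) (cs_avg S N B hN0 hB' hSN _) _).trans (main.trans ?_)
    calc c * (2 * (M.divisors.card : ℝ) ^ (j + 1)) * (M.divisors.card : ℝ) ^ j *
          (1 / (B : ℝ) + ((c₀.natAbs * 1).gcd M : ℝ) / M)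
        = c * 2 * ((M.divisors.card : ℝ) ^ (2 * j + 1) *
          (1 / (B : ℝ) + ((c₀.natAbs * 1).gcd M : ℝ) / M)) := by ring
      _ ≤ c * 2 * (D ^ (2 * j + 1) * (m : ℝ) ^ ε * (j.factorial * (1 / M + 1 / B))) :=
          mul_le_mul_of_nonneg_left (mul_le_mul hτm hγ (by positivity) (by positivity))
            (by positivity)
      _ = _ := by rw [hC, hX]; ring
  have hTX : T ≤ C * X ^ (1 / (2 : ℝ) ^ (j + 1)) := by
    have e : (1 / (2 : ℝ) ^ (j + 1)) = ((2 ^ (j + 1) : ℕ) : ℝ)⁻¹ := by push_cast; rw [one_div]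
    have h2 : T ≤ (C * X) ^ (1 / (2 : ℝ) ^ (j + 1)) := by
      rw [e]
      calc T = (T ^ 2 ^ (j + 1)) ^ (((2 ^ (j + 1) : ℕ) : ℝ)⁻¹) :=
            (Real.pow_rpow_inv_natCast hT0 (by positivity)).symm
        _ ≤ _ := Real.rpow_le_rpow (by positivity) hTP (by positivity)
    rw [Real.mul_rpow (by linarith) hX0] at h2
    refine h2.trans (mul_le_mul_of_nonneg_right ?_ (by positivity))
    refine Real.rpow_le_self_of_one_le hC1 ?_
    rw [div_le_one (by positivity)]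
    exact one_le_pow₀ (by norm_num)
  have h5 := avg_le (fun n : ℕ => χ n) (fun n => h1 _) N K B hB
  rw [hred] at h5
  refine h5.trans (add_le_add le_rfl ?_)
  have h6 : (∑ n ∈ S, ‖∑ b ∈ range B, F n b‖) / B = N * T := by rw [hT]; field_simp
  rw [h6, mul_comm C N, mul_assoc]
  exact mul_le_mul_of_nonneg_left hTX hN0.le

end Pool.Agent.MP_c5bf7b_nt.H38
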