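import Pool.Agent.MP_c5bf7b_nt.H38.Fact
import Pool.Agent.MP_c5bf7b_nt.H38.Weil
import Pool.Agent.MP_c5bf7b_nt.H38.HP
import Pool.Agent.MP_c5bf7b_nt.H38.P3
import Pool.Agent.MP_c5bf7b_nt.H38.Poly
import Pool.Agent.MP_c5bf7b_nt.H38.Net
import Pool.Agent.MP_c5bf7b_nt.H38.Gcd
import Pool.Agent.MP_c5bf7b_nt.H38.Mom
import Pool.Agent.MP_c5bf7b_nt.H38.Ener
import Pool.Agent.MP_c5bf7b_nt.H38.Core
import Pool.Agent.MP_c5bf7b_nt.H38.BW
import Pool.Agent.MP_c5bf7b_nt.H38.Split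
import Pool.Agent.MP_c5bf7b_nt.H38.BM1
import Pool.Agent.MP_c5bf7b_nt.H38.BM2
import Pool.Agent.MP_c5bf7b_nt.H38.Burg
import Pool.Agent.MP_c5bf7b_nt.H38.Esz
import Pool.Agent.MP_c5bf7b_nt.H38.Tan
import Pool.Agent.MP_c5bf7b_nt.H38.Weyl

/-! The Burgess bound for all moduli. -/

set_option autoImplicit false

namespace Pool.Agent.MP_c5bf7b_nt.H38

theorem burg : BurgS :=
  burgOf fact1 split (bwOf (weylOf poly))
    (bm1Of fact2 (momOf fact2 weil hp p3 gcdS).1 ener (coreOf poly net))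
    (bm2Of fact2 (momOf fact2 weil hp p3 gcdS).2 (tanOf esz) ener (coreOf poly net))

end Pool.Agent.MP_c5bf7b_nt.H38
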