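import Pool.Agent.MP_c5bf7b_nt.H38.SpecC

/-! From the zeros to the configuration. -/

set_option autoImplicit false

namespace Pool.Agent.MP_c5bf7b_nt.H38

open Finset Complex

namespace CfgR

open Classical in
theorem gen (hA : AdmS) (hK : KwS) (hD : D2S) {q : ℕ} [NeZero q] {N : Ch q → Multiset ℂ}
    {Lm Th C M T l₁ l₂ : ℝ} {J : Finset (Ch q)} {z : Ch q → ℂ} (env : Env q N Lm Th C M)
    (hT : Real.log q ≤ T) (h3 : 3 * T ≤ Th) (E : Ch q → Multiset ℂ) (nm nE ex : ℕ)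
    (S : Finset (Ch q)) (y : Ch q → ℂ) (hE : ∀ χ, E χ ≤ N χ) (hE1 : E 1 = 0)
    (hc : ∑ χ, (E χ).card ≤ nE) (hn : nE ≤ 2) (hre : ∀ χ, ∀ ζ ∈ E χ, ζ.re = l₁)
    (hF : Far N E T l₂) (h0 : 0 < l₁) (h12 : l₁ ≤ l₂) (h2 : l₂ ≤ Lm) (hS : S.card = nm)
    (hy : ∀ χ ∈ S, y χ ∈ E χ ∧ |(y χ).im| ≤ T ∧ (E χ).card = ex + 1)
    (hJ : ∀ χ ∈ J, χ ≠ 1 ∧ E χ = 0 ∧ z χ ∈ N χ ∧ |(z χ).im| ≤ T ∧ l₂ ≤ (z χ).re ∧
      (z χ).re < Lm) : Cfg nm nE ex l₁ l₂ (J.val.map fun χ => (z χ).re) := by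
  have hT0 : 0 ≤ T := (Real.log_natCast_nonneg q).trans hT
  have hnS : ∀ χ ∈ J, χ ∉ S := fun χ h1 h2 => by
    have := (hy χ h2).1
    rw [(hJ χ h1).2.1] at this
    simp at this
  have hdis : Disjoint J S := disjoint_left.2 hnS
  let w : Ch q → ℂ := fun χ => if χ ∈ S then y χ else z χ
  have hwJ : ∀ χ ∈ J, w χ = z χ := fun χ h => if_neg (hnS χ h)
  have hwS : ∀ χ ∈ S, w χ = y χ := fun χ h => if_pos h
  have hw : ∀ χ ∈ J ∪ S, χ ≠ 1 ∧ w χ ∈ N χ ∧ (w χ).re ≤ Lm ∧ |(w χ).im| ≤ T := by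
    intro χ h
    rcases mem_union.1 h with h | h
    · rw [hwJ χ h]
      exact ⟨(hJ χ h).1, (hJ χ h).2.2.1, (hJ χ h).2.2.2.2.2.le, (hJ χ h).2.2.2.1⟩
    · rw [hwS χ h]
      refine ⟨?_, Multiset.mem_of_le (hE χ) (hy χ h).1, ?_, (hy χ h).2.1⟩
      · rintro rfl
        have := (hy 1 h).1
        rw [hE1] at this
        simp at this
      · rw [hre χ _ (hy χ h).1]; linarith
  have hsum : ∀ (G : Ch q → ℝ) (g : ℝ → ℝ) (a : ℝ), (∀ χ ∈ J, g (z χ).re ≤ G χ) →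
      (∀ χ ∈ S, a ≤ G χ) →
      ((J.val.map fun χ => (z χ).re).map g).sum + nm * a ≤ ∑ χ ∈ J ∪ S, G χ := by
    intro G g a g1 g2
    rw [sum_union hdis, Multiset.map_map, ← hS]
    refine add_le_add (sum_le_sum (f := fun χ => g (z χ).re) g1) ?_
    simpa using card_nsmul_le_sum S G a g2
  refine ⟨h0, h12, fun l hl => ?_, fun i hi j hj k hk => ?_,
    fun i hi θ lam cE bb hθ hl hl2 hcE hF1 hbb => ?_⟩
  · obtain ⟨χ, h, rfl⟩ := Multiset.mem_map.1 hl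
    exact (hJ χ h).2.2.2.2.1
  · refine le_trans (hsum _ _ _ (fun χ h => ?_) fun χ h => ?_) (env.d1 i hi j hj k hk (J ∪ S) w
      fun χ h => ⟨(hw χ h).1, (hw χ h).2.1, (hw χ h).2.2.1, by linarith [(hw χ h).2.2.2]⟩)
    · rw [hwJ χ h]
    · rw [hwS χ h, hre χ _ (hy χ h).1]
  · have hi' : (8 : ℝ) ≤ i ∧ (i : ℝ) ≤ 35 := by exact_mod_cast mem_Icc.1 hi
    have hc0 : 0 < c0 := by unfold c0; norm_num
    have hkw := hK q N E _ _ Lm Th T (lam + c0) env.two (env.kf i hi)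
      (fun χ ζ h => (env.pos χ ζ h).1)
      (fun χ ζ h k hk => by linarith [hF χ ζ h k hk]) hT h3 (by linarith) (by linarith)
    rw [add_sub_cancel_right, max_eq_left hl] at hkw
    have h4 := hD q N E _ _ T lam cE θ nE (J ∪ S) w env.two
      (hA.1 ((i : ℝ) / 10) (by linarith) (by linarith)) hkw hE hE1 hc hn hcE
      (fun χ ζ h => by rw [hre χ ζ h]; exact hF1) hθ
      fun χ h => ⟨(hw χ h).1, (hw χ h).2.1, (hw χ h).2.2.2⟩
    have hp : par ((i : ℝ) / 10) 0 = 1 := by simp [par]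
    rw [hp] at h4
    refine le_trans (hsum _ _ _ (fun χ h => ?_) fun χ h => ?_) h4
    · rw [hwJ χ h, (hJ χ h).2.1]
      refine max_le_max le_rfl ?_
      simp only [Fp, Multiset.erase_zero, Multiset.card_zero, Nat.cast_zero, mul_zero,
        sub_zero] at hbb ⊢
      linarith
    · rw [hwS χ h, hre χ _ (hy χ h).1, Multiset.card_erase_of_mem (hy χ h).1, (hy χ h).2.2]
      refine max_le_max le_rfl ?_
      simp only [Fp, Nat.pred_succ] at hbb ⊢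
      linarith

open Classical in
theorem sum_EE {q : ℕ} [NeZero q] (χ₁ : Ch q) (ζ₁ : ℂ) :
    ∑ χ, (EE χ₁ ζ₁ χ).card = if χ₁ = χ₁⁻¹ ∧ ζ₁.im = 0 then 1 else 2 := by
  simp only [EE, Multiset.card_add, sum_add_distrib, apply_ite Multiset.card,
    Multiset.card_singleton, Multiset.card_zero]
  split_ifs with h
  · simp [h.2, ← h.1]
  · simp [h]

end CfgR

open Classical in
theorem cfgOf : CfgOf := by
  intro _ hA hK hD q _ N Lm Th C M T l₁ l₂ J z env hT h3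
  refine ⟨fun hF h0 hl hJ => CfgR.gen hA hK hD env hT h3 0 0 0 0 ∅ z (fun _ => Multiset.zero_le _)
    rfl (by simp) (by norm_num) (by simp) hF h0 le_rfl hl rfl (by simp)
    fun χ h => ⟨(hJ χ h).1, rfl, (hJ χ h).2⟩, fun χ₁ ζ₁ W h1 hJ => ?_⟩
  have hE1 : EE χ₁ ζ₁ 1 = 0 := by
    have : ¬ (1 : Ch q) = χ₁⁻¹ := fun h => h1 (inv_eq_one.1 h.symm)
    simp [EE, h1.symm, this]
  have hre : ∀ χ, ∀ ζ ∈ EE χ₁ ζ₁ χ, ζ.re = l₁ := by
    intro χ ζ h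
    rw [← W.re]
    unfold EE at h
    rcases Multiset.mem_add.1 h with h | h <;> split_ifs at h <;> simp_all
  have hm : ζ₁ ∈ EE χ₁ ζ₁ χ₁ := by simp [EE]
  have h0 : 0 < l₁ := W.re ▸ (env.pos χ₁ ζ₁ (Multiset.mem_of_le (W.le χ₁) hm)).1
  refine ⟨fun h => ?_, fun h h' => ?_, fun h h' => ?_⟩
  · refine CfgR.gen hA hK hD env hT h3 _ 2 2 0 {χ₁, χ₁⁻¹}
      (fun χ => if χ = χ₁ then ζ₁ else (starRingEnd ℂ) ζ₁) W.le hE1
      (by rw [CfgR.sum_EE]; split_ifs <;> norm_num) le_rfl hre W.far h0 W.l12 W.l2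
      (card_pair h) (fun χ hχ => ?_) hJ
    rcases mem_insert.1 hχ with rfl | hχ
    · simpa [EE, h] using W.im
    · rw [mem_singleton.1 hχ]
      simpa [EE, h, h.symm] using W.im
  · refine CfgR.gen hA hK hD env hT h3 _ 1 2 1 {χ₁} (fun _ => ζ₁) W.le hE1
      (by rw [CfgR.sum_EE]; split_ifs <;> norm_num) le_rfl hre W.far h0 W.l12 W.l2
      (card_singleton _) (fun χ hχ => ?_) hJ
    rw [mem_singleton.1 hχ]
    exact ⟨hm, W.im, by simp [EE, ← h, h']⟩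
  · refine CfgR.gen hA hK hD env hT h3 _ 1 1 0 {χ₁} (fun _ => ζ₁) W.le hE1
      (by rw [CfgR.sum_EE, if_pos ⟨h, h'⟩]) (by norm_num) hre W.far h0 W.l12 W.l2
      (card_singleton _) (fun χ hχ => ?_) hJ
    rw [mem_singleton.1 hχ]
    exact ⟨hm, W.im, by simp [EE, ← h, h']⟩

end Pool.Agent.MP_c5bf7b_nt.H38
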