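import Pool.Agent.MP_c5bf7b_nt.H38.D11

/-! The density estimate without logarithms. -/

set_option autoImplicit false

namespace Pool.Agent.MP_c5bf7b_nt.H38

open Finset Complex ArithmeticFunction

namespace D1

theorem tbound (X : ℕ) (f g : ℕ → ℝ) (h : ℕ → ℂ) (hm : ∀ a b, h (a * b) = h a * h b) (C η : ℝ)
    (hC : 0 ≤ C) (hη : 0 ≤ η) (hf : ∀ d, 1 ≤ d → |f d| ≤ 1) (hg : ∀ e, |g e| ≤ 1)
    (hk : ∀ d e, 1 ≤ d → 1 ≤ e → f d ≠ 0 → g e ≠ 0 →
      ‖h (d.lcm e)‖ ≤ C / (d.lcm e : ℝ) ∧ ‖∑ m ∈ Icc 1 (X / d.lcm e), h m‖ ≤ η) :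
    ‖∑ n ∈ Icc 1 X, (((∑ d ∈ n.divisors, f d) * ∑ e ∈ n.divisors, g e : ℝ) : ℂ) * h n‖ ≤
      C * η * (1 + Real.log X) ^ 3 := by
  rw [expand X f g h hm]
  refine le_trans ?_ (mul_le_mul_of_nonneg_left (lcm_sum X) (mul_nonneg hC hη))
  rw [mul_sum]
  refine (norm_sum_le _ _).trans (sum_le_sum fun d hd => ?_)
  rw [mul_sum]
  refine (norm_sum_le _ _).trans (sum_le_sum fun e he => ?_)
  by_cases h1 : f d = 0
  · simp only [h1, zero_mul, ofReal_zero, norm_zero]; positivity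
  by_cases h2 : g e = 0
  · simp only [h2, zero_mul, mul_zero, ofReal_zero, norm_zero]; positivity
  obtain ⟨a1, a2⟩ := hk d e (mem_Icc.1 hd).1 (mem_Icc.1 he).1 h1 h2
  rw [norm_mul, norm_mul, Complex.norm_real, Real.norm_eq_abs, abs_mul]
  have a3 : |f d| * |g e| ≤ 1 := mul_le_one₀ (hf d (mem_Icc.1 hd).1) (abs_nonneg _) (hg e)
  have a4 := mul_le_mul a1 a2 (norm_nonneg _) (by positivity)
  calc _ ≤ 1 * (C / (d.lcm e : ℝ) * η) := mul_le_mul a3 a4 (by positivity) zero_le_one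
    _ = _ := by ring

theorem bv_eq {U V : ℝ} (hU : 0 < U) (hV : U < V) {d : ℕ} (hd : 1 ≤ d) :
    bv U V d = (max 0 (Real.log V - Real.log d) - max 0 (Real.log U - Real.log d)) /
      (Real.log V - Real.log U) := by
  have h0 : (d : ℝ) ≠ 0 := by exact_mod_cast (by omega : d ≠ 0)
  rw [bv, Real.log_div (hU.trans hV).ne' h0, Real.log_div hU.ne' h0,
    Real.log_div (hU.trans hV).ne' hU.ne']

theorem bv_abs {U V : ℝ} (hU : 0 < U) (hV : U < V) {d : ℕ} (hd : 1 ≤ d) :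
    |(moebius d : ℝ) * bv U V d| ≤ 1 := by
  have hl := Real.log_lt_log hU hV
  have h1 : |(moebius d : ℝ)| ≤ 1 := by exact_mod_cast abs_moebius_le_one (n := d)
  rw [abs_mul]
  refine mul_le_one₀ h1 (abs_nonneg _) ?_
  rw [bv_eq hU hV hd, abs_div, abs_of_pos (sub_pos.2 hl), div_le_one (sub_pos.2 hl), abs_le]
  constructor <;> simp only [max_def] <;> split_ifs <;> linarith

theorem bv_one {U V : ℝ} (hU : 0 < U) (hV : U < V) {d : ℕ} (hd : 1 ≤ d) (h : (d : ℝ) ≤ U) :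
    bv U V d = 1 := by
  have hl := Real.log_lt_log hU hV
  have h1 := Real.log_le_log (by exact_mod_cast hd) h
  rw [bv_eq hU hV hd, max_eq_right (by linarith), max_eq_right (by linarith),
    div_eq_one_iff_eq (sub_pos.2 hl).ne']
  ring

theorem bv_supp {U V : ℝ} (hU : 0 < U) (hV : U < V) {d : ℕ} (hd : 1 ≤ d) (h : bv U V d ≠ 0) :
    (d : ℝ) ≤ V := by
  by_contra hc
  have hl := Real.log_lt_log hU hV
  have h1 := Real.log_lt_log (hU.trans hV) (not_le.1 hc)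
  apply h
  rw [bv_eq hU hV hd, max_eq_left (by linarith), max_eq_left (by linarith), sub_self, zero_div]

theorem A_small {U V : ℝ} (hU : 0 < U) (hV : U < V) {n : ℕ} (hn : 1 < n) (h : (n : ℝ) ≤ U) :
    ∑ d ∈ n.divisors, (moebius d : ℝ) * bv U V d = 0 := by
  have h1 : ∑ d ∈ n.divisors, (moebius d : ℝ) * bv U V d = ∑ d ∈ n.divisors, (moebius d : ℝ) := by
    refine sum_congr rfl fun d hd => ?_
    rw [bv_one hU hV (Nat.pos_of_mem_divisors hd)
      (le_trans (by exact_mod_cast Nat.divisor_le hd) h), mul_one]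
  have h2 : ∑ d ∈ n.divisors, moebius d = 0 := by
    rw [← coe_mul_zeta_apply, moebius_mul_coe_zeta, one_apply_ne hn.ne']
  rw [h1]
  exact_mod_cast h2

theorem npow {n : ℕ} (hn : 0 < n) (w : ℂ) : (n : ℂ) ^ w = exp ((Real.log n : ℝ) * w) := by
  rw [cpow_def_of_ne_zero (by exact_mod_cast hn.ne'), Complex.natCast_log]

theorem term {q : ℕ} [NeZero q] (χ ψ : Ch q) (ρ ρ' : ℂ) (B r : ℝ) {n : ℕ} (hn : 0 < n) :
    ((B ^ 2 / (n : ℝ) ^ r : ℝ) : ℂ) *
        (χ n * (n : ℂ) ^ (-ρ) * (starRingEnd ℂ) (ψ n * (n : ℂ) ^ (-ρ'))) =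
      ((B ^ 2 : ℝ) : ℂ) * (χ * ψ⁻¹) n * (n : ℂ) ^ (-(ρ + (starRingEnd ℂ) ρ' + r)) := by
  have h1 : (starRingEnd ℂ) (ψ n) = ψ⁻¹ n := MulChar.star_apply' ψ n
  rw [npow hn, npow hn, npow hn, Real.rpow_def_of_pos (by exact_mod_cast hn), map_mul, h1,
    ← exp_conj, map_mul, conj_ofReal, map_neg, MulChar.coeToFun_mul, Pi.mul_apply, div_eq_mul_inv,
    ← Real.exp_neg, ofReal_mul, ofReal_exp]
  have : ((Real.log n : ℝ) : ℂ) * -(ρ + (starRingEnd ℂ) ρ' + r) =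
      ((-(Real.log n * r) : ℝ) : ℂ) + (Real.log n : ℝ) * -ρ + (Real.log n : ℝ) * -(starRingEnd ℂ) ρ' := by
    simp only [ofReal_neg, ofReal_mul]
    ring
  rw [this, Complex.exp_add, Complex.exp_add]
  ring

theorem diag {q : ℕ} [NeZero q] (χ : Ch q) (I : Finset ℕ) (hI : ∀ n ∈ I, 0 < n) (B : ℕ → ℝ)
    (s : ℂ) : ‖∑ n ∈ I, ((B n ^ 2 : ℝ) : ℂ) * χ n * (n : ℂ) ^ (-s)‖ ≤
      ∑ n ∈ I.filter (fun n => n.Coprime q), B n ^ 2 * (n : ℝ) ^ (-s.re) := by
  rw [sum_filter]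
  refine (norm_sum_le _ _).trans (sum_le_sum fun n hn => ?_)
  by_cases h : n.Coprime q
  · rw [if_pos h, norm_mul, norm_mul, Complex.norm_real, Real.norm_of_nonneg (sq_nonneg _),
      norm_natCast_cpow_of_pos (hI n hn), neg_re]
    refine mul_le_mul_of_nonneg_right ?_ (by positivity)
    exact mul_le_of_le_one_right (sq_nonneg _) (χ.norm_le_one _)
  · rw [if_neg h, MulChar.map_nonunit χ (by rwa [ZMod.isUnit_iff_coprime]), mul_zero, zero_mul,
      norm_zero]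

theorem II_pos {u x α : ℝ} (h : u < x) (hα : 0 < α) : 0 < II u x α :=
  div_pos (sub_pos.2 (Real.exp_lt_exp.2 (mul_lt_mul_of_pos_left h hα))) hα

end D1

open D1

theorem d1Of : D1Of := by
  classical
  intro hC hT hBv hSel hG φ a b θ ε hφ ha hb hθ hε
  obtain ⟨C, -, hC⟩ := hC
  set u := φ + 2 * a with hu
  set x := 2 * φ + 3 * a + b with hx
  have hux : u < x := by linarith
  have hu0 : 0 < u := by linarith
  have hx0 : 1 / 2 < x := by linarith
  set E := Real.exp (-θ * u) * (1 - Real.exp (-θ * b)) / (θ * b) ^ 2 with hE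
  have hE0 : 0 ≤ E := by
    have : Real.exp (-θ * b) ≤ 1 := Real.exp_le_one_iff.2 (by nlinarith)
    have : 0 ≤ 1 - Real.exp (-θ * b) := by linarith
    positivity
  obtain ⟨τ, hτ, hτ2, hτ3⟩ := small E a ε hε
  obtain ⟨δT, hδT, qT, hT⟩ := hT ((φ + 1 / 4) / 2) (by linarith)
  obtain ⟨δG, hδG, qG, hG⟩ := hG φ a u x τ hφ ha le_rfl hux hτ
  obtain ⟨l₀, hBv⟩ := hBv u b θ τ hu0 hb hθ hτ
  obtain ⟨q1, h1⟩ := biglog (max (max l₀ 1) (2 * θ / δG))
  obtain ⟨q2, h2⟩ := big a 2 ha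
  obtain ⟨q3, h3⟩ := big ((φ - 1 / 4) / 2) 2 (by linarith)
  obtain ⟨q4, h4⟩ := big (δT / 4) ((1 + x / (δT / 12)) ^ 3 / τ) (by positivity)
  obtain ⟨q5, h5⟩ := big δG (1 / τ) hδG
  obtain ⟨q6, h6⟩ := big (δG / 2) 2 (by positivity)
  set δ := min (δT / (2 * x)) (δG / 4) with hδ
  have hδ0 : 0 < δ := by positivity
  have hδ1 : δ * x ≤ δT / 2 := by
    have : δ ≤ δT / (2 * x) := min_le_left _ _
    rw [le_div_iff₀ (by linarith)] at this
    linarith
  have hδ2 : δ ≤ δG / 4 := min_le_right _ _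
  have hδ3 : δ ≤ δT := by
    have := mul_lt_mul_of_pos_left hx0 hδ0
    linarith
  refine ⟨δ, hδ0, 2 + qT + qG + q1 + q2 + q3 + q4 + q5 + q6, fun q _ hq N hN J z hz => ?_⟩
  replace hT := hT q (by omega)
  replace hG := hG q (by omega)
  replace h1 := h1 q (by omega)
  replace h2 := h2 q (by omega)
  replace h3 := h3 q (by omega)
  replace h4 := h4 q (by omega)
  replace h5 := h5 q (by omega)
  replace h6 := h6 q (by omega)
  have hq2 : 2 ≤ q := by omega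
  have hq1 : (1 : ℝ) < q := by exact_mod_cast hq2
  have hq0 : (0 : ℝ) < q := by linarith
  obtain ⟨t, ht⟩ := hSel q ((q : ℝ) ^ a) (by omega) h2
  obtain ⟨hG1, hG2⟩ := hG t ht
  set l := Real.log q with hl
  have hl1 : 1 ≤ l := ((le_max_right _ _).trans (le_max_left _ _)).trans h1
  have hl0 : 0 < l := by linarith
  have hl2 : 2 * θ ≤ l * δG := (div_le_iff₀ hδG).1 ((le_max_right _ _).trans h1)
  replace hBv := hBv l (((le_max_left _ _).trans (le_max_left _ _)).trans h1) ⌊(q : ℝ) ^ x⌋₊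
  have eU : Real.exp (u * l) = (q : ℝ) ^ u := by rw [Real.rpow_def_of_pos hq0, mul_comm]
  have eV : Real.exp ((u + b) * l) = (q : ℝ) ^ (u + b) := by
    rw [Real.rpow_def_of_pos hq0, mul_comm]
  rw [eU, eV] at hBv
  have hU0 : (0 : ℝ) < (q : ℝ) ^ u := by positivity
  have hU1 : (1 : ℝ) ≤ (q : ℝ) ^ u := Real.one_le_rpow hq1.le hu0.le
  have hUV : (q : ℝ) ^ u < (q : ℝ) ^ (u + b) := Real.rpow_lt_rpow_of_exponent_lt hq1 (by linarith)
  have hUn : 1 ≤ ⌊(q : ℝ) ^ u⌋₊ := Nat.le_floor (by exact_mod_cast hU1)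
  have hUX : ⌊(q : ℝ) ^ u⌋₊ ≤ ⌊(q : ℝ) ^ x⌋₊ :=
    Nat.floor_le_floor (Real.rpow_le_rpow_of_exponent_le hq1.le hux.le)
  set A : ℕ → ℝ := fun n =>
    ∑ d ∈ n.divisors, (moebius d : ℝ) * bv ((q : ℝ) ^ u) ((q : ℝ) ^ (u + b)) d with hA
  set B : ℕ → ℝ := fun n => ∑ d ∈ n.divisors, t d with hB
  have hA1 : A 1 = 1 := by
    simp only [hA, Nat.divisors_one, sum_singleton]
    rw [bv_one hU0 hUV le_rfl (by exact_mod_cast hU1)]
    simp
  have hB1 : B 1 = 1 := by simp only [hB, Nat.divisors_one, sum_singleton, ht.one]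
  have hA0 : ∀ n, 1 < n → n ≤ ⌊(q : ℝ) ^ u⌋₊ → A n = 0 := fun n h h' =>
    A_small hU0 hUV h ((Nat.le_floor_iff hU0.le).1 h')
  set ρ : Ch q → ℂ := fun χ => 1 - z χ / (l : ℂ) with hρ
  have hre : ∀ χ, (ρ χ).re = 1 - (z χ).re / l := fun χ => by
    simp only [hρ, sub_re, one_re, div_ofReal_re]
  have him : ∀ χ, (ρ χ).im = -((z χ).im / l) := fun χ => by
    simp only [hρ, sub_im, one_im, div_ofReal_im, zero_sub]
  have hz0 : ∀ χ ∈ J, 0 < (z χ).re ∧ DirichletCharacter.LFunction χ (ρ χ) = 0 := by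
    intro χ hχ
    obtain ⟨b1, -, -, b2⟩ := ((hC q χ hq2).2 _ (hN χ)).2.1 _ (hz χ hχ).2.1
    refine ⟨b1, ?_⟩
    rw [Phi, if_neg (hz χ hχ).1] at b2
    exact b2
  have hre1 : ∀ χ ∈ J, 0 < (z χ).re / l ∧ (z χ).re / l ≤ δ := fun χ hχ =>
    ⟨div_pos (hz0 χ hχ).1 hl0, (div_le_iff₀ hl0).2 (hz χ hχ).2.2.1⟩
  have him1 : ∀ χ ∈ J, |(ρ χ).im| ≤ (q : ℝ) ^ δ := fun χ hχ => by
    rw [him, abs_neg, abs_div, abs_of_pos hl0, div_le_iff₀ hl0]
    exact (hz χ hχ).2.2.2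
  have hI : ∀ n ∈ Ioc ⌊(q : ℝ) ^ u⌋₊ ⌊(q : ℝ) ^ x⌋₊, 0 < n := fun n hn =>
    lt_of_le_of_lt (Nat.zero_le _) (mem_Ioc.1 hn).1
  have hw : ∀ χ ∈ J, 0 < II u x (2 * (z χ).re + θ) := fun χ hχ =>
    II_pos hux (by have := (hz0 χ hχ).1; linarith)
  have key := dual (Ioc ⌊(q : ℝ) ^ u⌋₊ ⌊(q : ℝ) ^ x⌋₊) J (fun χ => c1 φ a b θ (z χ).re)
    (fun χ n => χ n * (n : ℂ) ^ (-ρ χ)) A B (fun n => (n : ℝ) ^ (-1 - θ / l)) τ (E + τ)
    ((1 + τ) / a) (fun χ hχ => (one_div_pos.2 (hw χ hχ)).le)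
    (fun n hn => Real.rpow_pos_of_pos (by exact_mod_cast hI n hn) _) hτ.le (by linarith)
    ?_ ?_ ?_ ?_
  · set S := ∑ χ ∈ J, c1 φ a b θ (z χ).re with hS
    have e1 : S1 φ a b θ = E / a := by rw [S1, hE, div_div]
    rw [e1]
    by_contra hc
    rw [not_le] at hc
    have hp : 0 < E / a + ε := by positivity
    have hS0 : 0 < S := hp.trans hc
    have hk : 0 < (1 - τ) ^ 2 - (E + τ) * τ := by
      have : 0 < (E + τ) * ((1 + τ) / a) := by positivity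
      exact (mul_pos_iff_of_pos_left hp).1 (this.trans hτ3)
    have k1 : S * ((1 - τ) ^ 2 - (E + τ) * τ) ≤ (E + τ) * ((1 + τ) / a) := by
      refine le_of_mul_le_mul_left ?_ hS0
      have : S * (S * ((1 - τ) ^ 2 - (E + τ) * τ)) - S * ((E + τ) * ((1 + τ) / a)) =
          ((1 - τ) * S) ^ 2 - (E + τ) * ((1 + τ) / a * S + τ * S ^ 2) := by ring
      linarith
    have k2 := mul_lt_mul_of_pos_right hc hk
    linarith
  · intro χ hχ
    have hm : ∀ m n : ℕ, χ ((m * n : ℕ) : ZMod q) * ((m * n : ℕ) : ℂ) ^ (-ρ χ) =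
        χ m * (m : ℂ) ^ (-ρ χ) * (χ n * (n : ℂ) ^ (-ρ χ)) := by
      intro m n
      rw [Nat.cast_mul, map_mul, Nat.cast_mul, natCast_mul_natCast_cpow]
      ring
    have hb := tbound ⌊(q : ℝ) ^ x⌋₊
      (fun d => (moebius d : ℝ) * bv ((q : ℝ) ^ u) ((q : ℝ) ^ (u + b)) d) t
      (fun n => χ n * (n : ℂ) ^ (-ρ χ)) hm ((q : ℝ) ^ (δT / 2)) ((q : ℝ) ^ (-δT)) (by positivity)
      (by positivity) (fun d hd => bv_abs hU0 hUV hd) ht.abs ?_
    · have s1 := split _ _ hUn hUX (fun n => ((A n * B n : ℝ) : ℂ) * (χ n * (n : ℂ) ^ (-ρ χ)))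
        (fun n h h' => by simp only [hA0 n h h', zero_mul, ofReal_zero])
      simp only [hA1, hB1, Nat.cast_one, map_one, one_cpow, mul_one, ofReal_one] at s1
      have hb' : ‖∑ n ∈ Icc 1 ⌊(q : ℝ) ^ x⌋₊, ((A n * B n : ℝ) : ℂ) * (χ n * (n : ℂ) ^ (-ρ χ))‖ ≤
          τ := by
        refine hb.trans ?_
        have c1 : Real.log (⌊(q : ℝ) ^ x⌋₊ : ℕ) ≤ x * l := by
          rw [hl, ← Real.log_rpow hq0]
          exact Real.log_le_log (by exact_mod_cast hUn.trans hUX) (Nat.floor_le (by positivity))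
        have c2 : l ≤ (q : ℝ) ^ (δT / 12) / (δT / 12) := Real.log_le_rpow_div hq0.le (by positivity)
        have c3 : (1 : ℝ) ≤ (q : ℝ) ^ (δT / 12) := Real.one_le_rpow hq1.le (by positivity)
        have c4 : 1 + Real.log (⌊(q : ℝ) ^ x⌋₊ : ℕ) ≤ (1 + x / (δT / 12)) * (q : ℝ) ^ (δT / 12) := by
          have := mul_le_mul_of_nonneg_left c2 (by linarith : 0 ≤ x)
          calc _ ≤ (q : ℝ) ^ (δT / 12) + x * ((q : ℝ) ^ (δT / 12) / (δT / 12)) := by linarith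
            _ = _ := by ring
        have c5 := pow_le_pow_left₀ (by positivity) c4 3
        have c6 : ((q : ℝ) ^ (δT / 12)) ^ 3 = (q : ℝ) ^ (δT / 4) := by
          rw [← Real.rpow_natCast, ← Real.rpow_mul hq0.le]
          congr 1
          push_cast
          ring
        rw [mul_pow, c6] at c5
        have c7 : (q : ℝ) ^ (δT / 2) * (q : ℝ) ^ (-δT) * ((q : ℝ) ^ (δT / 4) * (q : ℝ) ^ (δT / 4)) =
            1 := by
          rw [← Real.rpow_add hq0, ← Real.rpow_add hq0, ← Real.rpow_add hq0]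
          rw [show δT / 2 + -δT + (δT / 4 + δT / 4) = 0 by ring, Real.rpow_zero]
        rw [div_le_iff₀ hτ] at h4
        calc _ ≤ (q : ℝ) ^ (δT / 2) * (q : ℝ) ^ (-δT) *
              ((q : ℝ) ^ (δT / 4) * τ * (q : ℝ) ^ (δT / 4)) := by
              refine mul_le_mul_of_nonneg_left (c5.trans ?_) (by positivity)
              exact mul_le_mul_of_nonneg_right h4 (by positivity)
          _ = (q : ℝ) ^ (δT / 2) * (q : ℝ) ^ (-δT) * ((q : ℝ) ^ (δT / 4) * (q : ℝ) ^ (δT / 4)) * τ := by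
              ring
          _ = τ := by rw [c7, one_mul]
      rw [s1] at hb'
      have := norm_sub_norm_le (1 : ℂ) (1 + ∑ n ∈ Ioc ⌊(q : ℝ) ^ u⌋₊ ⌊(q : ℝ) ^ x⌋₊,
        ((A n * B n : ℝ) : ℂ) * (χ n * (n : ℂ) ^ (-ρ χ)))
      rw [sub_add_cancel_left, norm_neg, norm_one] at this
      linarith
    · intro d e hd he hf hg
      have d1 := bv_supp hU0 hUV hd (right_ne_zero_of_mul hf)
      have d2 := (ht.supp e hg).1
      have k0 : 0 < d.lcm e := Nat.lcm_pos hd he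
      have k0' : (0 : ℝ) < (d.lcm e : ℕ) := by exact_mod_cast k0
      have k1 : ((d.lcm e : ℕ) : ℝ) ≤ (q : ℝ) ^ (x - φ) := by
        have : ((d.lcm e : ℕ) : ℝ) ≤ (d : ℝ) * e := by
          exact_mod_cast Nat.le_of_dvd (Nat.mul_pos hd he) (Nat.lcm_dvd_mul d e)
        refine this.trans ((mul_le_mul d1 d2 (by positivity) (by positivity)).trans (le_of_eq ?_))
        rw [← Real.rpow_add hq0]
        congr 1
        rw [hu, hx]
        ring
      obtain ⟨r0, r1⟩ := hre1 χ hχ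
      constructor
      · rw [norm_mul, norm_natCast_cpow_of_pos k0, neg_re, hre]
        refine (mul_le_of_le_one_left (by positivity) (χ.norm_le_one _)).trans ?_
        rw [neg_sub, Real.rpow_sub_one k0'.ne']
        refine div_le_div_of_nonneg_right ?_ k0'.le
        refine (Real.rpow_le_rpow k0'.le k1 r0.le).trans ?_
        rw [← Real.rpow_mul hq0.le]
        refine Real.rpow_le_rpow_of_exponent_le hq1.le ?_
        have : (x - φ) * ((z χ).re / l) ≤ x * δ :=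
          mul_le_mul (by linarith) r1 r0.le (by linarith)
        linarith
      · have k2 : (q : ℝ) ^ ((φ + 1 / 4) / 2) ≤ ((⌊(q : ℝ) ^ x⌋₊ / d.lcm e : ℕ) : ℝ) := by
          rw [← Nat.floor_div_natCast]
          have m1 : (q : ℝ) ^ φ ≤ (q : ℝ) ^ x / (d.lcm e : ℕ) := by
            rw [le_div_iff₀ k0']
            refine (mul_le_mul_of_nonneg_left k1 (by positivity)).trans (le_of_eq ?_)
            rw [← Real.rpow_add hq0]
            congr 1
            ring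
          have m2 : (q : ℝ) ^ φ = (q : ℝ) ^ ((φ + 1 / 4) / 2) * (q : ℝ) ^ ((φ - 1 / 4) / 2) := by
            rw [← Real.rpow_add hq0]
            congr 1
            ring
          have m3 : (1 : ℝ) ≤ (q : ℝ) ^ ((φ + 1 / 4) / 2) := Real.one_le_rpow hq1.le (by linarith)
          have m4 := Nat.lt_floor_add_one ((q : ℝ) ^ x / (d.lcm e : ℕ))
          have m5 := mul_le_mul_of_nonneg_left h3 (zero_le_one.trans m3)
          linarith
        have k3 := hT χ (ρ χ) _ (hz χ hχ).1 (by rw [hre]; linarith) (by rw [hre]; linarith)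
          ((him1 χ hχ).trans (Real.rpow_le_rpow_of_exponent_le hq1.le hδ3)) k2
        rwa [(hz0 χ hχ).2, zero_sub, norm_neg] at k3
  · have s1 := split _ _ hUn hUX (fun n => A n ^ 2 * (n : ℝ) ^ (-1 - θ / l))
      (fun n h h' => by simp only [hA0 n h h']; ring)
    simp only [hA1, Nat.cast_one, Real.one_rpow, one_pow, mul_one] at s1
    have : ∑ n ∈ Icc 1 ⌊(q : ℝ) ^ x⌋₊, A n ^ 2 * (n : ℝ) ^ (-1 - θ / l) ≤ 1 + E + τ := hBv
    linarith
  · intro χ hχ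
    rw [sum_congr rfl fun n hn => term χ χ (ρ χ) (ρ χ) (B n) _ (hI n hn)]
    have r0 := (hz0 χ hχ).1
    have r1 := (hz χ hχ).2.2.1
    have g1 := hG1 (2 * (z χ).re + θ) (by linarith) (by
      have := mul_le_mul_of_nonneg_right hδ2 hl0.le
      linarith)
    have g2 := diag (χ * χ⁻¹) _ hI B (ρ χ + (starRingEnd ℂ) (ρ χ) + ((-1 - θ / l : ℝ) : ℂ))
    have g3 : -(ρ χ + (starRingEnd ℂ) (ρ χ) + ((-1 - θ / l : ℝ) : ℂ)).re =
        -1 + (2 * (z χ).re + θ) / l := by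
      rw [add_re, add_re, conj_re, ofReal_re, hre]
      ring
    rw [g3] at g2
    have g4 := hw χ hχ
    calc _ ≤ 1 / II u x (2 * (z χ).re + θ) * ((1 + τ) * II u x (2 * (z χ).re + θ) / a) :=
          mul_le_mul_of_nonneg_left (g2.trans g1) (by positivity)
      _ = _ := by field_simp
  · intro χ hχ ψ hψ hne
    rw [sum_congr rfl fun n hn => term χ ψ (ρ χ) (ρ ψ) (B n) _ (hI n hn)]
    obtain ⟨r0, r1⟩ := hre1 χ hχ
    obtain ⟨r2, r3⟩ := hre1 ψ hψ
    have r4 : 0 < θ / l := by positivity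
    have r5 : θ / l ≤ δG / 2 := by rw [div_le_iff₀ hl0]; linarith
    refine (hG2 (χ * ψ⁻¹) _ (fun h => hne (mul_inv_eq_one.1 h)) ?_ ?_ ?_).trans ?_
    · rw [add_re, add_re, conj_re, ofReal_re, hre, hre]
      linarith
    · rw [add_re, add_re, conj_re, ofReal_re, hre, hre]
      linarith
    · rw [add_im, add_im, conj_im, ofReal_im, add_zero]
      have i1 := him1 χ hχ
      have i2 := him1 ψ hψ
      have i3 := abs_add_le (ρ χ).im (-(ρ ψ).im)
      rw [abs_neg] at i3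
      have i4 : (q : ℝ) ^ δ ≤ (q : ℝ) ^ (δG / 2) :=
        Real.rpow_le_rpow_of_exponent_le hq1.le (by linarith)
      have i5 : (q : ℝ) ^ δG = (q : ℝ) ^ (δG / 2) * (q : ℝ) ^ (δG / 2) := by
        rw [← Real.rpow_add hq0]
        congr 1
        ring
      have i6 := mul_le_mul_of_nonneg_left h6 (Real.rpow_nonneg hq0.le (δG / 2))
      linarith
    · rw [Real.rpow_neg hq0.le, inv_le_comm₀ (by positivity) hτ, ← one_div]
      exact h5

end Pool.Agent.MP_c5bf7b_nt.H38
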