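import Pool.Agent.MP_c5bf7b_nt.H38.SpecA

/-! Lemmas for the density estimate: duality, a sum over least common multiples, expansion. -/

set_option autoImplicit false

namespace Pool.Agent.MP_c5bf7b_nt.H38.D1

open Finset Complex ArithmeticFunction

theorem dual {ι : Type*} [DecidableEq ι] (I : Finset ℕ) (J : Finset ι) (w : ι → ℝ)
    (g : ι → ℕ → ℂ) (A B p : ℕ → ℝ) (τ E D : ℝ) (hw : ∀ i ∈ J, 0 ≤ w i) (hp : ∀ n ∈ I, 0 < p n)
    (hτ : 0 ≤ τ) (hτ1 : τ ≤ 1)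
    (hR : ∀ i ∈ J, 1 - τ ≤ ‖∑ n ∈ I, ((A n * B n : ℝ) : ℂ) * g i n‖)
    (hE : ∑ n ∈ I, A n ^ 2 * p n ≤ E)
    (hD : ∀ i ∈ J,
      w i * ‖∑ n ∈ I, ((B n ^ 2 / p n : ℝ) : ℂ) * (g i n * (starRingEnd ℂ) (g i n))‖ ≤ D)
    (hO : ∀ i ∈ J, ∀ j ∈ J, i ≠ j →
      ‖∑ n ∈ I, ((B n ^ 2 / p n : ℝ) : ℂ) * (g i n * (starRingEnd ℂ) (g j n))‖ ≤ τ) :
    ((1 - τ) * ∑ i ∈ J, w i) ^ 2 ≤ E * (D * ∑ i ∈ J, w i + τ * (∑ i ∈ J, w i) ^ 2) := by
  choose e he1 he2 using fun i => Complex.exists_norm_eq_mul_self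
    (∑ n ∈ I, ((A n * B n : ℝ) : ℂ) * g i n)
  set S := ∑ i ∈ J, w i with hS
  have hS0 : 0 ≤ S := sum_nonneg hw
  set F : ℕ → ℂ := fun n => ∑ i ∈ J, (w i : ℂ) * e i * g i n with hF
  have h1 : (1 - τ) * S ≤ ∑ n ∈ I, |A n| * |B n| * ‖F n‖ := by
    have a1 : (1 - τ) * S ≤ ∑ i ∈ J, w i * ‖∑ n ∈ I, ((A n * B n : ℝ) : ℂ) * g i n‖ := by
      rw [hS, mul_sum]
      exact sum_le_sum fun i hi => by
        rw [mul_comm]; exact mul_le_mul_of_nonneg_left (hR i hi) (hw i hi)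
    have a2 : ((∑ i ∈ J, w i * ‖∑ n ∈ I, ((A n * B n : ℝ) : ℂ) * g i n‖ : ℝ) : ℂ) =
        ∑ n ∈ I, ((A n * B n : ℝ) : ℂ) * F n := by
      rw [ofReal_sum]
      simp only [hF, mul_sum]
      rw [sum_comm]
      refine sum_congr rfl fun i _ => ?_
      rw [ofReal_mul, he2 i, mul_sum, mul_sum]
      exact sum_congr rfl fun n _ => by ring
    refine a1.trans ((le_abs_self _).trans ?_)
    rw [← Real.norm_eq_abs, ← Complex.norm_real, a2]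
    refine (norm_sum_le _ _).trans (le_of_eq (sum_congr rfl fun n _ => ?_))
    rw [norm_mul, Complex.norm_real, Real.norm_eq_abs, abs_mul]
  have h2 : (∑ n ∈ I, |A n| * |B n| * ‖F n‖) ^ 2 ≤
      (∑ n ∈ I, A n ^ 2 * p n) * ∑ n ∈ I, B n ^ 2 / p n * ‖F n‖ ^ 2 := by
    refine sum_sq_le_sum_mul_sum_of_sq_le_mul I (fun n hn => ?_) (fun n hn => ?_) fun n hn => le_of_eq ?_
    · exact mul_nonneg (sq_nonneg _) (hp n hn).le
    · exact mul_nonneg (div_nonneg (sq_nonneg _) (hp n hn).le) (sq_nonneg _)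
    · have := (hp n hn).ne'
      rw [mul_pow, mul_pow, sq_abs, sq_abs]
      field_simp
  have h3 : ∑ n ∈ I, B n ^ 2 / p n * ‖F n‖ ^ 2 ≤ D * S + τ * S ^ 2 := by
    have a2 : ((∑ n ∈ I, B n ^ 2 / p n * ‖F n‖ ^ 2 : ℝ) : ℂ) =
        ∑ i ∈ J, ∑ j ∈ J, ((w i : ℂ) * e i * ((w j : ℂ) * (starRingEnd ℂ) (e j))) *
          ∑ n ∈ I, ((B n ^ 2 / p n : ℝ) : ℂ) * (g i n * (starRingEnd ℂ) (g j n)) := by
      rw [ofReal_sum]
      have b1 : ∀ n ∈ I, ((B n ^ 2 / p n * ‖F n‖ ^ 2 : ℝ) : ℂ) =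
          ∑ i ∈ J, ∑ j ∈ J, ((w i : ℂ) * e i * ((w j : ℂ) * (starRingEnd ℂ) (e j))) *
            (((B n ^ 2 / p n : ℝ) : ℂ) * (g i n * (starRingEnd ℂ) (g j n))) := by
        intro n _
        rw [ofReal_mul, ofReal_pow, ← Complex.mul_conj']
        simp only [hF, map_sum, map_mul, conj_ofReal]
        rw [sum_mul_sum, mul_sum]
        refine sum_congr rfl fun i _ => ?_
        rw [mul_sum]
        exact sum_congr rfl fun j _ => by ring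
      rw [sum_congr rfl b1, sum_comm]
      refine sum_congr rfl fun i _ => ?_
      rw [sum_comm]
      exact sum_congr rfl fun j _ => by rw [mul_sum]
    refine (le_abs_self _).trans ?_
    rw [← Real.norm_eq_abs, ← Complex.norm_real, a2]
    refine (norm_sum_le _ _).trans ?_
    have b2 : D * S + τ * S ^ 2 = ∑ i ∈ J, (w i * D + ∑ j ∈ J, w i * w j * τ) := by
      rw [sum_add_distrib, ← sum_mul, ← hS]
      simp only [← sum_mul, ← mul_sum, ← hS]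
      ring
    rw [b2]
    refine sum_le_sum fun i hi => (norm_sum_le _ _).trans ?_
    have b3 : w i * D + ∑ j ∈ J, w i * w j * τ =
        ∑ j ∈ J, ((if j = i then w i * D else 0) + w i * w j * τ) := by
      rw [sum_add_distrib, sum_ite_eq' J i, if_pos hi]
    rw [b3]
    refine sum_le_sum fun j hj => ?_
    have hwi := hw i hi
    have hwj := hw j hj
    rw [norm_mul, norm_mul, norm_mul, norm_mul, he1, Complex.norm_conj, he1, Complex.norm_real,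
      Complex.norm_real, Real.norm_of_nonneg hwi, Real.norm_of_nonneg hwj, mul_one, mul_one]
    by_cases hij : j = i
    · subst hij
      rw [if_pos rfl, mul_assoc]
      have := mul_le_mul_of_nonneg_left (hD j hj) hwj
      have : 0 ≤ w j * w j * τ := by positivity
      linarith
    · rw [if_neg hij, zero_add]
      exact mul_le_mul_of_nonneg_left (hO i hi j hj (Ne.symm hij)) (by positivity)
  have h0 : 0 ≤ (1 - τ) * S := mul_nonneg (by linarith) hS0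
  have h4 : 0 ≤ ∑ n ∈ I, B n ^ 2 / p n * ‖F n‖ ^ 2 :=
    sum_nonneg fun n hn => mul_nonneg (div_nonneg (sq_nonneg _) (hp n hn).le) (sq_nonneg _)
  have h5 : 0 ≤ ∑ n ∈ I, A n ^ 2 * p n :=
    sum_nonneg fun n hn => mul_nonneg (sq_nonneg _) (hp n hn).le
  exact (pow_le_pow_left₀ h0 h1 2).trans (h2.trans (mul_le_mul hE h3 h4 (h5.trans hE)))

theorem harm (M : ℕ) : ∑ k ∈ Icc 1 M, (1 : ℝ) / k ≤ 1 + Real.log M := by
  have h := harmonic_le_one_add_log M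
  rw [harmonic_eq_sum_Icc] at h
  simpa using h

theorem lcm_sum (M : ℕ) :
    ∑ d ∈ Icc 1 M, ∑ e ∈ Icc 1 M, (1 : ℝ) / (d.lcm e : ℝ) ≤ (1 + Real.log M) ^ 3 := by
  classical
  set φ : ℕ × ℕ → ℕ × ℕ × ℕ := fun r => (r.1.gcd r.2, r.1 / r.1.gcd r.2, r.2 / r.1.gcd r.2) with hφ
  set G : ℕ × ℕ × ℕ → ℝ := fun t => 1 / (t.1 : ℝ) * (1 / (t.2.1 : ℝ) * (1 / (t.2.2 : ℝ))) with hG
  have hinj : Set.InjOn φ ((Icc 1 M ×ˢ Icc 1 M : Finset (ℕ × ℕ)) : Set (ℕ × ℕ)) := by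
    intro r _ r' _ h
    simp only [hφ, Prod.mk.injEq] at h
    obtain ⟨h1, h2, h3⟩ := h
    have a1 := Nat.mul_div_cancel' (Nat.gcd_dvd_left r.1 r.2)
    have a2 := Nat.mul_div_cancel' (Nat.gcd_dvd_right r.1 r.2)
    have b1 := Nat.mul_div_cancel' (Nat.gcd_dvd_left r'.1 r'.2)
    have b2 := Nat.mul_div_cancel' (Nat.gcd_dvd_right r'.1 r'.2)
    refine Prod.ext ?_ ?_
    · rw [← a1, ← b1, h2, h1]
    · rw [← a2, ← b2, h3, h1]
  have e1 : ∑ d ∈ Icc 1 M, ∑ e ∈ Icc 1 M, (1 : ℝ) / (d.lcm e : ℝ) =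
      ∑ t ∈ (Icc 1 M ×ˢ Icc 1 M).image φ, G t := by
    rw [sum_image hinj, sum_product]
    refine sum_congr rfl fun d hd => sum_congr rfl fun e _ => ?_
    have hd0 : 0 < d := (mem_Icc.1 hd).1
    have hg : 0 < d.gcd e := Nat.gcd_pos_of_pos_left e hd0
    have a1 := Nat.mul_div_cancel' (Nat.gcd_dvd_left d e)
    have a2 := Nat.mul_div_cancel' (Nat.gcd_dvd_right d e)
    have a3 : d.lcm e = d.gcd e * (d / d.gcd e * (e / d.gcd e)) := by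
      refine Nat.eq_of_mul_eq_mul_left hg ?_
      rw [Nat.gcd_mul_lcm]
      calc d * e = (d.gcd e * (d / d.gcd e)) * (d.gcd e * (e / d.gcd e)) := by rw [a1, a2]
        _ = _ := by ring
    simp only [hG, hφ]
    rw [a3]
    simp only [Nat.cast_mul, one_div, mul_inv]
  have e2 : (Icc 1 M ×ˢ Icc 1 M).image φ ⊆ Icc 1 M ×ˢ (Icc 1 M ×ˢ Icc 1 M) := by
    intro t ht
    obtain ⟨r, hr, rfl⟩ := mem_image.1 ht
    obtain ⟨h1, h2⟩ := mem_product.1 hr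
    rw [mem_Icc] at h1 h2
    have hg : 0 < r.1.gcd r.2 := Nat.gcd_pos_of_pos_left _ h1.1
    have g1 : r.1.gcd r.2 ≤ r.1 := Nat.gcd_le_left _ h1.1
    have g2 : r.1.gcd r.2 ≤ r.2 := Nat.gcd_le_right _ h2.1
    simp only [hφ, mem_product, mem_Icc]
    exact ⟨⟨hg, g1.trans h1.2⟩, ⟨Nat.div_pos g1 hg, (Nat.div_le_self _ _).trans h1.2⟩,
      ⟨Nat.div_pos g2 hg, (Nat.div_le_self _ _).trans h2.2⟩⟩
  rw [e1]
  refine (sum_le_sum_of_subset_of_nonneg e2 fun t _ _ => by simp only [hG]; positivity).trans ?_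
  have e3 : ∑ t ∈ Icc 1 M ×ˢ (Icc 1 M ×ˢ Icc 1 M), G t = (∑ k ∈ Icc 1 M, (1 : ℝ) / k) ^ 3 := by
    rw [sum_product]
    simp only [hG, sum_product, ← mul_sum, ← sum_mul]
    ring
  rw [e3]
  exact pow_le_pow_left₀ (sum_nonneg fun k _ => by positivity) (harm M) 3

theorem mult (X k : ℕ) (hk : 0 < k) (h : ℕ → ℂ) :
    ∑ n ∈ Icc 1 X, (if k ∣ n then h n else 0) = ∑ m ∈ Icc 1 (X / k), h (k * m) := by
  rw [← sum_filter]
  symm
  refine sum_bij (fun m _ => k * m) (fun m hm => ?_) (fun a _ b _ hab => ?_) (fun n hn => ?_)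
    fun _ _ => rfl
  · rw [mem_Icc] at hm
    rw [mem_filter, mem_Icc]
    refine ⟨⟨Nat.mul_pos hk hm.1, ?_⟩, dvd_mul_right _ _⟩
    rw [mul_comm]
    exact (Nat.le_div_iff_mul_le hk).1 hm.2
  · exact Nat.eq_of_mul_eq_mul_left hk hab
  · rw [mem_filter, mem_Icc] at hn
    obtain ⟨⟨h1, h2⟩, m, rfl⟩ := hn
    refine ⟨m, mem_Icc.2 ⟨Nat.pos_of_mul_pos_left h1, ?_⟩, rfl⟩
    rw [Nat.le_div_iff_mul_le hk, mul_comm]
    exact h2

theorem expand (X : ℕ) (f g : ℕ → ℝ) (h : ℕ → ℂ) (hm : ∀ a b, h (a * b) = h a * h b) :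
    ∑ n ∈ Icc 1 X, (((∑ d ∈ n.divisors, f d) * ∑ e ∈ n.divisors, g e : ℝ) : ℂ) * h n =
      ∑ d ∈ Icc 1 X, ∑ e ∈ Icc 1 X,
        ((f d * g e : ℝ) : ℂ) * (h (d.lcm e) * ∑ m ∈ Icc 1 (X / d.lcm e), h m) := by
  have a1 : ∀ n ∈ Icc 1 X, (((∑ d ∈ n.divisors, f d) * ∑ e ∈ n.divisors, g e : ℝ) : ℂ) * h n =
      ∑ d ∈ Icc 1 X, ∑ e ∈ Icc 1 X,
        ((f d * g e : ℝ) : ℂ) * if d.lcm e ∣ n then h n else 0 := by
    intro n hn
    rw [mem_Icc] at hn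
    have hd : n.divisors = (Icc 1 X).filter (· ∣ n) := by
      ext d
      rw [Nat.mem_divisors, mem_filter, mem_Icc]
      constructor
      · rintro ⟨h1, h2⟩
        exact ⟨⟨Nat.pos_of_dvd_of_pos h1 hn.1, (Nat.le_of_dvd hn.1 h1).trans hn.2⟩, h1⟩
      · rintro ⟨_, h1⟩
        exact ⟨h1, by omega⟩
    rw [hd, sum_filter, sum_filter, sum_mul_sum, ofReal_sum, sum_mul]
    refine sum_congr rfl fun d _ => ?_
    rw [ofReal_sum, sum_mul]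
    refine sum_congr rfl fun e _ => ?_
    simp only [Nat.lcm_dvd_iff]
    by_cases h1 : d ∣ n <;> by_cases h2 : e ∣ n <;> simp [h1, h2]
  rw [sum_congr rfl a1, sum_comm]
  refine sum_congr rfl fun d hd => ?_
  rw [sum_comm]
  refine sum_congr rfl fun e he => ?_
  have hk : 0 < d.lcm e := Nat.lcm_pos (mem_Icc.1 hd).1 (mem_Icc.1 he).1
  rw [← mul_sum, mult X _ hk, mul_sum _ _ (h (d.lcm e))]
  simp only [hm]

theorem split {M : Type*} [AddCommMonoid M] (U X : ℕ) (hU : 1 ≤ U) (hX : U ≤ X) (F : ℕ → M)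
    (hF : ∀ n, 1 < n → n ≤ U → F n = 0) : ∑ n ∈ Icc 1 X, F n = F 1 + ∑ n ∈ Ioc U X, F n := by
  have e : Icc 1 X = Ioc 0 X := rfl
  rw [e, ← sum_Ioc_consecutive F (Nat.zero_le U) hX]
  congr 1
  refine sum_eq_single_of_mem 1 (mem_Ioc.2 ⟨one_pos, hU⟩) fun n hn h1 => ?_
  rw [mem_Ioc] at hn
  exact hF n (by omega) hn.2

theorem big (c K : ℝ) (hc : 0 < c) : ∃ q₀ : ℕ, ∀ q : ℕ, q₀ ≤ q → K ≤ (q : ℝ) ^ c := by
  have h := ((tendsto_rpow_atTop hc).comp tendsto_natCast_atTop_atTop).eventually_ge_atTop K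
  exact Filter.eventually_atTop.1 h

theorem biglog (K : ℝ) : ∃ q₀ : ℕ, ∀ q : ℕ, q₀ ≤ q → K ≤ Real.log q := by
  have h := (Real.tendsto_log_atTop.comp tendsto_natCast_atTop_atTop).eventually_ge_atTop K
  exact Filter.eventually_atTop.1 h

theorem small (E a ε : ℝ) (hε : 0 < ε) : ∃ τ : ℝ, 0 < τ ∧ τ ≤ 1 / 2 ∧
    (E + τ) * ((1 + τ) / a) < (E / a + ε) * ((1 - τ) ^ 2 - (E + τ) * τ) := by
  have hc : Continuous fun τ : ℝ =>
      (E / a + ε) * ((1 - τ) ^ 2 - (E + τ) * τ) - (E + τ) * ((1 + τ) / a) := by fun_prop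
  have h0 : 0 < (E / a + ε) * ((1 - (0 : ℝ)) ^ 2 - (E + 0) * 0) - (E + 0) * ((1 + 0) / a) := by
    have : (E / a + ε) * ((1 - (0 : ℝ)) ^ 2 - (E + 0) * 0) - (E + 0) * ((1 + 0) / a) = ε := by ring
    rw [this]; exact hε
  have h1 := (hc.tendsto 0).eventually (lt_mem_nhds h0)
  obtain ⟨r, hr, h2⟩ := Metric.eventually_nhds_iff.1 h1
  refine ⟨min (r / 2) (1 / 2), by positivity, min_le_right _ _, ?_⟩
  have h3 : dist (min (r / 2) (1 / 2)) 0 < r := by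
    rw [Real.dist_eq, sub_zero, abs_of_pos (by positivity)]
    exact (min_le_left _ _).trans_lt (by linarith)
  have := h2 h3
  linarith

end Pool.Agent.MP_c5bf7b_nt.H38.D1
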