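import Pool.Agent.MP_c5bf7b_nt.H38.Ef1

/-! The prime sum as a line integral. -/

set_option autoImplicit false

namespace Pool.Agent.MP_c5bf7b_nt.H38

open Finset Complex ArithmeticFunction MeasureTheory

namespace Ef

theorem msum (Z : Multiset ℂ) (g : ℂ → ℝ → ℂ) (h : ∀ ρ ∈ Z, Integrable (g ρ)) :
    Integrable (fun y => (Z.map fun ρ => g ρ y).sum) ∧
      ∫ y, (Z.map fun ρ => g ρ y).sum = (Z.map fun ρ => ∫ y, g ρ y).sum := by
  induction Z using Multiset.induction_on with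
  | empty => simp
  | cons a s ih =>
    obtain ⟨i1, i2⟩ := ih fun ρ hρ => h ρ (Multiset.mem_cons_of_mem hρ)
    have i0 := h a (Multiset.mem_cons_self _ _)
    simp only [Multiset.map_cons, Multiset.sum_cons]
    exact ⟨i0.add i1, by rw [integral_add i0 i1, i2]⟩

/-- the point `s` with normalised position `i τ + z` -/
noncomputable def ww (L τ : ℝ) (z : ℂ) : ℂ := 1 - (τ * I + z) / L

theorem ww_re (L τ : ℝ) (z : ℂ) : (ww L τ z).re = 1 - z.re / L := by
  simp [ww, div_ofReal_re]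

theorem ww_im (L τ : ℝ) (z : ℂ) : (ww L τ z).im = -((τ + z.im) / L) := by
  simp [ww, div_ofReal_im]

theorem ww_line (L τ y : ℝ) : (ww L τ (-1 / 2 + y * I)).re = 1 + 1 / (2 * L) := by
  rw [ww_re, show (-1 / 2 + y * I : ℂ).re = -1 / 2 by norm_num]
  ring

theorem term_eq (a : ℕ → ℂ) (L τ : ℝ) (z : ℂ) {n : ℕ} (hn : n ≠ 0) :
    LSeries.term a (ww L τ z) n =
      a n / n * exp (τ * I * (Real.log n / L : ℝ)) * exp (z * (Real.log n / L : ℝ)) := by
  have n0 : (n : ℂ) ≠ 0 := by exact_mod_cast hn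
  rw [LSeries.term_of_ne_zero hn, cpow_def_of_ne_zero n0, mul_assoc, ← exp_add]
  have e : Complex.log n * ww L τ z =
      Complex.log n - (τ * I * (Real.log n / L : ℝ) + z * (Real.log n / L : ℝ)) := by
    rw [ww, ofReal_div, natCast_log]
    ring
  rw [e, exp_sub, exp_log n0]
  field_simp

theorem term_le {q : ℕ} (χ : Ch q) {L : ℝ} {w : ℂ} (hw : w.re = 1 + 1 / (2 * L)) (n : ℕ) :
    ‖LSeries.term (fun n => (vonMangoldt n : ℂ) * χ n) w n‖ ≤
      vonMangoldt n * (n : ℝ) ^ (-(1 + 2 * (1 / (4 * L)))) := by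
  rw [LSeries.norm_term_eq]
  split_ifs with h
  · simp [h]
  rw [Real.rpow_neg (Nat.cast_nonneg _), ← div_eq_mul_inv, hw,
    show 2 * (1 / (4 * L)) = 1 / (2 * L) by ring]
  refine div_le_div_of_nonneg_right ?_ (by positivity)
  rw [norm_mul, norm_real, Real.norm_of_nonneg vonMangoldt_nonneg]
  exact mul_le_of_le_one_right vonMangoldt_nonneg (χ.norm_le_one _)

theorem ls_le {q : ℕ} (χ : Ch q) {L : ℝ} (hL : 1 ≤ L) {w : ℂ} (hw : w.re = 1 + 1 / (2 * L)) :
    ‖LSeries (fun n => (vonMangoldt n : ℂ) * χ n) w‖ ≤ 20 * L ^ 2 := by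
  obtain ⟨s1, s2⟩ := lam_sum (ε := 1 / (4 * L)) (by positivity)
  refine (tsum_of_norm_bounded s1.hasSum (term_le χ hw)).trans (s2.trans ?_)
  rw [one_div_one_div, div_div_eq_mul_div, div_one]
  nlinarith

theorem fub {q : ℕ} (χ : Ch q) (κ : ℂ → ℂ) (k : ℝ → ℂ) {D L : ℝ} (τ : ℝ) (hL : 1 ≤ L)
    (hc : Continuous fun y : ℝ => κ (-1 / 2 + y * I))
    (hb : ∀ y : ℝ, ‖κ (-1 / 2 + y * I)‖ ≤ D / (1 + y ^ 2))
    (hi : ∀ u : ℝ, ∫ y : ℝ, κ (-1 / 2 + y * I) * exp ((-1 / 2 + y * I) * u) =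
      2 * Real.pi * k u) :
    ∫ y : ℝ, κ (-1 / 2 + y * I) *
        LSeries (fun n => (vonMangoldt n : ℂ) * χ n) (ww L τ (-1 / 2 + y * I)) =
      2 * Real.pi * L * ∑' n : ℕ, ((vonMangoldt n / (n * L) : ℝ) : ℂ) * χ n *
        exp (τ * I * (Real.log n / L : ℝ)) * k (Real.log n / L) := by
  obtain ⟨s1, -⟩ := lam_sum (ε := 1 / (4 * L)) (by positivity)
  have i0 := int_of_bd _ D hc hb
  set a : ℕ → ℂ := fun n => (vonMangoldt n : ℂ) * χ n with ha
  set b : ℕ → ℝ := fun n => vonMangoldt n * (n : ℝ) ^ (-(1 + 2 * (1 / (4 * L)))) with hb'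
  have nb : ∀ (n : ℕ) (y : ℝ), ‖κ (-1 / 2 + y * I) * LSeries.term a (ww L τ (-1 / 2 + y * I)) n‖ ≤
      b n * ‖κ (-1 / 2 + y * I)‖ := fun n y => by
    rw [norm_mul, mul_comm]
    exact mul_le_mul_of_nonneg_right (term_le χ (ww_line L τ y) n) (norm_nonneg _)
  have i1 : ∀ n : ℕ, Integrable fun y : ℝ =>
      κ (-1 / 2 + y * I) * LSeries.term a (ww L τ (-1 / 2 + y * I)) n := fun n => by
    refine (i0.norm.const_mul (b n)).mono' (Continuous.aestronglyMeasurable (hc.mul ?_))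
      (Filter.Eventually.of_forall (nb n))
    rcases eq_or_ne n 0 with rfl | hn
    · simp only [LSeries.term_zero]
      exact continuous_const
    · simp only [term_eq a L τ _ hn]
      fun_prop
  have h := hasSum_integral_of_summable_integral_norm i1 (Summable.of_nonneg_of_le
    (fun n => integral_nonneg fun y => norm_nonneg _) (fun n => by
      rw [← integral_const_mul]
      exact integral_mono (i1 n).norm (i0.norm.const_mul (b n)) (nb n))
    (s1.mul_right (∫ y : ℝ, ‖κ (-1 / 2 + y * I)‖)))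
  simp only [tsum_mul_left] at h
  rw [← tsum_mul_left]
  refine h.tsum_eq.symm.trans (tsum_congr fun n => ?_)
  rcases eq_or_ne n 0 with rfl | hn
  · simp
  have n0 : (n : ℂ) ≠ 0 := by exact_mod_cast hn
  have L0 : (L : ℂ) ≠ 0 := by exact_mod_cast (by linarith : L ≠ 0)
  simp only [term_eq a L τ _ hn, mul_left_comm (κ _), integral_const_mul, hi]
  simp only [ha]
  push_cast
  field_simp

end Ef

end Pool.Agent.MP_c5bf7b_nt.H38
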