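import Pool.Agent.MP_c5bf7b_nt.H38.SpecB

/-! Algebra for the tangency bound: clearing denominators and the local argument. -/

set_option autoImplicit false

namespace Pool.Agent.MP_c5bf7b_nt.H38

open Finset Polynomial

namespace Esz

variable {F : Type} [Field F] {r : ℕ}

/-- the common denominator -/
noncomputable def Dn (u : Fin r → F) : F[X] := ∏ i, (X + C (u i))

/-- numerators of the power sums -/
noncomputable def Nk (k : ℕ) (u : Fin r → F) : F[X] :=
  ∑ i, (∏ j ∈ univ.erase i, (X + C (u j))) ^ k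

theorem deg_sub (u : Fin r → F) (s : Finset (Fin r)) :
    (∏ j ∈ s, (X + C (u j))).natDegree ≤ s.card := by
  refine (natDegree_prod_le _ _).trans ?_
  simp

theorem deg_Dn (u : Fin r → F) : (Dn u).natDegree ≤ r := by
  simpa [Dn] using deg_sub u univ

theorem deg_Nk (k : ℕ) (u : Fin r → F) : (Nk k u).natDegree ≤ k * (r - 1) := by
  refine natDegree_sum_le_of_forall_le _ _ fun i _ => natDegree_pow_le.trans ?_
  refine Nat.mul_le_mul_left k ((deg_sub u _).trans ?_)
  simp

theorem map_Nk {R : Type} [CommRing R] (f : F[X] →+* R) (u : Fin r → F) (w : Fin r → R)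
    (hw : ∀ i, f (X + C (u i)) * w i = 1) (k : ℕ) :
    f (Nk k u) = f (Dn u) ^ k * ∑ i, w i ^ k := by
  rw [Nk, map_sum, mul_sum]
  refine sum_congr rfl fun i _ => ?_
  rw [map_pow, ← mul_pow, Dn, ← mul_prod_erase univ _ (mem_univ i), map_mul, mul_right_comm, hw,
    one_mul]

/-- evaluation of a polynomial in three variables -/
noncomputable def ev {R : Type} [CommRing R] (f : F[X] →+* R) (U Z : R) (P : F[X][X][X]) : R :=
  (P.map (eval₂RingHom f U)).eval Z

/-- the three degrees are at most `D` -/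
def Bd (D : ℕ) (P : F[X][X][X]) : Prop :=
  P.natDegree ≤ D ∧ (∀ e, (P.coeff e).natDegree ≤ D) ∧ ∀ e b, ((P.coeff e).coeff b).natDegree ≤ D

/-- the building blocks of the numerators -/
noncomputable def blk (D : ℕ) (u : Fin r → F) (e b : ℕ) : F[X] :=
  Nk 1 u ^ b * Nk 2 u ^ e * Dn u ^ (3 * D - b - 2 * e)

/-- the numerator of `P` along the curve of `u` -/
noncomputable def num (D : ℕ) (u : Fin r → F) (P : F[X][X][X]) : F[X] :=
  ∑ e ∈ range (D + 1), ∑ b ∈ range (D + 1), (P.coeff e).coeff b * blk D u e b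

theorem deg_blk (D : ℕ) (u : Fin r → F) {e b : ℕ} (he : e ≤ D) (hb : b ≤ D) :
    (blk D u e b).natDegree ≤ 3 * r * D := by
  have h1 := (deg_Nk 1 u).trans (Nat.mul_le_mul_left 1 (Nat.sub_le r 1))
  have h2 := (deg_Nk 2 u).trans (Nat.mul_le_mul_left 2 (Nat.sub_le r 1))
  have h3 := deg_Dn u
  obtain ⟨t, ht⟩ : ∃ t, 3 * D = t + b + 2 * e := ⟨3 * D - b - 2 * e, by omega⟩
  have h4 : 3 * D - b - 2 * e = t := by omega
  rw [blk, h4]
  refine natDegree_mul_le.trans ((add_le_add (natDegree_mul_le.trans (add_le_add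
    (natDegree_pow_le_of_le b h1) (natDegree_pow_le_of_le e h2)))
    (natDegree_pow_le_of_le t h3)).trans (le_of_eq ?_))
  rw [mul_right_comm, ht]
  ring

theorem deg_num {D : ℕ} (u : Fin r → F) {P : F[X][X][X]} (hP : Bd D P) :
    (num D u P).natDegree ≤ (3 * r + 1) * D := by
  refine natDegree_sum_le_of_forall_le _ _ fun e he =>
    natDegree_sum_le_of_forall_le _ _ fun b hb => natDegree_mul_le.trans ?_
  have h1 := deg_blk D u (Nat.lt_succ_iff.1 (mem_range.1 he)) (Nat.lt_succ_iff.1 (mem_range.1 hb))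
  have h2 := hP.2.2 e b
  rw [add_mul]
  omega

theorem map_num {R : Type} [CommRing R] (f : F[X] →+* R) (u : Fin r → F) (w : Fin r → R)
    (hw : ∀ i, f (X + C (u i)) * w i = 1) {D : ℕ} {P : F[X][X][X]} (hP : Bd D P) :
    f (num D u P) = f (Dn u) ^ (3 * D) * ev f (∑ i, w i ^ 1) (∑ i, w i ^ 2) P := by
  rw [ev, eval_map, eval₂_eq_sum_range' _ (Nat.lt_succ_of_le hP.1), num, map_sum, mul_sum]
  refine sum_congr rfl fun e he => ?_
  rw [coe_eval₂RingHom, eval₂_eq_sum_range' _ (Nat.lt_succ_of_le (hP.2.1 e)), map_sum, sum_mul,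
    mul_sum]
  refine sum_congr rfl fun b hb => ?_
  have he := mem_range.1 he
  have hb := mem_range.1 hb
  obtain ⟨t, ht⟩ : ∃ t, 3 * D = t + b + 2 * e := ⟨3 * D - b - 2 * e, by omega⟩
  have h4 : 3 * D - b - 2 * e = t := by omega
  rw [blk, h4, map_mul, map_mul, map_mul, map_pow, map_pow, map_pow, map_Nk f u w hw,
    map_Nk f u w hw, ht]
  ring

theorem Bd.deriv {D : ℕ} {P : F[X][X][X]} (hP : Bd D P) : Bd D (derivative P) := by
  refine ⟨(natDegree_derivative_le P).trans ((Nat.sub_le _ _).trans hP.1), fun e => ?_,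
    fun e b => ?_⟩
  · rw [coeff_derivative]
    refine natDegree_mul_le.trans ?_
    have : ((e : F[X][X]) + 1).natDegree = 0 := by
      rw [← Nat.cast_succ, natDegree_natCast]
    rw [this]
    exact hP.2.1 _
  · rw [coeff_derivative, ← Nat.cast_succ, ← nsmul_eq_mul', coeff_smul]
    exact (natDegree_smul_le _ _).trans (hP.2.2 _ _)

theorem ev_taylor {R : Type} [CommRing R] (f : F[X] →+* R) (U Z U' Z' : R) (P : F[X][X][X]) :
    ∃ s t : R, ev f U' Z' P =
      ev f U Z P + (U' - U) * s + ev f U Z (derivative P) * (Z' - Z) + t * (Z' - Z) ^ 2 := by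
  have h1 : U' - U ∣ ev f U' Z' P - ev f U Z' P := by
    rw [ev, ev, eval_map, eval_map, eval₂_eq_sum_range, eval₂_eq_sum_range, ← sum_sub_distrib]
    refine dvd_sum fun e _ => ?_
    rw [← sub_mul, coe_eval₂RingHom, coe_eval₂RingHom, ← eval_map, ← eval_map]
    exact (sub_dvd_eval_sub _ _ _).mul_right _
  obtain ⟨s, hs⟩ := h1
  obtain ⟨t, ht⟩ := (P.map (eval₂RingHom f U)).binomExpansion Z (Z' - Z)
  refine ⟨s, t, ?_⟩
  rw [add_sub_cancel, derivative_map] at ht
  rw [← hs, ev, ev, ev, ev, ht]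
  ring

/-- the numerator of the difference of two curves -/
noncomputable def Nd (u v : Fin r → F) : F[X] := Nk 1 u * Dn v - Nk 1 v * Dn u

theorem eval_Nk (u : Fin r → F) (i : Fin r) :
    (Nk 1 u).eval (-u i) = ∏ j ∈ univ.erase i, (u j - u i) := by
  rw [Nk, eval_finsetSum, sum_eq_single i]
  · rw [pow_one, eval_prod]
    refine prod_congr rfl fun j _ => ?_
    simp [sub_eq_neg_add]
  · intro j _ hj
    rw [pow_one, eval_prod]
    exact prod_eq_zero (mem_erase.2 ⟨hj.symm, mem_univ i⟩) (by simp)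
  · simp

theorem eval_Dn (u : Fin r → F) (y : F) : (Dn u).eval y = ∏ i, (y + u i) := by
  simp [Dn, eval_prod]

theorem sep_symm {R : Type} {u v : Fin r → R} (h : SepZ u v) : SepZ v u := by
  obtain ⟨i, hi⟩ := h
  refine ⟨i.swap, fun j hj => ?_⟩
  have := hi j.swap fun e => hj (by rw [← e, Sum.swap_swap])
  cases i <;> cases j <;> simpa using this

theorem Nd_ne_aux {u v : Fin r → F} (i : Fin r)
    (hi : ∀ j, j ≠ Sum.inl i → Sum.elim u v (Sum.inl i) ≠ Sum.elim u v j) : Nd u v ≠ 0 := by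
  intro h
  have h1 := congrArg (eval (-u i)) h
  have h2 : (Dn u).eval (-u i) = 0 := by
    rw [eval_Dn]
    exact prod_eq_zero (mem_univ i) (by simp)
  rw [Nd, eval_sub, eval_mul, eval_mul, h2, mul_zero, sub_zero, eval_zero, eval_Nk, eval_Dn] at h1
  rcases mul_eq_zero.1 h1 with h | h
  · obtain ⟨j, hj, e⟩ := prod_eq_zero_iff.1 h
    exact hi (Sum.inl j) (by simpa using (mem_erase.1 hj).1) (sub_eq_zero.1 e).symm
  · obtain ⟨j, -, e⟩ := prod_eq_zero_iff.1 h
    exact hi (Sum.inr j) (by simp) (neg_add_eq_zero.1 e)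

theorem Nd_ne {u v : Fin r → F} (h : SepZ u v) : Nd u v ≠ 0 := by
  obtain ⟨i, hi⟩ := h
  rcases i with i | i
  · exact Nd_ne_aux i hi
  · have : Nd v u ≠ 0 := Nd_ne_aux i fun j hj => by
      have := hi j.swap fun e => hj (by rw [← Sum.swap_swap j, e]; rfl)
      cases j <;> simpa using this
    intro e
    exact this (by rw [← neg_eq_zero, ← e, Nd, Nd]; ring)

theorem deg_Nd (u v : Fin r → F) : (Nd u v).natDegree ≤ r - 1 + r := by
  refine (natDegree_sub_le _ _).trans (max_le ?_ ?_) <;>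
    exact natDegree_mul_le.trans (add_le_add ((deg_Nk 1 _).trans (one_mul _).le) (deg_Dn _))

theorem map_Nd {R : Type} [CommRing R] (f : F[X] →+* R) (u v : Fin r → F) (w w' : Fin r → R)
    (hw : ∀ i, f (X + C (u i)) * w i = 1) (hw' : ∀ i, f (X + C (v i)) * w' i = 1) :
    f (Nd u v) = f (Dn u) * f (Dn v) * (∑ i, w i ^ 1 - ∑ i, w' i ^ 1) := by
  rw [Nd, map_sub, map_mul, map_mul, map_Nk f u w hw, map_Nk f v w' hw']
  ring

/-- expansion at the point `y` -/
noncomputable def loc (y : F) : F[X] →+* PowerSeries F :=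
  (coeToPowerSeries.ringHom).comp (compRingHom (X + C y))

theorem loc_apply (y : F) (q : F[X]) : loc y q = (q.comp (X + C y) : F[X]) := rfl

theorem const_loc (y : F) (q : F[X]) : PowerSeries.constantCoeff (loc y q) = q.eval y := by
  rw [loc_apply, Polynomial.constantCoeff_coe, coeff_zero_eq_eval_zero, eval_comp]
  simp

theorem loc_dvd (y : F) (q : F[X]) {n : ℕ} (hn : q.natDegree < n)
    (h : (PowerSeries.X : PowerSeries F) ^ n ∣ loc y q) : q = 0 := by
  rw [PowerSeries.X_pow_dvd_iff] at h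
  have h1 : q.comp (X + C y) = 0 := by
    ext m
    by_cases hm : m < n
    · simpa [loc_apply] using h m hm
    · refine coeff_eq_zero_of_natDegree_lt (lt_of_le_of_lt natDegree_comp_le ?_)
      rw [natDegree_X_add_C]
      omega
  rwa [comp_X_add_C_eq_zero_iff] at h1

theorem ex_inv (y : F) (u : Fin r → F) (hu : ∀ i, y + u i ≠ 0) :
    ∃ w : Fin r → PowerSeries F, (∀ i, loc y (X + C (u i)) * w i = 1) ∧
      (∀ i, PowerSeries.constantCoeff (w i) = (y + u i)⁻¹) ∧
      PowerSeries.derivative F (∑ i, w i ^ 1) = -∑ i, w i ^ 2 := by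
  have h0 : ∀ i, PowerSeries.constantCoeff (loc y (X + C (u i))) = y + u i := fun i => by
    rw [const_loc]
    simp
  have h1 : ∀ i, loc y (X + C (u i)) * (loc y (X + C (u i)))⁻¹ = 1 := fun i =>
    PowerSeries.mul_inv_cancel _ (by rw [h0]; exact hu i)
  refine ⟨fun i => (loc y (X + C (u i)))⁻¹, h1, fun i => ?_, ?_⟩
  · rw [PowerSeries.constantCoeff_inv, h0]
  · rw [map_sum, ← sum_neg_distrib]
    refine sum_congr rfl fun i _ => ?_
    have h2 : PowerSeries.derivative F (loc y (X + C (u i))) = 1 := by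
      rw [loc_apply, PowerSeries.derivative_coe]
      simp
    rw [pow_one, PowerSeries.derivative_inv', h2, mul_one]

theorem local_step {p : ℕ} [CharP F p] (hp : 2 * r ≤ p) {D : ℕ} {P : F[X][X][X]} (hP : Bd D P)
    {u v : Fin r → F} (h : SepZ u v) {y : F} (hu : ∀ i, y + u i ≠ 0) (hv : ∀ i, y + v i ≠ 0)
    (h1 : ∑ i, (y + u i)⁻¹ ^ 1 = ∑ i, (y + v i)⁻¹ ^ 1)
    (h2 : ∑ i, (y + u i)⁻¹ ^ 2 = ∑ i, (y + v i)⁻¹ ^ 2)
    (Pu : num D u P = 0) (Pv : num D v P = 0) : (num D u (derivative P)).eval y = 0 := by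
  classical
  obtain ⟨w, w1, w2, w3⟩ := ex_inv y u hu
  obtain ⟨w', w1', w2', w3'⟩ := ex_inv y v hv
  have r0 : 0 < r := by
    obtain ⟨i, -⟩ := h
    rcases i with i | i <;> exact i.pos
  have z : ∀ (u : Fin r → F) (w : Fin r → PowerSeries F), (∀ i, y + u i ≠ 0) →
      (∀ i, loc y (X + C (u i)) * w i = 1) → num D u P = 0 →
      ev (loc y) (∑ i, w i ^ 1) (∑ i, w i ^ 2) P = 0 := fun u w hu hw h0 => by
    have := map_num (loc y) u w hw hP
    rw [h0, map_zero] at this
    refine (mul_eq_zero.1 this.symm).resolve_left (pow_ne_zero _ fun e => ?_)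
    have e' := const_loc y (Dn u)
    rw [e, map_zero, eval_Dn] at e'
    exact prod_ne_zero_iff.2 (fun i _ => hu i) e'.symm
  obtain ⟨s, t, hst⟩ := ev_taylor (loc y) (∑ i, w i ^ 1) (∑ i, w i ^ 2) (∑ i, w' i ^ 1)
    (∑ i, w' i ^ 2) P
  rw [z u w hu w1 Pu, z v w' hv w1' Pv] at hst
  have hN := map_Nd (loc y) u v w w' w1 w1'
  have hd : ∑ i, w' i ^ 2 - ∑ i, w i ^ 2 =
      PowerSeries.derivative F (∑ i, w i ^ 1 - ∑ i, w' i ^ 1) := by
    rw [map_sub, w3, w3']
    ring
  have c0 : PowerSeries.coeff 0 (∑ i, w i ^ 1 - ∑ i, w' i ^ 1) = 0 := by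
    simp only [PowerSeries.coeff_zero_eq_constantCoeff, map_sub, map_sum, map_pow, w2, w2']
    rw [h1, sub_self]
  have c1 : PowerSeries.coeff 0 (∑ i, w' i ^ 2 - ∑ i, w i ^ 2) = 0 := by
    simp only [PowerSeries.coeff_zero_eq_constantCoeff, map_sub, map_sum, map_pow, w2, w2']
    rw [h2, sub_self]
  rw [hd, ← neg_sub (∑ i, w i ^ 1)] at hst
  rw [hd] at c1
  rw [← const_loc, map_num (loc y) u w w1 hP.deriv, map_mul]
  refine mul_eq_zero_of_right _ ?_
  generalize ev (loc y) (∑ i, w i ^ 1) (∑ i, w i ^ 2) (derivative P) = G at hst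
  generalize ∑ i, w i ^ 1 - ∑ i, w' i ^ 1 = a at hst hN c0 c1
  have ex : ∃ k, k < 2 * r ∧ PowerSeries.coeff k a ≠ 0 := by
    by_contra e
    push Not at e
    refine Nd_ne h (loc_dvd y _ (n := 2 * r) ((deg_Nd u v).trans_lt (by omega)) ?_)
    rw [hN]
    exact (PowerSeries.X_pow_dvd_iff.2 e).mul_left _
  obtain ⟨k1, k2⟩ := Nat.find_spec ex
  have k3 : ∀ m < Nat.find ex, PowerSeries.coeff m a = 0 := fun m hm => by
    by_contra e
    exact Nat.find_min ex hm ⟨hm.trans k1, e⟩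
  generalize Nat.find ex = k at k1 k2 k3
  rw [PowerSeries.coeff_derivative] at c1
  obtain ⟨j, rfl⟩ : ∃ j, k = j + 2 := by
    rcases k with _ | _ | j
    · exact absurd c0 k2
    · exact absurd (by simpa using c1) k2
    · exact ⟨j, rfl⟩
  obtain ⟨g, hg⟩ : (PowerSeries.X : PowerSeries F) ^ (j + 1) ∣ PowerSeries.derivative F a := by
    rw [PowerSeries.X_pow_dvd_iff]
    intro m hm
    rw [PowerSeries.coeff_derivative, k3 _ (by omega), zero_mul]
  obtain ⟨g', hg'⟩ := PowerSeries.X_pow_dvd_iff.2 k3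
  have g0 : PowerSeries.constantCoeff g ≠ 0 := by
    have e1 := PowerSeries.coeff_derivative a (j + 1)
    have e2 := PowerSeries.coeff_X_pow_mul g (j + 1) 0
    rw [zero_add, ← hg, e1, PowerSeries.coeff_zero_eq_constantCoeff] at e2
    rw [← e2]
    refine mul_ne_zero k2 ?_
    rw [← Nat.cast_succ, Ne, CharP.cast_eq_zero_iff F p]
    exact Nat.not_dvd_of_pos_of_lt (by omega) (by omega)
  have e : (PowerSeries.X : PowerSeries F) ^ (j + 1) *
      (G * g + PowerSeries.X * (t * PowerSeries.X ^ j * g ^ 2 - g' * s)) = 0 := by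
    rw [hg] at hst
    rw [hg'] at hst
    rw [hst]
    ring
  have e2 := congrArg PowerSeries.constantCoeff
    ((mul_eq_zero.1 e).resolve_left (pow_ne_zero _ PowerSeries.X_ne_zero))
  rw [map_add, map_mul, map_mul, PowerSeries.constantCoeff_X, zero_mul, add_zero, map_zero] at e2
  exact (mul_eq_zero.1 e2).resolve_right g0

end Esz

end Pool.Agent.MP_c5bf7b_nt.H38
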