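import Pool.Agent.MP_c5bf7b_nt.H38.SpecB

/-! Primitive characters as functions on the integers: the primitive character attached to a
Dirichlet character, and the factorisation along a coprime factorisation of the modulus. -/

set_option autoImplicit false

namespace Pool.Agent.MP_c5bf7b_nt.H38

namespace FactAux

theorem pc_of_primitive {m : ℕ} [NeZero m] (ψ : DirichletCharacter ℂ m) (hψ : ψ.IsPrimitive) :
    PC m (fun n : ℤ => ψ (n : ZMod m)) where
  pos := Nat.pos_of_ne_zero (NeZero.ne m)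
  one := by simp
  mul := fun a b => by simp
  per := fun a b h => by rw [(ZMod.intCast_eq_intCast_iff a b m).2 h]
  zero := fun a h => (DirichletCharacter.apply_eq_zero_iff ψ a).2 h
  norm := fun a h => by
    have hu : IsUnit (a : ZMod m) := (ZMod.coe_int_isUnit_iff_isCoprime a m).2 h.symm
    simpa using DirichletCharacter.unit_norm_eq_one ψ hu.unit
  prim := fun p hp hpm => by
    by_contra hcon
    push Not at hcon
    have hd : m / p ∣ m := Nat.div_dvd_of_dvd hpm
    have hft : ψ.FactorsThrough (m / p) := by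
      rw [DirichletCharacter.factorsThrough_iff_ker_unitsMap hd]
      intro x hx
      rw [MonoidHom.mem_ker] at hx ⊢
      obtain ⟨a, ha⟩ := ZMod.intCast_surjective (x : ZMod m)
      have hcop : IsCoprime a (m : ℤ) := by
        refine ((ZMod.coe_int_isUnit_iff_isCoprime a m).1 ?_).symm
        rw [ha]; exact x.isUnit
      have h1 : a ≡ 1 [ZMOD (m / p : ℕ)] := by
        rw [← ZMod.intCast_eq_intCast_iff]
        have h2 := congrArg (fun u : (ZMod (m / p))ˣ => (u : ZMod (m / p))) hx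
        simp only [ZMod.unitsMap_def, Units.coe_map, MonoidHom.coe_coe, Units.val_one] at h2
        rw [← ha, map_intCast] at h2
        simpa using h2
      have h3 := hcon a hcop h1
      ext
      rw [MulChar.coe_toUnitHom, ← ha, h3, Units.val_one]
    have hle : ψ.conductor ≤ m / p := Nat.sInf_le hft
    rw [hψ] at hle
    have := Nat.div_lt_self (Nat.pos_of_ne_zero (NeZero.ne m)) hp.one_lt
    omega

theorem half {m₁ m₂ : ℕ} {χ : ℤ → ℂ} {s t : ℤ} (h : s * m₁ + t * m₂ = 1) (hχ : PC (m₁ * m₂) χ) :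
    PC m₁ (fun a : ℤ => χ (a * (t * m₂) + s * m₁)) := by
  have e1 : ∀ a : ℤ, a * (t * m₂) + s * m₁ = a + m₁ * ((1 - a) * s) := fun a => by
    linear_combination a * h
  have e2 : ∀ a : ℤ, a * (t * m₂) + s * m₁ = 1 + m₂ * ((a - 1) * t) := fun a => by
    linear_combination h
  have hc : ∀ a : ℤ, IsCoprime (a * (t * m₂) + s * m₁) ((m₁ * m₂ : ℕ) : ℤ) ↔
      IsCoprime a (m₁ : ℤ) := fun a => by
    rw [Nat.cast_mul, IsCoprime.mul_right_iff]
    constructor
    · rintro ⟨h1, -⟩
      rwa [e1, IsCoprime.add_mul_left_left_iff] at h1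
    · intro h1
      refine ⟨?_, ?_⟩
      · rwa [e1, IsCoprime.add_mul_left_left_iff]
      · rw [e2, IsCoprime.add_mul_left_left_iff]; exact isCoprime_one_left
  refine ⟨Nat.pos_of_mul_pos_right hχ.pos, ?_, ?_, ?_, ?_, ?_, ?_⟩
  · rw [e2]; simpa using hχ.one
  · intro a b
    rw [← hχ.mul]
    refine hχ.per _ _ (Int.modEq_iff_dvd.2 ⟨(a - 1) * (1 - b) * s * t * (-1) * (-1), ?_⟩)
    push_cast
    linear_combination (a * b * (t * m₂) + s * m₁) * h
  · intro a b hab
    obtain ⟨c, hc'⟩ := Int.modEq_iff_dvd.1 hab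
    refine hχ.per _ _ (Int.modEq_iff_dvd.2 ⟨c * t, ?_⟩)
    push_cast
    linear_combination (t * m₂) * hc'
  · intro a ha
    exact hχ.zero _ fun h' => ha ((hc a).1 h')
  · intro a ha
    exact hχ.norm _ ((hc a).2 ha)
  · intro p hp hpm
    obtain ⟨a, ha, ha1, ha2⟩ := hχ.prim p hp (hpm.mul_right m₂)
    rw [Nat.cast_mul, IsCoprime.mul_right_iff] at ha
    have hdiv : m₁ * m₂ / p = m₁ / p * m₂ := by
      obtain ⟨k, rfl⟩ := hpm
      rw [Nat.mul_assoc, Nat.mul_div_cancel_left _ hp.pos, Nat.mul_div_cancel_left _ hp.pos]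
    rw [hdiv, Nat.cast_mul] at ha1
    refine ⟨a, ha.1, ha1.of_mul_right _, ?_⟩
    obtain ⟨c, hc'⟩ := Int.modEq_iff_dvd.1 (ha1.of_mul_left _)
    have : χ (a * (t * m₂) + s * m₁) = χ a := by
      refine hχ.per _ _ (Int.modEq_iff_dvd.2 ⟨-(c * s), ?_⟩)
      rw [e1, hc']
      push_cast
      ring
    rw [this]
    exact ha2

end FactAux

theorem fact1 : Fact1S := by
  intro q _ χ hχ
  have h0 : χ.conductor ≠ 0 := χ.conductor_ne_zero
  have h1 : χ.conductor ≠ 1 := fun h => hχ ((DirichletCharacter.eq_one_iff_conductor_eq_one).2 h)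
  have : NeZero χ.conductor := ⟨h0⟩
  refine ⟨χ.conductor, fun n : ℤ => χ.primitiveCharacter (n : ZMod χ.conductor), by omega,
    χ.conductor_dvd_level, FactAux.pc_of_primitive _ χ.primitiveCharacter_isPrimitive, ?_⟩
  intro n hn
  exact (χ.primitiveCharacter_apply_of_isCoprime hn).symm

theorem fact2 : Fact2S := by
  intro m₁ m₂ χ hm hχ
  obtain ⟨s, t, h⟩ := Nat.isCoprime_iff_coprime.2 hm
  have h' : t * m₂ + s * m₁ = 1 := by linear_combination h
  have hχ' : PC (m₂ * m₁) χ := by rwa [Nat.mul_comm]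
  refine ⟨_, _, FactAux.half h hχ, FactAux.half h' hχ', fun a => ?_⟩
  rw [← hχ.mul]
  refine hχ.per _ _ (Int.modEq_iff_dvd.2 ⟨(a - 1) ^ 2 * s * t, ?_⟩)
  push_cast
  linear_combination (a * (s * m₁ + t * m₂ + 1)) * h

end Pool.Agent.MP_c5bf7b_nt.H38
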