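import Pool.Agent.MP_c5bf7b_nt.H38.SpecA
import Pool.Agent.MP_c481b3_nt.H31.LocFac

/-! Row GF, part 1: the local form of the logarithmic derivative. -/

set_option autoImplicit false

namespace Pool.Agent.MP_c5bf7b_nt.H38

open Complex Metric Pool.Agent.MP_c481b3_nt.H31

namespace Gf

lemma extend {f g : ℂ → ℂ} {Z : Multiset ℂ} {B : ℝ} (h : LF.Fac f Z g) (hB2 : 2 ≤ B)
    (hB : ∀ s ∈ ball (2 : ℂ) (7 / 4), ‖f s‖ ≤ B) (h2 : 1 / 3 ≤ ‖f 2‖) :
    ∃ Z' g', LF.Fac f (Z' + Z) g' ∧ (∀ s, g s = LF.P Z' s * g' s) ∧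
      ∀ a, ‖a - 2‖ ≤ 11 / 8 → g' a ≠ 0 := by
  by_contra hno
  push Not at hno
  have key : ∀ n : ℕ, ∃ Z' g', LF.Fac f (Z' + Z) g' ∧ (∀ s, g s = LF.P Z' s * g' s) ∧
      Z'.card = n := by
    intro n
    induction n with
    | zero => exact ⟨0, g, by simpa using h, fun s => by simp [LF.P], rfl⟩
    | succ n ih =>
      obtain ⟨Z', g', h1, h3, hn⟩ := ih
      obtain ⟨a, ha, hga⟩ := hno Z' g' h1 h3
      refine ⟨a ::ₘ Z', dslope g' a, ?_, fun w => ?_, by rw [Multiset.card_cons, hn]⟩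
      · rw [Multiset.cons_add]
        exact h1.step ha hga
      · have h4 := sub_smul_dslope g' a w
        rw [hga, sub_zero, smul_eq_mul] at h4
        rw [LF.P_cons, h3 w, ← h4]
        ring
  obtain ⟨n, hn⟩ := exists_nat_gt (20 * Real.log B)
  obtain ⟨Z', g', h1, -, rfl⟩ := key n
  have h4 := h1.card_le hB2 hB h2
  rw [Multiset.card_add] at h4
  push_cast at h4
  have : (0 : ℝ) ≤ Z.card := Nat.cast_nonneg _
  linarith

lemma ld_bound {f g : ℂ → ℂ} {Z : Multiset ℂ} {B : ℝ} (h : LF.Fac f Z g) (hB2 : 2 ≤ B)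
    (hB : ∀ s ∈ ball (2 : ℂ) (7 / 4), ‖f s‖ ≤ B) (h2 : 1 / 3 ≤ ‖f 2‖)
    (hne : ∀ a, ‖a - 2‖ ≤ 11 / 8 → g a ≠ 0) {s : ℂ} (hs : s ∈ ball (2 : ℂ) (5 / 4)) :
    ‖deriv g s / g s‖ ≤ 40000 * Real.log B := by
  have hN := h.card_le hB2 hB h2
  have hL : 0 < Real.log B := Real.log_pos (by linarith)
  have hle : ∀ w ∈ ball (2 : ℂ) (11 / 8), ‖w - 2‖ ≤ 11 / 8 := by
    intro w hw
    rw [mem_ball, dist_eq_norm] at hw
    exact hw.le
  obtain ⟨l, hl, hgl⟩ := LF.exists_log g 2 (11 / 8) (by norm_num)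
    (h.1.mono (ball_subset_ball (by norm_num))) fun w hw => hne w (hle w hw)
  have hld : DifferentiableOn ℂ l (ball 2 (11 / 8)) := fun w hw =>
    (hl w hw).differentiableAt.differentiableWithinAt
  have hre : ∀ w ∈ ball (2 : ℂ) (11 / 8), (l w - l 2).re ≤ 43 * Real.log B := by
    intro w hw
    have h1 := h.bound hB (s := w) (ball_subset_ball (by norm_num) hw)
    have h3 := LF.Q_lower Z h.2.1 w (hle w hw)
    have h4 := h.low h2
    have h5 : (1 / 3 : ℝ) ^ Z.card * ‖g w‖ ≤ B :=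
      (mul_le_mul_of_nonneg_right h3 (norm_nonneg _)).trans h1
    rw [hgl w hw, norm_exp] at h5
    rw [hgl 2 (mem_ball_self (by norm_num)), norm_exp] at h4
    have p1 : (0 : ℝ) < (1 / 3 : ℝ) ^ Z.card := by positivity
    have p2 : (0 : ℝ) < (11 / 8 : ℝ) ^ Z.card := by positivity
    have h6 := Real.log_le_log (mul_pos p1 (Real.exp_pos _)) h5
    have h7 := Real.log_le_log (by norm_num) h4
    rw [Real.log_mul p1.ne' (Real.exp_pos _).ne', Real.log_pow, Real.log_exp, one_div,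
      Real.log_inv] at h6
    rw [Real.log_mul p2.ne' (Real.exp_pos _).ne', Real.log_pow, Real.log_exp, one_div,
      Real.log_inv] at h7
    have h8 := LF.log_three hB2
    rw [Real.log_mul (by norm_num) (by linarith)] at h8
    have h9 : Real.log 3 + Real.log (11 / 8) ≤ 2 := by
      rw [← Real.log_mul (by norm_num) (by norm_num), Real.log_le_iff_le_exp (by norm_num)]
      have e1 := Real.exp_one_gt_d9
      have e2 : Real.exp 2 = Real.exp 1 * Real.exp 1 := by
        rw [← Real.exp_add]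
        norm_num
      nlinarith
    have h10 : (0 : ℝ) ≤ Z.card := Nat.cast_nonneg _
    have h11 := mul_le_mul_of_nonneg_left h9 h10
    rw [sub_re]
    nlinarith
  have hs' : s ∈ ball (2 : ℂ) (11 / 8) := ball_subset_ball (by norm_num) hs
  rw [← (hl s hs').deriv]
  linarith [LF.deriv_bound l _ (by positivity) hld hre hs]

lemma PZ_add (Y Z : Multiset ℂ) (s : ℂ) : PZ (Y + Z) s = PZ Y s * PZ Z s := by
  simp [PZ]

lemma PZ_diff (Z : Multiset ℂ) : Differentiable ℂ (PZ Z) := by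
  induction Z using Multiset.induction_on with
  | empty =>
    have : PZ 0 = fun _ => 1 := by
      funext w
      simp [PZ]
    rw [this]
    exact differentiable_const _
  | cons a Z ih =>
    have e : PZ (a ::ₘ Z) = fun w => (w - a) * PZ Z w := funext (LF.P_cons a Z)
    rw [e]
    fun_prop

lemma PZ_scale (Z : Multiset ℂ) (c a w : ℂ) :
    PZ (Z.map fun ρ => c + a * (ρ - 2)) (c + a * (w - 2)) = a ^ Z.card * LF.P Z w := by
  induction Z using Multiset.induction_on with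
  | empty => simp [PZ, LF.P]
  | cons b Z ih =>
    rw [Multiset.map_cons, Multiset.card_cons, LF.P_cons]
    change LF.P _ _ = _
    rw [LF.P_cons]
    change _ * PZ _ _ = _
    rw [ih]
    ring

open Classical in
/-- the local formula around `2 + τ i` -/
lemma loc {f G : ℂ → ℂ} {Z : Multiset ℂ} {B T : ℝ} (hB2 : 2 ≤ B) (hZ : IsZ f T Z G)
    (hB : ∀ s : ℂ, 1 / 20 ≤ s.re → s.re ≤ 4 → |s.im| ≤ T + 2 → ‖f s‖ ≤ B)
    {τ : ℝ} (hτ : |τ| ≤ T) (h2 : 1 / 3 ≤ ‖f (2 + τ * I)‖) :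
    ∃ (Y : Multiset ℂ) (h : ℂ → ℂ),
      ((Z.filter fun ρ => ‖ρ - (2 + τ * I)‖ ≤ 121 / 80).card : ℝ) ≤ 20 * Real.log B ∧
      (Y.card : ℝ) ≤ 20 * Real.log B ∧ (∀ ρ ∈ Y, G ρ = 0) ∧
      DifferentiableOn ℂ h (ball (2 + τ * I) (11 / 8)) ∧
      ∀ s ∈ ball (2 + τ * I) (11 / 8), ‖h s‖ ≤ 40000 * Real.log B ∧ (G s ≠ 0 →
        deriv G s / G s = h s + (Y.map fun ρ => (s - ρ)⁻¹).sum -
          ((Z.filter fun ρ => ¬ ‖ρ - (2 + τ * I)‖ ≤ 121 / 80).map fun ρ => (s - ρ)⁻¹).sum) := by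
  obtain ⟨hG, hf, -, -⟩ := hZ
  set c : ℂ := 2 + τ * I with hc
  set Zn := Z.filter fun ρ => ‖ρ - c‖ ≤ 121 / 80 with hZn
  set Zf := Z.filter fun ρ => ¬ ‖ρ - c‖ ≤ 121 / 80 with hZf
  have hsplit : Zn + Zf = Z := Multiset.filter_add_not _ _
  let A : ℂ → ℂ := fun w => c + 11 / 10 * (w - 2)
  let A' : ℂ → ℂ := fun s => 2 + 10 / 11 * (s - c)
  have hAA : ∀ s, A (A' s) = s := fun s => by simp only [A, A']; ring
  have n1 : ‖(11 / 10 : ℂ)‖ = 11 / 10 := by rw [norm_div]; simp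
  have n2 : ‖(10 / 11 : ℂ)‖ = 10 / 11 := by rw [norm_div]; simp
  have hA : ∀ w, ‖A w - c‖ = 11 / 10 * ‖w - 2‖ := fun w => by
    simp only [A, add_sub_cancel_left, norm_mul, n1]
  have hA' : ∀ s, ‖A' s - 2‖ = 10 / 11 * ‖s - c‖ := fun w => by
    simp only [A', add_sub_cancel_left, norm_mul, n2]
  have hFB : ∀ w ∈ ball (2 : ℂ) (7 / 4), ‖f (A w)‖ ≤ B := by
    intro w hw
    rw [mem_ball, dist_eq_norm] at hw
    have e := hA w
    have e1 := abs_re_le_norm (A w - c)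
    have e2 := abs_im_le_norm (A w - c)
    have r1 : c.re = 2 := by simp [hc]
    have r2 : c.im = τ := by simp [hc]
    rw [sub_re, r1, abs_le] at e1
    rw [sub_im, r2, abs_le] at e2
    rw [abs_le] at hτ
    exact hB _ (by linarith) (by linarith) (abs_le.2 ⟨by linarith, by linarith⟩)
  have hF2 : 1 / 3 ≤ ‖f (A 2)‖ := by simpa [A] using h2
  have hmap : (Zn.map A').map A = Zn := by
    rw [Multiset.map_map]
    simp only [Function.comp_def, hAA, Multiset.map_id']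
  have hAd : Differentiable ℂ A := by fun_prop
  have fac : LF.Fac (fun w => f (A w)) (Zn.map A')
      fun w => (11 / 10) ^ Zn.card * (PZ Zf (A w) * G (A w)) := by
    refine ⟨?_, fun ρ hρ => ?_, fun w => ?_⟩
    · exact ((((PZ_diff Zf).comp hAd).mul (hG.comp hAd)).const_mul _).differentiableOn
    · obtain ⟨x, hx, rfl⟩ := Multiset.mem_map.1 hρ
      have := (Multiset.mem_filter.1 hx).2
      rw [hA']
      linarith
    · have e := PZ_scale (Zn.map A') c (11 / 10) w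
      change PZ ((Zn.map A').map A) (A w) = _ at e
      rw [hmap, Multiset.card_map] at e
      simp only
      rw [hf, ← hsplit, PZ_add, e]
      ring
  obtain ⟨Y, g, fac2, hg, hne⟩ := extend fac hB2 hFB hF2
  have hcard := fac2.card_le hB2 hFB hF2
  rw [Multiset.card_add, Multiset.card_map] at hcard
  push_cast at hcard
  have c1 : (0 : ℝ) ≤ Y.card := Nat.cast_nonneg _
  have c2 : (0 : ℝ) ≤ Zn.card := Nat.cast_nonneg _
  have hid : ∀ s, (11 / 10 : ℂ) ^ (Y.card + Zn.card) * (PZ Zf s * G s) =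
      PZ (Y.map A) s * g (A' s) := by
    intro s
    have e := PZ_scale Y c (11 / 10) (A' s)
    change PZ (Y.map A) (A (A' s)) = _ at e
    have e2 := hg (A' s)
    simp only [hAA] at e e2
    rw [e, pow_add, mul_assoc, e2]
    ring
  have hfar : ∀ s, ‖s - c‖ ≤ 121 / 80 → PZ Zf s ≠ 0 := fun s hs h0 =>
    (Multiset.mem_filter.1 (LF.P_eq_zero.1 h0)).2 hs
  have hball : ∀ s ∈ ball c (11 / 8), A' s ∈ ball (2 : ℂ) (5 / 4) := by
    intro s hs
    rw [mem_ball, dist_eq_norm] at hs ⊢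
    rw [hA']
    linarith
  have hle : ∀ w ∈ ball (2 : ℂ) (5 / 4), ‖w - 2‖ ≤ 11 / 8 := by
    intro w hw
    rw [mem_ball, dist_eq_norm] at hw
    linarith
  have hgd : DifferentiableOn ℂ g (ball 2 (5 / 4)) := fac2.1.mono (ball_subset_ball (by norm_num))
  have hA'd : Differentiable ℂ A' := by fun_prop
  refine ⟨Y.map A, fun s => 10 / 11 * (deriv g (A' s) / g (A' s)), by linarith,
    by rw [Multiset.card_map]; linarith, fun ρ hρ => ?_, ?_, fun s hs => ⟨?_, fun hGs => ?_⟩⟩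
  · have h0 : PZ (Y.map A) ρ = 0 := LF.P_eq_zero.2 hρ
    have e := hid ρ
    rw [h0, zero_mul] at e
    obtain ⟨x, hx, rfl⟩ := Multiset.mem_map.1 hρ
    have hx2 := fac2.2.1 x (Multiset.mem_add.2 (Or.inl hx))
    have e2 := (mul_eq_zero.1 e).resolve_left (pow_ne_zero _ (by norm_num))
    exact (mul_eq_zero.1 e2).resolve_left (hfar _ (by rw [hA]; linarith))
  · have h1 : DifferentiableOn ℂ (fun w => deriv g w / g w) (ball 2 (5 / 4)) :=
      (hgd.deriv isOpen_ball).div hgd fun w hw => hne w (hle w hw)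
    exact (h1.comp hA'd.differentiableOn hball).const_mul _
  · have := ld_bound fac2 hB2 hFB hF2 hne (hball s hs)
    rw [norm_mul, n2]
    linarith [norm_nonneg (deriv g (A' s) / g (A' s))]
  · have hs2 : ‖s - c‖ ≤ 121 / 80 := by
      rw [mem_ball, dist_eq_norm] at hs
      linarith
    have p1 := hfar s hs2
    have p2 := hne _ (hle _ (hball s hs))
    have p0 : (11 / 10 : ℂ) ^ (Y.card + Zn.card) ≠ 0 := pow_ne_zero _ (by norm_num)
    have p3 : PZ (Y.map A) s ≠ 0 := by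
      intro h0
      have e := hid s
      rw [h0, zero_mul] at e
      exact mul_ne_zero p0 (mul_ne_zero p1 hGs) e
    have d1 := ((LF.P_hasDerivAt Zf s p1).fun_mul (hG s).hasDerivAt).const_mul
      ((11 / 10 : ℂ) ^ (Y.card + Zn.card))
    have d2 : HasDerivAt A' (10 / 11) s := by
      simpa [A'] using (((hasDerivAt_id s).sub_const c).const_mul (10 / 11 : ℂ)).const_add 2
    have d3 : HasDerivAt g (deriv g (A' s)) (A' s) :=
      (hgd.differentiableAt (isOpen_ball.mem_nhds (hball s hs))).hasDerivAt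
    have d4 := (LF.P_hasDerivAt (Y.map A) s p3).fun_mul (d3.comp s d2)
    have e : (fun y => (11 / 10 : ℂ) ^ (Y.card + Zn.card) * (LF.P Zf y * G y)) =
        fun y => LF.P (Y.map A) y * (g ∘ A') y := funext hid
    rw [e] at d1
    have d5 := d1.unique d4
    have e2 := hid s
    simp only [Function.comp_def] at d5
    change _ * (PZ Zf s * _ * G s + PZ Zf s * _) = PZ _ s * _ * _ + PZ _ s * _ at d5
    generalize (11 / 10 : ℂ) ^ (Y.card + Zn.card) = k at *
    generalize (Zf.map fun ρ => (s - ρ)⁻¹).sum = S1 at *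
    generalize ((Y.map A).map fun ρ => (s - ρ)⁻¹).sum = S2 at *
    have e3 : PZ (Y.map A) s = k * (PZ Zf s * G s) / g (A' s) := by
      rw [e2]
      field_simp
    rw [e3] at d5
    field_simp at d5 ⊢
    linear_combination d5

end Gf

end Pool.Agent.MP_c5bf7b_nt.H38
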