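import Pool.Agent.MP_c5bf7b_nt.H38.SpecA

/-! Row GRAM, part 1: elementary lemmas. -/

set_option autoImplicit false

namespace Pool.Agent.MP_c5bf7b_nt.H38

open Finset Complex ArithmeticFunction

namespace Gram

lemma step_up {y z β : ℝ} (hy : 0 < y) (hyz : y ≤ z) (h0 : 0 < β) (h1 : β ≤ 1) :
    (z ^ β - y ^ β) / β ≤ (z - y) * y ^ (-1 + β) := by
  have hs : -1 ≤ (z - y) / y := by
    have : 0 ≤ (z - y) / y := div_nonneg (by linarith) hy.le
    linarith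
  have hb := rpow_one_add_le_one_add_mul_self hs h0.le h1
  have hz : z = y * (1 + (z - y) / y) := by field_simp; ring
  have hyb : 0 < y ^ β := Real.rpow_pos_of_pos hy β
  have h2 : z ^ β = y ^ β * (1 + (z - y) / y) ^ β := by
    rw [← Real.mul_rpow hy.le (by linarith), ← hz]
  have h3 : y ^ (-1 + β) = y ^ β / y := by
    rw [Real.rpow_add hy, Real.rpow_neg_one]; field_simp
  rw [div_le_iff₀ h0, h3, h2]
  have h4 : y ^ β * (1 + (z - y) / y) ^ β ≤ y ^ β * (1 + β * ((z - y) / y)) :=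
    mul_le_mul_of_nonneg_left hb hyb.le
  have h5 : y ^ β * (1 + β * ((z - y) / y)) - y ^ β = (z - y) * (y ^ β / y) * β := by
    field_simp; ring
  linarith

lemma step_lo {y z β : ℝ} (hy : 0 < y) (hyz : y ≤ z) (h0 : 0 < β) (h1 : β ≤ 1) :
    (z - y) * z ^ (-1 + β) ≤ (z ^ β - y ^ β) / β := by
  have hz0 : 0 < z := lt_of_lt_of_le hy hyz
  have hs : -1 ≤ (y - z) / z := by
    rw [le_div_iff₀ hz0]; linarith
  have hb := rpow_one_add_le_one_add_mul_self hs h0.le h1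
  have hz : y = z * (1 + (y - z) / z) := by field_simp; ring
  have hyb : 0 < z ^ β := Real.rpow_pos_of_pos hz0 β
  have h2 : y ^ β = z ^ β * (1 + (y - z) / z) ^ β := by
    rw [← Real.mul_rpow hz0.le (by linarith), ← hz]
  have h3 : z ^ (-1 + β) = z ^ β / z := by
    rw [Real.rpow_add hz0, Real.rpow_neg_one]; field_simp
  rw [le_div_iff₀ h0, h3, h2]
  have h4 : z ^ β * (1 + (y - z) / z) ^ β ≤ z ^ β * (1 + β * ((y - z) / z)) :=
    mul_le_mul_of_nonneg_left hb hyb.le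
  have h5 : z ^ β - z ^ β * (1 + β * ((y - z) / z)) = (z - y) * (z ^ β / z) * β := by
    field_simp; ring
  linarith

lemma reindex {R : Type} [AddCommMonoid R] (g : ℕ → R) (M U X : ℕ) (hM : 0 < M) :
    ∑ n ∈ (Ioc U X).filter (fun n => M ∣ n), g n = ∑ m ∈ Ioc (U / M) (X / M), g (M * m) := by
  symm
  refine Finset.sum_nbij' (fun m => M * m) (fun n => n / M) ?_ ?_ ?_ ?_ ?_
  · intro m hm
    simp only [mem_Ioc, mem_filter] at hm ⊢
    refine ⟨⟨?_, ?_⟩, dvd_mul_right _ _⟩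
    · have := (Nat.div_lt_iff_lt_mul hM).mp hm.1
      rwa [mul_comm]
    · have := (Nat.le_div_iff_mul_le hM).mp hm.2
      rwa [mul_comm]
  · intro n hn
    simp only [mem_Ioc, mem_filter] at hn ⊢
    obtain ⟨⟨h1, h2⟩, k, rfl⟩ := hn
    rw [Nat.mul_div_cancel_left _ hM]
    refine ⟨(Nat.div_lt_iff_lt_mul hM).mpr (by rwa [mul_comm]), ?_⟩
    exact (Nat.le_div_iff_mul_le hM).mpr (by rwa [mul_comm])
  · intro m _
    exact Nat.mul_div_cancel_left _ hM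
  · intro n hn
    simp only [mem_filter] at hn
    exact Nat.mul_div_cancel' hn.2
  · intro m _
    rfl

lemma tele_lo (M a : ℕ) (hM : 0 < M) {β : ℝ} (h0 : 0 < β) (h1 : β ≤ 1) (b : ℕ) (hab : a ≤ b) :
    (((M : ℝ) * (b + 1)) ^ β - ((M : ℝ) * (a + 1)) ^ β) / β / M ≤
      ∑ m ∈ Ioc a b, ((M * m : ℕ) : ℝ) ^ (-1 + β) := by
  have hM' : (0 : ℝ) < M := by exact_mod_cast hM
  induction b, hab using Nat.le_induction with
  | base => simp
  | succ b hab ih =>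
    rw [Finset.sum_Ioc_succ_top (by omega)]
    have hs := step_up (y := (M : ℝ) * (b + 1)) (z := (M : ℝ) * (b + 1 + 1)) (β := β)
      (by positivity) (by nlinarith) h0 h1
    have hs' : (((M : ℝ) * (b + 1 + 1)) ^ β - ((M : ℝ) * (b + 1)) ^ β) / β / M ≤
        ((M : ℝ) * (b + 1)) ^ (-1 + β) := by
      rw [div_le_iff₀ hM']
      have : (M : ℝ) * (b + 1 + 1) - M * (b + 1) = M := by ring
      rw [this] at hs
      linarith
    push_cast at ih ⊢
    have e : (((M : ℝ) * (b + 1 + 1)) ^ β - ((M : ℝ) * (a + 1)) ^ β) / β / M =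
        (((M : ℝ) * (b + 1)) ^ β - ((M : ℝ) * (a + 1)) ^ β) / β / M +
        (((M : ℝ) * (b + 1 + 1)) ^ β - ((M : ℝ) * (b + 1)) ^ β) / β / M := by ring
    linarith

lemma tele_up (M a : ℕ) (hM : 0 < M) {β : ℝ} (h0 : 0 < β) (h1 : β ≤ 1) (b : ℕ) (hab : a + 1 ≤ b) :
    ∑ m ∈ Ioc a b, ((M * m : ℕ) : ℝ) ^ (-1 + β) ≤ ((M : ℝ) * (a + 1)) ^ (-1 + β) +
      (((M : ℝ) * b) ^ β - ((M : ℝ) * (a + 1)) ^ β) / β / M := by
  have hM' : (0 : ℝ) < M := by exact_mod_cast hM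
  induction b, hab using Nat.le_induction with
  | base =>
    rw [Finset.sum_Ioc_succ_top (by omega)]
    simp
  | succ b hab ih =>
    rw [Finset.sum_Ioc_succ_top (by omega)]
    have hb : (0 : ℝ) < b := by exact_mod_cast (by omega : 0 < b)
    have hs := step_lo (y := (M : ℝ) * b) (z := (M : ℝ) * (b + 1)) (β := β)
      (by positivity) (by nlinarith) h0 h1
    have hs' : ((M : ℝ) * (b + 1)) ^ (-1 + β) ≤
        (((M : ℝ) * (b + 1)) ^ β - ((M : ℝ) * b) ^ β) / β / M := by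
      rw [le_div_iff₀ hM']
      have : (M : ℝ) * (b + 1) - M * b = M := by ring
      rw [this] at hs
      linarith
    push_cast at ih ⊢
    have e : (((M : ℝ) * (b + 1)) ^ β - ((M : ℝ) * (a + 1)) ^ β) / β / M =
        (((M : ℝ) * b) ^ β - ((M : ℝ) * (a + 1)) ^ β) / β / M +
        (((M : ℝ) * (b + 1)) ^ β - ((M : ℝ) * b) ^ β) / β / M := by ring
    linarith

lemma lt_mul_succ (M : ℕ) (hM : 0 < M) (A : ℝ) : A < (M : ℝ) * ((⌊A⌋₊ / M : ℕ) + 1) := by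
  have h1 : ⌊A⌋₊ + 1 ≤ M * (⌊A⌋₊ / M + 1) := Nat.lt_mul_div_succ _ hM
  have h2 : ((⌊A⌋₊ + 1 : ℕ) : ℝ) ≤ ((M * (⌊A⌋₊ / M + 1) : ℕ) : ℝ) := by exact_mod_cast h1
  have h3 := Nat.lt_floor_add_one A
  push_cast at h2
  linarith

lemma mul_div_le' (M : ℕ) {A : ℝ} (hA : 0 ≤ A) : (M : ℝ) * (⌊A⌋₊ / M : ℕ) ≤ A := by
  have h1 : M * (⌊A⌋₊ / M) ≤ ⌊A⌋₊ := Nat.mul_div_le _ _
  have h2 : ((M * (⌊A⌋₊ / M) : ℕ) : ℝ) ≤ (⌊A⌋₊ : ℝ) := by exact_mod_cast h1
  have h3 := Nat.floor_le hA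
  rw [Nat.cast_mul] at h2
  linarith

lemma mult_sum (M : ℕ) (hM : 0 < M) {A B β : ℝ} (hA : 0 < A) (hAB : A ≤ B) (h0 : 0 < β)
    (h1 : β ≤ 1) :
    |∑ n ∈ (Ioc ⌊A⌋₊ ⌊B⌋₊).filter (fun n => M ∣ n), (n : ℝ) ^ (-1 + β) -
      (B ^ β - A ^ β) / β / M| ≤ A ^ (-1 + β) := by
  have hM' : (0 : ℝ) < M := by exact_mod_cast hM
  rw [reindex (fun n => (n : ℝ) ^ (-1 + β)) M _ _ hM]
  set a := ⌊A⌋₊ / M with ha
  set b := ⌊B⌋₊ / M with hb
  have hab : a ≤ b := Nat.div_le_div_right (Nat.floor_le_floor hAB)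
  have a1 : A < (M : ℝ) * (a + 1) := lt_mul_succ M hM A
  have a2 : (M : ℝ) * a ≤ A := mul_div_le' M hA.le
  have b1 : B < (M : ℝ) * (b + 1) := lt_mul_succ M hM B
  have b2 : (M : ℝ) * b ≤ B := mul_div_le' M (by linarith)
  have hAβ : 0 < A ^ (-1 + β) := Real.rpow_pos_of_pos hA _
  have hmono : A ^ β ≤ B ^ β := Real.rpow_le_rpow hA.le hAB h0.le
  rw [abs_le]
  constructor
  · have h := tele_lo M a hM h0 h1 b hab
    have h2 : B ^ β ≤ ((M : ℝ) * (b + 1)) ^ β := Real.rpow_le_rpow (by linarith) b1.le h0.le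
    have h3 := step_up hA a1.le h0 h1
    have h4 : (((M : ℝ) * (a + 1)) ^ β - A ^ β) / β / M ≤ A ^ (-1 + β) := by
      rw [div_le_iff₀ hM']
      have : ((M : ℝ) * (a + 1) - A) * A ^ (-1 + β) ≤ M * A ^ (-1 + β) :=
        mul_le_mul_of_nonneg_right (by linarith) hAβ.le
      linarith
    have h5 : (B ^ β - ((M : ℝ) * (a + 1)) ^ β) / β / M ≤
        (((M : ℝ) * (b + 1)) ^ β - ((M : ℝ) * (a + 1)) ^ β) / β / M := by
      gcongr
    have e : (B ^ β - A ^ β) / β / M = (B ^ β - ((M : ℝ) * (a + 1)) ^ β) / β / M +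
        (((M : ℝ) * (a + 1)) ^ β - A ^ β) / β / M := by ring
    linarith
  · rcases Nat.lt_or_ge b (a + 1) with hlt | hge
    · have : b = a := by omega
      rw [this]
      simp only [Ioc_self, sum_empty]
      have : 0 ≤ (B ^ β - A ^ β) / β / M := by
        have : 0 ≤ B ^ β - A ^ β := by linarith
        positivity
      linarith
    · have h := tele_up M a hM h0 h1 b hge
      have h2 : ((M : ℝ) * b) ^ β ≤ B ^ β := Real.rpow_le_rpow (by positivity) b2 h0.le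
      have h3 : A ^ β ≤ ((M : ℝ) * (a + 1)) ^ β := Real.rpow_le_rpow hA.le a1.le h0.le
      have h4 : ((M : ℝ) * (a + 1)) ^ (-1 + β) ≤ A ^ (-1 + β) :=
        Real.rpow_le_rpow_of_nonpos hA a1.le (by linarith)
      have h5 : (((M : ℝ) * b) ^ β - ((M : ℝ) * (a + 1)) ^ β) / β / M ≤
          (B ^ β - A ^ β) / β / M := by
        gcongr
      linarith

lemma ind_cop (n q : ℕ) (hq : q ≠ 0) :
    (if n.Coprime q then (1 : ℝ) else 0) =
      ∑ k ∈ q.divisors, if k ∣ n then (moebius k : ℝ) else 0 := by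
  have h1 : ∑ k ∈ (n.gcd q).divisors, (moebius k : ℤ) = if n.gcd q = 1 then 1 else 0 := by
    have h := congrArg (fun f : ArithmeticFunction ℤ => f (n.gcd q)) moebius_mul_coe_zeta
    simp only [coe_mul_zeta_apply, one_apply] at h
    exact h
  have h2 : (n.gcd q).divisors = q.divisors.filter (fun k => k ∣ n) := by
    ext k
    simp only [Nat.mem_divisors, mem_filter, Nat.dvd_gcd_iff]
    have : n.gcd q ≠ 0 := Nat.gcd_ne_zero_right hq
    tauto
  rw [← Finset.sum_filter, ← h2]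
  have h3 : (∑ k ∈ (n.gcd q).divisors, (moebius k : ℝ)) =
      ((∑ k ∈ (n.gcd q).divisors, (moebius k : ℤ) : ℤ) : ℝ) := by push_cast; rfl
  rw [h3, h1]
  by_cases h : n.gcd q = 1
  · simp [Nat.Coprime, h]
  · simp [Nat.Coprime, h]

lemma mu_div (q : ℕ) (hq : q ≠ 0) :
    ∑ k ∈ q.divisors, (moebius k : ℝ) / k = (q.totient : ℝ) / q := by
  have h := (sum_eq_iff_sum_mul_moebius_eq (R := ℝ) (f := fun n => (n.totient : ℝ))
    (g := fun n => (n : ℝ))).mp (fun n _ => by exact_mod_cast Nat.sum_totient n) q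
    (Nat.pos_of_ne_zero hq)
  rw [Nat.sum_divisorsAntidiagonal (fun a b => (moebius a : ℝ) * (b : ℝ))] at h
  have hq' : (q : ℝ) ≠ 0 := by exact_mod_cast hq
  rw [← h, Finset.sum_div]
  refine Finset.sum_congr rfl fun k hk => ?_
  have hk1 := Nat.dvd_of_mem_divisors hk
  have hk0 : (k : ℝ) ≠ 0 := by exact_mod_cast (Nat.pos_of_mem_divisors hk).ne'
  rw [Nat.cast_div hk1 hk0]
  field_simp

lemma cop_sum (L q : ℕ) (hL : 0 < L) (hq : q ≠ 0) (hc : L.Coprime q) {A B β : ℝ} (hA : 0 < A)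
    (hAB : A ≤ B) (h0 : 0 < β) (h1 : β ≤ 1) :
    |∑ n ∈ ((Ioc ⌊A⌋₊ ⌊B⌋₊).filter (fun n => n.Coprime q)).filter (fun n => L ∣ n),
        (n : ℝ) ^ (-1 + β) - (q.totient : ℝ) / q * ((B ^ β - A ^ β) / β) / L| ≤
      q.divisors.card * A ^ (-1 + β) := by
  have e1 : ∑ n ∈ ((Ioc ⌊A⌋₊ ⌊B⌋₊).filter (fun n => n.Coprime q)).filter (fun n => L ∣ n),
        (n : ℝ) ^ (-1 + β) = ∑ k ∈ q.divisors, (moebius k : ℝ) *
        ∑ n ∈ (Ioc ⌊A⌋₊ ⌊B⌋₊).filter (fun n => L * k ∣ n), (n : ℝ) ^ (-1 + β) := by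
    rw [Finset.filter_comm, Finset.sum_filter]
    have : ∀ n : ℕ, (if n.Coprime q then (n : ℝ) ^ (-1 + β) else 0) =
        ∑ k ∈ q.divisors, if k ∣ n then (moebius k : ℝ) * (n : ℝ) ^ (-1 + β) else 0 := by
      intro n
      have h := ind_cop n q hq
      have h2 : (if n.Coprime q then (n : ℝ) ^ (-1 + β) else 0) =
          (if n.Coprime q then (1 : ℝ) else 0) * (n : ℝ) ^ (-1 + β) := by
        split_ifs <;> simp
      rw [h2, h, Finset.sum_mul]
      refine Finset.sum_congr rfl fun k _ => ?_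
      split_ifs <;> simp
    simp only [this]
    rw [Finset.sum_comm]
    refine Finset.sum_congr rfl fun k hk => ?_
    rw [← Finset.sum_filter, Finset.filter_filter, Finset.mul_sum]
    refine Finset.sum_congr ?_ fun _ _ => rfl
    refine Finset.filter_congr fun n _ => ?_
    have hck : L.Coprime k := Nat.Coprime.coprime_dvd_right (Nat.dvd_of_mem_divisors hk) hc
    constructor
    · rintro ⟨a, b⟩
      exact hck.mul_dvd_of_dvd_of_dvd a b
    · intro h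
      exact ⟨(dvd_mul_right _ _).trans h, (dvd_mul_left _ _).trans h⟩
  have e2 : (q.totient : ℝ) / q * ((B ^ β - A ^ β) / β) / L = ∑ k ∈ q.divisors,
      (moebius k : ℝ) * ((B ^ β - A ^ β) / β / (L * k : ℕ)) := by
    rw [← mu_div q hq, Finset.sum_mul, Finset.sum_div]
    refine Finset.sum_congr rfl fun k _ => ?_
    push_cast
    ring
  rw [e1, e2, ← Finset.sum_sub_distrib]
  refine (Finset.abs_sum_le_sum_abs _ _).trans ?_
  rw [← nsmul_eq_mul, ← Finset.sum_const]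
  refine Finset.sum_le_sum fun k hk => ?_
  rw [← mul_sub, abs_mul]
  have hk0 := Nat.pos_of_mem_divisors hk
  have h := mult_sum (L * k) (Nat.mul_pos hL hk0) hA hAB h0 h1
  have hm : |(moebius k : ℝ)| ≤ 1 := by exact_mod_cast abs_moebius_le_one
  calc _ ≤ 1 * A ^ (-1 + β) := mul_le_mul hm h (abs_nonneg _) zero_le_one
    _ = _ := one_mul _

lemma expand {R : Type} [CommRing R] (θ : ℕ → R) (W : ℕ) (hθ : ∀ d, W < d → θ d = 0)
    (S : Finset ℕ) (hS : ∀ n ∈ S, n ≠ 0) (g : ℕ → R) :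
    ∑ n ∈ S, (∑ d ∈ n.divisors, θ d) ^ 2 * g n =
      ∑ d ∈ Icc 1 W, ∑ e ∈ Icc 1 W, θ d * θ e * ∑ n ∈ S.filter (fun n => d.lcm e ∣ n), g n := by
  have h1 : ∀ n ∈ S, ∑ d ∈ n.divisors, θ d = ∑ d ∈ Icc 1 W, if d ∣ n then θ d else 0 := by
    intro n hn
    rw [← Finset.sum_filter]
    symm
    refine Finset.sum_subset ?_ ?_
    · intro d hd
      simp only [mem_filter] at hd
      exact Nat.mem_divisors.mpr ⟨hd.2, hS n hn⟩
    · intro d hd hd'
      apply hθ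
      by_contra hlt
      apply hd'
      simp only [mem_filter, mem_Icc]
      exact ⟨⟨Nat.pos_of_mem_divisors hd, by omega⟩, Nat.dvd_of_mem_divisors hd⟩
  have h2 : ∀ n ∈ S, (∑ d ∈ n.divisors, θ d) ^ 2 * g n =
      ∑ d ∈ Icc 1 W, ∑ e ∈ Icc 1 W, if d.lcm e ∣ n then θ d * θ e * g n else 0 := by
    intro n hn
    rw [h1 n hn, sq, Finset.sum_mul_sum, Finset.sum_mul]
    refine Finset.sum_congr rfl fun d _ => ?_
    rw [Finset.sum_mul]
    refine Finset.sum_congr rfl fun e _ => ?_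
    by_cases hd : d ∣ n <;> by_cases he : e ∣ n <;> simp [hd, he, Nat.lcm_dvd_iff]
  rw [Finset.sum_congr rfl h2, Finset.sum_comm]
  refine Finset.sum_congr rfl fun d _ => ?_
  rw [Finset.sum_comm]
  refine Finset.sum_congr rfl fun e _ => ?_
  rw [← Finset.sum_filter, Finset.mul_sum]

lemma harm (W : ℕ) : ∑ n ∈ Icc 1 W, (1 : ℝ) / n ≤ 1 + Real.log W := by
  have h := harmonic_le_one_add_log W
  rw [harmonic_eq_sum_Icc] at h
  push_cast at h
  simpa [one_div] using h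

lemma lcm_sum (W : ℕ) :
    ∑ d ∈ Icc 1 W, ∑ e ∈ Icc 1 W, (1 : ℝ) / (d.lcm e : ℕ) ≤ (1 + Real.log W) ^ 3 := by
  set ψ : ℕ × ℕ → ℕ × ℕ × ℕ := fun p => (p.1.gcd p.2, p.1 / p.1.gcd p.2, p.2 / p.1.gcd p.2)
    with hψ
  set F : ℕ × ℕ × ℕ → ℝ := fun t => 1 / t.1 * (1 / t.2.1 * (1 / t.2.2)) with hF
  have hinj : Set.InjOn ψ ↑(Icc 1 W ×ˢ Icc 1 W) := by
    intro p _ p' _ h
    simp only [hψ, Prod.mk.injEq] at h
    obtain ⟨a, b, c⟩ := h
    have e1 : p.1 = p'.1 := by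
      rw [← Nat.mul_div_cancel' (Nat.gcd_dvd_left p.1 p.2), b, a,
        Nat.mul_div_cancel' (Nat.gcd_dvd_left _ _)]
    have e2 : p.2 = p'.2 := by
      rw [← Nat.mul_div_cancel' (Nat.gcd_dvd_right p.1 p.2), c, a,
        Nat.mul_div_cancel' (Nat.gcd_dvd_right _ _)]
    exact Prod.ext e1 e2
  have hH : 0 ≤ ∑ n ∈ Icc 1 W, (1 : ℝ) / n := Finset.sum_nonneg fun _ _ => by positivity
  calc ∑ d ∈ Icc 1 W, ∑ e ∈ Icc 1 W, (1 : ℝ) / (d.lcm e : ℕ)
      = ∑ p ∈ Icc 1 W ×ˢ Icc 1 W, F (ψ p) := by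
        rw [Finset.sum_product]
        refine Finset.sum_congr rfl fun d hd => Finset.sum_congr rfl fun e he => ?_
        simp only [mem_Icc] at hd he
        have hg : 0 < d.gcd e := Nat.gcd_pos_of_pos_left _ (by omega)
        have hg' : ((d.gcd e : ℕ) : ℝ) ≠ 0 := by exact_mod_cast hg.ne'
        have hd' : (d : ℝ) ≠ 0 := by exact_mod_cast (by omega : d ≠ 0)
        have he' : (e : ℝ) ≠ 0 := by exact_mod_cast (by omega : e ≠ 0)
        have hl : ((d.lcm e : ℕ) : ℝ) ≠ 0 := by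
          exact_mod_cast (Nat.lcm_pos (by omega) (by omega)).ne'
        have hm : ((d.gcd e : ℕ) : ℝ) * (d.lcm e : ℕ) = d * e := by
          exact_mod_cast Nat.gcd_mul_lcm d e
        simp only [hF, hψ]
        rw [Nat.cast_div (Nat.gcd_dvd_left _ _) hg', Nat.cast_div (Nat.gcd_dvd_right _ _) hg']
        field_simp
        linarith
    _ = ∑ t ∈ (Icc 1 W ×ˢ Icc 1 W).image ψ, F t := (Finset.sum_image hinj).symm
    _ ≤ ∑ t ∈ Icc 1 W ×ˢ (Icc 1 W ×ˢ Icc 1 W), F t := by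
        refine Finset.sum_le_sum_of_subset_of_nonneg ?_ fun t _ _ => by simp only [hF]; positivity
        intro t ht
        simp only [mem_image, mem_product, mem_Icc] at ht ⊢
        obtain ⟨p, ⟨⟨a1, a2⟩, b1, b2⟩, rfl⟩ := ht
        have hg : 0 < p.1.gcd p.2 := Nat.gcd_pos_of_pos_left _ (by omega)
        simp only [hψ]
        refine ⟨⟨hg, (Nat.gcd_le_left _ (by omega)).trans a2⟩, ⟨?_, (Nat.div_le_self _ _).trans a2⟩,
          ?_, (Nat.div_le_self _ _).trans b2⟩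
        · exact Nat.div_pos (Nat.gcd_le_left _ (by omega)) hg
        · exact Nat.div_pos (Nat.gcd_le_right _ (by omega)) hg
    _ = (∑ n ∈ Icc 1 W, (1 : ℝ) / n) ^ 3 := by
        rw [Finset.sum_product]
        simp only [hF, Finset.sum_product, ← Finset.mul_sum, ← Finset.sum_mul]
        ring
    _ ≤ _ := pow_le_pow_left₀ hH (harm W) 3

lemma big (K η : ℝ) (hη : 0 < η) : ∃ q₀ : ℕ, ∀ q : ℕ, q₀ ≤ q → K ≤ (q : ℝ) ^ η := by
  have h := (tendsto_rpow_atTop hη).comp (tendsto_natCast_atTop_atTop (R := ℝ))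
  obtain ⟨q₀, hq⟩ := Filter.eventually_atTop.mp (h.eventually_ge_atTop K)
  exact ⟨q₀, fun q hq' => hq q hq'⟩

end Gram

end Pool.Agent.MP_c5bf7b_nt.H38
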