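import Pool.Agent.MP_c5bf7b_nt.H38.SpecA

/-! Row KF, part 1: the kernel, its transform and bounds for the transform. -/

set_option autoImplicit false

namespace Pool.Agent.MP_c5bf7b_nt.H38.Kf

open Complex MeasureTheory Set

/-- the kernel -/
noncomputable def kk (f : ℝ → ℝ) (x lam u : ℝ) : ℂ :=
  ((f (min (max u 0) x) * Real.exp (lam * max u 0) - f 0 * Real.exp (-max u 0) : ℝ) : ℂ)

lemma kk_cont {f : ℝ → ℝ} (hf : Continuous f) (x lam : ℝ) : Continuous (kk f x lam) := by
  unfold kk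
  fun_prop

lemma kk_neg (f : ℝ → ℝ) {x : ℝ} (hx : 0 < x) (lam u : ℝ) (hu : u ≤ 0) : kk f x lam u = 0 := by
  simp [kk, max_eq_right hu, min_eq_left hx.le]

lemma kk_pos (f : ℝ → ℝ) (x lam : ℝ) {u : ℝ} (hu : 0 ≤ u) :
    kk f x lam u = (f (min u x) : ℂ) * exp (lam * u) - f 0 * exp (-u) := by
  simp [kk, max_eq_left hu]

lemma kk_bound {f : ℝ → ℝ} {x M lam : ℝ} (hx : 0 < x) (hx5 : x ≤ 5) (hfx : f x = 0)
    (hM : ∀ t, 0 ≤ t → t ≤ x → |f t| ≤ M) (hl : 0 ≤ lam) {u : ℝ} (hu : 0 ≤ u) :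
    ‖kk f x lam u‖ ≤ 2 * M * Real.exp (5 * (1 + lam)) * Real.exp (-u) := by
  have hM0 : 0 ≤ M := (abs_nonneg _).trans (hM 0 le_rfl hx.le)
  have hE : 1 ≤ Real.exp (5 * (1 + lam)) := Real.one_le_exp (by positivity)
  have he : 0 < Real.exp (-u) := Real.exp_pos _
  have h2 : |f 0 * Real.exp (-u)| ≤ M * Real.exp (5 * (1 + lam)) * Real.exp (-u) := by
    rw [abs_mul, abs_of_pos he]
    have := hM 0 le_rfl hx.le
    gcongr
    nlinarith
  have h1 : |f (min u x) * Real.exp (lam * u)| ≤ M * Real.exp (5 * (1 + lam)) * Real.exp (-u) := by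
    rcases le_total u x with h | h
    · rw [min_eq_left h, abs_mul, abs_of_pos (Real.exp_pos _), mul_assoc, ← Real.exp_add]
      refine mul_le_mul (hM u hu h) (Real.exp_le_exp.2 ?_) (Real.exp_pos _).le hM0
      nlinarith
    · rw [min_eq_right h, hfx, zero_mul, abs_zero]
      positivity
  rw [kk, Complex.norm_real, Real.norm_eq_abs, max_eq_left hu]
  have := abs_sub (f (min u x) * Real.exp (lam * u)) (f 0 * Real.exp (-u))
  linarith

lemma lh_kk {f : ℝ → ℝ} (hf : Continuous f) {x : ℝ} (hx : 0 < x) (hfx : f x = 0) (lam : ℝ)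
    {z : ℂ} (hz : -1 < z.re) : Lh (kk f x lam) z = Lp f x (z - lam) - f 0 / (z + 1) := by
  have hre : (-(z + 1)).re < 0 := by
    simp only [neg_re, add_re, one_re]
    linarith
  have hc : Continuous fun t : ℝ => (f t : ℂ) * exp (-(z - lam) * t) := by fun_prop
  have h1 : IntegrableOn ((Ioc (0 : ℝ) x).indicator fun t : ℝ => (f t : ℂ) * exp (-(z - lam) * t))
      (Ioi 0) :=
    (((hc.integrableOn_Icc (a := 0) (b := x)).mono_set Ioc_subset_Icc_self).integrable_indicator
      measurableSet_Ioc).integrableOn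
  have h2 : IntegrableOn (fun t : ℝ => (f 0 : ℂ) * exp (-(z + 1) * t)) (Ioi 0) :=
    (integrableOn_exp_mul_complex_Ioi hre 0).const_mul _
  have h3 : Lh (kk f x lam) z = ∫ t in Ioi (0 : ℝ),
      ((Ioc (0 : ℝ) x).indicator (fun t : ℝ => (f t : ℂ) * exp (-(z - lam) * t)) t -
        (f 0 : ℂ) * exp (-(z + 1) * t)) := by
    refine setIntegral_congr_fun measurableSet_Ioi fun t ht => ?_
    have ht0 : (0 : ℝ) < t := ht
    rw [kk_pos f x lam ht0.le, sub_mul, mul_assoc, mul_assoc, ← exp_add, ← exp_add]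
    congr 1
    · rcases le_or_gt t x with h | h
      · rw [indicator_of_mem (show t ∈ Ioc (0 : ℝ) x from ⟨ht0, h⟩), min_eq_left h]
        congr 2
        ring
      · rw [indicator_of_notMem (fun h' => absurd h'.2 (not_le.2 h)), min_eq_right h.le, hfx]
        simp
    · congr 2
      ring
  rw [h3, integral_sub h1 h2, integral_const_mul, integral_exp_mul_complex_Ioi hre,
    setIntegral_indicator measurableSet_Ioc, inter_eq_right.2 Ioc_subset_Ioi_self, Lp,
    intervalIntegral.integral_of_le hx.le]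
  simp only [ofReal_zero, mul_zero, exp_zero, neg_div_neg_eq, mul_one_div]

/-- the two bounds on the transform -/
def FB (f : ℝ → ℝ) (x C : ℝ) : Prop :=
  ∀ z : ℂ, ‖Lp f x z‖ ≤ C * Real.exp (x * max 0 (-z.re)) ∧
    (z ≠ 0 → ‖Lp f x z - f 0 / z‖ ≤ C * Real.exp (x * max 0 (-z.re)) / ‖z‖ ^ 2)

lemma kap_split (F z : ℂ) (c L : ℝ) (hz : z ≠ 0) (hz' : z + L ≠ 0) :
    F - c / (z + L) = (F - c / z) + c * L / (z * (z + L)) := by
  field_simp
  ring

/-- the bound in the strip -/
lemma kap_strip {f : ℝ → ℝ} {x C lam : ℝ} (hx5 : x ≤ 5) (hC : 0 ≤ C) (hF : FB f x C)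
    (h0 : 0 ≤ f 0) (hl : 0 ≤ lam) {z : ℂ} (h1 : -1 / 2 ≤ z.re) :
    ‖Lp f x (z - lam) - f 0 / (z + 1)‖ ≤
      (2 * C + 4 * f 0) * Real.exp (5 * (1 + lam)) / (1 + z.im ^ 2) := by
  set E := Real.exp (5 * (1 + lam)) with hE
  have hE1 : 1 + lam ≤ E := by
    have := Real.add_one_le_exp (5 * (1 + lam))
    linarith
  have hE2 : Real.exp (x * max 0 (-(z - lam).re)) ≤ E := by
    refine Real.exp_le_exp.2 ?_
    have : max 0 (-(z - lam).re) ≤ 1 + lam := by
      refine max_le (by linarith) ?_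
      simp only [sub_re, ofReal_re]
      linarith
    exact mul_le_mul hx5 this (le_max_left _ _) (by norm_num)
  have h2 : 1 / 2 ≤ ‖z + 1‖ := by
    have := re_le_norm (z + 1)
    simp only [add_re, one_re] at this
    linarith
  obtain ⟨h3, h4⟩ := hF (z - lam)
  rw [le_div_iff₀ (by positivity)]
  rcases le_total (z.im ^ 2) 1 with h | h
  · have h5 : ‖(f 0 : ℂ) / (z + 1)‖ ≤ 2 * f 0 := by
      rw [norm_div, Complex.norm_real, Real.norm_of_nonneg h0, div_le_iff₀ (by linarith)]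
      nlinarith
    have h6 := norm_sub_le (Lp f x (z - lam)) (f 0 / (z + 1))
    have h7 : ‖Lp f x (z - lam) - f 0 / (z + 1)‖ ≤ C * E + 2 * f 0 * E := by
      have : C * Real.exp (x * max 0 (-(z - lam).re)) ≤ C * E := by gcongr
      nlinarith
    have h8 : 0 ≤ C * E + 2 * f 0 * E := (norm_nonneg _).trans h7
    calc _ ≤ (C * E + 2 * f 0 * E) * 2 := by
          gcongr
          linarith
      _ = _ := by ring
  · have ha : z.im ^ 2 ≤ ‖z - lam‖ ^ 2 := by
      have := abs_im_le_norm (z - lam)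
      simp only [sub_im, ofReal_im, sub_zero] at this
      rw [← sq_abs]
      gcongr
    have hb : z.im ^ 2 ≤ ‖z - lam‖ * ‖z + 1‖ := by
      have h5 := abs_im_le_norm (z - lam)
      have h6 := abs_im_le_norm (z + 1)
      simp only [sub_im, ofReal_im, sub_zero, add_im, one_im, add_zero] at h5 h6
      rw [← sq_abs, sq]
      gcongr
    have hz : z - lam ≠ 0 := by
      intro h'
      rw [h', norm_zero] at ha
      linarith
    have he : z + 1 = z - lam + ((1 + lam : ℝ) : ℂ) := by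
      push_cast
      ring
    have hz' : z - lam + ((1 + lam : ℝ) : ℂ) ≠ 0 := by
      rw [← he, ← norm_pos_iff]
      linarith
    have h5 : ‖Lp f x (z - lam) - f 0 / (z + 1)‖ ≤ C * E / z.im ^ 2 + f 0 * E / z.im ^ 2 := by
      rw [he, kap_split _ _ _ _ hz hz', ← he]
      refine (norm_add_le _ _).trans (add_le_add ((h4 hz).trans ?_) ?_)
      · gcongr
      · rw [norm_div, norm_mul, norm_mul, Complex.norm_real, Complex.norm_real,
          Real.norm_of_nonneg h0, Real.norm_of_nonneg (by linarith)]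
        have : 0 ≤ f 0 * E := mul_nonneg h0 (by linarith)
        gcongr
    rw [← add_div, le_div_iff₀ (by linarith)] at h5
    have h6 := norm_nonneg (Lp f x (z - lam) - f 0 / (z + 1))
    have h7 : 0 ≤ f 0 * E := mul_nonneg h0 (by linarith)
    nlinarith

/-- the bound at the far zeros -/
lemma kap_far {f : ℝ → ℝ} {x C lam T : ℝ} (hx5 : x ≤ 5) (hC : 0 ≤ C) (hF : FB f x C)
    (h0 : 0 ≤ f 0) (hl : 0 ≤ lam) {z : ℂ} (hT : 1 ≤ T)
    (h1 : lam ≤ z.re + 10 + Real.log T / 10) (h2 : 2 * (1 + lam) ≤ ‖z + 1‖) :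
    ‖Lp f x (z - lam) - f 0 / (z + 1)‖ ≤
      (4 * C * Real.exp 50 + 2 * f 0 * (1 + lam)) * √T / ‖z + 1‖ ^ 2 := by
  have he : z + 1 = z - lam + ((1 + lam : ℝ) : ℂ) := by
    push_cast
    ring
  have hp : 0 < ‖z + 1‖ := by linarith
  have h3 : ‖z + 1‖ / 2 ≤ ‖z - lam‖ := by
    have := norm_add_le (z - lam) ((1 + lam : ℝ) : ℂ)
    rw [← he, Complex.norm_real, Real.norm_of_nonneg (by linarith)] at this
    linarith
  have hz : z - lam ≠ 0 := by
    rw [← norm_pos_iff]
    linarith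
  have hz' : z - lam + ((1 + lam : ℝ) : ℂ) ≠ 0 := by
    rw [← he, ← norm_pos_iff]
    exact hp
  have hT1 : 1 ≤ √T := Real.one_le_sqrt.2 hT
  have hlog : 0 ≤ Real.log T := Real.log_nonneg hT
  have hE : Real.exp (x * max 0 (-(z - lam).re)) ≤ Real.exp 50 * √T := by
    have h4 : max 0 (-(z - lam).re) ≤ 10 + Real.log T / 10 := by
      refine max_le (by linarith) ?_
      simp only [sub_re, ofReal_re]
      linarith
    have h5 : x * max 0 (-(z - lam).re) ≤ 5 * (10 + Real.log T / 10) :=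
      mul_le_mul hx5 h4 (le_max_left _ _) (by norm_num)
    have h6 : √T = Real.exp (Real.log T / 2) := by
      rw [← Real.log_sqrt (by linarith), Real.exp_log (by linarith)]
    rw [h6, ← Real.exp_add]
    exact Real.exp_le_exp.2 (by linarith)
  have h5 : ‖Lp f x (z - lam) - f 0 / (z + 1)‖ ≤ C * (Real.exp 50 * √T) / (‖z + 1‖ / 2) ^ 2 +
      f 0 * (1 + lam) * √T / (‖z + 1‖ / 2 * ‖z + 1‖) := by
    conv_lhs => rw [he, kap_split _ _ _ _ hz hz', ← he]
    refine (norm_add_le _ _).trans (add_le_add (((hF _).2 hz).trans ?_) ?_)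
    · gcongr
    · rw [norm_div, norm_mul, norm_mul, Complex.norm_real, Complex.norm_real,
        Real.norm_of_nonneg h0, Real.norm_of_nonneg (by linarith)]
      have h6 : 0 ≤ f 0 * (1 + lam) := mul_nonneg h0 (by linarith)
      have h7 : f 0 * (1 + lam) ≤ f 0 * (1 + lam) * √T := le_mul_of_one_le_right h6 hT1
      gcongr
  refine h5.trans (le_of_eq ?_)
  field_simp
  ring

/-- the majorant on the line -/
noncomputable def ph (t : ℝ) : ℝ := 1 / (√|t| * (1 + |t|))

lemma ph_nonneg (t : ℝ) : 0 ≤ ph t := by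
  unfold ph
  positivity

lemma ph_int : Integrable ph := by
  have hm : Measurable ph := by
    unfold ph
    fun_prop
  have h1 : IntegrableOn ph (Ioc 0 1) := by
    have h : IntegrableOn (fun t : ℝ => t ^ (-1 / 2 : ℝ)) (Ioc 0 1) :=
      (intervalIntegral.intervalIntegrable_rpow' (r := -1 / 2) (by norm_num) (a := 0) (b := 1)).1
    refine Integrable.mono' h hm.aestronglyMeasurable ?_
    refine (ae_restrict_iff' measurableSet_Ioc).2 (Filter.Eventually.of_forall fun t ht => ?_)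
    have ht0 : 0 < t := ht.1
    rw [Real.norm_of_nonneg (ph_nonneg t), ph, abs_of_pos ht0, neg_div, Real.rpow_neg ht0.le,
      ← Real.sqrt_eq_rpow, ← one_div]
    have := Real.sqrt_pos.2 ht0
    refine one_div_le_one_div_of_le this ?_
    nlinarith
  have h2 : IntegrableOn ph (Ioi 1) := by
    have h : IntegrableOn (fun t : ℝ => t ^ (-(1 / 2 + 1) : ℝ)) (Ioi 1) :=
      integrableOn_Ioi_rpow_of_lt (by norm_num) one_pos
    refine Integrable.mono' h hm.aestronglyMeasurable ?_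
    refine (ae_restrict_iff' measurableSet_Ioi).2 (Filter.Eventually.of_forall fun t ht => ?_)
    have ht0 : 0 < t := one_pos.trans ht
    rw [Real.norm_of_nonneg (ph_nonneg t), ph, abs_of_pos ht0, Real.rpow_neg ht0.le,
      Real.rpow_add ht0, Real.rpow_one, ← Real.sqrt_eq_rpow, ← one_div]
    have := Real.sqrt_pos.2 ht0
    refine one_div_le_one_div_of_le (by positivity) ?_
    nlinarith
  have h3 : IntegrableOn ph (Ioi 0) := by
    rw [← Ioc_union_Ioi_eq_Ioi (zero_le_one' ℝ)]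
    exact h1.union h2
  have h4 : IntegrableOn ph (Iic 0) := by
    rw [← Measure.map_neg_eq_self (volume : Measure ℝ)]
    let m : MeasurableEmbedding fun x : ℝ => -x := (Homeomorph.neg ℝ).measurableEmbedding
    rw [m.integrableOn_map_iff]
    have : (ph ∘ fun x : ℝ => -x) = ph := by
      funext t
      simp [ph]
    rw [this]
    simp_rw [neg_preimage, neg_Iic, neg_zero]
    exact Iff.mpr integrableOn_Ici_iff_integrableOn_Ioi h3
  rw [← integrableOn_univ, ← Iic_union_Ioi (a := (0 : ℝ))]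
  exact h4.union h3

lemma kap_line {f : ℝ → ℝ} {x C lam : ℝ} (hx5 : x ≤ 5) (hC : 0 ≤ C) (hF : FB f x C)
    (h0 : 0 ≤ f 0) (hl : 0 ≤ lam) (y : ℝ) :
    ‖Lp f x (lam + y * I - lam) - f 0 / (lam + y * I + 1)‖ * √|y| ≤
      2 * ((2 * C + 4 * f 0) * Real.exp 5) * ph y +
        2 * f 0 / √(1 + lam) * ph (y / (1 + lam)) := by
  set A := (2 * C + 4 * f 0) * Real.exp 5 with hA
  have hA0 : 0 ≤ A := by positivity
  rcases eq_or_ne y 0 with rfl | hy
  · simp [ph]
  have hy0 : 0 < |y| := abs_pos.2 hy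
  have hs : 0 < √|y| := Real.sqrt_pos.2 hy0
  have hss : √|y| * √|y| = |y| := Real.mul_self_sqrt hy0.le
  have hL : 0 < 1 + lam := by linarith
  have hsL : 0 < √(1 + lam) := Real.sqrt_pos.2 hL
  have h1 := kap_strip hx5 hC hF h0 le_rfl (z := y * I) (by norm_num)
  simp only [ofReal_zero, sub_zero, add_zero, mul_one, mul_im, ofReal_re, I_im, ofReal_im, I_re,
    mul_zero] at h1
  rw [← hA] at h1
  have ha : |y| ≤ ‖(y : ℂ) * I + 1‖ := by simpa using abs_im_le_norm (y * I + 1)
  have hb : |y| ≤ ‖(lam : ℂ) + y * I + 1‖ := by simpa using abs_im_le_norm (lam + y * I + 1)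
  have hc : 1 + lam ≤ ‖(lam : ℂ) + y * I + 1‖ := by
    have := re_le_norm (lam + y * I + 1)
    simp only [add_re, ofReal_re, mul_re, I_re, mul_zero, ofReal_im, I_im, mul_one, sub_self,
      add_zero, one_re] at this
    linarith
  have hz1 : (y : ℂ) * I + 1 ≠ 0 := by
    rw [← norm_pos_iff]
    linarith
  have hz2 : (lam : ℂ) + y * I + 1 ≠ 0 := by
    rw [← norm_pos_iff]
    linarith
  have he : Lp f x (lam + y * I - lam) - f 0 / (lam + y * I + 1) =
      (Lp f x (y * I) - f 0 / (y * I + 1)) + f 0 * lam / ((y * I + 1) * (lam + y * I + 1)) := by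
    rw [add_sub_cancel_left]
    field_simp
    ring
  have h2 : ‖(f 0 : ℂ) * lam / ((y * I + 1) * (lam + y * I + 1))‖ ≤
      f 0 * (1 + lam) / (|y| * ((1 + lam + |y|) / 2)) := by
    rw [norm_div, norm_mul, norm_mul, Complex.norm_real, Complex.norm_real,
      Real.norm_of_nonneg h0, Real.norm_of_nonneg hl]
    gcongr
    · linarith
    · linarith
  have h3 : A / (1 + y ^ 2) * √|y| ≤ 2 * A * ph y := by
    rw [ph, mul_one_div, div_mul_eq_mul_div, div_le_div_iff₀ (by positivity) (by positivity)]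
    have h4 : A * √|y| * (√|y| * (1 + |y|)) = A * (|y| * (1 + |y|)) := by
      rw [← mul_assoc, mul_assoc A, hss, mul_assoc]
    rw [h4, mul_comm 2 A, mul_assoc A]
    refine mul_le_mul_of_nonneg_left ?_ hA0
    rw [← sq_abs y]
    nlinarith [sq_nonneg (|y| - 1)]
  have h4 : f 0 * (1 + lam) / (|y| * ((1 + lam + |y|) / 2)) * √|y| =
      2 * f 0 / √(1 + lam) * ph (y / (1 + lam)) := by
    rw [ph, abs_div, abs_of_pos hL, Real.sqrt_div hy0.le]
    generalize √|y| = s at hs hss ⊢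
    rw [← hss]
    field_simp
  rw [he, ← h4]
  calc _ ≤ (A / (1 + y ^ 2) + f 0 * (1 + lam) / (|y| * ((1 + lam + |y|) / 2))) * √|y| := by
        gcongr
        exact (norm_add_le _ _).trans (add_le_add h1 h2)
    _ ≤ _ := by
        rw [add_mul]
        linarith

lemma kap_int {f : ℝ → ℝ} {x C lam : ℝ} (hx5 : x ≤ 5) (hC : 0 ≤ C) (hF : FB f x C)
    (h0 : 0 ≤ f 0) (hl : 0 ≤ lam) :
    ∫ y : ℝ, ‖Lp f x (lam + y * I - lam) - f 0 / (lam + y * I + 1)‖ * √|y| ≤
      (2 * ((2 * C + 4 * f 0) * Real.exp 5) + 2 * f 0) * (∫ y, ph y) * √(1 + lam) := by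
  have hL : 0 < 1 + lam := by linarith
  have hsL : 1 ≤ √(1 + lam) := Real.one_le_sqrt.2 (by linarith)
  have h1 : Integrable fun y => 2 * ((2 * C + 4 * f 0) * Real.exp 5) * ph y := ph_int.const_mul _
  have h2 : Integrable fun y => 2 * f 0 / √(1 + lam) * ph (y / (1 + lam)) :=
    (ph_int.comp_div hL.ne').const_mul _
  have hI : 0 ≤ ∫ y, ph y := integral_nonneg ph_nonneg
  refine (integral_mono_of_nonneg (Filter.Eventually.of_forall fun y => by positivity) (h1.add h2)
    (Filter.Eventually.of_forall (kap_line hx5 hC hF h0 hl))).trans ?_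
  simp only [Pi.add_apply]
  rw [integral_add h1 h2, integral_const_mul, integral_const_mul, Measure.integral_comp_div,
    abs_of_pos hL, smul_eq_mul]
  have h3 : 2 * f 0 / √(1 + lam) * ((1 + lam) * ∫ y, ph y) = 2 * f 0 * (∫ y, ph y) * √(1 + lam) := by
    have hss : √(1 + lam) * √(1 + lam) = 1 + lam := Real.mul_self_sqrt hL.le
    generalize √(1 + lam) = s at hsL hss ⊢
    rw [← hss]
    field_simp
  rw [h3]
  have h4 : 0 ≤ 2 * ((2 * C + 4 * f 0) * Real.exp 5) * ∫ y, ph y := by positivity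
  nlinarith

end Pool.Agent.MP_c5bf7b_nt.H38.Kf
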