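import Pool.Agent.MP_c5bf7b_nt.H38.SpecA

/-! General facts on the truncated Laplace transforms. -/

set_option autoImplicit false

namespace Pool.Agent.MP_c5bf7b_nt.H38

open Complex MeasureTheory

namespace LpR

theorem cont_c {g : ℝ → ℝ} (hg : Continuous g) (z : ℂ) :
    Continuous fun t : ℝ => (g t : ℂ) * exp (-z * t) := by fun_prop

theorem cont_r {g : ℝ → ℝ} (hg : Continuous g) (a : ℝ) :
    Continuous fun t : ℝ => g t * Real.exp (-a * t) := by fun_prop

theorem norm_exp_le (z : ℂ) {x t : ℝ} (h0 : 0 ≤ t) (h1 : t ≤ x) :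
    ‖exp (-z * t)‖ ≤ Real.exp (x * max 0 (-z.re)) := by
  rw [norm_exp]
  refine Real.exp_le_exp.2 ?_
  have e : (-z * t).re = t * -z.re := by simp [mul_comm]
  rw [e]
  exact (mul_le_mul_of_nonneg_left (le_max_right 0 _) h0).trans
    (mul_le_mul_of_nonneg_right h1 (le_max_left _ _))

theorem norm_le {g : ℝ → ℝ} {x M : ℝ} (hx : 0 ≤ x) (hM : ∀ t ∈ Set.Icc 0 x, |g t| ≤ M) (z : ℂ) :
    ‖Lp g x z‖ ≤ M * x * Real.exp (x * max 0 (-z.re)) := by
  have h := intervalIntegral.norm_integral_le_of_norm_le_const (a := 0) (b := x)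
    (C := M * Real.exp (x * max 0 (-z.re))) (f := fun t : ℝ => (g t : ℂ) * exp (-z * t)) (by
      intro t ht
      rw [Set.uIoc_of_le hx] at ht
      rw [norm_mul, norm_real, Real.norm_eq_abs]
      exact mul_le_mul (hM t ⟨ht.1.le, ht.2⟩) (norm_exp_le z ht.1.le ht.2) (norm_nonneg _)
        ((abs_nonneg _).trans (hM t ⟨ht.1.le, ht.2⟩)))
  rw [sub_zero, abs_of_nonneg hx] at h
  unfold Lp
  linarith

theorem parts {g : ℝ → ℝ} (hg : Differentiable ℝ g) (hg' : Continuous (deriv g)) (x : ℝ) (z : ℂ) :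
    z * Lp g x z = g 0 - g x * exp (-z * x) + Lp (deriv g) x z := by
  have hd : ∀ t ∈ Set.uIcc (0 : ℝ) x, HasDerivAt (fun t : ℝ => (g t : ℂ) * exp (-z * t))
      (((deriv g t : ℝ) : ℂ) * exp (-z * t) - z * ((g t : ℂ) * exp (-z * t))) t := by
    intro t _
    have h1 : HasDerivAt (fun t : ℝ => (g t : ℂ)) ((deriv g t : ℝ) : ℂ) t :=
      (hg t).hasDerivAt.ofReal_comp
    have h2 : HasDerivAt (fun t : ℝ => -z * (t : ℂ)) (-z * 1) t :=
      (hasDerivAt_id t).ofReal_comp.const_mul (-z)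
    refine (h1.mul h2.cexp).congr_deriv ?_
    ring
  have i1 : IntervalIntegrable (fun t : ℝ => ((deriv g t : ℝ) : ℂ) * exp (-z * t)) volume 0 x :=
    (cont_c hg' z).intervalIntegrable 0 x
  have i2 : IntervalIntegrable (fun t : ℝ => z * ((g t : ℂ) * exp (-z * t))) volume 0 x :=
    (continuous_const.mul (cont_c hg.continuous z)).intervalIntegrable 0 x
  have h := intervalIntegral.integral_eq_sub_of_hasDerivAt hd (i1.sub i2)
  rw [intervalIntegral.integral_sub i1 i2, intervalIntegral.integral_const_mul] at h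
  simp only [ofReal_zero, mul_zero, exp_zero, mul_one] at h
  unfold Lp
  linear_combination -h

theorem bound {f : ℝ → ℝ} {x : ℝ} (h : Adm f x) :
    ∃ C : ℝ, 1 ≤ C ∧ ∀ z : ℂ, ‖Lp f x z‖ ≤ C * Real.exp (x * max 0 (-z.re)) ∧
      (z ≠ 0 → ‖Lp f x z - f 0 / z‖ ≤ C * Real.exp (x * max 0 (-z.re)) / ‖z‖ ^ 2) := by
  have hx := h.pos.le
  have d2 : ContDiff ℝ (1 + 1) f := by
    have := h.diff
    rwa [← one_add_one_eq_two] at this
  have d1 : ContDiff ℝ 1 (deriv f) := (contDiff_succ_iff_deriv.1 d2).2.2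
  have f0 : Differentiable ℝ f := (contDiff_succ_iff_deriv.1 d2).1
  have f1 : Differentiable ℝ (deriv f) := (contDiff_one_iff_deriv.1 d1).1
  have f2 : Continuous (deriv (deriv f)) := (contDiff_one_iff_deriv.1 d1).2
  have hc : Continuous fun t => |f t| + |deriv f t| + |deriv (deriv f) t| :=
    (f0.continuous.abs.add f1.continuous.abs).add f2.abs
  obtain ⟨M, hM⟩ := (isCompact_Icc (a := (0 : ℝ)) (b := x)).exists_bound_of_continuousOn
    hc.continuousOn
  have hM' : ∀ t ∈ Set.Icc 0 x, |f t| ≤ M ∧ |deriv f t| ≤ M ∧ |deriv (deriv f) t| ≤ M := by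
    intro t ht
    have h1 := (le_abs_self _).trans (hM t ht)
    have a1 := abs_nonneg (f t)
    have a2 := abs_nonneg (deriv f t)
    have a3 := abs_nonneg (deriv (deriv f) t)
    exact ⟨by linarith, by linarith, by linarith⟩
  have M0 : 0 ≤ M := (abs_nonneg _).trans (hM' 0 ⟨le_rfl, hx⟩).1
  have Mx : 0 ≤ M * x := mul_nonneg M0 hx
  refine ⟨1 + 2 * M + M * x, by linarith, fun z => ?_⟩
  have E1 : 1 ≤ Real.exp (x * max 0 (-z.re)) :=
    Real.one_le_exp (mul_nonneg hx (le_max_left _ _))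
  refine ⟨(norm_le hx (fun t ht => (hM' t ht).1) z).trans
    (mul_le_mul_of_nonneg_right (by linarith) (by linarith)), fun hz => ?_⟩
  have p1 := parts f0 f1.continuous x z
  have p2 := parts f1 f2 x z
  rw [h.zero] at p1
  have e : Lp f x z - f 0 / z = (((deriv f 0 : ℝ) : ℂ) - ((deriv f x : ℝ) : ℂ) * exp (-z * x) +
      Lp (deriv (deriv f)) x z) / z ^ 2 := by
    rw [← p2]
    field_simp
    simp only [ofReal_zero, zero_mul, sub_zero] at p1
    linear_combination p1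
  rw [e, norm_div, norm_pow]
  refine div_le_div_of_nonneg_right ?_ (by positivity)
  have b1 : ‖((deriv f 0 : ℝ) : ℂ)‖ ≤ M := by
    rw [norm_real, Real.norm_eq_abs]; exact (hM' 0 ⟨le_rfl, hx⟩).2.1
  have b2 : ‖((deriv f x : ℝ) : ℂ) * exp (-z * x)‖ ≤ M * Real.exp (x * max 0 (-z.re)) := by
    rw [norm_mul, norm_real, Real.norm_eq_abs]
    exact mul_le_mul (hM' x ⟨hx, le_rfl⟩).2.1 (norm_exp_le z hx le_rfl) (norm_nonneg _) M0
  have b3 := norm_le hx (fun t ht => (hM' t ht).2.2) z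
  have b4 := norm_add_le (((deriv f 0 : ℝ) : ℂ) - ((deriv f x : ℝ) : ℂ) * exp (-z * x))
    (Lp (deriv (deriv f)) x z)
  have b5 := norm_sub_le ((deriv f 0 : ℝ) : ℂ) (((deriv f x : ℝ) : ℂ) * exp (-z * x))
  have b6 := mul_le_mul_of_nonneg_left E1 M0
  nlinarith

theorem lp_real (f : ℝ → ℝ) (x a : ℝ) : Lp f x a = Lr f x a := by
  unfold Lp Lr
  rw [← intervalIntegral.integral_ofReal]
  refine intervalIntegral.integral_congr fun t _ => ?_
  push_cast
  rfl

theorem lr_sub {f : ℝ → ℝ} (hf : Continuous f) (x a b : ℝ) :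
    Lr f x a - Lr f x b = ∫ t in (0 : ℝ)..x, (f t * Real.exp (-a * t) - f t * Real.exp (-b * t)) :=
  (intervalIntegral.integral_sub ((cont_r hf a).intervalIntegrable 0 x)
    ((cont_r hf b).intervalIntegrable 0 x)).symm

theorem diff_le {f : ℝ → ℝ} {x : ℝ} (h : Adm f x) (a b ν : ℝ) (hab : a ≤ b) :
    ‖Lp f x (a + ν * I) - Lp f x (b + ν * I)‖ ≤ Lr f x a - Lr f x b := by
  have hf := h.diff.continuous
  rw [lr_sub hf]
  unfold Lp
  rw [← intervalIntegral.integral_sub ((cont_c hf _).intervalIntegrable 0 x)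
    ((cont_c hf _).intervalIntegrable 0 x)]
  refine intervalIntegral.norm_integral_le_of_norm_le h.pos.le
    (Filter.Eventually.of_forall fun t ht => ?_)
    (((cont_r hf a).sub (cont_r hf b)).intervalIntegrable 0 x)
  have e : (f t : ℂ) * exp (-(a + ν * I) * t) - (f t : ℂ) * exp (-(b + ν * I) * t) =
      ((f t * Real.exp (-a * t) - f t * Real.exp (-b * t) : ℝ) : ℂ) *
        exp (((-(ν * t) : ℝ) : ℂ) * I) := by
    have e1 : ∀ c : ℝ, exp (-(c + ν * I) * t) =
        ((Real.exp (-c * t) : ℝ) : ℂ) * exp (((-(ν * t) : ℝ) : ℂ) * I) := by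
      intro c
      rw [ofReal_exp, ← exp_add]
      congr 1
      push_cast
      ring
    rw [e1 a, e1 b, ofReal_sub, ofReal_mul, ofReal_mul]
    ring
  rw [e, norm_mul, norm_exp_ofReal_mul_I, mul_one, norm_real, Real.norm_eq_abs, abs_of_nonneg]
  rw [← mul_sub]
  refine mul_nonneg (h.nonneg t ht.1.le ht.2) (sub_nonneg.2 (Real.exp_le_exp.2 ?_))
  exact mul_le_mul_of_nonneg_right (neg_le_neg hab) ht.1.le

theorem gap_le {f : ℝ → ℝ} {x : ℝ} (h : Adm f x) (a a' b b' : ℝ) (ha : a ≤ a') (hb : 0 ≤ b)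
    (hb' : b ≤ b') : Lr f x (-a) - Lr f x (b - a) ≤ Lr f x (-a') - Lr f x (b' - a') := by
  have hf := h.diff.continuous
  rw [lr_sub hf, lr_sub hf]
  refine intervalIntegral.integral_mono_on h.pos.le
    (((cont_r hf _).sub (cont_r hf _)).intervalIntegrable 0 x)
    (((cont_r hf _).sub (cont_r hf _)).intervalIntegrable 0 x) fun t ht => ?_
  have e : ∀ c d : ℝ, f t * Real.exp (- -c * t) - f t * Real.exp (-(d - c) * t) =
      f t * (Real.exp (c * t) * (1 - Real.exp (-d * t))) := by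
    intro c d
    have : Real.exp (-(d - c) * t) = Real.exp (c * t) * Real.exp (-d * t) := by
      rw [← Real.exp_add]; congr 1; ring
    rw [this, neg_neg]
    ring
  rw [e, e]
  refine mul_le_mul_of_nonneg_left ?_ (h.nonneg t ht.1 ht.2)
  have h1 : Real.exp (-b * t) ≤ 1 := Real.exp_le_one_iff.2 (by nlinarith [ht.1])
  have h2 : Real.exp (-b' * t) ≤ Real.exp (-b * t) :=
    Real.exp_le_exp.2 (mul_le_mul_of_nonneg_right (neg_le_neg hb') ht.1)
  exact mul_le_mul (Real.exp_le_exp.2 (mul_le_mul_of_nonneg_right ha ht.1)) (by linarith)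
    (by linarith) (Real.exp_pos _).le

end LpR

theorem lp : LpS := by
  intro f x h
  refine ⟨LpR.bound h, LpR.lp_real f x, fun a b hab => ?_, fun a => ?_, LpR.diff_le h,
    LpR.gap_le h⟩
  · exact sub_nonneg.1 ((norm_nonneg _).trans (LpR.diff_le h a b 0 hab))
  · exact intervalIntegral.integral_nonneg h.pos.le fun t ht =>
      mul_nonneg (h.nonneg t ht.1 ht.2) (Real.exp_pos _).le

end Pool.Agent.MP_c5bf7b_nt.H38
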