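import Pool.Agent.MP_c5bf7b_nt.H38.SpecC

/-! The sum over the zeros in the window, character by character. -/

set_option autoImplicit false

namespace Pool.Agent.MP_c5bf7b_nt.H38

open Finset Complex

namespace SumA

theorem norm_HH (e : ℝ) (ζ : ℂ) : ‖HH e ζ‖ = Real.exp (-e * ζ.re) * ‖H2 ζ‖ := by
  rw [HH, norm_mul, norm_exp]
  simp

theorem filt_le (Y : Multiset ℂ) (P : ℂ → Prop) [DecidablePred P] {e l : ℝ} (he : 0 ≤ e)
    (h : ∀ ζ ∈ Y, P ζ → l ≤ ζ.re) :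
    ((Y.filter P).map fun ζ => ‖HH e ζ‖).sum ≤
      Real.exp (-e * l) * (Y.map fun ζ => ‖H2 ζ‖).sum := by
  have h1 : ((Y.filter P).map fun ζ => ‖HH e ζ‖).sum ≤
      ((Y.filter P).map fun ζ => Real.exp (-e * l) * ‖H2 ζ‖).sum := by
    refine Multiset.sum_map_le_sum_map _ _ fun ζ hζ => ?_
    obtain ⟨a, b⟩ := Multiset.mem_filter.1 hζ
    rw [norm_HH]
    refine mul_le_mul_of_nonneg_right (Real.exp_le_exp.2 ?_) (norm_nonneg _)
    have := mul_le_mul_of_nonneg_left (h ζ a b) he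
    linarith
  rw [Multiset.sum_map_mul_left] at h1
  refine h1.trans (mul_le_mul_of_nonneg_left ?_ (Real.exp_pos _).le)
  conv_rhs => rw [← Multiset.filter_add_not P Y]
  rw [Multiset.map_add, Multiset.sum_add]
  refine le_add_of_nonneg_right (Multiset.sum_nonneg fun x hx => ?_)
  obtain ⟨ζ, -, rfl⟩ := Multiset.mem_map.1 hx
  exact norm_nonneg _

theorem pcw {q : ℕ} [NeZero q] {N : Ch q → Multiset ℂ} {Lm Th C M : ℝ} (hE : Env q N Lm Th C M)
    (χ : Ch q) {l : ℝ} (hl : 0 ≤ l) (h : ∀ ζ ∈ N χ, |ζ.im| ≤ Real.log q → l ≤ ζ.re) :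
    16 * ((N χ).map fun ζ => ‖H2 ζ‖).sum ≤ Bk ((min ⌊10 * l⌋₊ 30 : ℕ) / 10) + e0 := by
  have h1 := hE.pc χ (min ⌊10 * l⌋₊ 30) (min_le_right _ _) fun ζ hζ him => by
    have a1 : ((min ⌊10 * l⌋₊ 30 : ℕ) : ℝ) ≤ (⌊10 * l⌋₊ : ℝ) := Nat.cast_le.2 (min_le_left _ _)
    have a2 : (⌊10 * l⌋₊ : ℝ) ≤ 10 * l := Nat.floor_le (by positivity)
    have a3 := h ζ hζ him
    linarith
  linarith

end SumA

open SumA in
theorem sumOf : SumOf := by
  classical
  intro hAdm q _ N E Lm Th C M T l₁ l₂ e hE hEN hE1 hEre hFar hl₁ h12 h2L hT hTh he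
  obtain ⟨-, -, -, hH, -⟩ := hAdm
  obtain ⟨P, hP⟩ : ∃ P : ℂ → Prop, P = fun ζ => ζ.re < Lm ∧ |ζ.im| ≤ T := ⟨_, rfl⟩
  have hP' : ∀ ζ, P ζ ↔ ζ.re < Lm ∧ |ζ.im| ≤ T := fun ζ => by rw [hP]
  rw [← hP]
  have hfar : ∀ χ, ∀ ζ ∈ N χ - E χ, |ζ.im| ≤ T → l₂ ≤ ζ.re := fun χ ζ hζ him => by
    simpa using hFar χ ζ hζ 0 (by simpa using him)
  have hz : ∀ χ, ∃ z : ℂ, (∃ ζ ∈ N χ, P ζ) → z ∈ N χ ∧ P z ∧ ∀ ζ ∈ N χ, P ζ → z.re ≤ ζ.re := by
    intro χ
    by_cases h : (N χ).filter P = 0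
    · refine ⟨0, fun ⟨ζ, a, b⟩ => absurd b (Multiset.filter_eq_nil.1 h ζ a)⟩
    · obtain ⟨z, hz, hm⟩ := Multiset.exists_min_image Complex.re h
      exact ⟨z, fun _ => ⟨(Multiset.mem_filter.1 hz).1, (Multiset.mem_filter.1 hz).2,
        fun ζ a b => hm ζ (Multiset.mem_filter.2 ⟨a, b⟩)⟩⟩
  choose z hz using hz
  refine ⟨univ.filter fun χ => χ ≠ 1 ∧ E χ = 0 ∧ ∃ ζ ∈ N χ, P ζ, z, fun χ hχ => ?_, ?_⟩
  · obtain ⟨a, b, c⟩ := (mem_filter.1 hχ).2
    obtain ⟨d1, d2, -⟩ := hz χ c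
    obtain ⟨d3, d4⟩ := (hP' _).1 d2
    exact ⟨a, b, d1, d4, hfar χ _ (by rw [b, Multiset.sub_zero]; exact d1) d4, d3⟩
  have e3 : 3 * Real.exp (-e * max M l₂) =
      ∑ χ : Ch q, if χ = 1 then 3 * Real.exp (-e * max M l₂) else 0 := by
    rw [sum_ite_eq']; simp
  rw [WW, mul_sum, sum_filter, sum_filter, e3, ← sum_add_distrib, ← sum_add_distrib]
  refine sum_le_sum fun χ _ => ?_
  by_cases h1 : χ = 1
  · subst h1
    rw [if_neg (by simp), if_neg (by simp [hE1]), if_pos rfl, zero_add, zero_add]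
    have a1 := filt_le (N 1) P (l := max M l₂) he fun ζ hζ hp =>
      max_le (hE.zeta ζ hζ (((hP' _).1 hp).2.trans hTh))
        (hfar 1 ζ (by rw [hE1, Multiset.sub_zero]; exact hζ) ((hP' _).1 hp).2)
    have a2 := pcw hE 1 le_rfl fun ζ hζ _ => (hE.pos 1 ζ hζ).1.le
    have a3 : Bk ((min ⌊10 * (0 : ℝ)⌋₊ 30 : ℕ) / 10) + e0 ≤ 3 := by
      simp only [mul_zero, Nat.floor_zero, zero_le, inf_of_le_left, Nat.cast_zero, zero_div, Bk,
        if_true, e0]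
      norm_num
    have a4 := mul_le_mul_of_nonneg_left (a2.trans a3) (Real.exp_pos (-e * max M l₂)).le
    linarith
  by_cases h2 : E χ = 0
  · rw [if_neg (not_not.2 h2), if_neg h1, add_zero, add_zero]
    split_ifs with h3
    · obtain ⟨d1, d2, d3⟩ := hz χ h3.2.2
      have a1 := filt_le (N χ) P he d3
      have a2 := pcw hE χ (hE.pos χ _ d1).1.le fun ζ hζ him => by
        rcases lt_or_ge ζ.re Lm with h | h
        · exact d3 ζ hζ ((hP' _).2 ⟨h, him.trans hT⟩)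
        · exact ((hP' _).1 d2).1.le.trans h
      have a4 := mul_le_mul_of_nonneg_left a2 (Real.exp_pos (-e * (z χ).re)).le
      rw [wt]
      linarith
    · rw [Multiset.filter_eq_nil.2 fun ζ a b => h3 ⟨h1, h2, ζ, a, b⟩]
      simp
  · rw [if_neg (fun h => h2 h.2.1), if_pos h2, if_neg h1, add_zero, zero_add]
    have hsp : N χ = E χ + (N χ - E χ) := (add_tsub_cancel_of_le (hEN χ)).symm
    have hl : ∀ ζ ∈ N χ, |ζ.im| ≤ T → l₁ ≤ ζ.re := by
      intro ζ hζ him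
      rw [hsp, Multiset.mem_add] at hζ
      rcases hζ with h | h
      · exact (hEre χ ζ h).ge
      · exact h12.trans (hfar χ ζ h him)
    have a2 := pcw hE χ hl₁.le fun ζ hζ him => hl ζ hζ (him.trans hT)
    refine le_min ?_ ?_
    · have a1 := filt_le (N χ) P he fun ζ hζ hp => hl ζ hζ ((hP' _).1 hp).2
      have a4 := mul_le_mul_of_nonneg_left a2 (Real.exp_pos (-e * l₁)).le
      rw [wt]
      linarith
    · have b1 := filt_le (E χ) P he fun ζ hζ _ => (hEre χ ζ hζ).ge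
      have b2 := filt_le (N χ - E χ) P he fun ζ hζ hp => hfar χ ζ hζ ((hP' _).1 hp).2
      have b3 : ((E χ).map fun ζ => ‖H2 ζ‖).sum ≤
          (E χ).card * ((1 - Real.exp (-l₁ / 4)) / l₁) ^ 2 := by
        have := Multiset.sum_le_card_nsmul ((E χ).map fun ζ => ‖H2 ζ‖)
          (((1 - Real.exp (-l₁ / 4)) / l₁) ^ 2) fun x hx => by
            obtain ⟨ζ, hζ, rfl⟩ := Multiset.mem_map.1 hx
            have := (hH ζ (by rw [hEre χ ζ hζ]; exact hl₁)).2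
            rwa [hEre χ ζ hζ] at this
        rwa [Multiset.card_map, nsmul_eq_mul] at this
      have b4 : Real.exp (-e * l₂) ≤ Real.exp (-e * l₁) := by
        refine Real.exp_le_exp.2 ?_
        have := mul_le_mul_of_nonneg_left h12 he
        linarith
      have b5 : ((N χ).map fun ζ => ‖H2 ζ‖).sum =
          ((E χ).map fun ζ => ‖H2 ζ‖).sum + ((N χ - E χ).map fun ζ => ‖H2 ζ‖).sum := by
        conv_lhs => rw [hsp]
        rw [Multiset.map_add, Multiset.sum_add]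
      have b6 : (((N χ).filter P).map fun ζ => ‖HH e ζ‖).sum =
          (((E χ).filter P).map fun ζ => ‖HH e ζ‖).sum +
            (((N χ - E χ).filter P).map fun ζ => ‖HH e ζ‖).sum := by
        conv_lhs => rw [hsp]
        rw [Multiset.filter_add, Multiset.map_add, Multiset.sum_add]
      have b7 := mul_le_mul_of_nonneg_left a2 (Real.exp_pos (-e * l₂)).le
      have b8 := mul_le_mul_of_nonneg_left b3 (sub_nonneg.2 b4)
      have b9 : (4 * (1 - Real.exp (-l₁ / 4)) / l₁) ^ 2 =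
          16 * ((1 - Real.exp (-l₁ / 4)) / l₁) ^ 2 := by ring
      rw [b5] at b7
      rw [b6, b9]
      linarith

end Pool.Agent.MP_c5bf7b_nt.H38
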