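import Pool.Agent.MP_c5bf7b_nt.H38.SpecC

/-! The zero free region rows. -/

set_option autoImplicit false

namespace Pool.Agent.MP_c5bf7b_nt.H38

open Finset Complex

namespace ZfAux

theorem rhs_one {q : ℕ} (f : ℝ → ℝ) (x ε : ℝ) (w : ℂ) :
    Rhs f x ε (1 : Ch q) w 0 = (Lp f x (-w)).re + ε := by
  simp [Rhs]

theorem rhs_zero {q : ℕ} (f : ℝ → ℝ) (x ε : ℝ) (χ : Ch q) (h : χ ≠ 1) (w : ℂ) :
    Rhs f x ε χ w 0 = f 0 / 8 + ε := by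
  simp [Rhs, h]

theorem rhs_sing {q : ℕ} (f : ℝ → ℝ) (x ε : ℝ) (χ : Ch q) (h : χ ≠ 1) (w a : ℂ) :
    Rhs f x ε χ w {a} = f 0 / 8 - (Lp f x (a - w)).re + ε := by
  simp [Rhs, h]

theorem rhs_two {q : ℕ} (f : ℝ → ℝ) (x ε : ℝ) (χ : Ch q) (h : χ ≠ 1) (w a b : ℂ) :
    Rhs f x ε χ w ({a} + {b}) =
      f 0 / 8 - ((Lp f x (a - w)).re + (Lp f x (b - w)).re) + ε := by
  simp [Rhs, h]

theorem sub_pt (ζ : ℂ) (lam : ℝ) (t : ℝ) :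
    ζ - (lam + (t : ℝ) * I) = ((ζ.re - lam : ℝ) : ℂ) + ((ζ.im - t : ℝ) : ℂ) * I := by
  apply Complex.ext <;> simp

theorem sub_cj (ζ : ℂ) (lam : ℝ) (t : ℝ) :
    (starRingEnd ℂ) ζ - (lam + (t : ℝ) * I) =
      ((ζ.re - lam : ℝ) : ℂ) + ((-ζ.im - t : ℝ) : ℂ) * I := by
  apply Complex.ext <;> simp

theorem neg_pt (lam t : ℝ) :
    -((lam : ℂ) + (t : ℝ) * I) = ((-lam : ℝ) : ℂ) + ((-t : ℝ) : ℂ) * I := by
  apply Complex.ext <;> simp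

theorem mem_one {q : ℕ} {N : Ch q → Multiset ℂ} {Lm T l₁ l₂ : ℝ} {χ₁ : Ch q} {ζ₁ : ℂ}
    (hW : Win N Lm T l₁ l₂ χ₁ ζ₁) : ζ₁ ∈ N χ₁ := by
  refine Multiset.mem_of_le (hW.le χ₁) ?_
  simp [EE]

/-- the two terms that are common to all cases -/
theorem common {q : ℕ} {N : Ch q → Multiset ℂ} {f : ℝ → ℝ} {x T lam : ℝ}
    (hL : ∀ a : ℝ, Lp f x a = Lr f x a) (hK : KW q N 0 f x T lam) (hT : 0 ≤ T) :
    (Kn q f x 1 lam).re ≤ Lr f x (-lam) + e0 := by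
  have h := hK 1 0 0 (by simpa using by positivity) (Multiset.zero_le _) (by simp) (by simp)
  rw [rhs_one] at h
  have e1 : ((lam : ℂ) + ((0 : ℝ) : ℂ) * I) = lam := by simp
  rw [e1] at h
  have e2 : -(lam : ℂ) = ((-lam : ℝ) : ℂ) := by simp
  rw [e2, hL] at h
  simpa using h

end ZfAux

open ZfAux in
theorem zfOf : ZfOf := by
  intro hLp hAdm hPos hKw q _ N Lm Th C M T l₁ l₂ χ₁ ζ₁ hE hW hlT hT hχ
  have hmem : ζ₁ ∈ N χ₁ := mem_one hW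
  have hl₁ : 0 < l₁ := hW.re ▸ (hE.pos χ₁ ζ₁ hmem).1
  have hT0 : 0 ≤ T := le_trans (abs_nonneg _) hW.im
  have hc0 : 0 < c0 := by unfold c0; norm_num
  have he0 : 0 < e0 := by unfold e0; norm_num
  set lam : ℝ := max (l₁ - c0) 0 with hlam
  have hlam0 : 0 ≤ lam := le_max_right _ _
  have hlam1 : lam ≤ l₁ := max_le (by linarith) hl₁.le
  have hd : l₁ - lam ≤ c0 := by
    have : l₁ - c0 ≤ lam := le_max_left _ _
    linarith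
  have hpos : ∀ χ, ∀ ζ ∈ N χ, 0 < ζ.re := fun χ ζ h => (hE.pos χ ζ h).1
  have him := hW.im
  have ht1 : |ζ₁.im| ≤ 3 * T := by linarith
  have ht2 : |2 * ζ₁.im| ≤ 3 * T := by rw [abs_mul, abs_two]; linarith
  have ht3 : |3 * ζ₁.im| ≤ 3 * T := by
    rw [abs_mul, abs_of_pos (by norm_num : (0 : ℝ) < 3)]; linarith
  have hs1 : ({ζ₁} : Multiset ℂ) ≤ N χ₁ := Multiset.singleton_le.2 hmem
  refine ⟨fun hne i hi => ?_, fun heq him0 hhalf => ?_⟩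
  · have hi' := Finset.mem_Icc.1 hi
    have hx0 : (0 : ℝ) < (i : ℕ) / 10 := by
      have : (8 : ℝ) ≤ (i : ℕ) := by exact_mod_cast hi'.1
      linarith
    have hx5 : ((i : ℕ) : ℝ) / 10 ≤ 5 := by
      have : ((i : ℕ) : ℝ) ≤ 35 := by exact_mod_cast hi'.2
      linarith
    have hA := hAdm.1 _ hx0 hx5
    obtain ⟨-, hL, hanti, -, hdiff, -⟩ := hLp _ _ hA
    have hK := hKw q N 0 _ _ Lm Th T l₁ hE.two (hE.kf i hi) hpos hW.far0 hlT hT hl₁.le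
      (hW.l12.trans hW.l2)
    have hP := (hPos q _ _ lam hE.two hA.nonneg).2.1 χ₁ ζ₁.im
    have h0 := common hL hK hT0
    have hf0 : par (((i : ℕ) : ℝ) / 10) 0 = 1 := by simp [par]
    have h1 := hK χ₁ ζ₁.im {ζ₁} ht1 hs1 (by simp) (by simp)
    rw [rhs_sing _ _ _ _ hχ, sub_pt, hf0, hW.re] at h1
    have e1 : (((l₁ - lam : ℝ) : ℂ) + ((ζ₁.im - ζ₁.im : ℝ) : ℂ) * I) = ((l₁ - lam : ℝ) : ℂ) := by
      simp
    rw [e1, hL, ofReal_re] at h1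
    have hA1 : Lr (par (((i : ℕ) : ℝ) / 10)) (((i : ℕ) : ℝ) / 10) (-lam) ≤ Fp i (-l₁) :=
      hanti (by linarith)
    have hA2 : Fp i c0 ≤ Lr (par (((i : ℕ) : ℝ) / 10)) (((i : ℕ) : ℝ) / 10) (l₁ - lam) :=
      hanti hd
    have hsq : χ₁ ^ 2 ≠ 1 := by
      intro h
      apply hne
      rw [pow_two] at h
      exact eq_inv_of_mul_eq_one_left h
    by_cases h3 : χ₁ ^ 3 = 1
    · have hinv : χ₁ ^ 2 = χ₁⁻¹ := by
        apply eq_inv_of_mul_eq_one_left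
        rw [← pow_succ]; exact h3
      have hc : (starRingEnd ℂ) ζ₁ ∈ N (χ₁ ^ 2) := hinv ▸ (hE.pos χ₁ ζ₁ hmem).2
      have h2 := hK (χ₁ ^ 2) (2 * ζ₁.im) {(starRingEnd ℂ) ζ₁} ht2
        (Multiset.singleton_le.2 hc) (by simp) (by simp)
      rw [rhs_sing _ _ _ _ hsq, sub_cj, hf0, hW.re] at h2
      have h4 := hK (χ₁ ^ 3) (3 * ζ₁.im) 0 ht3 (Multiset.zero_le _) (by simp) (by simp)
      have h4' : Rhs (par (((i : ℕ) : ℝ) / 10)) (((i : ℕ) : ℝ) / 10) e0 (χ₁ ^ 3)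
          (lam + ((3 * ζ₁.im : ℝ) : ℂ) * I) 0 =
          (Lp (par (((i : ℕ) : ℝ) / 10)) (((i : ℕ) : ℝ) / 10)
            (((-lam : ℝ) : ℂ) + ((-(3 * ζ₁.im) : ℝ) : ℂ) * I)).re + e0 := by
        rw [h3, rhs_one, neg_pt]
      rw [h4'] at h4
      have e2 : -ζ₁.im - 2 * ζ₁.im = -(3 * ζ₁.im) := by ring
      rw [e2] at h2
      have h5 := hdiff (-lam) (l₁ - lam) (-(3 * ζ₁.im)) (by linarith)
      have h6 := (Complex.re_le_norm _).trans h5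
      rw [sub_re] at h6
      have h7 := hA.re (((l₁ - lam : ℝ) : ℂ) + ((-(3 * ζ₁.im) : ℝ) : ℂ) * I) (by simp; linarith)
      have := le_max_right (5 * Fp i (-l₁) - 8 * Fp i c0 + 13 / 8)
        (6 * Fp i (-l₁) - 9 * Fp i c0 + 12 / 8)
      linarith
    · have h2 := hK (χ₁ ^ 2) (2 * ζ₁.im) 0 ht2 (Multiset.zero_le _) (by simp) (by simp)
      rw [rhs_zero _ _ _ _ hsq, hf0] at h2
      have h4 := hK (χ₁ ^ 3) (3 * ζ₁.im) 0 ht3 (Multiset.zero_le _) (by simp) (by simp)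
      rw [rhs_zero _ _ _ _ h3, hf0] at h4
      have := le_max_left (5 * Fp i (-l₁) - 8 * Fp i c0 + 13 / 8)
        (6 * Fp i (-l₁) - 9 * Fp i c0 + 12 / 8)
      linarith
  · have hA := hAdm.2.1
    obtain ⟨-, hL, hanti, -, -, -⟩ := hLp _ _ hA
    have hK := hKw q N 0 _ _ Lm Th T l₁ hE.two hE.kt hpos hW.far0 hlT hT hl₁.le
      (hW.l12.trans hW.l2)
    have hP := (hPos q _ _ lam hE.two hA.nonneg).2.1 χ₁ ζ₁.im
    have h0 := common hL hK hT0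
    have hf0 : tri 0 = 7 / 5 := by simp [tri]
    have hEE : EE χ₁ ζ₁ χ₁ = {ζ₁} + {(starRingEnd ℂ) ζ₁} := by
      unfold EE
      rw [if_pos rfl, if_pos ⟨heq, fun h => him0 h.2⟩]
    have hs2 : ({ζ₁} + {(starRingEnd ℂ) ζ₁} : Multiset ℂ) ≤ N χ₁ := hEE ▸ hW.le χ₁
    have h1 := hK χ₁ ζ₁.im _ ht1 hs2 (by simp) (by simp)
    rw [rhs_two _ _ _ _ hχ, sub_pt, sub_cj, hf0, hW.re] at h1
    have e1 : (((l₁ - lam : ℝ) : ℂ) + ((ζ₁.im - ζ₁.im : ℝ) : ℂ) * I) = ((l₁ - lam : ℝ) : ℂ) := by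
      simp
    have e2 : -ζ₁.im - ζ₁.im = -(2 * ζ₁.im) := by ring
    rw [e1, e2, hL, ofReal_re] at h1
    have hsq : χ₁ ^ 2 = 1 := by
      rw [pow_two]
      nth_rewrite 2 [heq]
      exact mul_inv_cancel χ₁
    have hcu : χ₁ ^ 3 = χ₁ := by rw [pow_succ, hsq, one_mul]
    have h2 := hK 1 (2 * ζ₁.im) 0 ht2 (Multiset.zero_le _) (by simp) (by simp)
    rw [rhs_one, neg_pt] at h2
    have h3 := hK χ₁ (3 * ζ₁.im) {ζ₁} ht3 hs1 (by simp) (by simp)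
    have e3 : ζ₁.im - 3 * ζ₁.im = -(2 * ζ₁.im) := by ring
    rw [rhs_sing _ _ _ _ hχ, sub_pt, hf0, hW.re, e3] at h3
    rw [hsq, hcu] at hP
    have h5 := hAdm.2.2.2.2 lam (l₁ - lam) (-(2 * ζ₁.im)) hlam0 (by linarith) (by linarith)
    have e4 : -(lam : ℂ) = ((-lam : ℝ) : ℂ) := by simp
    rw [e4] at h5
    have hA1 : Lr tri (7 / 5) (-lam) ≤ Ft (-l₁) := hanti (by linarith)
    have hA2 : Ft c0 ≤ Lr tri (7 / 5) (l₁ - lam) := hanti hd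
    linarith

end Pool.Agent.MP_c5bf7b_nt.H38
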