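import Pool.Agent.MP_c5bf7b_nt.H38.BurgAll
import Pool.Agent.MP_c5bf7b_nt.H38.Base
import Pool.Agent.MP_c5bf7b_nt.H38.Tail
import Pool.Agent.MP_c5bf7b_nt.H38.PhiR
import Pool.Agent.MP_c5bf7b_nt.H38.Cnt
import Pool.Agent.MP_c5bf7b_nt.H38.Gf
import Pool.Agent.MP_c5bf7b_nt.H38.Jd
import Pool.Agent.MP_c5bf7b_nt.H38.Grow
import Pool.Agent.MP_c5bf7b_nt.H38.Lap2
import Pool.Agent.MP_c5bf7b_nt.H38.Ef
import Pool.Agent.MP_c5bf7b_nt.H38.LpR
import Pool.Agent.MP_c5bf7b_nt.H38.AdmR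
import Pool.Agent.MP_c5bf7b_nt.H38.Kf
import Pool.Agent.MP_c5bf7b_nt.H38.Zeta
import Pool.Agent.MP_c5bf7b_nt.H38.Pc
import Pool.Agent.MP_c5bf7b_nt.H38.Hf
import Pool.Agent.MP_c5bf7b_nt.H38.Sieg
import Pool.Agent.MP_c5bf7b_nt.H38.MuR
import Pool.Agent.MP_c5bf7b_nt.H38.Bv1
import Pool.Agent.MP_c5bf7b_nt.H38.Bv
import Pool.Agent.MP_c5bf7b_nt.H38.SelR
import Pool.Agent.MP_c5bf7b_nt.H38.Gram
import Pool.Agent.MP_c5bf7b_nt.H38.D1
import Pool.Agent.MP_c5bf7b_nt.H38.Den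
import Pool.Agent.MP_c5bf7b_nt.H38.Mid
import Pool.Agent.MP_c5bf7b_nt.H38.Pos
import Pool.Agent.MP_c5bf7b_nt.H38.WinR
import Pool.Agent.MP_c5bf7b_nt.H38.Zf
import Pool.Agent.MP_c5bf7b_nt.H38.Ls
import Pool.Agent.MP_c5bf7b_nt.H38.Sum
import Pool.Agent.MP_c5bf7b_nt.H38.Out
import Pool.Agent.MP_c5bf7b_nt.H38.CfgR
import Pool.Agent.MP_c5bf7b_nt.H38.EnvR
import Pool.Agent.MP_c5bf7b_nt.H38.Near
import Pool.Agent.MP_c5bf7b_nt.H38.Lin
import Pool.Agent.MP_c5bf7b_nt.H38.Num4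

/-! The least prime in a progression: all rows together. -/

set_option autoImplicit false

namespace Pool.Agent.MP_c5bf7b_nt.H38

theorem tail : TailS := tailOf burg base
theorem phi : PhiS := phiOf base
theorem cnt : CntS := cntOf phi ex gf
theorem d1 : D1S := d1Of cnt tail (bvOf mu bv1) sel (gramOf tail)
theorem mid : MidS := midOf cnt adm (denOf base)

theorem near (e : ℝ) (h4 : 4 ≤ e) (h5 : e ≤ 5) (hA : NumA e) (hB : NumB e) (hC : NumC e)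
    (hG : NumG e) : NearS e :=
  nearOf win (zfOf lp adm pos kw) (lsOf lp adm pos kw) (sumOf adm) (outOf adm)
    (cfgOf lp adm kw (d2Of lp pos)) (numD lp adm) e h4 h5 hA hB hC hG

theorem ef : EfS := efOf phi gf lap2
theorem kf : KfS := kfOf phi cnt jd (growOf tail) lp ef

theorem lin : LinS (41 / 10 + 1 / 2) :=
  linOf cnt (envOf cnt adm kf zeta (pcOf cnt lp adm kf zeta) d1) (hfOf ef) mid sieg _
    (by norm_num) (by norm_num)
    (near _ (by norm_num) (by norm_num) Num.numA Num.numB Num.numC Num.numG)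

end Pool.Agent.MP_c5bf7b_nt.H38
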