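import Mathlib

/-! Enclosures of positive power series and of the exponential function. -/

set_option autoImplicit false

namespace Pool.Agent.MP_c5bf7b_nt.H38.Num

open Finset

/-- the scale -/
def SC : ℕ := 1000000000000000000

def serL (nu de : ℕ → ℕ) (a b : ℕ) : ℕ → ℕ → ℕ → ℕ
  | 0, _, _ => 0
  | n + 1, k, t => Nat.add (Nat.div (Nat.mul t (nu k)) (de k))
      (serL nu de a b n (Nat.succ k) (Nat.div (Nat.mul t a) (Nat.mul b (Nat.succ k))))

def serU (nu de : ℕ → ℕ) (a b : ℕ) : ℕ → ℕ → ℕ → ℕ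
  | 0, _, t => Nat.mul 2 t
  | n + 1, k, t => Nat.add (Nat.succ (Nat.div (Nat.mul t (nu k)) (de k)))
      (serU nu de a b n (Nat.succ k) (Nat.succ (Nat.div (Nat.mul t a) (Nat.mul b (Nat.succ k)))))

theorem div_le (m n : ℕ) : ((Nat.div m n : ℕ) : ℝ) ≤ m / n := Nat.cast_div_le

theorem le_div (m n : ℕ) (hn : 0 < n) : (m : ℝ) / n ≤ (Nat.succ (Nat.div m n) : ℕ) := by
  have h : m < n * (m / n + 1) := Nat.lt_mul_div_succ m hn
  have h' : (m : ℝ) < n * ((m / n : ℕ) + 1) := by exact_mod_cast h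
  rw [div_le_iff₀ (by exact_mod_cast hn)]
  change (m : ℝ) ≤ ((m / n + 1 : ℕ) : ℝ) * n
  push_cast
  linarith

/-- the terms of the series -/
noncomputable def tm (nu de : ℕ → ℕ) (y : ℝ) (k : ℕ) : ℝ := nu k / de k * (y ^ k / k.factorial)

theorem step (S y : ℝ) (a b k : ℕ) (hy : y = a / b) :
    S * (y ^ (k + 1) / (k + 1).factorial) = S * (y ^ k / k.factorial) * a / (b * (k + 1 : ℕ)) := by
  rw [Nat.factorial_succ, pow_succ]
  nth_rewrite 2 [hy]
  push_cast
  have : (k.factorial : ℝ) ≠ 0 := by positivity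
  rcases eq_or_ne (b : ℝ) 0 with h | h
  · simp [h]
  field_simp

theorem serL_le (nu de : ℕ → ℕ) (a b : ℕ) (S y : ℝ) (hy : y = a / b) (n k t : ℕ)
    (ht : (t : ℝ) ≤ S * (y ^ k / k.factorial)) :
    (serL nu de a b n k t : ℝ) ≤ S * ∑ j ∈ range n, tm nu de y (k + j) := by
  induction n generalizing k t with
  | zero => simp [serL]
  | succ n ih =>
    rw [serL, sum_range_succ', mul_add]
    have h1 : ((Nat.div (Nat.mul t (nu k)) (de k) : ℕ) : ℝ) ≤ S * tm nu de y (k + 0) := by
      refine (div_le _ _).trans ?_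
      rw [Nat.mul_eq, Nat.cast_mul, add_zero, tm, mul_div_assoc, mul_comm (nu k / de k : ℝ),
        ← mul_assoc]
      exact mul_le_mul_of_nonneg_right ht (by positivity)
    have h2 := ih (Nat.succ k) (Nat.div (Nat.mul t a) (Nat.mul b (Nat.succ k))) (by
      refine (div_le _ _).trans ?_
      rw [Nat.succ_eq_add_one, step S y a b k hy, Nat.mul_eq, Nat.mul_eq, Nat.cast_mul, Nat.cast_mul]
      gcongr)
    have e : ∀ j, Nat.succ k + j = k + (j + 1) := fun j => by omega
    simp only [e] at h2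
    rw [Nat.add_eq, Nat.cast_add]
    linarith

theorem le_serU (nu de : ℕ → ℕ) (a b : ℕ) (S y : ℝ) (hy : y = a / b) (hb : 0 < b)
    (hde : ∀ k, 0 < de k) (n k t : ℕ) (ht : S * (y ^ k / k.factorial) ≤ t) :
    S * (∑ j ∈ range n, tm nu de y (k + j) + y ^ (k + n) / (k + n).factorial * 2) ≤
      serU nu de a b n k t := by
  induction n generalizing k t with
  | zero =>
    simp only [serU, range_zero, sum_empty, add_zero, zero_add, Nat.mul_eq, Nat.cast_mul,
      Nat.cast_ofNat]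
    linarith
  | succ n ih =>
    rw [serU, sum_range_succ']
    have h1 : S * tm nu de y (k + 0) ≤ (Nat.succ (Nat.div (Nat.mul t (nu k)) (de k)) : ℕ) := by
      refine le_trans ?_ (le_div _ _ (hde k))
      rw [Nat.mul_eq, Nat.cast_mul, add_zero, tm, mul_div_assoc, mul_comm (nu k / de k : ℝ),
        ← mul_assoc]
      exact mul_le_mul_of_nonneg_right ht (by positivity)
    have h2 := ih (Nat.succ k) (Nat.succ (Nat.div (Nat.mul t a) (Nat.mul b (Nat.succ k)))) (by
      refine le_trans ?_ (le_div _ _ (Nat.mul_pos hb (Nat.succ_pos k)))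
      rw [Nat.succ_eq_add_one, step S y a b k hy, Nat.mul_eq, Nat.mul_eq, Nat.cast_mul, Nat.cast_mul]
      gcongr)
    have e : ∀ j, Nat.succ k + j = k + (j + 1) := fun j => by omega
    simp only [e] at h2
    rw [Nat.add_eq, Nat.cast_add]
    linarith

/-- the number of terms -/
def nt (y : ℚ) : ℕ := Nat.add 13 (Nat.mul 3 (Nat.div y.num.toNat y.den))

/-- lower bound for the series at `y ≥ 0` -/
def sL (nu de : ℕ → ℕ) (y : ℚ) : ℚ := mkRat (serL nu de y.num.toNat y.den (nt y) 0 SC) SC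

/-- upper bound for the series at `y ≥ 0` -/
def sU (nu de : ℕ → ℕ) (y : ℚ) : ℚ := mkRat (serU nu de y.num.toNat y.den (nt y) 0 SC) SC

theorem SC_pos : (0 : ℝ) < SC := by norm_num [SC]

theorem cast_eq {y : ℚ} (hy : 0 ≤ y) : (y : ℝ) = (y.num.toNat : ℕ) / y.den := by
  have h : ((y.num.toNat : ℕ) : ℤ) = y.num := Int.toNat_of_nonneg (Rat.num_nonneg.2 hy)
  rw [Rat.cast_def]
  congr 1
  exact_mod_cast h.symm

theorem le_nt {y : ℚ} (hy : 0 ≤ y) : 2 * (y : ℝ) ≤ nt y + 1 := by
  have h := le_div y.num.toNat y.den y.den_pos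
  rw [← cast_eq hy, Nat.succ_eq_add_one] at h
  rw [nt, Nat.add_eq, Nat.mul_eq]
  push_cast at h ⊢
  have : (0 : ℝ) ≤ (Nat.div y.num.toNat y.den : ℕ) := Nat.cast_nonneg _
  linarith

theorem mk_cast (n : ℕ) : ((mkRat n SC : ℚ) : ℝ) = n / SC := by
  rw [Rat.mkRat_eq_div]
  push_cast
  rfl

theorem sL_le (nu de : ℕ → ℕ) {y : ℚ} (hy : 0 ≤ y) :
    (sL nu de y : ℝ) ≤ ∑ j ∈ range (nt y), tm nu de y j := by
  rw [sL, mk_cast, div_le_iff₀ SC_pos, mul_comm]
  have := serL_le nu de _ _ SC y (cast_eq hy) (nt y) 0 SC (by simp)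
  simp only [zero_add] at this
  exact this

theorem le_sU (nu de : ℕ → ℕ) (hde : ∀ k, 0 < de k) {y : ℚ} (hy : 0 ≤ y) :
    ∑ j ∈ range (nt y), tm nu de y j + (y : ℝ) ^ nt y / (nt y).factorial * 2 ≤ sU nu de y := by
  have h2 := le_serU nu de _ _ SC y (cast_eq hy) y.den_pos hde (nt y) 0 SC (by simp)
  simp only [zero_add] at h2
  rw [sU, mk_cast, le_div_iff₀ SC_pos, mul_comm]
  exact h2

theorem exp_le (y : ℝ) (n : ℕ) (h0 : 0 ≤ y) (h : 2 * y ≤ n + 1) :
    Real.exp y ≤ ∑ j ∈ range n, y ^ j / j.factorial + y ^ n / n.factorial * 2 := by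
  have h1 := Complex.exp_bound' (x := y) (n := n) (by
    rw [Complex.norm_real, Real.norm_of_nonneg h0, div_le_iff₀ (by positivity)]
    push_cast
    linarith)
  rw [Complex.norm_real, Real.norm_of_nonneg h0] at h1
  have h2 : (Complex.exp y - ∑ m ∈ range n, (y : ℂ) ^ m / m.factorial) =
      ((Real.exp y - ∑ j ∈ range n, y ^ j / j.factorial : ℝ) : ℂ) := by
    push_cast
    rfl
  rw [h2, Complex.norm_real] at h1
  linarith [le_abs_self (Real.exp y - ∑ j ∈ range n, y ^ j / j.factorial), Real.norm_eq_abs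
    (Real.exp y - ∑ j ∈ range n, y ^ j / j.factorial)]

/-- the integral of `w s * exp (y s)` lies between the two bounds -/
theorem encl (w : ℝ → ℝ) (nu de : ℕ → ℕ) (hw : Continuous w) (h0 : ∀ s, 0 ≤ s → s ≤ 1 → 0 ≤ w s)
    (h1 : ∀ s, 0 ≤ s → s ≤ 1 → w s ≤ 1) (hde : ∀ k, 0 < de k)
    (hm : ∀ k : ℕ, ∫ s in (0 : ℝ)..1, w s * s ^ k = nu k / de k) {y : ℚ} (hy : 0 ≤ y) :
    (sL nu de y : ℝ) ≤ ∫ s in (0 : ℝ)..1, w s * Real.exp (y * s) ∧
      ∫ s in (0 : ℝ)..1, w s * Real.exp (y * s) ≤ sU nu de y := by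
  have hy' : (0 : ℝ) ≤ y := by exact_mod_cast hy
  have hs : ∑ j ∈ range (nt y), tm nu de y j =
      ∫ s in (0 : ℝ)..1, w s * ∑ j ∈ range (nt y), (y * s) ^ j / j.factorial := by
    simp only [mul_sum]
    rw [intervalIntegral.integral_finsetSum fun j _ =>
      (by fun_prop : Continuous _).intervalIntegrable _ _]
    refine sum_congr rfl fun j _ => ?_
    rw [tm, ← hm j, ← intervalIntegral.integral_mul_const]
    refine intervalIntegral.integral_congr fun s _ => ?_
    simp only [mul_pow]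
    ring
  constructor
  · refine (sL_le nu de hy).trans ?_
    rw [hs]
    refine intervalIntegral.integral_mono_on zero_le_one
      ((by fun_prop : Continuous _).intervalIntegrable _ _)
      ((by fun_prop : Continuous _).intervalIntegrable _ _) fun s hs => ?_
    exact mul_le_mul_of_nonneg_left (Real.sum_le_exp_of_nonneg (mul_nonneg hy' hs.1) _)
      (h0 s hs.1 hs.2)
  · refine le_trans ?_ (le_sU nu de hde hy)
    have h20 := le_nt hy
    generalize nt y = n at hs h20 ⊢
    have h3 : (y : ℝ) ^ n / n.factorial * 2 =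
        ∫ _s in (0 : ℝ)..1, (y : ℝ) ^ n / n.factorial * 2 := by simp
    rw [hs, h3, ← intervalIntegral.integral_add
      ((by fun_prop : Continuous _).intervalIntegrable _ _)
      ((by fun_prop : Continuous _).intervalIntegrable _ _)]
    refine intervalIntegral.integral_mono_on zero_le_one
      ((by fun_prop : Continuous _).intervalIntegrable _ _)
      ((by fun_prop : Continuous _).intervalIntegrable _ _) fun s hs => ?_
    have h4 : (y : ℝ) * s ≤ y := mul_le_of_le_one_right hy' hs.2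
    have h45 := mul_nonneg hy' hs.1
    have h5 := exp_le (y * s) n h45 (by linarith)
    have h6 : ((y : ℝ) * s) ^ n / n.factorial * 2 ≤ (y : ℝ) ^ n / n.factorial * 2 := by gcongr
    have h7 : 0 ≤ ((y : ℝ) * s) ^ n / n.factorial * 2 := by positivity
    have h8 := mul_le_mul_of_nonneg_left h5 (h0 s hs.1 hs.2)
    have h9 := mul_le_of_le_one_left h7 (h1 s hs.1 hs.2)
    rw [mul_add] at h8
    linarith

def one (_ : ℕ) : ℕ := 1

theorem exp_encl {y : ℚ} (hy : 0 ≤ y) :
    (sL one one y : ℝ) ≤ Real.exp y ∧ Real.exp y ≤ sU one one y := by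
  have hy' : (0 : ℝ) ≤ y := by exact_mod_cast hy
  have e : ∀ j, tm one one y j = (y : ℝ) ^ j / j.factorial := fun j => by simp [tm, one]
  constructor
  · refine (sL_le _ _ hy).trans ?_
    simp only [e]
    exact Real.sum_le_exp_of_nonneg hy' _
  · refine le_trans ?_ (le_sU one one (fun _ => Nat.one_pos) hy)
    simp only [e]
    exact exp_le y _ hy' (le_nt hy)

/-- rounding down and up -/
def dn (x : ℚ) : ℚ := mkRat (x * SC).floor SC
def up (x : ℚ) : ℚ := -dn (-x)

theorem dn_le (x : ℚ) : (dn x : ℝ) ≤ x := by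
  have h : dn x ≤ x := by
    rw [dn, Rat.mkRat_eq_div, div_le_iff₀ (by norm_num [SC])]
    exact Rat.floor_le _
  exact_mod_cast h

theorem le_up (x : ℚ) : (x : ℝ) ≤ up x := by
  have := dn_le (-x)
  rw [up]
  push_cast at this ⊢
  linarith

def expL (y : ℚ) : ℚ := if 0 ≤ y then sL one one y else dn (1 / sU one one (-y))
def expU (y : ℚ) : ℚ := if 0 ≤ y then sU one one y else up (1 / max 1 (sL one one (-y)))

theorem expL_le (y : ℚ) : (expL y : ℝ) ≤ Real.exp y := by
  rw [expL]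
  split_ifs with h
  · exact (exp_encl h).1
  · have h1 := (exp_encl (y := -y) (by linarith)).2
    refine (dn_le _).trans ?_
    push_cast at h1 ⊢
    rw [Real.exp_neg] at h1
    rw [one_div]
    exact inv_le_of_inv_le₀ (Real.exp_pos _) h1

theorem le_expU (y : ℚ) : Real.exp y ≤ expU y := by
  rw [expU]
  split_ifs with h
  · exact (exp_encl h).2
  · have h1 := (exp_encl (y := -y) (by linarith)).1
    have h2 : (y : ℝ) < 0 := by exact_mod_cast not_le.1 h
    refine le_trans ?_ (le_up _)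
    push_cast at h1 ⊢
    have h3 : max 1 (sL one one (-y) : ℝ) ≤ Real.exp (-y) :=
      max_le (Real.one_le_exp (by linarith)) h1
    rw [Real.exp_neg] at h3
    rw [one_div]
    exact le_inv_of_le_inv₀ (lt_of_lt_of_le one_pos (le_max_left _ _)) h3

end Pool.Agent.MP_c5bf7b_nt.H38.Num
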