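import Pool.Agent.MP_c5bf7b_nt.H38.SpecC
import Pool.Agent.MP_c5bf7b_nt.H38.Num0

/-! Enclosures of the transforms and of the weights. -/

set_option autoImplicit false

namespace Pool.Agent.MP_c5bf7b_nt.H38.Num

open Finset

/-- lower and upper bounds for all rational `y`, with the reflected moments for `y < 0` -/
def GLo (nu de nu' de' : ℕ → ℕ) (y : ℚ) : ℚ :=
  if 0 ≤ y then sL nu de y else sL nu' de' (-y) / sU one one (-y)

def GUp (nu de nu' de' : ℕ → ℕ) (y : ℚ) : ℚ :=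
  if 0 ≤ y then sU nu de y else sU nu' de' (-y) * expU y

theorem encl2 (w : ℝ → ℝ) (nu de nu' de' : ℕ → ℕ) (hw : Continuous w)
    (h0 : ∀ s, 0 ≤ s → s ≤ 1 → 0 ≤ w s) (h1 : ∀ s, 0 ≤ s → s ≤ 1 → w s ≤ 1) (hde : ∀ k, 0 < de k)
    (hde' : ∀ k, 0 < de' k) (hm : ∀ k : ℕ, ∫ s in (0 : ℝ)..1, w s * s ^ k = nu k / de k)
    (hm' : ∀ k : ℕ, ∫ s in (0 : ℝ)..1, w (1 - s) * s ^ k = nu' k / de' k) (y : ℚ) :
    (GLo nu de nu' de' y : ℝ) ≤ ∫ s in (0 : ℝ)..1, w s * Real.exp (y * s) ∧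
      ∫ s in (0 : ℝ)..1, w s * Real.exp (y * s) ≤ GUp nu de nu' de' y := by
  rw [GLo, GUp]
  split_ifs with h
  · exact encl w nu de hw h0 h1 hde hm h
  · have hy : 0 ≤ -y := by linarith
    obtain ⟨a1, a2⟩ := encl (fun s => w (1 - s)) nu' de' (by fun_prop)
      (fun s _ _ => h0 _ (by linarith) (by linarith)) (fun s _ _ => h1 _ (by linarith) (by linarith))
      hde' hm' hy
    have e : ∫ s in (0 : ℝ)..1, w s * Real.exp (y * s) =
        (∫ s in (0 : ℝ)..1, w (1 - s) * Real.exp ((-y : ℚ) * s)) * Real.exp y := by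
      have := intervalIntegral.integral_comp_sub_left (fun s => w s * Real.exp (y * s))
        (a := 0) (b := 1) 1
      simp only [sub_self, sub_zero] at this
      rw [← this, ← intervalIntegral.integral_mul_const]
      refine intervalIntegral.integral_congr fun s _ => ?_
      simp only [mul_assoc, ← Real.exp_add]
      push_cast
      ring_nf
    have b0 : 0 ≤ ∫ s in (0 : ℝ)..1, w (1 - s) * Real.exp ((-y : ℚ) * s) :=
      intervalIntegral.integral_nonneg zero_le_one fun s hs =>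
        mul_nonneg (h0 _ (by linarith [hs.2]) (by linarith [hs.1])) (Real.exp_pos _).le
    have b1 := (exp_encl hy).2
    rw [e]
    constructor
    · push_cast at b1 ⊢
      have b2 : Real.exp y = (Real.exp (-y))⁻¹ := by rw [Real.exp_neg, inv_inv]
      rw [b2, ← div_eq_mul_inv]
      push_cast at a1 b0
      exact div_le_div₀ b0 a1 (Real.exp_pos _) b1
    · push_cast at a2 b0 ⊢
      exact mul_le_mul a2 (le_expU y) (Real.exp_pos _).le (b0.trans a2)

theorem mom4 (a b c d : ℝ) (i j k l : ℕ) :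
    ∫ s in (0 : ℝ)..1, (a * s ^ i + b * s ^ j + c * s ^ k + d * s ^ l) =
      a / (i + 1) + b / (j + 1) + c / (k + 1) + d / (l + 1) := by
  rw [intervalIntegral.integral_add, intervalIntegral.integral_add, intervalIntegral.integral_add]
  · simp [integral_pow, div_eq_mul_inv]
  all_goals exact (by fun_prop : Continuous _).intervalIntegrable _ _

noncomputable def pp (s : ℝ) : ℝ := (1 - s) ^ 3 * (1 + 3 * s + s ^ 2)

theorem pp_cont : Continuous pp := by unfold pp; fun_prop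

theorem pp0 (s : ℝ) (h0 : 0 ≤ s) (h1 : s ≤ 1) : 0 ≤ pp s := by
  have : 0 ≤ 1 - s := by linarith
  unfold pp; positivity

theorem pp1 (s : ℝ) (h0 : 0 ≤ s) (h1 : s ≤ 1) : pp s ≤ 1 := by
  have h : 0 ≤ s ^ 2 * (5 * (1 - s) + s ^ 3) := by
    have : 0 ≤ 1 - s := by linarith
    positivity
  unfold pp; nlinarith

def nP (_ : ℕ) : ℕ := 30
def dP (k : ℕ) : ℕ :=
  Nat.mul (Nat.mul (Nat.add k 1) (Nat.add k 3)) (Nat.mul (Nat.add k 4) (Nat.add k 6))
def nQ (k : ℕ) : ℕ := Nat.add (Nat.mul k (Nat.add k 14)) 50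
def dQ (k : ℕ) : ℕ := Nat.mul (Nat.mul (Nat.add k 4) (Nat.add k 5)) (Nat.add k 6)
def dD (k : ℕ) : ℕ := dP (Nat.add k 1)
def dT (k : ℕ) : ℕ := Nat.mul (Nat.add k 1) (Nat.add k 2)
def dR (k : ℕ) : ℕ := Nat.add k 2

theorem momP (k : ℕ) : ∫ s in (0 : ℝ)..1, pp s * s ^ k = nP k / dP k := by
  have : ∀ s : ℝ, pp s * s ^ k =
      1 * s ^ k + (-5) * s ^ (k + 2) + 5 * s ^ (k + 3) + (-1) * s ^ (k + 5) := fun s => by
    unfold pp; ring
  simp only [this, mom4, nP, dP, Nat.mul_eq, Nat.add_eq]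
  push_cast
  field_simp
  ring

theorem momQ (k : ℕ) : ∫ s in (0 : ℝ)..1, pp (1 - s) * s ^ k = nQ k / dQ k := by
  have : ∀ s : ℝ, pp (1 - s) * s ^ k =
      5 * s ^ (k + 3) + (-5) * s ^ (k + 4) + 1 * s ^ (k + 5) + 0 * s ^ k := fun s => by
    unfold pp; ring
  simp only [this, mom4, nQ, dQ, Nat.mul_eq, Nat.add_eq]
  push_cast
  field_simp
  ring

theorem momD (k : ℕ) : ∫ s in (0 : ℝ)..1, pp s * s * s ^ k = nP k / dD k := by
  have : ∀ s : ℝ, pp s * s * s ^ k = pp s * s ^ (k + 1) := fun s => by ring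
  simp only [this, momP]
  rfl

theorem momT (k : ℕ) : ∫ s in (0 : ℝ)..1, (1 - s) * s ^ k = one k / dT k := by
  have : ∀ s : ℝ, (1 - s) * s ^ k =
      1 * s ^ k + (-1) * s ^ (k + 1) + 0 * s ^ k + 0 * s ^ k := fun s => by ring
  simp only [this, mom4, one, dT, Nat.mul_eq, Nat.add_eq]
  push_cast
  field_simp
  ring

theorem momR (k : ℕ) : ∫ s in (0 : ℝ)..1, (1 - (1 - s)) * s ^ k = one k / dR k := by
  have : ∀ s : ℝ, (1 - (1 - s)) * s ^ k =
      1 * s ^ (k + 1) + 0 * s ^ k + 0 * s ^ k + 0 * s ^ k := fun s => by ring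
  simp only [this, mom4, one, dR, Nat.add_eq]
  push_cast
  field_simp
  ring

theorem scale (g : ℝ → ℝ) {x : ℝ} (hx : 0 < x) :
    ∫ t in (0 : ℝ)..x, g t = x * ∫ s in (0 : ℝ)..1, g (x * s) := by
  rw [intervalIntegral.integral_comp_mul_left g hx.ne']
  simp [hx.ne']

theorem Fp_eq {i : ℕ} (hi : 0 < i) (z : ℝ) :
    Fp i z = i / 10 * ∫ s in (0 : ℝ)..1, pp s * Real.exp (-z * (i / 10) * s) := by
  have hx : (0 : ℝ) < i / 10 := by positivity
  rw [Fp, Lr, scale _ hx]
  congr 1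
  refine intervalIntegral.integral_congr fun s _ => ?_
  simp only [par, pp, mul_div_cancel_left₀ _ hx.ne', mul_assoc]

def FL (i : ℕ) (z : ℚ) : ℚ := i / 10 * GLo nP dP nQ dQ (-z * (i / 10))
def FU (i : ℕ) (z : ℚ) : ℚ := i / 10 * GUp nP dP nQ dQ (-z * (i / 10))

theorem dP_pos (k : ℕ) : 0 < dP k := by simp only [dP, Nat.mul_eq, Nat.add_eq]; positivity

theorem F_encl {i : ℕ} (hi : 0 < i) (z : ℚ) : (FL i z : ℝ) ≤ Fp i z ∧ Fp i z ≤ FU i z := by
  obtain ⟨a, b⟩ := encl2 pp nP dP nQ dQ pp_cont pp0 pp1 dP_pos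
    (fun k => by simp only [dQ, Nat.mul_eq, Nat.add_eq]; positivity) momP momQ (-z * (i / 10))
  have hx : (0 : ℝ) ≤ i / 10 := by positivity
  rw [Fp_eq hi, FL, FU]
  push_cast at a b ⊢
  exact ⟨mul_le_mul_of_nonneg_left a hx, mul_le_mul_of_nonneg_left b hx⟩

def TL (z : ℚ) : ℚ := 49 / 25 * GLo one dT one dR (-z * (7 / 5))
def TU (z : ℚ) : ℚ := 49 / 25 * GUp one dT one dR (-z * (7 / 5))

theorem T_encl (z : ℚ) : (TL z : ℝ) ≤ Ft z ∧ Ft z ≤ TU z := by
  obtain ⟨a, b⟩ := encl2 (fun s => 1 - s) one dT one dR (by fun_prop) (fun s _ _ => by linarith)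
    (fun s _ _ => by linarith) (fun k => by simp only [dT, Nat.mul_eq, Nat.add_eq]; positivity)
    (fun k => by simp only [dR, Nat.add_eq]; positivity) momT momR (-z * (7 / 5))
  have e : Ft z = 49 / 25 * ∫ s in (0 : ℝ)..1, (1 - s) * Real.exp (-z * (7 / 5) * s) := by
    rw [Ft, Lr, scale _ (by norm_num : (0 : ℝ) < 7 / 5), ← intervalIntegral.integral_const_mul,
      ← intervalIntegral.integral_const_mul]
    refine intervalIntegral.integral_congr fun s _ => ?_
    simp only [tri, mul_assoc]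
    ring
  rw [e, TL, TU]
  push_cast at a b ⊢
  constructor <;> linarith

theorem Ft_anti : Antitone Ft := fun a b h => by
  rw [Ft, Ft, Lr, Lr]
  unfold tri
  refine intervalIntegral.integral_mono_on (by norm_num)
    ((by fun_prop : Continuous _).intervalIntegrable _ _)
    ((by fun_prop : Continuous _).intervalIntegrable _ _) fun t ht => ?_
  exact mul_le_mul_of_nonneg_left (Real.exp_le_exp.2 (by nlinarith [ht.1])) (by linarith [ht.2])

theorem Fp_anti {i : ℕ} (hi : 0 < i) : Antitone (Fp i) := fun a b h => by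
  have hx : (0 : ℝ) ≤ i / 10 := by positivity
  have := pp_cont
  rw [Fp_eq hi, Fp_eq hi]
  refine mul_le_mul_of_nonneg_left (intervalIntegral.integral_mono_on zero_le_one
    ((by fun_prop : Continuous _).intervalIntegrable _ _)
    ((by fun_prop : Continuous _).intervalIntegrable _ _) fun t ht => ?_) hx
  exact mul_le_mul_of_nonneg_left (Real.exp_le_exp.2 (by nlinarith [mul_nonneg hx ht.1]))
    (pp0 t ht.1 ht.2)

theorem Fp_sub {i : ℕ} (hi : 0 < i) (a b : ℝ) : Fp i (-a) - Fp i (b - a) = i / 10 *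
    ∫ s in (0 : ℝ)..1, pp s * (Real.exp (a * (i / 10 * s)) * (1 - Real.exp (-b * (i / 10 * s)))) := by
  have := pp_cont
  rw [Fp_eq hi, Fp_eq hi, ← mul_sub, ← intervalIntegral.integral_sub
    ((by fun_prop : Continuous _).intervalIntegrable _ _)
    ((by fun_prop : Continuous _).intervalIntegrable _ _)]
  congr 1
  refine intervalIntegral.integral_congr fun s _ => ?_
  simp only [mul_sub, mul_one, ← Real.exp_add]
  ring_nf

/-- the difference is monotone in both variables -/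
theorem Fp_mono {i : ℕ} (hi : 0 < i) {a a' b b' : ℝ} (ha : a ≤ a') (h0 : 0 ≤ b) (hb : b ≤ b') :
    Fp i (-a) - Fp i (b - a) ≤ Fp i (-a') - Fp i (b' - a') := by
  have hx : (0 : ℝ) ≤ i / 10 := by positivity
  have := pp_cont
  rw [Fp_sub hi, Fp_sub hi]
  refine mul_le_mul_of_nonneg_left (intervalIntegral.integral_mono_on zero_le_one
    ((by fun_prop : Continuous _).intervalIntegrable _ _)
    ((by fun_prop : Continuous _).intervalIntegrable _ _) fun t ht => ?_) hx
  have h1 := mul_nonneg hx ht.1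
  refine mul_le_mul_of_nonneg_left (mul_le_mul (Real.exp_le_exp.2 (by nlinarith)) ?_ ?_
    (Real.exp_pos _).le) (pp0 t ht.1 ht.2)
  · linarith [Real.exp_le_exp.2 (show -b' * (i / 10 * t) ≤ -b * (i / 10 * t) by nlinarith)]
  · linarith [Real.exp_le_one_iff.2 (show -b * (i / 10 * t) ≤ 0 by nlinarith)]

def DU (i : ℕ) (s : ℚ) : ℚ := (i / 10) ^ 2 * sU nP dD (s * (i / 10))

/-- the difference is at most linear in the small variable -/
theorem Fp_lin {i : ℕ} (hi : 0 < i) {s : ℚ} {a b : ℝ} (hs : 0 ≤ s) (ha : (s : ℝ) ≤ a) (h0 : 0 ≤ b) :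
    Fp i (-a) - Fp i (b - a) ≤ b * DU i s * Real.exp (i / 10 * (a - s)) := by
  have hx : (0 : ℝ) ≤ i / 10 := by positivity
  have := pp_cont
  have h1 := (encl (fun t => pp t * t) nP dD (by fun_prop) (fun t a b => mul_nonneg (pp0 t a b) a)
    (fun t a b => mul_le_one₀ (pp1 t a b) a b) (fun k => dP_pos _) momD
    (y := s * (i / 10)) (by positivity)).2
  rw [Fp_sub hi, DU]
  push_cast at h1 ⊢
  have h2 : ∫ t in (0 : ℝ)..1, pp t * (Real.exp (a * (i / 10 * t)) *
      (1 - Real.exp (-b * (i / 10 * t)))) ≤ ∫ t in (0 : ℝ)..1, b * (i / 10) *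
      Real.exp (i / 10 * (a - s)) * (pp t * t * Real.exp (s * (i / 10) * t)) := by
    refine intervalIntegral.integral_mono_on zero_le_one
      ((by fun_prop : Continuous _).intervalIntegrable _ _)
      ((by fun_prop : Continuous _).intervalIntegrable _ _) fun t ht => ?_
    have h3 : Real.exp (a * (i / 10 * t)) ≤
        Real.exp (i / 10 * (a - s)) * Real.exp (s * (i / 10) * t) := by
      rw [← Real.exp_add]
      refine Real.exp_le_exp.2 ?_
      nlinarith [mul_nonneg (mul_nonneg hx (sub_nonneg.2 ha)) (sub_nonneg.2 ht.2)]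
    have h4 : 1 - Real.exp (-b * (i / 10 * t)) ≤ b * (i / 10 * t) := by
      linarith [Real.add_one_le_exp (-b * (i / 10 * t))]
    have h5 : 0 ≤ b * (i / 10 * t) := mul_nonneg h0 (mul_nonneg hx ht.1)
    have h6 := mul_le_mul_of_nonneg_left
      ((mul_le_mul_of_nonneg_left h4 (Real.exp_pos (a * (i / 10 * t))).le).trans
        (mul_le_mul_of_nonneg_right h3 h5)) (pp0 t ht.1 ht.2)
    refine h6.trans (le_of_eq ?_)
    ring
  rw [intervalIntegral.integral_const_mul] at h2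
  have h3 := mul_le_mul_of_nonneg_left (h2.trans (mul_le_mul_of_nonneg_left h1 (by positivity))) hx
  refine h3.trans (le_of_eq ?_)
  ring

end Pool.Agent.MP_c5bf7b_nt.H38.Num
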