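import Pool.Agent.MP_c5bf7b_nt.H38.Num1

/-! The weights and the pointwise certificate. -/

set_option autoImplicit false

namespace Pool.Agent.MP_c5bf7b_nt.H38.Num

open Finset

def eq0 : ℚ := mkRat 1 100000
def cq0 : ℚ := mkRat 1 1000
def fq0 : ℚ := mkRat 2501 10000

theorem eq0_cast : (eq0 : ℝ) = e0 := by rw [eq0, e0, Rat.mkRat_eq_div]; push_cast; rfl
theorem cq0_cast : (cq0 : ℝ) = c0 := by rw [cq0, c0, Rat.mkRat_eq_div]; push_cast; rfl
theorem fq0_cast : (fq0 : ℝ) = f0 := by rw [fq0, f0, Rat.mkRat_eq_div]; push_cast; rfl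

def BU (k : ℕ) : ℚ :=
  if k = 0 then 2 else 60 / k - 800 / k ^ 2 + expU (-(k / 20)) * (800 - 20 * k) / k ^ 2

theorem le_BU {k : ℕ} (hk : k ≤ 30) : Bk (k / 10) ≤ BU k := by
  rw [BU, Bk]
  rcases Nat.eq_zero_or_pos k with rfl | h
  · simp
  have h0 : (0 : ℝ) < k := by exact_mod_cast h
  have h1 : (k : ℝ) ≤ 30 := by exact_mod_cast hk
  rw [if_neg (by positivity), if_neg h.ne']
  have h2 := le_expU (-(k / 20))
  push_cast at h2 ⊢
  have e : -((k : ℝ) / 10) / 2 = -(k / 20) := by ring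
  rw [e]
  have h3 : Real.exp (-(k / 20)) * (800 - 20 * k) / k ^ 2 ≤
      (expU (-(k / 20)) : ℝ) * (800 - 20 * k) / k ^ 2 := by
    have : (0 : ℝ) ≤ 800 - 20 * k := by linarith
    gcongr
  refine le_trans (le_of_eq ?_) (add_le_add_right h3 _)
  field_simp
  ring

def tab : List ℕ := [2000010, 1958962, 1919120, 1880444, 1842894, 1806432, 1771021, 1736626, 1703211,
  1670745, 1639194, 1608530, 1578722, 1549743, 1521563, 1494158, 1467502, 1441571,
  1416340, 1391787, 1367890, 1344628, 1321981, 1299928, 1278452, 1257533, 1237154,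
  1217298, 1197948, 1179090, 1160706]

def BT (k : ℕ) : ℚ := mkRat (tab.getD k 0) 1000000

theorem BT_ok : ∀ k ≤ 30, ∀ m ≤ k, BU k + eq0 ≤ BT m := by
  have h1 : ∀ k ≤ 30, BU k + eq0 ≤ BT k := by decide +kernel
  have h2 : ∀ k ≤ 30, ∀ m ≤ k, BT k ≤ BT m := by decide +kernel
  exact fun k hk m hm => (h1 k hk).trans (h2 k hk m hm)

def kk (g : ℚ) : ℕ := min (Nat.div (Nat.mul 10 g.num.toNat) g.den) 30

theorem B_le {g : ℚ} {l : ℝ} (h : (g : ℝ) ≤ l) :
    Bk ((min ⌊10 * l⌋₊ 30 : ℕ) / 10) + e0 ≤ BT (kk g) := by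
  have h1 : kk g ≤ min ⌊10 * l⌋₊ 30 := by
    refine min_le_min_right _ ?_
    rcases le_or_gt 0 g with h0 | h0
    · refine Nat.le_floor ((div_le _ _).trans ?_)
      rw [Nat.mul_eq, Nat.cast_mul, mul_div_assoc, ← cast_eq h0]
      push_cast
      linarith
    · have : g.num.toNat = 0 := Int.toNat_eq_zero.2 (Rat.num_nonpos.2 h0.le)
      rw [this]
      exact (Nat.zero_div _).trans_le (Nat.zero_le _)
  have h2 : ((BU (min ⌊10 * l⌋₊ 30) + eq0 : ℚ) : ℝ) ≤ BT (kk g) := by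
    exact_mod_cast BT_ok _ (min_le_right _ _) _ h1
  have h3 := le_BU (min_le_right ⌊10 * l⌋₊ 30)
  rw [Rat.cast_add, eq0_cast] at h2
  linarith

theorem BT_nonneg (k : ℕ) : (0 : ℝ) ≤ BT k := by
  rw [BT, Rat.mkRat_eq_div]
  positivity

theorem wt_le' (E : ℝ) {g : ℚ} {l : ℝ} (h : (g : ℝ) ≤ l) :
    wt E l ≤ Real.exp (-E * l) * BT (kk g) :=
  mul_le_mul_of_nonneg_left (B_le h) (Real.exp_pos _).le

theorem exp_le_U {E g : ℚ} {l : ℝ} (hE : 0 ≤ E) (h : (g : ℝ) ≤ l) :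
    Real.exp (-E * l) ≤ expU (-E * g) := by
  have h0 : (0 : ℝ) ≤ E := by exact_mod_cast hE
  refine le_trans (Real.exp_le_exp.2 ?_) (le_expU _)
  push_cast
  nlinarith

theorem wt_le {E g : ℚ} {l : ℝ} (hE : 0 ≤ E) (h : (g : ℝ) ≤ l) :
    wt E l ≤ (expU (-E * g) * BT (kk g) : ℚ) := by
  rw [Rat.cast_mul]
  exact (wt_le' E h).trans (mul_le_mul_of_nonneg_right (exp_le_U hE h) (BT_nonneg _))

theorem II_eq (u x : ℝ) {α : ℝ} (h : α ≠ 0) : II u x α = ∫ t in u..x, Real.exp (α * t) := by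
  rw [intervalIntegral.integral_comp_mul_left (fun t => Real.exp t) h, integral_exp, II,
    smul_eq_mul, div_eq_inv_mul]

theorem II_pos {u x α : ℝ} (hu : u < x) (h : 0 < α) : 0 < II u x α :=
  div_pos (sub_pos.2 (Real.exp_lt_exp.2 (mul_lt_mul_of_pos_left hu h))) h

theorem II_le {u x α β : ℝ} (t₀ : ℝ) (hu : u ≤ x) (ha : 0 < α) (hb : 0 < β)
    (h : ∀ t, u ≤ t → t ≤ x → (α - β) * t ≤ t₀) : II u x α ≤ Real.exp t₀ * II u x β := by
  rw [II_eq u x ha.ne', II_eq u x hb.ne', ← intervalIntegral.integral_const_mul]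
  refine intervalIntegral.integral_mono_on hu
    ((by fun_prop : Continuous _).intervalIntegrable _ _)
    ((by fun_prop : Continuous _).intervalIntegrable _ _) fun t ht => ?_
  rw [← Real.exp_add]
  exact Real.exp_le_exp.2 (by linarith [h t ht.1 ht.2])

def uq (i : ℕ) : ℚ := fq0 + i / 100
def xq (i j : ℕ) : ℚ := 2 * fq0 + 3 * i / 200 + j / 100

theorem uq_cast (i : ℕ) : (uq i : ℝ) = f0 + 2 * (i / 200) := by
  rw [uq]; push_cast; rw [fq0_cast]; ring

theorem xq_cast (i j : ℕ) : (xq i j : ℝ) = 2 * f0 + 3 * (i / 200) + j / 100 := by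
  rw [xq]; push_cast; rw [fq0_cast]; ring

theorem uq_pos (i : ℕ) : (0 : ℝ) < uq i := by rw [uq_cast, f0]; positivity

theorem uq_lt (i j : ℕ) : (uq i : ℝ) < xq i j := by
  rw [uq_cast, xq_cast, f0]
  have : (0 : ℝ) ≤ i / 200 := by positivity
  have : (0 : ℝ) ≤ j / 100 := by positivity
  linarith

theorem c1_eq (i j : ℕ) (θ l : ℝ) :
    c1 f0 (i / 200) (j / 100) θ l = 1 / II (uq i) (xq i j) (2 * l + θ) := by
  rw [uq_cast, xq_cast, c1]

def IU (i j k : ℕ) (g : ℚ) : ℚ :=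
  (expU ((2 * g + k / 2) * xq i j) - expL ((2 * g + k / 2) * uq i)) / (2 * g + k / 2)

theorem le_IU (i j k : ℕ) {g : ℚ} (h : (0 : ℝ) < 2 * g + k / 2) :
    II (uq i) (xq i j) (2 * g + k / 2) ≤ IU i j k g := by
  have h1 := le_expU ((2 * g + k / 2) * xq i j)
  have h2 := expL_le ((2 * g + k / 2) * uq i)
  rw [IU, II]
  push_cast at h1 h2 ⊢
  gcongr

theorem c1_ge (i j : ℕ) {k : ℕ} (hk : 1 ≤ k) {g : ℚ} {l : ℝ} (h0 : 0 ≤ l) (h : l ≤ g) :
    ((1 / IU i j k g : ℚ) : ℝ) ≤ c1 f0 (i / 200) (j / 100) (k / 2) l := by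
  have hk' : (1 : ℝ) ≤ k := by exact_mod_cast hk
  have h1 := II_le (α := 2 * l + k / 2) (β := 2 * g + k / 2) 0 (uq_lt i j).le (by linarith)
    (by linarith) fun t ht _ => by nlinarith [uq_pos i]
  rw [Real.exp_zero, one_mul] at h1
  rw [c1_eq]
  push_cast
  exact one_div_le_one_div_of_le (II_pos (uq_lt i j) (by linarith))
    (h1.trans (le_IU i j k (by linarith)))

/-- beyond `g` the first density estimate dominates -/
theorem tail_le (i j : ℕ) {k : ℕ} (hk : 1 ≤ k) {E g : ℚ} {l : ℝ} (h0 : 0 ≤ g) (h : (g : ℝ) ≤ l) :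
    Real.exp (-E * l) ≤ (expU (-E * g) * IU i j k g : ℚ) *
      Real.exp (-(E - 2 * xq i j) * (l - g)) * c1 f0 (i / 200) (j / 100) (k / 2) l := by
  have hk' : (1 : ℝ) ≤ k := by exact_mod_cast hk
  have h0' : (0 : ℝ) ≤ g := by exact_mod_cast h0
  have h1 := II_le (α := 2 * l + k / 2) (β := 2 * g + k / 2) (2 * xq i j * (l - g)) (uq_lt i j).le
    (by linarith) (by linarith) fun t _ ht => by nlinarith
  have h2 := le_IU i j k (g := g) (by linarith)
  have h3 := le_expU (-E * g)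
  have h4 := II_pos (uq_lt i j) (α := 2 * l + k / 2) (by linarith)
  have h5 := II_pos (uq_lt i j) (α := 2 * g + k / 2) (by linarith)
  rw [c1_eq, mul_one_div, le_div_iff₀ h4]
  push_cast at h3 ⊢
  calc _ ≤ Real.exp (-E * l) * (Real.exp (2 * xq i j * (l - g)) * II (uq i) (xq i j) (2 * g + k / 2)) := by
        gcongr
    _ = Real.exp (-E * g) * II (uq i) (xq i j) (2 * g + k / 2) *
        Real.exp (-(E - 2 * xq i j) * (l - g)) := by
        rw [← mul_assoc, mul_right_comm (Real.exp (-E * g)), ← Real.exp_add, ← Real.exp_add]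
        ring_nf
    _ ≤ _ := by gcongr; exact (Real.exp_pos _).le.trans h3

def SU (i j k : ℕ) : ℚ :=
  expU (-(k / 2) * uq i) * (1 - expL (-(k / 2) * (j / 100))) / ((k / 2 * (j / 100)) ^ 2 * (i / 200))

theorem le_SU (i j k : ℕ) : S1 f0 (i / 200) (j / 100) (k / 2) ≤ SU i j k := by
  have h1 := le_expU (-(k / 2) * uq i)
  have h2 := expL_le (-(k / 2) * (j / 100))
  rw [SU, S1, ← uq_cast]
  push_cast at h1 h2 ⊢
  have h3 : Real.exp (-(k / 2) * (j / 100)) ≤ 1 :=
    Real.exp_le_one_iff.2 (by rw [neg_mul, neg_nonpos]; positivity)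
  gcongr
  exact (Real.exp_pos _).le.trans h1

/-- one constraint with its multiplier -/
inductive Con
  | d1 (i j k : ℕ) (y : ℚ)
  | d2 (i : ℕ) (th y bb cut : ℚ)

noncomputable def val (lam : ℝ) (l : ℝ) : Con → ℝ
  | .d1 i j k y => y * c1 f0 (i / 200) (j / 100) (k / 2) l
  | .d2 i _ y bb _ => y * max 0 (Fp i (l - lam) - bb)

def valL (lam g : ℚ) : Con → ℚ
  | .d1 i j k y => y / IU i j k g
  | .d2 i _ y bb cut => if g ≤ cut then y * (FL i (g - lam) - bb) else 0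

def ok (lam : ℚ) : Con → Bool
  | .d1 i j k y => decide (8 ≤ i ∧ i ≤ 24 ∧ 10 ≤ j ∧ j ≤ 40 ∧ 1 ≤ k ∧ k ≤ 12 ∧ 0 ≤ y)
  | .d2 i th y bb _ => decide (8 ≤ i ∧ i ≤ 35 ∧ 0 < th ∧ 0 ≤ y ∧
      1 / 8 + eq0 + th * (FU i (-lam) + eq0) / 2 + (1 / 8 + eq0) / (2 * th) ≤ bb)

theorem valL_le {lam g : ℚ} {l : ℝ} (h0 : 0 ≤ l) (h : l ≤ g) {c : Con} (hc : ok lam c = true) :
    (valL lam g c : ℝ) ≤ val lam l c := by
  cases c with
  | d1 i j k y =>
    obtain ⟨-, -, -, -, hk, -, hy⟩ := of_decide_eq_true hc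
    have h1 := c1_ge i j hk h0 h
    rw [valL, val, div_eq_mul_one_div, Rat.cast_mul]
    exact mul_le_mul_of_nonneg_left h1 (by exact_mod_cast hy)
  | d2 i th y bb cut =>
    obtain ⟨hi, -, -, hy, -⟩ := of_decide_eq_true hc
    have hy' : (0 : ℝ) ≤ y := by exact_mod_cast hy
    rw [valL, val]
    split_ifs
    · have h1 := (F_encl (i := i) (by omega) (g - lam)).1
      have h2 := Fp_anti (i := i) (by omega) (show l - lam ≤ g - lam by linarith)
      push_cast at h1 ⊢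
      exact mul_le_mul_of_nonneg_left (le_max_of_le_right (by linarith)) hy'
    · rw [Rat.cast_zero]
      positivity

theorem val_nonneg {lam : ℚ} {l : ℝ} (h0 : 0 ≤ l) {c : Con} (hc : ok lam c = true) :
    0 ≤ val lam l c := by
  cases c with
  | d1 i j k y =>
    obtain ⟨-, -, -, -, hk, -, hy⟩ := of_decide_eq_true hc
    have hk' : (1 : ℝ) ≤ k := by exact_mod_cast hk
    rw [val, c1_eq]
    exact mul_nonneg (by exact_mod_cast hy) (one_div_pos.2 (II_pos (uq_lt i j) (by linarith))).le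
  | d2 i th y bb cut =>
    obtain ⟨-, -, -, hy, -⟩ := of_decide_eq_true hc
    exact mul_nonneg (by exact_mod_cast hy) (le_max_left _ _)

theorem sum_cast_le {α : Type} (L : List α) (f : α → ℚ) (g : α → ℝ) (h : ∀ c ∈ L, (f c : ℝ) ≤ g c) :
    (((L.map f).sum : ℚ) : ℝ) ≤ (L.map g).sum := by
  rw [Rat.cast_list_sum, List.map_map]
  exact List.sum_le_sum h

def tailOk (E g : ℚ) : List Con → Bool
  | .d1 i j k y :: _ => decide (0 ≤ g ∧ 2 * xq i j ≤ E ∧ expU (-E * g) * IU i j k g * BT (kk g) ≤ y)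
  | _ => false

def chain (E lam : ℚ) (L : List Con) : ℚ → List ℚ → Bool
  | g, [] => tailOk E g L
  | g, g' :: r => decide (expU (-E * g) * BT (kk g) ≤ (L.map (valL lam g')).sum) && chain E lam L g' r

theorem chain_le {E lam : ℚ} {L : List Con} (hE : 0 ≤ E) (hL : L.all (ok lam) = true) {l : ℝ}
    (h0 : 0 ≤ l) (r : List ℚ) (g : ℚ) (h : chain E lam L g r = true) (hg : (g : ℝ) ≤ l) :
    wt E l ≤ (L.map (val lam l)).sum := by
  rw [List.all_eq_true] at hL
  induction r generalizing g with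
  | nil =>
    rcases L with _ | ⟨⟨i, j, k, y⟩ | _, L⟩
    · simp [chain, tailOk] at h
    · obtain ⟨h1, h2, h3⟩ := of_decide_eq_true h
      obtain ⟨-, -, -, -, hk, -, -⟩ := of_decide_eq_true (hL _ List.mem_cons_self)
      have hk' : (1 : ℝ) ≤ k := by exact_mod_cast hk
      have h4 := tail_le i j hk (E := E) h1 hg
      have h2' : 2 * (xq i j : ℝ) ≤ E := by exact_mod_cast h2
      have h3' : ((expU (-E * g) * IU i j k g : ℚ) : ℝ) * BT (kk g) ≤ y := by exact_mod_cast h3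
      have h5 : Real.exp (-(E - 2 * xq i j) * (l - g)) ≤ 1 := Real.exp_le_one_iff.2 (by nlinarith)
      have h6 : 0 < c1 f0 (i / 200) (j / 100) (k / 2) l := by
        rw [c1_eq]; exact one_div_pos.2 (II_pos (uq_lt i j) (by linarith))
      have h7 : (0 : ℝ) ≤ (expU (-E * g) * IU i j k g : ℚ) := by
        have := (Real.exp_pos _).trans_le h4
        exact (pos_of_mul_pos_left (pos_of_mul_pos_left this h6.le) (Real.exp_pos _).le).le
      have h8 : 0 ≤ (L.map (val lam l)).sum := List.sum_nonneg fun a ha => by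
        obtain ⟨c, hc, rfl⟩ := List.mem_map.1 ha
        exact val_nonneg h0 (hL c (List.mem_cons_of_mem _ hc))
      rw [List.map_cons, List.sum_cons, val]
      have h9 := BT_nonneg (kk g)
      calc wt E l ≤ _ := wt_le' E hg
        _ ≤ (expU (-E * g) * IU i j k g : ℚ) * 1 * c1 f0 (i / 200) (j / 100) (k / 2) l *
          BT (kk g) := by gcongr; exact h4.trans (by gcongr)
        _ ≤ _ := by nlinarith
    · simp [chain, tailOk] at h
  | cons g' r ih =>
    rw [chain, Bool.and_eq_true] at h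
    rcases le_total l g' with h1 | h1
    · refine (wt_le hE hg).trans (le_trans ?_ (sum_cast_le L _ _ fun c hc => valL_le h0 h1 (hL c hc)))
      exact_mod_cast of_decide_eq_true h.1
    · exact ih g' h.2 h1

end Pool.Agent.MP_c5bf7b_nt.H38.Num
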