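import Pool.Agent.MP_c5bf7b_nt.H38.Num2

/-! Certificates for the numerical statements. -/

set_option autoImplicit false

namespace Pool.Agent.MP_c5bf7b_nt.H38.Num

open Finset

def top (lam : ℚ) (nE : ℕ) (ce : ℕ → ℚ) : Con → ℚ
  | .d1 i j k y => y * (SU i j k + eq0)
  | .d2 i th y _ _ => y * max 0 ((FU i (-lam) - 1 / 8 + nE * ce i) / (2 * th))

noncomputable def sub (lam : ℝ) (ex : ℕ) (ce : ℕ → ℚ) (l : ℝ) : Con → ℝ
  | .d1 i j k y => y * c1 f0 (i / 200) (j / 100) (k / 2) l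
  | .d2 i _ y bb _ => y * max 0 (Fp i (l - lam) - ce i * ex - bb)

def subL (lam : ℚ) (ex : ℕ) (ce : ℕ → ℚ) (g : ℚ) : Con → ℚ
  | .d1 i j k y => y / IU i j k g
  | .d2 i _ y bb _ => y * (FL i (g - lam) - ce i * ex - bb)

theorem subL_le {lam g : ℚ} (ex : ℕ) (ce : ℕ → ℚ) {l : ℝ} (h0 : 0 ≤ l) (h : l ≤ g) {c : Con}
    (hc : ok lam c = true) : ((max 0 (subL lam ex ce g c) : ℚ) : ℝ) ≤ sub lam ex ce l c := by
  rw [Rat.cast_max, Rat.cast_zero]
  cases c with
  | d1 i j k y => exact max_le (val_nonneg h0 hc) (valL_le h0 h hc)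
  | d2 i th y bb cut =>
    obtain ⟨hi, -, -, hy, -⟩ := of_decide_eq_true hc
    have hy' : (0 : ℝ) ≤ y := by exact_mod_cast hy
    have h1 := (F_encl (i := i) (by omega) (g - lam)).1
    have h2 := Fp_anti (i := i) (by omega) (show l - lam ≤ g - lam by linarith)
    rw [subL, sub]
    push_cast at h1 ⊢
    exact max_le (by positivity) (mul_le_mul_of_nonneg_left (le_max_of_le_right (by linarith)) hy')

variable {nm nE ex : ℕ} {l₁ l₂ : ℝ} {J : Multiset ℝ}

theorem core (H : Cfg nm nE ex l₁ l₂ J) {lam : ℚ} {ce : ℕ → ℚ} (h0 : 0 ≤ lam)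
    (h1 : lam + c0 ≤ l₂) (hce : ∀ i, 0 < i → 0 ≤ ce i ∧ Fp i (l₁ - lam) - Fp i 0 ≤ ce i) {c : Con}
    (hc : ok lam c = true) :
    (J.map fun l => val lam l c).sum + nm * sub lam ex ce l₁ c ≤ top lam nE ce c := by
  cases c with
  | d1 i j k y =>
    obtain ⟨a1, a2, a3, a4, a5, a6, hy⟩ := of_decide_eq_true hc
    have hy' : (0 : ℝ) ≤ y := by exact_mod_cast hy
    have h2 := H.d1 i (mem_Icc.2 ⟨a1, a2⟩) j (mem_Icc.2 ⟨a3, a4⟩) k (mem_Icc.2 ⟨a5, a6⟩)
    have h3 := le_SU i j k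
    simp only [val, sub, top, Multiset.sum_map_mul_left]
    push_cast
    rw [eq0_cast]
    nlinarith
  | d2 i th y bb cut =>
    obtain ⟨a1, a2, a3, hy, a4⟩ := of_decide_eq_true hc
    have hy' : (0 : ℝ) ≤ y := by exact_mod_cast hy
    have a3' : (0 : ℝ) < th := by exact_mod_cast a3
    have a4' := (Rat.cast_le (K := ℝ)).2 a4
    have h3 := (F_encl (i := i) (by omega) (-lam)).2
    push_cast at a4' h3
    rw [eq0_cast] at a4'
    obtain ⟨b1, b2⟩ := hce i (by omega)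
    have h2 := H.d2 i (mem_Icc.2 ⟨a1, a2⟩) th lam (ce i) bb a3' (by exact_mod_cast h0) h1
      (by exact_mod_cast b1) b2 (by nlinarith)
    have h4 : (Fp i (-lam) - 1 / 8 + nE * ce i) / (2 * th) ≤
        (FU i (-lam) - 1 / 8 + nE * ce i) / (2 * th) := by gcongr
    have h5 := mul_le_mul_of_nonneg_left (h2.trans (max_le_max_left 0 h4)) hy'
    simp only [val, sub, top, Multiset.sum_map_mul_left]
    push_cast
    linarith

theorem swap {α : Type} (L : List α) (f : ℝ → α → ℝ) (J : Multiset ℝ) :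
    (J.map fun l => (L.map (f l)).sum).sum = (L.map fun c => (J.map fun l => f l c).sum).sum := by
  induction L with
  | nil => simp
  | cons c L ih => simp [Multiset.sum_map_add, ih]

def ceq (lam a : ℚ) (i : ℕ) : ℚ := max 0 (FU i (a - lam) - FL i 0)

def restOk (E s : ℚ) (L : List Con) (r : List ℚ) : Bool :=
  decide (0 ≤ E ∧ cq0 ≤ s) && L.all (ok (s - cq0)) && chain E (s - cq0) L s r

def restQ (nm nE ex : ℕ) (a b s : ℚ) (L : List Con) : ℚ :=
  (L.map fun c => top (s - cq0) nE (ceq (s - cq0) a) c -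
    nm * max 0 (subL (s - cq0) ex (ceq (s - cq0) a) b c)).sum

theorem sum_le_cast {α : Type} (L : List α) (f : α → ℚ) (g : α → ℝ) (h : ∀ c ∈ L, g c ≤ f c) :
    (L.map g).sum ≤ (((L.map f).sum : ℚ) : ℝ) := by
  rw [Rat.cast_list_sum, List.map_map]
  exact List.sum_le_sum h

theorem pt {E s : ℚ} {L : List Con} {r : List ℚ} (h : restOk E s L r = true) :
    0 ≤ s - cq0 ∧ (∀ c ∈ L, ok (s - cq0) c = true) ∧
      ∀ l : ℝ, 0 ≤ l → s ≤ l → wt E l ≤ (L.map (val (s - cq0 : ℚ) l)).sum := by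
  simp only [restOk, Bool.and_eq_true] at h
  obtain ⟨⟨h1, h2⟩, h3⟩ := h
  obtain ⟨h4, h5⟩ := of_decide_eq_true h1
  exact ⟨by linarith, List.all_eq_true.1 h2, fun l h0 hl => chain_le h4 h2 h0 r s h3 hl⟩

theorem restI (H : Cfg nm nE ex l₁ l₂ J) {E a b s : ℚ} {L : List Con} {r : List ℚ}
    (h : restOk E s L r = true) (ha : (a : ℝ) ≤ l₁) (hb : l₁ ≤ b) (hs : (s : ℝ) ≤ l₂) :
    (J.map (wt E)).sum ≤ restQ nm nE ex a b s L := by
  obtain ⟨h1, h2, h3⟩ := pt h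
  refine (Multiset.sum_map_le_sum_map _ _ fun l hl => h3 l
    (H.pos.le.trans (H.l12.trans (H.mem l hl))) (hs.trans (H.mem l hl))).trans ?_
  rw [swap]
  refine sum_le_cast _ _ _ fun c hc => ?_
  have h4 := core H (ce := ceq (s - cq0) a) h1 (by push_cast; rw [cq0_cast]; linarith)
    (fun i hi => ⟨le_max_left _ _, by
      have b1 := (F_encl hi (a - (s - cq0))).2
      have b2 := (F_encl hi 0).1
      have b3 := Fp_anti hi (show a - ((s - cq0 : ℚ) : ℝ) ≤ l₁ - (s - cq0 : ℚ) by linarith)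
      rw [ceq]
      push_cast at b1 b2 b3 ⊢
      exact le_max_of_le_right (by linarith)⟩) (h2 c hc)
  have h5 := mul_le_mul_of_nonneg_left (subL_le ex (ceq (s - cq0) a) H.pos.le hb (h2 c hc))
    (Nat.cast_nonneg nm)
  rw [Rat.cast_sub (top _ _ _ _), Rat.cast_mul, Rat.cast_natCast]
  linarith

def chkG (E g : ℚ) (L : List Con) (r : List ℚ) (B : ℚ) : Bool :=
  restOk E g L r && decide ((L.map (top (g - cq0) 0 fun _ => 0)).sum ≤ B)

theorem restG (H : Cfg nm nE ex l₁ l₂ J) {E g B : ℚ} {L : List Con} {r : List ℚ}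
    (h : chkG E g L r B = true) (hg : (g : ℝ) ≤ l₁) : (J.map (wt E)).sum + nm * wt E l₁ ≤ B := by
  rw [chkG, Bool.and_eq_true] at h
  obtain ⟨h1, h2, h3⟩ := pt h.1
  have h4 := (Rat.cast_le (K := ℝ)).2 (of_decide_eq_true h.2)
  have h5 := Multiset.sum_map_le_sum_map (s := J) _ _ fun l hl => h3 l
    (H.pos.le.trans (H.l12.trans (H.mem l hl))) (hg.trans (H.l12.trans (H.mem l hl)))
  have h6 := mul_le_mul_of_nonneg_left (h3 l₁ H.pos.le hg) (Nat.cast_nonneg nm)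
  rw [swap] at h5
  rw [← List.sum_map_mul_left] at h6
  refine (add_le_add h5 h6).trans (le_trans ?_ h4)
  rw [← List.sum_map_add]
  refine sum_le_cast _ _ _ fun c hc => ?_
  have h7 := core H (ce := fun _ => 0) h1 (by push_cast; rw [cq0_cast]; linarith [H.l12])
    (fun i hi => ⟨le_rfl, by
      have h8 : (0 : ℝ) ≤ c0 := by norm_num [c0]
      have := Fp_anti hi (show 0 ≤ l₁ - ((g - cq0 : ℚ) : ℝ) by push_cast; rw [cq0_cast]; linarith)
      rw [Rat.cast_zero]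
      linarith⟩) (h2 c hc)
  cases c <;> simpa [sub, top, val] using h7

theorem h_le {a l : ℝ} (ha : a ≤ l) (h0 : 0 < l) (h4 : l ≤ 4) :
    (4 * (1 - Real.exp (-l / 4)) / l) ^ 2 ≤ (1 - a / 8 + a ^ 2 / 72) ^ 2 := by
  have h1 := Real.exp_bound (x := -l / 4) (n := 3) (by rw [abs_le]; constructor <;> linarith)
    (by norm_num)
  have h2 : |-l / 4| = l / 4 := by rw [neg_div, abs_neg, abs_of_pos (by linarith)]
  simp only [h2, sum_range_succ, range_zero, sum_empty, Nat.factorial] at h1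
  have h3 := (abs_le.1 h1).1
  have h5 : Real.exp (-l / 4) ≤ 1 := Real.exp_le_one_iff.2 (by linarith)
  refine pow_le_pow_left₀ (div_nonneg (by linarith) h0.le) ?_ 2
  rw [div_le_iff₀ h0]
  norm_num at h3
  nlinarith [mul_nonneg (mul_nonneg h0.le (sub_nonneg.2 ha)) (show 0 ≤ 9 - a - l by linarith)]

def eta (n : ℕ) (a : ℚ) : ℚ := n * (1 - a / 8 + a ^ 2 / 72) ^ 2

theorem own_le (E : ℝ) (hE : 0 ≤ E) (n : ℕ) {a : ℚ} (ha : (a : ℝ) ≤ l₁) (h0 : 0 < l₁) (h4 : l₁ ≤ 4)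
    (h12 : l₁ ≤ l₂) : own E n l₁ l₂ ≤ Real.exp (-E * l₂) * (max 0 (BT (kk a) - eta n a) : ℚ) +
      Real.exp (-E * l₁) * (min (BT (kk a)) (eta n a) : ℚ) := by
  have h1 := B_le ha
  have h2 := mul_le_mul_of_nonneg_left (h_le ha h0 h4) (Nat.cast_nonneg n)
  have h3 : Real.exp (-E * l₂) ≤ Real.exp (-E * l₁) := Real.exp_le_exp.2 (by nlinarith)
  have h5 := Real.exp_pos (-E * l₂)
  rcases le_total (eta n a) (BT (kk a)) with h | h
  · rw [max_eq_right (sub_nonneg.2 h), min_eq_right h, eta]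
    refine (min_le_right _ _).trans ?_
    generalize Bk _ + e0 = β at h1 ⊢
    push_cast
    nlinarith [mul_le_mul_of_nonneg_left h2 (sub_nonneg.2 h3), mul_le_mul_of_nonneg_left h1 h5.le]
  · rw [max_eq_left (sub_nonpos.2 h), min_eq_left h, Rat.cast_zero, mul_zero, zero_add]
    exact (min_le_left _ _).trans (wt_le' E ha)

def ownU (E : ℚ) (n : ℕ) (a s : ℚ) : ℚ :=
  expU (-E * s) * max 0 (BT (kk a) - eta n a) + expU (-E * a) * min (BT (kk a)) (eta n a)

theorem le_ownU {E : ℚ} (hE : 0 ≤ E) (n : ℕ) {a s : ℚ} (ha : (a : ℝ) ≤ l₁) (h0 : 0 < l₁)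
    (h4 : l₁ ≤ 4) (h12 : l₁ ≤ l₂) (hs : (s : ℝ) ≤ l₂) : own E n l₁ l₂ ≤ ownU E n a s := by
  refine (own_le E (by exact_mod_cast hE) n ha h0 h4 h12).trans ?_
  rw [ownU, Rat.cast_add, Rat.cast_mul, Rat.cast_mul]
  refine add_le_add (mul_le_mul_of_nonneg_right (exp_le_U hE hs) ?_)
    (mul_le_mul_of_nonneg_right (exp_le_U hE ha) ?_)
  · exact_mod_cast le_max_left _ _
  · rw [Rat.cast_min]
    exact le_min (BT_nonneg _) (by rw [eta]; positivity)

/-- `p F(-s) - r F(b - s) - m F(c0) + w + 20 e0` is negative -/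
def root (p r m w : ℚ) (i : ℕ) (b s : ℚ) : Bool :=
  decide (8 ≤ i ∧ i ≤ 35 ∧ 0 ≤ r ∧ r ≤ p ∧ 0 ≤ m ∧
    p * FU i (-s) - r * FL i (b - s) - m * FL i cq0 + w + 20 * eq0 < 0)

theorem root_le {p r m w : ℚ} {i : ℕ} {b s : ℚ} (h : root p r m w i b s = true) (h0 : 0 ≤ l₁)
    (hb : l₁ ≤ b) (hs : l₂ ≤ s) : ¬ ∀ i ∈ Icc 8 35,
      0 ≤ p * Fp i (-l₂) - r * Fp i (l₁ - l₂) - m * Fp i c0 + w + 20 * e0 := fun H => by
  obtain ⟨a1, a2, a3, a4, a5, a6⟩ := of_decide_eq_true h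
  have hi : 0 < i := by omega
  have b1 := H i (mem_Icc.2 ⟨a1, a2⟩)
  have b2 := (Rat.cast_lt (K := ℝ)).2 a6
  have b3 := (F_encl hi (-s)).2
  have b4 := (F_encl hi (b - s)).1
  have b5 := (F_encl hi cq0).1
  have b6 := Fp_mono hi hs h0 hb
  have b7 := Fp_anti hi (neg_le_neg hs)
  have a3' : (0 : ℝ) ≤ r := by exact_mod_cast a3
  have a4' : (r : ℝ) ≤ p := by exact_mod_cast a4
  have a5' : (0 : ℝ) ≤ m := by exact_mod_cast a5
  push_cast at b2 b3 b4
  rw [eq0_cast] at b2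
  rw [cq0_cast] at b5
  nlinarith [mul_le_mul_of_nonneg_left b6 a3', mul_le_mul_of_nonneg_left b7 (sub_nonneg.2 a4'),
    mul_le_mul_of_nonneg_left b3 (a3'.trans a4'), mul_le_mul_of_nonneg_left b4 a3',
    mul_le_mul_of_nonneg_left b5 a5']

def chk (E : ℚ) (nm nE ex n : ℕ) (a b s : ℚ) (L : List Con) (r : List ℚ) : Bool :=
  restOk E s L r && decide (0 ≤ E ∧ b ≤ 4 ∧ s ≤ 10 ∧
    restQ nm nE ex a b s L + nm * ownU E n a s ≤ 199 / 200)

theorem chk_le (H : Cfg nm nE ex l₁ l₂ J) {E a b s : ℚ} {n : ℕ} {L : List Con} {r : List ℚ}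
    (h : chk E nm nE ex n a b s L r = true) (ha : (a : ℝ) ≤ l₁) (hb : l₁ ≤ b)
    (hs : l₂ ≤ s → 10 ≤ l₂) : (J.map (wt E)).sum + nm * own E n l₁ l₂ ≤ 1 - 1 / 200 := by
  rw [chk, Bool.and_eq_true] at h
  obtain ⟨a1, a2, a3, a4⟩ := of_decide_eq_true h.2
  have a2' : (b : ℝ) ≤ 4 := by exact_mod_cast a2
  have a3' : (s : ℝ) ≤ 10 := by exact_mod_cast a3
  have hs' : (s : ℝ) ≤ l₂ := (le_total _ _).elim id fun h => a3'.trans (hs h)
  have b1 := restI H h.1 ha hb hs'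
  have b2 := mul_le_mul_of_nonneg_left (le_ownU a1 n ha H.pos (hb.trans a2') H.l12 hs')
    (Nat.cast_nonneg nm)
  have b3 := (Rat.cast_le (K := ℝ)).2 a4
  push_cast at b3
  linarith

/-! ### the three cases on an interval -/

def GA (E a b : ℚ) : Prop := ∀ l₁ l₂ J, Cfg 2 2 0 l₁ l₂ J → LAI l₁ l₂ → (a : ℝ) ≤ l₁ → l₁ ≤ b →
  (J.map (wt E)).sum + 2 * own E 1 l₁ l₂ ≤ 1 - 1 / 200

def GB (E a b : ℚ) : Prop := ∀ l₁ l₂ J, Cfg 1 2 1 l₁ l₂ J → LBI l₂ → (a : ℝ) ≤ l₁ → l₁ ≤ b →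
  (J.map (wt E)).sum + own E 2 l₁ l₂ ≤ 1 - 1 / 200

def GC (E a b : ℚ) : Prop := ∀ l₁ l₂ J, Cfg 1 1 0 l₁ l₂ J → LCI l₁ l₂ → (a : ℝ) ≤ l₁ → l₁ ≤ b →
  (J.map (wt E)).sum + own E 1 l₁ l₂ ≤ 1 - min l₁ 1 / 200

theorem GA.trans {E a b c : ℚ} (h : GA E a b) (h' : GA E b c) : GA E a c :=
  fun l₁ l₂ J H L ha hc => (le_total l₁ b).elim (h l₁ l₂ J H L ha) fun hb => h' l₁ l₂ J H L hb hc

theorem GB.trans {E a b c : ℚ} (h : GB E a b) (h' : GB E b c) : GB E a c :=
  fun l₁ l₂ J H L ha hc => (le_total l₁ b).elim (h l₁ l₂ J H L ha) fun hb => h' l₁ l₂ J H L hb hc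

theorem GC.trans {E a b c : ℚ} (h : GC E a b) (h' : GC E b c) : GC E a c :=
  fun l₁ l₂ J H L ha hc => (le_total l₁ b).elim (h l₁ l₂ J H L ha) fun hb => h' l₁ l₂ J H L hb hc

theorem ga {E a b s : ℚ} {i j : ℕ} {L : List Con} {r : List ℚ}
    (h : (chk E 2 2 0 1 a b s L r && root 1 0 2 (3 / 8) i b s && root (3 / 2) (1 / 2) 2 (5 / 16) j b s)
      = true) : GA E a b := fun l₁ l₂ J H hL ha hb => by
  simp only [Bool.and_eq_true] at h
  refine chk_le H h.1.1 ha hb fun hs => ?_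
  rcases hL with h1 | h1 | h1
  · exact h1
  · exact (root_le h.1.2 H.pos.le hb hs fun i hi => by push_cast; linarith [h1 i hi]).elim
  · exact (root_le h.2 H.pos.le hb hs fun i hi => by push_cast; linarith [h1 i hi]).elim

theorem gb {E a b s : ℚ} {i j : ℕ} {L : List Con} {r : List ℚ}
    (h : (chk E 1 2 1 2 a b s L r && root 1 0 2 (3 / 8) i b s && root 2 0 3 (2 / 8) j b s)
      = true) : GB E a b := fun l₁ l₂ J H hL ha hb => by
  simp only [Bool.and_eq_true] at h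
  have := chk_le H h.1.1 ha hb fun hs => by
    rcases hL with h1 | h1 | h1
    · exact h1
    · exact (root_le h.1.2 H.pos.le hb hs fun i hi => by push_cast; linarith [h1 i hi]).elim
    · exact (root_le h.2 H.pos.le hb hs fun i hi => by push_cast; linarith [h1 i hi]).elim
  simpa using this

theorem rootC {b s : ℚ} {i j : ℕ} (h1 : root 1 1 1 (3 / 8) i b s = true)
    (h2 : root 2 2 1 (2 / 8) j b s = true) (h0 : 0 ≤ l₁) (hb : l₁ ≤ b) (hL : LCI l₁ l₂) :
    ¬ l₂ ≤ s := fun hs => by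
  rcases hL with h | h
  · exact root_le h1 h0 hb hs fun i hi => by push_cast; linarith [h i hi]
  · exact root_le h2 h0 hb hs fun i hi => by push_cast; linarith [h i hi]

theorem gc {E a b s : ℚ} {i j : ℕ} {L : List Con} {r : List ℚ}
    (h : (chk E 1 1 0 1 a b s L r && root 1 1 1 (3 / 8) i b s && root 2 2 1 (2 / 8) j b s)
      = true) : GC E a b := fun l₁ l₂ J H hL ha hb => by
  simp only [Bool.and_eq_true] at h
  have := chk_le H h.1.1 ha hb fun hs => (rootC h.1.2 h.2 H.pos.le hb hL hs).elim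
  have h1 := min_le_right l₁ 1
  push_cast at this
  linarith

def mq (n : ℕ) : ℚ := min (FL n cq0 - 3 / 8 - 20 * eq0) ((FL n cq0 - 2 / 8 - 20 * eq0) / 2)

def small (E b s : ℚ) (n i j k : ℕ) : Bool :=
  decide (ok 0 (.d1 i j k 0) = true ∧ 8 ≤ n ∧ n ≤ 35 ∧ 0 ≤ s ∧ b ≤ 1 ∧ 0 < mq n ∧
    n / 10 ≤ E - 2 * xq i j ∧ 0 ≤ xq i j ∧ DU n s / mq n * (expU (-E * s) * IU i j k s * BT (kk s) *
      (SU i j k + eq0) + expU (-E * s) * 2) + 1 / 200 ≤ E / (1 + E * b))

/-- the first zero is real and very close to the line `re s = 1` -/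
theorem gs {E b s : ℚ} {u v n i j k : ℕ}
    (h : (small E b s n i j k && root 1 1 1 (3 / 8) u b s && root 2 2 1 (2 / 8) v b s) = true) :
    GC E 0 b := fun l₁ l₂ J H hL _ hb => by
  simp only [Bool.and_eq_true] at h
  have hs := (not_le.1 (rootC h.1.2 h.2 H.pos.le hb hL)).le
  obtain ⟨a0, a1, a2, a3, a4, a5, a6, a8, a7⟩ := of_decide_eq_true h.1.1
  obtain ⟨c1', c2, c3, c4, c5, c6, -⟩ := of_decide_eq_true a0
  have hn : 0 < n := by omega
  have hp := H.pos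
  have a4' : (b : ℝ) ≤ 1 := by exact_mod_cast a4
  have a5' : (0 : ℝ) < mq n := by exact_mod_cast a5
  have a6' := (Rat.cast_le (K := ℝ)).2 a6
  push_cast at a6'
  have a8' : (0 : ℝ) ≤ xq i j := by exact_mod_cast a8
  have a7' := (Rat.cast_le (K := ℝ)).2 a7
  have hn' : (0 : ℝ) ≤ n / 10 := by positivity
  have hE : (0 : ℝ) ≤ E := by linarith
  have b1 : (mq n : ℝ) ≤ Fp n (-l₂) - Fp n (l₁ - l₂) := by
    have d := (F_encl hn cq0).1
    rw [cq0_cast] at d
    rw [mq]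
    push_cast
    rw [eq0_cast]
    rcases hL with h1 | h1
    · exact min_le_of_left_le (by linarith [h1 n (mem_Icc.2 ⟨a1, a2⟩)])
    · exact min_le_of_right_le (by linarith [h1 n (mem_Icc.2 ⟨a1, a2⟩)])
  have b2 := b1.trans (Fp_lin hn a3 hs hp.le)
  obtain ⟨ρ, hρ⟩ : ∃ ρ, ρ = Real.exp (-(n / 10 * (l₂ - s))) := ⟨_, rfl⟩
  have ρ0 : 0 < ρ := hρ ▸ Real.exp_pos _
  have b3 : ρ ≤ l₁ * (DU n s / mq n) := by
    rw [hρ, Real.exp_neg, ← mul_div_assoc, le_div_iff₀ a5', inv_mul_le_iff₀ (Real.exp_pos _)]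
    linarith
  obtain ⟨Q, hQ⟩ : ∃ Q : ℝ, Q = (expU (-E * s) * IU i j k s : ℚ) := ⟨_, rfl⟩
  have hk' : (1 : ℝ) ≤ k := by exact_mod_cast c5
  have cp : ∀ l : ℝ, 0 ≤ l → 0 < c1 f0 (i / 200) (j / 100) (k / 2) l := fun l hl => by
    rw [c1_eq]; exact one_div_pos.2 (II_pos (uq_lt i j) (by linarith))
  have Q0 : 0 ≤ Q := by
    have := (Real.exp_pos _).trans_le (tail_le i j c5 (E := E) a3 hs)
    rw [← hQ] at this
    exact (pos_of_mul_pos_left (pos_of_mul_pos_left this (cp _ (hp.le.trans H.l12)).le)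
      (Real.exp_pos _).le).le
  have T0 := BT_nonneg (kk s)
  have b4 : (J.map (wt E)).sum ≤ Q * ρ * BT (kk s) * (SU i j k + e0) := by
    have d1 := H.d1 i (mem_Icc.2 ⟨c1', c2⟩) j (mem_Icc.2 ⟨c3, c4⟩) k (mem_Icc.2 ⟨c5, c6⟩)
    have d2 := le_SU i j k
    have d3 := cp l₁ hp.le
    refine le_trans (Multiset.sum_map_le_sum_map _
      (fun l => Q * ρ * BT (kk s) * c1 f0 (i / 200) (j / 100) (k / 2) l) fun l hl => ?_) ?_
    · have e1 := H.mem l hl
      have e2 := tail_le i j c5 (E := E) a3 (hs.trans e1)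
      have e3 : Real.exp (-(E - 2 * xq i j) * (l - s)) ≤ ρ :=
        hρ ▸ Real.exp_le_exp.2 (by nlinarith)
      have e4 := cp l (hp.le.trans (H.l12.trans e1))
      rw [← hQ] at e2
      calc wt E l ≤ _ := wt_le' E (hs.trans e1)
        _ ≤ Q * ρ * c1 f0 (i / 200) (j / 100) (k / 2) l * BT (kk s) := by
          gcongr; exact e2.trans (by gcongr)
        _ = _ := by ring
    · rw [Multiset.sum_map_mul_left]
      push_cast at d1
      exact mul_le_mul_of_nonneg_left (by linarith) (by positivity)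
  have b5 := own_le E hE 1 (a := 0) (by simpa using hp.le) hp (by linarith) H.l12
  have t1 : max 0 (BT (kk 0) - eta 1 0) ≤ 2 := by decide +kernel
  have t2 : min (BT (kk 0)) (eta 1 0) = 1 := by decide +kernel
  have t3 : ((max 0 (BT (kk 0) - eta 1 0) : ℚ) : ℝ) ≤ 2 := by exact_mod_cast t1
  have b6 : Real.exp (-E * l₂) ≤ expU (-E * s) * ρ := by
    have := le_expU (-E * s)
    refine le_trans ?_ (mul_le_mul_of_nonneg_right this ρ0.le)
    rw [hρ, ← Real.exp_add]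
    push_cast
    exact Real.exp_le_exp.2 (by nlinarith)
  have b7 : Real.exp (-E * l₁) ≤ 1 - l₁ * (E / (1 + E * b)) := by
    have d1 : 0 < 1 + E * l₁ := by positivity
    have d2 : Real.exp (-E * l₁) ≤ (1 + E * l₁)⁻¹ := by
      rw [neg_mul, Real.exp_neg]
      exact inv_anti₀ d1 (by linarith [Real.add_one_le_exp (E * l₁)])
    have d3 : (E : ℝ) / (1 + E * b) ≤ E / (1 + E * l₁) := by gcongr
    have d4 : (1 + E * l₁)⁻¹ = 1 - l₁ * (E / (1 + E * l₁)) := by field_simp; ring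
    nlinarith
  rw [t2, Rat.cast_one, mul_one] at b5
  have b8 := mul_le_mul_of_nonneg_left t3 (Real.exp_pos (-E * l₂)).le
  have b9 : 0 ≤ Q * BT (kk s) * (SU i j k + e0) + expU (-E * s) * 2 := by
    have d1 := (Real.exp_pos _).le.trans (le_expU (-E * s))
    have d2 : (0 : ℝ) ≤ SU i j k := le_trans (by
      rw [S1]
      have : Real.exp (-(k / 2) * (j / 100)) ≤ 1 :=
        Real.exp_le_one_iff.2 (by rw [neg_mul, neg_nonpos]; positivity)
      exact div_nonneg (mul_nonneg (Real.exp_pos _).le (by linarith)) (by positivity)) (le_SU i j k)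
    have d3 : 0 ≤ e0 := by norm_num [e0]
    positivity
  have b10 := mul_le_mul_of_nonneg_right b3 b9
  push_cast at a7' hQ
  rw [eq0_cast, ← hQ] at a7'
  have b11 := mul_le_mul_of_nonneg_left a7' hp.le
  rw [min_eq_left (hb.trans a4')]
  linarith

/-! ### conclusions -/

theorem numA_of {E a g : ℚ} {L : List Con} {r : List ℚ} {i : ℕ} (h : GA E a g)
    (hG : chkG E g L r (199 / 200) = true)
    (hz : (root 5 0 8 (13 / 8) i 0 a && root 6 0 9 (12 / 8) i 0 a) = true) : NumA E :=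
  fun l₁ l₂ J H hZ hL => by
    rw [Bool.and_eq_true] at hz
    rcases le_total l₁ g with hg | hg
    · refine h l₁ l₂ J H hL (le_of_not_ge fun ha => ?_) hg
      obtain ⟨a1, a2, -, -, -, a3⟩ := of_decide_eq_true hz.1
      obtain ⟨-, -, -, -, -, a4⟩ := of_decide_eq_true hz.2
      have hi : 0 < i := by omega
      have b1 := hZ i (mem_Icc.2 ⟨a1, a2⟩)
      have b2 := (Rat.cast_lt (K := ℝ)).2 a3
      have b3 := (Rat.cast_lt (K := ℝ)).2 a4
      have b4 := (F_encl hi (-a)).2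
      have b5 := (F_encl hi cq0).1
      have b7 := Fp_anti hi (neg_le_neg ha)
      push_cast at b2 b3 b4
      rw [eq0_cast] at b2 b3
      rw [cq0_cast] at b5
      rcases le_max_iff.1 (neg_le_iff_add_nonneg.2 b1) with b | b <;> linarith
    · have := restG H hG hg
      have h1 : own E 1 l₁ l₂ ≤ wt E l₁ := min_le_left _ _
      push_cast at this
      linarith

theorem numB_of {E a g : ℚ} {L : List Con} {r : List ℚ} (h : GB E a g)
    (hG : chkG E g L r (199 / 200) = true)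
    (hz : decide (a ≤ 1 / 2 ∧ 5 * TU (-a) - 8 * TL cq0 + 63 / 40 + 20 * eq0 < 0) = true) :
    NumB E := fun l₁ l₂ J H hZ hL => by
  rcases le_total l₁ g with hg | hg
  · refine h l₁ l₂ J H hL (le_of_not_ge fun ha => ?_) hg
    obtain ⟨a1, a2⟩ := of_decide_eq_true hz
    have a1' := (Rat.cast_le (K := ℝ)).2 a1
    have b2 := (Rat.cast_lt (K := ℝ)).2 a2
    have b4 := (T_encl (-a)).2
    have b5 := (T_encl cq0).1
    have b7 := Ft_anti (neg_le_neg ha)
    push_cast at a1' b2 b4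
    rw [eq0_cast] at b2
    rw [cq0_cast] at b5
    linarith [hZ (ha.trans a1')]
  · have := restG H hG hg
    have h1 : own E 2 l₁ l₂ ≤ wt E l₁ := min_le_left _ _
    push_cast at this
    linarith

theorem numC_of {E g : ℚ} {L : List Con} {r : List ℚ} (h : GC E 0 g)
    (hG : chkG E g L r (199 / 200) = true) : NumC E := fun l₁ l₂ J H hL => by
  rcases le_total l₁ g with hg | hg
  · exact h l₁ l₂ J H hL (by simpa using H.pos.le) hg
  · have := restG H hG hg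
    have h1 : own E 1 l₁ l₂ ≤ wt E l₁ := min_le_left _ _
    have h2 := min_le_right l₁ 1
    push_cast at this
    linarith

theorem numG_of {E : ℚ} {L : List Con} (hG : chkG E 3 L [] (1 / 2) = true) : NumG E :=
  fun l J H hl => by simpa using restG H hG (by push_cast; linarith)

end Pool.Agent.MP_c5bf7b_nt.H38.Num
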