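import Pool.Agent.MP_c5bf7b_nt.H38.Num3

/-! The certificates. -/

set_option autoImplicit false

namespace Pool.Agent.MP_c5bf7b_nt.H38.Num

def seg (h : ℕ) : ℕ → ℕ → List ℚ → List ℚ
  | 0, _, r => r
  | n + 1, g, r => mkRat (Nat.add g h : ℕ) 1000 :: seg h n (Nat.add g h) r

def EE0 : ℚ := mkRat 41 10

theorem tg0 : chkG EE0 (mkRat 600 1000) [.d1 14 18 7 (mkRat 95425 1000000),
    .d2 19 (mkRat 62 100) (mkRat 55175 100000) (mkRat 562342 1000000) (mkRat 1360 1000),
    .d2 21 (mkRat 33 100) (mkRat 5618 100000) (mkRat 519653 1000000) (mkRat 1700 1000)]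
    (seg 10 40 600 (seg 20 30 1000 (seg 50 2 1600 ([])))) (199 / 200) = true := by decide +kernel

theorem ta0 : GA EE0 (mkRat 343 1000) (mkRat 383 1000) :=
  ga (s := (mkRat 800 1000)) (i := 16) (j := 13) (L := [.d1 14 18 7 (mkRat 74195 1000000),
    .d2 17 (mkRat 62 100) (mkRat 31174 100000) (mkRat 547681 1000000) (mkRat 1420 1000),
    .d2 18 (mkRat 43 100) (mkRat 24196 1000000) (mkRat 512628 1000000) (mkRat 1700 1000),
    .d2 20 (mkRat 32 100) (mkRat 17128 1000000) (mkRat 530947 1000000) (mkRat 1780 1000)])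
    (r := seg 10 40 800 (seg 20 29 1200 ([]))) (by decide +kernel)

theorem ta1 : GA EE0 (mkRat 383 1000) (mkRat 433 1000) :=
  ga (s := (mkRat 785 1000)) (i := 16) (j := 13) (L := [.d1 14 18 7 (mkRat 80535 1000000),
    .d2 17 (mkRat 62 100) (mkRat 33881 100000) (mkRat 545174 1000000) (mkRat 1400 1000),
    .d2 20 (mkRat 33 100) (mkRat 37469 1000000) (mkRat 529559 1000000) (mkRat 1760 1000)])
    (r := seg 15 1 785 (seg 20 20 800 (seg 40 14 1200 ([])))) (by decide +kernel)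

theorem ta2 : GA EE0 (mkRat 433 1000) (mkRat 600 1000) :=
  ga (s := (mkRat 730 1000)) (i := 16) (j := 14) (L := [.d1 14 18 7 (mkRat 83906 1000000),
    .d2 17 (mkRat 6 10) (mkRat 39821 100000) (mkRat 529564 1000000) (mkRat 1440 1000),
    .d2 21 (mkRat 31 100) (mkRat 35455 1000000) (mkRat 536381 1000000) (mkRat 1750 1000)])
    (r := seg 10 39 730 (seg 20 29 1120 (seg 50 1 1700 ([])))) (by decide +kernel)

theorem tb0 : GB EE0 (mkRat 495 1000) (mkRat 600 1000) :=
  gb (s := (mkRat 686 1000)) (i := 16) (j := 11) (L := [.d1 15 18 7 (mkRat 9355 100000),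
    .d2 17 (mkRat 58 100) (mkRat 47602 100000) (mkRat 516679 1000000) (mkRat 1470 1000),
    .d2 21 (mkRat 31 100) (mkRat 28731 1000000) (mkRat 530417 1000000) (mkRat 1750 1000)])
    (r := seg 4 1 686 (seg 5 80 690 (seg 10 58 1090 (seg 5 1 1670 (seg 25 2 1675 ([])))))) (by decide +kernel)

theorem tc0 : GC EE0 (mkRat 350 1000) (mkRat 600 1000) :=
  gc (s := (mkRat 945 1000)) (i := 15) (j := 11) (L := [.d1 13 17 7 (mkRat 75436 1000000),
    .d2 18 (mkRat 38 100) (mkRat 13782 100000) (mkRat 521966 1000000) (mkRat 1800 1000)])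
    (r := seg 15 1 945 (seg 40 10 960 (seg 80 5 1360 ([])))) (by decide +kernel)

theorem ts0 : GC EE0 0 (mkRat 350 1000) :=
  gs (s := (mkRat 1904 1000)) (u := 13) (v := 9) (n := 12) (i := 13) (j := 17) (k := 7) (by decide +kernel)

theorem EE0_cast : (EE0 : ℝ) = 41 / 10 := by rw [EE0, Rat.mkRat_eq_div]; push_cast; rfl

theorem numA : NumA (41 / 10) := EE0_cast ▸ numA_of (i := 22) ((ta0.trans ta1).trans ta2) tg0 (by decide +kernel)

theorem numB : NumB (41 / 10) := EE0_cast ▸ numB_of tb0 tg0 (by decide +kernel)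

theorem numC : NumC (41 / 10) := EE0_cast ▸ numC_of (ts0.trans tc0) tg0

theorem numG : NumG (41 / 10) :=
  EE0_cast ▸ numG_of (L := [.d1 14 18 7 (mkRat 1 100)]) (by decide +kernel)

end Pool.Agent.MP_c5bf7b_nt.H38.Num
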