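import Pool.Agent.MP_c5bf7b_nt.H38.SpecB

/-! Statements of the analytic rows for the least prime in a progression.
Paper proof: /team-store/MP_c5bf7b_H38_linnik.md -/

set_option autoImplicit false

namespace Pool.Agent.MP_c5bf7b_nt.H38

open Finset Complex ArithmeticFunction

abbrev Ch (q : ℕ) := DirichletCharacter ℂ q

/-! ### zeros -/

open Classical in
/-- the entire function attached to `χ` -/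
noncomputable def Phi {q : ℕ} [NeZero q] (χ : Ch q) : ℂ → ℂ :=
  if χ = 1 then DirichletCharacter.LFunctionTrivChar₁ q else DirichletCharacter.LFunction χ

/-- product of linear factors -/
noncomputable def PZ (Z : Multiset ℂ) (s : ℂ) : ℂ := (Z.map fun ρ => s - ρ).prod

def Rect (T : ℝ) : Set ℂ := {s | 2 / 3 ≤ s.re ∧ s.re ≤ 1 ∧ |s.im| ≤ T}

/-- `Z` is the multiset of the zeros of `f` in the rectangle -/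
def IsZ (f : ℂ → ℂ) (T : ℝ) (Z : Multiset ℂ) (G : ℂ → ℂ) : Prop :=
  Differentiable ℂ G ∧ (∀ s, f s = PZ Z s * G s) ∧ (∀ ρ ∈ Z, ρ ∈ Rect T) ∧ ∀ s ∈ Rect T, G s ≠ 0

/-- normalised position of a zero -/
noncomputable def nz (q : ℕ) (ρ : ℂ) : ℂ := (1 - ρ) * Real.log q

/-- `Y` is the multiset of the normalised zeros of `χ` up to height `q ^ 3` -/
def NZ {q : ℕ} [NeZero q] (χ : Ch q) (Y : Multiset ℂ) : Prop :=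
  ∃ Z G, IsZ (Phi χ) ((q : ℝ) ^ 3) Z G ∧ Y = Z.map (nz q)

/-! ### test functions -/

noncomputable def Lp (f : ℝ → ℝ) (x : ℝ) (z : ℂ) : ℂ := ∫ t in (0 : ℝ)..x, (f t : ℂ) * exp (-z * t)

noncomputable def Lr (f : ℝ → ℝ) (x z : ℝ) : ℝ := ∫ t in (0 : ℝ)..x, f t * Real.exp (-z * t)

structure Adm (f : ℝ → ℝ) (x : ℝ) : Prop where
  pos : 0 < x
  le : x ≤ 5
  diff : ContDiff ℝ 2 f
  nonneg : ∀ t, 0 ≤ t → t ≤ x → 0 ≤ f t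
  zero : f x = 0
  re : ∀ z : ℂ, 0 ≤ z.re → 0 ≤ (Lp f x z).re

/-- autocorrelation of a parabola, `par x 0 = 1` -/
noncomputable def par (x t : ℝ) : ℝ := (1 - t / x) ^ 3 * (1 + 3 * (t / x) + (t / x) ^ 2)

noncomputable def tri (t : ℝ) : ℝ := 7 / 5 - t

/-- twice the autocorrelation of `exp (-κ u)` on `[0, 1 / 4]` -/
noncomputable def fB (κ t : ℝ) : ℝ :=
  if κ = 0 then 2 * (1 / 4 - t) else Real.exp (-κ * t) * (1 - Real.exp (-2 * κ * (1 / 4 - t))) / κ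

/-- the function `B` of Heath-Brown for `φ = K = 1 / 4` -/
noncomputable def Bk (κ : ℝ) : ℝ :=
  if κ = 0 then 2 else
    2 * (1 - Real.exp (-κ / 2)) / κ + 8 * (κ / 2 - 1 + Real.exp (-κ / 2)) / κ ^ 2

noncomputable def H2 (z : ℂ) : ℂ := ((1 - exp (-z / 4)) / z) ^ 2

noncomputable def HH (E : ℝ) (z : ℂ) : ℂ := exp (-E * z) * H2 z

/-- the normalised prime sum at `s = 1 - w / log q` -/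
noncomputable def Kn (q : ℕ) (f : ℝ → ℝ) (x : ℝ) (χ : Ch q) (w : ℂ) : ℂ :=
  ∑ n ∈ Icc 1 ⌊(q : ℝ) ^ x⌋₊,
    ((vonMangoldt n / (n * Real.log q) * f (Real.log n / Real.log q) : ℝ) : ℂ) * χ n *
      exp (w * (Real.log n / Real.log q : ℝ))

open Classical in
noncomputable def Rhs {q : ℕ} (f : ℝ → ℝ) (x ε : ℝ) (χ : Ch q) (w : ℂ) (Y : Multiset ℂ) : ℝ :=
  (if χ = 1 then (Lp f x (-w)).re else f 0 / 8) - (Y.map fun ζ => (Lp f x (ζ - w)).re).sum + ε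

/-- the zero `ζ` is not much to the right of the point `w` -/
def Hp (l : ℝ) (w ζ : ℂ) : Prop :=
  (|ζ.im - w.im| ≤ l → w.re ≤ ζ.re) ∧ w.re ≤ ζ.re + 10 + Real.log (1 + |ζ.im - w.im| / l) / 10

open Classical in
/-- the basic inequality; all kept zeros but four are within `d log q` -/
def KFp (q : ℕ) (N : Ch q → Multiset ℂ) (f : ℝ → ℝ) (x ε Lm Th d : ℝ) : Prop :=
  ∀ (χ : Ch q) (w : ℂ) (Y : Multiset ℂ), Y ≤ N χ →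
    (Y.filter fun ζ => d * Real.log q < ‖ζ - w.im * I‖).card ≤ 4 → 0 ≤ w.re → w.re ≤ Lm →
    |w.im| ≤ Th → (∀ ζ ∈ N χ - Y, Hp (Real.log q) w ζ) → (Kn q f x χ w).re ≤ Rhs f x ε χ w Y

open Classical in
/-- the basic inequality with at most four kept zeros -/
def KF4 (q : ℕ) (N : Ch q → Multiset ℂ) (f : ℝ → ℝ) (x ε Lm Th : ℝ) : Prop :=
  ∀ (χ : Ch q) (w : ℂ) (Y : Multiset ℂ), Y ≤ N χ → Y.card ≤ 4 → 0 ≤ w.re → w.re ≤ Lm →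
    |w.im| ≤ Th → (∀ ζ ∈ N χ - Y, Hp (Real.log q) w ζ) → (Kn q f x χ w).re ≤ Rhs f x ε χ w Y

/-! ### single L-function rows -/

def BaseS : Prop :=
  ∀ (q : ℕ) [NeZero q] (χ : Ch q), χ ≠ 1 →
    (∀ a b : ℕ, ‖∑ k ∈ Ioc a b, χ k‖ ≤ q) ∧ ∀ (s : ℂ) (N : ℕ), 0 < s.re → 1 ≤ N →
    ‖DirichletCharacter.LFunction χ s - ∑ n ∈ Icc 1 N, χ n * (n : ℂ) ^ (-s)‖ ≤
        ‖s‖ * ∑' n : ℕ, ‖∑ k ∈ Ioc N (N + n), χ k‖ * ((N + n : ℕ) : ℝ) ^ (-s.re - 1) ∧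
      ‖DirichletCharacter.LFunction χ s - ∑ n ∈ Icc 1 N, χ n * (n : ℂ) ^ (-s)‖ ≤
        q * ‖s‖ * (1 + 1 / s.re) * (N : ℝ) ^ (-s.re)

def TailS : Prop :=
  ∀ φ : ℝ, 1 / 4 < φ → ∃ δ : ℝ, 0 < δ ∧ ∃ q₀ : ℕ, ∀ (q : ℕ) [NeZero q], q₀ ≤ q →
    ∀ (χ : Ch q) (s : ℂ) (N : ℕ), χ ≠ 1 → 1 - δ ≤ s.re → s.re ≤ 2 → |s.im| ≤ (q : ℝ) ^ δ →
    (q : ℝ) ^ φ ≤ N →
    ‖DirichletCharacter.LFunction χ s - ∑ n ∈ Icc 1 N, χ n * (n : ℂ) ^ (-s)‖ ≤ (q : ℝ) ^ (-δ)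

open Classical in
def PhiS : Prop :=
  ∃ A : ℕ, ∀ (q : ℕ) [NeZero q] (χ : Ch q), 2 ≤ q →
    Differentiable ℂ (Phi χ) ∧ (∀ s : ℂ, 1 ≤ s.re → Phi χ s ≠ 0) ∧
    (∀ s : ℂ, 1 / 20 ≤ s.re → s.re ≤ 4 → |s.im| ≤ (q : ℝ) ^ 3 + 2 → ‖Phi χ s‖ ≤ (q : ℝ) ^ A) ∧
    (∀ τ : ℝ, 1 / 3 ≤ ‖Phi χ (2 + τ * I)‖) ∧
    (∀ s : ℂ, Phi χ⁻¹ ((starRingEnd ℂ) s) = (starRingEnd ℂ) (Phi χ s)) ∧
    ∀ s : ℂ, 1 < s.re → -(deriv (Phi χ) s / Phi χ s) =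
      LSeries (fun n => (vonMangoldt n : ℂ) * χ n) s - if χ = 1 then 1 / (s - 1) else 0

def ExS : Prop :=
  ∀ (f : ℂ → ℂ) (T : ℝ), Differentiable ℂ f → f 2 ≠ 0 → ∃ Z G, IsZ f T Z G

open Classical in
/-- global factorisation: local counts, and the regular part of the logarithmic derivative -/
def GfS : Prop :=
  ∃ C : ℝ, 1 ≤ C ∧ ∀ (f G : ℂ → ℂ) (Z : Multiset ℂ) (B T : ℝ), 2 ≤ B → 2 ≤ T → IsZ f T Z G →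
    (∀ s : ℂ, 1 < s.re → f s ≠ 0) →
    (∀ s : ℂ, 1 / 20 ≤ s.re → s.re ≤ 4 → |s.im| ≤ T + 2 → ‖f s‖ ≤ B) →
    (∀ τ : ℝ, |τ| ≤ T → 1 / 3 ≤ ‖f (2 + τ * I)‖) →
    (∀ τ : ℝ, ((Z.filter fun ρ => |ρ.im - τ| ≤ 1).card : ℝ) ≤ C * Real.log B) ∧
    ∀ w : ℂ, 7 / 10 ≤ w.re → w.re ≤ 2 → |w.im| ≤ T - 1 →
      ‖deriv G w / G w‖ ≤ C * Real.log B * (1 + Real.log T) ∧
      ∀ w' : ℂ, 7 / 10 ≤ w'.re → w'.re ≤ 2 → |w'.im| ≤ T - 1 →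
        ‖deriv G w / G w - deriv G w' / G w'‖ ≤ C * Real.log B * √‖w - w'‖

/-- derivative form of the formula of Jensen -/
def JdS : Prop :=
  ∀ (f g : ℂ → ℂ) (Y : Multiset ℂ) (a : ℂ) (R d M₁ M₀ : ℝ), 0 < R → 0 ≤ d → d ≤ R / 2 → 0 ≤ M₁ →
    0 ≤ M₀ → Differentiable ℂ g → (∀ s, f s = PZ Y s * g s) → (∀ ρ ∈ Y, ‖a - ρ‖ ≤ d) →
    (∀ s ∈ Metric.closedBall a R, ‖f s‖ ≤ Real.exp (M₁ * max 0 (a.re - s.re) + M₀)) →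
    (∀ s ∈ Metric.closedBall a R, a.re ≤ s.re → Real.exp (-M₀) ≤ ‖f s‖) →
    -(deriv f a / f a).re ≤
      -(Y.map fun ρ => ((a - ρ)⁻¹).re).sum + 4 * Y.card * d / R ^ 2 + M₁ / 2 + 3 * M₀ / R

open Classical in
def GrowS : Prop :=
  ∀ ε : ℝ, 0 < ε → ∃ R η : ℝ, 0 < R ∧ R ≤ 1 / 10 ∧ 0 < η ∧ ∃ q₀ : ℕ, ∀ (q : ℕ) [NeZero q], q₀ ≤ q →
    ∀ (χ : Ch q) (s : ℂ), 1 - R ≤ s.re → s.re ≤ 2 → |s.im| ≤ 2 * (q : ℝ) ^ η →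
    ‖Phi χ s‖ ≤ Real.exp ((if χ = 1 then 0 else 1 / 4 + ε) * Real.log q * max 0 (1 - s.re) +
      ε * R * Real.log q) ∧
    (1 + 1 / Real.log q ≤ s.re → Real.exp (-(ε * R * Real.log q)) ≤ ‖Phi χ s‖)

/-- Laplace transform on the half line -/
noncomputable def Lh (k : ℝ → ℂ) (z : ℂ) : ℂ := ∫ u in Set.Ioi (0 : ℝ), k u * exp (-z * u)

def LapS : Prop :=
  ∀ (k : ℝ → ℂ) (D : ℝ), Continuous k → (∀ u, u ≤ 0 → k u = 0) →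
    (∀ u, 0 ≤ u → ‖k u‖ ≤ D * Real.exp (-u)) →
    DifferentiableOn ℂ (Lh k) {z | -1 < z.re} ∧
    ((∀ y : ℝ, ‖Lh k (-1 / 2 + y * I)‖ ≤ D / (1 + y ^ 2)) →
      (∀ u : ℝ, ∫ y : ℝ, Lh k (-1 / 2 + y * I) * exp ((-1 / 2 + y * I) * u) = 2 * Real.pi * k u) ∧
      ∀ ζ : ℂ, -1 / 2 < ζ.re →
        ∫ y : ℝ, Lh k (-1 / 2 + y * I) / (ζ - (-1 / 2 + y * I)) = 2 * Real.pi * Lh k ζ)

open Classical in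
/-- local counts of the normalised zeros -/
def Cnt (l C : ℝ) (Y : Multiset ℂ) : Prop :=
  ∀ τ : ℝ, ((Y.filter fun ζ => |ζ.im - τ| ≤ l).card : ℝ) ≤ C * l

def CntS : Prop :=
  ∃ C : ℝ, 1 ≤ C ∧ ∀ (q : ℕ) [NeZero q] (χ : Ch q), 2 ≤ q → (∃ Y, NZ χ Y) ∧ ∀ Y, NZ χ Y →
    Cnt (Real.log q) C Y ∧ (∀ ζ ∈ Y, 0 < ζ.re ∧ ζ.re ≤ Real.log q / 3 ∧
      |ζ.im| ≤ (q : ℝ) ^ 3 * Real.log q ∧ Phi χ (1 - ζ / Real.log q) = 0) ∧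
    ∀ Y', NZ χ⁻¹ Y' → ∀ ζ ∈ Y, (starRingEnd ℂ) ζ ∈ Y'

open Classical in
/-- the explicit formula -/
def EfS : Prop :=
  ∃ C : ℝ, 1 ≤ C ∧ ∃ q₀ : ℕ, ∀ (q : ℕ) [NeZero q], q₀ ≤ q → ∀ (χ : Ch q) (Y : Multiset ℂ)
    (k : ℝ → ℂ) (D l τ : ℝ), NZ χ Y → Continuous k → (∀ u, u ≤ 0 → k u = 0) →
    (∀ u, 0 ≤ u → ‖k u‖ ≤ D * Real.exp (-u)) → 0 ≤ l → l ≤ 3 / 10 * Real.log q →
    (∀ z : ℂ, -1 / 2 ≤ z.re → z.re ≤ l → ‖Lh k z‖ ≤ D / (1 + z.im ^ 2)) →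
    |τ| ≤ q * Real.log q →
    ‖(∑' n : ℕ, ((vonMangoldt n / (n * Real.log q) : ℝ) : ℂ) * χ n *
          exp (τ * I * (Real.log n / Real.log q : ℝ)) * k (Real.log n / Real.log q)) +
        (Y.map fun ζ => Lh k (ζ - τ * I)).sum - (if χ = 1 then Lh k (-(τ * I)) else 0)‖ ≤
      C * (∫ y : ℝ, ‖Lh k (l + y * I)‖ * √|y|) / √(Real.log q) +
        C * D * Real.log q ^ 3 / (q : ℝ) ^ 2

/-- general facts on the transforms -/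
def LpS : Prop :=
  ∀ (f : ℝ → ℝ) (x : ℝ), Adm f x →
    (∃ C : ℝ, 1 ≤ C ∧ ∀ z : ℂ, ‖Lp f x z‖ ≤ C * Real.exp (x * max 0 (-z.re)) ∧
      (z ≠ 0 → ‖Lp f x z - f 0 / z‖ ≤ C * Real.exp (x * max 0 (-z.re)) / ‖z‖ ^ 2)) ∧
    (∀ a : ℝ, Lp f x a = Lr f x a) ∧ Antitone (Lr f x) ∧ (∀ a, 0 ≤ Lr f x a) ∧
    (∀ a b ν : ℝ, a ≤ b → ‖Lp f x (a + ν * I) - Lp f x (b + ν * I)‖ ≤ Lr f x a - Lr f x b) ∧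
    ∀ a a' b b' : ℝ, a ≤ a' → 0 ≤ b → b ≤ b' →
      Lr f x (-a) - Lr f x (b - a) ≤ Lr f x (-a') - Lr f x (b' - a')

def AdmS : Prop :=
  (∀ x : ℝ, 0 < x → x ≤ 5 → Adm (par x) x) ∧ Adm tri (7 / 5) ∧
  (∀ κ : ℝ, 0 ≤ κ → Adm (fB κ) (1 / 4) ∧ fB κ 0 / 8 + Lr (fB κ) (1 / 4) (-κ) = Bk κ / 16 ∧
    ∀ ζ : ℂ, ζ ≠ 0 → κ ≤ ζ.re → ‖H2 ζ‖ ≤ (Lp (fB κ) (1 / 4) (ζ - κ)).re) ∧
  (∀ ζ : ℂ, 0 < ζ.re → ‖H2 ζ‖ ≤ 4 / ‖ζ‖ ^ 2 ∧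
    ‖H2 ζ‖ ≤ ((1 - Real.exp (-ζ.re / 4)) / ζ.re) ^ 2) ∧
  ∀ l d ν : ℝ, 0 ≤ l → 0 ≤ d → l + d ≤ 1 / 2 →
    4 * (Lp tri (7 / 5) (-l + ν * I)).re ≤ 9 * (Lp tri (7 / 5) (d + ν * I)).re

def KfS : Prop :=
  ∀ (f : ℝ → ℝ) (x ε : ℝ), Adm f x → 0 < ε → ∃ δ d : ℝ, 0 < δ ∧ 0 < d ∧ d ≤ 1 ∧ ∃ q₀ : ℕ,
    ∀ (q : ℕ) [NeZero q], q₀ ≤ q → ∀ N : Ch q → Multiset ℂ, (∀ χ, NZ χ (N χ)) →
    KFp q N f x ε (δ * Real.log q) ((q : ℝ) ^ δ * Real.log q) d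

def ZetaS : Prop :=
  ∃ c : ℝ, 0 < c ∧ ∀ (q : ℕ) [NeZero q] (ρ : ℂ), 2 / 3 ≤ ρ.re → Phi (1 : Ch q) ρ = 0 →
    c / Real.log (|ρ.im| + 2) ≤ 1 - ρ.re

def PcS : Prop :=
  ∀ κ ε : ℝ, 0 ≤ κ → κ ≤ 10 → 0 < ε → ∃ q₀ : ℕ, ∀ (q : ℕ) [NeZero q], q₀ ≤ q →
    ∀ N : Ch q → Multiset ℂ, (∀ χ, NZ χ (N χ)) → ∀ χ : Ch q,
    (∀ ζ ∈ N χ, |ζ.im| ≤ Real.log q → κ ≤ ζ.re) →
    ((N χ).map fun ζ => ‖H2 ζ‖).sum ≤ (Bk κ + ε) / 16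

open Classical in
/-- the sum over all zeros with the property `P` -/
noncomputable def WW {q : ℕ} [NeZero q] (N : Ch q → Multiset ℂ) (E : ℝ) (P : ℂ → Prop) : ℝ :=
  ∑ χ, (((N χ).filter P).map fun ζ => ‖HH E ζ‖).sum

def HfS : Prop :=
  ∀ E : ℝ, 4 ≤ E → E ≤ 5 → ∃ q₀ : ℕ, ∀ (q : ℕ) [NeZero q], q₀ ≤ q →
    ∀ N : Ch q → Multiset ℂ, (∀ χ, NZ χ (N χ)) → ∀ a : ℕ, a.Coprime q →
    (∀ p : ℕ, p.Prime → p ≡ a [MOD q] → (q : ℝ) ^ (E + 1 / 2) < p) →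
    1 / 16 ≤ WW N E (fun _ => True) + (q : ℝ) ^ (-1 / 10 : ℝ)

def SiegS : Prop :=
  ∀ ε : ℝ, 0 < ε → ∃ c : ℝ, 0 < c ∧ ∀ (q : ℕ) [NeZero q] (χ : Ch q) (β : ℝ), χ ^ 2 = 1 → χ ≠ 1 →
    2 / 3 ≤ β → DirichletCharacter.LFunction χ β = 0 → c * (q : ℝ) ^ (-ε) ≤ 1 - β

/-! ### density rows -/

/-- `∑ μ(m) m^(-1-η) log (y / m)` -/
noncomputable def Mu (η y : ℝ) : ℝ :=
  ∑ m ∈ Icc 1 ⌊y⌋₊, (moebius m : ℝ) * (m : ℝ) ^ (-1 - η) * Real.log (y / m)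

def MuS : Prop :=
  (∃ C : ℝ, ∀ y : ℝ, |Mu 0 y| ≤ C) ∧ Filter.Tendsto (Mu 0) Filter.atTop (nhds 1)

def Bv1S : Prop :=
  ∀ (w : ℕ → ℝ) (V N : ℕ) (s : ℝ), 1 < s → (∀ d, V < d → w d = 0) →
    ∑ n ∈ Icc 1 N, (∑ d ∈ n.divisors, (moebius d : ℝ) * w d) ^ 2 * (n : ℝ) ^ (-s) ≤
      (1 + 1 / (s - 1)) * ∑ n ∈ Icc 1 V, (n : ℝ) ^ (-s) *
        (∑ m ∈ Icc 1 V, (moebius m : ℝ) * (m : ℝ) ^ (-s) * w (n * m)) ^ 2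

/-- the weights of Barban and Vehov without the factor `μ` -/
noncomputable def bv (U V : ℝ) (d : ℕ) : ℝ :=
  (max 0 (Real.log (V / d)) - max 0 (Real.log (U / d))) / Real.log (V / U)

def BvS : Prop :=
  ∀ u c θ ε : ℝ, 0 < u → 0 < c → 0 < θ → 0 < ε → ∃ l₀ : ℝ, ∀ l : ℝ, l₀ ≤ l → ∀ N : ℕ,
    ∑ n ∈ Icc 1 N, (∑ d ∈ n.divisors,
        (moebius d : ℝ) * bv (Real.exp (u * l)) (Real.exp ((u + c) * l)) d) ^ 2 *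
        (n : ℝ) ^ (-1 - θ / l) ≤
      1 + Real.exp (-θ * u) * (1 - Real.exp (-θ * c)) / (θ * c) ^ 2 + ε

/-- sieve weights of level `W` for the modulus `q` -/
structure Sel (q : ℕ) (W : ℝ) (θ : ℕ → ℝ) : Prop where
  one : θ 1 = 1
  abs : ∀ d, |θ d| ≤ 1
  supp : ∀ d, θ d ≠ 0 → (d : ℝ) ≤ W ∧ d.Coprime q
  diag : ∑ d ∈ Icc 1 ⌊W⌋₊, ∑ e ∈ Icc 1 ⌊W⌋₊, θ d * θ e / (d.lcm e : ℝ) ≤
    q / (q.totient * Real.log W)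

def SelS : Prop := ∀ (q : ℕ) (W : ℝ), 1 ≤ q → 2 ≤ W → ∃ θ, Sel q W θ

/-- `∫ t in u..x, exp (α t)` -/
noncomputable def II (u x α : ℝ) : ℝ := (Real.exp (α * x) - Real.exp (α * u)) / α

def GramS : Prop :=
  ∀ φ c u x ε : ℝ, 1 / 4 < φ → 0 < c → φ + 2 * c ≤ u → u < x → 0 < ε → ∃ δ : ℝ, 0 < δ ∧
    ∃ q₀ : ℕ, ∀ (q : ℕ) [NeZero q], q₀ ≤ q → ∀ θ : ℕ → ℝ, Sel q ((q : ℝ) ^ c) θ →
    (∀ α : ℝ, 0 < α → α ≤ δ * Real.log q →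
      ∑ n ∈ (Ioc ⌊(q : ℝ) ^ u⌋₊ ⌊(q : ℝ) ^ x⌋₊).filter (fun n => n.Coprime q),
        (∑ d ∈ n.divisors, θ d) ^ 2 * (n : ℝ) ^ (-1 + α / Real.log q) ≤ (1 + ε) * II u x α / c) ∧
    ∀ (χ : Ch q) (s : ℂ), χ ≠ 1 → 1 - δ ≤ s.re → s.re ≤ 2 → |s.im| ≤ (q : ℝ) ^ δ →
      ‖∑ n ∈ Ioc ⌊(q : ℝ) ^ u⌋₊ ⌊(q : ℝ) ^ x⌋₊,
        (((∑ d ∈ n.divisors, θ d) ^ 2 : ℝ) : ℂ) * χ n * (n : ℂ) ^ (-s)‖ ≤ (q : ℝ) ^ (-δ)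

/-- the cost of a zero in the density estimate -/
noncomputable def c1 (φ a b θ l : ℝ) : ℝ := 1 / II (φ + 2 * a) (2 * φ + 3 * a + b) (2 * l + θ)

/-- the budget in the density estimate -/
noncomputable def S1 (φ a b θ : ℝ) : ℝ :=
  Real.exp (-θ * (φ + 2 * a)) * (1 - Real.exp (-θ * b)) / ((θ * b) ^ 2 * a)

/-- the density estimate without logarithms, in normalised coordinates -/
def D1p (q : ℕ) (N : Ch q → Multiset ℂ) (φ a b θ ε Lm Th : ℝ) : Prop :=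
  ∀ (J : Finset (Ch q)) (z : Ch q → ℂ),
    (∀ χ ∈ J, χ ≠ 1 ∧ z χ ∈ N χ ∧ (z χ).re ≤ Lm ∧ |(z χ).im| ≤ Th) →
    ∑ χ ∈ J, c1 φ a b θ (z χ).re ≤ S1 φ a b θ + ε

def D1S : Prop :=
  ∀ φ a b θ ε : ℝ, 1 / 4 < φ → 0 < a → 0 < b → 0 < θ → 0 < ε → ∃ δ : ℝ, 0 < δ ∧ ∃ q₀ : ℕ,
    ∀ (q : ℕ) [NeZero q], q₀ ≤ q → ∀ N : Ch q → Multiset ℂ, (∀ χ, NZ χ (N χ)) →
    D1p q N φ a b θ ε (δ * Real.log q) ((q : ℝ) ^ δ * Real.log q)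

def DenS : Prop :=
  ∀ ε : ℝ, 0 < ε → ∃ C : ℝ, 1 ≤ C ∧ ∀ (q : ℕ) [NeZero q] (σ t : ℝ) (J : Finset (Ch q))
    (ρ : Ch q → ℂ), 2 / 3 ≤ σ → σ ≤ 1 →
    (∀ χ ∈ J, χ ≠ 1 ∧ DirichletCharacter.LFunction χ (ρ χ) = 0 ∧ σ ≤ (ρ χ).re ∧
      (ρ χ).re ≤ 1 ∧ |(ρ χ).im - t| ≤ 1) →
    (J.card : ℝ) ≤ C * (q : ℝ) ^ (ε + 4 * (1 - σ)) * (|t| + 2) ^ (3 / 4 : ℝ)

def MidS : Prop :=
  ∀ E δ η : ℝ, 4 < E → 0 < δ → 0 < η → ∃ δ' : ℝ, 0 < δ' ∧ ∃ q₀ : ℕ, ∀ (q : ℕ) [NeZero q], q₀ ≤ q →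
    ∀ N : Ch q → Multiset ℂ, (∀ χ, NZ χ (N χ)) →
    WW N E (fun ζ => δ * Real.log q ≤ ζ.re ∨ (q : ℝ) ^ η * Real.log q < |ζ.im|) ≤ (q : ℝ) ^ (-δ')

def TailOf : Prop := BurgS → BaseS → TailS
def PhiOf : Prop := BaseS → PhiS
def CntOf : Prop := PhiS → ExS → GfS → CntS
def GrowOf : Prop := TailS → GrowS
def EfOf : Prop := PhiS → GfS → LapS → EfS
def KfOf : Prop := PhiS → CntS → JdS → GrowS → LpS → EfS → KfS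
def PcOf : Prop := CntS → LpS → AdmS → KfS → ZetaS → PcS
def HfOf : Prop := EfS → HfS
def BvOf : Prop := MuS → Bv1S → BvS
def GramOf : Prop := TailS → GramS
def D1Of : Prop := CntS → TailS → BvS → SelS → GramS → D1S
def DenOf : Prop := BaseS → DenS
def MidOf : Prop := CntS → AdmS → DenS → MidS

end Pool.Agent.MP_c5bf7b_nt.H38
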