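import Mathlib

/-! Statements of the rows for the Burgess bound for all moduli.
Paper proof: /team-store/MP_c5bf7b_H38_burgess.md -/

set_option autoImplicit false

namespace Pool.Agent.MP_c5bf7b_nt.H38

open Finset

/-- a primitive character modulo `m`, as a function on the integers -/
structure PC (m : ℕ) (χ : ℤ → ℂ) : Prop where
  pos : 0 < m
  one : χ 1 = 1
  mul : ∀ a b, χ (a * b) = χ a * χ b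
  per : ∀ a b, a ≡ b [ZMOD m] → χ a = χ b
  zero : ∀ a, ¬ IsCoprime a (m : ℤ) → χ a = 0
  norm : ∀ a, IsCoprime a (m : ℤ) → ‖χ a‖ = 1
  prim : ∀ p : ℕ, p.Prime → p ∣ m →
    ∃ a : ℤ, IsCoprime a (m : ℤ) ∧ a ≡ 1 [ZMOD (m / p : ℕ)] ∧ χ a ≠ 1

/-- the summand of the complete sums -/
noncomputable def cs (χ : ℤ → ℂ) {r : ℕ} (u v : Fin r → ℤ) (x : ℤ) : ℂ :=
  (∏ i, χ (x + u i)) * (starRingEnd ℂ) (∏ i, χ (x + v i))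

/-- one of the `2 r` shifts differs from all the others -/
def SepZ {R : Type} {r : ℕ} (u v : Fin r → R) : Prop :=
  ∃ i : Fin r ⊕ Fin r, ∀ j, j ≠ i → Sum.elim u v i ≠ Sum.elim u v j

/-- one of the `2 r` shifts is incongruent modulo `p` to all the others -/
def Sep (p : ℕ) {r : ℕ} (u v : Fin r → ℤ) : Prop :=
  SepZ (fun i => (u i : ZMod p)) (fun i => (v i : ZMod p))

/-- power sums of the inverses of the shifts -/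
def ps (k : ℕ) {p r : ℕ} (u : Fin r → ZMod p) (y : ZMod p) : ZMod p := ∑ i, ((y + u i)⁻¹) ^ k

/-- the curves of `u` and `v` are tangent at `y` -/
def Tg {p r : ℕ} (u v : Fin r → ZMod p) (y : ZMod p) : Prop :=
  ps 1 u y = ps 1 v y ∧ ps 2 u y = ps 2 v y

/-- the tuples with entries in `[1, B]` -/
noncomputable def box (B r : ℕ) : Finset (Fin r → ℤ) := Fintype.piFinset fun _ => Icc (1 : ℤ) B

open Classical in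
/-- the number of tangencies over `G` among separated tuples of the box -/
noncomputable def tanN (p B r : ℕ) (G : Finset (ZMod p)) : ℕ :=
  ∑ u ∈ box B r, ∑ v ∈ (box B r).filter (fun v => Sep p u v),
    (G.filter fun y => Tg (fun i => (u i : ZMod p)) (fun i => (v i : ZMod p)) y).card

/-- the radical -/
def rad (m : ℕ) : ℕ := ∏ p ∈ m.primeFactors, p

/-- the size of a generic complete sum -/
noncomputable def Vv (m : ℕ) : ℝ :=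
  ∏ p ∈ m.primeFactors, if m.factorization p = 1 then √(p : ℝ) else (p : ℝ) ^ (m.factorization p - 1)

open Classical in
/-- the product of the bad primes -/
noncomputable def Qb (m : ℕ) {r : ℕ} (u v : Fin r → ℤ) : ℕ :=
  ∏ p ∈ m.primeFactors.filter (fun p => ¬ Sep p u v), p

/-- the moment over the residues `x ∈ G` -/
noncomputable def mom (χ : ℤ → ℂ) (B r : ℕ) (G : Finset ℕ) : ℝ :=
  ∑ u ∈ box B r, ∑ v ∈ box B r, ‖∑ x ∈ G, cs χ u v x‖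

/-- the multiplicative energy -/
def En (m N : ℕ) (P : Finset ℕ) : ℕ :=
  (((Icc 1 N ×ˢ P) ×ˢ (Icc 1 N ×ˢ P)).filter
    fun t : (ℕ × ℕ) × (ℕ × ℕ) => t.1.1 * t.2.2 ≡ t.2.1 * t.1.2 [MOD m]).card

/-- pairs `(n, a)` with `n / (K a)` outside `G` -/
def Bad (m K N : ℕ) (P G : Finset ℕ) : ℕ :=
  ((Icc 1 N ×ˢ P).filter fun t : ℕ × ℕ => ∃ x ∈ range m \ G, t.1 ≡ K * t.2 * x [MOD m]).card

/-- polynomial phases of degree `d` whose `d`-th difference is `w` -/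
def Ph : ℕ → ℂ → (ℕ → ℂ) → Prop
  | 0, w, F => ‖w‖ = 1 ∧ ∀ b, F b = w
  | d + 1, w, F => (∀ b, ‖F b‖ = 1) ∧ Ph d w fun b => F (b + 1) * (starRingEnd ℂ) (F b)

/-- the partial sums -/
noncomputable def Sm (χ : ℤ → ℂ) (N : ℕ) : ℂ := ∑ n ∈ Icc 1 N, χ n

def Fact1S : Prop :=
  ∀ (q : ℕ) [NeZero q] (χ : DirichletCharacter ℂ q), χ ≠ 1 →
    ∃ (m : ℕ) (ψ : ℤ → ℂ), 1 < m ∧ m ∣ q ∧ PC m ψ ∧ ∀ n : ℤ, IsCoprime n (q : ℤ) → χ n = ψ n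

def Fact2S : Prop :=
  ∀ (m₁ m₂ : ℕ) (χ : ℤ → ℂ), m₁.Coprime m₂ → PC (m₁ * m₂) χ →
    ∃ χ₁ χ₂ : ℤ → ℂ, PC m₁ χ₁ ∧ PC m₂ χ₂ ∧ ∀ a, χ a = χ₁ a * χ₂ a

def WeilS : Prop :=
  ∀ (p r : ℕ) (χ : ℤ → ℂ) (u v : Fin r → ℤ), p.Prime → PC p χ → Sep p u v →
    ‖∑ x ∈ range p, cs χ u v x‖ ≤ 2 * r * √(p : ℝ)

def HPS : Prop :=
  ∀ (p a r : ℕ) (χ : ℤ → ℂ) (u v : Fin r → ℤ), p.Prime → 2 ≤ a → PC (p ^ a) χ → Sep p u v →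
    ‖∑ x ∈ range (p ^ a), cs χ u v x‖ ≤ 2 * r * (p : ℝ) ^ (a - 1)

open Classical in
def P3S : Prop :=
  ∀ (p r : ℕ) (χ : ℤ → ℂ) (u v : Fin r → ℤ) (G : Finset (ZMod p)), p.Prime → PC (p ^ 3) χ →
    Sep p u v →
    ‖∑ x ∈ (range (p ^ 3)).filter (fun x : ℕ => (x : ZMod p) ∈ G), cs χ u v x‖ ≤
      2 * r * (p * √(p : ℝ)) + (p : ℝ) ^ 2 *
        (G.filter fun y => Tg (fun i => (u i : ZMod p)) (fun i => (v i : ZMod p)) y).card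

def EszS : Prop :=
  ∀ r : ℕ, ∃ C : ℝ, 1 ≤ C ∧ ∀ (p : ℕ) (L : Finset (Fin r → ZMod p))
    (R : Finset (ZMod p × ZMod p × ZMod p)), p.Prime → C ≤ p → C * L.card ≤ (p : ℝ) ^ 2 →
    (∀ t ∈ R, ∃ u ∈ L, ∃ v ∈ L, SepZ u v ∧ (∀ i, t.1 + u i ≠ 0) ∧ (∀ i, t.1 + v i ≠ 0) ∧
      Tg u v t.1 ∧ ps 1 u t.1 = t.2.1 ∧ ps 2 u t.1 = t.2.2) →
    (R.card : ℝ) ≤ C * L.card * √(L.card : ℝ)

def TanS : Prop :=
  ∀ k r : ℕ, 1 ≤ k → 2 * k ≤ r → ∃ C : ℝ, 1 ≤ C ∧ ∀ (p B : ℕ) (μ : ℝ), p.Prime → C ≤ p → B < p →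
    p ≤ B ^ k → 1 / (p : ℝ) ≤ μ → μ ≤ 1 / 4 →
    ∃ G : Finset (ZMod p), (p : ℝ) ≤ G.card + (C / μ + B) ∧
      (tanN p B r G : ℝ) ≤ C * (B : ℝ) ^ (2 * r) * √μ

def PolyS : Prop :=
  ∀ (m K d : ℕ) (χ : ℤ → ℂ) (n n' t : ℤ), PC m χ → 1 ≤ d → m ∣ K ^ (d + 1) →
    n * n' ≡ 1 [ZMOD m] →
    Ph d (χ (1 + (-1) ^ (d - 1) * (d - 1).factorial * (K * t * n') ^ d))
      fun b : ℕ => χ (n + K * t * b)

def NetS : Prop :=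
  ∀ d : ℕ, ∃ C : ℝ, 1 ≤ C ∧ ∀ B : ℕ, 1 ≤ B → ∃ W : Finset (ℕ → ℂ), W.Nonempty ∧
    (W.card : ℝ) ≤ C * (B : ℝ) ^ ((d + 1) ^ 2) ∧ (∀ w ∈ W, ∀ b, ‖w b‖ ≤ 1) ∧
    ∀ (z : ℂ) (F : ℕ → ℂ), Ph d z F → ∃ w ∈ W, ∀ b ≤ B, ‖F b - w b‖ ≤ 1 / B

def GcdS : Prop :=
  ∀ m B r : ℕ, 1 ≤ B →
    (((box B r ×ˢ box B r).filter fun t => B ≤ Qb m t.1 t.2).card : ℝ) ≤
      (2 * (2 * r + 1 : ℝ) ^ m.primeFactors.card) ^ (2 * r) * (B : ℝ) ^ r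

def Mom1S : Prop :=
  ∀ (m B r : ℕ) (χ : ℤ → ℂ), PC m χ → 1 ≤ B → 1 ≤ r →
    mom χ B r (range m) ≤ (2 * r : ℝ) ^ m.primeFactors.card * Vv m * B * (B : ℝ) ^ (2 * r) +
      m * ((2 * (2 * r + 1 : ℝ) ^ m.primeFactors.card) ^ (2 * r) * (B : ℝ) ^ r)

open Classical in
def Mom3S : Prop :=
  ∀ (m p B r : ℕ) (χ : ℤ → ℂ) (G : Finset (ZMod p)), p.Prime → m.Coprime p →
    PC (m * p ^ 3) χ → 1 ≤ B → B ≤ p → 1 ≤ r →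
    mom χ B r ((range (m * p ^ 3)).filter fun x : ℕ => (x : ZMod p) ∈ G) ≤
      (2 * r : ℝ) ^ m.primeFactors.card * Vv m * B *
        (2 * r * (p * √(p : ℝ)) * (B : ℝ) ^ (2 * r) + (p : ℝ) ^ 2 * tanN p B r G) +
      (m * p ^ 3 : ℕ) *
        ((2 * (2 * r + 1 : ℝ) ^ (m * p ^ 3).primeFactors.card) ^ (2 * r) * (B : ℝ) ^ r)

open Classical in
def EnerS : Prop :=
  (∀ (m N A : ℕ) (P : Finset ℕ), 1 ≤ m → 1 ≤ A → (∀ a ∈ P, a.Prime ∧ a ≤ A ∧ a.Coprime m) →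
    (En m N P : ℝ) ≤ P.card * N * (N / m + 1) +
      P.card * (2 * N * A / m + 1) * (N * (1 + Real.log A) + A)) ∧
  ∀ (m p K N : ℕ) (P : Finset ℕ) (G : Finset (ZMod p)), p.Prime → p ∣ m → K.Coprime p →
    (∀ a ∈ P, a.Coprime p) →
    (Bad m K N P ((range m).filter fun x : ℕ => (x : ZMod p) ∈ G) : ℝ) ≤
      √((p - G.card : ℝ) * En p N P)

def CoreS : Prop :=
  ∀ s : ℕ, 1 ≤ s → ∃ C : ℝ, 1 ≤ C ∧ ∀ (mB mM K N A B r : ℕ) (χB χM : ℤ → ℂ) (P G : Finset ℕ),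
    PC mB χB → PC mM χM → mB ∣ K ^ (s + 1) → K.Coprime mM → 1 ≤ N → 1 ≤ B → 1 ≤ r → P.Nonempty →
    (∀ a ∈ P, a ≤ A ∧ a.Coprime mM) → G ⊆ range mM →
    ‖Sm (fun n => χB n * χM n) N‖ ≤ 2 * K * A * B + N / B + Bad mM K N P G / P.card +
      N * (C * (B : ℝ) ^ ((s + 1) ^ 2) * En mM N P * mom χM B r G /
        ((P.card * N : ℝ) ^ 2 * (B : ℝ) ^ (2 * r))) ^ (1 / (2 * r : ℝ))

def WeylS : Prop :=
  ∀ (d : ℕ) (ε : ℝ), 1 ≤ d → 0 < ε → ∃ C : ℝ, 1 ≤ C ∧ ∀ (m K N B : ℕ) (χ : ℤ → ℂ), PC m χ →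
    m ∣ K ^ (d + 1) → m / m.gcd (K ^ d) ≤ N → 1 ≤ B →
    ‖Sm χ N‖ ≤ 2 * K * B +
      C * N * ((m : ℝ) ^ ε * (1 / (m / m.gcd (K ^ d) : ℕ) + 1 / B)) ^ (1 / (2 : ℝ) ^ d)

/-- the Burgess bound for the primitive characters whose modulus has the property `H ε` -/
def BurOn (H : ℝ → ℕ → Prop) : Prop :=
  ∀ ε : ℝ, 0 < ε → ε ≤ 1 / 10 → ∃ δ C : ℝ, 0 < δ ∧ 1 ≤ C ∧ ∀ (m N : ℕ) (χ : ℤ → ℂ), 1 < m →
    PC m χ → H ε m → (m : ℝ) ^ (1 / 4 + ε) ≤ N → N ≤ m ^ 2 → ‖Sm χ N‖ ≤ C * N * (m : ℝ) ^ (-δ)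

/-- small radical -/
def HW (ε : ℝ) (m : ℕ) : Prop := (rad m : ℝ) ≤ (m : ℝ) ^ (1 / 4 + ε / 4)

/-- the main case -/
def HM1 (ε : ℝ) (m : ℕ) : Prop :=
  ∃ mB mM : ℕ, m = mB * mM ∧ mB.Coprime mM ∧ (rad mB * Vv mM) ^ 2 ≤ m ∧ rad mB ^ 4 ≤ m ∧
    (m : ℝ) ^ (ε / 8) * Vv mM ≤ mM

/-- the cube of a large prime -/
def HM2 (_ε : ℝ) (m : ℕ) : Prop :=
  ∃ mB m₁ p : ℕ, p.Prime ∧ m = mB * (m₁ * p ^ 3) ∧ mB.Coprime (m₁ * p ^ 3) ∧ m₁.Coprime p ∧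
    m < p ^ 4 ∧ rad mB ^ 3 ≤ mB ∧ Vv m₁ ^ 2 ≤ m₁

def SplitS : Prop := ∀ (ε : ℝ) (m : ℕ), 0 < ε → 1 < m → HW ε m ∨ HM1 ε m ∨ HM2 ε m

/-- the Burgess bound for all moduli -/
def BurgS : Prop :=
  ∀ ε : ℝ, 0 < ε → ∃ δ C : ℝ, 0 < δ ∧ 1 ≤ C ∧ ∀ (q : ℕ) [NeZero q] (χ : DirichletCharacter ℂ q)
    (N : ℕ), χ ≠ 1 → (q : ℝ) ^ (1 / 4 + ε) ≤ N →
    ‖∑ n ∈ Icc 1 N, χ n‖ ≤ C * N * (q : ℝ) ^ (-δ)

def TanOf : Prop := EszS → TanS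
def MomOf : Prop := Fact2S → WeilS → HPS → P3S → GcdS → Mom1S ∧ Mom3S
def CoreOf : Prop := PolyS → NetS → CoreS
def WeylOf : Prop := PolyS → WeylS
def BWOf : Prop := WeylS → BurOn HW
def BM1Of : Prop := Fact2S → Mom1S → EnerS → CoreS → BurOn HM1
def BM2Of : Prop := Fact2S → Mom3S → TanS → EnerS → CoreS → BurOn HM2
def BurgOf : Prop := Fact1S → SplitS → BurOn HW → BurOn HM1 → BurOn HM2 → BurgS

end Pool.Agent.MP_c5bf7b_nt.H38
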