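import Pool.Agent.MP_c5bf7b_nt.H38.SpecA

/-! Statements of the rows on the whole family of characters.
Paper proof: /team-store/MP_c5bf7b_H38_linnik.md -/

set_option autoImplicit false

namespace Pool.Agent.MP_c5bf7b_nt.H38

open Finset Complex

/-- the slack in all inequalities -/
noncomputable def e0 : ℝ := 1 / 100000

/-- the loss per level of the window -/
noncomputable def c0 : ℝ := 1 / 1000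

/-- the exponent used in the density estimate -/
noncomputable def f0 : ℝ := 2501 / 10000

def PosS : Prop :=
  ∀ (q : ℕ) [NeZero q] (f : ℝ → ℝ) (x l : ℝ), 2 ≤ q → (∀ t, 0 ≤ t → t ≤ x → 0 ≤ f t) →
    (∀ (χ ψ : Ch q) (s t : ℝ), 0 ≤ (Kn q f x 1 l).re + (Kn q f x χ (l + s * I)).re +
      (Kn q f x ψ (l + t * I)).re + (Kn q f x (ψ * χ) (l + (t + s : ℝ) * I)).re / 2 +
      (Kn q f x (ψ * χ⁻¹) (l + (t - s : ℝ) * I)).re / 2) ∧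
    (∀ (χ : Ch q) (t : ℝ), 0 ≤ 5 * (Kn q f x 1 l).re + 8 * (Kn q f x χ (l + t * I)).re +
      4 * (Kn q f x (χ ^ 2) (l + (2 * t : ℝ) * I)).re +
      (Kn q f x (χ ^ 3) (l + (3 * t : ℝ) * I)).re) ∧
    ∀ (J : Finset (Ch q)) (t : Ch q → ℝ) (y : ℝ), 0 ≤ y ^ 2 * (Kn q f x 1 l).re +
      2 * y * ∑ χ ∈ J, (Kn q f x χ (l + t χ * I)).re +
      ∑ χ ∈ J, ∑ ψ ∈ J, (Kn q f x (χ * ψ⁻¹) (l + (t χ - t ψ : ℝ) * I)).re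

open Classical in
/-- the zeros outside `E` of level `k` are to the left of `l - c0 k` -/
def Far {q : ℕ} (N E : Ch q → Multiset ℂ) (T l : ℝ) : Prop :=
  ∀ χ, ∀ ζ ∈ N χ - E χ, ∀ k : ℕ, |ζ.im| ≤ 10 ^ k * T → l - c0 * k ≤ ζ.re

open Classical in
/-- the extremal zero and its conjugate -/
noncomputable def EE {q : ℕ} (χ₁ : Ch q) (ζ₁ : ℂ) (χ : Ch q) : Multiset ℂ :=
  (if χ = χ₁ then {ζ₁} else 0) +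
    if χ = χ₁⁻¹ ∧ ¬ (χ₁ = χ₁⁻¹ ∧ ζ₁.im = 0) then {(starRingEnd ℂ) ζ₁} else 0

open Classical in
structure Win {q : ℕ} (N : Ch q → Multiset ℂ) (Lm T l₁ l₂ : ℝ) (χ₁ : Ch q) (ζ₁ : ℂ) : Prop where
  le : ∀ χ, EE χ₁ ζ₁ χ ≤ N χ
  im : |ζ₁.im| ≤ T
  re : ζ₁.re = l₁
  l12 : l₁ ≤ l₂
  l2 : l₂ ≤ Lm
  far : Far N (EE χ₁ ζ₁) T l₂
  far0 : Far N 0 T l₁
  two : l₂ = Lm ∨ ∃ χ, ∃ ζ ∈ N χ - EE χ₁ ζ₁ χ, |ζ.im| ≤ T ∧ ζ.re = l₂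

def WinS : Prop :=
  ∀ (q : ℕ) [NeZero q] (N : Ch q → Multiset ℂ) (Lm l : ℝ), 0 ≤ Lm → 0 < l →
    (∀ χ, ∀ ζ ∈ N χ, 0 < ζ.re ∧ (starRingEnd ℂ) ζ ∈ N χ⁻¹) →
    ∃ T : ℝ, l ≤ T ∧ T ≤ 10 ^ (2000 * Lm) * l ∧
      (Far N 0 T Lm ∨ ∃ l₁ l₂ χ₁ ζ₁, Win N Lm T l₁ l₂ χ₁ ζ₁)

/-- the basic inequality on the line `re w = lam` -/
def KW (q : ℕ) (N E : Ch q → Multiset ℂ) (f : ℝ → ℝ) (x T lam : ℝ) : Prop :=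
  ∀ (χ : Ch q) (τ : ℝ) (Y : Multiset ℂ), |τ| ≤ 3 * T → Y ≤ N χ → E χ ≤ Y → Y.card ≤ 4 →
    (Kn q f x χ (lam + τ * I)).re ≤ Rhs f x e0 χ (lam + τ * I) Y

def KwS : Prop :=
  ∀ (q : ℕ) (N E : Ch q → Multiset ℂ) (f : ℝ → ℝ) (x Lm Th T l : ℝ), 2 ≤ q →
    KF4 q N f x e0 Lm Th → (∀ χ, ∀ ζ ∈ N χ, 0 < ζ.re) → Far N E T l → Real.log q ≤ T →
    3 * T ≤ Th → 0 ≤ l → l ≤ Lm → KW q N E f x T (max (l - c0) 0)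

/-- the transform of the parabola function of length `i / 10` -/
noncomputable def Fp (i : ℕ) (z : ℝ) : ℝ := Lr (par (i / 10)) (i / 10) z

noncomputable def Ft (z : ℝ) : ℝ := Lr tri (7 / 5) z

/-- what is known for one modulus -/
structure Env (q : ℕ) [NeZero q] (N : Ch q → Multiset ℂ) (Lm Th C M : ℝ) : Prop where
  two : 2 ≤ q
  lm : 10 ≤ Lm
  m : 10 ≤ M
  pos : ∀ χ, ∀ ζ ∈ N χ, 0 < ζ.re ∧ (starRingEnd ℂ) ζ ∈ N χ⁻¹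
  cnt : ∀ χ, Cnt (Real.log q) C (N χ)
  kf : ∀ i ∈ Icc 8 35, KF4 q N (par ((i : ℕ) / 10)) ((i : ℕ) / 10) e0 Lm Th
  kt : KF4 q N tri (7 / 5) e0 Lm Th
  zeta : ∀ ζ ∈ N 1, |ζ.im| ≤ Th → M ≤ ζ.re
  pc : ∀ χ, ∀ i ≤ 30, (∀ ζ ∈ N χ, |ζ.im| ≤ Real.log q → (i : ℕ) / 10 ≤ ζ.re) →
    ((N χ).map fun ζ => ‖H2 ζ‖).sum ≤ (Bk ((i : ℕ) / 10) + e0) / 16
  d1 : ∀ i ∈ Icc 8 24, ∀ j ∈ Icc 10 40, ∀ k ∈ Icc 1 12,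
    D1p q N f0 ((i : ℕ) / 200) ((j : ℕ) / 100) ((k : ℕ) / 2) e0 Lm Th

/-! ### the inequalities -/

def ZAI (l₁ : ℝ) : Prop :=
  ∀ i ∈ Icc 8 35, 0 ≤ max (5 * Fp i (-l₁) - 8 * Fp i c0 + 13 / 8)
    (6 * Fp i (-l₁) - 9 * Fp i c0 + 12 / 8) + 20 * e0

def ZBI (l₁ : ℝ) : Prop := l₁ ≤ 1 / 2 → 0 ≤ 5 * Ft (-l₁) - 8 * Ft c0 + 63 / 40 + 20 * e0

def LAI (l₁ l₂ : ℝ) : Prop :=
  10 ≤ l₂ ∨ (∀ i ∈ Icc 8 35, 0 ≤ Fp i (-l₂) - 2 * Fp i c0 + 3 / 8 + 20 * e0) ∨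
    ∀ i ∈ Icc 8 35, 0 ≤ 3 / 2 * Fp i (-l₂) - Fp i (l₁ - l₂) / 2 - 2 * Fp i c0 + 5 / 16 + 20 * e0

def LBI (l₂ : ℝ) : Prop :=
  10 ≤ l₂ ∨ (∀ i ∈ Icc 8 35, 0 ≤ Fp i (-l₂) - 2 * Fp i c0 + 3 / 8 + 20 * e0) ∨
    ∀ i ∈ Icc 8 35, 0 ≤ 2 * Fp i (-l₂) - 3 * Fp i c0 + 2 / 8 + 20 * e0

def LCI (l₁ l₂ : ℝ) : Prop :=
  (∀ i ∈ Icc 8 35, 0 ≤ Fp i (-l₂) - Fp i (l₁ - l₂) - Fp i c0 + 3 / 8 + 20 * e0) ∨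
    ∀ i ∈ Icc 8 35, 0 ≤ 2 * (Fp i (-l₂) - Fp i (l₁ - l₂)) - Fp i c0 + 2 / 8 + 20 * e0

def ZfS : Prop :=
  ∀ (q : ℕ) [NeZero q] (N : Ch q → Multiset ℂ) (Lm Th C M T l₁ l₂ : ℝ) (χ₁ : Ch q) (ζ₁ : ℂ),
    Env q N Lm Th C M → Win N Lm T l₁ l₂ χ₁ ζ₁ → Real.log q ≤ T → 3 * T ≤ Th → χ₁ ≠ 1 →
    (χ₁ ≠ χ₁⁻¹ → ZAI l₁) ∧ (χ₁ = χ₁⁻¹ → ζ₁.im ≠ 0 → ZBI l₁)

def LsS : Prop :=
  ∀ (q : ℕ) [NeZero q] (N : Ch q → Multiset ℂ) (Lm Th C M T l₁ l₂ : ℝ) (χ₁ : Ch q) (ζ₁ : ℂ),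
    Env q N Lm Th C M → Win N Lm T l₁ l₂ χ₁ ζ₁ → Real.log q ≤ T → 3 * T ≤ Th → χ₁ ≠ 1 →
    (χ₁ ≠ χ₁⁻¹ → LAI l₁ l₂) ∧ (χ₁ = χ₁⁻¹ → ζ₁.im ≠ 0 → LBI l₂) ∧
      (χ₁ = χ₁⁻¹ → ζ₁.im = 0 → l₂ = Lm ∨ LCI l₁ l₂)

open Classical in
/-- the second density estimate, for a general test function -/
def D2S : Prop :=
  ∀ (q : ℕ) [NeZero q] (N E : Ch q → Multiset ℂ) (f : ℝ → ℝ) (x T lam cE θ : ℝ) (nE : ℕ)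
    (J : Finset (Ch q)) (z : Ch q → ℂ), 2 ≤ q → Adm f x → KW q N E f x T lam →
    (∀ χ, E χ ≤ N χ) → E 1 = 0 → ∑ χ, (E χ).card ≤ nE → nE ≤ 2 → 0 ≤ cE →
    (∀ χ, ∀ ζ ∈ E χ, Lr f x (ζ.re - lam) - Lr f x 0 ≤ cE) → 0 < θ →
    (∀ χ ∈ J, χ ≠ 1 ∧ z χ ∈ N χ ∧ |(z χ).im| ≤ T) →
    ∑ χ ∈ J, max 0 (Lr f x ((z χ).re - lam) - cE * ((E χ).erase (z χ)).card -
      (f 0 / 8 + e0 + θ * (Lr f x (-lam) + e0) / 2 + (f 0 / 8 + e0) / (2 * θ))) ≤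
      max 0 ((Lr f x (-lam) - f 0 / 8 + nE * cE) / (2 * θ))

/-- the weight of a character whose first zero is at `l` -/
noncomputable def wt (E l : ℝ) : ℝ :=
  Real.exp (-E * l) * (Bk ((min ⌊10 * l⌋₊ 30 : ℕ) / 10) + e0)

/-- the weight of a character with `n` zeros at `l₁` and the others beyond `l₂` -/
noncomputable def own (E : ℝ) (n : ℕ) (l₁ l₂ : ℝ) : ℝ :=
  min (wt E l₁) (Real.exp (-E * l₂) * (Bk ((min ⌊10 * l₁⌋₊ 30 : ℕ) / 10) + e0) +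
    (Real.exp (-E * l₁) - Real.exp (-E * l₂)) * n * (4 * (1 - Real.exp (-l₁ / 4)) / l₁) ^ 2)

open Classical in
def SumS : Prop :=
  ∀ (q : ℕ) [NeZero q] (N E : Ch q → Multiset ℂ) (Lm Th C M T l₁ l₂ e : ℝ),
    Env q N Lm Th C M → (∀ χ, E χ ≤ N χ) → E 1 = 0 → (∀ χ, ∀ ζ ∈ E χ, ζ.re = l₁) →
    Far N E T l₂ → 0 < l₁ → l₁ ≤ l₂ → l₂ ≤ Lm → Real.log q ≤ T → T ≤ Th → 0 ≤ e →
    ∃ (J : Finset (Ch q)) (z : Ch q → ℂ),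
      (∀ χ ∈ J, χ ≠ 1 ∧ E χ = 0 ∧ z χ ∈ N χ ∧ |(z χ).im| ≤ T ∧ l₂ ≤ (z χ).re ∧ (z χ).re < Lm) ∧
      16 * WW N e (fun ζ => ζ.re < Lm ∧ |ζ.im| ≤ T) ≤ ∑ χ ∈ J, wt e (z χ).re +
        ∑ χ ∈ univ.filter (fun χ => E χ ≠ 0), own e (E χ).card l₁ l₂ +
        3 * Real.exp (-e * max M l₂)

def OutS : Prop :=
  ∀ C : ℝ, 1 ≤ C → ∃ C' : ℝ, 1 ≤ C' ∧ ∀ (q : ℕ) [NeZero q] (N E : Ch q → Multiset ℂ)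
    (Lm Th M T l₂ e : ℝ), Env q N Lm Th C M → (∀ χ, ∀ ζ ∈ E χ, |ζ.im| ≤ T) → Far N E T l₂ →
    Real.log q ≤ T → 4 ≤ e → e ≤ 5 →
    WW N e (fun ζ => ζ.re < Lm ∧ T < |ζ.im| ∧ |ζ.im| ≤ Th) ≤
      C' * Real.exp (-2 * l₂) / Real.log q

/-! ### the numerical part -/

/-- the constraints on the first zeros: `nm` characters have it at `l₁`, the others at the points
of `J`; `nE` zeros are at `l₁`; `ex` further zeros at `l₁` for each of the `nm` characters -/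
structure Cfg (nm nE ex : ℕ) (l₁ l₂ : ℝ) (J : Multiset ℝ) : Prop where
  pos : 0 < l₁
  l12 : l₁ ≤ l₂
  mem : ∀ l ∈ J, l₂ ≤ l
  d1 : ∀ i ∈ Icc 8 24, ∀ j ∈ Icc 10 40, ∀ k ∈ Icc 1 12,
    (J.map (c1 f0 ((i : ℕ) / 200) ((j : ℕ) / 100) ((k : ℕ) / 2))).sum +
      nm * c1 f0 ((i : ℕ) / 200) ((j : ℕ) / 100) ((k : ℕ) / 2) l₁ ≤
      S1 f0 ((i : ℕ) / 200) ((j : ℕ) / 100) ((k : ℕ) / 2) + e0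
  d2 : ∀ i ∈ Icc 8 35, ∀ θ lam cE bb : ℝ, 0 < θ → 0 ≤ lam → lam + c0 ≤ l₂ → 0 ≤ cE →
    Fp i (l₁ - lam) - Fp i 0 ≤ cE →
    1 / 8 + e0 + θ * (Fp i (-lam) + e0) / 2 + (1 / 8 + e0) / (2 * θ) ≤ bb →
    (J.map fun l => max 0 (Fp i (l - lam) - bb)).sum +
      nm * max 0 (Fp i (l₁ - lam) - cE * ex - bb) ≤
      max 0 ((Fp i (-lam) - 1 / 8 + nE * cE) / (2 * θ))

def NumA (e : ℝ) : Prop :=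
  ∀ l₁ l₂ J, Cfg 2 2 0 l₁ l₂ J → ZAI l₁ → LAI l₁ l₂ →
    (J.map (wt e)).sum + 2 * own e 1 l₁ l₂ ≤ 1 - 1 / 200

def NumB (e : ℝ) : Prop :=
  ∀ l₁ l₂ J, Cfg 1 2 1 l₁ l₂ J → ZBI l₁ → LBI l₂ →
    (J.map (wt e)).sum + own e 2 l₁ l₂ ≤ 1 - 1 / 200

def NumC (e : ℝ) : Prop :=
  ∀ l₁ l₂ J, Cfg 1 1 0 l₁ l₂ J → LCI l₁ l₂ →
    (J.map (wt e)).sum + own e 1 l₁ l₂ ≤ 1 - min l₁ 1 / 200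

def NumG (e : ℝ) : Prop :=
  ∀ l J, Cfg 0 0 0 l l J → 10 ≤ l → (J.map (wt e)).sum ≤ 1 / 2

def NumD : Prop := ∃ C : ℝ, 1 ≤ C ∧ ∀ l₁ l₂, 0 < l₁ → l₁ ≤ l₂ → LCI l₁ l₂ →
  Real.exp (-2 * l₂) ≤ C * l₁

/-- from the zeros to the configuration -/
def CfgS : Prop :=
  ∀ (q : ℕ) [NeZero q] (N : Ch q → Multiset ℂ) (Lm Th C M T l₁ l₂ : ℝ) (J : Finset (Ch q))
    (z : Ch q → ℂ), Env q N Lm Th C M → Real.log q ≤ T → 3 * T ≤ Th →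
    (Far N 0 T l₁ → 0 < l₁ → l₁ ≤ Lm →
      (∀ χ ∈ J, χ ≠ 1 ∧ z χ ∈ N χ ∧ |(z χ).im| ≤ T ∧ l₁ ≤ (z χ).re ∧ (z χ).re < Lm) →
      Cfg 0 0 0 l₁ l₁ (J.val.map fun χ => (z χ).re)) ∧
    ∀ (χ₁ : Ch q) (ζ₁ : ℂ), Win N Lm T l₁ l₂ χ₁ ζ₁ → χ₁ ≠ 1 →
      (∀ χ ∈ J, χ ≠ 1 ∧ EE χ₁ ζ₁ χ = 0 ∧ z χ ∈ N χ ∧ |(z χ).im| ≤ T ∧ l₂ ≤ (z χ).re ∧
        (z χ).re < Lm) →
      (χ₁ ≠ χ₁⁻¹ → Cfg 2 2 0 l₁ l₂ (J.val.map fun χ => (z χ).re)) ∧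
      (χ₁ = χ₁⁻¹ → ζ₁.im ≠ 0 → Cfg 1 2 1 l₁ l₂ (J.val.map fun χ => (z χ).re)) ∧
      (χ₁ = χ₁⁻¹ → ζ₁.im = 0 → Cfg 1 1 0 l₁ l₂ (J.val.map fun χ => (z χ).re))

/-- the environment exists for all large moduli -/
def EnvS : Prop :=
  ∃ C : ℝ, 1 ≤ C ∧ ∀ M : ℝ, 10 ≤ M → ∃ η : ℝ, 0 < η ∧ ∀ δ : ℝ, 0 < δ → δ ≤ η → ∃ q₀ : ℕ,
    ∀ (q : ℕ) [NeZero q], q₀ ≤ q → ∀ N : Ch q → Multiset ℂ, (∀ χ, NZ χ (N χ)) →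
    Env q N (δ * Real.log q) ((q : ℝ) ^ η * Real.log q) C M

/-- the sum over the zeros close to the line `re s = 1`; `s` is a lower bound for real zeros of
real characters -/
def NearS (e : ℝ) : Prop :=
  ∀ C : ℝ, 1 ≤ C → ∃ M l₀ : ℝ, 10 ≤ M ∧ ∀ (q : ℕ) [NeZero q] (N : Ch q → Multiset ℂ)
    (Lm Th s : ℝ), Env q N Lm Th C M → l₀ ≤ Real.log q → l₀ ≤ Lm →
    3 * (10 ^ (2000 * Lm) * Real.log q) ≤ Th → 0 < s → s ≤ 1 →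
    (∀ χ : Ch q, χ = χ⁻¹ → χ ≠ 1 → ∀ ζ ∈ N χ, ζ.im = 0 → s ≤ ζ.re) → Real.exp (-Lm) ≤ s →
    16 * WW N e (fun ζ => ζ.re < Lm ∧ |ζ.im| ≤ Th) ≤ 1 - s / 400

/-- the exponent `L` is admissible -/
def LinS (L : ℝ) : Prop :=
  ∃ c : ℝ, 0 < c ∧ ∃ B : ℕ, ∀ b : ℕ, B ≤ b → ∀ a : ℕ, 1 ≤ a → a < b → Nat.Coprime a b →
    ∃ p : ℕ, p.Prime ∧ p % b = a ∧ (p : ℝ) < c * (b : ℝ) ^ L

def ZfOf : Prop := LpS → AdmS → PosS → KwS → ZfS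
def LsOf : Prop := LpS → AdmS → PosS → KwS → LsS
def D2Of : Prop := LpS → PosS → D2S
def SumOf : Prop := AdmS → SumS
def OutOf : Prop := AdmS → OutS
def CfgOf : Prop := LpS → AdmS → KwS → D2S → CfgS
def EnvOf : Prop := CntS → AdmS → KfS → ZetaS → PcS → D1S → EnvS
def NearOf : Prop :=
  WinS → ZfS → LsS → SumS → OutS → CfgS → NumD →
    ∀ e : ℝ, 4 ≤ e → e ≤ 5 → NumA e → NumB e → NumC e → NumG e → NearS e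
def LinOf : Prop :=
  CntS → EnvS → HfS → MidS → SiegS → ∀ e : ℝ, 4 < e → e ≤ 5 → NearS e → LinS (e + 1 / 2)

end Pool.Agent.MP_c5bf7b_nt.H38
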