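import Pool.Agent.MP_c5bf7b_nt.H38.SpecB

/-! Row SPLIT: the trichotomy of the moduli. -/

set_option autoImplicit false

namespace Pool.Agent.MP_c5bf7b_nt.H38

open Finset

namespace Spl

/-- the part of `m` supported on the primes of `T` -/
def part (m : ℕ) (T : Finset ℕ) : ℕ := ∏ p ∈ T, p ^ m.factorization p

theorem part_fact (m : ℕ) (T : Finset ℕ) (hT : T ⊆ m.primeFactors) (q : ℕ) :
    (part m T).factorization q = if q ∈ T then m.factorization q else 0 := by
  unfold part
  rw [Nat.factorization_prod (fun p hp =>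
    pow_ne_zero _ (Nat.prime_of_mem_primeFactors (hT hp)).ne_zero)]
  rw [Finset.sum_apply']
  have : ∀ p ∈ T, (p ^ m.factorization p).factorization q
      = if q = p then m.factorization q else 0 := by
    intro p hp
    rw [(Nat.prime_of_mem_primeFactors (hT hp)).factorization_pow, Finsupp.single_apply]
    by_cases h : p = q
    · subst h; simp
    · rw [if_neg h, if_neg (Ne.symm h)]
  rw [Finset.sum_congr rfl this, Finset.sum_ite_eq]

theorem fact_pos {m p : ℕ} (hp : p ∈ m.primeFactors) : 1 ≤ m.factorization p := by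
  rw [← Nat.support_factorization, Finsupp.mem_support_iff] at hp
  omega

theorem part_pf (m : ℕ) (T : Finset ℕ) (hT : T ⊆ m.primeFactors) :
    (part m T).primeFactors = T := by
  ext q
  rw [← Nat.support_factorization, Finsupp.mem_support_iff, part_fact m T hT]
  by_cases h : q ∈ T
  · have := fact_pos (hT h)
    simp only [h, if_true, iff_true]; omega
  · simp [h]

theorem part_rad (m : ℕ) (T : Finset ℕ) (hT : T ⊆ m.primeFactors) :
    rad (part m T) = ∏ p ∈ T, p := by
  unfold rad; rw [part_pf m T hT]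

theorem part_Vv (m : ℕ) (T : Finset ℕ) (hT : T ⊆ m.primeFactors) :
    Vv (part m T) = ∏ p ∈ T,
      if m.factorization p = 1 then √(p : ℝ) else (p : ℝ) ^ (m.factorization p - 1) := by
  unfold Vv; rw [part_pf m T hT]
  refine Finset.prod_congr rfl fun p hp => ?_
  rw [part_fact m T hT, if_pos hp]

theorem part_all (m : ℕ) (hm : m ≠ 0) : part m m.primeFactors = m := by
  unfold part
  conv_rhs => rw [← Nat.prod_factorization_pow_eq_self hm]
  rw [Finsupp.prod, Nat.support_factorization]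

theorem part_union (m : ℕ) (T U : Finset ℕ) (h : Disjoint T U) :
    part m (T ∪ U) = part m T * part m U := Finset.prod_union h

theorem part_cop (m : ℕ) (T U : Finset ℕ) (hT : T ⊆ m.primeFactors) (hU : U ⊆ m.primeFactors)
    (h : Disjoint T U) : (part m T).Coprime (part m U) := by
  unfold part
  refine Nat.Coprime.prod_left fun p hp => Nat.Coprime.prod_right fun q hq => ?_
  refine Nat.Coprime.pow _ _ ?_
  rw [Nat.coprime_primes (Nat.prime_of_mem_primeFactors (hT hp))
    (Nat.prime_of_mem_primeFactors (hU hq))]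
  rintro rfl
  exact Finset.disjoint_left.mp h hp hq

theorem part_le (m : ℕ) (hm : m ≠ 0) (T : Finset ℕ) (hT : T ⊆ m.primeFactors) :
    part m T ≤ m := by
  have h := part_union m T (m.primeFactors \ T) Finset.disjoint_sdiff
  rw [Finset.union_sdiff_of_subset hT, part_all m hm] at h
  exact Nat.le_of_dvd (Nat.pos_of_ne_zero hm) ⟨_, h⟩

theorem cube_le (m : ℕ) (T : Finset ℕ) (hT : T ⊆ m.primeFactors)
    (h3 : ∀ p ∈ T, 3 ≤ m.factorization p) : (∏ p ∈ T, p) ^ 3 ≤ part m T := by
  unfold part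
  rw [← Finset.prod_pow]
  exact Finset.prod_le_prod' fun p hp =>
    Nat.pow_le_pow_right (Nat.prime_of_mem_primeFactors (hT hp)).pos (h3 p hp)

/-- a set of numbers `> 1` splits into two parts of small product -/
theorem halves (m : ℕ) (hm : 1 ≤ m) (P : Finset ℕ) (h1 : ∀ p ∈ P, 1 < p)
    (h4 : ∀ p ∈ P, p ^ 4 ≤ m) (h3 : (∏ p ∈ P, p) ^ 3 ≤ m) :
    ∃ T ⊆ P, (∏ p ∈ T, p) ^ 4 ≤ m ∧ (∏ p ∈ P \ T, p) ^ 4 ≤ m := by
  obtain ⟨T, hT, hmax⟩ := Finset.exists_max_image
    (P.powerset.filter fun T => (∏ p ∈ T, p) ^ 4 ≤ m) (fun T => ∏ p ∈ T, p)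
    ⟨∅, by simp [hm]⟩
  rw [Finset.mem_filter, Finset.mem_powerset] at hT
  refine ⟨T, hT.1, hT.2, ?_⟩
  by_contra hc
  rw [not_le] at hc
  have hne : (P \ T).Nonempty := by
    rw [Finset.nonempty_iff_ne_empty]
    intro h; rw [h] at hc; simp at hc; omega
  obtain ⟨x, hx⟩ := hne
  rw [Finset.mem_sdiff] at hx
  have hw : 0 < ∏ p ∈ T, p := Finset.prod_pos fun p hp => by have := h1 p (hT.1 hp); omega
  have hxw : x ≤ ∏ p ∈ T, p := by
    have := hmax {x} (by
      rw [Finset.mem_filter, Finset.mem_powerset]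
      exact ⟨by simpa using hx.1, by simpa using h4 x hx.1⟩)
    simpa using this
  have hbig : m < (x * ∏ p ∈ T, p) ^ 4 := by
    by_contra hb
    rw [not_lt] at hb
    have := hmax (insert x T) (by
      rw [Finset.mem_filter, Finset.mem_powerset]
      exact ⟨Finset.insert_subset hx.1 hT.1, by rw [Finset.prod_insert hx.2]; exact hb⟩)
    simp only [Finset.prod_insert hx.2] at this
    have h2 := h1 x hx.1
    nlinarith
  rw [← Finset.prod_sdiff hT.1] at h3
  generalize (∏ p ∈ T, p) = w at *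
  generalize (∏ p ∈ P \ T, p) = c at *
  have hw8 : m ≤ w ^ 8 := by
    have : (x * w) ^ 4 ≤ (w * w) ^ 4 := Nat.pow_le_pow_left (Nat.mul_le_mul_right w hxw) 4
    have e : (w * w) ^ 4 = w ^ 8 := by ring
    omega
  have a1 : m ^ 3 ≤ (w ^ 8) ^ 3 := Nat.pow_le_pow_left hw8 3
  have a2 : m ^ 6 < (c ^ 4) ^ 6 := Nat.pow_lt_pow_left hc (by norm_num)
  have a3 : ((c * w) ^ 3) ^ 8 ≤ m ^ 8 := Nat.pow_le_pow_left h3 8
  have a4 : m ^ 8 ≤ m ^ 9 := Nat.pow_le_pow_right hm (by norm_num)
  have a5 : m ^ 6 * m ^ 3 < (c ^ 4) ^ 6 * (w ^ 8) ^ 3 :=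
    Nat.mul_lt_mul_of_lt_of_le a2 a1 (by positivity)
  have e1 : m ^ 6 * m ^ 3 = m ^ 9 := by ring
  have e2 : (c ^ 4) ^ 6 * (w ^ 8) ^ 3 = ((c * w) ^ 3) ^ 8 := by ring
  omega

theorem v_sq (p a : ℕ) (ha : 1 ≤ a) :
    (if a = 1 then √(p : ℝ) else (p : ℝ) ^ (a - 1)) ^ 2 = (p : ℝ) ^ a * (p : ℝ) ^ (a - 2) := by
  split_ifs with h
  · subst h; simp
  · rw [← pow_mul, ← pow_add]; congr 1; omega

theorem m1 (ε : ℝ) (m : ℕ) (hm : 1 < m) (T : Finset ℕ)
    (hT : T ⊆ m.primeFactors) (hT2 : ∀ p ∈ T, 2 ≤ m.factorization p)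
    (h4 : (∏ p ∈ T, p) ^ 4 ≤ m)
    (hC : ∏ p ∈ m.primeFactors \ T, p ^ (m.factorization p - 2) ≤
      ∏ p ∈ T, p ^ (m.factorization p - 2))
    (hW : ¬ HW ε m) : HM1 ε m := by
  have hm0 : m ≠ 0 := by omega
  have hU : m.primeFactors \ T ⊆ m.primeFactors := Finset.sdiff_subset
  have hmul : m = part m T * part m (m.primeFactors \ T) := by
    rw [← part_union m T _ Finset.disjoint_sdiff, Finset.union_sdiff_of_subset hT, part_all m hm0]
  refine ⟨part m T, part m (m.primeFactors \ T), hmul,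
    part_cop m T _ hT hU Finset.disjoint_sdiff, ?_, ?_, ?_⟩
  · rw [part_rad m T hT, part_Vv m _ hU, mul_pow, ← Finset.prod_pow (m.primeFactors \ T),
      Finset.prod_congr rfl fun p hp => v_sq p _ (fact_pos (hU hp)), Finset.prod_mul_distrib]
    have e : (∏ p ∈ T, p) ^ 2 * ∏ p ∈ T, p ^ (m.factorization p - 2) = part m T := by
      unfold part
      rw [← Finset.prod_pow, ← Finset.prod_mul_distrib]
      refine Finset.prod_congr rfl fun p hp => ?_
      rw [← pow_add]; congr 1; have := hT2 p hp; omega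
    have key : (∏ p ∈ T, p) ^ 2 * (part m (m.primeFactors \ T) *
        ∏ p ∈ m.primeFactors \ T, p ^ (m.factorization p - 2)) ≤ m := by
      calc _ ≤ (∏ p ∈ T, p) ^ 2 * (part m (m.primeFactors \ T) *
            ∏ p ∈ T, p ^ (m.factorization p - 2)) :=
            Nat.mul_le_mul_left _ (Nat.mul_le_mul_left _ hC)
        _ = part m T * part m (m.primeFactors \ T) := by rw [← e]; ring
        _ = m := hmul.symm
    unfold part at key
    exact_mod_cast key
  · rw [part_rad m T hT]; exact h4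
  · have hmR : (0 : ℝ) < m := by exact_mod_cast (by omega : 0 < m)
    set R : ℝ := ∏ p ∈ m.primeFactors \ T, √(p : ℝ) with hR
    have hR0 : 0 ≤ R := Finset.prod_nonneg fun p _ => Real.sqrt_nonneg _
    have hR2 : R ^ 2 = ((∏ p ∈ m.primeFactors \ T, p : ℕ) : ℝ) := by
      rw [hR, ← Finset.prod_pow, Nat.cast_prod]
      exact Finset.prod_congr rfl fun p _ => Real.sq_sqrt (Nat.cast_nonneg p)
    have hw : ((∏ p ∈ T, p : ℕ) : ℝ) ≤ (m : ℝ) ^ (1 / 4 : ℝ) := by
      refine le_of_pow_le_pow_left₀ (n := 4) (by norm_num) (by positivity) ?_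
      rw [← Real.rpow_natCast ((m : ℝ) ^ (1 / 4 : ℝ)), ← Real.rpow_mul hmR.le]
      have e : (1 / 4 : ℝ) * ((4 : ℕ) : ℝ) = 1 := by norm_num
      rw [e, Real.rpow_one]
      exact_mod_cast h4
    have hrad : (rad m : ℝ) = R ^ 2 * ((∏ p ∈ T, p : ℕ) : ℝ) := by
      rw [hR2, ← Nat.cast_mul, Finset.prod_sdiff hT]; rfl
    unfold HW at hW
    rw [not_le, hrad, Real.rpow_add hmR] at hW
    have hq : (0 : ℝ) < (m : ℝ) ^ (1 / 4 : ℝ) := by positivity
    have h5 : (m : ℝ) ^ (ε / 4) ≤ R ^ 2 := by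
      by_contra hc
      rw [not_le] at hc
      have h6 : R ^ 2 * ((∏ p ∈ T, p : ℕ) : ℝ) ≤ R ^ 2 * (m : ℝ) ^ (1 / 4 : ℝ) :=
        mul_le_mul_of_nonneg_left hw (by positivity)
      nlinarith
    have h7 : (m : ℝ) ^ (ε / 8) ≤ R := by
      refine le_of_pow_le_pow_left₀ (n := 2) (by norm_num) hR0 ?_
      rw [← Real.rpow_natCast ((m : ℝ) ^ (ε / 8)), ← Real.rpow_mul hmR.le]
      have : ε / 8 * ((2 : ℕ) : ℝ) = ε / 4 := by push_cast; ring
      rw [this]; exact h5
    rw [part_Vv m _ hU]
    have hV0 : (0 : ℝ) ≤ ∏ p ∈ m.primeFactors \ T,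
        if m.factorization p = 1 then √(p : ℝ) else (p : ℝ) ^ (m.factorization p - 1) :=
      Finset.prod_nonneg fun p _ => by split_ifs <;> positivity
    refine (mul_le_mul_of_nonneg_right h7 hV0).trans ?_
    rw [hR, ← Finset.prod_mul_distrib]
    unfold part
    rw [Nat.cast_prod]
    refine Finset.prod_le_prod (fun p _ => by split_ifs <;> positivity) fun p hp => ?_
    have ha := fact_pos (hU hp)
    have hp1 : (1 : ℝ) ≤ p := by exact_mod_cast (Nat.prime_of_mem_primeFactors (hU hp)).pos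
    rw [Nat.cast_pow]
    split_ifs with h
    · rw [h, Real.mul_self_sqrt (Nat.cast_nonneg p), pow_one]
    · have e : (p : ℝ) ^ m.factorization p = p * (p : ℝ) ^ (m.factorization p - 1) := by
        rw [← pow_succ']; congr 1; omega
      rw [e]
      refine mul_le_mul_of_nonneg_right ?_ (by positivity)
      rw [Real.sqrt_le_left (by positivity)]
      nlinarith

end Spl

open Spl in
theorem split : SplitS := by
  intro ε m _ hm
  have hm0 : m ≠ 0 := by omega
  by_cases hW : HW ε m
  · exact Or.inl hW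
  refine Or.inr ?_
  set P := m.primeFactors.filter fun p => 3 ≤ m.factorization p with hP
  have hPs : P ⊆ m.primeFactors := Finset.filter_subset _ _
  have hP3 : ∀ p ∈ P, 3 ≤ m.factorization p := fun p hp => (Finset.mem_filter.mp hp).2
  have hlow : ∀ p ∈ m.primeFactors \ P, m.factorization p - 2 = 0 := by
    intro p hp
    rw [Finset.mem_sdiff, hP, Finset.mem_filter] at hp
    have : ¬ 3 ≤ m.factorization p := fun h => hp.2 ⟨hp.1, h⟩
    omega
  by_cases hbig : ∃ p ∈ P, m < p ^ 4
  · obtain ⟨p, hp, hp4⟩ := hbig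
    have hpp := Nat.prime_of_mem_primeFactors (hPs hp)
    have hs : ({p} : Finset ℕ) ⊆ m.primeFactors := by simpa using hPs hp
    have ha : m.factorization p = 3 := by
      have h1 : p ^ m.factorization p ≤ m := Nat.le_of_dvd (by omega) (Nat.ordProj_dvd m p)
      have h2 : m.factorization p < 4 := (Nat.pow_lt_pow_iff_right hpp.one_lt).mp (by omega)
      have := hP3 p hp
      omega
    have e3 : part m {p} = p ^ 3 := by unfold part; rw [Finset.prod_singleton, ha]
    have hU : m.primeFactors \ P ⊆ m.primeFactors := Finset.sdiff_subset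
    have hE : P.erase p ⊆ m.primeFactors := (Finset.erase_subset _ _).trans hPs
    have d1 : Disjoint (m.primeFactors \ P) {p} := by simp [hp]
    have d2 : Disjoint (P.erase p) (m.primeFactors \ P ∪ {p}) := by
      rw [Finset.disjoint_left]
      intro x hx hx'
      rw [Finset.mem_erase] at hx
      rw [Finset.mem_union, Finset.mem_sdiff, Finset.mem_singleton] at hx'
      rcases hx' with h | h
      · exact h.2 hx.2
      · exact hx.1 h
    have hu : P.erase p ∪ (m.primeFactors \ P ∪ {p}) = m.primeFactors := by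
      ext x
      simp only [Finset.mem_union, Finset.mem_erase, Finset.mem_sdiff, Finset.mem_singleton]
      constructor
      · rintro (h | h | h)
        · exact hPs h.2
        · exact h.1
        · rw [h]; exact hPs hp
      · intro h
        by_cases h1 : x = p
        · exact Or.inr (Or.inr h1)
        · by_cases h2 : x ∈ P
          · exact Or.inl ⟨h1, h2⟩
          · exact Or.inr (Or.inl ⟨h, h2⟩)
    refine Or.inr ⟨part m (P.erase p), part m (m.primeFactors \ P), p, hpp, ?_, ?_, ?_, hp4, ?_, ?_⟩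
    · rw [← e3, ← part_union m _ _ d1, ← part_union m _ _ d2, hu, part_all m hm0]
    · rw [← e3, ← part_union m _ _ d1]
      exact part_cop m _ _ hE (Finset.union_subset hU hs) d2
    · have := part_cop m _ _ hU hs d1
      rw [e3] at this
      exact (Nat.coprime_pow_right_iff (by norm_num) _ _).mp this
    · rw [part_rad m _ hE]
      exact cube_le m _ hE fun q hq => hP3 q (Finset.mem_of_mem_erase hq)
    · rw [part_Vv m _ hU, ← Finset.prod_pow,
        Finset.prod_congr rfl fun q hq => v_sq q _ (fact_pos (hU hq))]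
      unfold part
      rw [Nat.cast_prod]
      refine le_of_eq (Finset.prod_congr rfl fun q hq => ?_)
      rw [hlow q hq, pow_zero, mul_one, Nat.cast_pow]
  · push Not at hbig
    obtain ⟨T, hT, h4, h4'⟩ := halves m hm.le P
      (fun p hp => (Nat.prime_of_mem_primeFactors (hPs hp)).one_lt) hbig
      ((cube_le m P hPs hP3).trans (part_le m hm0 P hPs))
    have red : ∀ U ⊆ P, ∏ p ∈ m.primeFactors \ U, p ^ (m.factorization p - 2) =
        ∏ p ∈ P \ U, p ^ (m.factorization p - 2) := by
      intro U _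
      symm
      refine Finset.prod_subset (Finset.sdiff_subset_sdiff hPs (Finset.Subset.refl _)) ?_
      intro x hx hx'
      rw [Finset.mem_sdiff] at hx hx'
      rw [hlow x (Finset.mem_sdiff.mpr ⟨hx.1, fun h => hx' ⟨h, hx.2⟩⟩), pow_zero]
    refine Or.inl ?_
    rcases le_total (∏ p ∈ P \ T, p ^ (m.factorization p - 2))
      (∏ p ∈ T, p ^ (m.factorization p - 2)) with h | h
    · exact m1 ε m hm T (hT.trans hPs) (fun p hp => by have := hP3 p (hT hp); omega) h4
        (by rw [red T hT]; exact h) hW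
    · exact m1 ε m hm (P \ T) (Finset.sdiff_subset.trans hPs)
        (fun p hp => by have := hP3 p (Finset.sdiff_subset hp); omega) h4'
        (by rw [red _ Finset.sdiff_subset, Finset.sdiff_sdiff_eq_self hT]; exact h) hW

end Pool.Agent.MP_c5bf7b_nt.H38
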